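import Pool.Agent.Lib.MP_084b88_gt.CW.SpecC

/-!
# MP_084b88_gt, project CW, part C: module GLM (the planar inequality for general `h`)
-/

set_option autoImplicit false

open MeasureTheory Set Real Filter Topology
open scoped Pointwise InnerProductSpace

namespace Pool.Agent.Lib.MP_084b88_gt.CW

namespace GLMM

theorem abs_FF {x : ℝ} : |FF x| ≤ 1 := by
  have h1 : √(1 - x ^ 2) ≤ 1 := by
    rw [Real.sqrt_le_one]
    nlinarith [sq_nonneg x]
  have h0 : 0 ≤ √(1 - x ^ 2) := Real.sqrt_nonneg _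
  have hk0 : 0 ≤ kap := by
    unfold kap
    positivity
  have hk1 : kap ≤ 1 := by
    unfold kap
    rw [div_le_one (by positivity)]
    linarith [Real.pi_gt_three]
  unfold FF
  rw [abs_le]
  constructor <;> linarith

theorem cont_FF : Continuous FF := by
  unfold FF
  exact (Real.continuous_sqrt.comp (by fun_prop)).sub continuous_const

/-- bounded convergence -/
theorem bct {F : ℕ → ℝ → ℝ} {f : ℝ → ℝ} {C : ℝ} (hm : ∀ n, Measurable (F n))
    (hb : ∀ n t, |F n t| ≤ C) (hl : ∀ t, Tendsto (fun n => F n t) atTop (𝓝 (f t))) :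
    Tendsto (fun n => ∫ t in (0 : ℝ)..(2 * π), F n t) atTop (𝓝 (∫ t in (0 : ℝ)..(2 * π), f t)) := by
  refine intervalIntegral.tendsto_integral_filter_of_dominated_convergence (fun _ => C)
    ?_ ?_ ?_ ?_
  · exact Eventually.of_forall fun n => (hm n).aestronglyMeasurable
  · refine Eventually.of_forall fun n => Eventually.of_forall fun t _ => ?_
    rw [Real.norm_eq_abs]
    exact hb n t
  · exact intervalIntegrable_const
  · exact Eventually.of_forall fun t _ => hl t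

theorem g3f_lim {g : ℕ → ℝ → ℝ} {f : ℝ → ℝ} {C : ℝ} (hm : ∀ n, Measurable (g n))
    (hb : ∀ n t, |g n t| ≤ C) (hl : ∀ t, Tendsto (fun n => g n t) atTop (𝓝 (f t))) (t : ℝ) :
    Tendsto (fun n => g3f (g n) t) atTop (𝓝 (g3f f t)) := by
  have hc : Tendsto (fun n => ∫ s in (0 : ℝ)..(2 * π), g n s * cos s) atTop
      (𝓝 (∫ s in (0 : ℝ)..(2 * π), f s * cos s)) := by
    refine bct (C := C) (fun n => (hm n).mul Real.measurable_cos) (fun n s => ?_)
      fun s => (hl s).mul_const _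
    rw [abs_mul]
    calc |g n s| * |cos s| ≤ |g n s| * 1 :=
          mul_le_mul_of_nonneg_left (Real.abs_cos_le_one s) (abs_nonneg _)
      _ ≤ C := by rw [mul_one]; exact hb n s
  have hs : Tendsto (fun n => ∫ s in (0 : ℝ)..(2 * π), g n s * sin s) atTop
      (𝓝 (∫ s in (0 : ℝ)..(2 * π), f s * sin s)) := by
    refine bct (C := C) (fun n => (hm n).mul Real.measurable_sin) (fun n s => ?_)
      fun s => (hl s).mul_const _
    rw [abs_mul]
    calc |g n s| * |sin s| ≤ |g n s| * 1 :=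
          mul_le_mul_of_nonneg_left (Real.abs_sin_le_one s) (abs_nonneg _)
      _ ≤ C := by rw [mul_one]; exact hb n s
  unfold g3f
  exact ((hl t).sub ((tendsto_const_nhds.mul hc).mul_const _)).sub
    ((tendsto_const_nhds.mul hs).mul_const _)

theorem g3f_meas {g : ℝ → ℝ} (hm : Measurable g) : Measurable (g3f g) := by
  unfold g3f
  exact (hm.sub (measurable_const.mul Real.measurable_cos)).sub
    (measurable_const.mul Real.measurable_sin)

theorem g3f_bd {g : ℝ → ℝ} {C : ℝ} (hb : ∀ t, |g t| ≤ C) (t : ℝ) : |g3f g t| ≤ 5 * C := by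
  have hC : 0 ≤ C := (abs_nonneg _).trans (hb 0)
  have key : ∀ u : ℝ → ℝ, (∀ s, |u s| ≤ 1) →
      |(1 / π) * ∫ s in (0 : ℝ)..(2 * π), g s * u s| ≤ 2 * C := by
    intro u hu
    have h1 : ‖∫ s in (0 : ℝ)..(2 * π), g s * u s‖ ≤ C * |2 * π - 0| := by
      refine intervalIntegral.norm_integral_le_of_norm_le_const fun s _ => ?_
      rw [norm_mul, Real.norm_eq_abs, Real.norm_eq_abs]
      calc |g s| * |u s| ≤ C * 1 := mul_le_mul (hb s) (hu s) (abs_nonneg _) hC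
        _ = C := mul_one C
    rw [Real.norm_eq_abs, sub_zero, abs_of_pos (by positivity : (0 : ℝ) < 2 * π)] at h1
    rw [abs_mul, abs_of_pos (by positivity : (0 : ℝ) < 1 / π)]
    calc 1 / π * |∫ s in (0 : ℝ)..(2 * π), g s * u s| ≤ 1 / π * (C * (2 * π)) :=
          mul_le_mul_of_nonneg_left h1 (by positivity)
      _ = 2 * C := by
          field_simp
  have h1 := key cos Real.abs_cos_le_one
  have h2 := key sin Real.abs_sin_le_one
  have h3 : |((1 / π) * ∫ s in (0 : ℝ)..(2 * π), g s * cos s) * cos t| ≤ 2 * C := by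
    rw [abs_mul]
    calc |(1 / π) * ∫ s in (0 : ℝ)..(2 * π), g s * cos s| * |cos t| ≤ (2 * C) * 1 :=
          mul_le_mul h1 (Real.abs_cos_le_one t) (abs_nonneg _) (by linarith)
      _ = 2 * C := mul_one _
  have h4 : |((1 / π) * ∫ s in (0 : ℝ)..(2 * π), g s * sin s) * sin t| ≤ 2 * C := by
    rw [abs_mul]
    calc |(1 / π) * ∫ s in (0 : ℝ)..(2 * π), g s * sin s| * |sin t| ≤ (2 * C) * 1 :=
          mul_le_mul h2 (Real.abs_sin_le_one t) (abs_nonneg _) (by linarith)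
      _ = 2 * C := mul_one _
  have h5 := hb t
  unfold g3f
  rw [abs_le] at h3 h4 h5 ⊢
  constructor <;> linarith [h3.1, h3.2, h4.1, h4.2, h5.1, h5.2]

theorem neg_mem {τ : ℝ} (h : τ ∈ Ioo (-1 : ℝ) 1) : -τ ∈ Ioo (-1 : ℝ) 1 :=
  ⟨by linarith [h.2], by linarith [h.1]⟩

theorem IG_eq (G h : ℝ → ℝ) (t : ℝ) :
    IG G h t = Bh h t * ∫ τ in Ioo (-1 : ℝ) 1,
      ((Ioo (-1 : ℝ) 1).indicator (fun τ => UB h t τ) τ +
        (Ioo (-1 : ℝ) 1).indicator (fun τ => UB h (t + π) τ) (-τ)) * G τ := by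
  unfold IG
  congr 1
  refine setIntegral_congr_fun measurableSet_Ioo fun τ hτ => ?_
  show (UB h t τ + UB h (t + π) (-τ)) * G τ = _
  rw [Set.indicator_of_mem hτ, Set.indicator_of_mem (neg_mem hτ)]

theorem IG_meas {G h : ℝ → ℝ} (hG : Measurable G) (hB : Measurable (Bh h))
    (hU : Measurable (fun x : ℝ × ℝ => (Ioo (-1 : ℝ) 1).indicator (fun τ => UB h x.1 τ) x.2)) :
    Measurable (IG G h) := by
  have h0 : IG G h = fun t => Bh h t * ∫ τ in Ioo (-1 : ℝ) 1,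
      ((Ioo (-1 : ℝ) 1).indicator (fun τ => UB h t τ) τ +
        (Ioo (-1 : ℝ) 1).indicator (fun τ => UB h (t + π) τ) (-τ)) * G τ := by
    funext t
    exact IG_eq G h t
  rw [h0]
  refine hB.mul ?_
  have h1 : Measurable (fun x : ℝ × ℝ =>
      ((Ioo (-1 : ℝ) 1).indicator (fun τ => UB h x.1 τ) x.2 +
        (Ioo (-1 : ℝ) 1).indicator (fun τ => UB h (x.1 + π) τ) (-x.2)) * G x.2) := by
    refine Measurable.mul (hU.add ?_) (hG.comp measurable_snd)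
    exact hU.comp ((measurable_fst.add_const π).prodMk measurable_snd.neg)
  exact (h1.stronglyMeasurable.integral_prod_right
    (ν := volume.restrict (Ioo (-1 : ℝ) 1))).measurable

theorem U_bd {h G : ℝ → ℝ} {C : ℝ} (hG : ∀ τ ∈ Ioo (-1 : ℝ) 1, |G τ| ≤ 1)
    (hU : ∀ t, ∀ τ ∈ Ioo (-1 : ℝ) 1, |UB h t τ| ≤ C) (t : ℝ) {τ : ℝ} (hτ : τ ∈ Ioo (-1 : ℝ) 1) :
    ‖(UB h t τ + UB h (t + π) (-τ)) * G τ‖ ≤ 2 * C := by
  rw [norm_mul, Real.norm_eq_abs, Real.norm_eq_abs]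
  have h1 := hU t τ hτ
  have h2 := hU (t + π) (-τ) (neg_mem hτ)
  have h3 : |UB h t τ + UB h (t + π) (-τ)| ≤ 2 * C := by
    refine (abs_add_le _ _).trans ?_
    linarith
  calc |UB h t τ + UB h (t + π) (-τ)| * |G τ| ≤ (2 * C) * 1 :=
        mul_le_mul h3 (hG τ hτ) (abs_nonneg _) ((abs_nonneg _).trans h3)
    _ = 2 * C := mul_one _

theorem IG_bd {h G : ℝ → ℝ} {C : ℝ} (hG : ∀ τ ∈ Ioo (-1 : ℝ) 1, |G τ| ≤ 1)
    (hU : ∀ t, ∀ τ ∈ Ioo (-1 : ℝ) 1, |UB h t τ| ≤ C) (hB : ∀ t, |Bh h t| ≤ C) (t : ℝ) :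
    |IG G h t| ≤ C * (2 * C * 2) := by
  have hC : 0 ≤ C := (abs_nonneg _).trans (hB 0)
  unfold IG
  rw [abs_mul]
  refine mul_le_mul (hB t) ?_ (abs_nonneg _) hC
  rw [← Real.norm_eq_abs]
  refine (norm_setIntegral_le_of_norm_le_const (by simp)
    (fun τ hτ => U_bd hG hU t hτ)).trans (le_of_eq ?_)
  rw [Real.volume_real_Ioo_of_le (by norm_num)]
  norm_num

theorem IG_lim {h G : ℝ → ℝ} {hn : ℕ → ℝ → ℝ} {C : ℝ} (hGm : Measurable G)
    (hG : ∀ τ ∈ Ioo (-1 : ℝ) 1, |G τ| ≤ 1)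
    (hm : ∀ n, Measurable (fun x : ℝ × ℝ => (Ioo (-1 : ℝ) 1).indicator
      (fun τ => UB (hn n) x.1 τ) x.2))
    (hU : ∀ n t, ∀ τ ∈ Ioo (-1 : ℝ) 1, |UB (hn n) t τ| ≤ C)
    (hB : ∀ t, Tendsto (fun n => Bh (hn n) t) atTop (𝓝 (Bh h t)))
    (hconv : ∀ t, ∀ τ ∈ Ioo (-1 : ℝ) 1, Tendsto (fun n => UB (hn n) t τ) atTop (𝓝 (UB h t τ)))
    (t : ℝ) : Tendsto (fun n => IG G (hn n) t) atTop (𝓝 (IG G h t)) := by
  unfold IG
  refine (hB t).mul ?_
  refine tendsto_integral_of_dominated_convergence (fun _ => 2 * C) (fun n => ?_) ?_ ?_ ?_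
  · have h2 : Measurable (fun τ : ℝ => ((Ioo (-1 : ℝ) 1).indicator
        (fun τ => UB (hn n) t τ) τ + (Ioo (-1 : ℝ) 1).indicator
        (fun τ => UB (hn n) (t + π) τ) (-τ)) * G τ) :=
      (((hm n).comp (measurable_const.prodMk measurable_id)).add
        ((hm n).comp (measurable_const.prodMk measurable_id.neg))).mul hGm
    refine (h2.aestronglyMeasurable (μ := volume.restrict (Ioo (-1 : ℝ) 1))).congr ?_
    filter_upwards [ae_restrict_mem measurableSet_Ioo] with τ hτ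
    rw [Set.indicator_of_mem hτ, Set.indicator_of_mem (neg_mem hτ)]
  · exact integrable_const _
  · intro n
    filter_upwards [ae_restrict_mem measurableSet_Ioo] with τ hτ
    exact U_bd hG (hU n) t hτ
  · filter_upwards [ae_restrict_mem measurableSet_Ioo] with τ hτ
    exact ((hconv t τ hτ).add (hconv (t + π) (-τ) (neg_mem hτ))).mul_const _

end GLMM

open GLMM in
theorem specGLM (hGSM : SpecGSM) (hGAP : SpecGAP) (hGCV : SpecGCV) (hGAG : SpecGAG)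
    (hHPB : SpecHPB) : SpecGLM := by
  intro h Λ b δ ε l σ hΛ hb hδ hε hl hσ hδε hεl hσ2 hlip hper hcl hBh hgh
  have hε1 : ε ≤ 1 / 20 := by
    have := mul_nonneg hl hσ
    linarith
  have hδ1 : δ < 1 := by
    have h1 : ε ^ 4 ≤ 1 := pow_le_one₀ hε.le (by linarith)
    linarith
  -- approximation
  have happ : ∀ n : ℕ, ∃ (M : ℕ) (c : ℕ → ℂ), RP M c ∧
      (∀ θ, |hp M c θ - h θ| ≤ 1 / ((n : ℝ) + 1)) ∧
      (∀ θ, |hp M (dk c) θ| ≤ Λ) ∧ (∀ t, |Bh (hp M c) t - b| ≤ δ * b) ∧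
      (∀ t, |gh (hp M c) t| ≤ σ * b) := by
    intro n
    exact hGAP h Λ b δ σ hΛ hb hδ hδ1 hσ hlip hper hcl hBh hgh (1 / ((n : ℝ) + 1)) (by positivity)
  choose M c hRP hM1 hM2 hM3 hM4 using happ
  -- bounds
  have hdec : ∀ (k : ℝ → ℝ) (t : ℝ), Bh k t + gh k t = k t := by
    intro k t
    unfold Bh gh
    ring
  have hbound : ∀ k : ℝ → ℝ, (∀ t, |Bh k t - b| ≤ δ * b) → (∀ t, |gh k t| ≤ σ * b) →
      ∀ t, |k t| ≤ (1 + δ + σ) * b := by
    intro k h1 h2 t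
    have a1 := h1 t
    have a2 := h2 t
    rw [← hdec k t]
    rw [abs_le] at a1 a2 ⊢
    constructor <;> linarith [a1.1, a1.2, a2.1, a2.2]
  have hlipn : ∀ n θ θ', |hp (M n) (c n) θ - hp (M n) (c n) θ'| ≤ Λ * |θ - θ'| := by
    intro n θ θ'
    have hd := (hHPB (M n) (c n)).1
    have := Convex.norm_image_sub_le_of_norm_hasDerivWithin_le (s := Set.univ)
      (f := hp (M n) (c n)) (f' := fun t => hp (M n) (dk (c n)) t) (C := Λ)
      (fun x _ => (hd x).hasDerivWithinAt) (fun x _ => hM2 n x) convex_univ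
      (Set.mem_univ θ') (Set.mem_univ θ)
    simpa [Real.norm_eq_abs] using this
  obtain ⟨Λ', hΛ'def⟩ : ∃ Λ' : ℝ, Λ' = Λ + (1 + δ + σ) * b := ⟨_, rfl⟩
  have hsb : 0 ≤ (1 + δ + σ) * b := by positivity
  have hΛ'0 : 0 ≤ Λ' := by rw [hΛ'def]; linarith
  have hΛΛ' : Λ ≤ Λ' := by rw [hΛ'def]; linarith
  have hbΛ' : (1 + δ + σ) * b ≤ Λ' := by rw [hΛ'def]; linarith
  have hβ : 0 < (1 - δ) * b := mul_pos (by linarith) hb
  have hlow : ∀ k : ℝ → ℝ, (∀ t, |Bh k t - b| ≤ δ * b) → ∀ t, (1 - δ) * b ≤ Bh k t := by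
    intro k h1 t
    have a1 := (abs_le.1 (h1 t)).1
    linarith
  have hBup : ∀ k : ℝ → ℝ, (∀ t, |Bh k t - b| ≤ δ * b) → ∀ t, |Bh k t| ≤ Λ' := by
    intro k h1 t
    have a1 := abs_le.1 (h1 t)
    have a2 : 0 ≤ σ * b := by positivity
    rw [abs_le]
    constructor <;> nlinarith [a1.1, a1.2]
  have hC0 : ∀ θ, |h θ| ≤ Λ' := fun θ => (hbound h hBh hgh θ).trans hbΛ'
  have hCn : ∀ n θ, |hp (M n) (c n) θ| ≤ Λ' := fun n θ =>
    (hbound _ (hM3 n) (hM4 n) θ).trans hbΛ'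
  have hL0 : ∀ θ θ', |h θ - h θ'| ≤ Λ' * |θ - θ'| := fun θ θ' =>
    (hlip θ θ').trans (mul_le_mul_of_nonneg_right hΛΛ' (abs_nonneg _))
  have hLn : ∀ n θ θ', |hp (M n) (c n) θ - hp (M n) (c n) θ'| ≤ Λ' * |θ - θ'| := fun n θ θ' =>
    (hlipn n θ θ').trans (mul_le_mul_of_nonneg_right hΛΛ' (abs_nonneg _))
  have hpern : ∀ n θ, hp (M n) (c n) (θ + 2 * π) = hp (M n) (c n) θ := fun n θ =>
    (hHPB (M n) (c n)).2.1 θ
  -- convergence
  have he : Tendsto (fun n : ℕ => 1 / ((n : ℝ) + 1)) atTop (𝓝 0) :=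
    tendsto_one_div_add_atTop_nhds_zero_nat
  have hconv : ∀ θ, ∀ τ ∈ Ioo (-1 : ℝ) 1,
      Tendsto (fun n => UB (hp (M n) (c n)) θ τ) atTop (𝓝 (UB h θ τ)) :=
    (hGCV h Λ' ((1 - δ) * b) hΛ'0 hβ hper hL0 hC0 (hlow h hBh)).2.2
      (fun n => hp (M n) (c n)) (fun n => 1 / ((n : ℝ) + 1)) hpern hLn hCn
      (fun n => hlow _ (hM3 n)) hM1 he
  have hmeas : ∀ n, Measurable (fun x : ℝ × ℝ => (Ioo (-1 : ℝ) 1).indicator
      (fun τ => UB (hp (M n) (c n)) x.1 τ) x.2) := fun n =>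
    (hGCV (hp (M n) (c n)) Λ' ((1 - δ) * b) hΛ'0 hβ (hpern n) (hLn n) (hCn n)
      (hlow _ (hM3 n))).2.1
  have hUbd : ∀ n θ, ∀ τ ∈ Ioo (-1 : ℝ) 1, |UB (hp (M n) (c n)) θ τ| ≤ Λ' := by
    intro n θ τ hτ
    refine ((hGAG (M n) (c n) (hRP n) θ).2.2.2.2.2 τ hτ).trans ?_
    have h1 : (⨆ t, |hp (M n) (c n) t|) ≤ (1 + δ + σ) * b :=
      ciSup_le fun t => hbound _ (hM3 n) (hM4 n) t
    have h2 : (⨆ t, |hp (M n) (dk (c n)) t|) ≤ Λ := ciSup_le fun t => hM2 n t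
    rw [hΛ'def]
    linarith
  have hpt : ∀ θ, Tendsto (fun n => hp (M n) (c n) θ) atTop (𝓝 (h θ)) := by
    intro θ
    rw [tendsto_iff_dist_tendsto_zero]
    refine squeeze_zero (fun n => dist_nonneg) (fun n => ?_) he
    rw [Real.dist_eq]
    exact hM1 n θ
  have hBpt : ∀ θ, Tendsto (fun n => Bh (hp (M n) (c n)) θ) atTop (𝓝 (Bh h θ)) := by
    intro θ
    unfold Bh
    exact ((hpt θ).add (hpt (θ + π))).div_const 2
  have hgpt : ∀ θ, Tendsto (fun n => gh (hp (M n) (c n)) θ) atTop (𝓝 (gh h θ)) := by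
    intro θ
    unfold gh
    exact ((hpt θ).sub (hpt (θ + π))).div_const 2
  -- measurability
  have hcn : ∀ n, Measurable (hp (M n) (c n)) := fun n => (hHPB (M n) (c n)).2.2.1.measurable
  have hBm : ∀ n, Measurable (Bh (hp (M n) (c n))) := by
    intro n
    unfold Bh
    exact ((hcn n).add ((hcn n).comp (measurable_id.add_const π))).div_const 2
  have hgm : ∀ n, Measurable (gh (hp (M n) (c n))) := by
    intro n
    unfold gh
    exact ((hcn n).sub ((hcn n).comp (measurable_id.add_const π))).div_const 2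
  have hid : ∀ τ ∈ Ioo (-1 : ℝ) 1, |(fun τ : ℝ => τ) τ| ≤ 1 := by
    intro τ hτ
    exact abs_le.2 ⟨hτ.1.le, hτ.2.le⟩
  -- the five limits
  have l1 : Tendsto (fun n => ∫ t in (0 : ℝ)..(2 * π), (Bh (hp (M n) (c n)) t - b) ^ 2) atTop
      (𝓝 (∫ t in (0 : ℝ)..(2 * π), (Bh h t - b) ^ 2)) := by
    refine bct (C := (δ * b) ^ 2) (fun n => ((hBm n).sub_const b).pow_const 2) (fun n t => ?_)
      fun t => ((hBpt t).sub_const b).pow 2
    rw [abs_pow]
    exact pow_le_pow_left₀ (abs_nonneg _) (hM3 n t) 2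
  have hg3 := g3f_lim hgm hM4 hgpt
  have l2 : Tendsto (fun n => ∫ t in (0 : ℝ)..(2 * π), g3f (gh (hp (M n) (c n))) t ^ 2) atTop
      (𝓝 (∫ t in (0 : ℝ)..(2 * π), g3f (gh h) t ^ 2)) := by
    refine bct (C := (5 * (σ * b)) ^ 2) (fun n => (g3f_meas (hgm n)).pow_const 2)
      (fun n t => ?_) fun t => (hg3 t).pow 2
    rw [abs_pow]
    exact pow_le_pow_left₀ (abs_nonneg _) (g3f_bd (hM4 n) t) 2
  have l3 : Tendsto (fun n => ∫ t in (0 : ℝ)..(2 * π), gh (hp (M n) (c n)) t ^ 2) atTop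
      (𝓝 (∫ t in (0 : ℝ)..(2 * π), gh h t ^ 2)) := by
    refine bct (C := (σ * b) ^ 2) (fun n => (hgm n).pow_const 2)
      (fun n t => ?_) fun t => (hgpt t).pow 2
    rw [abs_pow]
    exact pow_le_pow_left₀ (abs_nonneg _) (hM4 n t) 2
  have l4 : Tendsto (fun n => ∫ t in (0 : ℝ)..(2 * π), IG FF (hp (M n) (c n)) t) atTop
      (𝓝 (∫ t in (0 : ℝ)..(2 * π), IG FF h t)) :=
    bct (C := Λ' * (2 * Λ' * 2))
      (fun n => IG_meas cont_FF.measurable (hBm n) (hmeas n))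
      (fun n t => IG_bd (fun τ _ => abs_FF) (hUbd n) (hBup _ (hM3 n)) t)
      (IG_lim cont_FF.measurable (fun τ _ => abs_FF) hmeas hUbd hBpt hconv)
  have l5 : Tendsto (fun n => ∫ t in (0 : ℝ)..(2 * π),
      gh (hp (M n) (c n)) t / b * IG (fun τ => τ) (hp (M n) (c n)) t) atTop
      (𝓝 (∫ t in (0 : ℝ)..(2 * π), gh h t / b * IG (fun τ => τ) h t)) := by
    refine bct (C := σ * (Λ' * (2 * Λ' * 2)))
      (fun n => ((hgm n).div_const b).mul (IG_meas measurable_id (hBm n) (hmeas n)))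
      (fun n t => ?_)
      (fun t => ((hgpt t).div_const b).mul
        (IG_lim measurable_id hid hmeas hUbd hBpt hconv t))
    rw [abs_mul]
    refine mul_le_mul ?_ (IG_bd hid (hUbd n) (hBup _ (hM3 n)) t) (abs_nonneg _) hσ
    rw [abs_div, abs_of_pos hb, div_le_iff₀ hb]
    exact hM4 n t
  have hpn : ∀ n, PNh (hp (M n) (c n)) b δ ε l σ := fun n =>
    hGSM (M n) (c n) (hRP n) b δ ε l σ hb hδ hε hl hσ hδε hεl hσ2 (hM3 n) (hM4 n)
  unfold PNh at hpn ⊢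
  have hL := (((((l1.const_mul (2 * π)).add (l2.const_mul (8 * π))).const_mul
    (ε + l * σ)).neg).add ((l2.pow 2).div_const (8 * π * b ^ 2))).add
    (((l2.const_mul (1 - δ / 2)).sub (l3.const_mul (δ / 2))).const_mul (l * π))
  exact le_of_tendsto_of_tendsto' hL (l4.sub (l5.const_mul l)) hpn

end Pool.Agent.Lib.MP_084b88_gt.CW
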