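import Pool.Agent.Lib.MP_084b88_gt.CW.SpecB

/-!
# MP_084b88_gt, project CW: module DUA (slices of a planar body of constant width 2 by duality)
-/

set_option autoImplicit false

open MeasureTheory Set Real Filter Topology
open scoped Pointwise InnerProductSpace

namespace Pool.Agent.Lib.MP_084b88_gt.CW

namespace DUAM

/-- the point with coordinates `(s,t)` in the rotated frame. -/
noncomputable def pt (θ s t : ℝ) : ℝ × ℝ := (s * cos θ - t * sin θ, s * sin θ + t * cos θ)

theorem dotu_pt (θ s t α : ℝ) : dotu (θ + α) (pt θ s t) = s * cos α + t * sin α := by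
  unfold dotu pt
  rw [cos_add, sin_add]
  have h := sin_sq_add_cos_sq θ
  linear_combination (s * cos α + t * sin α) * h

theorem pt_dotu (θ : ℝ) (p : ℝ × ℝ) : pt θ (dotu θ p) (dotu (θ + π / 2) p) = p := by
  unfold dotu pt
  rw [cos_add_pi_div_two, sin_add_pi_div_two]
  have h := sin_sq_add_cos_sq θ
  apply Prod.ext
  · simp only
    linear_combination p.1 * h
  · simp only
    linear_combination p.2 * h

/-- separation. -/
theorem mem_of_dotu_le (hWB2 : SpecWB2) (Q : Set (ℝ × ℝ)) (hQ : CC Q) (p : ℝ × ℝ)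
    (h : ∀ φ, dotu φ p ≤ sup2 Q φ) : p ∈ Q := by
  by_contra hp
  obtain ⟨f, u, hf1, hf2⟩ := geometric_hahn_banach_closed_point hQ.1 hQ.2.1.isClosed hp
  have hlin : ∀ q : ℝ × ℝ, f q = q.1 * f (1, 0) + q.2 * f (0, 1) := by
    intro q
    have e : q = q.1 • ((1 : ℝ), (0 : ℝ)) + q.2 • ((0 : ℝ), (1 : ℝ)) := by
      ext <;> simp
    nth_rewrite 1 [e]
    rw [map_add, map_smul, map_smul, smul_eq_mul, smul_eq_mul]
  set z : ℂ := ⟨f (1, 0), f (0, 1)⟩ with hz
  have hr : ∀ q : ℝ × ℝ, f q = ‖z‖ * dotu z.arg q := by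
    intro q
    rw [hlin q]
    unfold dotu
    have h1 := Complex.norm_mul_cos_arg z
    have h2 := Complex.norm_mul_sin_arg z
    have h3 : z.re = f (1, 0) := rfl
    have h4 : z.im = f (0, 1) := rfl
    rw [← h3, ← h4, ← h1, ← h2]
    ring
  obtain ⟨q, hq, hqe⟩ := hWB2.2.1 Q hQ z.arg
  have h1 := hf1 q hq
  rw [hr, hqe] at h1
  rw [hr] at hf2
  have h2 := mul_le_mul_of_nonneg_left (h z.arg) (norm_nonneg z)
  linarith

theorem sup2_add_int (hWB2 : SpecWB2) (Q : Set (ℝ × ℝ)) (θ : ℝ) (k : ℤ) :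
    sup2 Q (θ + k * (2 * π)) = sup2 Q θ := by
  have hper : Function.Periodic (sup2 Q) (2 * π) := fun x => hWB2.2.2.2.1 Q x
  exact (hper.int_mul k) θ

theorem dotu_add_int (p : ℝ × ℝ) (θ : ℝ) (k : ℤ) :
    dotu (θ + k * (2 * π)) p = dotu θ p := by
  unfold dotu
  rw [cos_add_int_mul_two_pi, sin_add_int_mul_two_pi]

end DUAM

open DUAM in
theorem specDUA (hWB2 : SpecWB2) : SpecDUA := by
  intro Q hQ hwid θ τ hτ
  have hne : Nonempty (Ioo (0 : ℝ) π) := ⟨⟨π / 2, by constructor <;> linarith [pi_pos]⟩⟩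
  set s := τ + mid Q θ with hs
  have hwθ : sup2 Q θ + sup2 Q (θ + π) = 2 := hwid θ
  have hmid : mid Q θ = (sup2 Q θ - sup2 Q (θ + π)) / 2 := rfl
  have hper := hWB2.2.2.2.1 Q
  -- the two fractions
  set f1 : Ioo (0 : ℝ) π → ℝ := fun α => (sup2 Q (θ + α) - s * cos α) / sin α with hf1
  set f2 : Ioo (0 : ℝ) π → ℝ := fun α => (sup2 Q (θ + π + α) + s * cos α) / sin α with hf2
  have hU1 : Uf (sup2 Q) θ τ = ⨅ α, f1 α := rfl
  have hU2 : Uf (sup2 Q) (θ + π) (-τ) = ⨅ α, f2 α := by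
    unfold Uf
    congr 1
    funext α
    rw [hf2]
    simp only
    congr 1
    have e1 : θ + π + π = θ + 2 * π := by ring
    rw [e1, hper θ, hs, hmid]
    ring
  -- membership
  have key : ∀ t : ℝ, pt θ s t ∈ Q ↔ (∀ α, t ≤ f1 α) ∧ (∀ α, -t ≤ f2 α) := by
    intro t
    constructor
    · intro hmem
      constructor
      · rintro ⟨α, hα⟩
        have hsin : 0 < sin α := sin_pos_of_pos_of_lt_pi hα.1 hα.2
        have h1 := hWB2.1 Q hQ (θ + α) _ hmem
        rw [dotu_pt] at h1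
        rw [hf1]
        simp only
        rw [le_div_iff₀ hsin]
        linarith
      · rintro ⟨α, hα⟩
        have hsin : 0 < sin α := sin_pos_of_pos_of_lt_pi hα.1 hα.2
        have h1 := hWB2.1 Q hQ (θ + (π + α)) _ hmem
        rw [dotu_pt, cos_add, sin_add, cos_pi, sin_pi] at h1
        rw [hf2]
        simp only
        rw [le_div_iff₀ hsin]
        have e1 : θ + (π + α) = θ + π + α := by ring
        rw [e1] at h1
        linarith
    · rintro ⟨h1, h2⟩
      apply mem_of_dotu_le hWB2 Q hQ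
      intro φ
      -- reduce to `β = φ - θ - 2πk ∈ [0, 2π)`
      obtain ⟨k, hk, -⟩ := existsUnique_add_zsmul_mem_Ico (a := 2 * π) two_pi_pos (φ - θ) 0
      simp only [zsmul_eq_mul, zero_add, mem_Ico] at hk
      set β := φ - θ + k * (2 * π) with hβ
      have e1 : θ + β = φ + k * (2 * π) := by rw [hβ]; ring
      have e2 : dotu φ (pt θ s t) = dotu (θ + β) (pt θ s t) := by
        rw [e1, dotu_add_int]
      have e3 : sup2 Q φ = sup2 Q (θ + β) := by
        rw [e1, sup2_add_int hWB2]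
      rw [e2, e3, dotu_pt]
      rcases hk with ⟨hk0, hk1⟩
      rcases hk0.eq_or_lt with h0 | h0
      · rw [← h0]
        simp only [cos_zero, sin_zero, mul_one, mul_zero, add_zero]
        rw [hs, hmid]
        linarith [hτ.2]
      · rcases lt_trichotomy β π with hb | hb | hb
        · have hsin : 0 < sin β := sin_pos_of_pos_of_lt_pi h0 hb
          have h3 := h1 ⟨β, h0, hb⟩
          rw [hf1] at h3
          simp only at h3
          rw [le_div_iff₀ hsin] at h3
          linarith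
        · rw [hb]
          simp only [cos_pi, sin_pi, mul_zero, add_zero]
          rw [hs, hmid]
          linarith [hτ.1]
        · have hα : β - π ∈ Ioo (0 : ℝ) π := ⟨by linarith, by linarith⟩
          have hsin : 0 < sin (β - π) := sin_pos_of_pos_of_lt_pi hα.1 hα.2
          have h3 := h2 ⟨β - π, hα⟩
          rw [hf2] at h3
          simp only at h3
          rw [le_div_iff₀ hsin] at h3
          have e4 : θ + π + (β - π) = θ + β := by ring
          rw [e4, cos_sub_pi, sin_sub_pi] at h3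
          linarith
  -- a point on the line
  have hpoint : ∃ t0 : ℝ, pt θ s t0 ∈ Q := by
    have h8 := (hWB2.2.2.2.2.2.2.2.1 Q hQ θ).2
    have hsmem : s ∈ Icc (- sup2 Q (θ + π)) (sup2 Q θ) := by
      rw [hs, hmid]
      constructor
      · linarith [hτ.1]
      · linarith [hτ.2]
    rw [← h8] at hsmem
    obtain ⟨q, hq, hqs⟩ := hsmem
    refine ⟨dotu (θ + π / 2) q, ?_⟩
    rw [← hqs, pt_dotu]
    exact hq
  obtain ⟨t0, ht0⟩ := hpoint
  have ht0' := (key t0).1 ht0
  have hB1 : BddBelow (range f1) := ⟨t0, by rintro _ ⟨α, rfl⟩; exact ht0'.1 α⟩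
  have hB2 : BddBelow (range f2) := ⟨-t0, by rintro _ ⟨α, rfl⟩; exact ht0'.2 α⟩
  have h1 : t0 ≤ Uf (sup2 Q) θ τ := by
    rw [hU1]; exact le_ciInf ht0'.1
  have h2 : -t0 ≤ Uf (sup2 Q) (θ + π) (-τ) := by
    rw [hU2]; exact le_ciInf ht0'.2
  refine ⟨by linarith, ?_⟩
  ext t
  change pt θ s t ∈ Q ↔ _
  rw [key t, mem_Icc, hU1, hU2, le_ciInf_iff hB1, neg_le, le_ciInf_iff hB2]
  exact and_comm

end Pool.Agent.Lib.MP_084b88_gt.CW
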