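import Pool.Agent.Lib.MP_084b88_gt.CW.SpecB

/-!
# MP_084b88_gt, project CW: module SLC (slices)
-/

set_option autoImplicit false

open MeasureTheory Set Real Filter Topology
open scoped Pointwise InnerProductSpace

namespace Pool.Agent.Lib.MP_084b88_gt.CW

namespace SLCM

/-- the inverse rotation -/
noncomputable def ro (θ : ℝ) (x : ℝ × ℝ) : ℝ × ℝ :=
  (x.1 * cos θ - x.2 * sin θ, x.1 * sin θ + x.2 * cos θ)

theorem ro_eq (θ : ℝ) (x : ℝ × ℝ) : ro θ x = (dotu (-θ) x, dotu (-θ + π / 2) x) := by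
  unfold ro dotu
  rw [cos_neg, sin_neg, cos_add_pi_div_two, sin_add_pi_div_two, sin_neg, cos_neg]
  ext <;> simp
  ring

theorem continuous_ro (θ : ℝ) : Continuous (ro θ) := by
  unfold ro
  fun_prop

theorem dotu_ro (θ : ℝ) (x : ℝ × ℝ) : dotu θ (ro θ x) = x.1 := by
  unfold dotu ro
  have := sin_sq_add_cos_sq θ
  simp only
  linear_combination x.1 * this

theorem ro_inj (θ : ℝ) : Function.Injective (ro θ) := by
  intro x y h
  unfold ro at h
  have h1 := congrArg Prod.fst h
  have h2 := congrArg Prod.snd h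
  simp only at h1 h2
  have h3 := sin_sq_add_cos_sq θ
  ext
  · linear_combination cos θ * h1 + sin θ * h2 - (x.1 - y.1) * h3
  · linear_combination cos θ * h2 - sin θ * h1 - (x.2 - y.2) * h3

theorem cont_FF : Continuous FF := by
  unfold FF
  exact ((continuous_const.sub (continuous_id.pow 2)).sqrt).sub continuous_const

/-- Fubini -/
theorem fub (S : Set (ℝ × ℝ)) (hS : IsCompact S) (f : ℝ → ℝ) (hf : Continuous f) :
    ∫ x in S, f x.1 = ∫ s, (volume {t | (s, t) ∈ S}).toReal * f s := by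
  have hSm : MeasurableSet S := hS.isClosed.measurableSet
  have hint : IntegrableOn (fun x : ℝ × ℝ => f x.1) S volume :=
    (hf.comp continuous_fst).continuousOn.integrableOn_compact hS
  rw [← integral_indicator hSm]
  have hint2 : Integrable (S.indicator (fun x : ℝ × ℝ => f x.1)) (volume.prod volume) := by
    rw [← Measure.volume_eq_prod]
    exact (integrable_indicator_iff hSm).2 hint
  rw [Measure.volume_eq_prod, integral_prod _ hint2]
  refine integral_congr_ae (Eventually.of_forall fun s => ?_)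
  simp only
  have hm : MeasurableSet {t : ℝ | (s, t) ∈ S} := measurable_prodMk_left hSm
  have e : (fun t : ℝ => S.indicator (fun x : ℝ × ℝ => f x.1) (s, t)) =
      ({t : ℝ | (s, t) ∈ S}).indicator (fun _ => f s) := by
    funext t
    by_cases h : (s, t) ∈ S
    · rw [indicator_of_mem h, indicator_of_mem (by exact h)]
    · rw [indicator_of_notMem h, indicator_of_notMem (by exact h)]
  rw [e, integral_indicator hm, setIntegral_const]
  rfl

end SLCM

open SLCM in
theorem specSLC (hDUA : SpecDUA) (hRO2 : SpecRO2) (hWB2 : SpecWB2) : SpecSLC := by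
  intro Q hQ hw θ
  obtain ⟨w1, w2, w3, w4, w5, w6, w7, w8, w9, w10, w11⟩ := hWB2
  set m := mid Q θ with hm
  have hQc : IsClosed Q := hQ.2.1.isClosed
  have hmp : MeasurePreserving (ro θ) volume volume := by
    have h := (hRO2 (-θ)).1
    have e : (fun p : ℝ × ℝ => (dotu (-θ) p, dotu (-θ + π / 2) p)) = ro θ := by
      funext x
      exact (ro_eq θ x).symm
    rwa [e] at h
  have hemb : MeasurableEmbedding (ro θ) := (continuous_ro θ).measurableEmbedding (ro_inj θ)
  have h1 : ∫ p in Q, FF (dotu θ p - m) = ∫ x in ro θ ⁻¹' Q, FF (x.1 - m) := by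
    rw [← hmp.setIntegral_preimage_emb hemb (fun p => FF (dotu θ p - m)) Q]
    simp only [dotu_ro]
  -- compactness
  have hScomp : IsCompact (ro θ ⁻¹' Q) := by
    have hcl : IsClosed (ro θ ⁻¹' Q) := hQc.preimage (continuous_ro θ)
    have hrep : ro θ ⁻¹' Q ⊆ (ro (-θ)) '' Q := by
      intro x hx
      refine ⟨ro θ x, hx, ?_⟩
      unfold ro
      have h3 := sin_sq_add_cos_sq θ
      ext
      · simp only [cos_neg, sin_neg]
        linear_combination x.1 * h3
      · simp only [cos_neg, sin_neg]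
        linear_combination x.2 * h3
    exact (hQ.2.1.image (continuous_ro (-θ))).of_isClosed_subset hcl hrep
  rw [h1, fub _ hScomp (fun s => FF (s - m)) (cont_FF.comp (continuous_id.sub continuous_const)),
    ← integral_add_right_eq_self (μ := volume) _ m, ← integral_indicator measurableSet_Ioo]
  have hae : ∀ᵐ τ : ℝ, τ ≠ 1 ∧ τ ≠ -1 := by
    have a1 : ∀ᵐ τ : ℝ, τ ≠ 1 := by
      simp [ae_iff, measure_singleton]
    have a2 : ∀ᵐ τ : ℝ, τ ≠ -1 := by
      simp [ae_iff, measure_singleton]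
    filter_upwards [a1, a2] with τ t1 t2 using ⟨t1, t2⟩
  refine integral_congr_ae ?_
  filter_upwards [hae] with τ hτ
  have e1 : τ + m - m = τ := by ring
  have e2 : {t : ℝ | (τ + m, t) ∈ ro θ ⁻¹' Q} =
      {t : ℝ | ((τ + m) * cos θ - t * sin θ, (τ + m) * sin θ + t * cos θ) ∈ Q} := rfl
  by_cases h : τ ∈ Ioo (-1 : ℝ) 1
  · rw [indicator_of_mem h, e1, e2, (hDUA Q hQ hw θ τ h).2, Real.volume_Icc,
      ENNReal.toReal_ofReal (by linarith [(hDUA Q hQ hw θ τ h).1])]
    ring
  · rw [indicator_of_notMem h]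
    have e3 : {t : ℝ | (τ + m, t) ∈ ro θ ⁻¹' Q} = ∅ := by
      rw [Set.eq_empty_iff_forall_notMem]
      intro t ht
      have h4 : dotu θ (ro θ (τ + m, t)) ∈ dotu θ '' Q := ⟨_, ht, rfl⟩
      rw [dotu_ro, (w8 Q hQ θ).2] at h4
      have h5 := hw θ
      unfold wid at h5
      have h6 : m = (sup2 Q θ - sup2 Q (θ + π)) / 2 := rfl
      simp only [mem_Icc] at h4
      apply h
      have h7 : τ ≤ 1 := by linarith [h4.2]
      have h8 : -1 ≤ τ := by linarith [h4.1]
      exact ⟨lt_of_le_of_ne h8 (fun h => hτ.2 h.symm), lt_of_le_of_ne h7 hτ.1⟩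
    rw [e3, measure_empty]
    simp

end Pool.Agent.Lib.MP_084b88_gt.CW
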