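import Pool.Agent.Lib.MP_084b88_gt.CW.SpecC
import Pool.Agent.Lib.MP_084b88_gt.CW.DUA
import Pool.Agent.Lib.MP_084b88_gt.CW.SLC

/-!
# MP_084b88_gt, project CW: module GDU (slices of a planar body by duality)
-/

set_option autoImplicit false

open MeasureTheory Set Real Filter Topology
open scoped Pointwise InnerProductSpace

namespace Pool.Agent.Lib.MP_084b88_gt.CW

namespace GDUM

open DUAM

/-- The slice in the direction `θ`. -/
theorem dual (hWB2 : SpecWB2) (Q : Set (ℝ × ℝ)) (hQ : CC Q) (θ τ : ℝ) (hwid : 0 < wid Q θ)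
    (hτ : τ ∈ Ioo (-1 : ℝ) 1) :
    -UB (sup2 Q) (θ + π) (-τ) ≤ UB (sup2 Q) θ τ ∧
    {t : ℝ | pt θ (mid Q θ + τ * (wid Q θ / 2)) t ∈ Q} =
      Icc (-UB (sup2 Q) (θ + π) (-τ)) (UB (sup2 Q) θ τ) := by
  have hne : Nonempty (Ioo (0 : ℝ) π) := ⟨⟨π / 2, by constructor <;> linarith [pi_pos]⟩⟩
  set s := mid Q θ + τ * (wid Q θ / 2) with hs
  have hwθ : wid Q θ = sup2 Q θ + sup2 Q (θ + π) := rfl
  have hmid : mid Q θ = (sup2 Q θ - sup2 Q (θ + π)) / 2 := rfl
  have hper := hWB2.2.2.2.1 Q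
  -- the two fractions
  set f1 : Ioo (0 : ℝ) π → ℝ := fun α => (sup2 Q (θ + α) - s * cos α) / sin α with hf1
  set f2 : Ioo (0 : ℝ) π → ℝ := fun α => (sup2 Q (θ + π + α) + s * cos α) / sin α with hf2
  have hU1 : UB (sup2 Q) θ τ = ⨅ α, f1 α := rfl
  have hU2 : UB (sup2 Q) (θ + π) (-τ) = ⨅ α, f2 α := by
    unfold UB
    congr 1
    funext α
    rw [hf2]
    simp only
    congr 1
    have e1 : θ + π + π = θ + 2 * π := by ring
    unfold gh Bh
    rw [e1, hper θ, hs, hmid, hwθ]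
    ring
  have hs1 : s ≤ sup2 Q θ := by
    have : τ * (wid Q θ / 2) ≤ 1 * (wid Q θ / 2) :=
      mul_le_mul_of_nonneg_right hτ.2.le (by linarith)
    rw [hs, hmid]
    rw [hwθ] at this ⊢
    linarith
  have hs2 : - sup2 Q (θ + π) ≤ s := by
    have : -1 * (wid Q θ / 2) ≤ τ * (wid Q θ / 2) :=
      mul_le_mul_of_nonneg_right hτ.1.le (by linarith)
    rw [hs, hmid]
    rw [hwθ] at this ⊢
    linarith
  -- membership
  have key : ∀ t : ℝ, pt θ s t ∈ Q ↔ (∀ α, t ≤ f1 α) ∧ (∀ α, -t ≤ f2 α) := by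
    intro t
    constructor
    · intro hmem
      constructor
      · rintro ⟨α, hα⟩
        have hsin : 0 < sin α := sin_pos_of_pos_of_lt_pi hα.1 hα.2
        have h1 := hWB2.1 Q hQ (θ + α) _ hmem
        rw [dotu_pt] at h1
        rw [hf1]
        simp only
        rw [le_div_iff₀ hsin]
        linarith
      · rintro ⟨α, hα⟩
        have hsin : 0 < sin α := sin_pos_of_pos_of_lt_pi hα.1 hα.2
        have h1 := hWB2.1 Q hQ (θ + (π + α)) _ hmem
        rw [dotu_pt, cos_add, sin_add, cos_pi, sin_pi] at h1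
        rw [hf2]
        simp only
        rw [le_div_iff₀ hsin]
        have e1 : θ + (π + α) = θ + π + α := by ring
        rw [e1] at h1
        linarith
    · rintro ⟨h1, h2⟩
      apply mem_of_dotu_le hWB2 Q hQ
      intro φ
      -- reduce to `β = φ - θ - 2πk ∈ [0, 2π)`
      obtain ⟨k, hk, -⟩ := existsUnique_add_zsmul_mem_Ico (a := 2 * π) two_pi_pos (φ - θ) 0
      simp only [zsmul_eq_mul, zero_add, mem_Ico] at hk
      set β := φ - θ + k * (2 * π) with hβ
      have e1 : θ + β = φ + k * (2 * π) := by rw [hβ]; ring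
      have e2 : dotu φ (pt θ s t) = dotu (θ + β) (pt θ s t) := by
        rw [e1, dotu_add_int]
      have e3 : sup2 Q φ = sup2 Q (θ + β) := by
        rw [e1, sup2_add_int hWB2]
      rw [e2, e3, dotu_pt]
      rcases hk with ⟨hk0, hk1⟩
      rcases hk0.eq_or_lt with h0 | h0
      · rw [← h0]
        simp only [cos_zero, sin_zero, mul_one, mul_zero, add_zero]
        exact hs1
      · rcases lt_trichotomy β π with hb | hb | hb
        · have hsin : 0 < sin β := sin_pos_of_pos_of_lt_pi h0 hb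
          have h3 := h1 ⟨β, h0, hb⟩
          rw [hf1] at h3
          simp only at h3
          rw [le_div_iff₀ hsin] at h3
          linarith
        · rw [hb]
          simp only [cos_pi, sin_pi, mul_zero, add_zero]
          linarith
        · have hα : β - π ∈ Ioo (0 : ℝ) π := ⟨by linarith, by linarith⟩
          have hsin : 0 < sin (β - π) := sin_pos_of_pos_of_lt_pi hα.1 hα.2
          have h3 := h2 ⟨β - π, hα⟩
          rw [hf2] at h3
          simp only at h3
          rw [le_div_iff₀ hsin] at h3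
          have e4 : θ + π + (β - π) = θ + β := by ring
          rw [e4, cos_sub_pi, sin_sub_pi] at h3
          linarith
  -- a point on the line
  have hpoint : ∃ t0 : ℝ, pt θ s t0 ∈ Q := by
    have h8 := (hWB2.2.2.2.2.2.2.2.1 Q hQ θ).2
    have hsmem : s ∈ Icc (- sup2 Q (θ + π)) (sup2 Q θ) := ⟨hs2, hs1⟩
    rw [← h8] at hsmem
    obtain ⟨q, hq, hqs⟩ := hsmem
    refine ⟨dotu (θ + π / 2) q, ?_⟩
    rw [← hqs, pt_dotu]
    exact hq
  obtain ⟨t0, ht0⟩ := hpoint
  have ht0' := (key t0).1 ht0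
  have hB1 : BddBelow (range f1) := ⟨t0, by rintro _ ⟨α, rfl⟩; exact ht0'.1 α⟩
  have hB2 : BddBelow (range f2) := ⟨-t0, by rintro _ ⟨α, rfl⟩; exact ht0'.2 α⟩
  have h1 : t0 ≤ UB (sup2 Q) θ τ := by
    rw [hU1]; exact le_ciInf ht0'.1
  have h2 : -t0 ≤ UB (sup2 Q) (θ + π) (-τ) := by
    rw [hU2]; exact le_ciInf ht0'.2
  refine ⟨by linarith, ?_⟩
  ext t
  change pt θ s t ∈ Q ↔ _
  rw [key t, mem_Icc, hU1, hU2, le_ciInf_iff hB1, neg_le, le_ciInf_iff hB2]
  exact and_comm

end GDUM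

open SLCM GDUM in
/-- **GDU**. -/
theorem specGDU (hRO2 : SpecRO2) (hWB2 : SpecWB2) : SpecGDU := by
  intro Q hQ hw G hG θ
  have hdual := fun τ hτ => dual hWB2 Q hQ θ τ (hw θ) hτ
  obtain ⟨w1, w2, w3, w4, w5, w6, w7, w8, w9, w10, w11⟩ := hWB2
  set m := mid Q θ with hm
  set b := wid Q θ / 2 with hb
  have hb0 : 0 < b := by rw [hb]; linarith [hw θ]
  have hQc : IsClosed Q := hQ.2.1.isClosed
  have hmp : MeasurePreserving (ro θ) volume volume := by
    have h := (hRO2 (-θ)).1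
    have e : (fun p : ℝ × ℝ => (dotu (-θ) p, dotu (-θ + π / 2) p)) = ro θ := by
      funext x
      exact (ro_eq θ x).symm
    rwa [e] at h
  have hemb : MeasurableEmbedding (ro θ) := (continuous_ro θ).measurableEmbedding (ro_inj θ)
  have h1 : ∫ p in Q, G ((dotu θ p - m) / b) = ∫ x in ro θ ⁻¹' Q, G ((x.1 - m) / b) := by
    rw [← hmp.setIntegral_preimage_emb hemb (fun p => G ((dotu θ p - m) / b)) Q]
    simp only [dotu_ro]
  -- compactness
  have hScomp : IsCompact (ro θ ⁻¹' Q) := by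
    have hcl : IsClosed (ro θ ⁻¹' Q) := hQc.preimage (continuous_ro θ)
    have hrep : ro θ ⁻¹' Q ⊆ (ro (-θ)) '' Q := by
      intro x hx
      refine ⟨ro θ x, hx, ?_⟩
      unfold ro
      have h3 := sin_sq_add_cos_sq θ
      ext
      · simp only [cos_neg, sin_neg]
        linear_combination x.1 * h3
      · simp only [cos_neg, sin_neg]
        linear_combination x.2 * h3
    exact (hQ.2.1.image (continuous_ro (-θ))).of_isClosed_subset hcl hrep
  have hB : Bh (sup2 Q) θ = b := rfl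
  have hcv : ∀ F : ℝ → ℝ, ∫ s, F s = b * ∫ τ, F (b * τ + m) := by
    intro F
    have h2 := Measure.integral_comp_mul_left (fun y => F (y + m)) b
    rw [integral_add_right_eq_self (μ := volume) F m, abs_of_pos (inv_pos.2 hb0),
      smul_eq_mul] at h2
    rw [h2, ← mul_assoc, mul_inv_cancel₀ hb0.ne', one_mul]
  unfold IG
  rw [hB, h1, fub _ hScomp (fun s => G ((s - m) / b)) (hG.comp (by fun_prop)), hcv,
    ← integral_indicator measurableSet_Ioo]
  congr 1
  have hae : ∀ᵐ τ : ℝ, τ ≠ 1 ∧ τ ≠ -1 := by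
    have a1 : ∀ᵐ τ : ℝ, τ ≠ 1 := by
      simp [ae_iff, measure_singleton]
    have a2 : ∀ᵐ τ : ℝ, τ ≠ -1 := by
      simp [ae_iff, measure_singleton]
    filter_upwards [a1, a2] with τ t1 t2 using ⟨t1, t2⟩
  refine integral_congr_ae ?_
  filter_upwards [hae] with τ hτ
  have e1 : (b * τ + m - m) / b = τ := by
    rw [add_sub_cancel_right, mul_div_cancel_left₀ _ hb0.ne']
  have e2 : {t : ℝ | (b * τ + m, t) ∈ ro θ ⁻¹' Q} =
      {t : ℝ | DUAM.pt θ (m + τ * b) t ∈ Q} := by
    have : b * τ + m = m + τ * b := by ring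
    rw [this]
    rfl
  by_cases h : τ ∈ Ioo (-1 : ℝ) 1
  · rw [indicator_of_mem h, e1, e2, (hdual τ h).2, Real.volume_Icc,
      ENNReal.toReal_ofReal (by linarith [(hdual τ h).1])]
    ring
  · rw [indicator_of_notMem h]
    have e3 : {t : ℝ | (b * τ + m, t) ∈ ro θ ⁻¹' Q} = ∅ := by
      rw [Set.eq_empty_iff_forall_notMem]
      intro t ht
      have h4 : dotu θ (ro θ (b * τ + m, t)) ∈ dotu θ '' Q := ⟨_, ht, rfl⟩
      rw [dotu_ro, (w8 Q hQ θ).2] at h4
      have h5 : b = (sup2 Q θ + sup2 Q (θ + π)) / 2 := rfl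
      have h6 : m = (sup2 Q θ - sup2 Q (θ + π)) / 2 := rfl
      simp only [mem_Icc] at h4
      apply h
      have h7 : τ ≤ 1 := by
        have : b * τ ≤ b * 1 := by linarith [h4.2]
        exact le_of_mul_le_mul_left this hb0
      have h8 : -1 ≤ τ := by
        have : b * (-1) ≤ b * τ := by linarith [h4.1]
        exact le_of_mul_le_mul_left this hb0
      exact ⟨lt_of_le_of_ne h8 (fun h => hτ.2 h.symm), lt_of_le_of_ne h7 hτ.1⟩
    rw [e3, measure_empty]
    simp

end Pool.Agent.Lib.MP_084b88_gt.CW
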