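import Pool.Agent.Lib.MP_084b88_gt.CW.SpecA

/-!
# MEA: measurability of the functionals of the projections
-/

set_option autoImplicit false

open MeasureTheory Set Real Filter Topology
open scoped Pointwise InnerProductSpace

namespace Pool.Agent.Lib.MP_084b88_gt.CW

namespace MEAM

/-- the rotation of the plane -/
noncomputable def ro (φ : ℝ) (p : ℝ × ℝ) : ℝ × ℝ := (dotu φ p, dotu (φ + π / 2) p)

theorem ro_inv (φ : ℝ) (p : ℝ × ℝ) : ro (-φ) (ro φ p) = p := by
  have h := sin_sq_add_cos_sq φ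
  unfold ro dotu
  simp only [cos_add_pi_div_two, sin_add_pi_div_two, cos_neg, sin_neg]
  ext
  · linear_combination p.1 * h
  · linear_combination p.2 * h

theorem ro_inj (φ : ℝ) : Function.Injective (ro φ) := fun p q h => by
  rw [← ro_inv φ p, ← ro_inv φ q, h]

theorem ro_cont (φ : ℝ) : Continuous (ro φ) :=
  (continuous_dotu_right φ).prodMk (continuous_dotu_right (φ + π / 2))

theorem cd_rot (R : O3) (θ : ℝ) (x : E3) : cd (R * rot θ) x = ro θ (cd R x) := by
  unfold ro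
  rw [dotu_cd]
  ext
  · rfl
  · show ⟪col (R * rot θ) 1, x⟫_ℝ = _
    rw [col_rot_one, inner_add_left, inner_smul_left, inner_smul_left]
    unfold dotu cd
    simp only [cos_add_pi_div_two, sin_add_pi_div_two, RCLike.conj_to_real]
    ring

theorem pr_rot (R : O3) (θ : ℝ) (K : Set E3) : pr (R * rot θ) K = ro θ '' pr R K := by
  unfold pr
  rw [image_image]
  exact image_congr fun x _ => cd_rot R θ x

theorem cc_pr {K : Set E3} (hK : CC K) (R : O3) : CC (pr R K) := by
  refine ⟨?_, hK.2.1.image (continuous_cd_right R), hK.2.2.image _⟩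
  exact hK.1.is_linear_image ⟨cd_add R, cd_smul R⟩

theorem sup2_pr (R : O3) (K : Set E3) (θ : ℝ) :
    sup2 (pr R K) θ = HS K (col (R * rot θ) 0) := by
  unfold sup2 HS pr
  rw [image_image]
  congr 1
  exact image_congr fun x _ => dotu_cd R θ x

theorem col_rot_zero' (R : O3) : col (R * rot 0) 0 = col R 0 := by
  rw [col_rot_zero]; simp

theorem col_rot_pi (R : O3) : col (R * rot (0 + π)) 0 = - col R 0 := by
  rw [col_rot_zero]; simp

theorem col_rot_add_pi (R : O3) (θ : ℝ) :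
    col (R * rot (θ + π)) 0 = - col (R * rot θ) 0 := by
  rw [col_rot_zero, col_rot_zero, cos_add_pi, sin_add_pi]
  module

theorem sup2_rot (R : O3) (K : Set E3) (θ : ℝ) :
    sup2 (pr R K) θ = sup2 (pr (R * rot θ) K) 0 := by
  rw [sup2_pr, sup2_pr, col_rot_zero']

theorem sup2_rot_pi (R : O3) (K : Set E3) (θ : ℝ) :
    sup2 (pr R K) (θ + π) = sup2 (pr (R * rot θ) K) (0 + π) := by
  rw [sup2_pr, sup2_pr, col_rot_add_pi, col_rot_pi]

theorem isClosed_S {K : Set E3} (hK : CC K) : IsClosed {a : O3 × (ℝ × ℝ) | a.2 ∈ pr a.1 K} := by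
  have h : {a : O3 × (ℝ × ℝ) | a.2 ∈ pr a.1 K} =
      (fun b : O3 × E3 => (b.1, cd b.1 b.2)) '' (univ ×ˢ K) := by
    ext ⟨R, p⟩
    constructor
    · rintro ⟨x, hx, hp⟩
      exact ⟨(R, x), ⟨mem_univ _, hx⟩, Prod.ext rfl hp⟩
    · rintro ⟨⟨R', x⟩, ⟨-, hx⟩, h⟩
      have h1 : R' = R := congrArg Prod.fst h
      have h2 : cd R' x = p := congrArg Prod.snd h
      subst h1
      exact ⟨x, hx, h2⟩
  rw [h]
  exact ((isCompact_univ.prod hK.2.1).image
    (continuous_fst.prodMk continuous_cd)).isClosed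

theorem meas_area {K : Set E3} (hK : CC K) : Measurable (fun R : O3 => area (pr R K)) := by
  have h := measurable_measure_prodMk_left (ν := (volume : Measure (ℝ × ℝ)))
    (isClosed_S hK).measurableSet
  exact h.ennreal_toReal

theorem bdd {K : Set E3} (hK : CC K) :
    ∃ ρ : ℝ, 0 ≤ ρ ∧ ∀ R : O3, pr R K ⊆ Icc (-ρ) ρ ×ˢ Icc (-ρ) ρ := by
  obtain ⟨ρ, hρ⟩ := hK.2.1.isBounded.exists_norm_le
  refine ⟨|ρ|, abs_nonneg ρ, ?_⟩
  rintro R p ⟨x, hx, rfl⟩
  have hx2 : ‖x‖ ≤ |ρ| := (hρ x hx).trans (le_abs_self ρ)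
  have key : ∀ i, |⟪col R i, x⟫_ℝ| ≤ |ρ| := by
    intro i
    refine (abs_real_inner_le_norm _ _).trans ?_
    rw [norm_col, one_mul]
    exact hx2
  exact ⟨abs_le.1 (key 0), abs_le.1 (key 1)⟩

theorem vol_lt_top {K : Set E3} (hK : CC K) (R : O3) : volume (pr R K) < ⊤ :=
  (cc_pr hK R).2.1.measure_lt_top

theorem area_bdd {K : Set E3} (hK : CC K) : ∃ C : ℝ, ∀ R : O3, area (pr R K) ≤ C := by
  obtain ⟨ρ, hρ, h⟩ := bdd hK
  refine ⟨(volume (Icc (-ρ) ρ ×ˢ Icc (-ρ) ρ : Set (ℝ × ℝ))).toReal, fun R => ?_⟩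
  exact ENNReal.toReal_mono (isCompact_Icc.prod isCompact_Icc).measure_lt_top.ne
    (measure_mono (h R))

section

variable {K : Set E3} (hK : CC K) (hc : Continuous (HS K))
include hc

theorem cont_sup2 (θ : ℝ) : Continuous (fun R : O3 => sup2 (pr R K) θ) := by
  have h : (fun R : O3 => sup2 (pr R K) θ) =
      fun R : O3 => HS K (cos θ • col R 0 + sin θ • col R 1) := by
    funext R
    rw [sup2_pr, col_rot_zero]
  rw [h]
  have h0 := continuous_col 0
  have h1 := continuous_col 1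
  exact hc.comp (by fun_prop)

theorem cont_wid (θ : ℝ) : Continuous (fun R : O3 => wid (pr R K) θ) :=
  (cont_sup2 hc θ).add (cont_sup2 hc (θ + π))

theorem cont_mid (θ : ℝ) : Continuous (fun R : O3 => mid (pr R K) θ) :=
  ((cont_sup2 hc θ).sub (cont_sup2 hc (θ + π))).div_const 2

include hK

theorem meas_qf : Measurable (fun R : O3 => qf (pr R K) 0) := by
  set S : Set (O3 × (ℝ × ℝ)) := {a | a.2 ∈ pr a.1 K} with hS
  have hSm : MeasurableSet S := (isClosed_S hK).measurableSet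
  have hg : Measurable (fun a : O3 × (ℝ × ℝ) =>
      √(1 - ((dotu 0 a.2 - mid (pr a.1 K) 0) / (wid (pr a.1 K) 0 / 2)) ^ 2)) := by
    have h1 : Measurable (fun a : O3 × (ℝ × ℝ) => dotu 0 a.2) :=
      ((continuous_dotu_right 0).comp continuous_snd).measurable
    have h2 : Measurable (fun a : O3 × (ℝ × ℝ) => mid (pr a.1 K) 0) :=
      ((cont_mid hc 0).comp continuous_fst).measurable
    have h3 : Measurable (fun a : O3 × (ℝ × ℝ) => wid (pr a.1 K) 0) :=
      ((cont_wid hc 0).comp continuous_fst).measurable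
    exact (measurable_const.sub (((h1.sub h2).div (h3.div_const 2)).pow_const 2)).sqrt
  have hf : StronglyMeasurable (S.indicator (fun a : O3 × (ℝ × ℝ) =>
      √(1 - ((dotu 0 a.2 - mid (pr a.1 K) 0) / (wid (pr a.1 K) 0 / 2)) ^ 2))) :=
    (hg.indicator hSm).stronglyMeasurable
  have h4 := (hf.integral_prod_right' (ν := (volume : Measure (ℝ × ℝ)))).measurable
  have h5 : (fun R : O3 => ∫ p : ℝ × ℝ, S.indicator (fun a : O3 × (ℝ × ℝ) =>
      √(1 - ((dotu 0 a.2 - mid (pr a.1 K) 0) / (wid (pr a.1 K) 0 / 2)) ^ 2)) (R, p)) =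
      fun R : O3 => qf (pr R K) 0 := by
    funext R
    unfold qf
    rw [← integral_indicator (cc_pr hK R).2.1.measurableSet]
    refine integral_congr_ae (Eventually.of_forall fun p => ?_)
    by_cases hp : p ∈ pr R K
    · simp only [indicator_of_mem (show (R, p) ∈ S from hp), indicator_of_mem hp]
    · simp only [indicator_of_notMem (show (R, p) ∉ S from hp), indicator_of_notMem hp]
  rw [← h5]
  exact h4

end

theorem qf_bd {K : Set E3} (hK : CC K) (R : O3) :
    0 ≤ qf (pr R K) 0 ∧ qf (pr R K) 0 ≤ area (pr R K) := by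
  constructor
  · exact setIntegral_nonneg (cc_pr hK R).2.1.measurableSet fun p _ => sqrt_nonneg _
  · have h := norm_setIntegral_le_of_norm_le_const (μ := (volume : Measure (ℝ × ℝ)))
      (s := pr R K) (C := 1)
      (f := fun p => √(1 - ((dotu 0 p - mid (pr R K) 0) / (wid (pr R K) 0 / 2)) ^ 2))
      (vol_lt_top hK R) (fun p _ => by
        rw [norm_eq_abs, abs_of_nonneg (sqrt_nonneg _), sqrt_le_one]
        nlinarith [sq_nonneg ((dotu 0 p - mid (pr R K) 0) / (wid (pr R K) 0 / 2))])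
    rw [one_mul] at h
    exact (le_abs_self _).trans h

theorem wid_lb {K : Set E3} (hi : (interior K).Nonempty)
    (hle : ∀ x, ∀ y ∈ K, ⟪x, y⟫_ℝ ≤ HS K x) :
    ∃ b : ℝ, 0 < b ∧ ∀ R : O3, b ≤ wid (pr R K) 0 := by
  obtain ⟨x0, hx0⟩ := hi
  obtain ⟨ε, hε, hball⟩ := Metric.isOpen_iff.1 isOpen_interior x0 hx0
  refine ⟨ε, hε, fun R => ?_⟩
  unfold wid
  rw [sup2_pr, sup2_pr, col_rot_zero', col_rot_pi]
  set u := col R 0 with hu
  have hnu : ‖u‖ = 1 := norm_col R 0
  have hin : ∀ c : ℝ, |c| < ε → x0 + c • u ∈ K := by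
    intro c hc
    refine interior_subset (hball ?_)
    rw [Metric.mem_ball, dist_eq_norm, add_sub_cancel_left, norm_smul, hnu, mul_one,
      norm_eq_abs]
    exact hc
  have huu : ⟪u, u⟫_ℝ = 1 := by rw [real_inner_self_eq_norm_sq, hnu]; norm_num
  have h1 := hle u _ (hin (ε / 2) (by rw [abs_of_pos (by linarith)]; linarith))
  have h2 := hle (-u) _ (hin (-(ε / 2)) (by rw [abs_neg, abs_of_pos (by linarith)]; linarith))
  rw [inner_add_right, inner_smul_right, huu] at h1
  rw [inner_add_right, inner_smul_right, inner_neg_left, inner_neg_left, huu] at h2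
  linarith

theorem area_rot (hRO2 : SpecRO2) {K : Set E3} (hK : CC K) (R : O3) (θ : ℝ) :
    area (pr (R * rot θ) K) = area (pr R K) := by
  unfold area
  have h1 : MeasurePreserving (ro θ) volume volume := (hRO2 θ).1
  rw [pr_rot]
  have hQ := cc_pr hK R
  have h2 := h1.measure_preimage
    (hQ.2.1.image (ro_cont θ)).measurableSet.nullMeasurableSet
  rw [preimage_image_eq _ (ro_inj θ)] at h2
  rw [h2]

theorem qf_rot (hRO2 : SpecRO2) (K : Set E3) (R : O3) (θ : ℝ) :
    qf (pr R K) θ = qf (pr (R * rot θ) K) 0 := by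
  have h1 : MeasurePreserving (ro θ) volume volume := (hRO2 θ).1
  have hemb : MeasurableEmbedding (ro θ) := (ro_cont θ).measurable.measurableEmbedding (ro_inj θ)
  have hm : mid (pr (R * rot θ) K) 0 = mid (pr R K) θ := by
    unfold mid
    rw [← sup2_rot, ← sup2_rot_pi]
  have hw : wid (pr (R * rot θ) K) 0 = wid (pr R K) θ := by
    unfold wid
    rw [← sup2_rot, ← sup2_rot_pi]
  unfold qf
  rw [hm, hw, pr_rot]
  have h2 := h1.setIntegral_preimage_emb hemb
    (fun p => √(1 - ((dotu 0 p - mid (pr R K) θ) / (wid (pr R K) θ / 2)) ^ 2))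
    (ro θ '' pr R K)
  rw [preimage_image_eq _ (ro_inj θ)] at h2
  rw [← h2]
  have h3 : ∀ p : ℝ × ℝ, dotu 0 (ro θ p) = dotu θ p := by
    intro p
    simp [ro, dotu]
  simp only [h3]

end MEAM

open MEAM in
theorem specMEA (hHSB : SpecHSB) (hRO2 : SpecRO2) : SpecMEA := by
  intro K hK hi
  obtain ⟨-, -, -, -, hcont, hle, -, -, -⟩ := hHSB E3
  refine ⟨cc_pr hK, meas_area hK, area_bdd hK, fun R θ => sup2_pr R K θ,
    cont_wid (hcont K hK) 0, wid_lb hi (hle K hK), meas_qf hK (hcont K hK), qf_bd hK, ?_⟩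
  intro R θ
  refine ⟨?_, qf_rot hRO2 K R θ, area_rot hRO2 hK R θ⟩
  unfold wid
  rw [sup2_rot, sup2_rot_pi]

end Pool.Agent.Lib.MP_084b88_gt.CW
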