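import Pool.Agent.Lib.MP_084b88_gt.CW.NFU

/-!
# MP_084b88_gt, project CW, module RED: reduction of Chakerian's question to P1 for all projections
-/

set_option autoImplicit false

open MeasureTheory Set Real Filter Topology
open scoped Pointwise InnerProductSpace

namespace Pool.Agent.Lib.MP_084b88_gt.CW

namespace REDM

theorem inv_right (μ : Measure O3) (hμ : HaarO μ) (G : O3 → ℝ) (hG : Measurable G) (S : O3) :
    ∫ R, G (R * S) ∂μ = ∫ R, G R ∂μ := by
  have h := hμ.2.1 S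
  nth_rewrite 2 [← h.map_eq]
  rw [integral_map h.measurable.aemeasurable]
  exact hG.aestronglyMeasurable

/-- Fubini and right invariance. -/
theorem fub (μ : Measure O3) (hμ : HaarO μ) (G : O3 → ℝ) (hG : Measurable G) (C : ℝ)
    (hC : ∀ R, |G R| ≤ C) (ρ : ℝ → O3) (hρ : Continuous ρ) (L : ℝ) (hL : 0 ≤ L) :
    Integrable (fun R => ∫ θ in (0 : ℝ)..L, G (R * ρ θ)) μ ∧
      ∫ R, (∫ θ in (0 : ℝ)..L, G (R * ρ θ)) ∂μ = L * ∫ R, G R ∂μ := by
  have : IsProbabilityMeasure μ := hμ.1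
  have hcont : Continuous (fun a : O3 × ℝ => a.1 * ρ a.2) :=
    continuous_fst.mul (hρ.comp continuous_snd)
  have hint : Integrable (Function.uncurry (fun (R : O3) (θ : ℝ) => G (R * ρ θ)))
      (μ.prod (volume.restrict (Ioc (0 : ℝ) L))) := by
    apply Integrable.of_bound (C := C)
    · exact (hG.comp hcont.measurable).aestronglyMeasurable
    · exact Filter.Eventually.of_forall (fun a => hC _)
  simp_rw [intervalIntegral.integral_of_le hL]
  refine ⟨hint.integral_prod_left, ?_⟩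
  rw [integral_integral_swap hint]
  simp_rw [inv_right μ hμ G hG]
  rw [setIntegral_const, smul_eq_mul, Measure.real, Real.volume_Ioc, sub_zero,
    ENNReal.toReal_ofReal hL]

end REDM

open REDM in
theorem specRED (hHAA : SpecHAA) (hMEA : SpecMEA) (hLEN : SpecLEN) (hCAU : SpecCAU)
    (hNUB : SpecNUB) (hNFU : SpecNFU) : SpecRED := by
  intro K hK hKi c hc hP1 V1 V2 hst
  obtain ⟨μ, hμ⟩ := hHAA
  have : IsProbabilityMeasure μ := hμ.1
  obtain ⟨hCC, hAm, ⟨CA, hCA⟩, hsup, hwc, ⟨b, hb, hbw⟩, hqm, hq, hrot⟩ := hMEA K hK hKi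
  obtain ⟨hV2, hV1⟩ := hCAU μ hμ K hK hKi V1 V2 hst
  have hlen := hLEN μ hμ K hK hKi
  -- the functions
  set W : O3 → ℝ := fun R => wid (pr R K) 0 / 2 with hW
  set q : O3 → ℝ := fun R => qf (pr R K) 0 with hqdef
  set A : O3 → ℝ := fun R => area (pr R K) with hA
  set V : ℝ := (volume K).toReal with hV
  have hV0 : 0 ≤ V := ENNReal.toReal_nonneg
  have hWc : Continuous W := hwc.div_const 2
  have hWpos : ∀ R, b / 2 ≤ W R := fun R => by simp only [hW]; linarith [hbw R]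
  have hWpos' : ∀ R, 0 < W R := fun R => lt_of_lt_of_le (by linarith) (hWpos R)
  have hWi : Integrable W μ := hWc.integrable_of_hasCompactSupport
    (HasCompactSupport.of_compactSpace W)
  have hEW : V1 = 4 * ∫ R, W R ∂μ := by
    have h1 : ∫ R, W R ∂μ = (∫ R, wid (pr R K) 0 ∂μ) / 2 := by
      simp only [hW]
      rw [integral_div]
    rw [h1]
    rw [hlen] at hV1
    have hpi := pi_pos
    have : π * V1 = π * (4 * ((∫ R, wid (pr R K) 0 ∂μ) / 2)) := by rw [hV1]; ring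
    exact mul_left_cancel₀ hpi.ne' this
  have hEWpos : b / 2 ≤ ∫ R, W R ∂μ := by
    have h1 : ∫ _R : O3, b / 2 ∂μ ≤ ∫ R, W R ∂μ :=
      integral_mono (integrable_const _) hWi hWpos
    simpa using h1
  have hV1pos : 0 < V1 := by rw [hEW]; linarith
  rcases le_or_gt c 0 with hc0 | hc0
  · have h1 : 4 * c * V2 ^ 2 ≤ 0 := by nlinarith [sq_nonneg V2]
    have h2 : 0 ≤ 3 * Real.pi * V1 * V := by positivity
    linarith
  -- main case
  have hA0 : ∀ R, 0 ≤ A R := fun R => (hq R).1.trans (hq R).2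
  have hq0 : ∀ R, 0 ≤ q R := fun R => (hq R).1
  have hqA : ∀ R, q R ≤ CA := fun R => (hq R).2.trans (hCA R)
  have hCA0 : 0 ≤ CA := (hA0 1).trans (hCA 1)
  obtain ⟨CW, hCW⟩ : ∃ CW : ℝ, ∀ R, W R ≤ CW := by
    obtain ⟨R0, hR0⟩ := hWc.exists_forall_ge_of_hasCompactSupport
      (HasCompactSupport.of_compactSpace W)
    exact ⟨W R0, hR0⟩
  set G1 : O3 → ℝ := fun R => √(W R) * q R with hG1
  set G2 : O3 → ℝ := fun R => q R / √(W R) with hG2
  have hG1m : Measurable G1 := (hWc.measurable.sqrt).mul hqm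
  have hG2m : Measurable G2 := hqm.div (hWc.measurable.sqrt)
  have hsq : ∀ R, 0 < √(W R) := fun R => Real.sqrt_pos.2 (hWpos' R)
  have hG10 : ∀ R, 0 ≤ G1 R := fun R => mul_nonneg (hsq R).le (hq0 R)
  have hG20 : ∀ R, 0 ≤ G2 R := fun R => div_nonneg (hq0 R) (hsq R).le
  have hG1b : ∀ R, |G1 R| ≤ √CW * CA := fun R => by
    rw [abs_of_nonneg (hG10 R)]
    exact mul_le_mul (Real.sqrt_le_sqrt (hCW R)) (hqA R) (hq0 R) (Real.sqrt_nonneg _)
  have hG2b : ∀ R, |G2 R| ≤ CA / √(b / 2) := fun R => by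
    rw [abs_of_nonneg (hG20 R)]
    exact div_le_div₀ hCA0 (hqA R) (Real.sqrt_pos.2 (by linarith))
      (Real.sqrt_le_sqrt (hWpos R))
  have hpi := pi_pos
  obtain ⟨hc1i, hc1⟩ := fub μ hμ G1 hG1m _ hG1b cyc continuous_cyc π hpi.le
  obtain ⟨hc2i, hc2⟩ := fub μ hμ G2 hG2m _ hG2b cyc continuous_cyc π hpi.le
  obtain ⟨hr1i, hr1⟩ := fub μ hμ G1 hG1m _ hG1b rot continuous_rot (2 * π) (by linarith)
  obtain ⟨hr2i, hr2⟩ := fub μ hμ G2 hG2m _ hG2b rot continuous_rot (2 * π) (by linarith)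
  set a : ℝ := √(4 * π * V / (3 * c)) with ha
  have ha0 : 0 ≤ a := Real.sqrt_nonneg _
  have hasq : a ^ 2 = 4 * π * V / (3 * c) := Real.sq_sqrt (by positivity)
  -- half width in direction `col R 2`
  have hWcyc : ∀ (R : O3) (θ : ℝ), W (R * cyc θ) =
      (HS K (col R 2) + HS K (-(col R 2))) / 2 := by
    intro R θ
    simp only [hW]
    rw [wid, NFUM.sup2_pr_zero, NFUM.sup2_pr_pi]
  -- the bound of NUB
  have hN : ∀ R : O3, (1 / 2) * ∫ θ in (0 : ℝ)..π, q (R * cyc θ) ≤ a * √(W (R * cyc 0)) := by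
    intro R
    have h1 := hNUB K hK hKi c hc0.le hc R _ _ rfl rfl
    rw [hNFU K hK hKi R _ _ rfl rfl, ← hWcyc R 0] at h1
    set N : ℝ := (1 / 2) * ∫ θ in (0 : ℝ)..π, q (R * cyc θ) with hNdef
    change c * N ^ 2 ≤ 4 / 3 * W (R * cyc 0) * (π * V) at h1
    have h2 : N ^ 2 ≤ (a * √(W (R * cyc 0))) ^ 2 := by
      rw [mul_pow a, hasq, Real.sq_sqrt (hWpos' _).le]
      have h3 : 4 * π * V / (3 * c) * W (R * cyc 0) =
          (4 / 3 * W (R * cyc 0) * (π * V)) / c := by field_simp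
      rw [h3, le_div_iff₀ hc0]
      linarith
    exact (abs_le_of_sq_le_sq h2 (mul_nonneg ha0 (hsq _).le)).trans' (le_abs_self N)
  have hp1 : ∀ R : O3, (1 / 2) * ∫ θ in (0 : ℝ)..π, G1 (R * cyc θ) ≤ a * W (R * cyc 0) := by
    intro R
    have h1 : ∫ θ in (0 : ℝ)..π, G1 (R * cyc θ) =
        √(W (R * cyc 0)) * ∫ θ in (0 : ℝ)..π, q (R * cyc θ) := by
      rw [← intervalIntegral.integral_const_mul]
      congr 1
      funext θ
      simp only [hG1]
      rw [hWcyc R θ, hWcyc R 0]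
    rw [h1]
    have h2 := mul_le_mul_of_nonneg_left (hN R) (hsq (R * cyc 0)).le
    have h3 := Real.mul_self_sqrt (hWpos' (R * cyc 0)).le
    calc _ = √(W (R * cyc 0)) * ((1 / 2) * ∫ θ in (0 : ℝ)..π, q (R * cyc θ)) := by ring
      _ ≤ √(W (R * cyc 0)) * (a * √(W (R * cyc 0))) := h2
      _ = a * (√(W (R * cyc 0)) * √(W (R * cyc 0))) := by ring
      _ = _ := by rw [h3]
  have hp2 : ∀ R : O3, (1 / 2) * ∫ θ in (0 : ℝ)..π, G2 (R * cyc θ) ≤ a := by
    intro R
    have h1 : ∫ θ in (0 : ℝ)..π, G2 (R * cyc θ) =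
        (∫ θ in (0 : ℝ)..π, q (R * cyc θ)) / √(W (R * cyc 0)) := by
      rw [← intervalIntegral.integral_div]
      congr 1
      funext θ
      simp only [hG2]
      rw [hWcyc R θ, hWcyc R 0]
    rw [h1]
    have h2 : (1 / 2) * ((∫ θ in (0 : ℝ)..π, q (R * cyc θ)) / √(W (R * cyc 0))) =
        ((1 / 2) * ∫ θ in (0 : ℝ)..π, q (R * cyc θ)) / √(W (R * cyc 0)) := by ring
    rw [h2, div_le_iff₀ (hsq _)]
    exact hN R
  -- integrate
  have hE1 : π / 2 * ∫ R, G1 R ∂μ ≤ a * (V1 / 4) := by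
    have h1 : ∫ R, ((1 / 2) * ∫ θ in (0 : ℝ)..π, G1 (R * cyc θ)) ∂μ ≤
        ∫ R, a * W (R * cyc 0) ∂μ := by
      apply integral_mono (hc1i.const_mul _) _ hp1
      have h2 : Continuous (fun R : O3 => a * W (R * cyc 0)) :=
        continuous_const.mul (hWc.comp (continuous_id.mul continuous_const))
      exact h2.integrable_of_hasCompactSupport (HasCompactSupport.of_compactSpace _)
    rw [integral_const_mul, integral_const_mul, hc1, inv_right μ hμ W hWc.measurable] at h1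
    rw [hEW]
    calc _ = 1 / 2 * (π * ∫ R, G1 R ∂μ) := by ring
      _ ≤ _ := h1
      _ = _ := by ring
  have hE2 : π / 2 * ∫ R, G2 R ∂μ ≤ a := by
    have h1 : ∫ R, ((1 / 2) * ∫ θ in (0 : ℝ)..π, G2 (R * cyc θ)) ∂μ ≤ ∫ _R : O3, a ∂μ :=
      integral_mono (hc2i.const_mul _) (integrable_const _) hp2
    rw [integral_const_mul, hc2] at h1
    simp only [integral_const, probReal_univ, one_smul] at h1
    linarith
  -- the planar inequality
  set l : ℝ := 2 / √V1 with hl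
  have hsV : 0 < √V1 := Real.sqrt_pos.2 hV1pos
  have hl0 : 0 < l := by rw [hl]; positivity
  have hX : ∀ R : O3, 32 / 3 * A R ≤ l * (∫ θ in (0 : ℝ)..(2 * π), G1 (R * rot θ)) +
      l⁻¹ * ∫ θ in (0 : ℝ)..(2 * π), G2 (R * rot θ) := by
    intro R
    have h1 := hP1 R
    unfold P1 at h1
    have h2 : ∫ θ in (0 : ℝ)..(2 * π), √(wid (pr R K) θ / 2) * qf (pr R K) θ =
        ∫ θ in (0 : ℝ)..(2 * π), G1 (R * rot θ) := by
      congr 1
      funext θ
      simp only [hG1, hW, hqdef]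
      rw [(hrot R θ).1, (hrot R θ).2.1]
    have h3 : ∫ θ in (0 : ℝ)..(2 * π), qf (pr R K) θ / √(wid (pr R K) θ / 2) =
        ∫ θ in (0 : ℝ)..(2 * π), G2 (R * rot θ) := by
      congr 1
      funext θ
      simp only [hG2, hW, hqdef]
      rw [(hrot R θ).1, (hrot R θ).2.1]
    rw [h2, h3] at h1
    set X := ∫ θ in (0 : ℝ)..(2 * π), G1 (R * rot θ) with hXdef
    set Y := ∫ θ in (0 : ℝ)..(2 * π), G2 (R * rot θ) with hYdef
    have hX0 : 0 ≤ X := intervalIntegral.integral_nonneg (by linarith) (fun θ _ => hG10 _)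
    have hY0 : 0 ≤ Y := intervalIntegral.integral_nonneg (by linarith) (fun θ _ => hG20 _)
    have h4 : (32 / 3 * A R) ^ 2 ≤ (l * X + l⁻¹ * Y) ^ 2 := by
      have h5 : l * X * (l⁻¹ * Y) = X * Y := by field_simp
      have h6 : (32 / 3 * A R) ^ 2 = 4 * ((16 / 3) ^ 2 * (A R) ^ 2) := by ring
      rw [h6]
      nlinarith [sq_nonneg (l * X - l⁻¹ * Y)]
    exact (abs_le_of_sq_le_sq h4 (by positivity)).trans' (le_abs_self _)
  have hEA : 32 / 3 * ∫ R, A R ∂μ ≤ 4 * a * √V1 := by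
    have hAi : Integrable A μ := by
      apply Integrable.of_bound (C := CA) hAm.aestronglyMeasurable
      exact Filter.Eventually.of_forall (fun R => by
        rw [Real.norm_of_nonneg (hA0 R)]; exact hCA R)
    have h1 := integral_mono (hAi.const_mul (32 / 3))
      ((hr1i.const_mul l).add (hr2i.const_mul l⁻¹)) hX
    simp only [Pi.add_apply] at h1
    rw [integral_const_mul, integral_add (hr1i.const_mul l) (hr2i.const_mul l⁻¹),
      integral_const_mul, integral_const_mul, hr1, hr2] at h1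
    have h2 : l * (2 * π * ∫ R, G1 R ∂μ) ≤ 2 * a * √V1 := by
      have h3 : l * (2 * π * ∫ R, G1 R ∂μ) = l * 4 * (π / 2 * ∫ R, G1 R ∂μ) := by ring
      have h4 : l * 4 * (π / 2 * ∫ R, G1 R ∂μ) ≤ l * 4 * (a * (V1 / 4)) :=
        mul_le_mul_of_nonneg_left hE1 (by positivity)
      have h5 : l * 4 * (a * (V1 / 4)) = 2 * a * √V1 := by
        rw [hl]
        have h6 := Real.mul_self_sqrt hV1pos.le
        rw [div_mul_eq_mul_div, div_mul_eq_mul_div, div_eq_iff hsV.ne']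
        nth_rewrite 1 [← h6]
        ring
      rw [h3]; linarith
    have h3 : l⁻¹ * (2 * π * ∫ R, G2 R ∂μ) ≤ 2 * a * √V1 := by
      have h3 : l⁻¹ * (2 * π * ∫ R, G2 R ∂μ) = l⁻¹ * 4 * (π / 2 * ∫ R, G2 R ∂μ) := by ring
      have h4 : l⁻¹ * 4 * (π / 2 * ∫ R, G2 R ∂μ) ≤ l⁻¹ * 4 * a :=
        mul_le_mul_of_nonneg_left hE2 (by positivity)
      have h5 : l⁻¹ * 4 * a = 2 * a * √V1 := by
        rw [hl, inv_div]; ring
      rw [h3]; linarith
    linarith
  -- conclusion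
  set EA : ℝ := ∫ R, A R ∂μ with hEAdef
  have hEA0 : 0 ≤ EA := integral_nonneg hA0
  have h1 : 8 / 3 * EA ≤ a * √V1 := by linarith
  have h2 : (8 / 3 * EA) ^ 2 ≤ a ^ 2 * V1 := by
    have h3 := pow_le_pow_left₀ (by positivity) h1 2
    rwa [mul_pow, mul_pow, Real.sq_sqrt hV1pos.le, ← mul_pow] at h3
  rw [hasq] at h2
  have h3 : V2 = 2 * EA := hV2
  rw [h3]
  have h4 : 4 * π * V / (3 * c) * V1 = (4 * π * V * V1 / 3) / c := by field_simp
  rw [h4, le_div_iff₀ hc0] at h2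
  nlinarith [h2]

end Pool.Agent.Lib.MP_084b88_gt.CW
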