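import Pool.Agent.Lib.MP_084b88_gt.CW.SpecA

set_option autoImplicit false

open MeasureTheory Set Real Filter Topology
open scoped Pointwise InnerProductSpace

namespace Pool.Agent.Lib.MP_084b88_gt.CW

namespace AVGM

/-- The vector of inner products with the columns. -/
noncomputable def tv (S : O3) (x : E3) : E3 := WithLp.toLp 2 (fun k => ⟪col S k, x⟫_ℝ)

theorem inner_col_mul (S R : O3) (x : E3) (i : Fin 3) :
    ⟪col (S * R) i, x⟫_ℝ = ⟪col R i, tv S x⟫_ℝ := by
  rw [inner_E3, inner_E3]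
  simp only [col_apply, tv, inner_E3]
  have h : ∀ j, (S * R).1 j i = S.1 j 0 * R.1 0 i + S.1 j 1 * R.1 1 i + S.1 j 2 * R.1 2 i := by
    intro j
    change (S.1 * R.1) j i = _
    rw [Matrix.mul_apply, Fin.sum_univ_three]
  rw [h, h, h]
  ring

/-- The function to be computed. -/
noncomputable def F (μ : Measure O3) (x : E3) : ℝ := ∫ R, |⟪col R 2, x⟫_ℝ| ∂μ

theorem cont (x : E3) : Continuous (fun R : O3 => |⟪col R 2, x⟫_ℝ|) :=
  ((continuous_col 2).inner continuous_const).abs

theorem integ (μ : Measure O3) [IsProbabilityMeasure μ] (x : E3) :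
    Integrable (fun R : O3 => |⟪col R 2, x⟫_ℝ|) μ := by
  refine Integrable.of_bound (cont x).aestronglyMeasurable ‖x‖ (Filter.Eventually.of_forall ?_)
  intro R
  rw [Real.norm_eq_abs, abs_abs]
  have := abs_real_inner_le_norm (col R 2) x
  rwa [norm_col, one_mul] at this

theorem F_tv (μ : Measure O3) (hμ : HaarO μ) (S : O3) (x : E3) : F μ (tv S x) = F μ x := by
  have h := hμ.2.2 S
  have h1 := h.integral_comp' (f := (Homeomorph.mulLeft S).toMeasurableEquiv)
    (fun R : O3 => |⟪col R 2, x⟫_ℝ|)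
  unfold F
  rw [← h1]
  apply integral_congr_ae
  refine Filter.Eventually.of_forall (fun R => ?_)
  change _ = |⟪col (S * R) 2, x⟫_ℝ|
  rw [inner_col_mul]

theorem F_smul (μ : Measure O3) (a : ℝ) (x : E3) : F μ (a • x) = |a| * F μ x := by
  unfold F
  rw [← integral_const_mul]
  congr 1
  funext R
  rw [inner_smul_right, abs_mul]

theorem exists_S (x : E3) (hx : ‖x‖ = 1) : ∃ S : O3, tv S x = EuclideanSpace.single 0 1 := by
  have horth : Orthonormal ℝ (({0} : Set (Fin 3)).domRestrict (fun _ : Fin 3 => x)) := by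
    rw [orthonormal_iff_ite]
    rintro ⟨i, hi⟩ ⟨j, hj⟩
    simp only [Set.mem_singleton_iff] at hi hj
    subst hi; subst hj
    simp [Set.domRestrict, hx]
  obtain ⟨b, hb⟩ := horth.exists_orthonormalBasis_extension_of_card_eq (by simp)
  have hb0 : b 0 = x := hb 0 (by simp)
  let M : Matrix (Fin 3) (Fin 3) ℝ := Matrix.of (fun j i => b i j)
  have hMe : ∀ i j, M i j = b j i := fun _ _ => rfl
  have hM : star M * M = 1 := by
    ext i j
    rw [Matrix.mul_apply, Matrix.one_apply, Fin.sum_univ_three]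
    simp only [Matrix.star_apply, star_trivial, hMe]
    rw [← inner_E3]
    exact orthonormal_iff_ite.1 b.orthonormal i j
  let S : O3 := ⟨M, Unitary.mem_iff.2 ⟨hM, mul_eq_one_comm.1 hM⟩⟩
  have hS : ∀ i, col S i = b i := by
    intro i
    ext j
    rfl
  refine ⟨S, ?_⟩
  ext k
  simp only [tv, hS]
  have h1 := orthonormal_iff_ite.1 b.orthonormal k 0
  rw [hb0] at h1
  rw [h1]
  fin_cases k <;> simp

theorem F_eq (μ : Measure O3) (hμ : HaarO μ) (x : E3) :
    F μ x = F μ (EuclideanSpace.single 0 1) * ‖x‖ := by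
  by_cases hx : x = 0
  · subst hx
    simp [F]
  · have hn : 0 < ‖x‖ := norm_pos_iff.2 hx
    have h1 : ‖(‖x‖⁻¹ • x)‖ = 1 := by
      rw [norm_smul, norm_inv, norm_norm, inv_mul_cancel₀ hn.ne']
    obtain ⟨S, hS⟩ := exists_S _ h1
    rw [← hS, F_tv μ hμ, F_smul, abs_of_pos (inv_pos.2 hn)]
    field_simp

end AVGM

open AVGM in
theorem specAVG : SpecAVG := by
  intro μ hμ
  have := hμ.1
  refine ⟨F μ (EuclideanSpace.single 0 1), ?_, fun x => F_eq μ hμ x⟩
  have h1 : ∀ j : Fin 3, F μ (EuclideanSpace.single j 1) = F μ (EuclideanSpace.single 0 1) := by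
    intro j
    rw [F_eq μ hμ (EuclideanSpace.single j 1)]
    simp
  have h2 : (1 : ℝ) ≤ F μ (EuclideanSpace.single 0 1) + F μ (EuclideanSpace.single 1 1) +
      F μ (EuclideanSpace.single 2 1) := by
    have h4 : F μ (EuclideanSpace.single 0 1) + F μ (EuclideanSpace.single 1 1) +
        F μ (EuclideanSpace.single 2 1) = ∫ R : O3, (|⟪col R 2, EuclideanSpace.single 0 1⟫_ℝ| +
          |⟪col R 2, EuclideanSpace.single 1 1⟫_ℝ| + |⟪col R 2, EuclideanSpace.single 2 1⟫_ℝ|) ∂μ := by
      have a1 := integral_add (integ μ (EuclideanSpace.single 0 1))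
        (integ μ (EuclideanSpace.single 1 1))
      have i1 : Integrable (fun R : O3 => |⟪col R 2, EuclideanSpace.single 0 1⟫_ℝ| +
          |⟪col R 2, EuclideanSpace.single 1 1⟫_ℝ|) μ :=
        (integ μ (EuclideanSpace.single 0 1)).add (integ μ (EuclideanSpace.single 1 1))
      have a2 := integral_add i1 (integ μ (EuclideanSpace.single 2 1))
      unfold F
      rw [a2, a1]
    rw [h4]
    have h3 : (1 : ℝ) = ∫ _R : O3, (1 : ℝ) ∂μ := by simp
    nth_rewrite 1 [h3]
    apply integral_mono (integrable_const _) (((integ μ _).add (integ μ _)).add (integ μ _))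
    intro R
    change (1 : ℝ) ≤ |⟪col R 2, EuclideanSpace.single 0 1⟫_ℝ| +
          |⟪col R 2, EuclideanSpace.single 1 1⟫_ℝ| + |⟪col R 2, EuclideanSpace.single 2 1⟫_ℝ|
    have e : ∀ j : Fin 3, ⟪col R 2, (EuclideanSpace.single j (1 : ℝ) : E3)⟫_ℝ = R.1 j 2 := by
      intro j
      rw [inner_E3]
      fin_cases j <;> simp [col_apply]
    rw [e, e, e]
    have hn := inner_col_col R 2 2
    rw [inner_E3] at hn
    simp only [col_apply, if_true] at hn
    have hj : ∀ j, R.1 j 2 * R.1 j 2 ≤ |R.1 j 2| := by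
      intro j
      have := O3_entry_le R j 2
      have h0 := abs_nonneg (R.1 j 2)
      rw [← abs_mul_abs_self]
      nlinarith
    linarith [hj 0, hj 1, hj 2]
  rw [h1 1, h1 2] at h2
  linarith

end Pool.Agent.Lib.MP_084b88_gt.CW
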