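import Pool.Agent.Lib.MP_084b88_gt.CW.LN3
import Pool.Agent.Lib.MP_084b88_gt.CW.AVG

/-!
# SUL: small in mean square implies small in the sup norm
-/

set_option autoImplicit false

open MeasureTheory Set Real Filter Topology
open scoped Pointwise InnerProductSpace

namespace Pool.Agent.Lib.MP_084b88_gt.CW

namespace SULM

open LN3M

theorem exists_col (u : E3) (hu : ‖u‖ = 1) : ∃ S : O3, col S 0 = u := by
  obtain ⟨S, hS⟩ := AVGM.exists_S u hu
  refine ⟨S, ?_⟩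
  have h : ∀ k, ⟪col S k, u⟫_ℝ = (EuclideanSpace.single 0 1 : E3) k := fun k =>
    congrArg (fun v : E3 => v k) hS
  have h0 := h 0
  have h1 := h 1
  have h2 := h 2
  simp at h0 h1 h2
  have h3 := sum_col S u
  rw [h0, h1, h2] at h3
  simpa using h3

theorem mean_sq {μ : Measure O3} (hμ : HaarO μ) (w : E3) :
    ∫ R, ⟪col R 0, w⟫_ℝ ^ 2 ∂μ = ‖w‖ ^ 2 / 3 := by
  have hP := hμ.1
  have hc : ∀ i, Continuous (fun R : O3 => ⟪col R i, w⟫_ℝ ^ 2) := fun i =>
    ((continuous_col i).inner continuous_const).pow 2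
  have e1 : ∫ R, ⟪col R 1, w⟫_ℝ ^ 2 ∂μ = ∫ R, ⟪col R 0, w⟫_ℝ ^ 2 ∂μ := by
    rw [← int_right hμ (rot (π / 2)) (fun R => ⟪col R 0, w⟫_ℝ ^ 2)]
    congr 1
    funext R
    rw [col_rot_zero, cos_pi_div_two, sin_pi_div_two, zero_smul, one_smul, zero_add]
  have e2 : ∫ R, ⟪col R 2, w⟫_ℝ ^ 2 ∂μ = ∫ R, ⟪col R 0, w⟫_ℝ ^ 2 ∂μ := by
    rw [← int_right hμ (cyc 0) (fun R => ⟪col R 0, w⟫_ℝ ^ 2)]
    congr 1
    funext R
    rw [col_cyc_zero]
  have e3 : ∫ R, ⟪col R 0, w⟫_ℝ ^ 2 ∂μ + ∫ R, ⟪col R 1, w⟫_ℝ ^ 2 ∂μ +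
      ∫ R, ⟪col R 2, w⟫_ℝ ^ 2 ∂μ = ‖w‖ ^ 2 := by
    rw [← integral_add (integ (hc 0)) (integ (hc 1))]
    have h2 := integral_add ((integ (μ := μ) (hc 0)).add (integ (hc 1))) (integ (hc 2))
    have h3 : ∫ R, (⟪col R 0, w⟫_ℝ ^ 2 + ⟪col R 1, w⟫_ℝ ^ 2 + ⟪col R 2, w⟫_ℝ ^ 2) ∂μ =
        ∫ _ : O3, ‖w‖ ^ 2 ∂μ := by
      congr 1
      funext R
      exact norm_sq_frame R w
    rw [integral_const, probReal_univ, one_smul] at h3
    rw [← h3]
    exact h2.symm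
  linarith

/-- The cap. -/
def cap : Set O3 := {R | ‖col R 0 - col (1 : O3) 0‖ < 1 / 560}

theorem cap_open : IsOpen cap := by
  unfold cap
  exact isOpen_lt (((continuous_col 0).sub continuous_const).norm) continuous_const

theorem cap_lb : ∃ ω : ℝ, 0 < ω ∧ ∀ μ : Measure O3, HaarO μ → ω ≤ (μ cap).toReal := by
  have hne : (interior cap).Nonempty := by
    rw [cap_open.interior_eq]
    refine ⟨1, ?_⟩
    show ‖col (1 : O3) 0 - col (1 : O3) 0‖ < 1 / 560
    rw [sub_self, norm_zero]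
    norm_num
  obtain ⟨t, ht⟩ := compact_covered_by_mul_left_translates (isCompact_univ : IsCompact (univ : Set O3))
    hne
  have h0 : 0 < t.card := by
    rw [Finset.card_pos]
    have h1 := ht (mem_univ (1 : O3))
    rw [mem_iUnion₂] at h1
    obtain ⟨g, hg, -⟩ := h1
    exact ⟨g, hg⟩
  have h0' : (0 : ℝ) < t.card := by exact_mod_cast h0
  refine ⟨1 / t.card, by positivity, fun μ hμ => ?_⟩
  have hP := hμ.1
  have h1 : (1 : ℝ) ≤ t.card * (μ cap).toReal := by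
    have h2 : μ univ ≤ ∑ g ∈ t, μ ((fun x => g * x) ⁻¹' cap) :=
      (measure_mono ht).trans (measure_biUnion_finset_le t _)
    have h3 : ∀ g ∈ t, μ ((fun x => g * x) ⁻¹' cap) = μ cap := fun g _ =>
      (hμ.2.2 g).measure_preimage cap_open.measurableSet.nullMeasurableSet
    rw [Finset.sum_congr rfl h3, Finset.sum_const, measure_univ, nsmul_eq_mul] at h2
    have h4 := ENNReal.toReal_mono (by
      exact ENNReal.mul_ne_top (ENNReal.natCast_ne_top _) (measure_ne_top μ _)) h2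
    rwa [ENNReal.toReal_mul, ENNReal.toReal_natCast, ENNReal.toReal_one] at h4
  rw [div_le_iff₀ h0']
  linarith

theorem cap_mul (R0 R : O3) :
    ‖col (R0 * R) 0 - col R0 0‖ = ‖col R 0 - col (1 : O3) 0‖ := by
  have h1 : ∀ x : E3, ∀ a b c : ℝ, x = a • col R0 0 + b • col R0 1 + c • col R0 2 →
      ‖x‖ ^ 2 = a ^ 2 + b ^ 2 + c ^ 2 := by
    intro x a b c hx
    rw [hx, ← real_inner_self_eq_norm_sq]
    simp only [inner_add_left, inner_add_right, inner_smul_left, inner_smul_right, inner_col_col,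
      RCLike.conj_to_real, if_true, show ((0 : Fin 3) = 1) = False from by decide,
      show ((0 : Fin 3) = 2) = False from by decide, show ((1 : Fin 3) = 0) = False from by decide,
      show ((1 : Fin 3) = 2) = False from by decide, show ((2 : Fin 3) = 0) = False from by decide,
      show ((2 : Fin 3) = 1) = False from by decide, if_false]
    ring
  have h2 := h1 (col (R0 * R) 0 - col R0 0) (R.1 0 0 - 1) (R.1 1 0) (R.1 2 0) (by
    rw [col_mul]
    module)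
  have h3 : ‖col R 0 - col (1 : O3) 0‖ ^ 2 = (R.1 0 0 - 1) ^ 2 + R.1 1 0 ^ 2 + R.1 2 0 ^ 2 := by
    rw [← real_inner_self_eq_norm_sq, inner_E3]
    simp only [PiLp.sub_apply, col_apply]
    have e0 : (1 : O3).1 0 0 = 1 := by
      show (1 : Matrix (Fin 3) (Fin 3) ℝ) 0 0 = 1
      simp
    have e1 : (1 : O3).1 1 0 = 0 := by
      show (1 : Matrix (Fin 3) (Fin 3) ℝ) 1 0 = 0
      simp
    have e2 : (1 : O3).1 2 0 = 0 := by
      show (1 : Matrix (Fin 3) (Fin 3) ℝ) 2 0 = 0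
      simp
    rw [e0, e1, e2]
    ring
  rw [← abs_of_nonneg (norm_nonneg (col (R0 * R) 0 - col R0 0)),
    ← abs_of_nonneg (norm_nonneg (col R 0 - col (1 : O3) 0))]
  rw [← sq_eq_sq_iff_abs_eq_abs, h2, h3]

section

variable {K : Set E3} {b : ℝ} {x0 : E3}

theorem HS_lip (hle : ∀ x, ∀ y ∈ K, ⟪x, y⟫_ℝ ≤ HS K x) (hatt : ∀ x, ∃ y ∈ K, ⟪x, y⟫_ℝ = HS K x)
    (hd : ∀ x ∈ K, ‖x - x0‖ ≤ 3 * b) (u v : E3) :
    HS K u - HS K v - ⟪u - v, x0⟫_ℝ ≤ 3 * b * ‖u - v‖ := by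
  obtain ⟨y, hy, he⟩ := hatt u
  have h1 := hle v y hy
  have h2 : ⟪u, y⟫_ℝ - ⟪v, y⟫_ℝ - ⟪u - v, x0⟫_ℝ = ⟪u - v, y - x0⟫_ℝ := by
    rw [inner_sub_right, inner_sub_left u v y]
  have h3 := real_inner_le_norm (u - v) (y - x0)
  have h4 := hd y hy
  have h5 := mul_le_mul_of_nonneg_left h4 (norm_nonneg (u - v))
  linarith

/-- The function. -/
noncomputable def FF' (K : Set E3) (O : E3) (u : E3) : ℝ := (HS K u - HS K (-u)) / 2 - ⟪u, O⟫_ℝ

theorem F_lip (hle : ∀ x, ∀ y ∈ K, ⟪x, y⟫_ℝ ≤ HS K x) (hatt : ∀ x, ∃ y ∈ K, ⟪x, y⟫_ℝ = HS K x)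
    (hd : ∀ x ∈ K, ‖x - x0‖ ≤ 3 * b) {O : E3} (hO : ‖O - x0‖ ≤ 4 * b) (u v : E3) :
    FF' K O u - FF' K O v ≤ 7 * b * ‖u - v‖ := by
  have h1 := HS_lip hle hatt hd u v
  have h2 := HS_lip hle hatt hd (-v) (-u)
  have e1 : ‖-v - -u‖ = ‖u - v‖ := by
    rw [neg_sub_neg]
  have e2 : ⟪-v - -u, x0⟫_ℝ = ⟪u - v, x0⟫_ℝ := by
    rw [neg_sub_neg]
  rw [e1, e2] at h2
  have h3 : ⟪v - u, O - x0⟫_ℝ ≤ ‖u - v‖ * (4 * b) := by
    have h4 := real_inner_le_norm (v - u) (O - x0)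
    rw [norm_sub_rev] at h4
    exact h4.trans (mul_le_mul_of_nonneg_left hO (norm_nonneg _))
  have h5 : ⟪v - u, O - x0⟫_ℝ = ⟪v, O⟫_ℝ - ⟪u, O⟫_ℝ + ⟪u - v, x0⟫_ℝ := by
    rw [inner_sub_right, inner_sub_left, inner_sub_left, inner_sub_left]
    ring
  unfold FF'
  rw [h5] at h3
  linarith

end

end SULM

open SULM LN3M in
theorem specSUL (hHSB : SpecHSB) (hMEB : SpecMEB) : SpecSUL := by
  obtain ⟨ω, hω, hcap⟩ := cap_lb
  refine ⟨min (1 / 4) (ω / 6401), lt_min (by norm_num) (by positivity), ?_⟩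
  intro μ hμ K hK hi b O hb hw hI R0
  have hP := hμ.1
  obtain ⟨-, -, -, -, -, hle', -, -, hatt'⟩ := hHSB E3
  have hle := hle' K hK
  have hatt := hatt' K hK
  obtain ⟨m1, m2, -, -, -, -, -, -⟩ := hMEB K hK hi
  obtain ⟨x0, hx0⟩ := hK.2.2
  have hwid : ∀ u : E3, ‖u‖ = 1 → HS K u + HS K (-u) ≤ 3 * b := by
    intro u hu
    obtain ⟨S, rfl⟩ := exists_col u hu
    have h1 := hw S
    have h2 : wid (pr S K) 0 = HS K (col S 0) + HS K (-(col S 0)) := by
      unfold wid sup2 HS pr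
      rw [image_image, image_image]
      congr 2
      · refine image_congr fun x _ => ?_
        rw [dotu_cd, col_rot_zero]
        simp
      · refine image_congr fun x _ => ?_
        rw [dotu_cd, col_rot_zero]
        simp
    rwa [h2] at h1
  have hd : ∀ x ∈ K, ‖x - x0‖ ≤ 3 * b := by
    intro x hx
    by_cases h : x - x0 = 0
    · rw [h, norm_zero]
      positivity
    have hn : 0 < ‖x - x0‖ := norm_pos_iff.2 h
    set u : E3 := ‖x - x0‖⁻¹ • (x - x0) with hu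
    have hu1 : ‖u‖ = 1 := by
      rw [hu, norm_smul, norm_inv, norm_norm, inv_mul_cancel₀ hn.ne']
    have h1 := hwid u hu1
    have h2 := hle u x hx
    have h3 := hle (-u) x0 hx0
    have h4 : ⟪u, x⟫_ℝ + ⟪-u, x0⟫_ℝ = ‖x - x0‖ := by
      rw [inner_neg_left, ← sub_eq_add_neg, ← inner_sub_right, hu, inner_smul_left,
        real_inner_self_eq_norm_sq, RCLike.conj_to_real]
      field_simp
    linarith
  -- the function
  have hf : ∀ R : O3, mid (pr R K) 0 - ⟪col R 0, O⟫_ℝ = FF' K O (col R 0) := by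
    intro R
    rw [m2 R]
    rfl
  have hg0 : ∀ R : O3, |mid (pr R K) 0 - ⟪col R 0, x0⟫_ℝ| ≤ 3 / 2 * b := by
    intro R
    rw [m2 R]
    have h1 := hle (col R 0) x0 hx0
    have h2 := hle (-(col R 0)) x0 hx0
    rw [inner_neg_left] at h2
    have h3 := hwid (col R 0) (norm_col R 0)
    rw [abs_le]
    constructor <;> linarith
  have hfc : Continuous (fun R : O3 => (mid (pr R K) 0 - ⟪col R 0, O⟫_ℝ) ^ 2) :=
    (m1.sub ((continuous_col 0).inner continuous_const)).pow 2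
  have hO : ‖O - x0‖ ≤ 4 * b := by
    have h1 : ∫ R, ⟪col R 0, O - x0⟫_ℝ ^ 2 ∂μ ≤
        ∫ R, (2 * (mid (pr R K) 0 - ⟪col R 0, O⟫_ℝ) ^ 2 + 9 / 2 * b ^ 2) ∂μ := by
      refine integral_mono (integ ?_) (((integ hfc).const_mul 2).add (integrable_const _)) ?_
      · exact ((continuous_col 0).inner continuous_const).pow 2
      · intro R
        show ⟪col R 0, O - x0⟫_ℝ ^ 2 ≤ 2 * (mid (pr R K) 0 - ⟪col R 0, O⟫_ℝ) ^ 2 + 9 / 2 * b ^ 2
        have h2 := hg0 R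
        rw [inner_sub_right]
        set m := mid (pr R K) 0
        set p := ⟪col R 0, O⟫_ℝ
        set q := ⟪col R 0, x0⟫_ℝ
        have h3 : (m - q) ^ 2 ≤ (3 / 2 * b) ^ 2 := sq_le_sq' (abs_le.1 h2).1 (abs_le.1 h2).2
        nlinarith [sq_nonneg ((m - q) + (m - p))]
    rw [mean_sq hμ, integral_add ((integ hfc).const_mul 2) (integrable_const _),
      integral_const_mul, integral_const, probReal_univ, one_smul] at h1
    have h2 : ∫ R, (mid (pr R K) 0 - ⟪col R 0, O⟫_ℝ) ^ 2 ∂μ ≤ 1 / 4 * b ^ 2 :=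
      hI.trans (mul_le_mul_of_nonneg_right (min_le_left _ _) (sq_nonneg b))
    have h3 : ‖O - x0‖ ^ 2 ≤ (4 * b) ^ 2 := by nlinarith [sq_nonneg b]
    exact le_of_sq_le_sq h3 (by positivity)
  by_contra hcon
  push Not at hcon
  rw [hf R0] at hcon
  have hlow : ∀ R : O3, R ∈ (fun x => R0 * x) '' cap →
      (b / 80) ^ 2 ≤ (mid (pr R K) 0 - ⟪col R 0, O⟫_ℝ) ^ 2 := by
    rintro R ⟨S, hS, rfl⟩
    have h1 : ‖col (R0 * S) 0 - col R0 0‖ < 1 / 560 := by
      rw [cap_mul]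
      exact hS
    rw [hf]
    have h2 := F_lip hle hatt hd hO (col (R0 * S) 0) (col R0 0)
    have h3 := F_lip hle hatt hd hO (col R0 0) (col (R0 * S) 0)
    rw [norm_sub_rev] at h3
    have h4 : 7 * b * ‖col (R0 * S) 0 - col R0 0‖ ≤ b / 80 := by
      have := mul_le_mul_of_nonneg_left h1.le (show (0 : ℝ) ≤ 7 * b by positivity)
      linarith
    have h5 : b / 80 ≤ |FF' K O (col (R0 * S) 0)| := by
      rcases le_total 0 (FF' K O (col R0 0)) with h | h
      · rw [abs_of_nonneg h] at hcon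
        exact le_trans (by linarith) (le_abs_self _)
      · rw [abs_of_nonpos h] at hcon
        exact le_trans (by linarith) (neg_le_abs _)
    rw [← sq_abs (FF' K O (col (R0 * S) 0))]
    exact pow_le_pow_left₀ (by positivity) h5 2
  have hmeas : MeasurableSet ((fun x => R0 * x) '' cap) :=
    ((Homeomorph.mulLeft R0).isOpenMap _ cap_open).measurableSet
  have hmu : μ ((fun x => R0 * x) '' cap) = μ cap := by
    have h1 := (hμ.2.2 R0).measure_preimage hmeas.nullMeasurableSet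
    rw [preimage_image_eq _ (mul_right_injective R0)] at h1
    exact h1.symm
  have hfin : (b / 80) ^ 2 * ω ≤ ∫ R, (mid (pr R K) 0 - ⟪col R 0, O⟫_ℝ) ^ 2 ∂μ := by
    have h1 : ∫ R, ((fun x => R0 * x) '' cap).indicator (fun _ => (b / 80) ^ 2) R ∂μ ≤
        ∫ R, (mid (pr R K) 0 - ⟪col R 0, O⟫_ℝ) ^ 2 ∂μ := by
      refine integral_mono ((integrable_const _).indicator hmeas) (integ hfc) ?_
      intro R
      by_cases hR : R ∈ (fun x => R0 * x) '' cap
      · simp only [indicator_of_mem hR]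
        exact hlow R hR
      · simp only [indicator_of_notMem hR]
        positivity
    rw [integral_indicator_const _ hmeas, smul_eq_mul, measureReal_def, hmu] at h1
    have h2 := hcap μ hμ
    have h3 := mul_le_mul_of_nonneg_left h2 (sq_nonneg (b / 80))
    linarith
  have h2 : ∫ R, (mid (pr R K) 0 - ⟪col R 0, O⟫_ℝ) ^ 2 ∂μ ≤ ω / 6401 * b ^ 2 :=
    hI.trans (mul_le_mul_of_nonneg_right (min_le_right _ _) (sq_nonneg b))
  have h3 : 0 < ω * b ^ 2 := by positivity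
  nlinarith

end Pool.Agent.Lib.MP_084b88_gt.CW
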