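import Pool.Agent.Lib.MP_084b88_gt.CW.SpecD
import Pool.Agent.Lib.MP_084b88_gt.CW.MEA

/-!
# MEB: measurability, bounds and rotation covariance of `mid`, `mf`, `g3f mid`
-/

set_option autoImplicit false

open MeasureTheory Set Real Filter Topology
open scoped Pointwise InnerProductSpace

namespace Pool.Agent.Lib.MP_084b88_gt.CW

namespace MEBM

open MEAM

theorem mid_eq (R : O3) (K : Set E3) :
    mid (pr R K) 0 = (HS K (col R 0) - HS K (-(col R 0))) / 2 := by
  unfold mid
  rw [sup2_pr, sup2_pr, col_rot_zero', col_rot_pi]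

theorem mid_rot (R : O3) (K : Set E3) (t : ℝ) :
    mid (pr R K) t = mid (pr (R * rot t) K) 0 := by
  unfold mid
  rw [← sup2_rot, ← sup2_rot_pi]

theorem col_rot_rot (R : O3) (t s : ℝ) :
    col (R * rot t * rot s) 0 = col (R * rot (t + s)) 0 := by
  rw [col_rot_zero, col_rot_zero, col_rot_one, col_rot_zero, cos_add, sin_add]
  module

theorem mid_add (R : O3) (K : Set E3) (t s : ℝ) :
    mid (pr (R * rot t) K) s = mid (pr R K) (t + s) := by
  rw [mid_rot, mid_eq, mid_rot R K (t + s), mid_eq, col_rot_rot]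

theorem mid_per (R : O3) (K : Set E3) (t : ℝ) : mid (pr R K) (t + 2 * π) = mid (pr R K) t := by
  rw [mid_rot, mid_eq, mid_rot R K t, mid_eq, col_rot_zero, col_rot_zero, cos_add_two_pi,
    sin_add_two_pi]

section

variable {K : Set E3} (hK : CC K) (hc : Continuous (HS K))
include hc

theorem cont_joint : Continuous (fun a : O3 × ℝ => mid (pr a.1 K) a.2) := by
  have h : (fun a : O3 × ℝ => mid (pr a.1 K) a.2) = fun a : O3 × ℝ =>
      mid (pr (a.1 * rot a.2) K) 0 := by
    funext a
    exact mid_rot _ _ _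
  rw [h]
  exact (cont_mid hc 0).comp (continuous_fst.mul (continuous_rot.comp continuous_snd))

theorem cont_t (R : O3) : Continuous (fun t : ℝ => mid (pr R K) t) := by
  have h : Continuous (fun t : ℝ => (R, t)) := by fun_prop
  have h2 := (cont_joint hc).comp h
  exact h2

theorem cont_g3 : Continuous (fun R : O3 => g3f (mid (pr R K)) 0) := by
  unfold g3f
  have h1 : Continuous (fun R : O3 => ∫ s in (0 : ℝ)..(2 * π), mid (pr R K) s * cos s) := by
    apply intervalIntegral.continuous_parametric_intervalIntegral_of_continuous'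
    exact (cont_joint hc).mul (continuous_cos.comp continuous_snd)
  have h2 : Continuous (fun R : O3 => ∫ s in (0 : ℝ)..(2 * π), mid (pr R K) s * sin s) := by
    apply intervalIntegral.continuous_parametric_intervalIntegral_of_continuous'
    exact (cont_joint hc).mul (continuous_sin.comp continuous_snd)
  have h3 := cont_mid hc 0
  fun_prop

theorem g3_rot (R : O3) (t : ℝ) :
    g3f (mid (pr R K)) t = g3f (mid (pr (R * rot t) K)) 0 := by
  have hct := cont_t hc R
  set φ : ℝ → ℝ := mid (pr R K) with hφ
  have hper : ∀ x, φ (x + 2 * π) = φ x := mid_per R K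
  have e0 : ∀ s, mid (pr (R * rot t) K) s = φ (t + s) := fun s => mid_add R K t s
  have hcc : Continuous (fun s => φ s * cos s) := hct.mul continuous_cos
  have hcs : Continuous (fun s => φ s * sin s) := hct.mul continuous_sin
  have p1 : Function.Periodic (fun s => φ s * cos (s - t)) (2 * π) := by
    intro x
    show φ (x + 2 * π) * cos (x + 2 * π - t) = _
    rw [hper, show x + 2 * π - t = x - t + 2 * π from by ring, cos_add_two_pi]
  have p2 : Function.Periodic (fun s => φ s * sin (s - t)) (2 * π) := by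
    intro x
    show φ (x + 2 * π) * sin (x + 2 * π - t) = _
    rw [hper, show x + 2 * π - t = x - t + 2 * π from by ring, sin_add_two_pi]
  have e1 : ∫ s in (0 : ℝ)..(2 * π), mid (pr (R * rot t) K) s * cos s =
      (∫ s in (0 : ℝ)..(2 * π), φ s * cos s) * cos t +
        (∫ s in (0 : ℝ)..(2 * π), φ s * sin s) * sin t := by
    have h1 : ∫ s in (0 : ℝ)..(2 * π), mid (pr (R * rot t) K) s * cos s =
        ∫ s in (0 : ℝ)..(2 * π), (fun u => φ u * cos (u - t)) (t + s) := by
      refine intervalIntegral.integral_congr (fun s _ => ?_)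
      show mid (pr (R * rot t) K) s * cos s = φ (t + s) * cos (t + s - t)
      rw [e0, add_sub_cancel_left]
    rw [h1, intervalIntegral.integral_comp_add_left (fun u => φ u * cos (u - t)) t, add_zero,
      p1.intervalIntegral_add_eq t 0, zero_add, ← intervalIntegral.integral_mul_const,
      ← intervalIntegral.integral_mul_const, ← intervalIntegral.integral_add]
    · refine intervalIntegral.integral_congr (fun s _ => ?_)
      show φ s * cos (s - t) = φ s * cos s * cos t + φ s * sin s * sin t
      rw [cos_sub]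
      ring
    · exact (hcc.mul continuous_const).intervalIntegrable _ _
    · exact (hcs.mul continuous_const).intervalIntegrable _ _
  unfold g3f
  rw [e1, e0, add_zero, cos_zero, sin_zero]
  ring

include hK

theorem meas_mf : Measurable (fun R : O3 => mf (pr R K) 0) := by
  set S : Set (O3 × (ℝ × ℝ)) := {a | a.2 ∈ pr a.1 K} with hS
  have hSm : MeasurableSet S := (isClosed_S hK).measurableSet
  have hg : Measurable (fun a : O3 × (ℝ × ℝ) =>
      (dotu 0 a.2 - mid (pr a.1 K) 0) / (wid (pr a.1 K) 0 / 2)) := by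
    have h1 : Measurable (fun a : O3 × (ℝ × ℝ) => dotu 0 a.2) :=
      ((continuous_dotu_right 0).comp continuous_snd).measurable
    have h2 : Measurable (fun a : O3 × (ℝ × ℝ) => mid (pr a.1 K) 0) :=
      ((cont_mid hc 0).comp continuous_fst).measurable
    have h3 : Measurable (fun a : O3 × (ℝ × ℝ) => wid (pr a.1 K) 0) :=
      ((cont_wid hc 0).comp continuous_fst).measurable
    exact (h1.sub h2).div (h3.div_const 2)
  have hf : StronglyMeasurable (S.indicator (fun a : O3 × (ℝ × ℝ) =>
      (dotu 0 a.2 - mid (pr a.1 K) 0) / (wid (pr a.1 K) 0 / 2))) :=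
    (hg.indicator hSm).stronglyMeasurable
  have h4 := (hf.integral_prod_right' (ν := (volume : Measure (ℝ × ℝ)))).measurable
  have h5 : (fun R : O3 => ∫ p : ℝ × ℝ, S.indicator (fun a : O3 × (ℝ × ℝ) =>
      (dotu 0 a.2 - mid (pr a.1 K) 0) / (wid (pr a.1 K) 0 / 2)) (R, p)) =
      fun R : O3 => mf (pr R K) 0 := by
    funext R
    unfold mf
    rw [← integral_indicator (cc_pr hK R).2.1.measurableSet]
    refine integral_congr_ae (Eventually.of_forall fun p => ?_)
    by_cases hp : p ∈ pr R K
    · simp only [indicator_of_mem (show (R, p) ∈ S from hp), indicator_of_mem hp]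
    · simp only [indicator_of_notMem (show (R, p) ∉ S from hp), indicator_of_notMem hp]
  rw [← h5]
  exact h4

end

theorem mf_bd (hWB2 : SpecWB2) {K : Set E3} (hK : CC K) (R : O3) :
    |mf (pr R K) 0| ≤ area (pr R K) := by
  have h := norm_setIntegral_le_of_norm_le_const (μ := (volume : Measure (ℝ × ℝ)))
    (s := pr R K) (C := 1)
    (f := fun p => (dotu 0 p - mid (pr R K) 0) / (wid (pr R K) 0 / 2))
    (vol_lt_top hK R) (fun p hp => by
      have h1 := hWB2.1 (pr R K) (cc_pr hK R) 0 p hp
      have h2 := hWB2.1 (pr R K) (cc_pr hK R) (0 + π) p hp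
      have h3 : dotu (0 + π) p = - dotu 0 p := by
        unfold dotu
        rw [cos_add_pi, sin_add_pi]
        ring
      rw [h3] at h2
      rw [norm_eq_abs, abs_div]
      apply div_le_one_of_le₀ _ (abs_nonneg _)
      refine le_trans ?_ (le_abs_self _)
      unfold mid wid
      rw [abs_le]
      constructor <;> linarith)
  rw [one_mul] at h
  exact h

theorem mf_rot (hRO2 : SpecRO2) (K : Set E3) (R : O3) (θ : ℝ) :
    mf (pr R K) θ = mf (pr (R * rot θ) K) 0 := by
  have h1 : MeasurePreserving (ro θ) volume volume := (hRO2 θ).1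
  have hemb : MeasurableEmbedding (ro θ) := (ro_cont θ).measurable.measurableEmbedding (ro_inj θ)
  have hm : mid (pr (R * rot θ) K) 0 = mid (pr R K) θ := (mid_rot R K θ).symm
  have hw : wid (pr (R * rot θ) K) 0 = wid (pr R K) θ := by
    unfold wid
    rw [← sup2_rot, ← sup2_rot_pi]
  unfold mf
  rw [hm, hw, pr_rot]
  have h2 := h1.setIntegral_preimage_emb hemb
    (fun p => (dotu 0 p - mid (pr R K) θ) / (wid (pr R K) θ / 2))
    (ro θ '' pr R K)
  rw [preimage_image_eq _ (ro_inj θ)] at h2
  rw [← h2]
  have h3 : ∀ p : ℝ × ℝ, dotu 0 (ro θ p) = dotu θ p := by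
    intro p
    simp [ro, dotu]
  simp only [h3]

end MEBM

open MEBM MEAM in
theorem specMEB (hHSB : SpecHSB) (hRO2 : SpecRO2) (hWB2 : SpecWB2) : SpecMEB := by
  intro K hK hi
  obtain ⟨-, -, -, -, hcont, -, -, -, -⟩ := hHSB E3
  have hc := hcont K hK
  exact ⟨cont_mid hc 0, fun R => mid_eq R K, fun R t => mid_rot R K t, meas_mf hK hc,
    mf_bd hWB2 hK, mf_rot hRO2 K, cont_g3 hc, g3_rot hc⟩

end Pool.Agent.Lib.MP_084b88_gt.CW
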