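import Pool.Agent.Lib.MP_084b88_gt.CW.SpecA

/-!
# MP_084b88_gt, project CW: NUB (the semicircle test function)
-/

set_option autoImplicit false

open MeasureTheory Set Real Filter Topology
open scoped Pointwise InnerProductSpace

namespace Pool.Agent.Lib.MP_084b88_gt.CW

namespace NUBM

theorem continuous_coord (R : O3) : Continuous (coord R) := by
  unfold coord
  exact (continuous_cd_right R).prodMk (continuous_const.inner continuous_id)

theorem hs_bdd {K : Set E3} (hK : CC K) (u : E3) :
    BddAbove ((fun y => ⟪u, y⟫_ℝ) '' K) :=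
  (hK.2.1.image (continuous_const.inner continuous_id)).bddAbove

theorem le_hs {K : Set E3} (hK : CC K) (u : E3) {x : E3} (hx : x ∈ K) : ⟪u, x⟫_ℝ ≤ HS K u :=
  le_csSup (hs_bdd hK u) ⟨x, hx, rfl⟩

theorem hs_att {K : Set E3} (hK : CC K) (u : E3) : ∃ y ∈ K, ⟪u, y⟫_ℝ = HS K u := by
  obtain ⟨y, hy, hmax⟩ := hK.2.1.exists_isMaxOn hK.2.2
    (f := fun y => ⟪u, y⟫_ℝ) (continuous_const.inner continuous_id).continuousOn
  refine ⟨y, hy, le_antisymm (le_hs hK u hy) ?_⟩
  refine csSup_le (hK.2.2.image _) ?_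
  rintro _ ⟨z, hz, rfl⟩
  exact hmax hz

/-- every level strictly between the extreme ones contains an interior point -/
theorem level {K : Set E3} (hK : CC K) (hint : (interior K).Nonempty) (u : E3) {s : ℝ}
    (h1 : -HS K (-u) < s) (h2 : s < HS K u) : ∃ x ∈ interior K, ⟪u, x⟫_ℝ = s := by
  obtain ⟨x0, hx0⟩ := hint
  have hx0K := interior_subset hx0
  obtain ⟨y1, hy1, hy1'⟩ := hs_att hK u
  obtain ⟨y2, hy2, hy2'⟩ := hs_att hK (-u)
  rw [inner_neg_left] at hy2'
  rcases le_or_gt ⟪u, x0⟫_ℝ s with h | h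
  · have hd : 0 < HS K u - ⟪u, x0⟫_ℝ := by linarith
    refine ⟨((HS K u - s) / (HS K u - ⟪u, x0⟫_ℝ)) • x0 +
      ((s - ⟪u, x0⟫_ℝ) / (HS K u - ⟪u, x0⟫_ℝ)) • y1, ?_, ?_⟩
    · refine hK.1.combo_interior_self_mem_interior hx0 hy1 (div_pos (by linarith) hd)
        (div_nonneg (by linarith) hd.le) ?_
      rw [← add_div, div_eq_one_iff_eq hd.ne']
      ring
    · rw [inner_add_right, inner_smul_right, inner_smul_right, hy1']
      field_simp
      ring
  · have hd : 0 < ⟪u, x0⟫_ℝ + HS K (-u) := by linarith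
    refine ⟨((s + HS K (-u)) / (⟪u, x0⟫_ℝ + HS K (-u))) • x0 +
      ((⟪u, x0⟫_ℝ - s) / (⟪u, x0⟫_ℝ + HS K (-u))) • y2, ?_, ?_⟩
    · refine hK.1.combo_interior_self_mem_interior hx0 hy2 (div_pos (by linarith) hd)
        (div_nonneg (by linarith) hd.le) ?_
      rw [← add_div, div_eq_one_iff_eq hd.ne']
      ring
    · have hy2'' : ⟪u, y2⟫_ℝ = -HS K (-u) := by linarith
      rw [inner_add_right, inner_smul_right, inner_smul_right, hy2'']
      field_simp
      ring

theorem width_pos {K : Set E3} (hK : CC K) (hint : (interior K).Nonempty) (u : E3)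
    (hu : ‖u‖ = 1) : -HS K (-u) < HS K u := by
  obtain ⟨x0, hx0⟩ := hint
  obtain ⟨ε, hε, hball⟩ := Metric.isOpen_iff.1 isOpen_interior x0 hx0
  have h1 : x0 + (ε / 2) • u ∈ K := by
    apply interior_subset
    apply hball
    rw [Metric.mem_ball, dist_eq_norm, add_sub_cancel_left, norm_smul, hu, mul_one,
      Real.norm_of_nonneg (by linarith)]
    linarith
  have h2 := le_hs hK u h1
  rw [inner_add_right, inner_smul_right, real_inner_self_eq_norm_sq, hu] at h2
  have h3 := le_hs hK (-u) (interior_subset hx0)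
  rw [inner_neg_left] at h3
  linarith

/-- the sections are compact convex -/
theorem sec_cc {K : Set E3} (hK : CC K) (R : O3) (s : ℝ)
    (hne : (K ∩ {x | ⟪col R 2, x⟫_ℝ = s}).Nonempty) : CC (sec R s K) := by
  have hcl : IsClosed {x : E3 | ⟪col R 2, x⟫_ℝ = s} :=
    isClosed_eq (continuous_const.inner continuous_id) continuous_const
  refine ⟨?_, ?_, hne.image _⟩
  · rintro p ⟨x, ⟨hx, hx'⟩, rfl⟩ q ⟨y, ⟨hy, hy'⟩, rfl⟩ a b ha hb hab
    refine ⟨a • x + b • y, ⟨hK.1 hx hy ha hb hab, ?_⟩, ?_⟩
    · change ⟪col R 2, x⟫_ℝ = s at hx'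
      change ⟪col R 2, y⟫_ℝ = s at hy'
      change ⟪col R 2, a • x + b • y⟫_ℝ = s
      rw [inner_add_right, inner_smul_right, inner_smul_right, hx', hy', ← add_mul, hab, one_mul]
    · rw [cd_add, cd_smul, cd_smul]
  · exact (hK.2.1.inter_right hcl).image (continuous_cd_right R)

/-- the slices of the image under `coord R` -/
theorem slice (K : Set E3) (R : O3) (s : ℝ) :
    (fun p : ℝ × ℝ => (p, s)) ⁻¹' (coord R '' K) = sec R s K := by
  ext p
  constructor
  · rintro ⟨x, hx, hxp⟩
    exact ⟨x, ⟨hx, congrArg Prod.snd hxp⟩, congrArg Prod.fst hxp⟩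
  · rintro ⟨x, ⟨hx, hx'⟩, hxp⟩
    exact ⟨x, hx, Prod.ext hxp hx'⟩

theorem int_w {B g : ℝ} (hB : 0 < B) :
    ∫ s in Ioo (g - B) (g + B), (1 - ((s - g) / B) ^ 2) = 4 / 3 * B := by
  have h0 : g - B ≤ g + B := by linarith
  rw [← integral_Ioc_eq_integral_Ioo, ← intervalIntegral.integral_of_le h0]
  have hd : ∀ s ∈ uIcc (g - B) (g + B), HasDerivAt (fun s => s - (s - g) ^ 3 / (3 * B ^ 2))
      (1 - ((s - g) / B) ^ 2) s := by
    intro s _
    have h1 : HasDerivAt (fun s : ℝ => s - g) 1 s := (hasDerivAt_id s).sub_const g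
    have h2 := (h1.pow 3).div_const (3 * B ^ 2)
    have h3 := (hasDerivAt_id s).sub h2
    have h4 : HasDerivAt (fun s => s - (s - g) ^ 3 / (3 * B ^ 2))
      (1 - (3 : ℕ) * (s - g) ^ (3 - 1) * 1 / (3 * B ^ 2)) s := h3
    refine h4.congr_deriv ?_
    have hB2 : (3 : ℝ) * B ^ 2 ≠ 0 := by positivity
    rw [div_pow, mul_one, sub_right_inj, div_eq_div_iff hB2 (by positivity)]
    push_cast
    ring
  rw [intervalIntegral.integral_eq_sub_of_hasDerivAt hd]
  · have e1 : g + B - g = B := by ring
    have e2 : g - B - g = -B := by ring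
    rw [e1, e2]
    field_simp
    ring
  · apply Continuous.intervalIntegrable
    fun_prop

end NUBM

open NUBM in
/-- **NUB**. The semicircle test function. -/
theorem specNUB (hSST : SpecSST) (hCO3 : SpecCO3) (hWB2 : SpecWB2) : SpecNUB := by
  intro K hK hint c hc hH R B g hBdef hgdef
  set u := col R 2 with hu
  have hun : ‖u‖ = 1 := norm_col R 2
  have hgB : g + B = HS K u := by rw [hBdef, hgdef]; ring
  have hgB' : g - B = -HS K (-u) := by rw [hBdef, hgdef]; ring
  have hB : 0 < B := by
    have := width_pos hK hint u hun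
    rw [← hgB, ← hgB'] at this
    linarith
  rcases hc.eq_or_lt with h0 | hcpos
  · rw [← h0, zero_mul]
    have := ENNReal.toReal_nonneg (a := volume K)
    positivity
  -- the inequality in every section
  have hsec : ∀ s ∈ Ioo (g - B) (g + B), CC (sec R s K) ∧
      c * len (sec R s K) ^ 2 ≤ π * area (sec R s K) := by
    intro s hs
    obtain ⟨x, hx, hxs⟩ := level hK hint u (by rw [← hgB']; exact hs.1) (by rw [← hgB]; exact hs.2)
    have hne : (K ∩ {x | ⟪col R 2, x⟫_ℝ = s}).Nonempty := ⟨x, interior_subset hx, hxs⟩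
    refine ⟨sec_cc hK R s hne, ?_⟩
    have hmem : ∀ y : E3, y ∈ AffineSubspace.mk' (s • u) (ℝ ∙ u)ᗮ ↔ ⟪u, y⟫_ℝ = s := by
      intro y
      rw [AffineSubspace.mem_mk', vsub_eq_sub, Submodule.mem_orthogonal_singleton_iff_inner_right,
        inner_sub_right, inner_smul_right, real_inner_self_eq_norm_sq, hun]
      constructor
      · intro h; linarith
      · intro h; rw [h]; ring
    have hset : K ∩ ((AffineSubspace.mk' (s • u) (ℝ ∙ u)ᗮ : AffineSubspace ℝ E3) : Set E3) =
        K ∩ {x | ⟪col R 2, x⟫_ℝ = s} := by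
      ext y
      constructor
      · rintro ⟨h1, h2⟩
        exact ⟨h1, (hmem y).1 h2⟩
      · rintro ⟨h1, h2⟩
        exact ⟨h1, (hmem y).2 h2⟩
    have hfr : Module.finrank ℝ (AffineSubspace.mk' (s • u) (ℝ ∙ u)ᗮ : AffineSubspace ℝ E3).direction
        = 2 := by
      rw [AffineSubspace.direction_mk']
      have : Fact (Module.finrank ℝ E3 = 2 + 1) := ⟨by simp [E3]⟩
      apply Submodule.finrank_orthogonal_span_singleton
      intro h
      rw [h, norm_zero] at hun
      exact zero_ne_one hun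
    refine hH _ hfr ⟨x, hx, (hmem x).2 hxs⟩ (len (sec R s K)) (area (sec R s K)) ?_
    intro t ht
    rw [hset]
    exact hSST R s K hK hne t ht
  -- Cavalieri
  obtain ⟨hmp, e, he, _⟩ := hCO3 R
  have hinj : Function.Injective (coord R) := by
    intro x y hxy
    apply e.injective
    rw [he, he, hxy]
  have hSc : IsCompact (coord R '' K) := hK.2.1.image (continuous_coord R)
  have hSm : MeasurableSet (coord R '' K) := hSc.isClosed.measurableSet
  have hvol : volume K = ∫⁻ s, volume (sec R s K) := by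
    have h2 := hmp.measure_preimage hSm.nullMeasurableSet
    rw [preimage_image_eq K hinj] at h2
    rw [h2]
    change (volume.prod volume) (coord R '' K) = _
    rw [Measure.prod_apply_symm hSm]
    refine lintegral_congr fun s => ?_
    rw [slice]
  have hAm : Measurable (fun s : ℝ => volume (sec R s K)) := by
    have h3 := measurable_measure_prodMk_right (μ := (volume : Measure (ℝ × ℝ))) hSm
    have h4 : (fun s : ℝ => volume ((fun p : ℝ × ℝ => (p, s)) ⁻¹' (coord R '' K))) =
        fun s : ℝ => volume (sec R s K) := by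
      funext s
      rw [slice]
    rw [← h4]
    exact h3
  have hKfin : volume K ≠ ⊤ := hK.2.1.measure_lt_top.ne
  have hI1 : ∫⁻ s in Ioo (g - B) (g + B), volume (sec R s K) ≤ volume K := by
    rw [hvol]
    exact setLIntegral_le_lintegral _ _
  have hI1' : ∫⁻ s in Ioo (g - B) (g + B), volume (sec R s K) ≠ ⊤ :=
    ne_top_of_le_ne_top hKfin hI1
  have hAint : IntegrableOn (fun s => area (sec R s K)) (Ioo (g - B) (g + B)) :=
    integrable_toReal_of_lintegral_ne_top hAm.aemeasurable hI1'
  have hAle : ∫ s in Ioo (g - B) (g + B), area (sec R s K) ≤ (volume K).toReal := by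
    have h5 : ∫ s in Ioo (g - B) (g + B), area (sec R s K) =
        (∫⁻ s in Ioo (g - B) (g + B), volume (sec R s K)).toReal := by
      refine integral_toReal hAm.aemeasurable ?_
      exact ae_lt_top hAm hI1'
    rw [h5]
    exact ENNReal.toReal_mono hKfin hI1
  -- the test function
  set N := ∫ s in Ioo (g - B) (g + B), len (sec R s K) * √(1 - ((s - g) / B) ^ 2) with hN
  have hw0 : ∀ s ∈ Ioo (g - B) (g + B), 0 ≤ 1 - ((s - g) / B) ^ 2 := by
    intro s hs
    have h6 : |(s - g) / B| ≤ 1 := by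
      rw [abs_div, abs_of_pos hB, div_le_one hB, abs_le]
      exact ⟨by linarith [hs.1], by linarith [hs.2]⟩
    have h7 : ((s - g) / B) ^ 2 ≤ 1 := by
      rw [sq_le_one_iff_abs_le_one]
      exact h6
    linarith
  have hlen0 : ∀ s ∈ Ioo (g - B) (g + B), 0 ≤ len (sec R s K) := by
    intro s hs
    exact (hWB2.2.2.2.2.2.2.2.2.1 _ (hsec s hs).1).1
  have hN0 : 0 ≤ N := by
    rw [hN]
    refine setIntegral_nonneg measurableSet_Ioo fun s hs => ?_
    exact mul_nonneg (hlen0 s hs) (Real.sqrt_nonneg _)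
  have hV0 : 0 ≤ (volume K).toReal := ENNReal.toReal_nonneg
  have hwint : IntegrableOn (fun s => 1 - ((s - g) / B) ^ 2) (Ioo (g - B) (g + B)) := by
    have h8 : Continuous (fun s : ℝ => 1 - ((s - g) / B) ^ 2) := by fun_prop
    exact (h8.continuousOn.integrableOn_compact isCompact_Icc).mono_set Ioo_subset_Icc_self
  have key : ∀ l : ℝ, 0 ≤ (π / c * (volume K).toReal) * (l * l) + (-2 * N) * l + 4 / 3 * B := by
    intro l
    rcases le_or_gt l 0 with hl | hl
    · have h9 : 0 ≤ π / c * (volume K).toReal := by positivity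
      have h10 : 0 ≤ (π / c * (volume K).toReal) * (l * l) := mul_nonneg h9 (mul_self_nonneg l)
      nlinarith [mul_nonneg hN0 (neg_nonneg.2 hl)]
    by_cases hf : IntegrableOn (fun s => len (sec R s K) * √(1 - ((s - g) / B) ^ 2))
        (Ioo (g - B) (g + B))
    · have h11 : ∫ s in Ioo (g - B) (g + B),
          2 * l * (len (sec R s K) * √(1 - ((s - g) / B) ^ 2)) ≤
          ∫ s in Ioo (g - B) (g + B),
            (l * l * (π / c) * area (sec R s K) + (1 - ((s - g) / B) ^ 2)) := by
        refine setIntegral_mono_on (hf.const_mul _) ((hAint.const_mul _).add hwint)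
          measurableSet_Ioo fun s hs => ?_
        obtain ⟨-, h12⟩ := hsec s hs
        have h13 : len (sec R s K) ^ 2 ≤ π / c * area (sec R s K) := by
          rw [div_mul_eq_mul_div, le_div_iff₀ hcpos]
          linarith
        have h14 := Real.sq_sqrt (hw0 s hs)
        have h15 : 0 ≤ (l * len (sec R s K) - √(1 - ((s - g) / B) ^ 2)) ^ 2 := sq_nonneg _
        have h16 : l * l * len (sec R s K) ^ 2 ≤ l * l * (π / c * area (sec R s K)) :=
          mul_le_mul_of_nonneg_left h13 (mul_self_nonneg l)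
        nlinarith
      rw [integral_const_mul, ← hN,
        integral_add (hAint.const_mul _) hwint, integral_const_mul, int_w hB] at h11
      have h17 : l * l * (π / c) * ∫ s in Ioo (g - B) (g + B), area (sec R s K) ≤
          l * l * (π / c) * (volume K).toReal := by
        refine mul_le_mul_of_nonneg_left hAle ?_
        positivity
      nlinarith
    · have hN00 : N = 0 := by
        rw [hN]
        exact integral_undef hf
      rw [hN00]
      have h9 : 0 ≤ π / c * (volume K).toReal := by positivity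
      have h10 : 0 ≤ (π / c * (volume K).toReal) * (l * l) := mul_nonneg h9 (mul_self_nonneg l)
      linarith
  have hdisc := discrim_le_zero key
  unfold discrim at hdisc
  have h18 : N ^ 2 ≤ π / c * (volume K).toReal * (4 / 3 * B) := by nlinarith
  calc c * N ^ 2 ≤ c * (π / c * (volume K).toReal * (4 / 3 * B)) :=
        mul_le_mul_of_nonneg_left h18 hcpos.le
    _ = 4 / 3 * B * (π * (volume K).toReal) := by
        field_simp

end Pool.Agent.Lib.MP_084b88_gt.CW
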