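import Pool.Agent.Lib.MP_084b88_gt.CW.SpecD
import Pool.Agent.Lib.MP_084b88_gt.CW.NUB

/-!
# MP_084b88_gt, project CW, module NUC: the test function `√(1-s²) + x s`
-/

set_option autoImplicit false

open MeasureTheory Set Real Filter Topology
open scoped Pointwise InnerProductSpace

namespace Pool.Agent.Lib.MP_084b88_gt.CW

namespace NUCM

/-- The test function. -/
noncomputable def FX (x t : ℝ) : ℝ := √(1 - t ^ 2) + x * t

theorem FX_cont (x : ℝ) : Continuous (FX x) := by
  unfold FX; fun_prop

theorem int_cross : ∫ t in (-1 : ℝ)..1, t * √(1 - t ^ 2) = 0 := by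
  have h := intervalIntegral.integral_comp_neg (a := (-1 : ℝ)) (b := 1)
    (fun t : ℝ => t * √(1 - t ^ 2))
  simp only [neg_neg] at h
  have h2 : ∀ t : ℝ, -t * √(1 - (-t) ^ 2) = -(t * √(1 - t ^ 2)) := by
    intro t
    rw [neg_sq, neg_mul]
  simp only [h2, intervalIntegral.integral_neg] at h
  linarith

theorem int_FX (x : ℝ) : ∫ t in (-1 : ℝ)..1, FX x t ^ 2 = 4 / 3 * (1 + x ^ 2 / 2) := by
  have h1 : ∫ t in (-1 : ℝ)..1, FX x t ^ 2 =
      ∫ t in (-1 : ℝ)..1, ((1 - t ^ 2 + x ^ 2 * t ^ 2) + 2 * x * (t * √(1 - t ^ 2))) := by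
    apply intervalIntegral.integral_congr
    intro t ht
    rw [uIcc_of_le (by norm_num)] at ht
    have h0 : 0 ≤ 1 - t ^ 2 := by nlinarith [ht.1, ht.2]
    have h2 := Real.sq_sqrt h0
    simp only [FX]
    nlinarith
  rw [h1, intervalIntegral.integral_add, intervalIntegral.integral_const_mul, int_cross]
  · have hd : ∀ t ∈ uIcc (-1 : ℝ) 1, HasDerivAt (fun t : ℝ => t - t ^ 3 / 3 + x ^ 2 * (t ^ 3 / 3))
        (1 - t ^ 2 + x ^ 2 * t ^ 2) t := by
      intro t _
      have h3 : HasDerivAt (fun t : ℝ => t ^ 3 / 3) (t ^ 2) t := by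
        have := (hasDerivAt_pow 3 t).div_const 3
        refine this.congr_deriv ?_
        norm_num
      exact ((hasDerivAt_id t).sub h3).add (h3.const_mul _)
    rw [intervalIntegral.integral_eq_sub_of_hasDerivAt hd]
    · norm_num
      ring
    · apply Continuous.intervalIntegrable
      fun_prop
  · apply Continuous.intervalIntegrable
    fun_prop
  · apply Continuous.intervalIntegrable
    fun_prop

theorem int_w (x : ℝ) {B g : ℝ} (hB : 0 < B) :
    ∫ s in Ioo (g - B) (g + B), FX x ((s - g) / B) ^ 2 = 4 / 3 * B * (1 + x ^ 2 / 2) := by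
  have h0 : g - B ≤ g + B := by linarith
  rw [← integral_Ioc_eq_integral_Ioo, ← intervalIntegral.integral_of_le h0]
  have h1 := intervalIntegral.integral_comp_div_sub (a := g - B) (b := g + B)
    (fun t => FX x t ^ 2) hB.ne' (g / B)
  have h2 : ∀ s : ℝ, s / B - g / B = (s - g) / B := fun s => by rw [sub_div]
  simp only [h2] at h1
  have e1 : (g - B - g) / B = -1 := by
    rw [div_eq_iff hB.ne']; ring
  have e2 : (g + B - g) / B = 1 := by
    rw [div_eq_iff hB.ne']; ring
  rw [h1, e1, e2, int_FX, smul_eq_mul]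
  ring

end NUCM

open NUBM NUCM in
/-- **NUC**. The test function `√(1-s²) + x s`. -/
theorem specNUC (hSST : SpecSST) (hCO3 : SpecCO3) : SpecNUC := by
  intro K hK hint c hc hH R B g x hBdef hgdef
  set u := col R 2 with hu
  have hun : ‖u‖ = 1 := norm_col R 2
  have hgB : g + B = HS K u := by rw [hBdef, hgdef]; ring
  have hgB' : g - B = -HS K (-u) := by rw [hBdef, hgdef]; ring
  have hB : 0 < B := by
    have := width_pos hK hint u hun
    rw [← hgB, ← hgB'] at this
    linarith
  rcases hc.eq_or_lt with h0 | hcpos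
  · rw [← h0, zero_mul]
    have := ENNReal.toReal_nonneg (a := volume K)
    positivity
  -- the inequality in every section
  have hsec : ∀ s ∈ Ioo (g - B) (g + B), CC (sec R s K) ∧
      c * len (sec R s K) ^ 2 ≤ π * area (sec R s K) := by
    intro s hs
    obtain ⟨x, hx, hxs⟩ := level hK hint u (by rw [← hgB']; exact hs.1) (by rw [← hgB]; exact hs.2)
    have hne : (K ∩ {x | ⟪col R 2, x⟫_ℝ = s}).Nonempty := ⟨x, interior_subset hx, hxs⟩
    refine ⟨sec_cc hK R s hne, ?_⟩
    have hmem : ∀ y : E3, y ∈ AffineSubspace.mk' (s • u) (ℝ ∙ u)ᗮ ↔ ⟪u, y⟫_ℝ = s := by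
      intro y
      rw [AffineSubspace.mem_mk', vsub_eq_sub, Submodule.mem_orthogonal_singleton_iff_inner_right,
        inner_sub_right, inner_smul_right, real_inner_self_eq_norm_sq, hun]
      constructor
      · intro h; linarith
      · intro h; rw [h]; ring
    have hset : K ∩ ((AffineSubspace.mk' (s • u) (ℝ ∙ u)ᗮ : AffineSubspace ℝ E3) : Set E3) =
        K ∩ {x | ⟪col R 2, x⟫_ℝ = s} := by
      ext y
      constructor
      · rintro ⟨h1, h2⟩
        exact ⟨h1, (hmem y).1 h2⟩
      · rintro ⟨h1, h2⟩
        exact ⟨h1, (hmem y).2 h2⟩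
    have hfr : Module.finrank ℝ (AffineSubspace.mk' (s • u) (ℝ ∙ u)ᗮ : AffineSubspace ℝ E3).direction
        = 2 := by
      rw [AffineSubspace.direction_mk']
      have : Fact (Module.finrank ℝ E3 = 2 + 1) := ⟨by simp [E3]⟩
      apply Submodule.finrank_orthogonal_span_singleton
      intro h
      rw [h, norm_zero] at hun
      exact zero_ne_one hun
    refine hH _ hfr ⟨x, hx, (hmem x).2 hxs⟩ (len (sec R s K)) (area (sec R s K)) ?_
    intro t ht
    rw [hset]
    exact hSST R s K hK hne t ht
  -- Cavalieri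
  obtain ⟨hmp, e, he, _⟩ := hCO3 R
  have hinj : Function.Injective (coord R) := by
    intro x y hxy
    apply e.injective
    rw [he, he, hxy]
  have hSc : IsCompact (coord R '' K) := hK.2.1.image (continuous_coord R)
  have hSm : MeasurableSet (coord R '' K) := hSc.isClosed.measurableSet
  have hvol : volume K = ∫⁻ s, volume (sec R s K) := by
    have h2 := hmp.measure_preimage hSm.nullMeasurableSet
    rw [preimage_image_eq K hinj] at h2
    rw [h2]
    change (volume.prod volume) (coord R '' K) = _
    rw [Measure.prod_apply_symm hSm]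
    refine lintegral_congr fun s => ?_
    rw [slice]
  have hAm : Measurable (fun s : ℝ => volume (sec R s K)) := by
    have h3 := measurable_measure_prodMk_right (μ := (volume : Measure (ℝ × ℝ))) hSm
    have h4 : (fun s : ℝ => volume ((fun p : ℝ × ℝ => (p, s)) ⁻¹' (coord R '' K))) =
        fun s : ℝ => volume (sec R s K) := by
      funext s
      rw [slice]
    rw [← h4]
    exact h3
  have hKfin : volume K ≠ ⊤ := hK.2.1.measure_lt_top.ne
  have hI1 : ∫⁻ s in Ioo (g - B) (g + B), volume (sec R s K) ≤ volume K := by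
    rw [hvol]
    exact setLIntegral_le_lintegral _ _
  have hI1' : ∫⁻ s in Ioo (g - B) (g + B), volume (sec R s K) ≠ ⊤ :=
    ne_top_of_le_ne_top hKfin hI1
  have hAint : IntegrableOn (fun s => area (sec R s K)) (Ioo (g - B) (g + B)) :=
    integrable_toReal_of_lintegral_ne_top hAm.aemeasurable hI1'
  have hAle : ∫ s in Ioo (g - B) (g + B), area (sec R s K) ≤ (volume K).toReal := by
    have h5 : ∫ s in Ioo (g - B) (g + B), area (sec R s K) =
        (∫⁻ s in Ioo (g - B) (g + B), volume (sec R s K)).toReal := by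
      refine integral_toReal hAm.aemeasurable ?_
      exact ae_lt_top hAm hI1'
    rw [h5]
    exact ENNReal.toReal_mono hKfin hI1
  -- the test function
  set N := ∫ s in Ioo (g - B) (g + B), len (sec R s K) *
        (√(1 - ((s - g) / B) ^ 2) + x * ((s - g) / B)) with hN
  have hV0 : 0 ≤ (volume K).toReal := ENNReal.toReal_nonneg
  have hwint : IntegrableOn (fun s => FX x ((s - g) / B) ^ 2) (Ioo (g - B) (g + B)) := by
    have h8 : Continuous (fun s : ℝ => FX x ((s - g) / B) ^ 2) := by
      have := FX_cont x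
      fun_prop
    exact (h8.continuousOn.integrableOn_compact isCompact_Icc).mono_set Ioo_subset_Icc_self
  have hint0 : 0 ≤ 4 / 3 * B * (1 + x ^ 2 / 2) := by positivity
  have key : ∀ l : ℝ, 0 ≤ (π / c * (volume K).toReal) * (l * l) + (-2 * N) * l +
      4 / 3 * B * (1 + x ^ 2 / 2) := by
    intro l
    by_cases hf : IntegrableOn (fun s => len (sec R s K) *
        (√(1 - ((s - g) / B) ^ 2) + x * ((s - g) / B))) (Ioo (g - B) (g + B))
    · have h11 : ∫ s in Ioo (g - B) (g + B),
          2 * l * (len (sec R s K) * (√(1 - ((s - g) / B) ^ 2) + x * ((s - g) / B))) ≤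
          ∫ s in Ioo (g - B) (g + B),
            (l * l * (π / c) * area (sec R s K) + FX x ((s - g) / B) ^ 2) := by
        refine setIntegral_mono_on (hf.const_mul _) ((hAint.const_mul _).add hwint)
          measurableSet_Ioo fun s hs => ?_
        obtain ⟨-, h12⟩ := hsec s hs
        have h13 : len (sec R s K) ^ 2 ≤ π / c * area (sec R s K) := by
          rw [div_mul_eq_mul_div, le_div_iff₀ hcpos]
          linarith
        change 2 * l * (len (sec R s K) * FX x ((s - g) / B)) ≤ _
        have h15 : 0 ≤ (l * len (sec R s K) - FX x ((s - g) / B)) ^ 2 := sq_nonneg _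
        have h16 : l * l * len (sec R s K) ^ 2 ≤ l * l * (π / c * area (sec R s K)) :=
          mul_le_mul_of_nonneg_left h13 (mul_self_nonneg l)
        nlinarith
      rw [integral_const_mul, ← hN,
        integral_add (hAint.const_mul _) hwint, integral_const_mul, NUCM.int_w x hB] at h11
      have h17 : l * l * (π / c) * ∫ s in Ioo (g - B) (g + B), area (sec R s K) ≤
          l * l * (π / c) * (volume K).toReal := by
        refine mul_le_mul_of_nonneg_left hAle ?_
        have := mul_self_nonneg l
        positivity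
      nlinarith
    · have hN00 : N = 0 := by
        rw [hN]
        exact integral_undef hf
      rw [hN00]
      have h9 : 0 ≤ π / c * (volume K).toReal := by positivity
      have h10 : 0 ≤ (π / c * (volume K).toReal) * (l * l) := mul_nonneg h9 (mul_self_nonneg l)
      linarith
  have hdisc := discrim_le_zero key
  unfold discrim at hdisc
  have h18 : N ^ 2 ≤ π / c * (volume K).toReal * (4 / 3 * B * (1 + x ^ 2 / 2)) := by nlinarith
  calc c * N ^ 2 ≤ c * (π / c * (volume K).toReal * (4 / 3 * B * (1 + x ^ 2 / 2))) :=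
        mul_le_mul_of_nonneg_left h18 hcpos.le
    _ = 4 / 3 * B * (1 + x ^ 2 / 2) * (π * (volume K).toReal) := by
        field_simp

end Pool.Agent.Lib.MP_084b88_gt.CW
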