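import Pool.Agent.Lib.MP_084b88_gt.CW.SpecE
import Pool.Agent.Lib.MP_084b88_gt.CW.RED
import Pool.Agent.Lib.MP_084b88_gt.CW.NUC
import Pool.Agent.Lib.MP_084b88_gt.CW.MEB

/-!
# MP_084b88_gt, project CW, module RE2: the reduction with general test functions
-/

set_option autoImplicit false

open MeasureTheory Set Real Filter Topology
open scoped Pointwise InnerProductSpace

namespace Pool.Agent.Lib.MP_084b88_gt.CW

namespace RE2M

/-- The test function. -/
noncomputable def ph (a0 a1 a2 s : ℝ) : ℝ := a0 + a1 * √(1 - s ^ 2) + a2 * s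

theorem ph_cont (a0 a1 a2 : ℝ) : Continuous (ph a0 a1 a2) := by
  unfold ph; fun_prop

theorem int_ph (a0 a1 a2 : ℝ) : ∫ s in (-1 : ℝ)..1, ph a0 a1 a2 s ^ 2 =
    2 * a0 ^ 2 + 4 / 3 * a1 ^ 2 + 2 / 3 * a2 ^ 2 + π * a0 * a1 := by
  have h1 : ∫ s in (-1 : ℝ)..1, ph a0 a1 a2 s ^ 2 =
      ∫ s in (-1 : ℝ)..1, (((a0 ^ 2 + a1 ^ 2 * (1 - s ^ 2) + a2 ^ 2 * s ^ 2 + 2 * a0 * a2 * s) +
        2 * a0 * a1 * √(1 - s ^ 2)) + 2 * a1 * a2 * (s * √(1 - s ^ 2))) := by
    apply intervalIntegral.integral_congr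
    intro s hs
    rw [uIcc_of_le (by norm_num)] at hs
    have h0 : 0 ≤ 1 - s ^ 2 := by nlinarith [hs.1, hs.2]
    have h2 := Real.sq_sqrt h0
    simp only [ph]
    linear_combination a1 ^ 2 * h2
  have c1 : Continuous (fun s : ℝ => a0 ^ 2 + a1 ^ 2 * (1 - s ^ 2) + a2 ^ 2 * s ^ 2 +
      2 * a0 * a2 * s) := by fun_prop
  have c2 : Continuous (fun s : ℝ => 2 * a0 * a1 * √(1 - s ^ 2)) := by fun_prop
  have c3 : Continuous (fun s : ℝ => 2 * a1 * a2 * (s * √(1 - s ^ 2))) := by fun_prop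
  rw [h1, intervalIntegral.integral_add ((c1.intervalIntegrable _ _).add (c2.intervalIntegrable _ _))
    (c3.intervalIntegrable _ _), intervalIntegral.integral_add (c1.intervalIntegrable _ _)
    (c2.intervalIntegrable _ _), intervalIntegral.integral_const_mul,
    intervalIntegral.integral_const_mul, NUCM.int_cross, integral_sqrt_one_sub_sq]
  have hd : ∀ s ∈ uIcc (-1 : ℝ) 1, HasDerivAt (fun s : ℝ => a0 ^ 2 * s + a1 ^ 2 * (s - s ^ 3 / 3) +
      a2 ^ 2 * (s ^ 3 / 3) + 2 * a0 * a2 * (s ^ 2 / 2))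
      (a0 ^ 2 + a1 ^ 2 * (1 - s ^ 2) + a2 ^ 2 * s ^ 2 + 2 * a0 * a2 * s) s := by
    intro s _
    have h3 : HasDerivAt (fun t : ℝ => t ^ 3 / 3) (s ^ 2) s := by
      have := (hasDerivAt_pow 3 s).div_const 3
      refine this.congr_deriv ?_
      norm_num
    have h2 : HasDerivAt (fun t : ℝ => t ^ 2 / 2) s s := by
      have := (hasDerivAt_pow 2 s).div_const 2
      refine this.congr_deriv ?_
      norm_num
    have h4 : HasDerivAt (fun s : ℝ => a0 ^ 2 * s) (a0 ^ 2) s := by
      simpa using (hasDerivAt_id s).const_mul (a0 ^ 2)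
    exact ((h4.add (((hasDerivAt_id s).sub h3).const_mul _)).add (h3.const_mul _)).add
      (h2.const_mul _)
  rw [intervalIntegral.integral_eq_sub_of_hasDerivAt hd (c1.intervalIntegrable _ _)]
  ring

theorem int_ph' (G W V : ℝ) : ∫ s in (-1 : ℝ)..1, ph (kap * (G - W)) W V s ^ 2 =
    4 / 3 * (G ^ 2 + taup * (G - W) ^ 2 + V ^ 2 / 2) := by
  rw [int_ph]
  have h : π * kap = 8 / 3 := by unfold kap; field_simp
  unfold taup
  linear_combination (G - W) * W * h

theorem pf_ph (a0 a1 a2 : ℝ) (Q : Set (ℝ × ℝ)) (hQ : IsCompact Q) (t : ℝ) :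
    pf (ph a0 a1 a2) Q t = a0 * area Q + a1 * qf Q t + a2 * mf Q t := by
  have hr : Continuous (fun p : ℝ × ℝ => (dotu t p - mid Q t) / (wid Q t / 2)) :=
    ((continuous_dotu_right t).sub continuous_const).div_const _
  have i1 : IntegrableOn (fun _ : ℝ × ℝ => a0) Q volume :=
    continuous_const.continuousOn.integrableOn_compact hQ
  have i2 : IntegrableOn (fun p : ℝ × ℝ =>
      a1 * √(1 - ((dotu t p - mid Q t) / (wid Q t / 2)) ^ 2)) Q volume :=
    (continuous_const.mul ((continuous_const.sub (hr.pow 2)).sqrt)).continuousOn.integrableOn_compact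
      hQ
  have i3 : IntegrableOn (fun p : ℝ × ℝ => a2 * ((dotu t p - mid Q t) / (wid Q t / 2))) Q volume :=
    (continuous_const.mul hr).continuousOn.integrableOn_compact hQ
  have i12 : IntegrableOn (fun p : ℝ × ℝ =>
      a0 + a1 * √(1 - ((dotu t p - mid Q t) / (wid Q t / 2)) ^ 2)) Q volume := i1.add i2
  unfold pf ph qf mf area
  rw [integral_add i12 i3, integral_add i1 i2, integral_const_mul, integral_const_mul,
    setIntegral_const, smul_eq_mul, Measure.real]
  ring

theorem aux_sq (B b : ℝ) (hB : 0 < B) (hb : 0 < b) :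
    B * ((1 + B / b) ^ 2 / (4 * (B / b))) = b * ((1 + B / b) / 2) ^ 2 := by
  field_simp
  ring

theorem wid_eq (R : O3) (K : Set E3) :
    wid (pr R K) 0 = HS K (col R 0) + HS K (-(col R 0)) := by
  have h1 := NFUM.sup2_pr_zero
  unfold wid
  have e1 : sup2 (pr R K) 0 = HS K (col R 0) := by
    unfold sup2 HS pr
    rw [image_image]
    congr 1
    apply image_congr
    intro x _
    simp [dotu, cd]
  have e2 : sup2 (pr R K) (0 + π) = HS K (-(col R 0)) := by
    unfold sup2 HS pr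
    rw [image_image]
    congr 1
    apply image_congr
    intro x _
    rw [inner_neg_left]; simp [dotu, cd]
  rw [e1, e2]

theorem cont_int_O3 (μ : Measure O3) (hμ : HaarO μ) {g : O3 → ℝ} (hg : Continuous g) :
    Integrable g μ := by
  have : IsProbabilityMeasure μ := hμ.1
  exact hg.integrable_of_hasCompactSupport (HasCompactSupport.of_compactSpace _)

theorem bd_O3 {g : O3 → ℝ} (hg : Continuous g) : ∃ C : ℝ, 0 ≤ C ∧ ∀ R : O3, |g R| ≤ C := by
  obtain ⟨R0, hR0⟩ := (hg.abs).exists_forall_ge_of_hasCompactSupport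
    (HasCompactSupport.of_compactSpace _)
  exact ⟨|g R0|, abs_nonneg _, hR0⟩

end RE2M

open REDM RE2M in
theorem specRTG (hMEA : SpecMEA) (hMEB : SpecMEB) (hNUG : SpecNUG) (hNFG : SpecNFG) :
    SpecRTG := by
  intro μ hμ K hK hKi c hc0 hc G W V hG hW hV
  have : IsProbabilityMeasure μ := hμ.1
  obtain ⟨hCC, hAm, ⟨CA, hCA⟩, hsup, hwc, ⟨b0, hb0, hbw⟩, hqm, hq, hrot⟩ := hMEA K hK hKi
  obtain ⟨hGc, -, -, hmm, hmA, -, -, -⟩ := hMEB K hK hKi
  set q : O3 → ℝ := fun R => qf (pr R K) 0 with hqdef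
  set m : O3 → ℝ := fun R => mf (pr R K) 0 with hmdef
  set A : O3 → ℝ := fun R => area (pr R K) with hA
  set vol : ℝ := (volume K).toReal with hvol
  have hV0 : 0 ≤ vol := ENNReal.toReal_nonneg
  have hA0 : ∀ R, 0 ≤ A R := fun R => (hq R).1.trans (hq R).2
  have hq0 : ∀ R, 0 ≤ q R := fun R => (hq R).1
  have hqA : ∀ R, q R ≤ CA := fun R => (hq R).2.trans (hCA R)
  have hCA0 : 0 ≤ CA := (hA0 1).trans (hCA 1)
  have hpi := pi_pos
  have hGcc : Continuous (fun R : O3 => kap * (G (col R 0) - W (col R 0))) :=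
    continuous_const.mul ((hG.comp (continuous_col 0)).sub (hW.comp (continuous_col 0)))
  have hWcc : Continuous (fun R : O3 => W (col R 0)) := hW.comp (continuous_col 0)
  have hVcc : Continuous (fun R : O3 => V (col R 0)) := hV.comp (continuous_col 0)
  obtain ⟨C1, hC10, hC1⟩ := bd_O3 hGcc
  obtain ⟨C2, hC20, hC2⟩ := bd_O3 hWcc
  obtain ⟨C3, hC30, hC3⟩ := bd_O3 hVcc
  set GG : O3 → ℝ := fun R => kap * (G (col R 0) - W (col R 0)) * A R + W (col R 0) * q R +
    V (col R 0) * m R with hGG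
  have hGGm : Measurable GG := ((hGcc.measurable.mul hAm).add (hWcc.measurable.mul hqm)).add
    (hVcc.measurable.mul hmm)
  have hGGb : ∀ R, |GG R| ≤ C1 * CA + C2 * CA + C3 * CA := by
    intro R
    refine (abs_add_le _ _).trans (add_le_add ((abs_add_le _ _).trans (add_le_add ?_ ?_)) ?_)
    · rw [abs_mul]
      refine mul_le_mul (hC1 R) ?_ (abs_nonneg _) hC10
      rw [abs_of_nonneg (hA0 R)]; exact hCA R
    · rw [abs_mul]
      refine mul_le_mul (hC2 R) ?_ (abs_nonneg _) hC20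
      rw [abs_of_nonneg (hq0 R)]; exact hqA R
    · rw [abs_mul]
      exact mul_le_mul (hC3 R) ((hmA R).trans (hCA R)) (abs_nonneg _) hC30
  obtain ⟨hci, hcE⟩ := fub μ hμ GG hGGm _ hGGb cyc continuous_cyc π hpi.le
  set a : ℝ := √(4 * π * vol / (3 * c)) with ha
  have ha0 : 0 ≤ a := Real.sqrt_nonneg _
  have hasq : a ^ 2 = 4 * π * vol / (3 * c) := Real.sq_sqrt (by positivity)
  have htau : 0 ≤ taup := by
    -- `κ² ≥ 2/3`
    unfold taup kap
    have h1 : π ^ 2 ≤ 32 / 3 := by nlinarith [pi_lt_d2, pi_gt_three]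
    rw [div_pow]
    have h2 : (2 : ℝ) / 3 ≤ 8 ^ 2 / (3 * π) ^ 2 := by
      rw [div_le_div_iff₀ (by norm_num) (by positivity)]
      nlinarith
    linarith
  set HH : O3 → ℝ := fun R => a * √(wid (pr R K) 0 / 2 * (G (col R 0) ^ 2 +
    taup * (G (col R 0) - W (col R 0)) ^ 2 + V (col R 0) ^ 2 / 2)) with hHH
  have hHHc : Continuous HH := by
    refine continuous_const.mul (Continuous.sqrt ((hwc.div_const 2).mul ?_))
    have h1 : Continuous (fun R : O3 => G (col R 0)) := hG.comp (continuous_col 0)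
    exact ((h1.pow 2).add (continuous_const.mul ((h1.sub hWcc).pow 2))).add
      ((hVcc.pow 2).div_const 2)
  have hN : ∀ R : O3, (1 / 2) * ∫ θ in (0 : ℝ)..π, GG (R * cyc θ) ≤ HH (R * cyc 0) := by
    intro R
    set G0 : ℝ := G (col R 2) with hG0
    set W0 : ℝ := W (col R 2) with hW0
    set U0 : ℝ := V (col R 2) with hU0
    have h1 := hNUG K hK hKi c hc0.le hc R _ _ rfl rfl (ph (kap * (G0 - W0)) W0 U0) (ph_cont _ _ _)
    rw [hNFG K hK hKi R _ _ rfl rfl (ph (kap * (G0 - W0)) W0 U0) (ph_cont _ _ _), int_ph'] at h1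
    have hGe : ∫ θ in (0 : ℝ)..π, GG (R * cyc θ) =
        ∫ θ in (0 : ℝ)..π, pf (ph (kap * (G0 - W0)) W0 U0) (pr (R * cyc θ) K) 0 := by
      congr 1
      funext θ
      rw [pf_ph _ _ _ _ (hCC _).2.1]
      simp only [hGG, hqdef, hmdef, hA]
      rw [col_cyc_zero]
    rw [hGe]
    set N : ℝ := (1 / 2) * ∫ θ in (0 : ℝ)..π, pf (ph (kap * (G0 - W0)) W0 U0)
      (pr (R * cyc θ) K) 0 with hNdef
    have hB : wid (pr (R * cyc 0) K) 0 / 2 = (HS K (col R 2) + HS K (-(col R 2))) / 2 := by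
      rw [wid_eq, col_cyc_zero]
    have hHe : HH (R * cyc 0) = a * √((HS K (col R 2) + HS K (-(col R 2))) / 2 *
        (G0 ^ 2 + taup * (G0 - W0) ^ 2 + U0 ^ 2 / 2)) := by
      simp only [hHH]
      rw [hB, col_cyc_zero]
    rw [hHe]
    set B0 : ℝ := (HS K (col R 2) + HS K (-(col R 2))) / 2 with hB0
    have hB0pos : 0 ≤ B0 := by
      rw [← hB]; linarith [hbw (R * cyc 0)]
    set S0 : ℝ := G0 ^ 2 + taup * (G0 - W0) ^ 2 + U0 ^ 2 / 2 with hS0
    have hS0nn : 0 ≤ S0 := by positivity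
    have h2 : N ^ 2 ≤ (a * √(B0 * S0)) ^ 2 := by
      rw [mul_pow a, hasq, Real.sq_sqrt (mul_nonneg hB0pos hS0nn)]
      have h3 : 4 * π * vol / (3 * c) * (B0 * S0) = (B0 * (4 / 3 * S0) * (π * vol)) / c := by
        field_simp
      rw [h3, le_div_iff₀ hc0]
      linarith
    exact (abs_le_of_sq_le_sq h2 (mul_nonneg ha0 (Real.sqrt_nonneg _))).trans' (le_abs_self N)
  have h1 : ∫ R, ((1 / 2) * ∫ θ in (0 : ℝ)..π, GG (R * cyc θ)) ∂μ ≤
      ∫ R, HH (R * cyc 0) ∂μ := by
    apply integral_mono (hci.const_mul _) _ hN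
    have h2 : Continuous (fun R : O3 => HH (R * cyc 0)) :=
      hHHc.comp (continuous_id.mul continuous_const)
    exact h2.integrable_of_hasCompactSupport (HasCompactSupport.of_compactSpace _)
  rw [integral_const_mul, hcE, inv_right μ hμ HH hHHc.measurable] at h1
  have h2 : ∫ R, HH R ∂μ = a * ∫ R, √(wid (pr R K) 0 / 2 * (G (col R 0) ^ 2 +
    taup * (G (col R 0) - W (col R 0)) ^ 2 + V (col R 0) ^ 2 / 2)) ∂μ := by
    simp only [hHH]
    rw [integral_const_mul]
  rw [h2] at h1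
  linarith

open REDM RE2M in
theorem specRE2 (hMEA : SpecMEA) (hMEB : SpecMEB) (hLEN : SpecLEN) (hCAU : SpecCAU)
    (hRTG : SpecRTG) : SpecRE2 := by
  intro μ hμ K hK hKi G W V hG hW hV b hbdef hpt hpos c hc V1 V2 hst
  have : IsProbabilityMeasure μ := hμ.1
  obtain ⟨hCC, hAm, ⟨CA, hCA⟩, hsup, hwc, ⟨b0, hb0, hbw⟩, hqm, hq, hrot⟩ := hMEA K hK hKi
  obtain ⟨hGc, -, -, hmm, hmA, -, -, -⟩ := hMEB K hK hKi
  obtain ⟨hV2, hV1⟩ := hCAU μ hμ K hK hKi V1 V2 hst
  have hlen := hLEN μ hμ K hK hKi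
  have hpi := pi_pos
  set vol : ℝ := (volume K).toReal with hvol
  have hV0 : 0 ≤ vol := ENNReal.toReal_nonneg
  have hBpos : ∀ R, 0 < wid (pr R K) 0 / 2 := fun R => by linarith [hbw R]
  have hWi : Integrable (fun R : O3 => wid (pr R K) 0 / 2) μ := cont_int_O3 μ hμ (hwc.div_const 2)
  have hEW : V1 = 4 * b := by
    have h1 : b = (∫ R, wid (pr R K) 0 ∂μ) / 2 := by
      rw [hbdef, integral_div]
    rw [h1]
    rw [hlen] at hV1
    have : π * V1 = π * (4 * ((∫ R, wid (pr R K) 0 ∂μ) / 2)) := by rw [hV1]; ring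
    exact mul_left_cancel₀ hpi.ne' this
  have hbpos : 0 < b := by
    have h1 : ∫ _R : O3, b0 / 2 ∂μ ≤ ∫ R, wid (pr R K) 0 / 2 ∂μ :=
      integral_mono (integrable_const _) hWi (fun R => by simp only; linarith [hbw R])
    have h2 : b0 / 2 ≤ ∫ R, wid (pr R K) 0 / 2 ∂μ := by simpa using h1
    rw [hbdef]; linarith
  rcases le_or_gt c 0 with hcn | hcp
  · have h1 : 4 * c * V2 ^ 2 ≤ 0 := mul_nonpos_of_nonpos_of_nonneg (by linarith) (sq_nonneg _)
    have h2 : 0 ≤ 3 * π * V1 * vol := by rw [hEW]; positivity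
    linarith
  have hA0 : ∀ R, 0 ≤ area (pr R K) := fun R => (hq R).1.trans (hq R).2
  have hAi : Integrable (fun R : O3 => area (pr R K)) μ :=
    Integrable.of_bound hAm.aestronglyMeasurable CA (Eventually.of_forall (fun R => by
      rw [Real.norm_of_nonneg (hA0 R)]; exact hCA R))
  have hqi : Integrable (fun R : O3 => qf (pr R K) 0) μ :=
    Integrable.of_bound hqm.aestronglyMeasurable CA (Eventually.of_forall (fun R => by
      rw [Real.norm_of_nonneg (hq R).1]; exact (hq R).2.trans (hCA R)))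
  have hmi : Integrable (fun R : O3 => mf (pr R K) 0) μ :=
    Integrable.of_bound hmm.aestronglyMeasurable CA (Eventually.of_forall (fun R =>
      (hmA R).trans (hCA R)))
  have hGcc : Continuous (fun R : O3 => G (col R 0)) := hG.comp (continuous_col 0)
  have hWcc : Continuous (fun R : O3 => W (col R 0)) := hW.comp (continuous_col 0)
  have hVcc : Continuous (fun R : O3 => V (col R 0)) := hV.comp (continuous_col 0)
  have bm : ∀ {g h : O3 → ℝ}, Continuous g → Integrable h μ → Integrable (fun R => g R * h R) μ := by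
    intro g h hg hh
    obtain ⟨C, hC0, hC⟩ := bd_O3 hg
    exact hh.bdd_mul (c := C) hg.measurable.aestronglyMeasurable (Eventually.of_forall hC)
  have h1 := hRTG μ hμ K hK hKi c hcp hc G W V hG hW hV
  set a : ℝ := √(4 * π * vol / (3 * c)) with ha
  have ha0 : 0 ≤ a := Real.sqrt_nonneg _
  have hasq : a ^ 2 = 4 * π * vol / (3 * c) := Real.sq_sqrt (by positivity)
  -- right side
  have h2 : ∫ R, √(wid (pr R K) 0 / 2 * (G (col R 0) ^ 2 +
      taup * (G (col R 0) - W (col R 0)) ^ 2 + V (col R 0) ^ 2 / 2)) ∂μ ≤ √b := by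
    have e1 : ∀ R : O3, √(wid (pr R K) 0 / 2 * (G (col R 0) ^ 2 +
        taup * (G (col R 0) - W (col R 0)) ^ 2 + V (col R 0) ^ 2 / 2)) ≤
        √b * ((1 + wid (pr R K) 0 / 2 / b) / 2) := by
      intro R
      have hB := hBpos R
      set B := wid (pr R K) 0 / 2 with hBdef
      have e2 : B * (G (col R 0) ^ 2 + taup * (G (col R 0) - W (col R 0)) ^ 2 +
          V (col R 0) ^ 2 / 2) ≤ (√b * ((1 + B / b) / 2)) ^ 2 := by
        rw [mul_pow, Real.sq_sqrt hbpos.le, ← aux_sq B b hB hbpos]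
        exact mul_le_mul_of_nonneg_left (hpt R) hB.le
      have e3 : 0 ≤ √b * ((1 + B / b) / 2) := by positivity
      exact Real.sqrt_le_iff.2 ⟨e3, e2⟩
    have i1 : Integrable (fun R : O3 => √(wid (pr R K) 0 / 2 * (G (col R 0) ^ 2 +
        taup * (G (col R 0) - W (col R 0)) ^ 2 + V (col R 0) ^ 2 / 2))) μ :=
      cont_int_O3 μ hμ (Continuous.sqrt ((hwc.div_const 2).mul
        (((hGcc.pow 2).add (continuous_const.mul ((hGcc.sub hWcc).pow 2))).add
          ((hVcc.pow 2).div_const 2))))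
    have i2 : Integrable (fun R : O3 => (1 + wid (pr R K) 0 / 2 / b) / 2) μ :=
      cont_int_O3 μ hμ ((continuous_const.add ((hwc.div_const 2).div_const b)).div_const 2)
    have i3 : Integrable (fun R : O3 => wid (pr R K) 0 / 2 / b) μ :=
      cont_int_O3 μ hμ ((hwc.div_const 2).div_const b)
    refine (integral_mono i1 (i2.const_mul (√b)) e1).trans (le_of_eq ?_)
    rw [integral_const_mul, integral_div, integral_add (integrable_const _) i3, integral_div,
      ← hbdef, div_self hbpos.ne']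
    simp only [integral_const, probReal_univ, one_smul]
    norm_num
  -- left side
  have hk : π * kap = 8 / 3 := by unfold kap; field_simp
  have h3 : ∫ R, (kap * (G (col R 0) - W (col R 0)) * area (pr R K) +
        W (col R 0) * qf (pr R K) 0 + V (col R 0) * mf (pr R K) 0) ∂μ =
      kap * (∫ R, area (pr R K) ∂μ) + ∫ R, (kap * (G (col R 0) - 1) * area (pr R K) +
        W (col R 0) * (qf (pr R K) 0 - kap * area (pr R K)) + V (col R 0) * mf (pr R K) 0) ∂μ := by
    rw [← integral_const_mul, ← integral_add (hAi.const_mul _)]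
    · congr 1
      funext R
      ring
    · refine ((bm (continuous_const.mul (hGcc.sub continuous_const)) hAi).add
        (bm hWcc (hqi.sub (hAi.const_mul _)))).add (bm hVcc hmi)
  rw [h3] at h1
  set EA := ∫ R, area (pr R K) ∂μ with hEA
  have hEA0 : 0 ≤ EA := integral_nonneg hA0
  have h4 : 4 / 3 * EA ≤ a * √b := by
    have e1 : π / 2 * (kap * EA) = 4 / 3 * EA := by
      linear_combination (EA / 2) * hk
    have e2 := mul_le_mul_of_nonneg_left h2 ha0
    have e3 := mul_nonneg (show (0 : ℝ) ≤ π / 2 by positivity) hpos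
    nlinarith [h1, e1, e2, e3]
  have h5 : (4 / 3 * EA) ^ 2 ≤ (a * √b) ^ 2 :=
    pow_le_pow_left₀ (by positivity) h4 2
  rw [mul_pow a, hasq, Real.sq_sqrt hbpos.le] at h5
  have h6 : 4 * π * vol / (3 * c) * b = 4 * π * vol * b / 3 / c := by field_simp
  rw [h6, le_div_iff₀ hcp] at h5
  rw [hV2, hEW]
  linarith

open REDM RE2M in
theorem specRE2P (hHSB : SpecHSB) (hHAA : SpecHAA) (hMEA : SpecMEA)
    (hLEN : SpecLEN) (hCAU : SpecCAU) (hRE2 : SpecRE2) : SpecRE2P := by
  intro K hK hKi V1 V2 hst b0 hb0 hwb G W hG hW hpt hpl c hc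
  obtain ⟨μ, hμ⟩ := hHAA
  have : IsProbabilityMeasure μ := hμ.1
  obtain ⟨hCC, hAm, ⟨CA, hCA⟩, hsup, hwc, ⟨w0, hw0, hbw⟩, hqm, hq, hrot⟩ := hMEA K hK hKi
  obtain ⟨hV2, hV1⟩ := hCAU μ hμ K hK hKi V1 V2 hst
  have hlen := hLEN μ hμ K hK hKi
  have hpi := pi_pos
  set b : ℝ := ∫ R, wid (pr R K) 0 / 2 ∂μ with hbdef
  have hEW : V1 = 4 * b := by
    have h1 : b = (∫ R, wid (pr R K) 0 ∂μ) / 2 := by
      rw [hbdef, integral_div]
    rw [h1]
    rw [hlen] at hV1
    have : π * V1 = π * (4 * ((∫ R, wid (pr R K) 0 ∂μ) / 2)) := by rw [hV1]; ring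
    exact mul_left_cancel₀ hpi.ne' this
  have hV14 : V1 / 4 = b := by rw [hEW]; ring
  rw [hV14] at hwb hpl
  have hWi : Integrable (fun R : O3 => wid (pr R K) 0 / 2) μ := cont_int_O3 μ hμ (hwc.div_const 2)
  have hbpos : 0 < b := by
    have h1 : ∫ _R : O3, w0 / 2 ∂μ ≤ ∫ R, wid (pr R K) 0 / 2 ∂μ :=
      integral_mono (integrable_const _) hWi (fun R => by simp only; linarith [hbw R])
    have h2 : w0 / 2 ≤ ∫ R, wid (pr R K) 0 / 2 ∂μ := by simpa using h1
    rw [hbdef]; linarith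
  have hHS : Continuous (HS K) := (hHSB E3).2.2.2.2.1 K hK
  set Bu : E3 → ℝ := fun u => (HS K u + HS K (-u)) / 2 / b with hBu
  have hBuc : Continuous Bu :=
    ((hHS.add (hHS.comp continuous_neg)).div_const 2).div_const b
  have hBuR : ∀ R : O3, Bu (col R 0) = wid (pr R K) 0 / 2 / b := fun R => by
    simp only [hBu]; rw [wid_eq]
  have hBb : ∀ R : O3, b0 ≤ Bu (col R 0) := fun R => by
    rw [hBuR, le_div_iff₀ hbpos]; exact hwb R
  have hmax : ∀ R : O3, max b0 (Bu (col R 0)) = wid (pr R K) 0 / 2 / b := fun R => by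
    rw [max_eq_right (hBb R), hBuR]
  have hGc : Continuous (fun u : E3 => G (max b0 (Bu u))) :=
    hG.comp_continuous (continuous_const.max hBuc) (fun u => mem_Ici.2 (le_max_left _ _))
  have hWc : Continuous (fun u : E3 => W (max b0 (Bu u))) :=
    hW.comp_continuous (continuous_const.max hBuc) (fun u => mem_Ici.2 (le_max_left _ _))
  refine hRE2 μ hμ K hK hKi (fun u => G (max b0 (Bu u))) (fun u => W (max b0 (Bu u)))
    (fun _ => 0) hGc hWc continuous_const b hbdef ?_ ?_ c hc V1 V2 hst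
  · intro R
    rw [hmax R]
    have h1 := hpt (wid (pr R K) 0 / 2 / b) (by rw [← hBuR]; exact hBb R)
    linarith
  · -- the average over the rotations
    set GG : O3 → ℝ := fun R => kap * (G (wid (pr R K) 0 / 2 / b) - 1) * area (pr R K) +
      W (wid (pr R K) 0 / 2 / b) * (qf (pr R K) 0 - kap * area (pr R K)) with hGG
    have hGR : Continuous (fun R : O3 => G (wid (pr R K) 0 / 2 / b)) := by
      have : (fun R : O3 => G (wid (pr R K) 0 / 2 / b)) =
          fun R : O3 => G (max b0 (Bu (col R 0))) := by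
        funext R; rw [hmax R]
      rw [this]; exact hGc.comp (continuous_col 0)
    have hWR : Continuous (fun R : O3 => W (wid (pr R K) 0 / 2 / b)) := by
      have : (fun R : O3 => W (wid (pr R K) 0 / 2 / b)) =
          fun R : O3 => W (max b0 (Bu (col R 0))) := by
        funext R; rw [hmax R]
      rw [this]; exact hWc.comp (continuous_col 0)
    have hA0 : ∀ R, 0 ≤ area (pr R K) := fun R => (hq R).1.trans (hq R).2
    have hCA0 : 0 ≤ CA := (hA0 1).trans (hCA 1)
    have hkap : 0 ≤ kap := by unfold kap; positivity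
    obtain ⟨C1, hC10, hC1⟩ := bd_O3 (continuous_const.mul (hGR.sub continuous_const) :
      Continuous (fun R : O3 => kap * (G (wid (pr R K) 0 / 2 / b) - 1)))
    obtain ⟨C2, hC20, hC2⟩ := bd_O3 hWR
    have hGGm : Measurable GG :=
      ((continuous_const.mul (hGR.sub continuous_const)).measurable.mul hAm).add
        (hWR.measurable.mul (hqm.sub (hAm.const_mul kap)))
    have hGGb : ∀ R, |GG R| ≤ C1 * CA + C2 * (CA + kap * CA) := by
      intro R
      refine (abs_add_le _ _).trans (add_le_add ?_ ?_)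
      · rw [abs_mul]
        refine mul_le_mul (hC1 R) ?_ (abs_nonneg _) hC10
        rw [abs_of_nonneg (hA0 R)]; exact hCA R
      · rw [abs_mul]
        refine mul_le_mul (hC2 R) ?_ (abs_nonneg _) hC20
        refine (abs_sub _ _).trans (add_le_add ?_ ?_)
        · rw [abs_of_nonneg (hq R).1]; exact (hq R).2.trans (hCA R)
        · rw [abs_of_nonneg (mul_nonneg hkap (hA0 R))]
          exact mul_le_mul_of_nonneg_left (hCA R) hkap
    obtain ⟨-, hE⟩ := fub μ hμ GG hGGm _ hGGb rot continuous_rot (2 * π) (by positivity)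
    have h1 : 0 ≤ ∫ R, (∫ θ in (0 : ℝ)..(2 * π), GG (R * rot θ)) ∂μ := by
      apply integral_nonneg
      intro R
      have h2 := hpl R
      have h3 : ∀ t : ℝ, (kap * (G (wid (pr R K) t / 2 / b) - 1) * area (pr R K) +
          W (wid (pr R K) t / 2 / b) * (qf (pr R K) t - kap * area (pr R K))) =
          GG (R * rot t) := by
        intro t
        obtain ⟨r1, r2, r3⟩ := hrot R t
        simp only [hGG]
        rw [← r1, ← r2, r3]
      simp_rw [h3] at h2
      exact h2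
    rw [hE] at h1
    have h4 : 0 ≤ ∫ R, GG R ∂μ := by
      by_contra hneg
      push Not at hneg
      nlinarith [mul_pos (show (0 : ℝ) < 2 * π by positivity) (neg_pos.2 hneg)]
    have h5 : ∫ R, (kap * (G (max b0 (Bu (col R 0))) - 1) * area (pr R K) +
        W (max b0 (Bu (col R 0))) * (qf (pr R K) 0 - kap * area (pr R K)) +
        0 * mf (pr R K) 0) ∂μ = ∫ R, GG R ∂μ := by
      congr 1
      funext R
      simp only [hGG]
      rw [hmax R]
      ring
    rw [h5]
    exact h4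

end Pool.Agent.Lib.MP_084b88_gt.CW
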