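import Pool.Agent.Lib.MP_084b88_gt.CW.SpecE2
import Pool.Agent.Lib.MP_084b88_gt.CW.RE2

/-!
# MP_084b88_gt, project CW, module RE3: general density, one direction
-/

set_option autoImplicit false

open MeasureTheory Set Real Filter Topology
open scoped Pointwise InnerProductSpace

namespace Pool.Agent.Lib.MP_084b88_gt.CW

namespace RE3M

theorem taup_nonneg : 0 ≤ taup := by
  unfold taup kap
  have h1 : π ^ 2 ≤ 32 / 3 := by nlinarith [pi_lt_d2, pi_gt_three]
  rw [div_pow]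
  have h2 : (2 : ℝ) / 3 ≤ 8 ^ 2 / (3 * π) ^ 2 := by
    rw [div_le_div_iff₀ (by norm_num) (by positivity)]
    nlinarith
  linarith

/-- mean half width and the coefficients of the Steiner polynomial -/
theorem mean_facts (hMEA : SpecMEA) (hLEN : SpecLEN) (hCAU : SpecCAU) (μ : Measure O3)
    (hμ : HaarO μ) (K : Set E3) (hK : CC K) (hKi : (interior K).Nonempty) (b : ℝ)
    (hbdef : b = ∫ R, wid (pr R K) 0 / 2 ∂μ) (V1 V2 : ℝ) (hst : STEI K V1 V2) :
    0 < b ∧ V1 = 4 * b ∧ V2 = 2 * ∫ R, area (pr R K) ∂μ := by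
  have : IsProbabilityMeasure μ := hμ.1
  obtain ⟨-, -, -, -, hwc, ⟨b0, hb0, hbw⟩, -, -, -⟩ := hMEA K hK hKi
  obtain ⟨hV2, hV1⟩ := hCAU μ hμ K hK hKi V1 V2 hst
  have hlen := hLEN μ hμ K hK hKi
  have hpi := pi_pos
  have hWi : Integrable (fun R : O3 => wid (pr R K) 0 / 2) μ :=
    RE2M.cont_int_O3 μ hμ (hwc.div_const 2)
  have hEW : V1 = 4 * b := by
    have h1 : b = (∫ R, wid (pr R K) 0 ∂μ) / 2 := by
      rw [hbdef, integral_div]
    rw [h1]
    rw [hlen] at hV1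
    have : π * V1 = π * (4 * ((∫ R, wid (pr R K) 0 ∂μ) / 2)) := by rw [hV1]; ring
    exact mul_left_cancel₀ hpi.ne' this
  have hbpos : 0 < b := by
    have h1 : ∫ _R : O3, b0 / 2 ∂μ ≤ ∫ R, wid (pr R K) 0 / 2 ∂μ :=
      integral_mono (integrable_const _) hWi (fun R => by simp only; linarith [hbw R])
    have h2 : b0 / 2 ≤ ∫ R, wid (pr R K) 0 / 2 ∂μ := by simpa using h1
    rw [hbdef]; linarith
  exact ⟨hbpos, hEW, hV2⟩

/-- the last step -/
theorem finish (b c vol V1 V2 EA : ℝ) (hb : 0 < b) (hvol : 0 ≤ vol) (hV1 : V1 = 4 * b)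
    (hV2 : V2 = 2 * EA) (hEA : 0 ≤ EA)
    (h : 0 < c → 4 / 3 * EA ≤ √(4 * π * vol / (3 * c)) * √b) :
    4 * c * V2 ^ 2 ≤ 3 * Real.pi * V1 * vol := by
  have hpi := pi_pos
  rcases le_or_gt c 0 with hcn | hcp
  · have h1 : 4 * c * V2 ^ 2 ≤ 0 := mul_nonpos_of_nonpos_of_nonneg (by linarith) (sq_nonneg _)
    have h2 : 0 ≤ 3 * π * V1 * vol := by rw [hV1]; positivity
    linarith
  have h4 := h hcp
  have hasq : √(4 * π * vol / (3 * c)) ^ 2 = 4 * π * vol / (3 * c) := Real.sq_sqrt (by positivity)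
  have h5 : (4 / 3 * EA) ^ 2 ≤ (√(4 * π * vol / (3 * c)) * √b) ^ 2 :=
    pow_le_pow_left₀ (by positivity) h4 2
  rw [mul_pow (√(4 * π * vol / (3 * c))), hasq, Real.sq_sqrt hb.le] at h5
  have h6 : 4 * π * vol / (3 * c) * b = 4 * π * vol * b / 3 / c := by field_simp
  rw [h6, le_div_iff₀ hcp] at h5
  rw [hV2, hV1]
  linarith

end RE3M

open REDM RE2M RE3M in
theorem specRT1 (hMEA : SpecMEA) (hNUG : SpecNUG) (hNFG : SpecNFG) : SpecRT1 := by
  intro K hK hKi c hc0 hc R G W V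
  obtain ⟨hCC, -, -, -, -, ⟨w0, hw0, hbw⟩, -, -, -⟩ := hMEA K hK hKi
  have hpi := pi_pos
  set vol : ℝ := (volume K).toReal with hvol
  have hV0 : 0 ≤ vol := ENNReal.toReal_nonneg
  set a : ℝ := √(4 * π * vol / (3 * c)) with ha
  have ha0 : 0 ≤ a := Real.sqrt_nonneg _
  have hasq : a ^ 2 = 4 * π * vol / (3 * c) := Real.sq_sqrt (by positivity)
  have h1 := hNUG K hK hKi c hc0.le hc R _ _ rfl rfl (ph (kap * (G - W)) W V) (ph_cont _ _ _)
  rw [hNFG K hK hKi R _ _ rfl rfl (ph (kap * (G - W)) W V) (ph_cont _ _ _), int_ph'] at h1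
  have hGe : ∫ θ in (0 : ℝ)..π, (kap * (G - W) * area (pr (R * cyc θ) K) +
        W * qf (pr (R * cyc θ) K) 0 + V * mf (pr (R * cyc θ) K) 0) =
      ∫ θ in (0 : ℝ)..π, pf (ph (kap * (G - W)) W V) (pr (R * cyc θ) K) 0 := by
    congr 1
    funext θ
    rw [pf_ph _ _ _ _ (hCC _).2.1]
  rw [hGe]
  set N : ℝ := (1 / 2) * ∫ θ in (0 : ℝ)..π, pf (ph (kap * (G - W)) W V)
    (pr (R * cyc θ) K) 0 with hNdef
  have hB : wid (pr (R * cyc 0) K) 0 / 2 = (HS K (col R 2) + HS K (-(col R 2))) / 2 := by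
    rw [wid_eq, col_cyc_zero]
  set B0 : ℝ := (HS K (col R 2) + HS K (-(col R 2))) / 2 with hB0
  have hB0pos : 0 ≤ B0 := by
    rw [← hB]; linarith [hbw (R * cyc 0)]
  have htau := taup_nonneg
  set S0 : ℝ := G ^ 2 + taup * (G - W) ^ 2 + V ^ 2 / 2 with hS0
  have hS0nn : 0 ≤ S0 := by positivity
  have h2 : N ^ 2 ≤ (a * √(B0 * S0)) ^ 2 := by
    rw [mul_pow a, hasq, Real.sq_sqrt (mul_nonneg hB0pos hS0nn)]
    have h3 : 4 * π * vol / (3 * c) * (B0 * S0) = (B0 * (4 / 3 * S0) * (π * vol)) / c := by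
      field_simp
    rw [h3, le_div_iff₀ hc0]
    linarith
  exact (abs_le_of_sq_le_sq h2 (mul_nonneg ha0 (Real.sqrt_nonneg _))).trans' (le_abs_self N)

open REDM RE2M RE3M in
theorem specRE2D (hMEA : SpecMEA) (hMEB : SpecMEB) (hLEN : SpecLEN) (hCAU : SpecCAU)
    (hRTG : SpecRTG) : SpecRE2D := by
  intro μ hμ K hK hKi G W V D hG hW hV hD b hbdef hD0 hpt hD1 hpos c hc V1 V2 hst
  have : IsProbabilityMeasure μ := hμ.1
  obtain ⟨hbpos, hV1, hV2⟩ := mean_facts hMEA hLEN hCAU μ hμ K hK hKi b hbdef V1 V2 hst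
  obtain ⟨hCC, hAm, ⟨CA, hCA⟩, hsup, hwc, ⟨b0, hb0, hbw⟩, hqm, hq, hrot⟩ := hMEA K hK hKi
  obtain ⟨hGc, -, -, hmm, hmA, -, -, -⟩ := hMEB K hK hKi
  have hpi := pi_pos
  have hBpos : ∀ R, 0 < wid (pr R K) 0 / 2 := fun R => by linarith [hbw R]
  have hA0 : ∀ R, 0 ≤ area (pr R K) := fun R => (hq R).1.trans (hq R).2
  refine finish b c _ V1 V2 _ hbpos ENNReal.toReal_nonneg hV1 hV2 (integral_nonneg hA0) ?_
  intro hcp
  have hAi : Integrable (fun R : O3 => area (pr R K)) μ :=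
    Integrable.of_bound hAm.aestronglyMeasurable CA (Eventually.of_forall (fun R => by
      rw [Real.norm_of_nonneg (hA0 R)]; exact hCA R))
  have hqi : Integrable (fun R : O3 => qf (pr R K) 0) μ :=
    Integrable.of_bound hqm.aestronglyMeasurable CA (Eventually.of_forall (fun R => by
      rw [Real.norm_of_nonneg (hq R).1]; exact (hq R).2.trans (hCA R)))
  have hmi : Integrable (fun R : O3 => mf (pr R K) 0) μ :=
    Integrable.of_bound hmm.aestronglyMeasurable CA (Eventually.of_forall (fun R =>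
      (hmA R).trans (hCA R)))
  have hGcc : Continuous (fun R : O3 => G (col R 0)) := hG.comp (continuous_col 0)
  have hWcc : Continuous (fun R : O3 => W (col R 0)) := hW.comp (continuous_col 0)
  have hVcc : Continuous (fun R : O3 => V (col R 0)) := hV.comp (continuous_col 0)
  have hDcc : Continuous (fun R : O3 => D (col R 0)) := hD.comp (continuous_col 0)
  have bm : ∀ {g h : O3 → ℝ}, Continuous g → Integrable h μ → Integrable (fun R => g R * h R) μ := by
    intro g h hg hh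
    obtain ⟨C, hC0, hC⟩ := bd_O3 hg
    exact hh.bdd_mul (c := C) hg.measurable.aestronglyMeasurable (Eventually.of_forall hC)
  have h1 := hRTG μ hμ K hK hKi c hcp hc G W V hG hW hV
  set vol : ℝ := (volume K).toReal with hvol
  set a : ℝ := √(4 * π * vol / (3 * c)) with ha
  have ha0 : 0 ≤ a := Real.sqrt_nonneg _
  -- right side
  have h2 : ∫ R, √(wid (pr R K) 0 / 2 * (G (col R 0) ^ 2 +
      taup * (G (col R 0) - W (col R 0)) ^ 2 + V (col R 0) ^ 2 / 2)) ∂μ ≤ √b := by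
    have e1 : ∀ R : O3, √(wid (pr R K) 0 / 2 * (G (col R 0) ^ 2 +
        taup * (G (col R 0) - W (col R 0)) ^ 2 + V (col R 0) ^ 2 / 2)) ≤
        √b * D (col R 0) := by
      intro R
      have e2 : wid (pr R K) 0 / 2 * (G (col R 0) ^ 2 + taup * (G (col R 0) - W (col R 0)) ^ 2 +
          V (col R 0) ^ 2 / 2) ≤ (√b * D (col R 0)) ^ 2 := by
        rw [mul_pow, Real.sq_sqrt hbpos.le]
        have e4 := mul_le_mul_of_nonneg_left (hpt R) hbpos.le
        have e5 : b * (wid (pr R K) 0 / 2 / b * (G (col R 0) ^ 2 +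
            taup * (G (col R 0) - W (col R 0)) ^ 2 + V (col R 0) ^ 2 / 2)) =
            wid (pr R K) 0 / 2 * (G (col R 0) ^ 2 + taup * (G (col R 0) - W (col R 0)) ^ 2 +
            V (col R 0) ^ 2 / 2) := by
          field_simp
        rw [e5] at e4
        exact e4
      exact Real.sqrt_le_iff.2 ⟨mul_nonneg (Real.sqrt_nonneg _) (hD0 R), e2⟩
    have i1 : Integrable (fun R : O3 => √(wid (pr R K) 0 / 2 * (G (col R 0) ^ 2 +
        taup * (G (col R 0) - W (col R 0)) ^ 2 + V (col R 0) ^ 2 / 2))) μ :=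
      cont_int_O3 μ hμ (Continuous.sqrt ((hwc.div_const 2).mul
        (((hGcc.pow 2).add (continuous_const.mul ((hGcc.sub hWcc).pow 2))).add
          ((hVcc.pow 2).div_const 2))))
    refine (integral_mono i1 ((cont_int_O3 μ hμ hDcc).const_mul (√b)) e1).trans ?_
    rw [integral_const_mul]
    have := mul_le_mul_of_nonneg_left hD1 (Real.sqrt_nonneg b)
    linarith
  -- left side
  have hk : π * kap = 8 / 3 := by unfold kap; field_simp
  have h3 : ∫ R, (kap * (G (col R 0) - W (col R 0)) * area (pr R K) +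
        W (col R 0) * qf (pr R K) 0 + V (col R 0) * mf (pr R K) 0) ∂μ =
      kap * (∫ R, area (pr R K) ∂μ) + ∫ R, (kap * (G (col R 0) - 1) * area (pr R K) +
        W (col R 0) * (qf (pr R K) 0 - kap * area (pr R K)) + V (col R 0) * mf (pr R K) 0) ∂μ := by
    rw [← integral_const_mul, ← integral_add (hAi.const_mul _)]
    · congr 1
      funext R
      ring
    · refine ((bm (continuous_const.mul (hGcc.sub continuous_const)) hAi).add
        (bm hWcc (hqi.sub (hAi.const_mul _)))).add (bm hVcc hmi)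
  rw [h3] at h1
  set EA := ∫ R, area (pr R K) ∂μ with hEA
  have e1 : π / 2 * (kap * EA) = 4 / 3 * EA := by
    linear_combination (EA / 2) * hk
  have e2 := mul_le_mul_of_nonneg_left h2 ha0
  have e3 := mul_nonneg (show (0 : ℝ) ≤ π / 2 by positivity) hpos
  nlinarith [h1, e1, e2, e3]

open REDM RE2M RE3M in
theorem specONE (hMEA : SpecMEA) (hLEN : SpecLEN) (hCAU : SpecCAU) (hRT1 : SpecRT1) :
    SpecONE := by
  intro μ hμ K hK hKi b hbdef R G W V hS hN c hc V1 V2 hst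
  obtain ⟨hbpos, hV1, hV2⟩ := mean_facts hMEA hLEN hCAU μ hμ K hK hKi b hbdef V1 V2 hst
  obtain ⟨hCC, -, -, -, -, ⟨w0, hw0, hbw⟩, -, hq, -⟩ := hMEA K hK hKi
  have hA0 : ∀ R, 0 ≤ area (pr R K) := fun R => (hq R).1.trans (hq R).2
  refine finish b c _ V1 V2 _ hbpos ENNReal.toReal_nonneg hV1 hV2 (integral_nonneg hA0) ?_
  intro hcp
  have h1 := hN.trans (hRT1 K hK hKi c hcp hc R G W V)
  have hB : wid (pr (R * cyc 0) K) 0 / 2 = (HS K (col R 2) + HS K (-(col R 2))) / 2 := by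
    rw [wid_eq, col_cyc_zero]
  set B0 : ℝ := (HS K (col R 2) + HS K (-(col R 2))) / 2 with hB0
  have hB0pos : 0 < B0 := by
    rw [← hB]; linarith [hbw (R * cyc 0)]
  set a : ℝ := √(4 * π * (volume K).toReal / (3 * c)) with ha
  have ha0 : 0 ≤ a := Real.sqrt_nonneg _
  have h2 : √(B0 * (G ^ 2 + taup * (G - W) ^ 2 + V ^ 2 / 2)) ≤ √b * √(B0 / b) := by
    rw [← Real.sqrt_mul hbpos.le]
    apply Real.sqrt_le_sqrt
    have e : b * (B0 / b) = B0 * 1 := by field_simp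
    rw [e]
    exact mul_le_mul_of_nonneg_left hS hB0pos.le
  have h3 : 0 < √(B0 / b) := Real.sqrt_pos.2 (div_pos hB0pos hbpos)
  have h4 : (4 / 3 * ∫ S, area (pr S K) ∂μ) * √(B0 / b) ≤ (a * √b) * √(B0 / b) := by
    refine h1.trans ?_
    rw [mul_assoc]
    exact mul_le_mul_of_nonneg_left h2 ha0
  exact le_of_mul_le_mul_right h4 h3

end Pool.Agent.Lib.MP_084b88_gt.CW
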