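import Pool.Agent.Lib.MP_084b88_gt.CW.SpecA

/-!
# CAU: Cauchy's surface formula
-/

set_option autoImplicit false

open MeasureTheory Set Real Filter Topology
open scoped Pointwise InnerProductSpace

namespace Pool.Agent.Lib.MP_084b88_gt.CW

namespace CAUM

theorem pr_add (R : O3) (A B : Set E3) : pr R (A + B) = pr R A + pr R B := by
  unfold pr
  ext p
  constructor
  · rintro ⟨x, hx, rfl⟩
    obtain ⟨a, ha, b, hb, rfl⟩ := Set.mem_add.1 hx
    exact Set.mem_add.2 ⟨cd R a, ⟨a, ha, rfl⟩, cd R b, ⟨b, hb, rfl⟩, (cd_add R a b).symm⟩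
  · intro hp
    obtain ⟨p1, ⟨a, ha, rfl⟩, p2, ⟨b, hb, rfl⟩, rfl⟩ := Set.mem_add.1 hp
    exact ⟨a + b, Set.add_mem_add ha hb, cd_add R a b⟩

theorem pr_ball (R : O3) {s : ℝ} (hs : 0 ≤ s) :
    pr R (Metric.closedBall (0 : E3) s) = disc s := by
  unfold pr disc
  ext p
  constructor
  · rintro ⟨x, hx, rfl⟩
    rw [mem_closedBall_zero_iff] at hx
    have h := norm_sq_frame R x
    have h2 : ‖x‖ ^ 2 ≤ s ^ 2 := pow_le_pow_left₀ (norm_nonneg x) hx 2
    show (⟪col R 0, x⟫_ℝ) ^ 2 + (⟪col R 1, x⟫_ℝ) ^ 2 ≤ s ^ 2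
    nlinarith [sq_nonneg (⟪col R 2, x⟫_ℝ)]
  · intro hp
    have hp' : p.1 ^ 2 + p.2 ^ 2 ≤ s ^ 2 := hp
    have e0 : ⟪col R 0, p.1 • col R 0 + p.2 • col R 1⟫_ℝ = p.1 := by
      rw [inner_add_right, inner_smul_right, inner_smul_right, inner_col_col, inner_col_col]
      simp
    have e1 : ⟪col R 1, p.1 • col R 0 + p.2 • col R 1⟫_ℝ = p.2 := by
      rw [inner_add_right, inner_smul_right, inner_smul_right, inner_col_col, inner_col_col]
      simp
    have e2 : ⟪col R 2, p.1 • col R 0 + p.2 • col R 1⟫_ℝ = 0 := by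
      rw [inner_add_right, inner_smul_right, inner_smul_right, inner_col_col, inner_col_col]
      simp
    refine ⟨p.1 • col R 0 + p.2 • col R 1, ?_, ?_⟩
    · rw [mem_closedBall_zero_iff]
      have h := norm_sq_frame R (p.1 • col R 0 + p.2 • col R 1)
      rw [e0, e1, e2] at h
      have h3 : ‖p.1 • col R 0 + p.2 • col R 1‖ ^ 2 ≤ s ^ 2 := by rw [← h]; linarith
      exact abs_le_of_sq_le_sq' h3 hs |>.2
    · exact Prod.ext e0 e1

theorem cc_add_ball {K : Set E3} (hK : CC K) {s : ℝ} (hs : 0 ≤ s) :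
    CC (K + Metric.closedBall (0 : E3) s) :=
  ⟨hK.1.add (convex_closedBall 0 s), hK.2.1.add (isCompact_closedBall 0 s),
    hK.2.2.add ⟨0, Metric.mem_closedBall_self hs⟩⟩

theorem int_add_ball {K : Set E3} (hi : (interior K).Nonempty) {s : ℝ} (hs : 0 ≤ s) :
    (interior (K + Metric.closedBall (0 : E3) s)).Nonempty := by
  refine hi.mono (interior_mono fun x hx => ?_)
  exact Set.mem_add.2 ⟨x, hx, 0, Metric.mem_closedBall_self hs, add_zero x⟩

theorem add_ball_ball (K : Set E3) {s t : ℝ} (hs : 0 ≤ s) (ht : 0 ≤ t) :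
    K + Metric.closedBall (0 : E3) s + Metric.closedBall (0 : E3) t =
      K + Metric.closedBall (0 : E3) (s + t) := by
  rw [add_assoc, closedBall_add_closedBall hs ht, add_zero]

theorem area_mono {Q Q' : Set (ℝ × ℝ)} (hQ' : CC Q') (h : Q ⊆ Q') : area Q ≤ area Q' :=
  ENNReal.toReal_mono hQ'.2.1.measure_lt_top.ne (measure_mono h)

theorem area_nonneg (Q : Set (ℝ × ℝ)) : 0 ≤ area Q := ENNReal.toReal_nonneg

theorem main (hGDL : SpecGDL) (hSG3 : SpecSG3) (hPST : SpecPST) (hAVG : SpecAVG)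
    (hMEA : SpecMEA) (μ : Measure O3) (hμ : HaarO μ) (K : Set E3) (hK : CC K)
    (hi : (interior K).Nonempty) (V1 V2 : ℝ) (hST : STEI K V1 V2) :
    V2 = 2 * ∫ R, area (pr R K) ∂μ ∧ π * V1 = 4 * ∫ R, len (pr R K) ∂μ := by
  have : IsProbabilityMeasure μ := hμ.1
  obtain ⟨c₀, hc₀, hav⟩ := hAVG μ hμ
  obtain ⟨hccpr, -⟩ := hMEA K hK hi
  -- the parallel bodies
  have hpr : ∀ (N : Set E3) (R : O3) (s : ℝ), 0 ≤ s →
      pr R (N + Metric.closedBall (0 : E3) s) = pr R N + disc s := by
    intro N R s hs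
    rw [pr_add, pr_ball R hs]
  have hint : ∀ s : ℝ, 0 ≤ s →
      Integrable (fun R : O3 => area (pr R (K + Metric.closedBall (0 : E3) s))) μ := by
    intro s hs
    obtain ⟨-, hm, ⟨C, hC⟩, -⟩ := hMEA _ (cc_add_ball hK hs) (int_add_ball hi hs)
    refine Integrable.of_bound hm.aestronglyMeasurable C (Eventually.of_forall fun R => ?_)
    rw [norm_eq_abs, abs_of_nonneg (area_nonneg _)]
    exact hC R
  have hintK : Integrable (fun R : O3 => area (pr R K)) μ := by
    obtain ⟨-, hm, ⟨C, hC⟩, -⟩ := hMEA K hK hi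
    refine Integrable.of_bound hm.aestronglyMeasurable C (Eventually.of_forall fun R => ?_)
    rw [norm_eq_abs, abs_of_nonneg (area_nonneg _)]
    exact hC R
  have hlen : ∀ R : O3, len (pr R K) =
      (area (pr R (K + Metric.closedBall (0 : E3) 1)) - area (pr R K) - π) / 2 := by
    intro R
    rw [hpr K R 1 zero_le_one, hPST (pr R K) 1 (hccpr R) zero_le_one]
    ring
  have hintL : Integrable (fun R : O3 => len (pr R K)) μ := by
    have h1 : (fun R : O3 => len (pr R K)) = fun R : O3 =>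
      (area (pr R (K + Metric.closedBall (0 : E3) 1)) - area (pr R K) - π) / 2 := funext hlen
    rw [h1]
    exact (((hint 1 zero_le_one).sub hintK).sub (integrable_const π)).div_const 2
  -- the derivative
  have key : ∀ s : ℝ, 0 ≤ s → 2 * V2 + 2 * π * V1 * s + 4 * π * s ^ 2 =
      2 / c₀ * ((∫ R, area (pr R K) ∂μ) + 2 * s * (∫ R, len (pr R K) ∂μ) + π * s ^ 2) := by
    intro s hs
    set M : Set E3 := K + Metric.closedBall (0 : E3) s with hM
    have hMc : CC M := cc_add_ball hK hs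
    have hMi : (interior M).Nonempty := int_add_ball hi hs
    obtain ⟨hccM, hmeas, ⟨C, hC⟩, -⟩ := hMEA M hMc hMi
    have hg := hGDL E3 (volume : Measure E3) O3 μ (fun R => c₀⁻¹ • col R 2)
      (fun R N => 2 / c₀ * area (pr R N)) M (max c₀⁻¹ (2 / c₀ * C))
      ((continuous_col 2).const_smul c₀⁻¹).measurable
      (fun R => by
        rw [norm_smul, norm_col, mul_one, norm_eq_abs, abs_of_pos (inv_pos.2 hc₀)]
        exact le_max_left _ _)
      (fun x => by
        have h1 : ∀ R : O3, |⟪c₀⁻¹ • col R 2, x⟫_ℝ| = c₀⁻¹ * |⟪col R 2, x⟫_ℝ| := by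
          intro R
          rw [inner_smul_left, abs_mul]
          simp only [RCLike.conj_to_real]
          rw [abs_of_pos (inv_pos.2 hc₀)]
        simp only [h1]
        rw [integral_const_mul, hav x, ← mul_assoc, inv_mul_cancel₀ hc₀.ne', one_mul])
      hMc
      (fun R N c hN hc => by
        have h1 := hSG3 R N (c * c₀⁻¹) hN (mul_nonneg hc (inv_pos.2 hc₀).le)
        have h2 : c • (c₀⁻¹ • col R 2) = (c * c₀⁻¹) • col R 2 := by rw [smul_smul]
        simp only [h2]
        rw [h1]
        field_simp)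
      (fun R N N' hN hN' h => by
        refine mul_le_mul_of_nonneg_left (area_mono ?_ (image_mono h)) (by positivity)
        exact ⟨hN'.1.is_linear_image ⟨cd_add R, cd_smul R⟩,
          hN'.2.1.image (continuous_cd_right R), hN'.2.2.image _⟩)
      (fun R => by
        have h1 : Tendsto (fun t : ℝ => 2 / c₀ * (area (pr R M) + 2 * len (pr R M) * t +
            π * t ^ 2)) (𝓝[>] 0) (𝓝 (2 / c₀ * area (pr R M))) := by
          have h2 : Continuous (fun t : ℝ => 2 / c₀ * (area (pr R M) + 2 * len (pr R M) * t +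
            π * t ^ 2)) := by fun_prop
          have h3 := (h2.tendsto 0).mono_left (nhdsWithin_le_nhds (s := Ioi 0))
          simpa using h3
        refine h1.congr' ?_
        filter_upwards [self_mem_nhdsWithin] with t ht
        rw [hpr M R t (le_of_lt ht), hPST (pr R M) t (hccM R) (le_of_lt ht)])
      (hmeas.const_mul _)
      (fun R => by
        rw [abs_of_nonneg (mul_nonneg (by positivity) (area_nonneg _))]
        exact (mul_le_mul_of_nonneg_left (hC R) (by positivity)).trans (le_max_right _ _))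
    -- the same limit from the Steiner polynomial
    have hlim : Tendsto (fun t : ℝ => ((volume (M + Metric.closedBall (0 : E3) t)).toReal -
        (volume M).toReal) / t) (𝓝[>] 0) (𝓝 (2 * V2 + 2 * π * V1 * s + 4 * π * s ^ 2)) := by
      have h1 : Tendsto (fun t : ℝ => 2 * V2 + π * V1 * (2 * s + t) +
          4 / 3 * π * (3 * s ^ 2 + 3 * s * t + t ^ 2)) (𝓝[>] 0)
          (𝓝 (2 * V2 + 2 * π * V1 * s + 4 * π * s ^ 2)) := by
        have h2 : Continuous (fun t : ℝ => 2 * V2 + π * V1 * (2 * s + t) +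
          4 / 3 * π * (3 * s ^ 2 + 3 * s * t + t ^ 2)) := by fun_prop
        have h3 := (h2.tendsto 0).mono_left (nhdsWithin_le_nhds (s := Ioi 0))
        have h4 : 2 * V2 + π * V1 * (2 * s + 0) + 4 / 3 * π * (3 * s ^ 2 + 3 * s * 0 + 0 ^ 2) =
          2 * V2 + 2 * π * V1 * s + 4 * π * s ^ 2 := by ring
        rwa [h4] at h3
      refine h1.congr' ?_
      filter_upwards [self_mem_nhdsWithin] with t ht
      have ht0 : (0 : ℝ) < t := ht
      rw [hM, add_ball_ball K hs ht0.le, hST (s + t) (by linarith), hST s hs]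
      field_simp
      ring
    have hEq := tendsto_nhds_unique hlim hg
    rw [hEq, integral_const_mul]
    congr 1
    have h5 : (fun R : O3 => area (pr R M)) =
        fun R : O3 => area (pr R K) + 2 * s * len (pr R K) + π * s ^ 2 := by
      funext R
      rw [hM, hpr K R s hs, hPST (pr R K) s (hccpr R) hs]
      ring
    have i1 : Integrable (fun R : O3 => 2 * s * len (pr R K)) μ := hintL.const_mul _
    have i2 : Integrable (fun R : O3 => area (pr R K) + 2 * s * len (pr R K)) μ := hintK.add i1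
    rw [h5, integral_add i2 (integrable_const _), integral_add hintK i1, integral_const_mul,
      integral_const]
    simp
  have k0 := key 0 le_rfl
  have k1 := key 1 zero_le_one
  have k2 := key 2 zero_le_two
  set I0 := ∫ R, area (pr R K) ∂μ with hI0
  set I1 := ∫ R, len (pr R K) ∂μ with hI1
  have hpi := Real.pi_pos
  set q : ℝ := 2 / c₀ with hq
  have hq4 : q = 4 := by
    have h1 : q * (2 * π) = 8 * π := by nlinarith
    have h2 : (q - 4) * (2 * π) = 0 := by linarith
    rcases mul_eq_zero.1 h2 with h | h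
    · linarith
    · exfalso; linarith
  rw [hq4] at k0 k1
  constructor
  · linarith
  · linarith

end CAUM

theorem specCAU (hGDL : SpecGDL) (hSG3 : SpecSG3) (hPST : SpecPST) (hAVG : SpecAVG)
    (hMEA : SpecMEA) : SpecCAU :=
  fun μ hμ K hK hi V1 V2 hST => CAUM.main hGDL hSG3 hPST hAVG hMEA μ hμ K hK hi V1 V2 hST

end Pool.Agent.Lib.MP_084b88_gt.CW
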