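import Pool.Agent.Lib.MP_084b88_gt.CW.SpecA

/-!
# MP_084b88_gt, project CW: DE2 (right derivative of the area of parallel sets)
-/

set_option autoImplicit false

open MeasureTheory Set Real Filter Topology
open scoped Pointwise InnerProductSpace

namespace Pool.Agent.Lib.MP_084b88_gt.CW

theorem de2_int_abs_cos (φ : ℝ) : ∫ θ in (0 : ℝ)..π, |cos (θ - φ)| = 2 := by
  rw [intervalIntegral.integral_comp_sub_right (fun x => |cos x|) φ]
  have hper : Function.Periodic (fun x : ℝ => |cos x|) π := by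
    intro x
    simp only [cos_add_pi, abs_neg]
  have h1 := hper.intervalIntegral_add_eq (0 - φ) (-(π / 2))
  rw [show (0 : ℝ) - φ + π = π - φ by ring, show -(π / 2) + π = π / 2 by ring] at h1
  rw [h1]
  have h2 : ∫ x in (-(π / 2))..(π / 2), |cos x| = ∫ x in (-(π / 2))..(π / 2), cos x := by
    refine intervalIntegral.integral_congr (fun x hx => ?_)
    have hpi := pi_pos
    rw [uIcc_of_le (by linarith)] at hx
    exact abs_of_nonneg (cos_nonneg_of_mem_Icc hx)
  rw [h2, integral_cos, sin_neg, sin_pi_div_two]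
  norm_num

/-- The identification of `ℂ` with the plane. -/
noncomputable def de2e : ℂ ≃L[ℝ] ℝ × ℝ := Complex.equivRealProdCLM

theorem de2e_apply (z : ℂ) : de2e z = (z.re, z.im) := rfl

theorem de2_cc {N : Set ℂ} (hN : CC N) : CC (de2e '' N) := by
  refine ⟨?_, hN.2.1.image de2e.continuous, hN.2.2.image _⟩
  exact hN.1.linear_image (de2e : ℂ →ₗ[ℝ] ℝ × ℝ)

theorem de2_cc' {Q : Set (ℝ × ℝ)} (hQ : CC Q) : CC (de2e.symm '' Q) := by
  refine ⟨?_, hQ.2.1.image de2e.symm.continuous, hQ.2.2.image _⟩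
  exact hQ.1.linear_image (de2e.symm : ℝ × ℝ →ₗ[ℝ] ℂ)

theorem de2_area (N : Set ℂ) : area (de2e '' N) = (volume N).toReal := by
  unfold area
  congr 1
  rw [← Complex.volume_preserving_equiv_real_prod.measure_preimage_equiv (de2e '' N)]
  congr 1
  exact preimage_image_eq N de2e.injective

theorem de2_ball {s : ℝ} (hs : 0 ≤ s) : de2e '' Metric.closedBall (0 : ℂ) s = disc s := by
  ext p
  constructor
  · rintro ⟨z, hz, rfl⟩
    rw [mem_closedBall_zero_iff] at hz
    change z.re ^ 2 + z.im ^ 2 ≤ s ^ 2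
    have h := Complex.sq_norm z
    rw [Complex.normSq_apply] at h
    nlinarith [norm_nonneg z, mul_self_le_mul_self (norm_nonneg z) hz]
  · intro hp
    refine ⟨⟨p.1, p.2⟩, ?_, rfl⟩
    rw [mem_closedBall_zero_iff]
    have h := Complex.sq_norm (⟨p.1, p.2⟩ : ℂ)
    rw [Complex.normSq_apply] at h
    have hp' : p.1 ^ 2 + p.2 ^ 2 ≤ s ^ 2 := hp
    refine abs_le_of_sq_le_sq' ?_ hs |>.2
    simp only at h
    nlinarith

theorem de2_seg (w : ℂ) :
    de2e '' segment ℝ (-w) w = segment ℝ (-(de2e w)) (de2e w) := by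
  have h := image_segment ℝ ((de2e : ℂ →ₗ[ℝ] ℝ × ℝ).toAffineMap) (-w) w
  have h2 : ((de2e : ℂ →ₗ[ℝ] ℝ × ℝ).toAffineMap) (-w) = -(de2e w) := by
    change de2e (-w) = _
    rw [map_neg]
  rw [h2] at h
  exact h

theorem de2_add (N N' : Set ℂ) : de2e '' (N + N') = de2e '' N + de2e '' N' :=
  Set.image_add de2e

/-- `v θ = (π/2) e^{iθ}`. -/
noncomputable def de2v (θ : ℝ) : ℂ := ⟨π / 2 * cos θ, π / 2 * sin θ⟩

theorem de2v_inner (θ : ℝ) (z : ℂ) :
    ⟪de2v θ, z⟫_ℝ = π / 2 * (‖z‖ * cos (θ - Complex.arg z)) := by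
  have h1 := Complex.norm_mul_cos_arg z
  have h2 := Complex.norm_mul_sin_arg z
  rw [Complex.inner, Complex.mul_re, Complex.conj_re, Complex.conj_im, cos_sub]
  simp only [de2v]
  rw [← h1, ← h2]
  ring

theorem specDE2 (hGDL : SpecGDL) (hSG2 : SpecSG2) (hWB2 : SpecWB2) : SpecDE2 := by
  intro Q hQ
  obtain ⟨-, -, w3, -, w5, w6, w7, -, -, w10, w11⟩ := hWB2
  obtain ⟨C0, hC0, hC1, -⟩ := w3 Q hQ
  have hpi := pi_pos
  have hcont : Continuous (wid Q) := (w10 Q hQ).2
  set M : Set ℂ := de2e.symm '' Q with hM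
  have hMcc : CC M := de2_cc' hQ
  have heM : de2e '' M = Q := by
    rw [hM, ← image_comp]
    have : (de2e ∘ de2e.symm : ℝ × ℝ → ℝ × ℝ) = id := by
      funext p
      exact de2e.apply_symm_apply p
    rw [this, image_id]
  let μ : Measure ℝ := (ENNReal.ofReal (1 / π)) • (volume.restrict (Ioc 0 π))
  have hμint : ∀ f : ℝ → ℝ, ∫ θ, f θ ∂μ = (1 / π) * ∫ θ in (0 : ℝ)..π, f θ := by
    intro f
    rw [intervalIntegral.integral_of_le hpi.le]
    change ∫ θ, f θ ∂((ENNReal.ofReal (1 / π)) • (volume.restrict (Ioc 0 π))) = _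
    rw [integral_smul_measure, ENNReal.toReal_ofReal (by positivity), smul_eq_mul]
  have hμ : IsProbabilityMeasure μ := by
    refine ⟨?_⟩
    change ((ENNReal.ofReal (1 / π)) • (volume.restrict (Ioc 0 π))) univ = 1
    rw [Measure.smul_apply, Measure.restrict_apply_univ, Real.volume_Ioc, smul_eq_mul, sub_zero,
      ← ENNReal.ofReal_mul (by positivity), one_div, inv_mul_cancel₀ hpi.ne', ENNReal.ofReal_one]
  have hvcont : Continuous de2v := by
    have h0 : Continuous (fun θ : ℝ => ((π / 2 * cos θ, π / 2 * sin θ) : ℝ × ℝ)) := by fun_prop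
    exact de2e.symm.continuous.comp h0
  have hvnorm : ∀ θ, ‖de2v θ‖ = π / 2 := by
    intro θ
    have h := Complex.sq_norm (de2v θ)
    rw [Complex.normSq_apply] at h
    simp only [de2v] at h
    have h2 := sin_sq_add_cos_sq θ
    have h3 : ‖de2v θ‖ ^ 2 = (π / 2) ^ 2 := by
      simp only [de2v]
      rw [h]
      linear_combination (π / 2) ^ 2 * h2
    exact (pow_left_inj₀ (norm_nonneg _) (by positivity) two_ne_zero).1 h3
  have hwidadd : ∀ s : ℝ, 0 ≤ s → ∀ θ, wid (Q + disc s) θ = wid Q θ + 2 * s := by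
    intro s hs θ
    obtain ⟨hd1, hd2, -⟩ := w7 s hs
    unfold wid
    rw [w5 _ _ hQ hd1, w5 _ _ hQ hd1, hd2, hd2]
    ring
  have hMball : ∀ s : ℝ, 0 ≤ s → de2e '' (M + Metric.closedBall 0 s) = Q + disc s := by
    intro s hs
    rw [de2_add, heM, de2_ball hs]
  have hmain := hGDL ℂ volume ℝ μ de2v (fun θ N => π * wid (de2e '' N) (θ + π / 2)) M
    (max (π / 2) (π * (2 * C0))) hvcont.measurable ?_ ?_ hMcc ?_ ?_ ?_ ?_ ?_
  · have hlim : ∫ θ, (fun θ N => π * wid (de2e '' N) (θ + π / 2)) θ M ∂μ = 2 * len Q := by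
      simp only
      rw [heM, hμint, intervalIntegral.integral_const_mul, ← mul_assoc, one_div,
        inv_mul_cancel₀ hpi.ne', one_mul, intervalIntegral.integral_comp_add_right (wid Q) (π / 2)]
      have hper : Function.Periodic (wid Q) π := fun θ => w11 Q θ
      have h1 := hper.intervalIntegral_add_eq (0 + π / 2) 0
      rw [show (0 : ℝ) + π / 2 + π = π + π / 2 by ring, zero_add π] at h1
      rw [h1]
      unfold len
      ring
    rw [hlim] at hmain
    refine hmain.congr' ?_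
    filter_upwards [self_mem_nhdsWithin] with t ht
    have ht' : 0 ≤ t := le_of_lt ht
    rw [← de2_area, ← de2_area, hMball t ht', heM]
  · intro θ
    rw [hvnorm]
    exact le_max_left _ _
  · intro z
    rw [hμint]
    have h1 : ∀ θ : ℝ, |⟪de2v θ, z⟫_ℝ| = π / 2 * ‖z‖ * |cos (θ - Complex.arg z)| := by
      intro θ
      rw [de2v_inner, abs_mul, abs_mul, abs_of_pos (by positivity), abs_of_nonneg (norm_nonneg z)]
      ring
    simp only [h1]
    rw [intervalIntegral.integral_const_mul, de2_int_abs_cos]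
    field_simp
  · intro θ N c hN hc
    rw [← de2_area, ← de2_area, de2_add, de2_seg]
    have h1 : de2e (c • de2v θ) = (c * (π / 2)) • ((cos θ, sin θ) : ℝ × ℝ) := by
      rw [map_smul, de2e_apply]
      simp only [de2v, Prod.smul_mk, smul_eq_mul]
      ext <;> simp only <;> ring
    rw [h1, hSG2 _ θ _ (de2_cc hN) (by positivity)]
    ring
  · intro θ N N' hN hN' hsub
    have h := image_mono (f := de2e) hsub
    have h1 := w6 _ _ (de2_cc hN) (de2_cc hN') h
    refine mul_le_mul_of_nonneg_left ?_ hpi.le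
    exact add_le_add (h1 _) (h1 _)
  · intro θ
    have hev : ∀ᶠ s in 𝓝[>] (0 : ℝ), π * (wid Q (θ + π / 2) + 2 * s) =
        (fun θ N => π * wid (de2e '' N) (θ + π / 2)) θ (M + Metric.closedBall 0 s) := by
      filter_upwards [self_mem_nhdsWithin] with s hs
      have hs' : 0 ≤ s := le_of_lt hs
      rw [hMball s hs', hwidadd s hs']
    refine Tendsto.congr' hev ?_
    rw [heM]
    have : Continuous (fun s : ℝ => π * (wid Q (θ + π / 2) + 2 * s)) := by fun_prop
    have h := this.tendsto 0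
    simp only [mul_zero, add_zero] at h
    exact h.mono_left nhdsWithin_le_nhds
  · rw [heM]
    exact (continuous_const.mul (hcont.comp (continuous_id.add continuous_const))).measurable
  · intro θ
    rw [heM]
    refine le_trans ?_ (le_max_right _ _)
    rw [abs_mul, abs_of_pos hpi]
    refine mul_le_mul_of_nonneg_left ?_ hpi.le
    unfold wid
    refine (abs_add_le _ _).trans ?_
    linarith [hC1 (θ + π / 2), hC1 (θ + π / 2 + π)]

end Pool.Agent.Lib.MP_084b88_gt.CW
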