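import Pool.Agent.Lib.MP_084b88_gt.CW.SpecM
import Pool.Agent.Lib.MP_084b88_gt.CW.CAU
import Pool.Agent.Lib.MP_084b88_gt.CW.DE2

/-!
# MP_084b88_gt, project CW, modules AVH, CIR
-/

set_option autoImplicit false

open MeasureTheory Set Real Filter Topology
open scoped Pointwise InnerProductSpace

namespace Pool.Agent.Lib.MP_084b88_gt.CW

theorem specCIR : SpecCIR := by
  intro R x
  have hpi := pi_pos
  set z : ℂ := ⟨⟪col R 1, x⟫_ℝ, -⟪col R 0, x⟫_ℝ⟩ with hz
  have h1 : ∀ θ : ℝ, |⟪col (R * cyc θ) 2, x⟫_ℝ| = ‖z‖ * |cos (θ - Complex.arg z)| := by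
    intro θ
    rw [col_cyc_two, inner_add_left, inner_smul_left, inner_smul_left]
    simp only [RCLike.conj_to_real]
    have e1 : ‖z‖ * cos (Complex.arg z) = ⟪col R 1, x⟫_ℝ := by
      rw [Complex.norm_mul_cos_arg]
    have e2 : ‖z‖ * sin (Complex.arg z) = -⟪col R 0, x⟫_ℝ := by
      rw [Complex.norm_mul_sin_arg]
    have e3 : -sin θ * ⟪col R 0, x⟫_ℝ + cos θ * ⟪col R 1, x⟫_ℝ =
        ‖z‖ * cos (θ - Complex.arg z) := by
      rw [cos_sub]
      linear_combination (-cos θ) * e1 - sin θ * e2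
    rw [e3, abs_mul, abs_of_nonneg (norm_nonneg z)]
  simp only [h1]
  rw [intervalIntegral.integral_const_mul, de2_int_abs_cos]
  have h2 : ‖z‖ = √(‖x‖ ^ 2 - ⟪col R 2, x⟫_ℝ ^ 2) := by
    have h3 := norm_sq_frame R x
    rw [← h3, Complex.norm_def, Complex.normSq_apply]
    congr 1
    simp only [hz]
    ring
  rw [h2]
  ring

namespace AVHM

open CAUM

theorem c0_half (hGDL : SpecGDL) (hSG3 : SpecSG3) (hPST : SpecPST) (hAVG : SpecAVG)
    (hMEA : SpecMEA) (μ : Measure O3) (hμ : HaarO μ) (K : Set E3) (hK : CC K)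
    (hi : (interior K).Nonempty) (V1 V2 : ℝ) (hST : STEI K V1 V2) :
    ∃ c₀ : ℝ, (∀ x : E3, ∫ R, |⟪col R 2, x⟫_ℝ| ∂μ = c₀ * ‖x‖) ∧ c₀ = 1 / 2 := by
  have : IsProbabilityMeasure μ := hμ.1
  obtain ⟨c₀, hc₀, hav⟩ := hAVG μ hμ
  refine ⟨c₀, hav, ?_⟩
  obtain ⟨hccpr, -⟩ := hMEA K hK hi
  -- the parallel bodies
  have hpr : ∀ (N : Set E3) (R : O3) (s : ℝ), 0 ≤ s →
      pr R (N + Metric.closedBall (0 : E3) s) = pr R N + disc s := by
    intro N R s hs
    rw [pr_add, pr_ball R hs]
  have hint : ∀ s : ℝ, 0 ≤ s →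
      Integrable (fun R : O3 => area (pr R (K + Metric.closedBall (0 : E3) s))) μ := by
    intro s hs
    obtain ⟨-, hm, ⟨C, hC⟩, -⟩ := hMEA _ (cc_add_ball hK hs) (int_add_ball hi hs)
    refine Integrable.of_bound hm.aestronglyMeasurable C (Eventually.of_forall fun R => ?_)
    rw [norm_eq_abs, abs_of_nonneg (area_nonneg _)]
    exact hC R
  have hintK : Integrable (fun R : O3 => area (pr R K)) μ := by
    obtain ⟨-, hm, ⟨C, hC⟩, -⟩ := hMEA K hK hi
    refine Integrable.of_bound hm.aestronglyMeasurable C (Eventually.of_forall fun R => ?_)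
    rw [norm_eq_abs, abs_of_nonneg (area_nonneg _)]
    exact hC R
  have hlen : ∀ R : O3, len (pr R K) =
      (area (pr R (K + Metric.closedBall (0 : E3) 1)) - area (pr R K) - π) / 2 := by
    intro R
    rw [hpr K R 1 zero_le_one, hPST (pr R K) 1 (hccpr R) zero_le_one]
    ring
  have hintL : Integrable (fun R : O3 => len (pr R K)) μ := by
    have h1 : (fun R : O3 => len (pr R K)) = fun R : O3 =>
      (area (pr R (K + Metric.closedBall (0 : E3) 1)) - area (pr R K) - π) / 2 := funext hlen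
    rw [h1]
    exact (((hint 1 zero_le_one).sub hintK).sub (integrable_const π)).div_const 2
  -- the derivative
  have key : ∀ s : ℝ, 0 ≤ s → 2 * V2 + 2 * π * V1 * s + 4 * π * s ^ 2 =
      2 / c₀ * ((∫ R, area (pr R K) ∂μ) + 2 * s * (∫ R, len (pr R K) ∂μ) + π * s ^ 2) := by
    intro s hs
    set M : Set E3 := K + Metric.closedBall (0 : E3) s with hM
    have hMc : CC M := cc_add_ball hK hs
    have hMi : (interior M).Nonempty := int_add_ball hi hs
    obtain ⟨hccM, hmeas, ⟨C, hC⟩, -⟩ := hMEA M hMc hMi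
    have hg := hGDL E3 (volume : Measure E3) O3 μ (fun R => c₀⁻¹ • col R 2)
      (fun R N => 2 / c₀ * area (pr R N)) M (max c₀⁻¹ (2 / c₀ * C))
      ((continuous_col 2).const_smul c₀⁻¹).measurable
      (fun R => by
        rw [norm_smul, norm_col, mul_one, norm_eq_abs, abs_of_pos (inv_pos.2 hc₀)]
        exact le_max_left _ _)
      (fun x => by
        have h1 : ∀ R : O3, |⟪c₀⁻¹ • col R 2, x⟫_ℝ| = c₀⁻¹ * |⟪col R 2, x⟫_ℝ| := by
          intro R
          rw [inner_smul_left, abs_mul]
          simp only [RCLike.conj_to_real]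
          rw [abs_of_pos (inv_pos.2 hc₀)]
        simp only [h1]
        rw [integral_const_mul, hav x, ← mul_assoc, inv_mul_cancel₀ hc₀.ne', one_mul])
      hMc
      (fun R N c hN hc => by
        have h1 := hSG3 R N (c * c₀⁻¹) hN (mul_nonneg hc (inv_pos.2 hc₀).le)
        have h2 : c • (c₀⁻¹ • col R 2) = (c * c₀⁻¹) • col R 2 := by rw [smul_smul]
        simp only [h2]
        rw [h1]
        field_simp)
      (fun R N N' hN hN' h => by
        refine mul_le_mul_of_nonneg_left (area_mono ?_ (image_mono h)) (by positivity)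
        exact ⟨hN'.1.is_linear_image ⟨cd_add R, cd_smul R⟩,
          hN'.2.1.image (continuous_cd_right R), hN'.2.2.image _⟩)
      (fun R => by
        have h1 : Tendsto (fun t : ℝ => 2 / c₀ * (area (pr R M) + 2 * len (pr R M) * t +
            π * t ^ 2)) (𝓝[>] 0) (𝓝 (2 / c₀ * area (pr R M))) := by
          have h2 : Continuous (fun t : ℝ => 2 / c₀ * (area (pr R M) + 2 * len (pr R M) * t +
            π * t ^ 2)) := by fun_prop
          have h3 := (h2.tendsto 0).mono_left (nhdsWithin_le_nhds (s := Ioi 0))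
          simpa using h3
        refine h1.congr' ?_
        filter_upwards [self_mem_nhdsWithin] with t ht
        rw [hpr M R t (le_of_lt ht), hPST (pr R M) t (hccM R) (le_of_lt ht)])
      (hmeas.const_mul _)
      (fun R => by
        rw [abs_of_nonneg (mul_nonneg (by positivity) (area_nonneg _))]
        exact (mul_le_mul_of_nonneg_left (hC R) (by positivity)).trans (le_max_right _ _))
    -- the same limit from the Steiner polynomial
    have hlim : Tendsto (fun t : ℝ => ((volume (M + Metric.closedBall (0 : E3) t)).toReal -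
        (volume M).toReal) / t) (𝓝[>] 0) (𝓝 (2 * V2 + 2 * π * V1 * s + 4 * π * s ^ 2)) := by
      have h1 : Tendsto (fun t : ℝ => 2 * V2 + π * V1 * (2 * s + t) +
          4 / 3 * π * (3 * s ^ 2 + 3 * s * t + t ^ 2)) (𝓝[>] 0)
          (𝓝 (2 * V2 + 2 * π * V1 * s + 4 * π * s ^ 2)) := by
        have h2 : Continuous (fun t : ℝ => 2 * V2 + π * V1 * (2 * s + t) +
          4 / 3 * π * (3 * s ^ 2 + 3 * s * t + t ^ 2)) := by fun_prop
        have h3 := (h2.tendsto 0).mono_left (nhdsWithin_le_nhds (s := Ioi 0))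
        have h4 : 2 * V2 + π * V1 * (2 * s + 0) + 4 / 3 * π * (3 * s ^ 2 + 3 * s * 0 + 0 ^ 2) =
          2 * V2 + 2 * π * V1 * s + 4 * π * s ^ 2 := by ring
        rwa [h4] at h3
      refine h1.congr' ?_
      filter_upwards [self_mem_nhdsWithin] with t ht
      have ht0 : (0 : ℝ) < t := ht
      rw [hM, add_ball_ball K hs ht0.le, hST (s + t) (by linarith), hST s hs]
      field_simp
      ring
    have hEq := tendsto_nhds_unique hlim hg
    rw [hEq, integral_const_mul]
    congr 1
    have h5 : (fun R : O3 => area (pr R M)) =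
        fun R : O3 => area (pr R K) + 2 * s * len (pr R K) + π * s ^ 2 := by
      funext R
      rw [hM, hpr K R s hs, hPST (pr R K) s (hccpr R) hs]
      ring
    have i1 : Integrable (fun R : O3 => 2 * s * len (pr R K)) μ := hintL.const_mul _
    have i2 : Integrable (fun R : O3 => area (pr R K) + 2 * s * len (pr R K)) μ := hintK.add i1
    rw [h5, integral_add i2 (integrable_const _), integral_add hintK i1, integral_const_mul,
      integral_const]
    simp
  have k0 := key 0 le_rfl
  have k1 := key 1 zero_le_one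
  have k2 := key 2 zero_le_two
  set I0 := ∫ R, area (pr R K) ∂μ with hI0
  set I1 := ∫ R, len (pr R K) ∂μ with hI1
  have hpi := Real.pi_pos
  set q : ℝ := 2 / c₀ with hq
  have hq4 : q = 4 := by
    have h1 : q * (2 * π) = 8 * π := by nlinarith
    have h2 : (q - 4) * (2 * π) = 0 := by linarith
    rcases mul_eq_zero.1 h2 with h | h
    · linarith
    · exfalso; linarith
  rw [hq, div_eq_iff hc₀.ne'] at hq4
  linarith


theorem stei_ball : STEI (Metric.closedBall (0 : E3) 1) 4 (2 * π) := by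
  have hv : ∀ r : ℝ, 0 ≤ r → (volume (Metric.closedBall (0 : E3) r)).toReal = 4 / 3 * π * r ^ 3 := by
    intro r hr
    have h := EuclideanSpace.volume_closedBall_fin_three (0 : EuclideanSpace ℝ (Fin 3)) r
    rw [h, ENNReal.toReal_mul, ENNReal.toReal_pow, ENNReal.toReal_ofReal hr,
      ENNReal.toReal_ofReal (by positivity)]
    ring
  intro t ht
  rw [closedBall_add_closedBall zero_le_one ht, add_zero, hv _ (by linarith), hv 1 zero_le_one]
  ring

end AVHM

open AVHM in
theorem specAVH (hGDL : SpecGDL) (hSG3 : SpecSG3) (hPST : SpecPST) (hAVG : SpecAVG)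
    (hMEA : SpecMEA) : SpecAVH := by
  intro μ hμ x
  obtain ⟨c₀, h1, h2⟩ := c0_half hGDL hSG3 hPST hAVG hMEA μ hμ (Metric.closedBall (0 : E3) 1)
    ⟨convex_closedBall _ _, isCompact_closedBall _ _, ⟨0, by simp⟩⟩
    (by
      refine ⟨0, ?_⟩
      rw [interior_closedBall _ one_ne_zero]
      exact Metric.mem_ball_self one_pos) 4 (2 * π) stei_ball
  rw [h1 x, h2]
  ring

end Pool.Agent.Lib.MP_084b88_gt.CW
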