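import Pool.Agent.Lib.MP_084b88_gt.CW.SpecA

/-!
# MP_084b88_gt, project CW: GDL (the derivative lemma)
-/

set_option autoImplicit false

open MeasureTheory Set Real Filter Topology
open scoped Pointwise InnerProductSpace

namespace Pool.Agent.Lib.MP_084b88_gt.CW

section GDLaux

variable {V : Type} [NormedAddCommGroup V] [InnerProductSpace ℝ V]

theorem gdl_cc_seg (w : V) : CC (segment ℝ (-w) w) := by
  refine ⟨convex_segment _ _, ?_, ⟨w, right_mem_segment ℝ _ _⟩⟩
  rw [← convexHull_pair]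
  exact Set.Finite.isCompact_convexHull ℝ (Set.toFinite _)

theorem gdl_cc_add {M N : Set V} (hM : CC M) (hN : CC N) : CC (M + N) :=
  ⟨hM.1.add hN.1, hM.2.1.add hN.2.1, hM.2.2.add hN.2.2⟩

theorem gdl_cc_ball [FiniteDimensional ℝ V] {r : ℝ} (hr : 0 ≤ r) :
    CC (Metric.closedBall (0 : V) r) := by
  have : ProperSpace V := FiniteDimensional.proper ℝ V
  exact ⟨convex_closedBall _ _, isCompact_closedBall _ _, ⟨0, by simpa using hr⟩⟩

/-- The sets `N_k`. -/
noncomputable def gdlN {Ω : Type} (v : Ω → V) (M : Set V) (a : ℕ → ℝ) (w : ℕ → Ω) (t : ℝ) :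
    ℕ → Set V
  | 0 => M
  | (k + 1) => gdlN v M a w t k + segment ℝ (-((t * a k) • v (w k))) ((t * a k) • v (w k))

theorem gdlN_cc {Ω : Type} (v : Ω → V) (M : Set V) (a : ℕ → ℝ) (w : ℕ → Ω) (t : ℝ) (hM : CC M)
    (k : ℕ) : CC (gdlN v M a w t k) := by
  induction k with
  | zero => exact hM
  | succ k ih => exact gdl_cc_add ih (gdl_cc_seg _)

theorem gdlN_mono_succ {Ω : Type} (v : Ω → V) (M : Set V) (a : ℕ → ℝ) (w : ℕ → Ω) (t : ℝ)
    (k : ℕ) : gdlN v M a w t k ⊆ gdlN v M a w t (k + 1) := by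
  intro x hx
  have h0 : (0 : V) ∈ segment ℝ (-((t * a k) • v (w k))) ((t * a k) • v (w k)) := by
    refine ⟨1 / 2, 1 / 2, by norm_num, by norm_num, by norm_num, ?_⟩
    rw [smul_neg, neg_add_cancel]
  exact ⟨x, hx, 0, h0, add_zero x⟩

theorem gdlN_mono {Ω : Type} (v : Ω → V) (M : Set V) (a : ℕ → ℝ) (w : ℕ → Ω) (t : ℝ) :
    Monotone (gdlN v M a w t) :=
  monotone_nat_of_le_succ (gdlN_mono_succ v M a w t)

theorem gdlN_HS [FiniteDimensional ℝ V] (hHSB : SpecHSB) {Ω : Type} (v : Ω → V) (M : Set V)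
    (a : ℕ → ℝ) (w : ℕ → Ω) (t : ℝ) (ht : 0 ≤ t) (ha : ∀ k, 0 ≤ a k) (hM : CC M) (k : ℕ) (x : V) :
    HS (gdlN v M a w t k) x = HS M x + t * ∑ i ∈ Finset.range k, a i * |⟪v (w i), x⟫_ℝ| := by
  obtain ⟨h1, _, h3, _⟩ := hHSB V
  induction k with
  | zero => simp [gdlN]
  | succ k ih =>
    have e : gdlN v M a w t (k + 1) =
      gdlN v M a w t k + segment ℝ (-((t * a k) • v (w k))) ((t * a k) • v (w k)) := rfl
    rw [e, h1 _ _ (gdlN_cc v M a w t hM k) (gdl_cc_seg _), ih, h3, Finset.sum_range_succ,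
      inner_smul_right, abs_mul, abs_of_nonneg (mul_nonneg ht (ha k)), real_inner_comm]
    ring

theorem gdlN_vol {Ω : Type} [MeasurableSpace V] (vol : Measure V) (v : Ω → V) (d : Ω → Set V → ℝ)
    (M : Set V) (a : ℕ → ℝ) (w : ℕ → Ω) (t : ℝ) (ht : 0 ≤ t) (ha : ∀ k, 0 ≤ a k) (hM : CC M)
    (hvol : ∀ (ω : Ω) (N : Set V) (c : ℝ), CC N → 0 ≤ c →
      (vol (N + segment ℝ (-(c • v ω)) (c • v ω))).toReal = (vol N).toReal + c * d ω N) (k : ℕ) :
    (vol (gdlN v M a w t k)).toReal =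
      (vol M).toReal + t * ∑ i ∈ Finset.range k, a i * d (w i) (gdlN v M a w t i) := by
  induction k with
  | zero => simp [gdlN]
  | succ k ih =>
    have e : gdlN v M a w t (k + 1) =
      gdlN v M a w t k + segment ℝ (-((t * a k) • v (w k))) ((t * a k) • v (w k)) := rfl
    rw [e, hvol _ _ _ (gdlN_cc v M a w t hM k) (mul_nonneg ht (ha k)), ih, Finset.sum_range_succ]
    ring

end GDLaux

theorem specGDL (hHSB : SpecHSB) (hAPX : SpecAPX) : SpecGDL := by
  intro V _ _ _ _ _ vol _ Ω _ μ _ v d M C hv hvC hint hM hvol hmono htend hmeas hdC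
  obtain ⟨h1, h2, h3, h4, _⟩ := hHSB V
  obtain ⟨ω0⟩ : Nonempty Ω := nonempty_of_isProbabilityMeasure μ
  set L : ℝ := ∫ ω, d ω M ∂μ with hL
  -- the finite approximations, indexed by `ℕ`
  have key : ∀ ε : ℝ, 0 < ε → ∃ (n : ℕ) (a : ℕ → ℝ) (w : ℕ → Ω), (∀ i, 0 ≤ a i) ∧
      (∀ x : V, |∑ i ∈ Finset.range n, a i * |⟪v (w i), x⟫_ℝ| - ‖x‖| ≤ ε * ‖x‖) ∧
      |∑ i ∈ Finset.range n, a i * d (w i) M - L| ≤ ε := by
    intro ε hε
    obtain ⟨n, a, w, ha, hx, hd⟩ := hAPX V Ω μ v (fun ω => d ω M) C hv hmeas hvC hdC hint ε hε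
    refine ⟨n, fun k => if h : k < n then a ⟨k, h⟩ else 0,
      fun k => if h : k < n then w ⟨k, h⟩ else ω0, ?_, ?_, ?_⟩
    · intro i
      dsimp only
      split_ifs with h
      · exact ha _
      · exact le_rfl
    · intro x
      rw [← Fin.sum_univ_eq_sum_range (fun i => (if h : i < n then a ⟨i, h⟩ else 0) *
        |⟪v (if h : i < n then w ⟨i, h⟩ else ω0), x⟫_ℝ|)]
      simpa using hx x
    · rw [← Fin.sum_univ_eq_sum_range (fun i => (if h : i < n then a ⟨i, h⟩ else 0) *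
        d (if h : i < n then w ⟨i, h⟩ else ω0) M)]
      simpa using hd
  -- volume is monotone
  have volmono : ∀ N N' : Set V, CC N' → N ⊆ N' → (vol N).toReal ≤ (vol N').toReal := by
    intro N N' hN' h
    exact ENNReal.toReal_mono hN'.2.1.measure_lt_top.ne (measure_mono h)
  have ballcc : ∀ s : ℝ, 0 ≤ s → CC (M + Metric.closedBall (0 : V) s) :=
    fun s hs => gdl_cc_add hM (gdl_cc_ball hs)
  -- the two inclusions
  have incl : ∀ (ε : ℝ) (n : ℕ) (a : ℕ → ℝ) (w : ℕ → Ω), 0 < ε → ε < 1 → (∀ i, 0 ≤ a i) →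
      (∀ x : V, |∑ i ∈ Finset.range n, a i * |⟪v (w i), x⟫_ℝ| - ‖x‖| ≤ ε * ‖x‖) →
      ∀ t : ℝ, 0 ≤ t →
        M + Metric.closedBall (0 : V) ((1 - ε) * t) ⊆ gdlN v M a w t n ∧
        gdlN v M a w t n ⊆ M + Metric.closedBall (0 : V) ((1 + ε) * t) := by
    intro ε n a w hε hε1 ha hx t ht
    have hr1 : 0 ≤ (1 - ε) * t := mul_nonneg (by linarith) ht
    have hr2 : 0 ≤ (1 + ε) * t := mul_nonneg (by linarith) ht
    constructor
    · refine h4 _ _ (ballcc _ hr1) (gdlN_cc v M a w t hM n) ?_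
      intro x
      rw [h1 _ _ hM (gdl_cc_ball hr1), h2 _ hr1, gdlN_HS hHSB v M a w t ht ha hM]
      have := (abs_le.1 (hx x)).1
      nlinarith
    · refine h4 _ _ (gdlN_cc v M a w t hM n) (ballcc _ hr2) ?_
      intro x
      rw [h1 _ _ hM (gdl_cc_ball hr2), h2 _ hr2, gdlN_HS hHSB v M a w t ht ha hM]
      have := (abs_le.1 (hx x)).2
      nlinarith
  -- lower bound
  have lower : ∀ ε : ℝ, 0 < ε → ε < 1 → ∀ s : ℝ, 0 < s →
      (L - ε) / (1 + ε) ≤
        ((vol (M + Metric.closedBall (0 : V) s)).toReal - (vol M).toReal) / s := by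
    intro ε hε hε1 s hs
    obtain ⟨n, a, w, ha, hx, hd⟩ := key ε hε
    have h1ε : 0 < 1 + ε := by linarith
    set t : ℝ := s / (1 + ε) with ht
    have ht0 : 0 ≤ t := (div_pos hs h1ε).le
    have hst : (1 + ε) * t = s := by rw [ht]; field_simp
    have hin := (incl ε n a w hε hε1 ha hx t ht0).2
    rw [hst] at hin
    have hv1 := volmono _ _ (ballcc s hs.le) hin
    rw [gdlN_vol vol v d M a w t ht0 ha hM hvol n] at hv1
    have hv2 : ∑ i ∈ Finset.range n, a i * d (w i) M ≤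
        ∑ i ∈ Finset.range n, a i * d (w i) (gdlN v M a w t i) := by
      refine Finset.sum_le_sum (fun i _ => mul_le_mul_of_nonneg_left ?_ (ha i))
      exact hmono _ _ _ hM (gdlN_cc v M a w t hM i) (gdlN_mono v M a w t (Nat.zero_le i))
    have hv3 := (abs_le.1 hd).1
    rw [div_le_div_iff₀ h1ε hs]
    have hv4 : t * (L - ε) ≤
        (vol (M + Metric.closedBall (0 : V) s)).toReal - (vol M).toReal := by
      have : t * (L - ε) ≤ t * ∑ i ∈ Finset.range n, a i * d (w i) (gdlN v M a w t i) :=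
        mul_le_mul_of_nonneg_left (by linarith) ht0
      linarith
    calc (L - ε) * s = (t * (L - ε)) * (1 + ε) := by rw [← hst]; ring
      _ ≤ _ := mul_le_mul_of_nonneg_right hv4 h1ε.le
  -- upper bound
  have upper : ∀ ε : ℝ, 0 < ε → ε < 1 → ∀ b : ℝ, (L + ε) / (1 - ε) < b →
      ∀ᶠ s in 𝓝[>] (0 : ℝ),
        ((vol (M + Metric.closedBall (0 : V) s)).toReal - (vol M).toReal) / s < b := by
    intro ε hε hε1 b hb
    obtain ⟨n, a, w, ha, hx, hd⟩ := key ε hε
    have h1ε : 0 < 1 - ε := by linarith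
    -- the bound
    have hbound : ∀ s : ℝ, 0 < s →
        ((vol (M + Metric.closedBall (0 : V) s)).toReal - (vol M).toReal) / s ≤
          1 / (1 - ε) * ∑ i ∈ Finset.range n, a i *
            d (w i) (M + Metric.closedBall (0 : V) ((1 + ε) / (1 - ε) * s)) := by
      intro s hs
      set t : ℝ := s / (1 - ε) with ht
      have ht0 : 0 ≤ t := (div_pos hs h1ε).le
      have hst : (1 - ε) * t = s := by rw [ht]; field_simp
      have hst2 : (1 + ε) * t = (1 + ε) / (1 - ε) * s := by rw [ht]; ring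
      obtain ⟨hin1, hin2⟩ := incl ε n a w hε hε1 ha hx t ht0
      rw [hst] at hin1
      rw [hst2] at hin2
      have hv1 := volmono _ _ (gdlN_cc v M a w t hM n) hin1
      rw [gdlN_vol vol v d M a w t ht0 ha hM hvol n] at hv1
      have hr : 0 ≤ (1 + ε) / (1 - ε) * s :=
        mul_nonneg (div_nonneg (by linarith) h1ε.le) hs.le
      have hv2 : ∑ i ∈ Finset.range n, a i * d (w i) (gdlN v M a w t i) ≤
          ∑ i ∈ Finset.range n, a i *
            d (w i) (M + Metric.closedBall (0 : V) ((1 + ε) / (1 - ε) * s)) := by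
        refine Finset.sum_le_sum (fun i hi => mul_le_mul_of_nonneg_left ?_ (ha i))
        refine hmono _ _ _ (gdlN_cc v M a w t hM i) (ballcc _ hr) ?_
        exact (gdlN_mono v M a w t (Finset.mem_range.1 hi).le).trans hin2
      rw [div_le_iff₀ hs]
      have h5 : t * ∑ i ∈ Finset.range n, a i * d (w i) (gdlN v M a w t i) ≤
          t * ∑ i ∈ Finset.range n, a i *
            d (w i) (M + Metric.closedBall (0 : V) ((1 + ε) / (1 - ε) * s)) :=
        mul_le_mul_of_nonneg_left hv2 ht0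
      have h6 : 1 / (1 - ε) * (∑ i ∈ Finset.range n, a i *
            d (w i) (M + Metric.closedBall (0 : V) ((1 + ε) / (1 - ε) * s))) * s =
          t * ∑ i ∈ Finset.range n, a i *
            d (w i) (M + Metric.closedBall (0 : V) ((1 + ε) / (1 - ε) * s)) := by
        rw [ht]; ring
      rw [h6]
      linarith
    -- the limit of the bound
    have hlim : Tendsto (fun s : ℝ => 1 / (1 - ε) * ∑ i ∈ Finset.range n, a i *
            d (w i) (M + Metric.closedBall (0 : V) ((1 + ε) / (1 - ε) * s))) (𝓝[>] 0)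
          (𝓝 (1 / (1 - ε) * ∑ i ∈ Finset.range n, a i * d (w i) M)) := by
      refine Tendsto.const_mul _ (tendsto_finsetSum _ (fun i _ => Tendsto.const_mul _ ?_))
      refine (htend (w i)).comp ?_
      have hc : 0 < (1 + ε) / (1 - ε) := div_pos (by linarith) h1ε
      refine tendsto_nhdsWithin_iff.2 ⟨?_, ?_⟩
      · have : Tendsto (fun s : ℝ => (1 + ε) / (1 - ε) * s) (𝓝 0) (𝓝 ((1 + ε) / (1 - ε) * 0)) :=
          (continuous_const.mul continuous_id).tendsto 0
        rw [mul_zero] at this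
        exact this.mono_left nhdsWithin_le_nhds
      · filter_upwards [self_mem_nhdsWithin] with s hs
        exact mul_pos hc hs
    have hlt : 1 / (1 - ε) * ∑ i ∈ Finset.range n, a i * d (w i) M < b := by
      refine lt_of_le_of_lt ?_ hb
      rw [div_eq_mul_one_div (L + ε), mul_comm (L + ε)]
      refine mul_le_mul_of_nonneg_left ?_ (by positivity)
      linarith [(abs_le.1 hd).2]
    filter_upwards [hlim.eventually_lt_const hlt, self_mem_nhdsWithin] with s hs hs0
    exact lt_of_le_of_lt (hbound s hs0) hs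
  -- conclusion
  rw [tendsto_order]
  constructor
  · intro a ha
    -- choose `ε`
    have hcont : Tendsto (fun ε : ℝ => (L - ε) / (1 + ε)) (𝓝[>] 0) (𝓝 ((L - 0) / (1 + 0))) := by
      have : ContinuousAt (fun ε : ℝ => (L - ε) / (1 + ε)) 0 := by
        apply ContinuousAt.div (by fun_prop) (by fun_prop)
        norm_num
      exact this.tendsto.mono_left nhdsWithin_le_nhds
    rw [sub_zero, add_zero, div_one] at hcont
    have hlt1 : ∀ᶠ ε : ℝ in 𝓝[>] 0, ε < 1 := by
      have : ∀ᶠ ε : ℝ in 𝓝 0, ε < 1 := gt_mem_nhds one_pos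
      exact this.filter_mono nhdsWithin_le_nhds
    obtain ⟨ε, ⟨he1, he2⟩, he3⟩ :=
      ((hcont.eventually_const_lt ha).and hlt1 |>.and self_mem_nhdsWithin).exists
    filter_upwards [self_mem_nhdsWithin] with s hs
    exact lt_of_lt_of_le he1 (lower ε he3 he2 s hs)
  · intro b hb
    have hcont : Tendsto (fun ε : ℝ => (L + ε) / (1 - ε)) (𝓝[>] 0) (𝓝 ((L + 0) / (1 - 0))) := by
      have : ContinuousAt (fun ε : ℝ => (L + ε) / (1 - ε)) 0 := by
        apply ContinuousAt.div (by fun_prop) (by fun_prop)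
        norm_num
      exact this.tendsto.mono_left nhdsWithin_le_nhds
    rw [add_zero, sub_zero, div_one] at hcont
    have hlt1 : ∀ᶠ ε : ℝ in 𝓝[>] 0, ε < 1 := by
      have : ∀ᶠ ε : ℝ in 𝓝 0, ε < 1 := gt_mem_nhds one_pos
      exact this.filter_mono nhdsWithin_le_nhds
    obtain ⟨ε, ⟨he1, he2⟩, he3⟩ :=
      ((hcont.eventually_lt_const hb).and hlt1 |>.and self_mem_nhdsWithin).exists
    exact upper ε he3 he2 b he1

end Pool.Agent.Lib.MP_084b88_gt.CW
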