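import Pool.Agent.Lib.MP_084b88_gt.CW.SpecM
import Pool.Agent.Lib.MP_084b88_gt.CW.GDL
import Pool.Agent.Lib.MP_084b88_gt.CW.CAU

/-!
# MP_084b88_gt, project CW, module MIX: comparison of averages of projection areas
-/

set_option autoImplicit false

open MeasureTheory Set Real Filter Topology
open scoped Pointwise InnerProductSpace

namespace Pool.Agent.Lib.MP_084b88_gt.CW

namespace MIXM

/-- approximation of a probability measure by finite sums (copy of APX, general support function) -/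
theorem apg {Ω : Type} [MeasurableSpace Ω] (μ : Measure Ω) [IsProbabilityMeasure μ]
    (v : Ω → E3) (d : Ω → ℝ) (C : ℝ) (hv : Measurable v) (hd : Measurable d)
    (hvC : ∀ ω, ‖v ω‖ ≤ C) (hdC : ∀ ω, |d ω| ≤ C) (ε : ℝ) (hε : 0 < ε) :
    ∃ (n : ℕ) (a : Fin n → ℝ) (w : Fin n → Ω), (∀ i, 0 ≤ a i) ∧
      (∀ x : E3, |∑ i, a i * |⟪v (w i), x⟫_ℝ| - ∫ ω, |⟪v ω, x⟫_ℝ| ∂μ| ≤ ε * ‖x‖) ∧
      |∑ i, a i * d (w i) - ∫ ω, d ω ∂μ| ≤ ε := by
  have : ProperSpace E3 := FiniteDimensional.proper ℝ E3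
  have : SecondCountableTopology E3 := inferInstance
  let S : Set E3 := Metric.sphere (0 : E3) 1
  have : CompactSpace S := isCompact_iff_compactSpace.1 (isCompact_sphere 0 1)
  let G : C(E3 × S, ℝ) := ⟨fun p => |⟪p.1, (p.2 : E3)⟫_ℝ|, by fun_prop⟩
  let g : C(E3, C(S, ℝ)) := G.curry
  have hg : ∀ (w : E3) (x : S), g w x = |⟪w, (x : E3)⟫_ℝ| := fun w x => rfl
  let f : Ω → C(S, ℝ) × ℝ := fun ω => (g (v ω), d ω)
  have hfm : StronglyMeasurable f :=
    (g.continuous.comp_stronglyMeasurable hv.stronglyMeasurable).prodMk hd.stronglyMeasurable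
  have hC : 0 ≤ C := by
    obtain ⟨ω⟩ : Nonempty Ω := nonempty_of_isProbabilityMeasure μ
    exact (norm_nonneg _).trans (hvC ω)
  have hfi : Integrable f μ := by
    refine Integrable.of_bound hfm.aestronglyMeasurable C (Eventually.of_forall ?_)
    intro ω
    rw [Prod.norm_def]
    refine max_le ?_ ?_
    · rw [ContinuousMap.norm_le _ hC]
      intro x
      have hx : ‖(x : E3)‖ = 1 := by simp
      change ‖(g (v ω)) x‖ ≤ C
      rw [hg, Real.norm_eq_abs, abs_abs]
      calc |⟪v ω, (x : E3)⟫_ℝ| ≤ ‖v ω‖ * ‖(x : E3)‖ := abs_real_inner_le_norm _ _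
        _ ≤ C := by rw [hx, mul_one]; exact hvC ω
    · exact hdC ω
  have hmem : (∫ ω, f ω ∂μ) ∈ closure (convexHull ℝ (range f)) := by
    refine (convex_convexHull ℝ _).closure.integral_mem isClosed_closure ?_ hfi
    exact Eventually.of_forall (fun ω => subset_closure (subset_convexHull ℝ _ ⟨ω, rfl⟩))
  obtain ⟨b, hb, hbd⟩ := Metric.mem_closure_iff.1 hmem ε hε
  rw [mem_convexHull_iff_exists_fintype] at hb
  obtain ⟨ι, _, a, z, ha, hsum, hz, hzb⟩ := hb
  choose w hw using hz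
  let e := Fintype.equivFin ι
  refine ⟨Fintype.card ι, fun i => a (e.symm i), fun i => w (e.symm i), fun i => ha _, ?_, ?_⟩
  · have hS : ∀ x : S, |∑ i, a i * |⟪v (w i), (x : E3)⟫_ℝ| - ∫ ω, |⟪v ω, (x : E3)⟫_ℝ| ∂μ| ≤ ε := by
      intro x
      have h1 : ‖((∫ ω, f ω ∂μ).1 - b.1) x‖ ≤ ε := by
        refine (ContinuousMap.norm_coe_le_norm _ x).trans ?_
        rw [dist_eq_norm, Prod.norm_def] at hbd
        exact (le_max_left _ _).trans hbd.le
      have h2 : (∫ ω, f ω ∂μ).1 x = ∫ ω, |⟪v ω, (x : E3)⟫_ℝ| ∂μ := by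
        rw [fst_integral hfi, ContinuousMap.integral_apply hfi.fst]
        rfl
      have h3 : b.1 x = ∑ i, a i * |⟪v (w i), (x : E3)⟫_ℝ| := by
        rw [← hzb, Prod.fst_sum, ContinuousMap.sum_apply]
        refine Finset.sum_congr rfl (fun i _ => ?_)
        rw [← hw i]
        rfl
      rw [ContinuousMap.sub_apply, h2, h3, Real.norm_eq_abs, abs_sub_comm] at h1
      exact h1
    intro x
    have hre : (∑ i, a (e.symm i) * |⟪v (w (e.symm i)), x⟫_ℝ|) = ∑ i, a i * |⟪v (w i), x⟫_ℝ| :=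
      Equiv.sum_comp e.symm (fun i => a i * |⟪v (w i), x⟫_ℝ|)
    rw [hre]
    by_cases hx0 : x = 0
    · subst hx0; simp
    · have hn : 0 < ‖x‖ := norm_pos_iff.2 hx0
      have hmS : (‖x‖⁻¹ • x) ∈ S := by
        simp [S, norm_smul, inv_mul_cancel₀ hn.ne']
      have h := hS ⟨_, hmS⟩
      have hx1 : ∀ y : E3, |⟪y, x⟫_ℝ| = ‖x‖ * |⟪y, ‖x‖⁻¹ • x⟫_ℝ| := by
        intro y
        rw [inner_smul_right, abs_mul, abs_of_pos (inv_pos.2 hn), ← mul_assoc,
          mul_inv_cancel₀ hn.ne', one_mul]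
      have h4 : (∑ i, a i * |⟪v (w i), x⟫_ℝ|) - ∫ ω, |⟪v ω, x⟫_ℝ| ∂μ =
          ‖x‖ * ((∑ i, a i * |⟪v (w i), ‖x‖⁻¹ • x⟫_ℝ|) - ∫ ω, |⟪v ω, ‖x‖⁻¹ • x⟫_ℝ| ∂μ) := by
        rw [mul_sub, Finset.mul_sum, ← integral_const_mul]
        congr 1
        · refine Finset.sum_congr rfl (fun i _ => ?_)
          rw [hx1 (v (w i))]; ring
        · congr 1
          funext ω
          exact hx1 (v ω)
      rw [h4, abs_mul, abs_of_pos hn, mul_comm]
      exact mul_le_mul_of_nonneg_right h hn.le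
  · have hre : (∑ i, a (e.symm i) * d (w (e.symm i))) = ∑ i, a i * d (w i) :=
      Equiv.sum_comp e.symm (fun i => a i * d (w i))
    rw [hre]
    have h1 : ‖(∫ ω, f ω ∂μ).2 - b.2‖ ≤ ε := by
      rw [dist_eq_norm, Prod.norm_def] at hbd
      exact (le_max_right _ _).trans hbd.le
    have h2 : (∫ ω, f ω ∂μ).2 = ∫ ω, d ω ∂μ := by
      rw [snd_integral hfi]
    have h3 : b.2 = ∑ i, a i * d (w i) := by
      rw [← hzb, Prod.snd_sum]
      refine Finset.sum_congr rfl (fun i _ => ?_)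
      rw [← hw i]
      rfl
    rw [h2, h3, Real.norm_eq_abs, abs_sub_comm] at h1
    exact h1

/-- the same for a finite measure on `O3`, sums indexed by `ℕ` -/
theorem apf (ρ : Measure O3) [IsFiniteMeasure ρ] (d : O3 → ℝ) (C : ℝ) (hd : Measurable d)
    (hdC : ∀ R, |d R| ≤ C) (ε : ℝ) (hε : 0 < ε) :
    ∃ (n : ℕ) (a : ℕ → ℝ) (w : ℕ → O3), (∀ i, 0 ≤ a i) ∧
      (∀ x : E3, |∑ i ∈ Finset.range n, a i * |⟪col (w i) 2, x⟫_ℝ| -
        ∫ R, |⟪col R 2, x⟫_ℝ| ∂ρ| ≤ ε * ‖x‖) ∧
      |∑ i ∈ Finset.range n, a i * d (w i) - ∫ R, d R ∂ρ| ≤ ε := by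
  by_cases h0 : ρ = 0
  · refine ⟨0, fun _ => 0, fun _ => 1, fun _ => le_rfl, ?_, ?_⟩
    · intro x
      rw [h0]
      simp only [Finset.range_zero, Finset.sum_empty, integral_zero_measure, sub_self, abs_zero]
      positivity
    · rw [h0]
      simp only [Finset.range_zero, Finset.sum_empty, integral_zero_measure, sub_self, abs_zero]
      exact hε.le
  have hne : NeZero ρ := ⟨h0⟩
  set m : ℝ := (ρ univ).toReal with hm
  have hmpos : 0 < m := ENNReal.toReal_pos (NeZero.ne (ρ univ)) (measure_ne_top ρ univ)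
  set μ' : Measure O3 := (ρ univ)⁻¹ • ρ with hμ'
  have hprob : IsProbabilityMeasure μ' := isProbabilityMeasureSMul
  have hint : ∀ f : O3 → ℝ, ∫ R, f R ∂ρ = m * ∫ R, f R ∂μ' := by
    intro f
    rw [hμ', integral_smul_measure, ENNReal.toReal_inv, smul_eq_mul, ← mul_assoc,
      mul_inv_cancel₀ hmpos.ne', one_mul]
  obtain ⟨n, a, w, ha, hx, hdd⟩ := apg μ' (fun R : O3 => col R 2) d (max C 1)
    (continuous_col 2).measurable hd
    (fun R => by rw [norm_col]; exact le_max_right _ _) (fun R => (hdC R).trans (le_max_left _ _))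
    (ε / m) (div_pos hε hmpos)
  refine ⟨n, fun k => if h : k < n then m * a ⟨k, h⟩ else 0,
      fun k => if h : k < n then w ⟨k, h⟩ else 1, ?_, ?_, ?_⟩
  · intro i
    dsimp only
    split_ifs with h
    · exact mul_nonneg hmpos.le (ha _)
    · exact le_rfl
  · intro x
    rw [← Fin.sum_univ_eq_sum_range (fun i => (if h : i < n then m * a ⟨i, h⟩ else 0) *
      |⟪col (if h : i < n then w ⟨i, h⟩ else 1) 2, x⟫_ℝ|), hint]
    have h1 := hx x
    have h2 : ∑ i : Fin n, (if h : (i : ℕ) < n then m * a ⟨i, h⟩ else 0) *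
        |⟪col (if h : (i : ℕ) < n then w ⟨i, h⟩ else 1) 2, x⟫_ℝ| =
        m * ∑ i : Fin n, a i * |⟪col (w i) 2, x⟫_ℝ| := by
      rw [Finset.mul_sum]
      refine Finset.sum_congr rfl (fun i _ => ?_)
      simp only [Fin.is_lt, dite_true, Fin.eta]
      ring
    rw [h2, ← mul_sub, abs_mul, abs_of_pos hmpos]
    calc m * _ ≤ m * (ε / m * ‖x‖) := mul_le_mul_of_nonneg_left h1 hmpos.le
      _ = ε * ‖x‖ := by field_simp
  · rw [← Fin.sum_univ_eq_sum_range (fun i => (if h : i < n then m * a ⟨i, h⟩ else 0) *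
      d (if h : i < n then w ⟨i, h⟩ else 1)), hint]
    have h2 : ∑ i : Fin n, (if h : (i : ℕ) < n then m * a ⟨i, h⟩ else 0) *
        d (if h : (i : ℕ) < n then w ⟨i, h⟩ else 1) =
        m * ∑ i : Fin n, a i * d (w i) := by
      rw [Finset.mul_sum]
      refine Finset.sum_congr rfl (fun i _ => ?_)
      simp only [Fin.is_lt, dite_true, Fin.eta]
      ring
    rw [h2, ← mul_sub, abs_mul, abs_of_pos hmpos]
    calc m * _ ≤ m * (ε / m) := mul_le_mul_of_nonneg_left hdd hmpos.le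
      _ = ε := by field_simp

theorem cc_pr (R : O3) {N : Set E3} (hN : CC N) : CC (pr R N) :=
  ⟨hN.1.is_linear_image ⟨cd_add R, cd_smul R⟩, hN.2.1.image (continuous_cd_right R),
    hN.2.2.image _⟩

end MIXM

open MIXM CAUM in
theorem specMIX (hHSB : SpecHSB) (hSG3 : SpecSG3) (hPST : SpecPST) (hAVG : SpecAVG)
    (hHAA : SpecHAA) (hMEA : SpecMEA) : SpecMIX := by
  intro K hK hKi ρ1 ρ2 hf1 hf2 hle
  obtain ⟨μ, hμ⟩ := hHAA
  have : IsProbabilityMeasure μ := hμ.1
  obtain ⟨c0, hc0, hc0x⟩ := hAVG μ hμ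
  obtain ⟨hCC, hAm, ⟨CA, hCA⟩, -⟩ := hMEA K hK hKi
  obtain ⟨h1, h2, h3, h4, -⟩ := hHSB E3
  set A : O3 → ℝ := fun R => area (pr R K) with hA
  have hA0 : ∀ R, 0 ≤ A R := fun R => area_nonneg _
  have hAb : ∀ R, |A R| ≤ CA := fun R => by rw [abs_of_nonneg (hA0 R)]; exact hCA R
  have hAi : ∀ (ρ : Measure O3) [IsFiniteMeasure ρ], Integrable A ρ := fun ρ _ =>
    Integrable.of_bound hAm.aestronglyMeasurable CA (Eventually.of_forall hAb)
  set L0 : ℝ := ∫ R, A R ∂μ with hL0
  have hL0nn : 0 ≤ L0 := integral_nonneg hA0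
  set L1 : ℝ := ∫ R, A R ∂ρ1 with hL1
  set L2 : ℝ := ∫ R, A R ∂ρ2 with hL2
  -- main estimate
  have key : ∀ η ε : ℝ, 0 < η → 0 < ε → 2 * ε ≤ η * c0 → L1 ≤ L2 + η * L0 + 2 * ε := by
    intro η ε hη hε hεη
    set ρ3 : Measure O3 := ρ2 + (ENNReal.ofReal η) • μ with hρ3
    have hfin3 : IsFiniteMeasure ρ3 := by
      have : IsFiniteMeasure ((ENNReal.ofReal η) • μ) := by
        constructor
        rw [Measure.smul_apply, measure_univ, smul_eq_mul, mul_one]
        exact ENNReal.ofReal_lt_top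
      rw [hρ3]; infer_instance
    have hint3 : ∀ f : O3 → ℝ, (∀ (ρ : Measure O3) [IsFiniteMeasure ρ], Integrable f ρ) →
        ∫ R, f R ∂ρ3 = ∫ R, f R ∂ρ2 + η * ∫ R, f R ∂μ := by
      intro f hf
      have hi : Integrable f ((ENNReal.ofReal η) • μ) := (hf μ).smul_measure ENNReal.ofReal_ne_top
      rw [hρ3, integral_add_measure (hf ρ2) hi, integral_smul_measure,
        ENNReal.toReal_ofReal hη.le, smul_eq_mul]
    obtain ⟨n, a, w, ha, hax, had⟩ := apf ρ1 A CA hAm hAb ε hε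
    obtain ⟨n', a', w', ha', hax', had'⟩ := apf ρ3 A CA hAm hAb ε hε
    have hF3 : ∀ x : E3, ∫ R, |⟪col R 2, x⟫_ℝ| ∂ρ3 =
        ∫ R, |⟪col R 2, x⟫_ℝ| ∂ρ2 + η * (c0 * ‖x‖) := by
      intro x
      rw [hint3, hc0x x]
      intro ρ hρ
      have hc : Continuous (fun R : O3 => |⟪col R 2, x⟫_ℝ|) :=
        ((continuous_col 2).inner continuous_const).abs
      exact Integrable.of_bound hc.aestronglyMeasurable ‖x‖ (Eventually.of_forall (fun R => by
        rw [Real.norm_eq_abs, abs_abs]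
        refine (abs_real_inner_le_norm _ _).trans ?_
        rw [norm_col, one_mul]))
    have hL3 : ∫ R, A R ∂ρ3 = L2 + η * L0 := hint3 A (fun ρ _ => hAi ρ)
    set v : O3 → E3 := fun R => col R 2 with hv
    have hvol : ∀ (R : O3) (N : Set E3) (c : ℝ), CC N → 0 ≤ c →
        ((volume : Measure E3) (N + segment ℝ (-(c • v R)) (c • v R))).toReal =
          (volume N).toReal + c * (2 * area (pr R N)) := by
      intro R N c hN hc
      have := hSG3 R N c hN hc
      rw [this]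
      ring
    obtain ⟨C', hC'⟩ : ∃ C' : ℝ, C' = ∑ i ∈ Finset.range n', a' i := ⟨_, rfl⟩
    have hC'0 : 0 ≤ C' := by rw [hC']; exact Finset.sum_nonneg (fun i _ => ha' i)
    -- for every `t > 0`
    have ht : ∀ t : ℝ, 0 < t → ∑ i ∈ Finset.range n, a i * A (w i) ≤
        ∑ i ∈ Finset.range n', a' i * (A (w' i) + 2 * len (pr (w' i) K) * (t * C') +
          π * (t * C') ^ 2) := by
      intro t ht
      have hN := gdlN_cc v K a w t hK
      have hN' := gdlN_cc v K a' w' t hK
      have hsub : gdlN v K a w t n ⊆ gdlN v K a' w' t n' := by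
        refine h4 _ _ (hN n) (hN' n') ?_
        intro x
        rw [gdlN_HS hHSB v K a w t ht.le ha hK, gdlN_HS hHSB v K a' w' t ht.le ha' hK]
        have e1 := (abs_le.1 (hax x)).2
        have e2 := (abs_le.1 (hax' x)).1
        rw [hF3 x] at e2
        have e3 := hle x
        have e4 : 2 * ε * ‖x‖ ≤ η * c0 * ‖x‖ := mul_le_mul_of_nonneg_right hεη (norm_nonneg _)
        have e5 : ∑ i ∈ Finset.range n, a i * |⟪v (w i), x⟫_ℝ| ≤
            ∑ i ∈ Finset.range n', a' i * |⟪v (w' i), x⟫_ℝ| := by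
          simp only [hv]
          linarith
        have e6 := mul_le_mul_of_nonneg_left e5 ht.le
        linarith
      have hv1 : (volume (gdlN v K a w t n)).toReal ≤ (volume (gdlN v K a' w' t n')).toReal :=
        ENNReal.toReal_mono (hN' n').2.1.measure_lt_top.ne (measure_mono hsub)
      rw [gdlN_vol volume v (fun R N => 2 * area (pr R N)) K a w t ht.le ha hK hvol n,
        gdlN_vol volume v (fun R N => 2 * area (pr R N)) K a' w' t ht.le ha' hK hvol n'] at hv1
      have hv2 : ∑ i ∈ Finset.range n, a i * (2 * A (w i)) ≤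
          ∑ i ∈ Finset.range n, a i * (2 * area (pr (w i) (gdlN v K a w t i))) := by
        refine Finset.sum_le_sum (fun i _ => mul_le_mul_of_nonneg_left ?_ (ha i))
        have := area_mono (cc_pr (w i) (hN i)) (image_mono (f := cd (w i))
          (gdlN_mono v K a w t (Nat.zero_le i)))
        exact mul_le_mul_of_nonneg_left this (by norm_num)
      have hr : 0 ≤ t * C' := mul_nonneg ht.le hC'0
      have hsub2 : gdlN v K a' w' t n' ⊆ K + Metric.closedBall (0 : E3) (t * C') := by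
        refine h4 _ _ (hN' n') (cc_add_ball hK hr) ?_
        intro x
        rw [gdlN_HS hHSB v K a' w' t ht.le ha' hK, h1 _ _ hK (gdl_cc_ball hr), h2 _ hr]
        have e1 : ∑ i ∈ Finset.range n', a' i * |⟪v (w' i), x⟫_ℝ| ≤ C' * ‖x‖ := by
          rw [hC', Finset.sum_mul]
          refine Finset.sum_le_sum (fun i _ => mul_le_mul_of_nonneg_left ?_ (ha' i))
          refine (abs_real_inner_le_norm _ _).trans ?_
          simp only [hv]
          rw [norm_col, one_mul]
        have e2 := mul_le_mul_of_nonneg_left e1 ht.le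
        linarith
      have hv3 : ∑ i ∈ Finset.range n', a' i * (2 * area (pr (w' i) (gdlN v K a' w' t i))) ≤
          ∑ i ∈ Finset.range n', a' i * (2 * (A (w' i) + 2 * len (pr (w' i) K) * (t * C') +
            π * (t * C') ^ 2)) := by
        refine Finset.sum_le_sum (fun i hi => mul_le_mul_of_nonneg_left ?_ (ha' i))
        have e1 := area_mono (cc_pr (w' i) (cc_add_ball hK hr)) (image_mono (f := cd (w' i))
          ((gdlN_mono v K a' w' t (Finset.mem_range.1 hi).le).trans hsub2))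
        have e2 : area (pr (w' i) (K + Metric.closedBall (0 : E3) (t * C'))) =
            A (w' i) + 2 * len (pr (w' i) K) * (t * C') + π * (t * C') ^ 2 := by
          rw [pr_add, pr_ball (w' i) hr, hPST (pr (w' i) K) _ (hCC _) hr]
        have e3 : area (pr (w' i) (gdlN v K a' w' t i)) ≤
            A (w' i) + 2 * len (pr (w' i) K) * (t * C') + π * (t * C') ^ 2 := by
          rw [← e2]; exact e1
        linarith
      have hv4 : t * (∑ i ∈ Finset.range n, a i * (2 * A (w i))) ≤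
          t * ∑ i ∈ Finset.range n', a' i * (2 * (A (w' i) + 2 * len (pr (w' i) K) * (t * C') +
            π * (t * C') ^ 2)) := by
        have e1 := mul_le_mul_of_nonneg_left hv2 ht.le
        have e2 := mul_le_mul_of_nonneg_left hv3 ht.le
        linarith
      have hv5 := le_of_mul_le_mul_left hv4 ht
      have e1 : ∑ i ∈ Finset.range n, a i * (2 * A (w i)) =
          2 * ∑ i ∈ Finset.range n, a i * A (w i) := by
        rw [Finset.mul_sum]
        exact Finset.sum_congr rfl (fun i _ => by ring)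
      have e2 : ∑ i ∈ Finset.range n', a' i * (2 * (A (w' i) + 2 * len (pr (w' i) K) * (t * C') +
            π * (t * C') ^ 2)) = 2 * ∑ i ∈ Finset.range n', a' i * (A (w' i) +
            2 * len (pr (w' i) K) * (t * C') + π * (t * C') ^ 2) := by
        rw [Finset.mul_sum]
        exact Finset.sum_congr rfl (fun i _ => by ring)
      rw [e1, e2] at hv5
      linarith
    -- let `t → 0`
    have hlim : Tendsto (fun t : ℝ => ∑ i ∈ Finset.range n', a' i * (A (w' i) +
        2 * len (pr (w' i) K) * (t * C') + π * (t * C') ^ 2)) (𝓝[>] 0)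
        (𝓝 (∑ i ∈ Finset.range n', a' i * A (w' i))) := by
      have hc : Continuous (fun t : ℝ => ∑ i ∈ Finset.range n', a' i * (A (w' i) +
        2 * len (pr (w' i) K) * (t * C') + π * (t * C') ^ 2)) := by fun_prop
      have h5 := (hc.tendsto 0).mono_left (nhdsWithin_le_nhds (s := Ioi 0))
      simpa using h5
    have hfin : ∑ i ∈ Finset.range n, a i * A (w i) ≤ ∑ i ∈ Finset.range n', a' i * A (w' i) := by
      refine ge_of_tendsto hlim ?_
      filter_upwards [self_mem_nhdsWithin] with t ht0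
      exact ht t ht0
    have e1 := (abs_le.1 had).1
    have e2 := (abs_le.1 had').2
    rw [hL3] at e2
    linarith
  -- let `ε, η → 0`
  have key2 : ∀ η : ℝ, 0 < η → L1 ≤ L2 + η * (L0 + c0) := by
    intro η hη
    have := key η (η * c0 / 2) hη (by positivity) (by linarith)
    linarith
  refine le_of_forall_pos_le_add (fun δ hδ => ?_)
  have hpos : 0 < L0 + c0 := by linarith
  have := key2 (δ / (L0 + c0)) (div_pos hδ hpos)
  rw [div_mul_cancel₀ _ hpos.ne'] at this
  exact this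

end Pool.Agent.Lib.MP_084b88_gt.CW
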