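import Pool.Agent.Lib.MP_084b88_gt.CW.AllE2
import Pool.Agent.Lib.MP_084b88_gt.CW.MIX
import Pool.Agent.Lib.MP_084b88_gt.CW.AVH

/-!
# MP_084b88_gt, project CW: assembly of part M
-/

set_option autoImplicit false

namespace Pool.Agent.Lib.MP_084b88_gt.CW

theorem allMIX : SpecMIX := specMIX allHSB allSG3 allPST allAVG allHAA allMEA
theorem allAVH : SpecAVH := specAVH allGDL allSG3 allPST allAVG allMEA
theorem allCIR : SpecCIR := specCIR

end Pool.Agent.Lib.MP_084b88_gt.CW
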