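import Pool.Agent.Lib.MP_084b88_gt.CW.SpecC

/-!
# MP_084b88_gt, project CW, module PNP: (PN) for planar bodies with an arbitrary centre
-/

set_option autoImplicit false

open MeasureTheory Set Real Filter Topology
open scoped Pointwise InnerProductSpace

namespace Pool.Agent.Lib.MP_084b88_gt.CW

namespace PNPM

theorem continuous_FF : Continuous FF := by
  unfold FF
  fun_prop

theorem dotu_two (φ α : ℝ) (p : ℝ × ℝ) :
    dotu (φ + α) p + dotu (φ - α) p = 2 * cos α * dotu φ p := by
  unfold dotu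
  rw [cos_add, cos_sub, sin_add, sin_sub]
  ring

theorem dotu_sub (θ : ℝ) (p a : ℝ × ℝ) : dotu θ (p - a) = dotu θ p - dotu θ a := by
  unfold dotu
  rw [Prod.fst_sub, Prod.snd_sub]
  ring

theorem dotu_pi (θ : ℝ) (a : ℝ × ℝ) : dotu (θ + π) a = -dotu θ a := by
  unfold dotu
  rw [cos_add_pi, sin_add_pi]
  ring

/-- The translate of `P` by `-a`. -/
def TR (P : Set (ℝ × ℝ)) (a : ℝ × ℝ) : Set (ℝ × ℝ) := (fun p => p - a) '' P

theorem cc_TR {P : Set (ℝ × ℝ)} (hP : CC P) (a : ℝ × ℝ) : CC (TR P a) := by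
  refine ⟨?_, hP.2.1.image (by fun_prop), hP.2.2.image _⟩
  have h := hP.1.translate (-a)
  have e : (fun z => -a + z) '' P = TR P a := by
    unfold TR
    congr 1
    funext p
    rw [neg_add_eq_sub]
  rw [← e]
  exact h

theorem sup2_TR (hWB2 : SpecWB2) {P : Set (ℝ × ℝ)} (hP : CC P) (a : ℝ × ℝ) (θ : ℝ) :
    sup2 (TR P a) θ = sup2 P θ - dotu θ a := by
  obtain ⟨w1, w2, -⟩ := hWB2
  have hT := cc_TR hP a
  apply le_antisymm
  · obtain ⟨q, hq, hqe⟩ := w2 _ hT θ
    obtain ⟨p, hp, rfl⟩ := hq
    rw [← hqe]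
    have := w1 P hP θ p hp
    show dotu θ (p - a) ≤ _
    rw [dotu_sub]
    linarith
  · obtain ⟨p, hp, hpe⟩ := w2 P hP θ
    have := w1 _ hT θ (p - a) ⟨p, hp, rfl⟩
    rw [dotu_sub, hpe] at this
    exact this

theorem int_TR (P : Set (ℝ × ℝ)) (a : ℝ × ℝ) (f : ℝ × ℝ → ℝ) :
    ∫ p in TR P a, f p = ∫ p in P, f (p - a) := by
  unfold TR
  exact (measurePreserving_sub_right (volume : Measure (ℝ × ℝ)) a).setIntegral_image_emb
    (MeasurableEquiv.subRight a).measurableEmbedding f P

theorem int_cc : ∫ s in (0 : ℝ)..(2 * π), cos s * cos s = π := by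
  have h := integral_cos_sq (a := 0) (b := 2 * π)
  simp only [sq] at h
  rw [h]
  simp

theorem int_ss : ∫ s in (0 : ℝ)..(2 * π), sin s * sin s = π := by
  have h := integral_sin_sq (a := 0) (b := 2 * π)
  simp only [sq] at h
  rw [h]
  simp

theorem int_sc : ∫ s in (0 : ℝ)..(2 * π), sin s * cos s = 0 := by
  rw [integral_sin_mul_cos₁]
  simp

/-- `g3f` kills `dotu · a`. -/
theorem g3f_sub {g : ℝ → ℝ} (hg : Continuous g) (a : ℝ × ℝ) (t : ℝ) :
    g3f (fun s => g s - dotu s a) t = g3f g t := by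
  have h1 : ∫ s in (0 : ℝ)..(2 * π), (g s - dotu s a) * cos s =
      (∫ s in (0 : ℝ)..(2 * π), g s * cos s) - a.1 * π := by
    have e : ∀ s, (g s - dotu s a) * cos s =
        g s * cos s - (a.1 * (cos s * cos s) + a.2 * (sin s * cos s)) := by
      intro s
      unfold dotu
      ring
    simp only [e]
    rw [intervalIntegral.integral_sub ((by fun_prop : Continuous fun s => g s * cos s).intervalIntegrable _ _)
      ((by fun_prop : Continuous fun s : ℝ => a.1 * (cos s * cos s) + a.2 * (sin s * cos s)).intervalIntegrable _ _),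
      intervalIntegral.integral_add
        ((by fun_prop : Continuous fun s : ℝ => a.1 * (cos s * cos s)).intervalIntegrable _ _)
        ((by fun_prop : Continuous fun s : ℝ => a.2 * (sin s * cos s)).intervalIntegrable _ _),
      intervalIntegral.integral_const_mul, intervalIntegral.integral_const_mul, int_cc, int_sc]
    ring
  have h2 : ∫ s in (0 : ℝ)..(2 * π), (g s - dotu s a) * sin s =
      (∫ s in (0 : ℝ)..(2 * π), g s * sin s) - a.2 * π := by
    have e : ∀ s, (g s - dotu s a) * sin s =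
        g s * sin s - (a.1 * (sin s * cos s) + a.2 * (sin s * sin s)) := by
      intro s
      unfold dotu
      ring
    simp only [e]
    rw [intervalIntegral.integral_sub ((by fun_prop : Continuous fun s => g s * sin s).intervalIntegrable _ _)
      ((by fun_prop : Continuous fun s : ℝ => a.1 * (sin s * cos s) + a.2 * (sin s * sin s)).intervalIntegrable _ _),
      intervalIntegral.integral_add
        ((by fun_prop : Continuous fun s : ℝ => a.1 * (sin s * cos s)).intervalIntegrable _ _)
        ((by fun_prop : Continuous fun s : ℝ => a.2 * (sin s * sin s)).intervalIntegrable _ _),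
      intervalIntegral.integral_const_mul, intervalIntegral.integral_const_mul, int_ss, int_sc]
    ring
  have hπ : π ≠ 0 := pi_ne_zero
  unfold g3f
  rw [h1, h2]
  unfold dotu
  field_simp
  ring

end PNPM

open PNPM in
theorem specPNP (hGLM : SpecGLM) (hGDU : SpecGDU) (hWB2 : SpecWB2) : SpecPNP := by
  intro P a b δ ε l σ hP hb hδ hε hl hσ hδε hεl hσ2 hwid hmid
  have hWB := hWB2
  obtain ⟨w1, w2, w3, w4, -, -, -, -, -, w10, -⟩ := hWB
  -- the translate
  obtain ⟨P', hP'⟩ : ∃ P' : Set (ℝ × ℝ), P' = TR P a := ⟨_, rfl⟩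
  have hCC : CC P' := by rw [hP']; exact cc_TR hP a
  have hsup : ∀ θ, sup2 P' θ = sup2 P θ - dotu θ a := fun θ => by
    rw [hP']; exact sup2_TR hWB2 hP a θ
  have hwid' : ∀ θ, wid P' θ = wid P θ := by
    intro θ
    unfold wid
    rw [hsup, hsup, dotu_pi]
    ring
  have hmid' : ∀ θ, mid P' θ = mid P θ - dotu θ a := by
    intro θ
    unfold mid
    rw [hsup, hsup, dotu_pi]
    ring
  have hBh : ∀ θ, Bh (sup2 P') θ = wid P θ / 2 := by
    intro θ
    have := hwid' θ
    unfold wid at this
    unfold Bh wid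
    rw [this]
  have hgh : ∀ θ, gh (sup2 P') θ = mid P θ - dotu θ a := fun θ => hmid' θ
  -- `δ < 1`
  have hε1 : ε ≤ 1 / 20 := by
    have : 0 ≤ l * σ := mul_nonneg hl hσ
    linarith
  have hδ1 : δ < 1 := by
    have h1 : ε ^ 4 ≤ 1 := pow_le_one₀ hε.le (by linarith)
    linarith
  have hwpos : ∀ θ, 0 < wid P' θ := by
    intro θ
    rw [hwid']
    have h1 := (abs_le.1 (hwid θ)).1
    have h2 : 0 < (1 - δ) * b := mul_pos (by linarith) hb
    nlinarith
  -- GLM for the translate
  obtain ⟨C, hC, -, hlip⟩ := w3 P' hCC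
  have hPN := hGLM (sup2 P') C b δ ε l σ hC hb hδ hε hl hσ hδε hεl hσ2 hlip (w4 P')
    (fun φ α => by
      obtain ⟨p, hp, hpe⟩ := w2 P' hCC φ
      have h1 := w1 P' hCC (φ + α) p hp
      have h2 := w1 P' hCC (φ - α) p hp
      have h3 := dotu_two φ α p
      rw [← hpe, ← h3]
      linarith)
    (fun t => by rw [hBh]; exact hwid t) (fun t => by rw [hgh]; exact hmid t)
  -- the integrals over the body
  have hτ : ∀ t p, (dotu t (p - a) - mid P' t) / (wid P' t / 2) =
      (dotu t p - mid P t) / (wid P t / 2) := by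
    intro t p
    rw [hmid', hwid', dotu_sub]
    congr 1
    ring
  have hIG : ∀ (G : ℝ → ℝ), Continuous G → ∀ t,
      IG G (sup2 P') t = ∫ p in P, G ((dotu t p - mid P t) / (wid P t / 2)) := by
    intro G hG t
    rw [← hGDU P' hCC hwpos G hG t, hP', int_TR]
    rw [← hP']
    simp only [hτ]
  have hI1 : ∀ t, IG FF (sup2 P') t = qf P t - kap * area P := by
    intro t
    rw [hIG FF continuous_FF t]
    have hfin : volume P < ⊤ := hP.2.1.measure_lt_top
    have hc : Continuous fun p : ℝ × ℝ =>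
        √(1 - ((dotu t p - mid P t) / (wid P t / 2)) ^ 2) := by
      unfold dotu
      fun_prop
    have i1 : IntegrableOn (fun p : ℝ × ℝ => √(1 - ((dotu t p - mid P t) / (wid P t / 2)) ^ 2)) P :=
      hc.continuousOn.integrableOn_compact hP.2.1
    have i2 : IntegrableOn (fun _ : ℝ × ℝ => kap) P := integrableOn_const hfin.ne
    have e : ∀ p : ℝ × ℝ, FF ((dotu t p - mid P t) / (wid P t / 2)) =
        √(1 - ((dotu t p - mid P t) / (wid P t / 2)) ^ 2) - kap := fun p => rfl
    simp only [e]
    rw [integral_sub i1 i2, setIntegral_const]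
    unfold qf area
    rw [smul_eq_mul, mul_comm kap]
    rfl
  have hI2 : ∀ t, IG (fun τ => τ) (sup2 P') t = mf P t := by
    intro t
    rw [hIG (fun τ => τ) continuous_id t]
    rfl
  have hmc : Continuous (mid P) := by
    have h := (w10 P hP).1
    unfold mid
    exact (h.sub (h.comp (continuous_id.add continuous_const))).div_const 2
  have hg3 : ∀ t, g3f (gh (sup2 P')) t = g3f (mid P) t := by
    intro t
    have e : gh (sup2 P') = fun s => mid P s - dotu s a := funext hgh
    rw [e]
    exact g3f_sub hmc a t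
  unfold PNh at hPN
  simp only [hBh, hgh, hg3, hI1, hI2] at hPN
  exact hPN

end Pool.Agent.Lib.MP_084b88_gt.CW
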