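import Pool.Agent.Lib.MP_084b88_gt.CW.SpecC

/-!
# MP_084b88_gt, project CW, module GS2: the first moment in the smooth case
-/

set_option autoImplicit false

open MeasureTheory Set Real Filter Topology
open scoped Pointwise InnerProductSpace

namespace Pool.Agent.Lib.MP_084b88_gt.CW

namespace GS2M

/-- the abscissa -/
noncomputable def pt (M : ℕ) (c : ℕ → ℂ) (t α : ℝ) : ℝ :=
  cos α + sin α ^ 2 * Ps M c t α / Bh (hp M c) t

theorem integral_neg_Ioo (f : ℝ → ℝ) :
    ∫ τ in Ioo (-1 : ℝ) 1, f (-τ) = ∫ τ in Ioo (-1 : ℝ) 1, f τ := by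
  rw [← integral_Ioc_eq_integral_Ioo, ← integral_Ioc_eq_integral_Ioo,
    ← intervalIntegral.integral_of_le (by norm_num), ← intervalIntegral.integral_of_le (by norm_num),
    intervalIntegral.integral_comp_neg]
  norm_num

theorem integrableOn_neg_Ioo {f : ℝ → ℝ} (hf : IntegrableOn f (Ioo (-1 : ℝ) 1)) :
    IntegrableOn (fun τ => f (-τ)) (Ioo (-1 : ℝ) 1) := by
  have h := (Measure.measurePreserving_neg (volume : Measure ℝ)).integrableOn_comp_preimage
    (MeasurableEquiv.neg ℝ).measurableEmbedding (f := f) (s := Ioo (-1 : ℝ) 1)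
  have e : (Neg.neg : ℝ → ℝ) ⁻¹' (Ioo (-1 : ℝ) 1) = Ioo (-1 : ℝ) 1 := by
    ext x; simp only [mem_preimage, mem_Ioo]; constructor <;> intro h <;> constructor <;> linarith [h.1, h.2]
  rw [e] at h
  exact h.2 hf

theorem Bh_per (hH : SpecHPB) (M : ℕ) (c : ℕ → ℂ) (t : ℝ) :
    Bh (hp M c) (t + π) = Bh (hp M c) t := by
  unfold Bh
  have h := (hH M c).2.1 t
  rw [show t + π + π = t + 2 * π by ring, h]
  ring

/-- General formula for `IG G` in the smooth case. -/
theorem IG_formula (hGAL : SpecGAL) (hH : SpecHPB) (M : ℕ) (c : ℕ → ℂ) (hRP : RP M c)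
    (G G1 G2 : ℝ → ℝ) (hG : Continuous G) (h1 : ∀ x, HasDerivAt G1 (G x) x)
    (h2 : ∀ x, HasDerivAt G2 (G1 x) x) (t : ℝ) :
    IG G (hp M c) t =
      Bh (hp M c) t ^ 2 * ((∫ α in (0 : ℝ)..π, G1 (cos α) * cos α) +
        ∫ α in (0 : ℝ)..π, -G1 (-cos α) * cos α) -
      Bh (hp M c) t ^ 2 * ((∫ α in (0 : ℝ)..π, (G2 (pt M c t α) - G2 (cos α)) / sin α ^ 2) +
        ∫ α in (0 : ℝ)..π, (G2 (-pt M c (t + π) α) - G2 (-cos α)) / sin α ^ 2) := by
  obtain ⟨a1, a2⟩ := hGAL M c hRP G G1 G2 hG h1 h2 t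
  have k1 : ∀ x, HasDerivAt (fun x => -G1 (-x)) (G (-x)) x := by
    intro x
    have := ((h1 (-x)).comp x (hasDerivAt_neg x)).neg
    refine this.congr_deriv ?_
    ring
  have k2 : ∀ x, HasDerivAt (fun x => G2 (-x)) (-G1 (-x)) x := by
    intro x
    have := (h2 (-x)).comp x (hasDerivAt_neg x)
    refine this.congr_deriv ?_
    ring
  obtain ⟨b1, b2⟩ := hGAL M c hRP (fun x => G (-x)) (fun x => -G1 (-x)) (fun x => G2 (-x))
    (hG.comp continuous_neg) k1 k2 (t + π)
  have hper : hp M (dk c) (t + π + π) = hp M (dk c) t := by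
    rw [show t + π + π = t + 2 * π by ring]
    exact (hH M (dk c)).2.1 t
  rw [Bh_per hH, hper] at b2
  -- split the integral
  have e1 : ∫ τ in Ioo (-1 : ℝ) 1, (UB (hp M c) t τ + UB (hp M c) (t + π) (-τ)) * G τ =
      (∫ τ in Ioo (-1 : ℝ) 1, UB (hp M c) t τ * G τ) +
        ∫ τ in Ioo (-1 : ℝ) 1, UB (hp M c) (t + π) τ * G (-τ) := by
    rw [← integral_neg_Ioo (fun τ => UB (hp M c) (t + π) τ * G (-τ))]
    simp only [neg_neg]
    have b3 := integrableOn_neg_Ioo b1
    simp only [neg_neg] at b3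
    rw [← integral_add a1 b3]
    apply integral_congr_ae
    apply Filter.Eventually.of_forall
    intro τ
    ring
  unfold IG
  rw [e1, mul_add, a2, b2]
  unfold pt
  rw [Bh_per hH]
  norm_num
  ring

theorem comp2 (f : ℝ → ℝ → ℝ) (hf : Continuous (fun x : ℝ × ℝ => f x.1 x.2)) {g : ℝ → ℝ × ℝ}
    (hg : Continuous g) : Continuous (fun t => f (g t).1 (g t).2) := hf.comp hg

theorem comp3 (f : ℝ → ℝ → ℝ) (hf : Continuous (fun x : ℝ × ℝ => f x.1 x.2)) (θ : ℝ) :
    Continuous (fun t => f θ t) := by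
  have h : Continuous (fun α : ℝ => ((θ, α) : ℝ × ℝ)) := by fun_prop
  exact comp2 f hf h

theorem cont_Ps (hH : SpecHPB) (M : ℕ) (c : ℕ → ℂ) (t : ℝ) :
    Continuous (fun α : ℝ => Ps M c t α) :=
  comp3 (Ps M c) (hH M c).2.2.2.2.2.2.2.1 t

theorem cont_pt (hH : SpecHPB) (M : ℕ) (c : ℕ → ℂ) (t : ℝ) : Continuous (pt M c t) := by
  unfold pt
  exact continuous_cos.add (((continuous_sin.pow 2).mul (cont_Ps hH M c t)).div_const _)

/-- bounded measurable functions are interval integrable -/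
theorem ii_of_bdd {f : ℝ → ℝ} (hf : Measurable f) (C : ℝ) (hC : ∀ α ∈ Icc (0 : ℝ) π, |f α| ≤ C) :
    IntervalIntegrable f volume 0 π := by
  refine (intervalIntegrable_const (c := C)).mono_fun' hf.aestronglyMeasurable ?_
  refine (ae_restrict_iff' measurableSet_uIoc).2 (Eventually.of_forall fun α hα => ?_)
  rw [uIoc_of_le pi_pos.le] at hα
  exact hC α ⟨hα.1.le, hα.2⟩

end GS2M

open GS2M in
theorem specGS2 (hGAL : SpecGAL) (hGAG : SpecGAG) (hHPB : SpecHPB) (hQQ4 : SpecQQ4)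
    (hLPG : SpecLPG) : SpecGS2 := by
  intro M c hRP t
  have hpos : ∀ s, 0 < Bh (hp M c) s := hRP.2.2
  have hF := IG_formula hGAL hHPB M c hRP (fun τ => τ) (fun x => x ^ 2 / 2) (fun x => x ^ 3 / 6)
    continuous_id
    (by
      intro x
      refine ((hasDerivAt_pow 2 x).div_const 2).congr_deriv ?_
      norm_num)
    (by
      intro x
      refine ((hasDerivAt_pow 3 x).div_const 6).congr_deriv ?_
      norm_num
      ring) t
  set B := Bh (hp M c) t with hBdef
  have hB : 0 < B := hpos t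
  -- the point `c_t` and the symmetric parts
  have hP1 : ∀ α, Ps M c t α = Ps M (evc c) t α + Ps M (odc c) t α := (hHPB M c).2.2.2.2.2.2.2.2.2.1 t
  have hP2 : ∀ α, Ps M c (t + π) α = Ps M (evc c) t α - Ps M (odc c) t α := by
    intro α
    rw [(hHPB M c).2.2.2.2.2.2.2.2.2.1 (t + π) α, (hHPB M c).2.2.2.2.2.2.2.2.2.2.1 t α,
      (hHPB M c).2.2.2.2.2.2.2.2.2.2.2 t α]
    ring
  have cE := cont_Ps hHPB M (evc c) t
  have cO := cont_Ps hHPB M (odc c) t
  have hin : ∀ s, ∀ α ∈ Icc (0 : ℝ) π, |pt M c s α| ≤ 1 := fun s => (hGAG M c hRP s).2.2.2.1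
  -- pointwise estimate
  have hpw : ∀ s, Bh (hp M c) s = B → ∀ α ∈ Ioo (0 : ℝ) π,
      |(pt M c s α ^ 3 / 6 - cos α ^ 3 / 6) / sin α ^ 2 - cos α ^ 2 / 2 * Ps M c s α / B| ≤
        sin α ^ 2 * Ps M c s α ^ 2 / (2 * B ^ 2) := by
    intro s hs α hα
    have h0 : sin α ≠ 0 := (sin_pos_of_mem_Ioo hα).ne'
    have hs2 : 0 < sin α ^ 2 := by positivity
    have h := hQQ4.2.2 (cos α) (pt M c s α) (abs_cos_le_one α) (hin s α ⟨hα.1.le, hα.2.le⟩)
    have e : pt M c s α - cos α = sin α ^ 2 * Ps M c s α / B := by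
      unfold pt; rw [hs]; ring
    rw [e] at h
    have e2 : (pt M c s α ^ 3 / 6 - cos α ^ 3 / 6) / sin α ^ 2 - cos α ^ 2 / 2 * Ps M c s α / B =
        (pt M c s α ^ 3 / 6 - cos α ^ 3 / 6 - cos α ^ 2 / 2 * (sin α ^ 2 * Ps M c s α / B)) /
          sin α ^ 2 := by
      field_simp
    rw [e2, abs_div, abs_of_pos hs2, div_le_iff₀ hs2]
    refine h.trans (le_of_eq ?_)
    field_simp
  -- integrability
  have hbd : ∀ s, ∃ C : ℝ, ∀ α ∈ Icc (0 : ℝ) π,
      |(pt M c s α ^ 3 / 6 - cos α ^ 3 / 6) / sin α ^ 2| ≤ C := by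
    intro s
    obtain ⟨C, hC⟩ := (hHPB M c).2.2.2.2.2.2.2.2.1
    have hBs := hpos s
    refine ⟨C / Bh (hp M c) s, fun α hα => ?_⟩
    have hC0 : 0 ≤ C := (abs_nonneg _).trans (hC 0 0)
    rcases eq_or_ne (sin α) 0 with h0 | h0
    · rw [h0]; simp; positivity
    · have hs2 : 0 < sin α ^ 2 := by positivity
      rw [abs_div, abs_of_pos hs2, div_le_iff₀ hs2]
      have e : pt M c s α - cos α = sin α ^ 2 * Ps M c s α / Bh (hp M c) s := by
        unfold pt; ring
      have e3 : pt M c s α ^ 3 / 6 - cos α ^ 3 / 6 = (pt M c s α - cos α) *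
          ((pt M c s α ^ 2 + pt M c s α * cos α + cos α ^ 2) / 6) := by ring
      have h3 : |(pt M c s α ^ 2 + pt M c s α * cos α + cos α ^ 2) / 6| ≤ 1 := by
        have h1 := abs_le.1 (hin s α hα)
        have h2 := abs_le.1 (abs_cos_le_one α)
        rw [abs_le]
        constructor <;> nlinarith [sq_nonneg (pt M c s α + cos α), sq_nonneg (pt M c s α - cos α),
          sq_nonneg (pt M c s α), sq_nonneg (cos α)]
      rw [e3, abs_mul, e]
      have h4 : |sin α ^ 2 * Ps M c s α / Bh (hp M c) s| ≤ C / Bh (hp M c) s * sin α ^ 2 := by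
        rw [abs_div, abs_mul, abs_of_pos hs2, abs_of_pos hBs]
        have := hC s α
        rw [div_mul_eq_mul_div, div_le_div_iff_of_pos_right hBs, mul_comm]
        exact mul_le_mul_of_nonneg_right this hs2.le
      calc _ ≤ (C / Bh (hp M c) s * sin α ^ 2) * 1 :=
            mul_le_mul h4 h3 (abs_nonneg _) (by positivity)
        _ = _ := mul_one _
  have hmeas : ∀ s, Measurable (fun α => (pt M c s α ^ 3 / 6 - cos α ^ 3 / 6) / sin α ^ 2) := by
    intro s
    refine Measurable.div (Continuous.measurable ?_) (Continuous.measurable ?_)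
    · exact (((cont_pt hHPB M c s).pow 3).div_const 6).sub ((continuous_cos.pow 3).div_const 6)
    · exact continuous_sin.pow 2
  have hii : ∀ s, IntervalIntegrable
      (fun α => (pt M c s α ^ 3 / 6 - cos α ^ 3 / 6) / sin α ^ 2) volume 0 π := by
    intro s
    obtain ⟨C, hC⟩ := hbd s
    exact ii_of_bdd (hmeas s) C hC
  -- the integral bound
  have hBt : Bh (hp M c) (t + π) = B := Bh_per hHPB M c t
  have hmain : |(∫ α in (0 : ℝ)..π, ((pt M c t α ^ 3 / 6 - cos α ^ 3 / 6) / sin α ^ 2 -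
      (pt M c (t + π) α ^ 3 / 6 - cos α ^ 3 / 6) / sin α ^ 2 -
      cos α ^ 2 * Ps M (odc c) t α / B))| ≤
      ∫ α in (0 : ℝ)..π, (Ps M (evc c) t α ^ 2 + Ps M (odc c) t α ^ 2) * sin α ^ 2 / B ^ 2 := by
    rw [← Real.norm_eq_abs]
    refine intervalIntegral.norm_integral_le_of_norm_le pi_pos.le ?_ ?_
    · have : ∀ᵐ α : ℝ, α ≠ π := by
        rw [ae_iff]
        simp
      filter_upwards [this] with α hα hα2
      have hα3 : α ∈ Ioo (0 : ℝ) π := ⟨hα2.1, lt_of_le_of_ne hα2.2 hα⟩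
      have h1 := abs_le.1 (hpw t rfl α hα3)
      have h2 := abs_le.1 (hpw (t + π) hBt α hα3)
      rw [hP1] at h1
      rw [hP2] at h2
      rw [Real.norm_eq_abs, abs_le]
      have e1 : (Ps M (evc c) t α ^ 2 + Ps M (odc c) t α ^ 2) * sin α ^ 2 / B ^ 2 =
        sin α ^ 2 * (Ps M (evc c) t α + Ps M (odc c) t α) ^ 2 / (2 * B ^ 2) +
        sin α ^ 2 * (Ps M (evc c) t α - Ps M (odc c) t α) ^ 2 / (2 * B ^ 2) := by
        field_simp
        ring
      have e2 : cos α ^ 2 * Ps M (odc c) t α / B =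
        cos α ^ 2 / 2 * (Ps M (evc c) t α + Ps M (odc c) t α) / B -
        cos α ^ 2 / 2 * (Ps M (evc c) t α - Ps M (odc c) t α) / B := by
        field_simp
        ring
      rw [e1, e2]
      constructor <;> linarith [h1.1, h1.2, h2.1, h2.2]
    · refine Continuous.intervalIntegrable ?_ _ _
      exact (((cE.pow 2).add (cO.pow 2)).mul (continuous_sin.pow 2)).div_const _
  have hL := hLPG M c t
  have hcc : IntervalIntegrable (fun α => cos α ^ 2 * Ps M (odc c) t α / B) volume 0 π :=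
    (((continuous_cos.pow 2).mul cO).div_const _).intervalIntegrable _ _
  rw [intervalIntegral.integral_sub ((hii t).sub (hii (t + π))) hcc,
    intervalIntegral.integral_sub (hii t) (hii (t + π)),
    intervalIntegral.integral_div, intervalIntegral.integral_div, hL] at hmain
  have hz : (∫ α in (0 : ℝ)..π, cos α ^ 2 / 2 * cos α) +
      ∫ α in (0 : ℝ)..π, -((-cos α) ^ 2 / 2) * cos α = 0 := by
    rw [← intervalIntegral.integral_add]
    · rw [show (fun α : ℝ => cos α ^ 2 / 2 * cos α + -((-cos α) ^ 2 / 2) * cos α) = fun _ => 0 by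
        funext α; ring]
      simp
    · exact Continuous.intervalIntegrable (by fun_prop) _ _
    · exact Continuous.intervalIntegrable (by fun_prop) _ _
  have hn : ∫ α in (0 : ℝ)..π, ((-pt M c (t + π) α) ^ 3 / 6 - (-cos α) ^ 3 / 6) / sin α ^ 2 =
      - ∫ α in (0 : ℝ)..π, (pt M c (t + π) α ^ 3 / 6 - cos α ^ 3 / 6) / sin α ^ 2 := by
    rw [← intervalIntegral.integral_neg]
    congr 1
    funext α
    ring
  rw [hF]
  rw [hz, hn]
  have hB2 : 0 < B ^ 2 := by positivity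
  have h5 := mul_le_mul_of_nonneg_left hmain hB2.le
  rw [mul_div_cancel₀ _ hB2.ne'] at h5
  refine le_trans (le_of_eq ?_) h5
  rw [← abs_of_pos hB2, ← abs_mul, abs_of_pos hB2]
  rw [← abs_neg]
  congr 1
  field_simp
  ring

end Pool.Agent.Lib.MP_084b88_gt.CW
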