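import Pool.Agent.Lib.MP_084b88_gt.CW.SpecC

/-!
# MP_084b88_gt, project CW: module GSM
-/

set_option autoImplicit false

open MeasureTheory Set Real Filter Topology
open scoped Pointwise InnerProductSpace

namespace Pool.Agent.Lib.MP_084b88_gt.CW

namespace GSMM

theorem lip_hp (hH : SpecHPB) (M : ℕ) (c : ℕ → ℂ) :
    ∃ Λ : ℝ, 0 ≤ Λ ∧ (∀ θ, |hp M c θ| ≤ Λ) ∧ (∀ θ θ', |hp M c θ - hp M c θ'| ≤ Λ * |θ - θ'|) := by
  obtain ⟨C1, hC1⟩ := (hH M c).2.2.2.1
  obtain ⟨C2, hC2⟩ := (hH M (dk c)).2.2.2.1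
  refine ⟨max C1 C2, (abs_nonneg _).trans ((hC1 0).trans (le_max_left _ _)), fun θ =>
    (hC1 θ).trans (le_max_left _ _), fun θ θ' => ?_⟩
  have h := (convex_univ (𝕜 := ℝ) (E := ℝ)).norm_image_sub_le_of_norm_hasDerivWithin_le
    (f := hp M c) (f' := hp M (dk c)) (C := max C1 C2)
    (fun x _ => ((hH M c).1 x).hasDerivWithinAt)
    (fun x _ => (hC2 x).trans (le_max_right _ _)) (mem_univ θ') (mem_univ θ)
  simpa [Real.norm_eq_abs] using h

theorem IG_meas (hH : SpecHPB) (hGCV : SpecGCV) (hGAG : SpecGAG) (M : ℕ) (c : ℕ → ℂ)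
    (hr : RP M c) (β : ℝ) (hβ : 0 < β) (hB : ∀ t, β ≤ Bh (hp M c) t) (G : ℝ → ℝ)
    (hG : Continuous G) :
    Measurable (IG G (hp M c)) ∧ ∃ C : ℝ, ∀ t, |IG G (hp M c) t| ≤ C := by
  obtain ⟨Λ, hΛ0, hΛ, hlip⟩ := lip_hp hH M c
  obtain ⟨-, hm, -⟩ := hGCV (hp M c) Λ β hΛ0 hβ (hH M c).2.1 hlip hΛ hB
  set U : ℝ × ℝ → ℝ := fun x => (Ioo (-1 : ℝ) 1).indicator (fun τ => UB (hp M c) x.1 τ) x.2 with hU
  have hBc : Continuous (Bh (hp M c)) := by
    have : Bh (hp M c) = fun t => hp M (evc c) t := by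
      funext t; exact (hH M c).2.2.2.2.2.1 t
    rw [this]; exact (hH M (evc c)).2.2.1
  have hIG : ∀ t, IG G (hp M c) t = Bh (hp M c) t *
      ∫ τ in Ioo (-1 : ℝ) 1, (U (t, τ) + U (t + π, -τ)) * G τ := by
    intro t
    unfold IG
    congr 1
    apply setIntegral_congr_fun measurableSet_Ioo
    intro τ hτ
    have hτ' : -τ ∈ Ioo (-1 : ℝ) 1 := ⟨by linarith [hτ.2], by linarith [hτ.1]⟩
    simp only [hU]
    rw [indicator_of_mem hτ, indicator_of_mem hτ']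
  constructor
  · have h1 : Measurable (fun x : ℝ × ℝ => (U (x.1, x.2) + U (x.1 + π, -x.2)) * G x.2) := by
      apply Measurable.mul
      · apply Measurable.add
        · exact hm.comp (measurable_fst.prodMk measurable_snd)
        · exact hm.comp ((measurable_fst.add_const π).prodMk measurable_snd.neg)
      · exact hG.measurable.comp measurable_snd
    have h2 : StronglyMeasurable (fun t => ∫ τ in Ioo (-1 : ℝ) 1,
        (U (t, τ) + U (t + π, -τ)) * G τ) :=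
      StronglyMeasurable.integral_prod_right (f := fun t τ => (U (t, τ) + U (t + π, -τ)) * G τ)
        h1.stronglyMeasurable
    have h3 : IG G (hp M c) = fun t => Bh (hp M c) t *
      ∫ τ in Ioo (-1 : ℝ) 1, (U (t, τ) + U (t + π, -τ)) * G τ := by
      funext t; exact hIG t
    rw [h3]
    exact hBc.measurable.mul h2.measurable
  · obtain ⟨CG, hCG⟩ := isCompact_Icc.exists_bound_of_continuousOn
      (s := Icc (-1 : ℝ) 1) hG.continuousOn
    set S : ℝ := (⨆ s, |hp M c s|) + (⨆ s, |hp M (dk c) s|) with hS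
    have hUS : ∀ t, ∀ τ ∈ Ioo (-1 : ℝ) 1, |UB (hp M c) t τ| ≤ S := fun t =>
      (hGAG M c hr t).2.2.2.2.2
    have hS0 : 0 ≤ S := (abs_nonneg _).trans (hUS 0 0 (by constructor <;> norm_num))
    have hCG0 : 0 ≤ CG := (norm_nonneg _).trans (hCG 0 (by constructor <;> norm_num))
    refine ⟨Λ * (((S + S) * CG) * 2), fun t => ?_⟩
    unfold IG
    rw [abs_mul]
    have hBb : |Bh (hp M c) t| ≤ Λ := by
      unfold Bh
      rw [abs_div, abs_two, div_le_iff₀ (by norm_num)]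
      exact (abs_add_le _ _).trans (by linarith [hΛ t, hΛ (t + π)])
    refine mul_le_mul hBb ?_ (abs_nonneg _) hΛ0
    have h1 := norm_setIntegral_le_of_norm_le_const (μ := volume) (s := Ioo (-1 : ℝ) 1)
      (f := fun τ => (UB (hp M c) t τ + UB (hp M c) (t + π) (-τ)) * G τ) (C := (S + S) * CG)
      (by simp) (fun τ hτ => by
        have hτ' : -τ ∈ Ioo (-1 : ℝ) 1 := ⟨by linarith [hτ.2], by linarith [hτ.1]⟩
        rw [norm_mul]
        refine mul_le_mul ?_ (hCG τ ⟨hτ.1.le, hτ.2.le⟩) (norm_nonneg _) (by linarith)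
        exact (norm_add_le _ _).trans (add_le_add (hUS t τ hτ) (hUS (t + π) (-τ) hτ')))
    have h2 : (volume (Ioo (-1 : ℝ) 1)).toReal = 2 := by
      rw [Real.volume_Ioo]; norm_num
    rw [Measure.real, h2] at h1
    exact h1

/-- the termwise estimate -/
theorem term_le (hCOE : SpecCOE) (c : ℕ → ℂ) (θ : ℝ) (_hθ0 : 0 ≤ θ) (hθ : θ ≤ 1 / 20) (k : ℕ) :
    (1 / 20 - θ) * (8 * π) * (if 3 ≤ k then ‖odc c k‖ ^ 2 else 0) -
      (if k = 3 then 8 * π / 20 * ‖c 3‖ ^ 2 else 0) -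
      (if k = 2 then θ * (2 * π) * ‖c 2‖ ^ 2 else 0) ≤ ‖c k‖ ^ 2 * (Tk k - θ * Uk k) := by
  obtain ⟨hT0, hT4, hU0, hU1, hU2, hU3, hU3', hUn, -, -⟩ := hCOE
  have hpi := pi_pos
  have hodc : ‖odc c k‖ ^ 2 ≤ ‖c k‖ ^ 2 := by
    unfold odc
    split_ifs
    · exact le_rfl
    · simp
  have hn : 0 ≤ ‖c k‖ ^ 2 := by positivity
  rcases Nat.lt_or_ge k 4 with hk | hk
  · interval_cases k
    · rw [if_neg (by norm_num), if_neg (by norm_num), if_neg (by norm_num), hU0]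
      have := mul_nonneg hn (hT0 0)
      linarith
    · rw [if_neg (by norm_num), if_neg (by norm_num), if_neg (by norm_num), hU1]
      have := mul_nonneg hn (hT0 1)
      linarith
    · rw [if_neg (by norm_num), if_neg (by norm_num), if_pos rfl, hU2]
      have h1 := mul_nonneg hn (hT0 2)
      linarith
    · have h1 := mul_nonneg hn (hT0 3)
      have h2 : odc c 3 = c 3 := by simp [odc]
      rw [if_pos (by norm_num), if_pos rfl, if_neg (by norm_num), hU3, h2]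
      linarith
  · have h3 : 3 ≤ k := by omega
    have h4 : k ≠ 3 := by omega
    have h5 : k ≠ 2 := by omega
    simp only [h3, h4, h5, if_true, if_false, sub_zero]
    have h6 := hT4 k hk
    have h7 := hU3' k h3
    have h8 : (1 / 20 - θ) * (8 * π) ≤ Tk k - θ * Uk k := by
      have h9 : (1 / 20 - θ) * (8 * π) ≤ (1 / 20 - θ) * Uk k :=
        mul_le_mul_of_nonneg_left h7 (by linarith)
      linarith
    have h10 : 0 ≤ (1 / 20 - θ) * (8 * π) := mul_nonneg (by linarith) (by linarith)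
    calc (1 / 20 - θ) * (8 * π) * ‖odc c k‖ ^ 2 ≤ (1 / 20 - θ) * (8 * π) * ‖c k‖ ^ 2 :=
          mul_le_mul_of_nonneg_left hodc h10
      _ = ‖c k‖ ^ 2 * ((1 / 20 - θ) * (8 * π)) := by ring
      _ ≤ _ := mul_le_mul_of_nonneg_left h8 hn

theorem norm_split (c : ℕ → ℂ) (k : ℕ) : ‖evc c k‖ ^ 2 + ‖odc c k‖ ^ 2 = ‖c k‖ ^ 2 := by
  unfold evc odc
  rcases Nat.mod_two_eq_zero_or_one k with h | h <;> simp [h]


theorem cont_slice {f : ℝ → ℝ → ℝ} (hf : Continuous (fun x : ℝ × ℝ => f x.1 x.2)) (t : ℝ) :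
    Continuous (f t) := by
  have h : Continuous (fun α : ℝ => ((t, α) : ℝ × ℝ)) := by fun_prop
  exact hf.comp h

theorem cont_int {f : ℝ → ℝ → ℝ} (hf : Continuous (fun x : ℝ × ℝ => f x.1 x.2)) (a b : ℝ) :
    Continuous (fun t => ∫ α in a..b, f t α) := by
  have h : Continuous (Function.uncurry f) := by
    rw [Function.uncurry_def]; exact hf
  exact intervalIntegral.continuous_parametric_intervalIntegral_of_continuous' h a b

theorem cont_Vk (k : ℕ) : Continuous (fun α => ‖Vk k α‖ ^ 2) := by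
  unfold Vk
  fun_prop

theorem int_V (k : ℕ) (ε : ℝ) :
    ∫ α in (0 : ℝ)..π, ‖Vk k α‖ ^ 2 * (kap * sin α ^ 2 - sin α ^ 3 - ε * sin α ^ 2) =
      Tk k - ε * Uk k := by
  have hc := cont_Vk k
  have h1 : Continuous (fun α => ‖Vk k α‖ ^ 2 * (kap * sin α ^ 2 - sin α ^ 3)) := by fun_prop
  have h2 : Continuous (fun α => ‖Vk k α‖ ^ 2 * sin α ^ 2) := by fun_prop
  unfold Tk Uk
  rw [← intervalIntegral.integral_const_mul, ← intervalIntegral.integral_sub
    (h1.intervalIntegrable _ _) ((h2.intervalIntegrable _ _).const_mul _)]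
  apply intervalIntegral.integral_congr
  intro α _
  simp only
  ring

theorem cont_Ps (hH : SpecHPB) (M : ℕ) (c : ℕ → ℂ) :
    Continuous (fun x : ℝ × ℝ => Ps M c x.1 x.2) := (hH M c).2.2.2.2.2.2.2.1

theorem quad_int (hPSB : SpecPSB) (hH : SpecHPB) (M : ℕ) (c : ℕ → ℂ) (w : ℝ → ℝ)
    (hw : Continuous w) :
    ∫ t in (0 : ℝ)..(2 * π), (∫ α in (0 : ℝ)..π,
      (Ps M (evc c) t α ^ 2 + Ps M (odc c) t α ^ 2) * w α) =
      π * ∑ k ∈ Finset.range M, ‖c k‖ ^ 2 * ∫ α in (0 : ℝ)..π, ‖Vk k α‖ ^ 2 * w α := by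
  have hce := cont_Ps hH M (evc c)
  have hco := cont_Ps hH M (odc c)
  have h1 : Continuous (fun x : ℝ × ℝ => (fun t α : ℝ => Ps M (evc c) t α ^ 2 * w α) x.1 x.2) := by
    simp only
    fun_prop
  have h2 : Continuous (fun x : ℝ × ℝ => (fun t α : ℝ => Ps M (odc c) t α ^ 2 * w α) x.1 x.2) := by
    simp only
    fun_prop
  have h3 : ∀ t : ℝ, (∫ α in (0 : ℝ)..π,
      (Ps M (evc c) t α ^ 2 + Ps M (odc c) t α ^ 2) * w α) =
      (∫ α in (0 : ℝ)..π, Ps M (evc c) t α ^ 2 * w α) +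
      ∫ α in (0 : ℝ)..π, Ps M (odc c) t α ^ 2 * w α := by
    intro t
    have e1 := cont_slice (f := fun t α : ℝ => Ps M (evc c) t α ^ 2 * w α) h1 t
    have e2 := cont_slice (f := fun t α : ℝ => Ps M (odc c) t α ^ 2 * w α) h2 t
    rw [← intervalIntegral.integral_add (e1.intervalIntegrable _ _) (e2.intervalIntegrable _ _)]
    apply intervalIntegral.integral_congr
    intro α _
    simp only
    ring
  have i1 := (cont_int (f := fun t α : ℝ => Ps M (evc c) t α ^ 2 * w α) h1 0 π).intervalIntegrable (μ := volume) 0 (2 * π)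
  have i2 := (cont_int (f := fun t α : ℝ => Ps M (odc c) t α ^ 2 * w α) h2 0 π).intervalIntegrable (μ := volume) 0 (2 * π)
  simp_rw [h3]
  rw [intervalIntegral.integral_add i1 i2, hPSB M (evc c) w hw, hPSB M (odc c) w hw, ← mul_add,
    ← Finset.sum_add_distrib]
  congr 1
  apply Finset.sum_congr rfl
  intro k _
  rw [← norm_split c k]
  ring

/-- the quartic term -/
theorem quartic (hPSB : SpecPSB) (hCOE : SpecCOE) (hH : SpecHPB) (M : ℕ) (c : ℕ → ℂ)
    (hM : ∀ k, M ≤ k → c k = 0) :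
    36 * (π * ‖c 3‖ ^ 2) ^ 2 ≤
      ∫ t in (0 : ℝ)..(2 * π), (∫ α in (0 : ℝ)..π, sin α ^ 6 * Ps M (odc c) t α ^ 4) := by
  have hco := cont_Ps hH M (odc c)
  have hpi := pi_pos
  set S : ℝ := ∫ t in (0 : ℝ)..(2 * π), (∫ α in (0 : ℝ)..π, Ps M (odc c) t α ^ 2 * sin α ^ 4)
    with hS
  have hSl : 6 * π * (π * ‖c 3‖ ^ 2) ≤ S := by
    rw [hS, hPSB M (odc c) (fun α => sin α ^ 4) (by fun_prop)]
    obtain ⟨-, -, -, -, -, -, -, -, h6, hnn⟩ := hCOE
    rcases Nat.lt_or_ge 3 M with h3 | h3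
    · have h1 : ‖odc c 3‖ ^ 2 * (∫ α in (0 : ℝ)..π, ‖Vk 3 α‖ ^ 2 * sin α ^ 4) ≤
          ∑ k ∈ Finset.range M, ‖odc c k‖ ^ 2 * ∫ α in (0 : ℝ)..π, ‖Vk k α‖ ^ 2 * sin α ^ 4 :=
        Finset.single_le_sum (f := fun k => ‖odc c k‖ ^ 2 * ∫ α in (0 : ℝ)..π, ‖Vk k α‖ ^ 2 *
          sin α ^ 4) (fun k _ => mul_nonneg (by positivity) (hnn k)) (Finset.mem_range.2 h3)
      have h2 : odc c 3 = c 3 := by simp [odc]
      rw [h6, h2] at h1
      calc 6 * π * (π * ‖c 3‖ ^ 2) = π * (‖c 3‖ ^ 2 * (6 * π)) := by ring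
        _ ≤ _ := mul_le_mul_of_nonneg_left h1 hpi.le
    · rw [hM 3 h3]
      simp only [norm_zero, ne_eq, OfNat.ofNat_ne_zero, not_false_eq_true, zero_pow, mul_zero]
      exact mul_nonneg hpi.le (Finset.sum_nonneg (fun k _ => mul_nonneg (by positivity) (hnn k)))
  have hX0 : 0 ≤ π * ‖c 3‖ ^ 2 := by positivity
  have h6 : Continuous (fun x : ℝ × ℝ =>
      (fun t α : ℝ => sin α ^ 6 * Ps M (odc c) t α ^ 4) x.1 x.2) := by
    simp only
    fun_prop
  have h4 : Continuous (fun x : ℝ × ℝ =>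
      (fun t α : ℝ => Ps M (odc c) t α ^ 2 * sin α ^ 4) x.1 x.2) := by
    simp only
    fun_prop
  have hc6 := cont_int (f := fun t α : ℝ => sin α ^ 6 * Ps M (odc c) t α ^ 4) h6 0 π
  have hc4 := cont_int (f := fun t α : ℝ => Ps M (odc c) t α ^ 2 * sin α ^ 4) h4 0 π
  have hsin : ∫ α in (0 : ℝ)..π, sin α ^ 2 = π / 2 := by
    rw [integral_sin_sq]; simp
  set lam : ℝ := S / π ^ 2 with hlam
  have key : ∀ t : ℝ, 2 * lam * (∫ α in (0 : ℝ)..π, Ps M (odc c) t α ^ 2 * sin α ^ 4) -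
      lam ^ 2 * (π / 2) ≤ ∫ α in (0 : ℝ)..π, sin α ^ 6 * Ps M (odc c) t α ^ 4 := by
    intro t
    have e4 := cont_slice (f := fun t α : ℝ => Ps M (odc c) t α ^ 2 * sin α ^ 4) h4 t
    have e6 := cont_slice (f := fun t α : ℝ => sin α ^ 6 * Ps M (odc c) t α ^ 4) h6 t
    have e2 : Continuous (fun α : ℝ => sin α ^ 2) := by fun_prop
    rw [← hsin, ← intervalIntegral.integral_const_mul, ← intervalIntegral.integral_const_mul,
      ← intervalIntegral.integral_sub ((e4.intervalIntegrable _ _).const_mul _)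
        ((e2.intervalIntegrable _ _).const_mul _)]
    apply intervalIntegral.integral_mono_on hpi.le
      (((e4.intervalIntegrable _ _).const_mul _).sub ((e2.intervalIntegrable _ _).const_mul _))
      (e6.intervalIntegrable _ _)
    intro α _
    have := sq_nonneg (sin α ^ 3 * Ps M (odc c) t α ^ 2 - lam * sin α)
    nlinarith [this]
  have hint : ∫ t in (0 : ℝ)..(2 * π), (2 * lam * (∫ α in (0 : ℝ)..π,
      Ps M (odc c) t α ^ 2 * sin α ^ 4) - lam ^ 2 * (π / 2)) ≤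
      ∫ t in (0 : ℝ)..(2 * π), (∫ α in (0 : ℝ)..π, sin α ^ 6 * Ps M (odc c) t α ^ 4) := by
    apply intervalIntegral.integral_mono_on (by positivity)
    · exact ((hc4.intervalIntegrable _ _).const_mul _).sub (intervalIntegrable_const)
    · exact hc6.intervalIntegrable _ _
    · intro t _
      exact key t
  rw [intervalIntegral.integral_sub ((hc4.intervalIntegrable _ _).const_mul _)
    intervalIntegrable_const, intervalIntegral.integral_const_mul, ← hS,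
    intervalIntegral.integral_const] at hint
  have h7 : 2 * lam * S - (2 * π - 0) • (lam ^ 2 * (π / 2)) = S ^ 2 / π ^ 2 := by
    rw [hlam, smul_eq_mul]
    field_simp
    ring
  rw [h7] at hint
  refine le_trans ?_ hint
  rw [le_div_iff₀ (by positivity)]
  have h8 : 0 ≤ 6 * π * (π * ‖c 3‖ ^ 2) := by positivity
  nlinarith [mul_self_le_mul_self h8 hSl]

theorem ii_of_bdd {f : ℝ → ℝ} (hm : Measurable f) {C : ℝ} (hC : ∀ t, |f t| ≤ C) (a b : ℝ)
    (hab : a ≤ b) : IntervalIntegrable f volume a b := by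
  rw [intervalIntegrable_iff_integrableOn_Ioc_of_le hab]
  exact Measure.integrableOn_of_bounded (M := C) (by simp) hm.aestronglyMeasurable
    (ae_of_all _ (fun t => by simpa [Real.norm_eq_abs] using hC t))

theorem cont_FF : Continuous FF := by
  unfold FF
  fun_prop

theorem cont_QF : Continuous QF := by
  unfold QF
  exact intervalIntegral.continuous_primitive (fun a b => cont_FF.intervalIntegrable a b) 0

theorem final_arith (X X3 b δ : ℝ) (hb : 0 < b) (hδ0 : 0 ≤ δ) (hδ : δ ≤ 1 / 100) (h30 : 0 ≤ X3)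
    (h3 : X3 ≤ X) (hX : X ≤ 9 / 2 * π * b ^ 2) :
    X ^ 2 / (8 * π * b ^ 2) ≤ 2 * π / 5 * (X - X3) + 36 * X3 ^ 2 / (12 * ((1 + δ) ^ 2 * b ^ 2)) := by
  have hpi := pi_gt_three
  have hb2 : 0 < b ^ 2 := by positivity
  have h1 : X3 ^ 2 / (4 * π * b ^ 2) ≤ 36 * X3 ^ 2 / (12 * ((1 + δ) ^ 2 * b ^ 2)) := by
    rw [div_le_div_iff₀ (by positivity) (by positivity)]
    have hd : (1 + δ) ^ 2 ≤ 2 := by nlinarith
    have h5 : 12 * ((1 + δ) ^ 2 * b ^ 2) ≤ 36 * (4 * π * b ^ 2) := by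
      have h6 : (1 + δ) ^ 2 * b ^ 2 ≤ 2 * b ^ 2 := mul_le_mul_of_nonneg_right hd hb2.le
      nlinarith
    calc X3 ^ 2 * (12 * ((1 + δ) ^ 2 * b ^ 2)) ≤ X3 ^ 2 * (36 * (4 * π * b ^ 2)) :=
          mul_le_mul_of_nonneg_left h5 (sq_nonneg _)
      _ = 36 * X3 ^ 2 * (4 * π * b ^ 2) := by ring
  have h2 : (X - X3) ^ 2 / (4 * π * b ^ 2) ≤ 2 * π / 5 * (X - X3) := by
    rw [div_le_iff₀ (by positivity)]
    have hY : 0 ≤ X - X3 := by linarith
    have hY2 : X - X3 ≤ 9 / 2 * π * b ^ 2 := by linarith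
    have h7 : (9 / 2 * π * b ^ 2) ≤ 2 * π / 5 * (4 * π * b ^ 2) := by
      have : 0 ≤ π * b ^ 2 := by positivity
      nlinarith
    calc (X - X3) ^ 2 = (X - X3) * (X - X3) := by ring
      _ ≤ (X - X3) * (2 * π / 5 * (4 * π * b ^ 2)) :=
          mul_le_mul_of_nonneg_left (hY2.trans h7) hY
      _ = 2 * π / 5 * (X - X3) * (4 * π * b ^ 2) := by ring
  have h3' : X ^ 2 / (8 * π * b ^ 2) ≤ X3 ^ 2 / (4 * π * b ^ 2) + (X - X3) ^ 2 / (4 * π * b ^ 2) := by
    rw [← add_div, div_le_div_iff₀ (by positivity) (by positivity)]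
    have h8 : X ^ 2 ≤ 2 * (X3 ^ 2 + (X - X3) ^ 2) := by nlinarith [sq_nonneg (X3 - (X - X3))]
    have h9 : 0 ≤ 4 * π * b ^ 2 := by positivity
    calc X ^ 2 * (4 * π * b ^ 2) ≤ 2 * (X3 ^ 2 + (X - X3) ^ 2) * (4 * π * b ^ 2) :=
          mul_le_mul_of_nonneg_right h8 h9
      _ = (X3 ^ 2 + (X - X3) ^ 2) * (8 * π * b ^ 2) := by ring
  linarith

theorem cont_Bh (hH : SpecHPB) (M : ℕ) (c : ℕ → ℂ) : Continuous (Bh (hp M c)) := by
  have : Bh (hp M c) = fun t => hp M (evc c) t := by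
    funext t; exact (hH M c).2.2.2.2.2.1 t
  rw [this]; exact (hH M (evc c)).2.2.1

theorem cont_gh (hH : SpecHPB) (M : ℕ) (c : ℕ → ℂ) : Continuous (gh (hp M c)) := by
  have : gh (hp M c) = fun t => hp M (odc c) t := by
    funext t; exact (hH M c).2.2.2.2.1 t
  rw [this]; exact (hH M (odc c)).2.2.1

/-- the first integral -/
theorem part1 (hGS1 : SpecGS1) (hPSB : SpecPSB) (hLPB : SpecLPB) (hCOE : SpecCOE)
    (hH : SpecHPB) (hGCV : SpecGCV) (hGAG : SpecGAG) (M : ℕ) (c : ℕ → ℂ) (hr : RP M c)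
    (b δ ε : ℝ) (hb : 0 < b) (hδ0 : 0 ≤ δ) (hδ1 : δ ≤ 1 / 100) (hε : 0 ≤ ε)
    (hB : ∀ t, |Bh (hp M c) t - b| ≤ δ * b)
    (hyp : ∀ t α, |sin α ^ 2 * Ps M (evc c) t α| ≤ ε ^ 2 / 2 * Bh (hp M c) t) :
    π * (∑ k ∈ Finset.range M, ‖c k‖ ^ 2 * (Tk k - ε * Uk k)) +
      36 * (π * ‖c 3‖ ^ 2) ^ 2 / (12 * ((1 + δ) ^ 2 * b ^ 2)) ≤
      ∫ t in (0 : ℝ)..(2 * π), IG FF (hp M c) t := by
  have hpi := pi_pos
  have hBpos := hr.2.2
  have hβ : ∀ t, (1 - δ) * b ≤ Bh (hp M c) t := by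
    intro t
    have := (abs_le.1 (hB t)).1
    linarith
  have hBup : ∀ t, Bh (hp M c) t ≤ (1 + δ) * b := by
    intro t
    have := (abs_le.1 (hB t)).2
    linarith
  obtain ⟨mF, CF, bF⟩ := IG_meas hH hGCV hGAG M c hr ((1 - δ) * b)
    (mul_pos (by linarith) hb) hβ FF cont_FF
  have hce := cont_Ps hH M (evc c)
  have hco := cont_Ps hH M (odc c)
  have hQ := cont_QF
  have k1 : Continuous (fun x : ℝ × ℝ => (fun t α : ℝ => QF (cos α) * Ps M (evc c) t α) x.1 x.2) := by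
    have h0 : Continuous (fun x : ℝ × ℝ => QF (cos x.2)) := hQ.comp (by fun_prop)
    simp only
    exact h0.mul hce
  have k2 : Continuous (fun x : ℝ × ℝ => (fun t α : ℝ => (Ps M (evc c) t α ^ 2 +
      Ps M (odc c) t α ^ 2) * (kap * sin α ^ 2 - sin α ^ 3 - ε * sin α ^ 2)) x.1 x.2) := by
    simp only
    fun_prop
  have k3 : Continuous (fun x : ℝ × ℝ => (fun t α : ℝ => sin α ^ 6 * Ps M (odc c) t α ^ 4)
      x.1 x.2) := by
    simp only
    fun_prop
  have c1 : Continuous (fun t => Bh (hp M c) t *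
      (-(∫ α in (0 : ℝ)..π, QF (cos α) * Ps M (evc c) t α))) :=
    (cont_Bh hH M c).mul (cont_int (f := fun t α : ℝ => QF (cos α) * Ps M (evc c) t α) k1 0 π).neg
  have c2 := cont_int (f := fun t α : ℝ => (Ps M (evc c) t α ^ 2 +
      Ps M (odc c) t α ^ 2) * (kap * sin α ^ 2 - sin α ^ 3 - ε * sin α ^ 2)) k2 0 π
  have c3 := cont_int (f := fun t α : ℝ => sin α ^ 6 * Ps M (odc c) t α ^ 4) k3 0 π
  have hC : 0 < 12 * ((1 + δ) ^ 2 * b ^ 2) := by positivity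
  have hpt : ∀ t, 2 * (Bh (hp M c) t * (-(∫ α in (0 : ℝ)..π, QF (cos α) * Ps M (evc c) t α))) +
      (∫ α in (0 : ℝ)..π, (Ps M (evc c) t α ^ 2 + Ps M (odc c) t α ^ 2) *
        (kap * sin α ^ 2 - sin α ^ 3 - ε * sin α ^ 2)) +
      (∫ α in (0 : ℝ)..π, sin α ^ 6 * Ps M (odc c) t α ^ 4) / (12 * ((1 + δ) ^ 2 * b ^ 2)) ≤
      IG FF (hp M c) t := by
    intro t
    have h1 := hGS1 M c hr ε hε hyp t
    have h2 : 0 ≤ ∫ α in (0 : ℝ)..π, sin α ^ 6 * Ps M (odc c) t α ^ 4 := by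
      apply intervalIntegral.integral_nonneg hpi.le
      intro α _
      positivity
    have h3 : 12 * Bh (hp M c) t ^ 2 ≤ 12 * ((1 + δ) ^ 2 * b ^ 2) := by
      have := pow_le_pow_left₀ (hBpos t).le (hBup t) 2
      rw [mul_pow] at this
      linarith
    have h4 : (∫ α in (0 : ℝ)..π, sin α ^ 6 * Ps M (odc c) t α ^ 4) /
        (12 * ((1 + δ) ^ 2 * b ^ 2)) ≤ (∫ α in (0 : ℝ)..π, sin α ^ 6 * Ps M (odc c) t α ^ 4) /
        (12 * Bh (hp M c) t ^ 2) := by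
      apply div_le_div_of_nonneg_left h2 _ h3
      have := hBpos t
      positivity
    linarith
  have j1 := c1.intervalIntegrable (μ := volume) 0 (2 * π)
  have j2 := c2.intervalIntegrable (μ := volume) 0 (2 * π)
  have j3 := c3.intervalIntegrable (μ := volume) 0 (2 * π)
  have hint := intervalIntegral.integral_mono_on (μ := volume) (a := 0) (b := 2 * π)
    (by positivity) (((j1.const_mul 2).add j2).add (j3.div_const (12 * ((1 + δ) ^ 2 * b ^ 2))))
    (ii_of_bdd mF bF 0 (2 * π) (by positivity)) (fun t _ => hpt t)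
  rw [intervalIntegral.integral_add ((j1.const_mul 2).add j2)
    (j3.div_const (12 * ((1 + δ) ^ 2 * b ^ 2))),
    intervalIntegral.integral_add (j1.const_mul 2) j2, intervalIntegral.integral_const_mul,
    intervalIntegral.integral_div, quad_int hPSB hH M c
      (fun α => kap * sin α ^ 2 - sin α ^ 3 - ε * sin α ^ 2) (by fun_prop)] at hint
  simp_rw [int_V] at hint
  have l1 := hLPB M c
  have l2 := quartic hPSB hCOE hH M c hr.1
  have l3 : 36 * (π * ‖c 3‖ ^ 2) ^ 2 / (12 * ((1 + δ) ^ 2 * b ^ 2)) ≤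
      (∫ t in (0 : ℝ)..(2 * π), (∫ α in (0 : ℝ)..π, sin α ^ 6 * Ps M (odc c) t α ^ 4)) /
      (12 * ((1 + δ) ^ 2 * b ^ 2)) := div_le_div_of_nonneg_right l2 hC.le
  linarith

/-- the second integral -/
theorem part2 (hGS2 : SpecGS2) (hPSB : SpecPSB) (hG3B : SpecG3B)
    (hH : SpecHPB) (hGCV : SpecGCV) (hGAG : SpecGAG) (M : ℕ) (c : ℕ → ℂ) (hr : RP M c)
    (b δ σ : ℝ) (hb : 0 < b) (hδ0 : 0 ≤ δ) (hδ1 : δ ≤ 1 / 100) (hσ : 0 ≤ σ)
    (hB : ∀ t, |Bh (hp M c) t - b| ≤ δ * b) (hg : ∀ t, |gh (hp M c) t| ≤ σ * b) :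
    π * ((1 - δ / 2) * (∫ t in (0 : ℝ)..(2 * π), g3f (gh (hp M c)) t ^ 2) -
      δ / 2 * ∫ t in (0 : ℝ)..(2 * π), gh (hp M c) t ^ 2) -
      σ * (π * ∑ k ∈ Finset.range M, ‖c k‖ ^ 2 * Uk k) ≤
    -∫ t in (0 : ℝ)..(2 * π), gh (hp M c) t / b * IG (fun τ => τ) (hp M c) t := by
  have hpi := pi_pos
  have hBpos := hr.2.2
  have hβ : ∀ t, (1 - δ) * b ≤ Bh (hp M c) t := by
    intro t
    have := (abs_le.1 (hB t)).1
    linarith
  obtain ⟨mI, CI, bI⟩ := IG_meas hH hGCV hGAG M c hr ((1 - δ) * b)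
    (mul_pos (by linarith) hb) hβ (fun τ => τ) continuous_id
  obtain ⟨q1, -, -, q4, -⟩ := hG3B M c hr.1
  have hce := cont_Ps hH M (evc c)
  have hco := cont_Ps hH M (odc c)
  have hgc := cont_gh hH M c
  have h3c : Continuous (g3f (gh (hp M c))) := by
    have : g3f (gh (hp M c)) = fun t => hp M (fun k => if 3 ≤ k then odc c k else 0) t := by
      funext t; exact q1 t
    rw [this]; exact (hH M _).2.2.1
  have kJ : Continuous (fun x : ℝ × ℝ => (fun t α : ℝ => (Ps M (evc c) t α ^ 2 +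
      Ps M (odc c) t α ^ 2) * sin α ^ 2) x.1 x.2) := by
    simp only
    fun_prop
  have cJ := cont_int (f := fun t α : ℝ => (Ps M (evc c) t α ^ 2 +
      Ps M (odc c) t α ^ 2) * sin α ^ 2) kJ 0 π
  have hpt : ∀ t, π * (gh (hp M c) t * g3f (gh (hp M c)) t) -
      π * (δ / 2) * (gh (hp M c) t ^ 2 + g3f (gh (hp M c)) t ^ 2) -
      σ * (∫ α in (0 : ℝ)..π, (Ps M (evc c) t α ^ 2 + Ps M (odc c) t α ^ 2) * sin α ^ 2) ≤
      -(gh (hp M c) t / b * IG (fun τ => τ) (hp M c) t) := by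
    intro t
    have h1 := hGS2 M c hr t
    rw [← q1 t] at h1
    set J := ∫ α in (0 : ℝ)..π, (Ps M (evc c) t α ^ 2 + Ps M (odc c) t α ^ 2) * sin α ^ 2
    set g := gh (hp M c) t
    set g3 := g3f (gh (hp M c)) t
    set B := Bh (hp M c) t
    set I := IG (fun τ => τ) (hp M c) t
    have hJ : 0 ≤ J := (abs_nonneg _).trans h1
    have h2 : |g / b| ≤ σ := by
      rw [abs_div, abs_of_pos hb, div_le_iff₀ hb]
      exact hg t
    have h3 : -(g / b * (I + π * B * g3)) ≥ -(σ * J) := by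
      have : |g / b * (I + π * B * g3)| ≤ σ * J := by
        rw [abs_mul]
        exact mul_le_mul h2 h1 (abs_nonneg _) hσ
      linarith [(abs_le.1 this).2]
    have h4 : |B / b - 1| ≤ δ := by
      have e : B / b - 1 = (B - b) / b := by field_simp
      rw [e, abs_div, abs_of_pos hb, div_le_iff₀ hb]
      exact hB t
    have h5 : (B / b - 1) * (g * g3) ≥ -(δ / 2 * (g ^ 2 + g3 ^ 2)) := by
      have e1 : |(B / b - 1) * (g * g3)| ≤ δ * ((g ^ 2 + g3 ^ 2) / 2) := by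
        rw [abs_mul]
        apply mul_le_mul h4 _ (abs_nonneg _) hδ0
        rw [abs_le]
        constructor <;> nlinarith [sq_nonneg (g - g3), sq_nonneg (g + g3)]
      have := (abs_le.1 e1).1
      linarith
    have h6 : -(g / b * I) = -(g / b * (I + π * B * g3)) + π * (g * g3) +
        π * ((B / b - 1) * (g * g3)) := by
      field_simp
      ring
    rw [h6]
    have h7 : π * ((B / b - 1) * (g * g3)) ≥ π * (-(δ / 2 * (g ^ 2 + g3 ^ 2))) :=
      mul_le_mul_of_nonneg_left h5 hpi.le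
    linarith
  have i1 : IntervalIntegrable (fun t => gh (hp M c) t * g3f (gh (hp M c)) t) volume 0 (2 * π) :=
    (hgc.mul h3c).intervalIntegrable _ _
  have i2 : IntervalIntegrable (fun t => gh (hp M c) t ^ 2) volume 0 (2 * π) :=
    (hgc.pow 2).intervalIntegrable _ _
  have i3 : IntervalIntegrable (fun t => g3f (gh (hp M c)) t ^ 2) volume 0 (2 * π) :=
    (h3c.pow 2).intervalIntegrable _ _
  have i4 := cJ.intervalIntegrable (μ := volume) 0 (2 * π)
  have i5 : IntervalIntegrable (fun t => -(gh (hp M c) t / b * IG (fun τ => τ) (hp M c) t))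
      volume 0 (2 * π) := by
    refine ii_of_bdd (C := σ * CI) ((hgc.measurable.div_const b).mul mI).neg (fun t => ?_) 0 (2 * π)
      (by positivity)
    show |-(gh (hp M c) t / b * IG (fun τ => τ) (hp M c) t)| ≤ σ * CI
    rw [abs_neg, abs_mul]
    refine mul_le_mul ?_ (bI t) (abs_nonneg _) hσ
    rw [abs_div, abs_of_pos hb, div_le_iff₀ hb]
    exact hg t
  have hint := intervalIntegral.integral_mono_on (μ := volume) (a := 0) (b := 2 * π)
    (by positivity) (((i1.const_mul π).sub ((i2.add i3).const_mul (π * (δ / 2)))).sub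
    (i4.const_mul σ)) i5 (fun t _ => hpt t)
  rw [intervalIntegral.integral_sub ((i1.const_mul π).sub ((i2.add i3).const_mul (π * (δ / 2))))
    (i4.const_mul σ), intervalIntegral.integral_sub (i1.const_mul π)
    ((i2.add i3).const_mul (π * (δ / 2))), intervalIntegral.integral_const_mul,
    intervalIntegral.integral_const_mul, intervalIntegral.integral_const_mul,
    intervalIntegral.integral_add i2 i3, intervalIntegral.integral_neg,
    quad_int hPSB hH M c (fun α => sin α ^ 2) (by fun_prop)] at hint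
  have h8 := q4 0 0
  simp only [zero_mul, sub_zero] at h8
  rw [h8] at hint
  unfold Uk
  linarith

theorem sum_le (hCOE : SpecCOE) (hG3B : SpecG3B) (M : ℕ) (c : ℕ → ℂ)
    (hM : ∀ k, M ≤ k → c k = 0) (b θ : ℝ) (hθ0 : 0 ≤ θ) (hθ : θ ≤ 1 / 20) :
    (1 / 20 - θ) * (8 * π) * (∫ t in (0 : ℝ)..(2 * π), g3f (gh (hp M c)) t ^ 2) -
      8 * π / 20 * (π * ‖c 3‖ ^ 2) -
      θ * (2 * π) * (∫ t in (0 : ℝ)..(2 * π), (Bh (hp M c) t - b) ^ 2) ≤
    π * (∑ k ∈ Finset.range M, ‖c k‖ ^ 2 * (Tk k - θ * Uk k)) := by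
  have hpi := pi_pos
  obtain ⟨-, q2, q3, -, -⟩ := hG3B M c hM
  rw [q3]
  have h1 : ∑ k ∈ Finset.range M, ((1 / 20 - θ) * (8 * π) * (if 3 ≤ k then ‖odc c k‖ ^ 2 else 0) -
      (if k = 3 then 8 * π / 20 * ‖c 3‖ ^ 2 else 0) -
      (if k = 2 then θ * (2 * π) * ‖c 2‖ ^ 2 else 0)) ≤
      ∑ k ∈ Finset.range M, ‖c k‖ ^ 2 * (Tk k - θ * Uk k) :=
    Finset.sum_le_sum (fun k _ => term_le hCOE c θ hθ0 hθ k)
  rw [Finset.sum_sub_distrib, Finset.sum_sub_distrib, ← Finset.mul_sum] at h1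
  have h2 : ∑ k ∈ Finset.range M, (if k = 3 then 8 * π / 20 * ‖c 3‖ ^ 2 else 0) ≤
      8 * π / 20 * ‖c 3‖ ^ 2 := by
    rw [Finset.sum_ite_eq']
    split_ifs
    · exact le_rfl
    · positivity
  have h3 : ∑ k ∈ Finset.range M, (if k = 2 then θ * (2 * π) * ‖c 2‖ ^ 2 else 0) ≤
      θ * (2 * π) * ‖c 2‖ ^ 2 := by
    rw [Finset.sum_ite_eq']
    split_ifs
    · exact le_rfl
    · positivity
  have h4 : θ * (2 * π) * (π * ‖c 2‖ ^ 2) ≤
      θ * (2 * π) * (∫ t in (0 : ℝ)..(2 * π), (Bh (hp M c) t - b) ^ 2) :=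
    mul_le_mul_of_nonneg_left (q2 b) (by positivity)
  have h5 := mul_le_mul_of_nonneg_left h1 hpi.le
  have h6 := mul_le_mul_of_nonneg_left h2 hpi.le
  have h7 := mul_le_mul_of_nonneg_left h3 hpi.le
  nlinarith [h4, h5, h6, h7]

end GSMM

open GSMM in
theorem specGSM (hGS1 : SpecGS1) (hGS2 : SpecGS2) (hGS3 : SpecGS3) (hPSB : SpecPSB)
    (hLPB : SpecLPB) (hG3B : SpecG3B) (hCOE : SpecCOE) (hHPB : SpecHPB) (hGCV : SpecGCV)
    (hGAG : SpecGAG) : SpecGSM := by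
  intro M c hr b δ ε l σ hb hδ0 hε hl hσ hδ hθ hσ2 hB hg
  have hpi := pi_pos
  have hls : 0 ≤ l * σ := mul_nonneg hl hσ
  have hε20 : ε ≤ 1 / 20 := by linarith
  have hδ1 : δ ≤ 1 / 100 := by
    have := pow_le_pow_left₀ hε.le hε20 4
    norm_num at this
    linarith
  have hsq : √δ ≤ ε ^ 2 / 16 := by
    rw [Real.sqrt_le_left (by positivity)]
    calc δ ≤ ε ^ 4 / 256 := hδ
      _ = (ε ^ 2 / 16) ^ 2 := by ring
  have hyp : ∀ t α, |sin α ^ 2 * Ps M (evc c) t α| ≤ ε ^ 2 / 2 * Bh (hp M c) t := by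
    intro t α
    have h1 := hGS3 M c hr b δ hb hδ0 hδ1 hB t α
    have h2 : 5 * √δ * Bh (hp M c) t ≤ ε ^ 2 / 2 * Bh (hp M c) t := by
      apply mul_le_mul_of_nonneg_right _ (hr.2.2 t).le
      nlinarith [sq_nonneg ε]
    exact h1.trans h2
  have p1 := part1 hGS1 hPSB hLPB hCOE hHPB hGCV hGAG M c hr b δ ε hb hδ0 hδ1 hε.le hB hyp
  have p2 := part2 hGS2 hPSB hG3B hHPB hGCV hGAG M c hr b δ σ hb hδ0 hδ1 hσ hB hg
  have p3 := sum_le hCOE hG3B M c hr.1 b (ε + l * σ) (by positivity) hθ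
  obtain ⟨-, -, q3, -, q5⟩ := hG3B M c hr.1
  have hgc := cont_gh hHPB M c
  set X := ∫ t in (0 : ℝ)..(2 * π), g3f (gh (hp M c)) t ^ 2 with hX
  set D := ∫ t in (0 : ℝ)..(2 * π), (Bh (hp M c) t - b) ^ 2 with hD
  set Y := ∫ t in (0 : ℝ)..(2 * π), gh (hp M c) t ^ 2 with hY
  set X3 := π * ‖c 3‖ ^ 2 with hX3
  have h30 : 0 ≤ X3 := by positivity
  have h3X : X3 ≤ X := by
    rw [q3, hX3]
    apply mul_le_mul_of_nonneg_left _ hpi.le
    rcases Nat.lt_or_ge 3 M with h3 | h3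
    · have h1 := Finset.single_le_sum (f := fun k => if 3 ≤ k then ‖odc c k‖ ^ 2 else 0)
        (s := Finset.range M) (fun k _ => by split_ifs <;> positivity) (Finset.mem_range.2 h3)
      have h2 : odc c 3 = c 3 := by simp [odc]
      simp only [le_refl, if_true, h2] at h1
      exact h1
    · rw [hr.1 3 h3]
      simp only [norm_zero, ne_eq, OfNat.ofNat_ne_zero, not_false_eq_true, zero_pow]
      exact Finset.sum_nonneg (fun k _ => by split_ifs <;> positivity)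
  have hXY : X ≤ Y := by
    have := q5 0 0
    simp only [zero_mul, sub_zero] at this
    exact this
  have hYb : Y ≤ 9 / 2 * π * b ^ 2 := by
    have h1 : Y ≤ ∫ t in (0 : ℝ)..(2 * π), (σ * b) ^ 2 := by
      apply intervalIntegral.integral_mono_on (by positivity)
        ((hgc.pow 2).intervalIntegrable _ _) intervalIntegrable_const
      intro t _
      exact sq_le_sq' (by linarith [(abs_le.1 (hg t)).1]) (abs_le.1 (hg t)).2
    rw [intervalIntegral.integral_const, smul_eq_mul, sub_zero] at h1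
    have h2 : σ ^ 2 ≤ 9 / 4 := by nlinarith
    have h3 : 0 ≤ 2 * π * b ^ 2 := by positivity
    calc Y ≤ 2 * π * (σ * b) ^ 2 := h1
      _ = 2 * π * b ^ 2 * σ ^ 2 := by ring
      _ ≤ 2 * π * b ^ 2 * (9 / 4) := mul_le_mul_of_nonneg_left h2 h3
      _ = 9 / 2 * π * b ^ 2 := by ring
  have p4 := final_arith X X3 b δ hb hδ0 hδ1 h30 h3X (hXY.trans hYb)
  have p5 : π * (∑ k ∈ Finset.range M, ‖c k‖ ^ 2 * (Tk k - (ε + l * σ) * Uk k)) =
      π * (∑ k ∈ Finset.range M, ‖c k‖ ^ 2 * (Tk k - ε * Uk k)) -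
      l * (σ * (π * ∑ k ∈ Finset.range M, ‖c k‖ ^ 2 * Uk k)) := by
    have : ∀ k, ‖c k‖ ^ 2 * (Tk k - (ε + l * σ) * Uk k) =
      ‖c k‖ ^ 2 * (Tk k - ε * Uk k) - l * σ * (‖c k‖ ^ 2 * Uk k) := fun k => by ring
    simp_rw [this]
    rw [Finset.sum_sub_distrib, ← Finset.mul_sum]
    ring
  rw [p5] at p3
  have p6 := mul_le_mul_of_nonneg_left p2 hl
  unfold PNh
  rw [← hX, ← hD, ← hY]
  nlinarith [p1, p3, p4, p6]

end Pool.Agent.Lib.MP_084b88_gt.CW
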