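import Pool.Agent.Lib.MP_084b88_gt.CW.SpecD

/-!
# MP_084b88_gt, project CW: module ISO

The planar isoperimetric inequality from the planar Steiner formula (PST) and the Brunn-Minkowski
inequality in the plane (proved here with the quantile map).
-/

set_option autoImplicit false

open MeasureTheory Set Real Filter Topology
open scoped Pointwise InnerProductSpace

namespace Pool.Agent.Lib.MP_084b88_gt.CW

namespace ISOM

/-- Vertical slice. -/
def sl (Q : Set (ℝ × ℝ)) (x : ℝ) : Set ℝ := Prod.mk x ⁻¹' Q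

/-- Length of the vertical slice. -/
noncomputable def fs (Q : Set (ℝ × ℝ)) (x : ℝ) : ℝ := (volume (sl Q x)).toReal

theorem sl_convex {Q : Set (ℝ × ℝ)} (hQ : CC Q) (x : ℝ) : Convex ℝ (sl Q x) := by
  intro y hy z hz a b ha hb hab
  have h := hQ.1 hy hz ha hb hab
  have e : a • ((x, y) : ℝ × ℝ) + b • ((x, z) : ℝ × ℝ) = (x, a • y + b • z) := by
    ext
    · simp only [Prod.smul_mk, Prod.mk_add_mk, smul_eq_mul]
      rw [← add_mul, hab, one_mul]
    · simp
  rw [e] at h
  exact h

theorem sl_compact {Q : Set (ℝ × ℝ)} (hQ : CC Q) (x : ℝ) : IsCompact (sl Q x) := by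
  refine IsCompact.of_isClosed_subset (hQ.2.1.image continuous_snd) ?_ ?_
  · exact hQ.2.1.isClosed.preimage (by fun_prop)
  · intro y hy
    exact ⟨(x, y), hy, rfl⟩

theorem slice_lb {Q : Set (ℝ × ℝ)} (hQ : CC Q) {x l u : ℝ} (hl : (x, l) ∈ Q) (hu : (x, u) ∈ Q) :
    ENNReal.ofReal (u - l) ≤ volume (sl Q x) := by
  rcases le_total l u with h | h
  · have hs : Icc l u ⊆ sl Q x := (sl_convex hQ x).ordConnected.out hl hu
    calc ENNReal.ofReal (u - l) = volume (Icc l u) := by rw [Real.volume_Icc]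
      _ ≤ _ := measure_mono hs
  · rw [ENNReal.ofReal_of_nonpos (by linarith)]
    exact bot_le

theorem slice_ex {Q : Set (ℝ × ℝ)} (hQ : CC Q) {x : ℝ} (hx : x ∈ Prod.fst '' Q) :
    ∃ l u : ℝ, l ≤ u ∧ (x, l) ∈ Q ∧ (x, u) ∈ Q ∧ volume (sl Q x) = ENNReal.ofReal (u - l) := by
  obtain ⟨p, hp, hpx⟩ := hx
  have hne : (sl Q x).Nonempty := ⟨p.2, by
    change (x, p.2) ∈ Q
    rw [← hpx]
    exact hp⟩
  have hk := sl_compact hQ x
  have hconn : IsConnected (sl Q x) := ⟨hne, (sl_convex hQ x).isPreconnected⟩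
  have h := eq_Icc_of_connected_compact hconn hk
  refine ⟨sInf (sl Q x), sSup (sl Q x), ?_, hk.sInf_mem hne, hk.sSup_mem hne, ?_⟩
  · exact Real.sInf_le_sSup _ hk.bddBelow hk.bddAbove
  · conv_lhs => rw [h]
    rw [Real.volume_Icc]

theorem sl_lt_top {Q : Set (ℝ × ℝ)} (hQ : CC Q) (x : ℝ) : volume (sl Q x) < ⊤ :=
  (sl_compact hQ x).measure_lt_top

theorem fs_nonneg (Q : Set (ℝ × ℝ)) (x : ℝ) : 0 ≤ fs Q x := ENNReal.toReal_nonneg

theorem fs_ex {Q : Set (ℝ × ℝ)} (hQ : CC Q) {x : ℝ} (hx : x ∈ Prod.fst '' Q) :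
    ∃ l u : ℝ, l ≤ u ∧ (x, l) ∈ Q ∧ (x, u) ∈ Q ∧ fs Q x = u - l := by
  obtain ⟨l, u, hlu, hl, hu, h⟩ := slice_ex hQ hx
  exact ⟨l, u, hlu, hl, hu, by rw [fs, h, ENNReal.toReal_ofReal (by linarith)]⟩

theorem fs_lb {Q : Set (ℝ × ℝ)} (hQ : CC Q) {x l u : ℝ} (hl : (x, l) ∈ Q) (hu : (x, u) ∈ Q) :
    u - l ≤ fs Q x := by
  have h := slice_lb hQ hl hu
  have h2 := ENNReal.toReal_mono (sl_lt_top hQ x).ne h
  rcases le_total 0 (u - l) with h0 | h0
  · rwa [ENNReal.toReal_ofReal h0] at h2
  · exact h0.trans (fs_nonneg Q x)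

theorem fs_out {Q : Set (ℝ × ℝ)} {x : ℝ} (hx : x ∉ Prod.fst '' Q) : fs Q x = 0 := by
  have : sl Q x = ∅ := by
    rw [Set.eq_empty_iff_forall_notMem]
    intro y hy
    exact hx ⟨(x, y), hy, rfl⟩
  rw [fs, this]
  simp

theorem fst_Icc {Q : Set (ℝ × ℝ)} (hQ : CC Q) :
    ∃ α β : ℝ, α ≤ β ∧ Prod.fst '' Q = Icc α β := by
  have hk : IsCompact (Prod.fst '' Q) := hQ.2.1.image continuous_fst
  have hc : IsConnected (Prod.fst '' Q) :=
    ⟨hQ.2.2.image _, hQ.1.isPreconnected.image _ continuous_fst.continuousOn⟩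
  exact ⟨_, _, Real.sInf_le_sSup _ hk.bddBelow hk.bddAbove, eq_Icc_of_connected_compact hc hk⟩

theorem fs_concave {Q : Set (ℝ × ℝ)} (hQ : CC Q) : ConcaveOn ℝ (Prod.fst '' Q) (fs Q) := by
  refine ⟨?_, ?_⟩
  · have := hQ.1.linear_image (LinearMap.fst ℝ ℝ ℝ)
    exact this
  · intro x hx y hy a b ha hb hab
    obtain ⟨l1, u1, -, h1, h2, e1⟩ := fs_ex hQ hx
    obtain ⟨l2, u2, -, h3, h4, e2⟩ := fs_ex hQ hy
    have hL := hQ.1 h1 h3 ha hb hab
    have hU := hQ.1 h2 h4 ha hb hab
    have eL : a • ((x, l1) : ℝ × ℝ) + b • ((y, l2) : ℝ × ℝ) = (a • x + b • y, a * l1 + b * l2) := by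
      simp
    have eU : a • ((x, u1) : ℝ × ℝ) + b • ((y, u2) : ℝ × ℝ) = (a • x + b • y, a * u1 + b * u2) := by
      simp
    rw [eL] at hL
    rw [eU] at hU
    have := fs_lb hQ hL hU
    rw [e1, e2]
    simp only [smul_eq_mul] at this ⊢
    linarith

theorem fs_meas {Q : Set (ℝ × ℝ)} (hQ : CC Q) : Measurable (fun x => volume (sl Q x)) :=
  measurable_measure_prodMk_left hQ.2.1.isClosed.measurableSet

theorem vol_eq {Q : Set (ℝ × ℝ)} (hQ : CC Q) : volume Q = ∫⁻ x, volume (sl Q x) := by
  rw [Measure.volume_eq_prod, Measure.prod_apply hQ.2.1.isClosed.measurableSet]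
  rfl

theorem area_eq {Q : Set (ℝ × ℝ)} (hQ : CC Q) : area Q = ∫ x, fs Q x := by
  rw [area, vol_eq hQ]
  exact (integral_toReal (fs_meas hQ).aemeasurable
    (Filter.Eventually.of_forall fun x => sl_lt_top hQ x)).symm

theorem fs_bdd {Q : Set (ℝ × ℝ)} (hQ : CC Q) : ∃ C : ℝ, ∀ x, fs Q x ≤ C := by
  have hk : IsCompact (Prod.snd '' Q) := hQ.2.1.image continuous_snd
  refine ⟨(volume (Prod.snd '' Q)).toReal, fun x => ?_⟩
  refine ENNReal.toReal_mono hk.measure_lt_top.ne (measure_mono ?_)
  intro y hy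
  exact ⟨(x, y), hy, rfl⟩

theorem fs_integrable {Q : Set (ℝ × ℝ)} (hQ : CC Q) : Integrable (fs Q) := by
  obtain ⟨C, hC⟩ := fs_bdd hQ
  have hk : IsCompact (Prod.fst '' Q) := hQ.2.1.image continuous_fst
  have h1 : IntegrableOn (fs Q) (Prod.fst '' Q) := by
    refine Measure.integrableOn_of_bounded (M := C) hk.measure_lt_top.ne
      (fs_meas hQ).ennreal_toReal.aestronglyMeasurable ?_
    refine Filter.Eventually.of_forall fun x => ?_
    rw [Real.norm_eq_abs, abs_of_nonneg (fs_nonneg Q x)]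
    exact hC x
  rw [← integrableOn_univ]
  refine IntegrableOn.of_forall_sdiff_eq_zero h1 MeasurableSet.univ ?_
  intro x hx
  exact fs_out hx.2

/-- The quantile map. -/
theorem quantile {Q : Set (ℝ × ℝ)} (hQ : CC Q) (hA : 0 < area Q) :
    ∃ X : ℝ → ℝ, ∀ s ∈ Ioo (0 : ℝ) 1, X s ∈ Prod.fst '' Q ∧ 0 < fs Q (X s) ∧
      HasDerivAt X (area Q / fs Q (X s)) s := by
  obtain ⟨α, β, hαβ, hP⟩ := fst_Icc hQ
  have hconc := fs_concave hQ
  rw [hP] at hconc
  -- area as an interval integral
  have hint := fs_integrable hQ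
  have hAI : area Q = ∫ x in α..β, fs Q x := by
    rw [area_eq hQ, intervalIntegral.integral_of_le hαβ, ← integral_Icc_eq_integral_Ioc]
    rw [setIntegral_eq_integral_of_forall_compl_eq_zero]
    intro x hx
    rw [← hP] at hx
    exact fs_out hx
  have hlt : α < β := by
    rcases hαβ.lt_or_eq with h | h
    · exact h
    · rw [h, intervalIntegral.integral_same] at hAI
      linarith
  -- positivity in the interior
  have hpos : ∀ x ∈ Ioo α β, 0 < fs Q x := by
    intro x hx
    by_contra hcon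
    have hx0 : fs Q x = 0 := le_antisymm (not_lt.1 hcon) (fs_nonneg Q x)
    have hz : ∀ y ∈ Icc α β, fs Q y = 0 := by
      intro y hy
      refine le_antisymm ?_ (fs_nonneg Q y)
      rcases lt_trichotomy y x with h | h | h
      · -- x = a y + b β
        have hb : 0 < β - y := by linarith [hx.2]
        have := hconc.2 hy (right_mem_Icc.2 hαβ)
          (show 0 ≤ (β - x) / (β - y) by apply div_nonneg <;> linarith [hx.2])
          (show 0 ≤ (x - y) / (β - y) by apply div_nonneg <;> linarith)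
          (by field_simp; ring)
        have e : ((β - x) / (β - y)) • y + ((x - y) / (β - y)) • β = x := by
          simp only [smul_eq_mul]; field_simp; ring
        rw [e, hx0] at this
        simp only [smul_eq_mul] at this
        have h1 : 0 < (β - x) / (β - y) := div_pos (by linarith [hx.2]) hb
        have h2 : 0 ≤ (x - y) / (β - y) * fs Q β :=
          mul_nonneg (by apply div_nonneg <;> linarith) (fs_nonneg _ _)
        by_contra hc
        have h3 := mul_pos h1 (not_le.1 hc)
        linarith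
      · rw [h, hx0]
      · have hb : 0 < y - α := by linarith [hx.1]
        have := hconc.2 hy (left_mem_Icc.2 hαβ)
          (show 0 ≤ (x - α) / (y - α) by apply div_nonneg <;> linarith [hx.1])
          (show 0 ≤ (y - x) / (y - α) by apply div_nonneg <;> linarith)
          (by field_simp; ring)
        have e : ((x - α) / (y - α)) • y + ((y - x) / (y - α)) • α = x := by
          simp only [smul_eq_mul]; field_simp; ring
        rw [e, hx0] at this
        simp only [smul_eq_mul] at this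
        have h1 : 0 < (x - α) / (y - α) := div_pos (by linarith [hx.1]) hb
        have h2 : 0 ≤ (y - x) / (y - α) * fs Q α :=
          mul_nonneg (by apply div_nonneg <;> linarith) (fs_nonneg _ _)
        by_contra hc
        have h3 := mul_pos h1 (not_le.1 hc)
        linarith
    have : area Q = 0 := by
      rw [area_eq hQ]
      have hf : fs Q = fun _ => 0 := by
        funext y
        by_cases hy : y ∈ Prod.fst '' Q
        · rw [hP] at hy
          exact hz y hy
        · exact fs_out hy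
      rw [hf, integral_zero]
    linarith
  -- continuity in the interior
  have hcont : ContinuousOn (fs Q) (Ioo α β) :=
    (hconc.subset Ioo_subset_Icc_self (convex_Ioo α β)).continuousOn isOpen_Ioo
  set F : ℝ → ℝ := fun x => ∫ t in α..x, fs Q t with hF
  have hFc : Continuous F := intervalIntegral.continuous_primitive
    (fun a b => hint.intervalIntegrable) α
  have hFd : ∀ x ∈ Ioo α β, HasDerivAt F (fs Q x) x := by
    intro x hx
    refine intervalIntegral.integral_hasDerivAt_right hint.intervalIntegrable ?_ ?_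
    · exact hint.1.stronglyMeasurableAtFilter
    · exact hcont.continuousAt (Ioo_mem_nhds hx.1 hx.2)
  have hFm : StrictMonoOn F (Icc α β) := by
    refine strictMonoOn_of_deriv_pos (convex_Icc α β) hFc.continuousOn ?_
    intro x hx
    rw [interior_Icc] at hx
    rw [(hFd x hx).deriv]
    exact hpos x hx
  have hF0 : F α = 0 := by simp [hF]
  have hF1 : F β = area Q := hAI.symm
  have hex : ∀ s ∈ Ioo (0 : ℝ) 1, ∃ x ∈ Ioo α β, F x = s * area Q := by
    intro s hs
    have h1 : s * area Q ∈ Icc (F α) (F β) := by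
      rw [hF0, hF1]
      constructor
      · exact mul_nonneg hs.1.le hA.le
      · nlinarith [hs.2]
    obtain ⟨x, hx, hxs⟩ := intermediate_value_Icc hαβ hFc.continuousOn h1
    refine ⟨x, ⟨lt_of_le_of_ne hx.1 ?_, lt_of_le_of_ne hx.2 ?_⟩, hxs⟩
    · intro h
      rw [← h, hF0] at hxs
      have := mul_pos hs.1 hA
      linarith
    · intro h
      rw [h, hF1] at hxs
      nlinarith [hs.2]
  choose! X hX1 hX2 using hex
  have hXm : StrictMonoOn X (Ioo 0 1) := by
    intro s hs t ht hst
    have h1 := hX1 s hs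
    have h2 := hX1 t ht
    rw [← hFm.lt_iff_lt (Ioo_subset_Icc_self h1) (Ioo_subset_Icc_self h2), hX2 s hs, hX2 t ht]
    exact mul_lt_mul_of_pos_right hst hA
  have hXi : X '' Ioo 0 1 = Ioo α β := by
    apply Subset.antisymm
    · rintro _ ⟨s, hs, rfl⟩
      exact hX1 s hs
    · intro x hx
      have h1 : F α < F x := hFm (left_mem_Icc.2 hαβ) (Ioo_subset_Icc_self hx) hx.1
      have h2 : F x < F β := hFm (Ioo_subset_Icc_self hx) (right_mem_Icc.2 hαβ) hx.2
      rw [hF0] at h1
      rw [hF1] at h2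
      have hs : F x / area Q ∈ Ioo (0 : ℝ) 1 := ⟨div_pos h1 hA, (div_lt_one hA).2 h2⟩
      refine ⟨F x / area Q, hs, ?_⟩
      apply hFm.injOn (Ioo_subset_Icc_self (hX1 _ hs)) (Ioo_subset_Icc_self hx)
      rw [hX2 _ hs]
      field_simp
  refine ⟨X, fun s hs => ⟨?_, hpos _ (hX1 s hs), ?_⟩⟩
  · rw [hP]
    exact Ioo_subset_Icc_self (hX1 s hs)
  · have hXc : ContinuousAt X s := by
      refine continuousAt_of_monotoneOn_of_image_mem_nhds hXm.monotoneOn
        (Ioo_mem_nhds hs.1 hs.2) ?_
      rw [hXi]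
      exact Ioo_mem_nhds (hX1 s hs).1 (hX1 s hs).2
    have hd : HasDerivAt (fun x => F x / area Q) (fs Q (X s) / area Q) (X s) :=
      (hFd _ (hX1 s hs)).div_const _
    have := HasDerivAt.of_local_left_inverse hXc hd (div_pos (hpos _ (hX1 s hs)) hA).ne' (by
      filter_upwards [Ioo_mem_nhds hs.1 hs.2] with t ht
      rw [hX2 t ht]
      field_simp)
    rwa [inv_div] at this

theorem CC_add {Q Q' : Set (ℝ × ℝ)} (hQ : CC Q) (hQ' : CC Q') : CC (Q + Q') :=
  ⟨hQ.1.add hQ'.1, hQ.2.1.add hQ'.2.1, hQ.2.2.add hQ'.2.2⟩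

/-- The planar Brunn-Minkowski inequality for compact convex sets. -/
theorem brunnMinkowski {Q Q' : Set (ℝ × ℝ)} (hQ : CC Q) (hQ' : CC Q') (hA : 0 < area Q)
    (hA' : 0 < area Q') :
    area Q + area Q' + 2 * √(area Q * area Q') ≤ area (Q + Q') := by
  obtain ⟨X, hX⟩ := quantile hQ hA
  obtain ⟨Y, hY⟩ := quantile hQ' hA'
  have hS := CC_add hQ hQ'
  set A := area Q with hAd
  set A' := area Q' with hAd'
  have hd : ∀ s ∈ Ioo (0 : ℝ) 1, HasDerivAt (fun s => X s + Y s)
      (A / fs Q (X s) + A' / fs Q' (Y s)) s := fun s hs => (hX s hs).2.2.add (hY s hs).2.2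
  have hpos : ∀ s ∈ Ioo (0 : ℝ) 1, 0 < A / fs Q (X s) + A' / fs Q' (Y s) := fun s hs =>
    add_pos (div_pos hA (hX s hs).2.1) (div_pos hA' (hY s hs).2.1)
  have hmono : StrictMonoOn (fun s => X s + Y s) (Ioo (0 : ℝ) 1) := by
    refine strictMonoOn_of_deriv_pos (convex_Ioo 0 1)
      (fun s hs => (hd s hs).continuousAt.continuousWithinAt) ?_
    intro s hs
    rw [interior_Ioo] at hs
    rw [(hd s hs).deriv]
    exact hpos s hs
  have hcv := lintegral_image_eq_lintegral_abs_deriv_mul (s := Ioo (0 : ℝ) 1)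
    (f := fun s => X s + Y s) (f' := fun s => A / fs Q (X s) + A' / fs Q' (Y s))
    measurableSet_Ioo (fun s hs => (hd s hs).hasDerivWithinAt) hmono.injOn
    (fun z => volume (sl (Q + Q') z))
  have hmain : ENNReal.ofReal (A + A' + 2 * √(A * A')) ≤ volume (Q + Q') := by
    calc ENNReal.ofReal (A + A' + 2 * √(A * A'))
        = ∫⁻ _ in Ioo (0 : ℝ) 1, ENNReal.ofReal (A + A' + 2 * √(A * A')) := by
          rw [setLIntegral_const, Real.volume_Ioo]; simp
      _ ≤ ∫⁻ s in Ioo (0 : ℝ) 1, ENNReal.ofReal |A / fs Q (X s) + A' / fs Q' (Y s)| *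
            volume (sl (Q + Q') (X s + Y s)) := by
          refine setLIntegral_mono' measurableSet_Ioo ?_
          intro s hs
          obtain ⟨hx1, hx2, -⟩ := hX s hs
          obtain ⟨hy1, hy2, -⟩ := hY s hs
          obtain ⟨l1, u1, -, h1, h2, e1⟩ := fs_ex hQ hx1
          obtain ⟨l2, u2, -, h3, h4, e2⟩ := fs_ex hQ' hy1
          have hL : (X s + Y s, l1 + l2) ∈ Q + Q' := Set.add_mem_add h1 h3
          have hU : (X s + Y s, u1 + u2) ∈ Q + Q' := Set.add_mem_add h2 h4
          have hsl := slice_lb hS hL hU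
          have e3 : u1 + u2 - (l1 + l2) = fs Q (X s) + fs Q' (Y s) := by rw [e1, e2]; ring
          rw [e3] at hsl
          rw [abs_of_pos (hpos s hs)]
          calc ENNReal.ofReal (A + A' + 2 * √(A * A'))
              ≤ ENNReal.ofReal ((A / fs Q (X s) + A' / fs Q' (Y s)) *
                  (fs Q (X s) + fs Q' (Y s))) := by
                apply ENNReal.ofReal_le_ofReal
                set f := fs Q (X s)
                set g := fs Q' (Y s)
                have e4 : (A / f + A' / g) * (f + g) = A + A' + (A * (g / f) + A' * (f / g)) := by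
                  field_simp
                  ring
                rw [e4]
                have hk : 2 * √(A * A') ≤ A * (g / f) + A' * (f / g) := by
                  have e5 : √(A * A') = √(A * (g / f)) * √(A' * (f / g)) := by
                    rw [← Real.sqrt_mul (by positivity)]
                    congr 1
                    field_simp
                  rw [e5]
                  have := two_mul_le_add_sq (√(A * (g / f))) (√(A' * (f / g)))
                  rw [Real.sq_sqrt (by positivity), Real.sq_sqrt (by positivity)] at this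
                  linarith
                linarith
            _ = ENNReal.ofReal (A / fs Q (X s) + A' / fs Q' (Y s)) *
                  ENNReal.ofReal (fs Q (X s) + fs Q' (Y s)) :=
                ENNReal.ofReal_mul (hpos s hs).le
            _ ≤ _ := by gcongr
      _ = ∫⁻ z in (fun s => X s + Y s) '' Ioo (0 : ℝ) 1, volume (sl (Q + Q') z) := hcv.symm
      _ ≤ ∫⁻ z, volume (sl (Q + Q') z) := setLIntegral_le_lintegral _ _
      _ = volume (Q + Q') := (vol_eq hS).symm
  have := ENNReal.toReal_mono hS.2.1.measure_lt_top.ne hmain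
  rwa [ENNReal.toReal_ofReal (by positivity)] at this

end ISOM

open ISOM

theorem specISO (hPST : SpecPST) (hWB2 : SpecWB2) : SpecISO := by
  intro Q hQ
  obtain ⟨-, -, -, -, -, -, hdisc, -, hlen, -, -⟩ := hWB2
  rcases (ENNReal.toReal_nonneg : 0 ≤ area Q).lt_or_eq with hA | hA
  · obtain ⟨hd1, -, hd3⟩ := hdisc 1 zero_le_one
    have hπ := Real.pi_pos
    have h1 := hPST Q 1 hQ zero_le_one
    have hAd : 0 < area (disc 1) := by rw [hd3]; positivity
    have h2 := brunnMinkowski hQ hd1 hA hAd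
    rw [h1, hd3] at h2
    have h3 : √(area Q * (π * 1 ^ 2)) ≤ len Q := by linarith
    have h4 := Real.sq_sqrt (show 0 ≤ area Q * (π * 1 ^ 2) by positivity)
    have h5 := Real.sqrt_nonneg (area Q * (π * 1 ^ 2))
    nlinarith
  · have hA' : area Q = 0 := hA.symm
    rw [hA', mul_zero]
    exact sq_nonneg (len Q)

end Pool.Agent.Lib.MP_084b88_gt.CW
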