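import Pool.Agent.Lib.MP_084b88_gt.CW.SpecD
import Pool.Agent.Lib.MP_084b88_gt.CW.ISO

/-!
# MP_084b88_gt, project CW: module ARE (elementary area bounds)
-/

set_option autoImplicit false

open MeasureTheory Set Real Filter Topology
open scoped Pointwise InnerProductSpace

namespace Pool.Agent.Lib.MP_084b88_gt.CW

namespace AREM

open ISOM

theorem int_tri {x0 x1 D : ℝ} (h : x0 < x1) :
    ∫ x in x0..x1, D * ((x1 - x) / (x1 - x0)) = D * (x1 - x0) / 2 := by
  have hne : x1 - x0 ≠ 0 := by linarith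
  have hd : ∀ x ∈ uIcc x0 x1, HasDerivAt (fun x => -(D * (x1 - x) ^ 2 / (2 * (x1 - x0))))
      (D * ((x1 - x) / (x1 - x0))) x := by
    intro x _
    have h1 : HasDerivAt (fun x : ℝ => x1 - x) (-1) x := by
      simpa using (hasDerivAt_id x).const_sub x1
    have h2 := ((h1.pow 2).const_mul D).div_const (2 * (x1 - x0))
    have h3 := h2.neg
    refine h3.congr_deriv ?_
    field_simp
    norm_num
    try ring
  rw [intervalIntegral.integral_eq_sub_of_hasDerivAt hd]
  · field_simp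
    ring
  · apply Continuous.intervalIntegrable
    fun_prop

theorem int_tri' {x0 x1 D : ℝ} (h : x1 < x0) :
    ∫ x in x1..x0, D * ((x - x1) / (x0 - x1)) = D * (x0 - x1) / 2 := by
  have hne : x0 - x1 ≠ 0 := by linarith
  have hd : ∀ x ∈ uIcc x1 x0, HasDerivAt (fun x => D * (x - x1) ^ 2 / (2 * (x0 - x1)))
      (D * ((x - x1) / (x0 - x1))) x := by
    intro x _
    have h1 : HasDerivAt (fun x : ℝ => x - x1) 1 x := (hasDerivAt_id x).sub_const x1
    have h2 := ((h1.pow 2).const_mul D).div_const (2 * (x0 - x1))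
    refine h2.congr_deriv ?_
    field_simp
    norm_num
    ring
  rw [intervalIntegral.integral_eq_sub_of_hasDerivAt hd]
  · field_simp
    ring
  · apply Continuous.intervalIntegrable
    fun_prop

theorem area_lb {Q : Set (ℝ × ℝ)} (hQ : CC Q) {x0 x1 D : ℝ} (h0 : x0 ∈ Prod.fst '' Q)
    (h1 : x1 ∈ Prod.fst '' Q) (hD : D ≤ fs Q x0) : D * |x1 - x0| / 2 ≤ area Q := by
  have hc := fs_concave hQ
  have hint := fs_integrable hQ
  have hnn : 0 ≤ area Q := ENNReal.toReal_nonneg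
  have hle : ∀ a b : ℝ, a ≤ b → ∫ x in a..b, fs Q x ≤ area Q := by
    intro a b hab
    rw [area_eq hQ, intervalIntegral.integral_of_le hab]
    exact setIntegral_le_integral hint (Filter.Eventually.of_forall fun x => fs_nonneg Q x)
  rcases lt_trichotomy x0 x1 with h | h | h
  · rw [abs_of_pos (by linarith)]
    refine le_trans ?_ (hle x0 x1 h.le)
    rw [← int_tri h]
    refine intervalIntegral.integral_mono_on h.le
      (Continuous.intervalIntegrable (by fun_prop) _ _) hint.intervalIntegrable ?_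
    intro x hx
    have hne : 0 < x1 - x0 := by linarith
    have h2 := hc.2 h0 h1 (show 0 ≤ (x1 - x) / (x1 - x0) from div_nonneg (by linarith [hx.2]) hne.le)
      (show 0 ≤ (x - x0) / (x1 - x0) from div_nonneg (by linarith [hx.1]) hne.le)
      (by field_simp; ring)
    have e : ((x1 - x) / (x1 - x0)) • x0 + ((x - x0) / (x1 - x0)) • x1 = x := by
      simp only [smul_eq_mul]; field_simp; ring
    rw [e] at h2
    simp only [smul_eq_mul] at h2
    have h3 : 0 ≤ (x - x0) / (x1 - x0) * fs Q x1 :=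
      mul_nonneg (div_nonneg (by linarith [hx.1]) hne.le) (fs_nonneg _ _)
    have h4 : (x1 - x) / (x1 - x0) * D ≤ (x1 - x) / (x1 - x0) * fs Q x0 :=
      mul_le_mul_of_nonneg_left hD (div_nonneg (by linarith [hx.2]) hne.le)
    linarith
  · rw [h, sub_self, abs_zero, mul_zero, zero_div]
    exact hnn
  · rw [abs_of_neg (by linarith), neg_sub]
    refine le_trans ?_ (hle x1 x0 h.le)
    rw [← int_tri' h]
    refine intervalIntegral.integral_mono_on h.le
      (Continuous.intervalIntegrable (by fun_prop) _ _) hint.intervalIntegrable ?_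
    intro x hx
    have hne : 0 < x0 - x1 := by linarith
    have h2 := hc.2 h0 h1 (show 0 ≤ (x - x1) / (x0 - x1) from div_nonneg (by linarith [hx.1]) hne.le)
      (show 0 ≤ (x0 - x) / (x0 - x1) from div_nonneg (by linarith [hx.2]) hne.le)
      (by field_simp; ring)
    have e : ((x - x1) / (x0 - x1)) • x0 + ((x0 - x) / (x0 - x1)) • x1 = x := by
      simp only [smul_eq_mul]; field_simp; ring
    rw [e] at h2
    simp only [smul_eq_mul] at h2
    have h3 : 0 ≤ (x0 - x) / (x0 - x1) * fs Q x1 :=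
      mul_nonneg (div_nonneg (by linarith [hx.2]) hne.le) (fs_nonneg _ _)
    have h4 : (x - x1) / (x0 - x1) * D ≤ (x - x1) / (x0 - x1) * fs Q x0 :=
      mul_le_mul_of_nonneg_left hD (div_nonneg (by linarith [hx.1]) hne.le)
    linarith

theorem dist_le (hWB2 : SpecWB2) {Q : Set (ℝ × ℝ)} (hQ : CC Q) {D : ℝ} (hD : ∀ θ, wid Q θ ≤ D)
    {p q : ℝ × ℝ} (hp : p ∈ Q) (hq : q ∈ Q) : (p.1 - q.1) ^ 2 + (p.2 - q.2) ^ 2 ≤ D ^ 2 := by
  obtain ⟨hle, -, -, -, -, -, -, -, -, -, -⟩ := hWB2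
  set v1 := p.1 - q.1 with hv1
  set v2 := p.2 - q.2 with hv2
  have hw : ∀ φ, dotu φ p - dotu φ q ≤ wid Q φ := by
    intro φ
    have h1 := hle Q hQ φ p hp
    have h2 := hle Q hQ (φ + π) q hq
    rw [dotu_add_pi] at h2
    rw [wid]
    linarith
  have ed : ∀ φ, dotu φ p - dotu φ q = v1 * cos φ + v2 * sin φ := by
    intro φ
    rw [dotu, dotu, hv1, hv2]
    ring
  set z : ℂ := ⟨v1, v2⟩ with hz
  have h1 : ‖z‖ * cos z.arg = v1 := Complex.norm_mul_cos_arg z
  have h2 : ‖z‖ * sin z.arg = v2 := Complex.norm_mul_sin_arg z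
  have h3 : v1 * cos z.arg + v2 * sin z.arg = ‖z‖ := by
    rw [← h1, ← h2]
    have := cos_sq_add_sin_sq z.arg
    calc ‖z‖ * cos z.arg * cos z.arg + ‖z‖ * sin z.arg * sin z.arg
        = ‖z‖ * (cos z.arg ^ 2 + sin z.arg ^ 2) := by ring
      _ = ‖z‖ := by rw [this, mul_one]
  have h4 := hw z.arg
  rw [ed, h3] at h4
  have h5 : ‖z‖ ≤ D := h4.trans (hD _)
  have h6 : ‖z‖ ^ 2 = v1 ^ 2 + v2 ^ 2 := by
    rw [← Complex.normSq_eq_norm_sq, Complex.normSq_apply]
    ring
  rw [← h6]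
  exact pow_le_pow_left₀ (norm_nonneg z) h5 2

/-- The rotation. -/
noncomputable def rt (φ : ℝ) (p : ℝ × ℝ) : ℝ × ℝ := (dotu φ p, dotu (φ + π / 2) p)

theorem rt_CC (φ : ℝ) {Q : Set (ℝ × ℝ)} (hQ : CC Q) : CC (rt φ '' Q) := by
  refine ⟨?_, hQ.2.1.image ?_, hQ.2.2.image _⟩
  · rintro _ ⟨p, hp, rfl⟩ _ ⟨q, hq, rfl⟩ a b ha hb hab
    refine ⟨a • p + b • q, hQ.1 hp hq ha hb hab, ?_⟩
    simp only [rt, dotu_add, dotu_smul, Prod.smul_mk, Prod.mk_add_mk, smul_eq_mul]
  · unfold rt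
    exact (continuous_dotu_right _).prodMk (continuous_dotu_right _)

theorem rt_area (hRO2 : SpecRO2) (φ : ℝ) {Q : Set (ℝ × ℝ)} (hQ : CC Q) :
    area (rt φ '' Q) = area Q := by
  obtain ⟨hmp, hinv⟩ := hRO2 φ
  have hinj : Function.Injective (rt φ) := by
    intro p q hpq
    have h1 := hinv p
    have h2 := hinv q
    have e : (dotu φ p, dotu (φ + π / 2) p) = (dotu φ q, dotu (φ + π / 2) q) := hpq
    rw [e] at h1
    exact h1.symm.trans h2
  have hm : MeasurableSet (rt φ '' Q) := (rt_CC φ hQ).2.1.isClosed.measurableSet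
  have h3 := hmp.measure_preimage hm.nullMeasurableSet
  have h4 : (fun p : ℝ × ℝ => (dotu φ p, dotu (φ + π / 2) p)) ⁻¹' (rt φ '' Q) = Q :=
    preimage_image_eq Q hinj
  rw [h4] at h3
  rw [area, area, h3]

end AREM

open AREM ISOM

theorem specARE (hWB2 : SpecWB2) (hRO2 : SpecRO2) : SpecARE := by
  have hWB2' := hWB2
  obtain ⟨hle, hatt, -, -, -, -, -, hww, -, hcont, hper⟩ := hWB2
  constructor
  · intro Q β hQ hβ hw
    -- the direction of maximal width
    have hP : Function.Periodic (wid Q) π := hper Q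
    obtain ⟨t0, ht0, hmax⟩ := isCompact_Icc.exists_isMaxOn
      (⟨0, left_mem_Icc.2 Real.pi_pos.le⟩ : (Icc (0 : ℝ) π).Nonempty) (hcont Q hQ).2.continuousOn
    have hD : ∀ θ, wid Q θ ≤ wid Q t0 := by
      intro θ
      obtain ⟨y, hy, hyθ⟩ := hP.exists_mem_Ico₀ Real.pi_pos θ
      rw [hyθ]
      exact hmax ⟨hy.1, hy.2.le⟩
    set D := wid Q t0 with hDd
    have hDβ : β ≤ D := hw t0
    obtain ⟨p, hp, hp2⟩ := hatt Q hQ t0
    obtain ⟨q, hq, hq2⟩ := hatt Q hQ (t0 + π)
    rw [dotu_add_pi] at hq2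
    have hpq : dotu t0 p - dotu t0 q = D := by
      rw [hDd, wid, ← hp2, ← hq2]
      ring
    set φ := t0 - π / 2 with hφ
    have hφt : φ + π / 2 = t0 := by rw [hφ]; ring
    have hzero : dotu φ p = dotu φ q := by
      have h1 := dist_le hWB2' hQ hD hp hq
      have h2 : (dotu φ p - dotu φ q) ^ 2 + (dotu t0 p - dotu t0 q) ^ 2 =
          (p.1 - q.1) ^ 2 + (p.2 - q.2) ^ 2 := by
        have hc := cos_sq_add_sin_sq t0
        rw [dotu, dotu, dotu, dotu, hφ, cos_sub_pi_div_two, sin_sub_pi_div_two]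
        have e : (p.1 * sin t0 + p.2 * -cos t0 - (q.1 * sin t0 + q.2 * -cos t0)) ^ 2 +
            (p.1 * cos t0 + p.2 * sin t0 - (q.1 * cos t0 + q.2 * sin t0)) ^ 2 =
            ((p.1 - q.1) ^ 2 + (p.2 - q.2) ^ 2) * (cos t0 ^ 2 + sin t0 ^ 2) := by ring
        rw [e, hc, mul_one]
      rw [hpq] at h2
      have h3 : (dotu φ p - dotu φ q) ^ 2 ≤ 0 := by linarith
      have h4 : dotu φ p - dotu φ q = 0 := by
        have := le_antisymm h3 (sq_nonneg _)
        exact pow_eq_zero_iff two_ne_zero |>.1 this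
      linarith
    have hQ' := rt_CC φ hQ
    have hpm : (dotu φ p, dotu t0 p) ∈ rt φ '' Q := ⟨p, hp, by rw [rt, hφt]⟩
    have hqm : (dotu φ p, dotu t0 q) ∈ rt φ '' Q := ⟨q, hq, by rw [rt, hφt, hzero]⟩
    have hfs : D ≤ fs (rt φ '' Q) (dotu φ p) := by
      rw [← hpq]
      exact fs_lb hQ' hqm hpm
    have hx0 : dotu φ p ∈ Prod.fst '' (rt φ '' Q) := ⟨_, hpm, rfl⟩
    -- a point far from the line
    have hr : ∃ r ∈ Q, β / 2 ≤ |dotu φ r - dotu φ p| := by
      obtain ⟨r, hr, hr2⟩ := hatt Q hQ φ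
      obtain ⟨r', hr', hr2'⟩ := hatt Q hQ (φ + π)
      rw [dotu_add_pi] at hr2'
      have h1 := hw φ
      rw [wid, ← hr2, ← hr2'] at h1
      by_contra hcon
      push Not at hcon
      have h2 := (abs_lt.1 (hcon r hr)).2
      have h3 := (abs_lt.1 (hcon r' hr')).1
      linarith
    obtain ⟨r, hr, hrb⟩ := hr
    have hx1 : dotu φ r ∈ Prod.fst '' (rt φ '' Q) := ⟨_, ⟨r, hr, rfl⟩, rfl⟩
    have := area_lb hQ' hx0 hx1 hfs
    rw [rt_area hRO2 φ hQ] at this
    refine le_trans ?_ this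
    have h5 : β * (β / 2) ≤ D * |dotu φ r - dotu φ p| :=
      mul_le_mul hDβ hrb (by positivity) (by linarith)
    linarith
  · intro Q hQ
    have hsub : Q ⊆ Icc (-sup2 Q (0 + π)) (sup2 Q 0) ×ˢ Icc (-sup2 Q (π / 2 + π)) (sup2 Q (π / 2)) := by
      intro p hp
      have h1 := hle Q hQ 0 p hp
      have h2 := hle Q hQ (0 + π) p hp
      have h3 := hle Q hQ (π / 2) p hp
      have h4 := hle Q hQ (π / 2 + π) p hp
      rw [dotu_add_pi] at h2 h4
      have e1 : dotu 0 p = p.1 := by simp [dotu]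
      have e2 : dotu (π / 2) p = p.2 := by simp [dotu]
      rw [e1] at h1 h2
      rw [e2] at h3 h4
      exact ⟨⟨by linarith, h1⟩, ⟨by linarith, h3⟩⟩
    have h1 : volume Q ≤ ENNReal.ofReal (wid Q 0) * ENNReal.ofReal (wid Q (π / 2)) := by
      refine (measure_mono hsub).trans ?_
      rw [Measure.volume_eq_prod, Measure.prod_prod, Real.volume_Icc, Real.volume_Icc]
      rw [wid, wid]
      simp
    have h2 := ENNReal.toReal_mono (by finiteness) h1
    rw [ENNReal.toReal_mul, ENNReal.toReal_ofReal (hww Q hQ 0).1,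
      ENNReal.toReal_ofReal (hww Q hQ _).1] at h2
    exact h2

end Pool.Agent.Lib.MP_084b88_gt.CW
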