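import Pool.Agent.Lib.MP_084b88_gt.CW.SpecD
import Pool.Agent.Lib.MP_084b88_gt.CW.NUB

/-!
# MP_084b88_gt, project CW: module C0K (widths of `K` when `c` is close to one)
-/

set_option autoImplicit false

open MeasureTheory Set Real Filter Topology
open scoped Pointwise InnerProductSpace

namespace Pool.Agent.Lib.MP_084b88_gt.CW

namespace C0KM

theorem exists_frame (n : E3) (hn : ‖n‖ = 1) : ∃ R : O3, col R 2 = n := by
  have horth : Orthonormal ℝ (({2} : Set (Fin 3)).domRestrict (fun _ : Fin 3 => n)) := by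
    rw [orthonormal_iff_ite]
    rintro ⟨i, hi⟩ ⟨j, hj⟩
    simp only [Set.mem_singleton_iff] at hi hj
    subst hi; subst hj
    simp [Set.domRestrict, hn]
  obtain ⟨b, hb⟩ := horth.exists_orthonormalBasis_extension_of_card_eq (by simp)
  have hb0 : b 2 = n := hb 2 (by simp)
  let M : Matrix (Fin 3) (Fin 3) ℝ := Matrix.of (fun j i => b i j)
  have hMe : ∀ i j, M i j = b j i := fun _ _ => rfl
  have hM : star M * M = 1 := by
    ext i j
    rw [Matrix.mul_apply, Matrix.one_apply, Fin.sum_univ_three]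
    simp only [Matrix.star_apply, star_trivial, hMe]
    rw [← inner_E3]
    exact orthonormal_iff_ite.1 b.orthonormal i j
  let S : O3 := ⟨M, Unitary.mem_iff.2 ⟨hM, mul_eq_one_comm.1 hM⟩⟩
  refine ⟨S, ?_⟩
  rw [← hb0]
  ext j
  rfl

/-- A unit vector orthogonal to two given vectors. -/
theorem exists_perp (v d : E3) : ∃ n : E3, ‖n‖ = 1 ∧ ⟪n, v⟫_ℝ = 0 ∧ ⟪n, d⟫_ℝ = 0 := by
  let L : E3 →ₗ[ℝ] ℝ × ℝ :=
    ((innerSL ℝ v : E3 →L[ℝ] ℝ) : E3 →ₗ[ℝ] ℝ).prod ((innerSL ℝ d : E3 →L[ℝ] ℝ) : E3 →ₗ[ℝ] ℝ)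
  have hk : LinearMap.ker L ≠ ⊥ := by
    apply LinearMap.ker_ne_bot_of_finrank_lt
    simp [E3]
  obtain ⟨z, hz, hz0⟩ := Submodule.exists_mem_ne_zero_of_ne_bot hk
  rw [LinearMap.mem_ker] at hz
  have h1 : ⟪v, z⟫_ℝ = 0 := congrArg Prod.fst hz
  have h2 : ⟪d, z⟫_ℝ = 0 := congrArg Prod.snd hz
  have hn : ‖z‖ ≠ 0 := norm_ne_zero_iff.2 hz0
  refine ⟨‖z‖⁻¹ • z, ?_, ?_, ?_⟩
  · rw [norm_smul, norm_inv, norm_norm, inv_mul_cancel₀ hn]
  · rw [inner_smul_left, real_inner_comm, h1, mul_zero]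
  · rw [inner_smul_left, real_inner_comm, h2, mul_zero]

/-- Vectors of the plane orthogonal to `col R 2` in polar coordinates. -/
theorem exists_angle (R : O3) (z : E3) (hz : ⟪col R 2, z⟫_ℝ = 0) :
    ∃ φ : ℝ, z = ‖z‖ • col (R * rot φ) 0 := by
  set w : ℂ := ⟨⟪col R 0, z⟫_ℝ, ⟪col R 1, z⟫_ℝ⟩ with hw
  have h1 : ‖w‖ * cos w.arg = ⟪col R 0, z⟫_ℝ := Complex.norm_mul_cos_arg w
  have h2 : ‖w‖ * sin w.arg = ⟪col R 1, z⟫_ℝ := Complex.norm_mul_sin_arg w
  have h3 : ‖w‖ = ‖z‖ := by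
    have h4 := norm_sq_frame R z
    rw [hz] at h4
    have h5 : ‖w‖ ^ 2 = ‖z‖ ^ 2 := by
      rw [← h4, ← Complex.normSq_eq_norm_sq, Complex.normSq_apply]
      ring
    exact (pow_left_inj₀ (norm_nonneg _) (norm_nonneg _) two_ne_zero).1 h5
  refine ⟨w.arg, ?_⟩
  have h6 := sum_col R z
  rw [hz, zero_smul, add_zero, ← h1, ← h2, h3] at h6
  rw [col_rot_zero, smul_add, smul_smul, smul_smul]
  exact h6.symm

/-- The hypothesis on sections in a frame (see NUB). -/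
theorem sec_ineq (hSST : SpecSST) {K : Set E3} (hK : CC K) {c : ℝ} (hH : HSEC K c) (R : O3)
    {x : E3} (hx : x ∈ interior K) :
    c * len (sec R ⟪col R 2, x⟫_ℝ K) ^ 2 ≤ π * area (sec R ⟪col R 2, x⟫_ℝ K) := by
  set u := col R 2 with hu
  have hun : ‖u‖ = 1 := norm_col R 2
  set s := ⟪u, x⟫_ℝ with hs
  have hne : (K ∩ {x | ⟪col R 2, x⟫_ℝ = s}).Nonempty := ⟨x, interior_subset hx, rfl⟩
  have hmem : ∀ y : E3, y ∈ AffineSubspace.mk' (s • u) (ℝ ∙ u)ᗮ ↔ ⟪u, y⟫_ℝ = s := by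
    intro y
    rw [AffineSubspace.mem_mk', vsub_eq_sub, Submodule.mem_orthogonal_singleton_iff_inner_right,
      inner_sub_right, inner_smul_right, real_inner_self_eq_norm_sq, hun]
    constructor
    · intro h; linarith
    · intro h; rw [h]; ring
  have hset : K ∩ ((AffineSubspace.mk' (s • u) (ℝ ∙ u)ᗮ : AffineSubspace ℝ E3) : Set E3) =
      K ∩ {x | ⟪col R 2, x⟫_ℝ = s} := by
    ext y
    constructor
    · rintro ⟨h1, h2⟩
      exact ⟨h1, (hmem y).1 h2⟩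
    · rintro ⟨h1, h2⟩
      exact ⟨h1, (hmem y).2 h2⟩
  have hfr : Module.finrank ℝ (AffineSubspace.mk' (s • u) (ℝ ∙ u)ᗮ : AffineSubspace ℝ E3).direction
      = 2 := by
    rw [AffineSubspace.direction_mk']
    have : Fact (Module.finrank ℝ E3 = 2 + 1) := ⟨by simp [E3]⟩
    apply Submodule.finrank_orthogonal_span_singleton
    intro h
    rw [h, norm_zero] at hun
    exact zero_ne_one hun
  refine hH _ hfr ⟨x, hx, (hmem x).2 rfl⟩ (len (sec R s K)) (area (sec R s K)) ?_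
  intro t ht
  rw [hset]
  exact hSST R s K hK hne t ht

end C0KM

open C0KM in
theorem specC0K (hWSC : SpecWSC) (hSST : SpecSST) (hWB2 : SpecWB2) : SpecC0K := by
  intro K c η hK hint hη hη4 hc hH u v hu hv
  obtain ⟨hle, hatt, -, -, -, -, -, -, -, -, -⟩ := hWB2
  obtain ⟨x, hx, hxu⟩ := NUBM.hs_att hK u
  obtain ⟨y, hy, hyu⟩ := NUBM.hs_att hK (-u)
  rw [inner_neg_left] at hyu
  have hwu : 0 < HS K u + HS K (-u) := by linarith [NUBM.width_pos hK hint u hu]
  have hwv : 0 < HS K v + HS K (-v) := by linarith [NUBM.width_pos hK hint v hv]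
  rcases le_total (1 - 4 * η) 0 with hneg | hpos
  · exact (mul_nonpos_of_nonpos_of_nonneg hneg hwu.le).trans hwv.le
  obtain ⟨x0, hx0⟩ := hint
  obtain ⟨n, hn, hnv, hnd⟩ := exists_perp v (x - y)
  obtain ⟨R, hR⟩ := exists_frame n hn
  -- the estimate for every `s`
  have key : ∀ s : ℝ, 0 < s → s < 1 →
      (1 - 4 * η) * ((1 - s) * (HS K u + HS K (-u))) ≤ HS K v + HS K (-v) := by
    intro s hs0 hs1
    set x' := s • x0 + (1 - s) • x with hx'
    set y' := s • x0 + (1 - s) • y with hy'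
    have hxi : x' ∈ interior K :=
      hK.1.combo_interior_self_mem_interior hx0 hx hs0 (by linarith) (by ring)
    have hyi : y' ∈ interior K :=
      hK.1.combo_interior_self_mem_interior hx0 hy hs0 (by linarith) (by ring)
    have hdiff : x' - y' = (1 - s) • (x - y) := by
      rw [hx', hy', smul_sub]
      abel
    have hperp : ⟪col R 2, x' - y'⟫_ℝ = 0 := by
      rw [hR, hdiff, inner_smul_right, hnd, mul_zero]
    set Q := sec R ⟪col R 2, x'⟫_ℝ K with hQ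
    have hxm : x' ∈ K ∩ {x | ⟪col R 2, x⟫_ℝ = ⟪col R 2, x'⟫_ℝ} := ⟨interior_subset hxi, rfl⟩
    have hym : y' ∈ K ∩ {x | ⟪col R 2, x⟫_ℝ = ⟪col R 2, x'⟫_ℝ} := by
      refine ⟨interior_subset hyi, ?_⟩
      rw [inner_sub_right] at hperp
      change ⟪col R 2, y'⟫_ℝ = ⟪col R 2, x'⟫_ℝ
      linarith
    have hQC : CC Q := NUBM.sec_cc hK R _ ⟨x', hxm⟩
    have hpx : cd R x' ∈ Q := ⟨x', hxm, rfl⟩
    have hpy : cd R y' ∈ Q := ⟨y', hym, rfl⟩
    have hineq : (1 - η ^ 4) * len Q ^ 2 ≤ π * area Q :=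
      (mul_le_mul_of_nonneg_right hc (sq_nonneg _)).trans (sec_ineq hSST hK hH R hxi)
    -- the two directions
    obtain ⟨t, ht⟩ := exists_angle R v (by rw [hR, hnv])
    rw [hv, one_smul] at ht
    obtain ⟨t', ht'⟩ := exists_angle R (x' - y') hperp
    have h1 := hWSC Q η hQC hη hη4 hineq t t'
    -- lower bound
    have h2 : (1 - s) * (HS K u + HS K (-u)) ≤ wid Q t' := by
      have h3 := hle Q hQC t' _ hpx
      have h4 := hle Q hQC (t' + π) _ hpy
      rw [dotu_add_pi] at h4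
      rw [dotu_cd] at h3 h4
      have h5 : ⟪col (R * rot t') 0, x' - y'⟫_ℝ = ‖x' - y'‖ := by
        nth_rewrite 1 [ht']
        rw [inner_smul_right, real_inner_self_eq_norm_sq, norm_col]
        ring
      have h6 : ⟪u, x' - y'⟫_ℝ ≤ ‖x' - y'‖ := by
        have := real_inner_le_norm u (x' - y')
        rwa [hu, one_mul] at this
      have h7 : ⟪u, x' - y'⟫_ℝ = (1 - s) * (HS K u + HS K (-u)) := by
        rw [hdiff, inner_smul_right, inner_sub_right, hxu, ← hyu]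
        ring
      rw [inner_sub_right] at h5
      rw [wid]
      linarith
    -- upper bound
    have h3 : wid Q t ≤ HS K v + HS K (-v) := by
      obtain ⟨p, hp, hp2⟩ := hatt Q hQC t
      obtain ⟨q, hq, hq2⟩ := hatt Q hQC (t + π)
      obtain ⟨z, hz, rfl⟩ := hp
      obtain ⟨z', hz', rfl⟩ := hq
      rw [dotu_cd, ← ht] at hp2
      rw [dotu_add_pi, dotu_cd, ← ht] at hq2
      have h4 := NUBM.le_hs hK v hz.1
      have h5 := NUBM.le_hs hK (-v) hz'.1
      rw [inner_neg_left] at h5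
      rw [wid, ← hp2, ← hq2]
      linarith
    calc (1 - 4 * η) * ((1 - s) * (HS K u + HS K (-u))) ≤ (1 - 4 * η) * wid Q t' :=
          mul_le_mul_of_nonneg_left h2 hpos
      _ ≤ wid Q t := h1
      _ ≤ _ := h3
  -- the limit `s → 0`
  have hlim : Tendsto (fun s : ℝ => (1 - 4 * η) * ((1 - s) * (HS K u + HS K (-u)))) (𝓝[>] 0)
      (𝓝 ((1 - 4 * η) * ((1 - 0) * (HS K u + HS K (-u))))) := by
    apply Tendsto.mono_left _ nhdsWithin_le_nhds
    apply Continuous.tendsto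
    fun_prop
  rw [sub_zero, one_mul] at hlim
  refine le_of_tendsto hlim ?_
  filter_upwards [Ioo_mem_nhdsGT (zero_lt_one' ℝ)] with s hs
  exact key s hs.1 hs.2

end Pool.Agent.Lib.MP_084b88_gt.CW
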