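import Pool.Agent.Lib.MP_084b88_gt.CW.LPB

/-!
# MP_084b88_gt, project CW: module G3B
-/

set_option autoImplicit false

open MeasureTheory Set Real Filter Topology
open scoped Pointwise InnerProductSpace ComplexConjugate

namespace Pool.Agent.Lib.MP_084b88_gt.CW

namespace G3BM

open LPGM LPBM

/-- more terms with zero coefficients -/
theorem hp_ext {M : ℕ} {c : ℕ → ℂ} (h : ∀ k, M ≤ k → c k = 0) (N : ℕ) (hN : M ≤ N) (t : ℝ) :
    hp M c t = hp N c t := by
  rw [hp_ee, hp_ee, Finset.sum_subset (Finset.range_mono hN)]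
  intro k _ hk
  rw [h k (by rw [Finset.mem_range] at hk; omega), zero_mul]

theorem hp_add (N : ℕ) (z w : ℕ → ℂ) (t : ℝ) :
    hp N (fun k => z k + w k) t = hp N z t + hp N w t := by
  rw [hp_ee, hp_ee, hp_ee, ← Complex.add_re, ← Finset.sum_add_distrib]
  congr 1
  refine Finset.sum_congr rfl fun k _ => ?_
  ring

/-- `a cos t + b sin t` as a trigonometric polynomial -/
theorem hp_one (N : ℕ) (hN : 2 ≤ N) (a b : ℝ) (t : ℝ) :
    hp N (fun k => if k = 1 then (a : ℂ) - b * Complex.I else 0) t = a * cos t + b * sin t := by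
  rw [hp_ee, Finset.sum_eq_single 1]
  · rw [if_pos rfl]
    unfold ee
    have : Complex.exp (Complex.I * (((1 : ℕ) : ℤ) * (t : ℂ))) =
        ((cos t : ℝ) : ℂ) + ((sin t : ℝ) : ℂ) * Complex.I := by
      rw [mul_comm Complex.I, Complex.exp_mul_I]
      push_cast
      rw [one_mul]
    rw [this]
    simp only [Complex.mul_re, Complex.sub_re, Complex.sub_im, Complex.add_re, Complex.add_im,
      Complex.mul_im, Complex.ofReal_re, Complex.ofReal_im, Complex.I_re, Complex.I_im]
    ring
  · intro k _ hk
    rw [if_neg hk, zero_mul]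
  · intro h
    exact absurd (Finset.mem_range.2 (by omega)) h

theorem odc0 (c : ℕ → ℂ) : odc c 0 = 0 := by simp [odc]

theorem hp_cos (N : ℕ) (hN : 2 ≤ N) (z : ℕ → ℂ) :
    ∫ s in (0 : ℝ)..(2 * π), hp N z s * cos s = π * (z 1).re := by
  have h := inner N (by omega) z (fun k => if k = 1 then ((1 : ℝ) : ℂ) - (0 : ℝ) * Complex.I else 0)
  simp only [hp_one N hN] at h
  simp only [one_mul, zero_mul, add_zero] at h
  rw [h, Finset.sum_eq_single 1]
  · simp
  · intro k _ hk
    rw [if_neg hk]
    simp
  · intro h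
    exact absurd (Finset.mem_range.2 (by omega)) h

theorem hp_sin (N : ℕ) (hN : 2 ≤ N) (z : ℕ → ℂ) :
    ∫ s in (0 : ℝ)..(2 * π), hp N z s * sin s = -(π * (z 1).im) := by
  have h := inner N (by omega) z (fun k => if k = 1 then ((0 : ℝ) : ℂ) - (1 : ℝ) * Complex.I else 0)
  simp only [hp_one N hN] at h
  simp only [one_mul, zero_mul, zero_add] at h
  rw [h, Finset.sum_eq_single 1]
  · simp
  · intro k _ hk
    rw [if_neg hk]
    simp
  · intro h
    exact absurd (Finset.mem_range.2 (by omega)) h

end G3BM

open LPGM LPBM G3BM in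
theorem specG3B (hHPB : SpecHPB) : SpecG3B := by
  intro M c hc
  have hodd : ∀ k, M ≤ k → odc c k = 0 := by
    intro k hk
    unfold odc
    rw [hc k hk, ite_self]
  have hodd3 : ∀ k, M ≤ k → (fun k => if 3 ≤ k then odc c k else 0) k = 0 := by
    intro k hk
    simp only [hodd k hk, ite_self]
  have hev : ∀ k, M ≤ k → evc c k = 0 := by
    intro k hk
    unfold evc
    rw [hc k hk, ite_self]
  set N := M + 3 with hN
  have hgh : ∀ t, gh (hp M c) t = hp N (odc c) t := fun t => by
    rw [(hHPB M c).2.2.2.2.1 t, hp_ext hodd N (by omega)]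
  have hBh : ∀ t, Bh (hp M c) t = hp N (evc c) t := fun t => by
    rw [(hHPB M c).2.2.2.2.2.1 t, hp_ext hev N (by omega)]
  have h3N : ∀ t, hp M (fun k => if 3 ≤ k then odc c k else 0) t =
      hp N (fun k => if 3 ≤ k then odc c k else 0) t := fun t => hp_ext hodd3 N (by omega) t
  have split : ∀ k, odc c k = (if 3 ≤ k then odc c k else 0) + (if k = 1 then odc c 1 else 0) := by
    intro k
    rcases Nat.lt_or_ge k 3 with hk | hk
    · rw [if_neg (by omega), zero_add]
      by_cases h1 : k = 1
      · subst h1; rw [if_pos rfl]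
      · rw [if_neg h1]
        unfold odc
        rw [if_neg (by omega)]
    · rw [if_pos hk, if_neg (by omega), add_zero]
  have h1 : ∀ t, g3f (gh (hp M c)) t = hp M (fun k => if 3 ≤ k then odc c k else 0) t := by
    intro t
    unfold g3f
    simp only [hgh]
    rw [hp_cos N (by omega), hp_sin N (by omega), h3N]
    have e1 : hp N (odc c) t = hp N (fun k => if 3 ≤ k then odc c k else 0) t +
        hp N (fun k => if k = 1 then (((odc c 1).re : ℝ) : ℂ) - ((-(odc c 1).im : ℝ) : ℂ) *
          Complex.I else 0) t := by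
      rw [← hp_add]
      have : (((odc c 1).re : ℝ) : ℂ) - ((-(odc c 1).im : ℝ) : ℂ) * Complex.I = odc c 1 := by
        conv_rhs => rw [← Complex.re_add_im (odc c 1)]
        push_cast
        ring
      rw [this]
      congr 1
      funext k
      exact split k
    rw [e1, hp_one N (by omega)]
    have hp := Real.pi_pos.ne'
    field_simp
    ring
  have h3 : ∫ t in (0 : ℝ)..(2 * π), hp N (fun k => if 3 ≤ k then odc c k else 0) t *
      hp N (fun k => if 3 ≤ k then odc c k else 0) t =
      π * ∑ k ∈ Finset.range M, (if 3 ≤ k then ‖odc c k‖ ^ 2 else 0) := by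
    rw [inner N (by omega)]
    have e0 : ((if 3 ≤ 0 then odc c 0 else 0) * (if 3 ≤ 0 then odc c 0 else 0) : ℂ).re = 0 := by
      simp
    rw [e0, zero_add]
    congr 1
    rw [Finset.sum_subset (Finset.range_mono (show M ≤ N by omega))]
    · refine Finset.sum_congr rfl fun k _ => ?_
      by_cases hk : 3 ≤ k
      · rw [if_pos hk, if_pos hk, Complex.mul_conj, Complex.ofReal_re, Complex.normSq_eq_norm_sq]
      · rw [if_neg hk, if_neg hk]
        simp
    · intro k _ hk
      have := hodd k (by rw [Finset.mem_range] at hk; omega)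
      rw [this]
      simp
  have hsq : ∀ f : ℝ → ℝ, (∫ t in (0 : ℝ)..(2 * π), f t ^ 2) = ∫ t in (0 : ℝ)..(2 * π), f t * f t :=
    fun f => by simp only [pow_two]
  -- the part of the first mode
  have hcomb : ∀ (a b t : ℝ), gh (hp M c) t - a * cos t - b * sin t =
      hp N (fun k => if 3 ≤ k then odc c k else 0) t +
        hp N (fun k => if k = 1 then odc c 1 + (((-a : ℝ) : ℂ) - ((-b : ℝ) : ℂ) * Complex.I)
          else 0) t := by
    intro a b t
    rw [← hp_add, hgh]
    have e : (fun k => (if 3 ≤ k then odc c k else 0) +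
        (if k = 1 then odc c 1 + (((-a : ℝ) : ℂ) - ((-b : ℝ) : ℂ) * Complex.I) else 0)) =
        fun k => odc c k + (if k = 1 then (((-a : ℝ) : ℂ) - ((-b : ℝ) : ℂ) * Complex.I) else 0) := by
      funext k
      conv_rhs => rw [split k]
      by_cases hk : k = 1
      · simp only [hk, if_true]
        ring
      · simp only [hk, if_false, add_zero]
    rw [e, hp_add, hp_one N (by omega)]
    ring
  have horth : ∀ w : ℂ, ∫ t in (0 : ℝ)..(2 * π), hp N (fun k => if k = 1 then w else 0) t *
      hp N (fun k => if 3 ≤ k then odc c k else 0) t = 0 := by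
    intro w
    rw [inner N (by omega)]
    have : ∀ k ∈ Finset.range N, ((if k = 1 then w else 0) *
        conj (if 3 ≤ k then odc c k else 0)).re = 0 := by
      intro k _
      by_cases hk : k = 1
      · subst hk
        simp
      · rw [if_neg hk, zero_mul, Complex.zero_re]
    rw [Finset.sum_congr rfl this]
    simp
  have hi : ∀ z w : ℕ → ℂ, IntervalIntegrable (fun t => hp N z t * hp N w t) volume 0 (2 * π) :=
    fun z w => ((cont_hp N z).mul (cont_hp N w)).intervalIntegrable _ _
  refine ⟨h1, ?_, ?_, ?_, ?_⟩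
  · intro b
    have e1 : ∀ t, Bh (hp M c) t - b = hp N (fun k => evc c k + (if k = 0 then (((-b : ℝ)) : ℂ)
        else 0)) t := by
      intro t
      rw [hp_add, hBh, hp_ee N (fun k => if k = 0 then (((-b : ℝ)) : ℂ) else 0),
        Finset.sum_eq_single 0]
      · rw [if_pos rfl]
        unfold ee
        simp
        ring
      · intro k _ hk
        rw [if_neg hk, zero_mul]
      · intro h
        exact absurd (Finset.mem_range.2 (by omega)) h
    rw [hsq]
    simp only [e1]
    rw [inner N (by omega)]
    refine mul_le_mul_of_nonneg_left ?_ pi_pos.le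
    rw [← Finset.add_sum_erase _ _ (Finset.mem_range.2 (show 0 < N by omega)), ← add_assoc]
    have t0 : 0 ≤ ((evc c 0 + (if 0 = 0 then (((-b : ℝ)) : ℂ) else 0)) *
        (evc c 0 + (if 0 = 0 then (((-b : ℝ)) : ℂ) else 0))).re +
        ((evc c 0 + (if 0 = 0 then (((-b : ℝ)) : ℂ) else 0)) *
        conj (evc c 0 + (if 0 = 0 then (((-b : ℝ)) : ℂ) else 0))).re := by
      generalize evc c 0 + (if 0 = 0 then (((-b : ℝ)) : ℂ) else 0) = x
      simp only [Complex.mul_re, Complex.conj_re, Complex.conj_im]
      nlinarith [mul_self_nonneg x.re]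
    have t2 : ‖c 2‖ ^ 2 ≤ ∑ k ∈ (Finset.range N).erase 0, ((evc c k +
        (if k = 0 then (((-b : ℝ)) : ℂ) else 0)) *
        conj (evc c k + (if k = 0 then (((-b : ℝ)) : ℂ) else 0))).re := by
      have hmem : 2 ∈ (Finset.range N).erase 0 :=
        Finset.mem_erase.2 ⟨by norm_num, Finset.mem_range.2 (by omega)⟩
      have hs := Finset.single_le_sum (f := fun k => ((evc c k +
        (if k = 0 then (((-b : ℝ)) : ℂ) else 0)) *
        conj (evc c k + (if k = 0 then (((-b : ℝ)) : ℂ) else 0))).re) (fun k _ => by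
          rw [Complex.mul_conj, Complex.ofReal_re]
          exact Complex.normSq_nonneg _) hmem
      refine le_trans (le_of_eq ?_) hs
      have : evc c 2 + (if (2 : ℕ) = 0 then (((-b : ℝ)) : ℂ) else 0) = c 2 := by
        simp [evc]
      simp only [this]
      rw [Complex.mul_conj, Complex.ofReal_re, Complex.normSq_eq_norm_sq]
    linarith
  · rw [hsq]
    simp only [h1, h3N]
    exact h3
  · intro a b
    rw [hsq]
    simp only [h1, h3N, hcomb, add_mul]
    rw [intervalIntegral.integral_add (hi _ _) (hi _ _), horth, add_zero]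
  · intro a b
    rw [hsq, hsq]
    simp only [h1, h3N, hcomb, add_mul, mul_add]
    rw [intervalIntegral.integral_add ((hi _ _).add (hi _ _)) ((hi _ _).add (hi _ _)),
      intervalIntegral.integral_add (hi _ _) (hi _ _),
      intervalIntegral.integral_add (hi _ _) (hi _ _), horth]
    have hz : ∀ w : ℂ, ∫ t in (0 : ℝ)..(2 * π), hp N (fun k => if 3 ≤ k then odc c k else 0) t *
        hp N (fun k => if k = 1 then w else 0) t = 0 := by
      intro w
      refine Eq.trans ?_ (horth w)
      refine intervalIntegral.integral_congr fun t _ => ?_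
      exact mul_comm _ _
    rw [hz]
    have hn : ∀ w : ℂ, 0 ≤ ∫ t in (0 : ℝ)..(2 * π), hp N (fun k => if k = 1 then w else 0) t *
        hp N (fun k => if k = 1 then w else 0) t := by
      intro w
      refine intervalIntegral.integral_nonneg (by positivity) fun t _ => mul_self_nonneg _
    have := hn (odc c 1 + (((-a : ℝ) : ℂ) - ((-b : ℝ) : ℂ) * Complex.I))
    linarith

end Pool.Agent.Lib.MP_084b88_gt.CW
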