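import Pool.Agent.Lib.MP_084b88_gt.CW.SpecC

/-!
# MP_084b88_gt, project CW: module GAG
-/

set_option autoImplicit false

open MeasureTheory Set Real Filter Topology
open scoped Pointwise InnerProductSpace

namespace Pool.Agent.Lib.MP_084b88_gt.CW

namespace GAGM

/-- relative abscissa -/
noncomputable def pg (M : ℕ) (c : ℕ → ℂ) (t a : ℝ) : ℝ :=
  cos a + sin a ^ 2 * Ps M c t a / Bh (hp M c) t

/-- ordinate -/
noncomputable def ag (M : ℕ) (c : ℕ → ℂ) (t a : ℝ) : ℝ :=
  hp M c (t + a) * sin a + hp M (dk c) (t + a) * cos a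

theorem pg_eq (hW : SpecWMB) (M : ℕ) (c : ℕ → ℂ) (t a : ℝ) (hB : 0 < Bh (hp M c) t) :
    pg M c t a = (hp M c (t + a) * cos a - hp M (dk c) (t + a) * sin a - gh (hp M c) t) /
      Bh (hp M c) t := by
  unfold pg
  rw [← hW, eq_div_iff hB.ne']
  field_simp
  ring

theorem pg_mul (hW : SpecWMB) (M : ℕ) (c : ℕ → ℂ) (t a : ℝ) (hB : 0 < Bh (hp M c) t) :
    gh (hp M c) t + pg M c t a * Bh (hp M c) t =
      hp M c (t + a) * cos a - hp M (dk c) (t + a) * sin a := by
  rw [pg_eq hW M c t a hB, div_mul_cancel₀ _ hB.ne']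
  ring

theorem hasDerivAt_shift (hH : SpecHPB) (M : ℕ) (c : ℕ → ℂ) (t a : ℝ) :
    HasDerivAt (fun a => hp M c (t + a)) (hp M (dk c) (t + a)) a :=
  HasDerivAt.comp_const_add t a ((hH M c).1 (t + a))

theorem hasDerivAt_pg (hH : SpecHPB) (hW : SpecWMB) (M : ℕ) (c : ℕ → ℂ) (t a : ℝ)
    (hB : 0 < Bh (hp M c) t) :
    HasDerivAt (pg M c t)
      (-(hp M c (t + a) + hp M (dk (dk c)) (t + a)) * sin a / Bh (hp M c) t) a := by
  have h1 := hasDerivAt_shift hH M c t a
  have h2 := hasDerivAt_shift hH M (dk c) t a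
  have h3 := (((h1.mul (hasDerivAt_cos a)).sub (h2.mul (hasDerivAt_sin a))).sub_const
    (gh (hp M c) t)).div_const (Bh (hp M c) t)
  have e : pg M c t = fun a => (hp M c (t + a) * cos a - hp M (dk c) (t + a) * sin a -
      gh (hp M c) t) / Bh (hp M c) t := by
    funext a; exact pg_eq hW M c t a hB
  rw [e]
  refine h3.congr_deriv ?_
  ring

theorem hasDerivAt_ag (hH : SpecHPB) (M : ℕ) (c : ℕ → ℂ) (t a : ℝ) :
    HasDerivAt (ag M c t) ((hp M c (t + a) + hp M (dk (dk c)) (t + a)) * cos a) a := by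
  have h1 := hasDerivAt_shift hH M c t a
  have h2 := hasDerivAt_shift hH M (dk c) t a
  have h3 := (h1.mul (hasDerivAt_sin a)).add (h2.mul (hasDerivAt_cos a))
  refine h3.congr_deriv ?_
  ring

theorem pg_zero (M : ℕ) (c : ℕ → ℂ) (t : ℝ) : pg M c t 0 = 1 := by simp [pg]
theorem pg_pi (M : ℕ) (c : ℕ → ℂ) (t : ℝ) : pg M c t π = -1 := by simp [pg]

theorem cont_pg (hH : SpecHPB) (hW : SpecWMB) (M : ℕ) (c : ℕ → ℂ) (t : ℝ)
    (hB : 0 < Bh (hp M c) t) : Continuous (pg M c t) :=
  continuous_iff_continuousAt.2 (fun a => (hasDerivAt_pg hH hW M c t a hB).continuousAt)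

theorem cont_ag (hH : SpecHPB) (M : ℕ) (c : ℕ → ℂ) (t : ℝ) : Continuous (ag M c t) :=
  continuous_iff_continuousAt.2 (fun a => (hasDerivAt_ag hH M c t a).continuousAt)

theorem strictAnti_pg (hH : SpecHPB) (hW : SpecWMB) (M : ℕ) (c : ℕ → ℂ) (hr : RP M c) (t : ℝ) :
    StrictAntiOn (pg M c t) (Icc 0 π) := by
  have hB := hr.2.2 t
  apply strictAntiOn_of_deriv_neg (convex_Icc 0 π)
  · exact (cont_pg hH hW M c t hB).continuousOn
  · intro x hx
    rw [interior_Icc] at hx
    rw [(hasDerivAt_pg hH hW M c t x hB).deriv]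
    have h1 := hr.2.1 (t + x)
    have h2 := sin_pos_of_pos_of_lt_pi hx.1 hx.2
    apply div_neg_of_neg_of_pos _ hB
    nlinarith [mul_pos h1 h2]

/-- the support inequality -/
theorem support (hH : SpecHPB) (hW : SpecWMB) (M : ℕ) (c : ℕ → ℂ) (hr : RP M c) (t α β : ℝ)
    (hα : α ∈ Icc 0 π) (hβ : β ∈ Icc 0 π) :
    (gh (hp M c) t + pg M c t α * Bh (hp M c) t) * cos β + ag M c t α * sin β ≤
      hp M c (t + β) := by
  have hB := hr.2.2 t
  set E : ℝ → ℝ := fun s => (hp M c (t + s) * cos s - hp M (dk c) (t + s) * sin s) * cos β +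
    ag M c t s * sin β with hE
  have hd : ∀ s, HasDerivAt E ((hp M c (t + s) + hp M (dk (dk c)) (t + s)) * sin (β - s)) s := by
    intro s
    have h1 := hasDerivAt_shift hH M c t s
    have h2 := hasDerivAt_shift hH M (dk c) t s
    have h3 := ((h1.mul (hasDerivAt_cos s)).sub (h2.mul (hasDerivAt_sin s))).mul_const (cos β)
    have h4 := (hasDerivAt_ag hH M c t s).mul_const (sin β)
    refine (h3.add h4).congr_deriv ?_
    rw [sin_sub]; ring
  have hcont : Continuous E := continuous_iff_continuousAt.2 (fun a => (hd a).continuousAt)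
  have hEb : E β = hp M c (t + β) := by
    simp only [hE]
    unfold ag
    have := sin_sq_add_cos_sq β
    have e1 : (hp M c (t + β) * cos β - hp M (dk c) (t + β) * sin β) * cos β +
      (hp M c (t + β) * sin β + hp M (dk c) (t + β) * cos β) * sin β =
      hp M c (t + β) * (sin β ^ 2 + cos β ^ 2) := by ring
    rw [e1, this, mul_one]
  have key : E α ≤ E β := by
    rcases le_total α β with hab | hab
    · have hm : MonotoneOn E (Icc α β) := by
        apply monotoneOn_of_deriv_nonneg (convex_Icc α β) hcont.continuousOn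
        · intro x _; exact (hd x).differentiableAt.differentiableWithinAt
        · intro x hx
          rw [interior_Icc] at hx
          rw [(hd x).deriv]
          apply mul_nonneg (hr.2.1 _).le
          apply sin_nonneg_of_nonneg_of_le_pi
          · linarith [hx.2]
          · linarith [hx.1, hα.1, hβ.2]
      exact hm (left_mem_Icc.2 hab) (right_mem_Icc.2 hab) hab
    · have hm : AntitoneOn E (Icc β α) := by
        apply antitoneOn_of_deriv_nonpos (convex_Icc β α) hcont.continuousOn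
        · intro x _; exact (hd x).differentiableAt.differentiableWithinAt
        · intro x hx
          rw [interior_Icc] at hx
          rw [(hd x).deriv]
          have h1 : sin (β - x) ≤ 0 := by
            apply sin_nonpos_of_nonpos_of_neg_pi_le
            · linarith [hx.1]
            · linarith [hx.2, hα.2, hβ.1]
          nlinarith [mul_nonneg (hr.2.1 (t + x)).le (neg_nonneg.2 h1)]
      exact hm (left_mem_Icc.2 hab) (right_mem_Icc.2 hab) hab
  rw [hEb] at key
  rw [pg_mul hW M c t α hB]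
  exact key

theorem ub_eq (hH : SpecHPB) (hW : SpecWMB) (M : ℕ) (c : ℕ → ℂ) (hr : RP M c) (t α : ℝ)
    (hα : α ∈ Ioo 0 π) : UB (hp M c) t (pg M c t α) = ag M c t α := by
  have hB := hr.2.2 t
  have hs := sin_pos_of_pos_of_lt_pi hα.1 hα.2
  unfold UB
  have hle : ∀ β : Ioo (0 : ℝ) π, ag M c t α ≤
      (hp M c (t + β) - (gh (hp M c) t + pg M c t α * Bh (hp M c) t) * cos β) / sin β := by
    intro β
    have hsb := sin_pos_of_pos_of_lt_pi β.2.1 β.2.2
    rw [le_div_iff₀ hsb]
    have := support hH hW M c hr t α β ⟨hα.1.le, hα.2.le⟩ ⟨β.2.1.le, β.2.2.le⟩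
    linarith
  have : Nonempty (Ioo (0 : ℝ) π) := ⟨⟨α, hα⟩⟩
  apply le_antisymm
  · refine (ciInf_le ⟨ag M c t α, ?_⟩ (⟨α, hα⟩ : Ioo (0 : ℝ) π)).trans_eq ?_
    · rintro _ ⟨β, rfl⟩; exact hle β
    · simp only
      rw [div_eq_iff hs.ne', pg_mul hW M c t α hB]
      unfold ag
      have := sin_sq_add_cos_sq α
      have e : sin α ^ 2 = 1 - cos α ^ 2 := by linarith
      have e1 : (hp M c (t + α) * sin α + hp M (dk c) (t + α) * cos α) * sin α =
        hp M c (t + α) * sin α ^ 2 + hp M (dk c) (t + α) * cos α * sin α := by ring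
      rw [e1, e]; ring
  · exact le_ciInf hle

end GAGM

open GAGM in
theorem specGAG (hH : SpecHPB) (hW : SpecWMB) : SpecGAG := by
  intro M c hr t
  have hB := hr.2.2 t
  have hanti := strictAnti_pg hH hW M c hr t
  have hcont : Continuous (pg M c t) := cont_pg hH hW M c t hB
  have h0 : (0 : ℝ) ∈ Icc 0 π := ⟨le_rfl, pi_pos.le⟩
  have hpi : π ∈ Icc 0 π := ⟨pi_pos.le, le_rfl⟩
  have himg : pg M c t '' (Ioo 0 π) = Ioo (-1) 1 := by
    apply Subset.antisymm
    · rintro _ ⟨α, hα, rfl⟩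
      have hα' : α ∈ Icc 0 π := ⟨hα.1.le, hα.2.le⟩
      constructor
      · have := hanti hα' hpi hα.2
        rwa [pg_pi] at this
      · have := hanti h0 hα' hα.1
        rwa [pg_zero] at this
    · have := intermediate_value_Ioo' pi_pos.le hcont.continuousOn
      rwa [pg_pi, pg_zero] at this
  have hbd : ∀ d : ℕ → ℂ, BddAbove (range (fun s => |hp M d s|)) := by
    intro d
    obtain ⟨C, hC⟩ := (hH M d).2.2.2.1
    refine ⟨C, ?_⟩
    rintro _ ⟨s, rfl⟩
    exact hC s
  refine ⟨fun α => hasDerivAt_pg hH hW M c t α hB, hanti, himg, ?_, ?_, ?_⟩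
  · intro α hα
    rw [abs_le]
    constructor
    · have := hanti.antitoneOn hα hpi hα.2
      rwa [pg_pi] at this
    · have := hanti.antitoneOn h0 hα hα.1
      rwa [pg_zero] at this
  · intro α hα
    exact ub_eq hH hW M c hr t α hα
  · intro τ hτ
    rw [← himg] at hτ
    obtain ⟨α, hα, rfl⟩ := hτ
    rw [ub_eq hH hW M c hr t α hα]
    unfold ag
    have h1 : |hp M c (t + α)| ≤ ⨆ s, |hp M c s| := le_ciSup (hbd c) (t + α)
    have h2 : |hp M (dk c) (t + α)| ≤ ⨆ s, |hp M (dk c) s| := le_ciSup (hbd (dk c)) (t + α)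
    refine (abs_add_le _ _).trans ?_
    rw [abs_mul, abs_mul]
    have hs := abs_sin_le_one α
    have hc := abs_cos_le_one α
    have e1 : |hp M c (t + α)| * |sin α| ≤ |hp M c (t + α)| * 1 :=
      mul_le_mul_of_nonneg_left hs (abs_nonneg _)
    have e2 : |hp M (dk c) (t + α)| * |cos α| ≤ |hp M (dk c) (t + α)| * 1 :=
      mul_le_mul_of_nonneg_left hc (abs_nonneg _)
    linarith

end Pool.Agent.Lib.MP_084b88_gt.CW
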