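import Pool.Agent.Lib.MP_084b88_gt.CW.GAG

/-!
# MP_084b88_gt, project CW: module GAL
-/

set_option autoImplicit false

open MeasureTheory Set Real Filter Topology
open scoped Pointwise InnerProductSpace

namespace Pool.Agent.Lib.MP_084b88_gt.CW

namespace GALM
open GAGM

/-- Lipschitz estimate for an antiderivative on `[-1,1]`. -/
theorem lip (G1 G2 : ℝ → ℝ) (h1 : Continuous G1) (h2 : ∀ x, HasDerivAt G2 (G1 x) x) :
    ∃ D : ℝ, 0 ≤ D ∧ ∀ x ∈ Icc (-1 : ℝ) 1, ∀ y ∈ Icc (-1 : ℝ) 1,
      |G2 y - G2 x| ≤ D * |y - x| := by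
  obtain ⟨D, hD⟩ := (isCompact_Icc (a := (-1 : ℝ)) (b := 1)).exists_bound_of_continuousOn
    h1.continuousOn
  have hD0 : 0 ≤ D := (norm_nonneg _).trans (hD 0 ⟨by norm_num, by norm_num⟩)
  refine ⟨D, hD0, fun x hx y hy => ?_⟩
  exact (convex_Icc (-1 : ℝ) 1).norm_image_sub_le_of_norm_hasDerivWithin_le
    (fun z _ => (h2 z).hasDerivWithinAt) hD hx hy

end GALM

open GAGM GALM in
/-- **GAL**. -/
theorem specGAL (hA : SpecGAG) (hH : SpecHPB) : SpecGAL := by
  intro M c hr G G1 G2 hG hG1 hG2 t
  obtain ⟨hder, hanti, himg, hle1, hU, -⟩ := hA M c hr t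
  set B := Bh (hp M c) t with hB
  have hB0 : 0 < B := hr.2.2 t
  have hG1c : Continuous G1 := continuous_iff_continuousAt.2 (fun a => (hG1 a).continuousAt)
  have hG2c : Continuous G2 := continuous_iff_continuousAt.2 (fun a => (hG2 a).continuousAt)
  have hmS : MeasurableSet (Ioo (0 : ℝ) π) := measurableSet_Ioo
  have hder' : ∀ a, HasDerivAt (pg M c t)
      (-(hp M c (t + a) + hp M (dk (dk c)) (t + a)) * sin a / B) a := hder
  have hpc : Continuous (pg M c t) :=
    continuous_iff_continuousAt.2 (fun a => (hder' a).continuousAt)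
  have hac : Continuous (ag M c t) := cont_ag hH M c t
  set r : ℝ → ℝ := fun α => hp M c (t + α) + hp M (dk (dk c)) (t + α) with hrdef
  have hrcont : Continuous r := by
    have h1 := (hH M c).2.2.1
    have h2 := (hH M (dk (dk c))).2.2.1
    exact (h1.comp (continuous_const.add continuous_id)).add
      (h2.comp (continuous_const.add continuous_id))
  have hinj : InjOn (pg M c t) (Ioo 0 π) := (hanti.injOn).mono Ioo_subset_Icc_self
  have hderW : ∀ x ∈ Ioo (0 : ℝ) π, HasDerivWithinAt (pg M c t) (-(r x) * sin x / B) (Ioo 0 π) x :=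
    fun x _ => (hder' x).hasDerivWithinAt
  have himg' : pg M c t '' (Ioo 0 π) = Ioo (-1) 1 := himg
  -- the function `W`
  set WW : ℝ → ℝ := fun a => G2 (pg M c t a) - G2 (cos a) with hWdef
  have hWc : Continuous WW := (hG2c.comp hpc).sub (hG2c.comp continuous_cos)
  obtain ⟨C, hC0, hWC⟩ : ∃ C : ℝ, 0 ≤ C ∧ ∀ a ∈ Icc (0 : ℝ) π, |WW a| ≤ C * sin a ^ 2 := by
    obtain ⟨D, hD0, hD⟩ := lip G1 G2 hG1c hG2
    obtain ⟨C, hC⟩ := (hH M c).2.2.2.2.2.2.2.2.1
    have hC0 : 0 ≤ C := (abs_nonneg _).trans (hC 0 0)
    refine ⟨D * C / B, by positivity, fun a ha => ?_⟩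
    have h1 : pg M c t a ∈ Icc (-1 : ℝ) 1 := abs_le.1 (hle1 a ha)
    have h2 : cos a ∈ Icc (-1 : ℝ) 1 := ⟨neg_one_le_cos a, cos_le_one a⟩
    refine (hD _ h2 _ h1).trans ?_
    have h3 : pg M c t a - cos a = sin a ^ 2 * Ps M c t a / B := by unfold pg; ring
    rw [h3, abs_div, abs_mul, abs_of_nonneg (sq_nonneg _), abs_of_pos hB0]
    have h4 : sin a ^ 2 * |Ps M c t a| / B ≤ sin a ^ 2 * C / B :=
      div_le_div_of_nonneg_right (mul_le_mul_of_nonneg_left (hC t a) (sq_nonneg _)) hB0.le
    calc D * (sin a ^ 2 * |Ps M c t a| / B) ≤ D * (sin a ^ 2 * C / B) :=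
          mul_le_mul_of_nonneg_left h4 hD0
      _ = D * C / B * sin a ^ 2 := by ring
  -- the integrand after substitution
  have heq : ∀ x ∈ Ioo (0 : ℝ) π,
      |-(r x) * sin x / B| • (UB (hp M c) t (pg M c t x) * G (pg M c t x)) =
      ag M c t x * G (pg M c t x) * r x * sin x / B := by
    intro x hx
    have hs := sin_pos_of_pos_of_lt_pi hx.1 hx.2
    have hrx : 0 < r x := hr.2.1 (t + x)
    have e : |-(r x) * sin x / B| = r x * sin x / B := by
      rw [neg_mul, neg_div, abs_neg, abs_of_pos (div_pos (mul_pos hrx hs) hB0)]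
    have h3 : UB (hp M c) t (pg M c t x) = ag M c t x := hU x hx
    rw [e, h3, smul_eq_mul]; ring
  have hcontI : Continuous (fun x => ag M c t x * G (pg M c t x) * r x * sin x) :=
    ((hac.mul (hG.comp hpc)).mul hrcont).mul continuous_sin
  have hint0 : IntegrableOn (fun x => ag M c t x * G (pg M c t x) * r x * sin x / B) (Ioo 0 π) :=
    ((hcontI.div_const B).integrableOn_Icc (a := 0) (b := π)).mono_set Ioo_subset_Icc_self
  constructor
  · rw [← himg', integrableOn_image_iff_integrableOn_abs_deriv_smul hmS hderW hinj]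
    exact hint0.congr_fun (fun x hx => (heq x hx).symm) hmS
  · rw [← himg', integral_image_eq_integral_abs_deriv_smul hmS hderW hinj,
      setIntegral_congr_fun hmS heq]
    -- fundamental theorem
    set Q : ℝ → ℝ := fun x => -(B * (ag M c t x * G1 (pg M c t x))) -
      B ^ 2 * (cos x / sin x * WW x) with hQdef
    have hW0 : ∀ x, cos x / sin x * WW x = cos x * (sin x * (WW x / sin x ^ 2)) := by
      intro x
      by_cases hs : sin x = 0
      · rw [hs]; simp
      · field_simp
    have hQd : ∀ x ∈ Ioo (0 : ℝ) π, HasDerivAt Q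
        (ag M c t x * G (pg M c t x) * r x * sin x + B ^ 2 * (WW x / sin x ^ 2) -
          B ^ 2 * (G1 (cos x) * cos x)) x := by
      intro x hx
      have hs := (sin_pos_of_pos_of_lt_pi hx.1 hx.2).ne'
      have hp := hder' x
      have h1 := ((hasDerivAt_ag hH M c t x).mul ((hG1 (pg M c t x)).comp x hp)).const_mul B
      have h2 := ((hasDerivAt_cos x).div (hasDerivAt_sin x) hs)
      have h3 := ((hG2 (pg M c t x)).comp x hp).sub ((hG2 (cos x)).comp x (hasDerivAt_cos x))
      have h4 := h1.neg.sub ((h2.mul h3).const_mul (B ^ 2))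
      refine h4.congr_deriv ?_
      simp only [Function.comp, Pi.sub_apply]
      change -(B * ((r x * cos x) * G1 (pg M c t x) +
          ag M c t x * (G (pg M c t x) * (-(r x) * sin x / B)))) -
        B ^ 2 * (((-sin x * sin x - cos x * cos x) / sin x ^ 2) *
          (G2 (pg M c t x) - G2 (cos x)) +
          cos x / sin x * (G1 (pg M c t x) * (-(r x) * sin x / B) - G1 (cos x) * -sin x)) = _
      have e1 : (-sin x * sin x - cos x * cos x) = -1 := by
        have := sin_sq_add_cos_sq x; nlinarith
      rw [e1]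
      simp only [hWdef]
      field_simp
      ring
    have hWint : IntervalIntegrable (fun x => WW x / sin x ^ 2) volume 0 π := by
      rw [intervalIntegrable_iff_integrableOn_Ioc_of_le pi_pos.le]
      refine Measure.integrableOn_of_bounded (M := C) ?_ ?_ ?_
      · exact measure_Ioc_lt_top.ne
      · exact (hWc.measurable.div (continuous_sin.pow 2).measurable).aestronglyMeasurable
      · rw [ae_restrict_iff' measurableSet_Ioc]
        refine Eventually.of_forall (fun x hx => ?_)
        rw [norm_div, norm_eq_abs, norm_eq_abs, abs_of_nonneg (sq_nonneg (sin x))]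
        by_cases hs : sin x = 0
        · rw [hs]; simpa using hC0
        · rw [div_le_iff₀ (by positivity)]
          exact hWC x ⟨hx.1.le, hx.2⟩
    have hQc : ContinuousOn Q (Icc 0 π) := by
      have hA : Continuous (fun x => -(B * (ag M c t x * G1 (pg M c t x)))) :=
        (continuous_const.mul (hac.mul (hG1c.comp hpc))).neg
      apply hA.continuousOn.sub
      apply continuousOn_const.mul
      intro x hx
      by_cases hs : sin x = 0
      · have e0 : cos x / sin x * WW x = 0 := by rw [hs]; simp
        unfold ContinuousWithinAt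
        simp only [e0]
        have hlim : Tendsto (fun y => C * |sin y|) (𝓝[Icc 0 π] x) (𝓝 0) := by
          have : Tendsto (fun y => C * |sin y|) (𝓝 x) (𝓝 (C * |sin x|)) :=
            (continuous_const.mul continuous_sin.abs).tendsto x
          rw [hs, abs_zero, mul_zero] at this
          exact this.mono_left nhdsWithin_le_nhds
        refine squeeze_zero_norm' ?_ hlim
        filter_upwards [self_mem_nhdsWithin] with y hy
        rw [hW0, norm_mul, norm_mul, norm_eq_abs, norm_eq_abs, norm_div, norm_eq_abs, norm_eq_abs,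
          abs_of_nonneg (sq_nonneg (sin y))]
        have h1 : |WW y| / sin y ^ 2 ≤ C := by
          by_cases hs' : sin y = 0
          · rw [hs']; simpa using hC0
          · rw [div_le_iff₀ (by positivity)]
            exact hWC y hy
        have h2 := abs_cos_le_one y
        have h3 : |sin y| * (|WW y| / sin y ^ 2) ≤ |sin y| * C :=
          mul_le_mul_of_nonneg_left h1 (abs_nonneg _)
        have h4 : 0 ≤ |sin y| * (|WW y| / sin y ^ 2) := by positivity
        calc |cos y| * (|sin y| * (|WW y| / sin y ^ 2))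
            ≤ 1 * (|sin y| * (|WW y| / sin y ^ 2)) := mul_le_mul_of_nonneg_right h2 h4
          _ ≤ C * |sin y| := by linarith
      · exact ((continuous_cos.continuousAt.div continuous_sin.continuousAt hs).mul
          hWc.continuousAt).continuousWithinAt
    have hi1 : IntervalIntegrable (fun x => ag M c t x * G (pg M c t x) * r x * sin x)
        volume 0 π := hcontI.intervalIntegrable 0 π
    have hi2 : IntervalIntegrable (fun x => B ^ 2 * (G1 (cos x) * cos x)) volume 0 π :=
      (continuous_const.mul ((hG1c.comp continuous_cos).mul continuous_cos)).intervalIntegrable 0 π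
    have hFTC := intervalIntegral.integral_eq_sub_of_hasDerivAt_of_le pi_pos.le hQc hQd
      ((hi1.add (hWint.const_mul _)).sub hi2)
    have hsum : ∫ x in (0 : ℝ)..π, (ag M c t x * G (pg M c t x) * r x * sin x +
        B ^ 2 * (WW x / sin x ^ 2) - B ^ 2 * (G1 (cos x) * cos x)) =
        (∫ x in (0 : ℝ)..π, ag M c t x * G (pg M c t x) * r x * sin x) +
        B ^ 2 * (∫ x in (0 : ℝ)..π, WW x / sin x ^ 2) -
          B ^ 2 * ∫ x in (0 : ℝ)..π, G1 (cos x) * cos x := by
      rw [intervalIntegral.integral_sub (hi1.add (hWint.const_mul _)) hi2,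
        intervalIntegral.integral_add hi1 (hWint.const_mul _),
        intervalIntegral.integral_const_mul, intervalIntegral.integral_const_mul]
    have hQpi : Q π = B * (hp M (dk c) (t + π) * G1 (-1)) := by
      simp only [hQdef]
      rw [pg_pi]
      unfold ag
      rw [sin_pi, cos_pi]
      ring
    have hQ0 : Q 0 = -(B * (hp M (dk c) t * G1 1)) := by
      simp only [hQdef]
      rw [pg_zero]
      unfold ag
      rw [sin_zero, cos_zero, add_zero]
      ring
    rw [hsum, hQpi, hQ0] at hFTC
    have hfin : B * ∫ x in Ioo (0 : ℝ) π, ag M c t x * G (pg M c t x) * r x * sin x / B =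
        ∫ x in (0 : ℝ)..π, ag M c t x * G (pg M c t x) * r x * sin x := by
      rw [← integral_const_mul, intervalIntegral.integral_of_le pi_pos.le,
        integral_Ioc_eq_integral_Ioo]
      refine setIntegral_congr_fun measurableSet_Ioo (fun x _ => ?_)
      field_simp
    rw [hfin]
    have hWW : (∫ x in (0 : ℝ)..π, WW x / sin x ^ 2) = ∫ α in (0 : ℝ)..π,
        (G2 (cos α + sin α ^ 2 * Ps M c t α / B) - G2 (cos α)) / sin α ^ 2 := rfl
    rw [hWW] at hFTC
    linarith

end Pool.Agent.Lib.MP_084b88_gt.CW
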