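import Pool.Agent.Lib.MP_084b88_gt.CW.SpecB

/-!
# MP_084b88_gt, project CW: APH (approximation by trigonometric polynomials)
-/

set_option autoImplicit false

open MeasureTheory Set Real Filter Topology
open scoped Pointwise InnerProductSpace

namespace Pool.Agent.Lib.MP_084b88_gt.CW

namespace APHM

/-- the kernel -/
noncomputable def ker (n : ℕ) (x : ℝ) : ℝ := cos (x / 2) ^ (2 * n)

theorem ker_nonneg (n : ℕ) (x : ℝ) : 0 ≤ ker n x := by
  unfold ker
  rw [pow_mul]
  positivity

theorem ker_cont (n : ℕ) : Continuous (ker n) := by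
  unfold ker
  fun_prop

theorem ker_periodic (n : ℕ) (x : ℝ) : ker n (x + 2 * π) = ker n x := by
  unfold ker
  have : (x + 2 * π) / 2 = x / 2 + π := by ring
  rw [this, cos_add_pi, pow_mul, neg_sq, ← pow_mul]

theorem ker_sub_periodic (n : ℕ) (θ t : ℝ) : ker n (θ - (t + 2 * π)) = ker n (θ - t) := by
  have h := ker_periodic n (θ - (t + 2 * π))
  rw [← h]
  congr 1
  ring

/-- the average -/
noncomputable def av (n : ℕ) (g : ℝ → ℝ) (θ : ℝ) : ℝ :=
  (∫ x in (-π)..π, g (θ - x) * ker n x) / ∫ x in (-π)..π, ker n x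

section

variable {g : ℝ → ℝ} (hg : Continuous g) (n : ℕ) (hZ : 0 < ∫ x in (-π)..π, ker n x)

include hg in
theorem int_cont (θ : ℝ) : Continuous (fun x => g (θ - x) * ker n x) :=
  (hg.comp (continuous_const.sub continuous_id)).mul (ker_cont n)

include hg in
theorem int_int (θ : ℝ) : IntervalIntegrable (fun x => g (θ - x) * ker n x) volume (-π) π :=
  (int_cont hg n θ).intervalIntegrable _ _

include hg hZ in
/-- averages preserve inequalities -/
theorem av_le {k : ℝ → ℝ} (hk : Continuous k) (θ θ' : ℝ) (a : ℝ)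
    (h : ∀ x, g (θ - x) ≤ k (θ' - x) + a) : av n g θ ≤ av n k θ' + a := by
  unfold av
  have hak : Continuous (fun x => a * ker n x) := continuous_const.mul (ker_cont n)
  have h2 : a = (∫ x in (-π)..π, a * ker n x) / ∫ x in (-π)..π, ker n x := by
    rw [intervalIntegral.integral_const_mul, mul_div_assoc, div_self hZ.ne', mul_one]
  conv_rhs => rw [h2]
  rw [← add_div, ← intervalIntegral.integral_add (int_int hk n θ')
    (hak.intervalIntegrable _ _)]
  refine div_le_div_of_nonneg_right ?_ hZ.le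
  refine intervalIntegral.integral_mono_on (by linarith [pi_pos]) (int_int hg n θ)
    (((int_cont hk n θ').add hak).intervalIntegrable _ _) ?_
  intro x _
  have := mul_le_mul_of_nonneg_right (h x) (ker_nonneg n x)
  calc g (θ - x) * ker n x ≤ (k (θ' - x) + a) * ker n x := this
    _ = k (θ' - x) * ker n x + a * ker n x := by ring

include hg hZ in
theorem av_lip {Λ : ℝ} (hL : ∀ θ θ', |g θ - g θ'| ≤ Λ * |θ - θ'|) (θ θ' : ℝ) :
    |av n g θ - av n g θ'| ≤ Λ * |θ - θ'| := by
  rw [abs_le]
  constructor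
  · have h := av_le hg n hZ hg θ' θ (Λ * |θ - θ'|) (fun x => by
      have h1 := (abs_le.1 (hL (θ - x) (θ' - x))).1
      have h2 : θ - x - (θ' - x) = θ - θ' := by ring
      rw [h2] at h1
      linarith)
    linarith
  · have h := av_le hg n hZ hg θ θ' (Λ * |θ - θ'|) (fun x => by
      have h1 := (abs_le.1 (hL (θ - x) (θ' - x))).2
      have h2 : θ - x - (θ' - x) = θ - θ' := by ring
      rw [h2] at h1
      linarith)
    linarith

include hg hZ in
theorem av_close {Λ : ℝ} (hΛ : 0 ≤ Λ) (hL : ∀ θ θ', |g θ - g θ'| ≤ Λ * |θ - θ'|)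
    (hK : ∫ x in (-π)..π, |x| * ker n x ≤ (π / √(2 * n + 2)) * ∫ x in (-π)..π, ker n x)
    (θ : ℝ) : |av n g θ - g θ| ≤ Λ * (π / √(2 * n + 2)) := by
  have h2 : g θ = (∫ x in (-π)..π, g θ * ker n x) / ∫ x in (-π)..π, ker n x := by
    rw [intervalIntegral.integral_const_mul, mul_div_assoc, div_self hZ.ne', mul_one]
  have hc1 : Continuous (fun x => g θ * ker n x) := continuous_const.mul (ker_cont n)
  have h3 : av n g θ - g θ =
      (∫ x in (-π)..π, (g (θ - x) * ker n x - g θ * ker n x)) / ∫ x in (-π)..π, ker n x := by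
    rw [intervalIntegral.integral_sub (int_int hg n θ) (hc1.intervalIntegrable _ _), sub_div,
      ← h2]
    rfl
  rw [h3, abs_div, abs_of_pos hZ, div_le_iff₀ hZ]
  have hpi := pi_pos
  refine (intervalIntegral.abs_integral_le_integral_abs (by linarith)).trans ?_
  have h4 : ∫ x in (-π)..π, |g (θ - x) * ker n x - g θ * ker n x| ≤
      ∫ x in (-π)..π, Λ * (|x| * ker n x) := by
    refine intervalIntegral.integral_mono_on (by linarith)
      (((int_cont hg n θ).sub hc1).abs.intervalIntegrable _ _)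
      ((continuous_const.mul (continuous_abs.mul (ker_cont n))).intervalIntegrable _ _) ?_
    intro x _
    rw [← sub_mul, abs_mul, abs_of_nonneg (ker_nonneg n x), ← mul_assoc]
    refine mul_le_mul_of_nonneg_right ?_ (ker_nonneg n x)
    have h5 := hL (θ - x) θ
    rwa [show θ - x - θ = -x by ring, abs_neg] at h5
  refine h4.trans ?_
  rw [intervalIntegral.integral_const_mul, mul_assoc]
  exact mul_le_mul_of_nonneg_left hK hΛ

end

theorem sum_range_two_mul (f : ℕ → ℝ) (n : ℕ) :
    ∑ k ∈ Finset.range (2 * n), f k = ∑ m ∈ Finset.range n, (f (2 * m) + f (2 * m + 1)) := by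
  induction n with
  | zero => simp
  | succ n ih =>
    rw [show 2 * (n + 1) = 2 * n + 1 + 1 by ring, Finset.sum_range_succ, Finset.sum_range_succ,
      ih, Finset.sum_range_succ]
    ring

/-- even modes vanish -/
theorem even_zero {g : ℝ → ℝ} (hg : Continuous g) (hanti : ∀ θ, g (θ + π) = - g θ) (m : ℕ)
    (θ : ℝ) : ∫ t in (-π)..π, g t * cos ((2 * m : ℕ) * (θ - t)) = 0 := by
  set F : ℝ → ℝ := fun t => g t * cos ((2 * m : ℕ) * (θ - t)) with hF
  have hFc : Continuous F := by
    rw [hF]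
    exact hg.mul (by fun_prop)
  have hFa : ∀ t, F (t + π) = - F t := by
    intro t
    simp only [hF]
    rw [hanti t]
    have h1 : ((2 * m : ℕ) : ℝ) * (θ - (t + π)) = ((2 * m : ℕ) : ℝ) * (θ - t) - m * (2 * π) := by
      push_cast
      ring
    rw [h1, cos_sub_nat_mul_two_pi]
    ring
  have hi : ∀ a b, IntervalIntegrable F volume a b := fun a b => hFc.intervalIntegrable a b
  rw [← intervalIntegral.integral_add_adjacent_intervals (hi (-π) 0) (hi 0 π)]
  have h2 : ∫ t in (0 : ℝ)..π, F t = ∫ t in (-π)..0, F (t + π) := by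
    rw [intervalIntegral.integral_comp_add_right F π]
    congr 1 <;> ring
  rw [h2]
  simp only [hFa]
  rw [intervalIntegral.integral_neg, add_neg_cancel]

/-- the averages are trigonometric polynomials -/
theorem av_gp {g : ℝ → ℝ} (hg : Continuous g) (hanti : ∀ θ, g (θ + π) = - g θ) (n : ℕ)
    (hn : 1 ≤ n) (b : ℕ → ℝ)
    (hb : ∀ x : ℝ, cos (x / 2) ^ (2 * n) = ∑ k ∈ Finset.range (n + 1), b k * cos (k * x)) :
    ∃ c : ℕ → ℂ, ∀ θ, gp n c θ = av n g θ := by
  set Z : ℝ := ∫ x in (-π)..π, ker n x with hZ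
  have hper : ∀ t, g (t + 2 * π) = g t := by
    intro t
    have : t + 2 * π = t + π + π := by ring
    rw [this, hanti, hanti, neg_neg]
  -- substitution
  have h1 : ∀ θ, ∫ x in (-π)..π, g (θ - x) * ker n x = ∫ t in (-π)..π, g t * ker n (θ - t) := by
    intro θ
    have h2 := intervalIntegral.integral_comp_sub_left (a := -π) (b := π)
      (fun t => g t * ker n (θ - t)) θ
    have h3 : ∀ x, g (θ - x) * ker n (θ - (θ - x)) = g (θ - x) * ker n x := by
      intro x
      rw [sub_sub_cancel]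
    simp only [h3] at h2
    rw [h2]
    have hP : Function.Periodic (fun t => g t * ker n (θ - t)) (2 * π) := by
      intro t
      simp only
      rw [hper, ker_sub_periodic]
    have h4 := hP.intervalIntegral_add_eq (θ - π) (-π)
    rw [show θ - π + 2 * π = θ - -π by ring, show -π + 2 * π = π by ring] at h4
    exact h4
  -- expansion
  have h5 : ∀ θ, ∫ t in (-π)..π, g t * ker n (θ - t) =
      ∑ k ∈ Finset.range (n + 1), b k * ∫ t in (-π)..π, g t * cos (k * (θ - t)) := by
    intro θ
    have h6 : ∀ t, g t * ker n (θ - t) =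
        ∑ k ∈ Finset.range (n + 1), b k * (g t * cos (k * (θ - t))) := by
      intro t
      unfold ker
      rw [hb, Finset.mul_sum]
      exact Finset.sum_congr rfl fun k _ => by ring
    simp only [h6]
    rw [intervalIntegral.integral_finsetSum]
    · exact Finset.sum_congr rfl fun k _ => intervalIntegral.integral_const_mul _ _
    · intro k _
      refine Continuous.intervalIntegrable ?_ _ _
      exact continuous_const.mul (hg.mul (by fun_prop))
  set A : ℕ → ℝ := fun k => ∫ t in (-π)..π, g t * cos (k * t) with hA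
  set B : ℕ → ℝ := fun k => ∫ t in (-π)..π, g t * sin (k * t) with hB
  have h7 : ∀ (k : ℕ) (θ : ℝ), ∫ t in (-π)..π, g t * cos (k * (θ - t)) =
      cos (k * θ) * A k + sin (k * θ) * B k := by
    intro k θ
    simp only [hA, hB]
    rw [← intervalIntegral.integral_const_mul, ← intervalIntegral.integral_const_mul,
      ← intervalIntegral.integral_add]
    · refine intervalIntegral.integral_congr fun t _ => ?_
      change g t * cos (k * (θ - t)) = cos (k * θ) * (g t * cos (k * t)) +
        sin (k * θ) * (g t * sin (k * t))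
      rw [mul_sub, cos_sub]
      ring
    · exact (continuous_const.mul (hg.mul (by fun_prop))).intervalIntegrable _ _
    · exact (continuous_const.mul (hg.mul (by fun_prop))).intervalIntegrable _ _
  set c : ℕ → ℂ := fun m => if 2 * m + 1 ≤ n then
    ((b (2 * m + 1) / Z : ℝ) : ℂ) * ⟨A (2 * m + 1), -B (2 * m + 1)⟩ else 0 with hc
  refine ⟨c, fun θ => ?_⟩
  unfold gp av
  rw [h1, h5, ← hZ]
  rw [Complex.re_sum]
  -- the k-sum
  set f : ℕ → ℝ := fun k => if k ≤ n then
    b k * (∫ t in (-π)..π, g t * cos (k * (θ - t))) else 0 with hf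
  have h8 : ∑ k ∈ Finset.range (n + 1), b k * ∫ t in (-π)..π, g t * cos (k * (θ - t)) =
      ∑ k ∈ Finset.range (2 * n), f k := by
    have hsub : Finset.range (n + 1) ⊆ Finset.range (2 * n) := by
      intro k hk
      rw [Finset.mem_range] at hk ⊢
      omega
    rw [← Finset.sum_subset hsub]
    · refine Finset.sum_congr rfl fun k hk => ?_
      rw [Finset.mem_range] at hk
      simp only [hf]
      rw [if_pos (by omega)]
    · intro k _ hk
      rw [Finset.mem_range] at hk
      simp only [hf]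
      rw [if_neg (by omega)]
  rw [h8, sum_range_two_mul, Finset.sum_div]
  refine Finset.sum_congr rfl fun m _ => ?_
  have h9 : f (2 * m) = 0 := by
    simp only [hf]
    split_ifs
    · rw [even_zero hg hanti m θ, mul_zero]
    · rfl
  rw [h9, zero_add]
  simp only [hf, hc]
  split_ifs with h10
  · rw [h7]
    have e1 : Complex.exp (Complex.I * ((2 * m + 1 : ℕ) * (θ : ℂ))) =
        ⟨cos ((2 * m + 1 : ℕ) * θ), sin ((2 * m + 1 : ℕ) * θ)⟩ := by
      have e2 : Complex.I * ((2 * m + 1 : ℕ) * (θ : ℂ)) =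
          (((2 * m + 1 : ℕ) * θ : ℝ) : ℂ) * Complex.I := by
        push_cast
        ring
      rw [e2]
      apply Complex.ext
      · rw [Complex.exp_ofReal_mul_I_re]
      · rw [Complex.exp_ofReal_mul_I_im]
    rw [e1]
    simp only [Complex.mul_re, Complex.ofReal_re, Complex.ofReal_im, Complex.mul_im, zero_mul,
      sub_zero, add_zero]
    ring
  · simp

/-- the second derivative from the class inequality -/
theorem second_deriv {G G1 G2 : ℝ → ℝ} (h1 : ∀ x, HasDerivAt G (G1 x) x)
    (h2 : ∀ x, HasDerivAt G1 (G2 x) x)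
    (hcl : ∀ φ α, 2 * cos α * G φ ≤ G (φ + α) + G (φ - α)) (φ : ℝ) : 0 ≤ G φ + G2 φ := by
  by_contra hneg
  rw [not_le] at hneg
  set δ : ℝ := -(G φ + G2 φ) / 2 with hδ
  have hδ0 : 0 < δ := by rw [hδ]; linarith
  set f : ℝ → ℝ := fun α => -(G (φ + α) + G (φ - α) - 2 * cos α * G φ) - δ * α ^ 2 with hf
  have hfd : ∀ α, HasDerivAt f (-(G1 (φ + α) - G1 (φ - α) + 2 * sin α * G φ) - 2 * δ * α) α := by
    intro α
    have e1 : HasDerivAt (fun α => G (φ + α)) (G1 (φ + α)) α := by
      have := (h1 (φ + α)).comp_const_add φ α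
      exact this
    have e2 : HasDerivAt (fun α => G (φ - α)) (-G1 (φ - α)) α := by
      have := (h1 (φ - α)).comp_const_sub φ α
      exact this
    have e3 : HasDerivAt (fun α => 2 * cos α * G φ) (2 * (-sin α) * G φ) α :=
      ((hasDerivAt_cos α).const_mul 2).mul_const (G φ)
    have e4 : HasDerivAt (fun α : ℝ => δ * α ^ 2) (δ * (2 * α)) α := by
      have := ((hasDerivAt_id α).pow 2).const_mul δ
      refine this.congr_deriv ?_
      simp
    refine (((e1.add e2).sub e3).neg.sub e4).congr_deriv ?_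
    ring
  have hdf : deriv f = fun α => -(G1 (φ + α) - G1 (φ - α) + 2 * sin α * G φ) - 2 * δ * α :=
    funext fun α => (hfd α).deriv
  have hdd : HasDerivAt (deriv f) (-(G2 φ + G2 φ + 2 * G φ) - 2 * δ) 0 := by
    rw [hdf]
    have e1 : HasDerivAt (fun α => G1 (φ + α)) (G2 (φ + 0)) 0 := (h2 (φ + 0)).comp_const_add φ 0
    have e2 : HasDerivAt (fun α => G1 (φ - α)) (-G2 (φ - 0)) 0 := (h2 (φ - 0)).comp_const_sub φ 0
    have e3 : HasDerivAt (fun α => 2 * sin α * G φ) (2 * cos 0 * G φ) 0 :=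
      ((hasDerivAt_sin 0).const_mul 2).mul_const (G φ)
    have e4 : HasDerivAt (fun α : ℝ => 2 * δ * α) (2 * δ * 1) 0 :=
      (hasDerivAt_id (0 : ℝ)).const_mul (2 * δ)
    refine ((((e1.sub e2).add e3).neg).sub e4).congr_deriv ?_
    rw [add_zero, sub_zero, cos_zero]
    ring
  have hmin : IsLocalMin f 0 := by
    refine isLocalMin_of_deriv_deriv_pos ?_ ?_ (hfd 0).continuousAt
    · rw [hdd.deriv, hδ]
      linarith
    · rw [(hfd 0).deriv]
      simp
  have hf0 : f 0 = 0 := by
    simp only [hf]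
    rw [add_zero, sub_zero, cos_zero]
    ring
  obtain ⟨s, hs, hs'⟩ := Metric.eventually_nhds_iff.1 hmin
  have h5 : f 0 ≤ f (s / 2) := hs' (by
    rw [Real.dist_eq, sub_zero, abs_of_pos (by positivity)]
    linarith)
  rw [hf0] at h5
  have h6 := hcl φ (s / 2)
  have h7 : 0 < δ * (s / 2) ^ 2 := by positivity
  simp only [hf] at h5
  linarith

end APHM

open APHM in
theorem specAPH (hKCO : SpecKCO) (hKWA : SpecKWA) (hGPB : SpecGPB) : SpecAPH := by
  intro g Λ hΛ hL hanti hcl ε hε
  have hgc : Continuous g := by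
    refine (LipschitzWith.of_dist_le_mul (K := ⟨Λ, hΛ⟩) fun x y => ?_).continuous
    rw [Real.dist_eq, Real.dist_eq]
    exact hL x y
  have hpi := pi_pos
  -- choice of `n`
  obtain ⟨n, hn1, hn2⟩ : ∃ n : ℕ, 1 ≤ n ∧ Λ * (π / √(2 * n + 2)) ≤ ε / 2 := by
    obtain ⟨n, hn⟩ := exists_nat_ge ((Λ * π / (ε / 2)) ^ 2)
    refine ⟨n + 1, by omega, ?_⟩
    have h1 : Λ * π / (ε / 2) ≤ √(2 * ((n + 1 : ℕ) : ℝ) + 2) := by
      refine Real.le_sqrt_of_sq_le ?_
      push_cast
      linarith
    have h0 : 0 < √(2 * ((n + 1 : ℕ) : ℝ) + 2) := Real.sqrt_pos.2 (by positivity)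
    rw [← mul_div_assoc, div_le_iff₀ h0]
    rw [div_le_iff₀ (by positivity)] at h1
    linarith
  obtain ⟨b, hb⟩ := hKCO n
  obtain ⟨hZ', hK'⟩ := hKWA n
  have hZ : 0 < ∫ x in (-π)..π, ker n x := hZ'
  have hK : ∫ x in (-π)..π, |x| * ker n x ≤ (π / √(2 * n + 2)) * ∫ x in (-π)..π, ker n x := hK'
  clear hZ' hK'
  obtain ⟨c, hc⟩ := av_gp hgc hanti n hn1 b hb
  obtain ⟨hg1, -, -, -, -, -, -, -, hsm⟩ := hGPB n c
  obtain ⟨hg2, -, -, -, -, -, -, -, hsm2⟩ := hGPB n (dc c)
  obtain ⟨-, -, -, -, -, -, -, -, hsm3⟩ := hGPB n (dc (dc c))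
  have hclose : ∀ θ, |gp n c θ - g θ| ≤ ε / 2 := by
    intro θ
    rw [hc]
    exact (av_close hgc n hZ hΛ hL hK θ).trans hn2
  -- derivative
  have hder : ∀ θ, |gp n (dc c) θ| ≤ Λ := by
    intro θ
    have h1 : LipschitzWith ⟨Λ, hΛ⟩ (gp n c) := by
      refine LipschitzWith.of_dist_le_mul fun x y => ?_
      rw [Real.dist_eq, Real.dist_eq, hc, hc]
      exact av_lip hgc n hZ hL x y
    have h2 := norm_deriv_le_of_lipschitz h1 (x₀ := θ)
    rw [(hg1 θ).deriv] at h2
    exact h2
  -- second derivative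
  have hsec : ∀ θ, 0 ≤ (1 + gp n c θ) + gp n (dc (dc c)) θ := by
    intro θ
    refine second_deriv (G := fun t => 1 + gp n c t) (G1 := gp n (dc c))
      (G2 := gp n (dc (dc c))) (fun x => (hg1 x).const_add 1) (fun x => hg2 x) ?_ θ
    intro φ α
    simp only [hc]
    -- average of the class inequality
    have hI : ∀ s : ℝ, 1 + av n g s = (∫ x in (-π)..π, (1 + g (s - x)) * ker n x) /
        ∫ x in (-π)..π, ker n x := by
      intro s
      have h3 : ∀ x, (1 + g (s - x)) * ker n x = ker n x + g (s - x) * ker n x := by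
        intro x
        ring
      simp only [h3]
      rw [intervalIntegral.integral_add ((ker_cont n).intervalIntegrable _ _)
        (int_int hgc n s), add_div, div_self (ne_of_gt hZ)]
      rfl
    have hcI : ∀ s : ℝ, Continuous (fun x => (1 + g (s - x)) * ker n x) := fun s =>
      (continuous_const.add (hgc.comp (continuous_const.sub continuous_id))).mul (ker_cont n)
    rw [hI, hI, hI, ← add_div, ← mul_div_assoc, ← intervalIntegral.integral_const_mul,
      ← intervalIntegral.integral_add ((hcI _).intervalIntegrable _ _)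
        ((hcI _).intervalIntegrable _ _)]
    refine div_le_div_of_nonneg_right ?_ (le_of_lt hZ)
    refine intervalIntegral.integral_mono_on (by linarith)
      ((continuous_const.mul (hcI φ)).intervalIntegrable _ _)
      (((hcI (φ + α)).add (hcI (φ - α))).intervalIntegrable _ _) ?_
    intro x _
    have h4 := mul_le_mul_of_nonneg_right (hcl (φ - x) α) (ker_nonneg n x)
    have e1 : φ - x + α = φ + α - x := by ring
    have e2 : φ - x - α = φ - α - x := by ring
    rw [e1, e2] at h4
    calc 2 * cos α * ((1 + g (φ - x)) * ker n x)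
        = 2 * cos α * (1 + g (φ - x)) * ker n x := by ring
      _ ≤ (1 + g (φ + α - x) + (1 + g (φ - α - x))) * ker n x := h4
      _ = _ := by ring
  -- bound for `g`
  have hgb : ∀ θ, |g θ| ≤ Λ * π := by
    intro θ
    have h1 := hL (θ + π) θ
    rw [hanti, add_sub_cancel_left, abs_of_pos hpi] at h1
    have h2 : |-g θ - g θ| = 2 * |g θ| := by
      rw [show -g θ - g θ = (-2) * g θ by ring, abs_mul, abs_neg, abs_two]
    rw [h2] at h1
    have := abs_nonneg (g θ)
    linarith
  -- choice of `δ`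
  set C : ℝ := Λ * π + ε + 1 with hC
  have hC1 : 0 < C := by positivity
  set δ : ℝ := min (1 / 2) (ε / 2 / C) with hδ
  have hδ0 : 0 < δ := lt_min (by norm_num) (by positivity)
  have hδ1 : δ ≤ 1 / 2 := min_le_left _ _
  have hδ2 : δ * C ≤ ε / 2 := by
    have : δ ≤ ε / 2 / C := min_le_right _ _
    calc δ * C ≤ ε / 2 / C * C := mul_le_mul_of_nonneg_right this hC1.le
      _ = ε / 2 := div_mul_cancel₀ _ hC1.ne'
  have hdc : dc (fun m => ((1 - δ : ℝ) : ℂ) * c m) = fun m => ((1 - δ : ℝ) : ℂ) * dc c m := by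
    funext m
    unfold dc
    ring
  have hdc2 : dc (fun m => ((1 - δ : ℝ) : ℂ) * dc c m) =
      fun m => ((1 - δ : ℝ) : ℂ) * dc (dc c) m := by
    funext m
    unfold dc
    ring
  refine ⟨n, fun m => ((1 - δ : ℝ) : ℂ) * c m, ?_, ?_, ?_⟩
  · intro θ
    rw [hsm (1 - δ) θ]
    have h1 : (1 - δ) * gp n c θ - g θ = (gp n c θ - g θ) - δ * gp n c θ := by ring
    rw [h1]
    have h2 : |gp n c θ| ≤ C := by
      have h3 : gp n c θ = (gp n c θ - g θ) + g θ := by ring
      rw [h3]
      refine (abs_add_le _ _).trans ?_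
      have := hclose θ
      have := hgb θ
      rw [hC]
      linarith
    calc |(gp n c θ - g θ) - δ * gp n c θ| ≤ |gp n c θ - g θ| + |δ * gp n c θ| := abs_sub _ _
      _ ≤ ε / 2 + δ * C := by
          rw [abs_mul, abs_of_pos hδ0]
          exact add_le_add (hclose θ) (mul_le_mul_of_nonneg_left h2 hδ0.le)
      _ ≤ ε := by linarith
  · intro θ
    rw [hdc, hsm2 (1 - δ) θ, abs_mul, abs_of_pos (by linarith : (0 : ℝ) < 1 - δ)]
    calc (1 - δ) * |gp n (dc c) θ| ≤ 1 * Λ :=
          mul_le_mul (by linarith) (hder θ) (abs_nonneg _) (by norm_num)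
      _ = Λ := one_mul _
  · intro θ
    rw [hdc, hdc2, hsm (1 - δ) θ, hsm3 (1 - δ) θ]
    have h1 := mul_nonneg (by linarith : (0 : ℝ) ≤ 1 - δ) (hsec θ)
    nlinarith

end Pool.Agent.Lib.MP_084b88_gt.CW
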