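import Pool.Agent.Lib.MP_084b88_gt.CW.SpecC
import Pool.Agent.Lib.MP_084b88_gt.CW.APH

/-!
# MP_084b88_gt, project CW, module GAP: approximation by trigonometric polynomials
-/

set_option autoImplicit false

open MeasureTheory Set Real Filter Topology
open scoped Pointwise InnerProductSpace

namespace Pool.Agent.Lib.MP_084b88_gt.CW

namespace GAPM

open APHM

/-- the averages are trigonometric polynomials -/
theorem av_hp {g : ℝ → ℝ} (hg : Continuous g) (hper : ∀ t, g (t + 2 * π) = g t) (n : ℕ)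
    (b : ℕ → ℝ)
    (hb : ∀ x : ℝ, cos (x / 2) ^ (2 * n) = ∑ k ∈ Finset.range (n + 1), b k * cos (k * x)) :
    ∃ c : ℕ → ℂ, (∀ k, n + 1 ≤ k → c k = 0) ∧ ∀ θ, hp (n + 1) c θ = av n g θ := by
  set Z : ℝ := ∫ x in (-π)..π, ker n x with hZ
  -- substitution
  have h1 : ∀ θ, ∫ x in (-π)..π, g (θ - x) * ker n x = ∫ t in (-π)..π, g t * ker n (θ - t) := by
    intro θ
    have h2 := intervalIntegral.integral_comp_sub_left (a := -π) (b := π)
      (fun t => g t * ker n (θ - t)) θ
    have h3 : ∀ x, g (θ - x) * ker n (θ - (θ - x)) = g (θ - x) * ker n x := by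
      intro x
      rw [sub_sub_cancel]
    simp only [h3] at h2
    rw [h2]
    have hP : Function.Periodic (fun t => g t * ker n (θ - t)) (2 * π) := by
      intro t
      simp only
      rw [hper, ker_sub_periodic]
    have h4 := hP.intervalIntegral_add_eq (θ - π) (-π)
    rw [show θ - π + 2 * π = θ - -π by ring, show -π + 2 * π = π by ring] at h4
    exact h4
  -- expansion
  have h5 : ∀ θ, ∫ t in (-π)..π, g t * ker n (θ - t) =
      ∑ k ∈ Finset.range (n + 1), b k * ∫ t in (-π)..π, g t * cos (k * (θ - t)) := by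
    intro θ
    have h6 : ∀ t, g t * ker n (θ - t) =
        ∑ k ∈ Finset.range (n + 1), b k * (g t * cos (k * (θ - t))) := by
      intro t
      unfold APHM.ker
      rw [hb, Finset.mul_sum]
      exact Finset.sum_congr rfl fun k _ => by ring
    simp only [h6]
    rw [intervalIntegral.integral_finsetSum]
    · exact Finset.sum_congr rfl fun k _ => intervalIntegral.integral_const_mul _ _
    · intro k _
      refine Continuous.intervalIntegrable ?_ _ _
      exact continuous_const.mul (hg.mul (by fun_prop))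
  set A : ℕ → ℝ := fun k => ∫ t in (-π)..π, g t * cos (k * t) with hA
  set B : ℕ → ℝ := fun k => ∫ t in (-π)..π, g t * sin (k * t) with hB
  have h7 : ∀ (k : ℕ) (θ : ℝ), ∫ t in (-π)..π, g t * cos (k * (θ - t)) =
      cos (k * θ) * A k + sin (k * θ) * B k := by
    intro k θ
    simp only [hA, hB]
    rw [← intervalIntegral.integral_const_mul, ← intervalIntegral.integral_const_mul,
      ← intervalIntegral.integral_add]
    · refine intervalIntegral.integral_congr fun t _ => ?_
      change g t * cos (k * (θ - t)) = cos (k * θ) * (g t * cos (k * t)) +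
        sin (k * θ) * (g t * sin (k * t))
      rw [mul_sub, cos_sub]
      ring
    · exact (continuous_const.mul (hg.mul (by fun_prop))).intervalIntegrable _ _
    · exact (continuous_const.mul (hg.mul (by fun_prop))).intervalIntegrable _ _
  set c : ℕ → ℂ := fun k => if k < n + 1 then
    ((b k / Z : ℝ) : ℂ) * ⟨A k, -B k⟩ else 0 with hc
  refine ⟨c, fun k hk => by simp only [hc]; rw [if_neg (by omega)], fun θ => ?_⟩
  unfold hp av
  rw [h1, h5, ← hZ]
  rw [Complex.re_sum, Finset.sum_div]
  refine Finset.sum_congr rfl fun k hk => ?_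
  rw [Finset.mem_range] at hk
  simp only [hc]
  rw [if_pos hk, h7]
  have e1 : Complex.exp (Complex.I * ((k : ℂ) * (θ : ℂ))) =
      ⟨cos ((k : ℝ) * θ), sin ((k : ℝ) * θ)⟩ := by
    have e2 : Complex.I * ((k : ℂ) * (θ : ℂ)) =
        (((k : ℝ) * θ : ℝ) : ℂ) * Complex.I := by
      push_cast
      ring
    rw [e2]
    apply Complex.ext
    · rw [Complex.exp_ofReal_mul_I_re]
    · rw [Complex.exp_ofReal_mul_I_im]
  rw [e1]
  simp only [Complex.mul_re, Complex.ofReal_re, Complex.ofReal_im, Complex.mul_im, zero_mul,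
    sub_zero, add_zero]
  ring

/-- the average of zero -/
theorem av_zero (n : ℕ) (θ : ℝ) : av n (fun _ => 0) θ = 0 := by
  unfold av
  simp

theorem av_Bh {g : ℝ → ℝ} (hg : Continuous g) (n : ℕ) (t : ℝ) :
    Bh (av n g) t = av n (Bh g) t := by
  unfold Bh av
  rw [← add_div, ← intervalIntegral.integral_add (int_int hg n t) (int_int hg n (t + π)),
    div_right_comm, ← intervalIntegral.integral_div]
  congr 1
  refine intervalIntegral.integral_congr fun x _ => ?_
  simp only
  have e : t + π - x = t - x + π := by ring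
  rw [e]
  ring

theorem av_gh {g : ℝ → ℝ} (hg : Continuous g) (n : ℕ) (t : ℝ) :
    gh (av n g) t = av n (gh g) t := by
  unfold gh av
  rw [← sub_div, ← intervalIntegral.integral_sub (int_int hg n t) (int_int hg n (t + π)),
    div_right_comm, ← intervalIntegral.integral_div]
  congr 1
  refine intervalIntegral.integral_congr fun x _ => ?_
  simp only
  have e : t + π - x = t - x + π := by ring
  rw [e]
  ring

/-- averages preserve bounds -/
theorem av_bd {g : ℝ → ℝ} (hg : Continuous g) (n : ℕ) (hZ : 0 < ∫ x in (-π)..π, ker n x)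
    (u v : ℝ) (h : ∀ x, |g x - u| ≤ v) (θ : ℝ) : |av n g θ - u| ≤ v := by
  have h1 := av_le hg n hZ (k := fun _ => 0) continuous_const θ θ (u + v) (fun x => by
    have := (abs_le.1 (h (θ - x))).2
    linarith)
  have h2 := av_le (g := fun _ => 0) continuous_const n hZ hg θ θ (-(u - v)) (fun x => by
    have := (abs_le.1 (h (θ - x))).1
    linarith)
  rw [av_zero] at h1 h2
  rw [abs_le]
  constructor <;> linarith

theorem hp_mix (M : ℕ) (hM : 0 < M) (c : ℕ → ℂ) (s u θ : ℝ) :
    hp M (fun k => (s : ℂ) * c k + if k = 0 then (u : ℂ) else 0) θ = s * hp M c θ + u := by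
  unfold hp
  have h1 : ∑ k ∈ Finset.range M, ((s : ℂ) * c k + if k = 0 then (u : ℂ) else 0) *
      Complex.exp (Complex.I * ((k : ℂ) * (θ : ℂ))) =
      (s : ℂ) * (∑ k ∈ Finset.range M, c k * Complex.exp (Complex.I * ((k : ℂ) * (θ : ℂ)))) +
      (u : ℂ) := by
    rw [Finset.mul_sum]
    have h2 : ∀ k ∈ Finset.range M, ((s : ℂ) * c k + if k = 0 then (u : ℂ) else 0) *
        Complex.exp (Complex.I * ((k : ℂ) * (θ : ℂ))) =
        (s : ℂ) * (c k * Complex.exp (Complex.I * ((k : ℂ) * (θ : ℂ)))) +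
          if k = 0 then (u : ℂ) else 0 := by
      intro k _
      split_ifs with h
      · subst h
        simp
      · ring
    rw [Finset.sum_congr rfl h2, Finset.sum_add_distrib, Finset.sum_ite_eq',
      if_pos (Finset.mem_range.2 hM)]
  rw [h1, Complex.add_re, Complex.re_ofReal_mul, Complex.ofReal_re]

end GAPM

open APHM GAPM in
theorem specGAP (hKCO : SpecKCO) (hKWA : SpecKWA) (hHPB : SpecHPB) : SpecGAP := by
  intro h Λ b δ σ hΛ hb hδ0 hδ1 hσ hL hper hcl hB hg ε hε
  have hhc : Continuous h := by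
    refine (LipschitzWith.of_dist_le_mul (K := ⟨Λ, hΛ⟩) fun x y => ?_).continuous
    rw [Real.dist_eq, Real.dist_eq]
    exact hL x y
  have hpi := pi_pos
  -- choice of `n`
  obtain ⟨n, hn2⟩ : ∃ n : ℕ, Λ * (π / √(2 * n + 2)) ≤ ε / 2 := by
    obtain ⟨n, hn⟩ := exists_nat_ge ((Λ * π / (ε / 2)) ^ 2)
    refine ⟨n, ?_⟩
    have h1 : Λ * π / (ε / 2) ≤ √(2 * (n : ℝ) + 2) := by
      refine Real.le_sqrt_of_sq_le ?_
      have : (0 : ℝ) ≤ n := Nat.cast_nonneg n
      linarith
    have h0 : 0 < √(2 * (n : ℝ) + 2) := Real.sqrt_pos.2 (by positivity)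
    rw [← mul_div_assoc, div_le_iff₀ h0]
    rw [div_le_iff₀ (by positivity)] at h1
    linarith
  obtain ⟨bb, hbb⟩ := hKCO n
  obtain ⟨hZ', hK'⟩ := hKWA n
  have hZ : 0 < ∫ x in (-π)..π, ker n x := hZ'
  have hK : ∫ x in (-π)..π, |x| * ker n x ≤ (π / √(2 * n + 2)) * ∫ x in (-π)..π, ker n x := hK'
  clear hZ' hK'
  obtain ⟨c, hc0, hc⟩ := av_hp hhc hper n bb hbb
  obtain ⟨hg1, -, -, -, -, -, -⟩ := hHPB (n + 1) c
  obtain ⟨hg2, -, -, -, -, -, -⟩ := hHPB (n + 1) (dk c)
  have hfun : hp (n + 1) c = av n h := funext hc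
  have hclose : ∀ θ, |hp (n + 1) c θ - h θ| ≤ ε / 2 := by
    intro θ
    rw [hc]
    exact (av_close hhc n hZ hΛ hL hK θ).trans hn2
  -- derivative
  have hder : ∀ θ, |hp (n + 1) (dk c) θ| ≤ Λ := by
    intro θ
    have h1 : LipschitzWith ⟨Λ, hΛ⟩ (hp (n + 1) c) := by
      refine LipschitzWith.of_dist_le_mul fun x y => ?_
      rw [Real.dist_eq, Real.dist_eq, hc, hc]
      exact av_lip hhc n hZ hL x y
    have h2 := norm_deriv_le_of_lipschitz h1 (x₀ := θ)
    rw [(hg1 θ).deriv] at h2
    exact h2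
  -- second derivative
  have hsec : ∀ θ, 0 ≤ hp (n + 1) c θ + hp (n + 1) (dk (dk c)) θ := by
    intro θ
    refine second_deriv (G := hp (n + 1) c) (G1 := hp (n + 1) (dk c))
      (G2 := hp (n + 1) (dk (dk c))) (fun x => hg1 x) (fun x => hg2 x) ?_ θ
    intro φ α
    simp only [hc]
    have hcI : ∀ s : ℝ, Continuous (fun x => h (s - x) * ker n x) := fun s => int_cont hhc n s
    unfold av
    rw [← add_div, ← mul_div_assoc, ← intervalIntegral.integral_const_mul,
      ← intervalIntegral.integral_add ((hcI _).intervalIntegrable _ _)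
        ((hcI _).intervalIntegrable _ _)]
    refine div_le_div_of_nonneg_right ?_ (le_of_lt hZ)
    refine intervalIntegral.integral_mono_on (by linarith)
      ((continuous_const.mul (hcI φ)).intervalIntegrable _ _)
      (((hcI (φ + α)).add (hcI (φ - α))).intervalIntegrable _ _) ?_
    intro x _
    have h4 := mul_le_mul_of_nonneg_right (hcl (φ - x) α) (ker_nonneg n x)
    have e1 : φ - x + α = φ + α - x := by ring
    have e2 : φ - x - α = φ - α - x := by ring
    rw [e1, e2] at h4
    calc 2 * cos α * (h (φ - x) * ker n x)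
        = 2 * cos α * h (φ - x) * ker n x := by ring
      _ ≤ (h (φ + α - x) + h (φ - α - x)) * ker n x := h4
      _ = _ := by ring
  -- the width and the middle
  have hhpc : Continuous (fun t => h (t + π)) := hhc.comp (continuous_id.add continuous_const)
  have hBc : Continuous (Bh h) := by
    unfold Bh
    exact (hhc.add hhpc).div_const 2
  have hgc : Continuous (gh h) := by
    unfold gh
    exact (hhc.sub hhpc).div_const 2
  have hBn : ∀ t, |Bh (hp (n + 1) c) t - b| ≤ δ * b := by
    intro t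
    rw [hfun, av_Bh hhc]
    exact av_bd hBc n hZ b (δ * b) hB t
  have hgn : ∀ t, |gh (hp (n + 1) c) t| ≤ σ * b := by
    intro t
    rw [hfun, av_gh hhc]
    have := av_bd hgc n hZ 0 (σ * b) (fun x => by rw [sub_zero]; exact hg x) t
    rwa [sub_zero] at this
  -- the mixture
  set C : ℝ := (δ + σ) * b + 1 with hC
  have hC1 : 0 < C := by positivity
  set η : ℝ := min (1 / 2) (ε / 2 / C) with hη
  have hη0 : 0 < η := lt_min (by norm_num) (by positivity)
  have hη1 : η ≤ 1 / 2 := min_le_left _ _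
  have hη2 : η * C ≤ ε / 2 := by
    have : η ≤ ε / 2 / C := min_le_right _ _
    calc η * C ≤ ε / 2 / C * C := mul_le_mul_of_nonneg_right this hC1.le
      _ = ε / 2 := div_mul_cancel₀ _ hC1.ne'
  set c' : ℕ → ℂ := fun k => ((1 - η : ℝ) : ℂ) * c k + if k = 0 then ((η * b : ℝ) : ℂ) else 0
    with hc'
  have hd1 : dk c' = fun k => ((1 - η : ℝ) : ℂ) * dk c k + if k = 0 then ((0 : ℝ) : ℂ) else 0 := by
    funext k
    simp only [hc']
    unfold dk
    by_cases hk : k = 0
    · subst hk
      simp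
    · simp only [if_neg hk]
      ring
  have hd2 : dk (dk c') = fun k => ((1 - η : ℝ) : ℂ) * dk (dk c) k +
      if k = 0 then ((0 : ℝ) : ℂ) else 0 := by
    rw [hd1]
    funext k
    unfold dk
    by_cases hk : k = 0
    · subst hk
      simp
    · simp only [if_neg hk]
      ring
  have hv0 : ∀ θ, hp (n + 1) c' θ = (1 - η) * hp (n + 1) c θ + η * b := by
    intro θ
    exact hp_mix (n + 1) (by omega) c (1 - η) (η * b) θ
  have hv1 : ∀ θ, hp (n + 1) (dk c') θ = (1 - η) * hp (n + 1) (dk c) θ := by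
    intro θ
    rw [hd1, hp_mix (n + 1) (by omega) (dk c) (1 - η) 0 θ, add_zero]
  have hv2 : ∀ θ, hp (n + 1) (dk (dk c')) θ = (1 - η) * hp (n + 1) (dk (dk c)) θ := by
    intro θ
    rw [hd2, hp_mix (n + 1) (by omega) (dk (dk c)) (1 - η) 0 θ, add_zero]
  have hBv : ∀ t, Bh (hp (n + 1) c') t = (1 - η) * Bh (hp (n + 1) c) t + η * b := by
    intro t
    unfold Bh
    rw [hv0, hv0]
    ring
  have hgv : ∀ t, gh (hp (n + 1) c') t = (1 - η) * gh (hp (n + 1) c) t := by
    intro t
    unfold gh
    rw [hv0, hv0]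
    ring
  have h1η : 0 < 1 - η := by linarith
  have hB' : ∀ t, |Bh (hp (n + 1) c') t - b| ≤ δ * b := by
    intro t
    rw [hBv]
    have e : (1 - η) * Bh (hp (n + 1) c) t + η * b - b = (1 - η) * (Bh (hp (n + 1) c) t - b) := by
      ring
    rw [e, abs_mul, abs_of_pos h1η]
    calc (1 - η) * |Bh (hp (n + 1) c) t - b| ≤ 1 * (δ * b) :=
          mul_le_mul (by linarith) (hBn t) (abs_nonneg _) (by norm_num)
      _ = δ * b := one_mul _
  refine ⟨n + 1, c', ⟨?_, ?_, ?_⟩, ?_, ?_, hB', ?_⟩
  · intro k hk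
    simp only [hc']
    rw [hc0 k hk, if_neg (by omega)]
    simp
  · intro θ
    rw [hv0, hv2]
    have h1 := mul_nonneg h1η.le (hsec θ)
    have h2 : 0 < η * b := by positivity
    linarith
  · intro θ
    have h1 := (abs_le.1 (hB' θ)).1
    have h2 : 0 < (1 - δ) * b := mul_pos (by linarith) hb
    linarith
  · intro θ
    rw [hv0]
    have h1 : (1 - η) * hp (n + 1) c θ + η * b - h θ =
        (hp (n + 1) c θ - h θ) - η * (hp (n + 1) c θ - b) := by ring
    rw [h1]
    have h2 : |hp (n + 1) c θ - b| ≤ C := by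
      have h3 : hp (n + 1) c θ - b =
          (Bh (hp (n + 1) c) θ - b) + gh (hp (n + 1) c) θ := by
        unfold Bh gh
        ring
      rw [h3]
      refine (abs_add_le _ _).trans ?_
      have := hBn θ
      have := hgn θ
      rw [hC]
      linarith
    calc |(hp (n + 1) c θ - h θ) - η * (hp (n + 1) c θ - b)|
        ≤ |hp (n + 1) c θ - h θ| + |η * (hp (n + 1) c θ - b)| := abs_sub _ _
      _ ≤ ε / 2 + η * C := by
          rw [abs_mul, abs_of_pos hη0]
          exact add_le_add (hclose θ) (mul_le_mul_of_nonneg_left h2 hη0.le)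
      _ ≤ ε := by linarith
  · intro θ
    rw [hv1, abs_mul, abs_of_pos h1η]
    calc (1 - η) * |hp (n + 1) (dk c) θ| ≤ 1 * Λ :=
          mul_le_mul (by linarith) (hder θ) (abs_nonneg _) (by norm_num)
      _ = Λ := one_mul _
  · intro t
    rw [hgv, abs_mul, abs_of_pos h1η]
    calc (1 - η) * |gh (hp (n + 1) c) t| ≤ 1 * (σ * b) :=
          mul_le_mul (by linarith) (hgn t) (abs_nonneg _) (by norm_num)
      _ = σ * b := one_mul _

end Pool.Agent.Lib.MP_084b88_gt.CW
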