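import Pool.Agent.Lib.MP_084b88_gt.CW.SpecC

/-!
# MP_084b88_gt, project CW, part C: module GCV (convergence, boundedness, measurability of `UB`)
-/

set_option autoImplicit false

open MeasureTheory Set Real Filter Topology
open scoped Pointwise InnerProductSpace

namespace Pool.Agent.Lib.MP_084b88_gt.CW

namespace GCVM

/-- the fraction -/
noncomputable def fr (h : ℝ → ℝ) (θ τ α : ℝ) : ℝ :=
  (h (θ + α) - (gh h θ + τ * Bh h θ) * cos α) / sin α

theorem UB_eq (h : ℝ → ℝ) (θ τ : ℝ) : UB h θ τ = ⨅ α : Ioo (0 : ℝ) π, fr h θ τ α := rfl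

/-- hypotheses on `h` -/
structure Hy (h : ℝ → ℝ) (Λ β : ℝ) : Prop where
  low : ∀ θ, β ≤ Bh h θ
  lip : ∀ θ θ', |h θ - h θ'| ≤ Λ * |θ - θ'|
  bd : ∀ θ, |h θ| ≤ Λ

theorem B_le {h : ℝ → ℝ} {Λ β : ℝ} (hh : Hy h Λ β) (θ : ℝ) : Bh h θ ≤ Λ := by
  have a := abs_le.1 (hh.bd θ)
  have b := abs_le.1 (hh.bd (θ + π))
  unfold Bh
  linarith

/-- the numerator near the end points -/
theorem num_left {h : ℝ → ℝ} {Λ β : ℝ} (hh : Hy h Λ β) (hΛ : 0 ≤ Λ) (hβ : 0 < β) (θ τ α : ℝ)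
    (hτ : |τ| < 1) (hα : α ∈ Ioo (0 : ℝ) π) :
    (1 - |τ|) * β - 4 * Λ * α ≤ h (θ + α) - (gh h θ + τ * Bh h θ) * cos α := by
  have h2 := abs_le.1 (hh.lip (θ + α) θ)
  have h3 : |θ + α - θ| = α := by
    rw [add_sub_cancel_left, abs_of_pos hα.1]
  rw [h3] at h2
  have hc : 1 - cos α ≤ α := by
    have := one_sub_sq_div_two_le_cos (x := α)
    rcases le_total α 2 with h | h
    · nlinarith [hα.1]
    · have := neg_one_le_cos α
      linarith
  have hc0 : 0 ≤ 1 - cos α := by linarith [cos_le_one α]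
  have hg : gh h θ = h θ - Bh h θ := by unfold gh Bh; ring
  rw [hg]
  have hB1 := hh.low θ
  have hB2 := B_le hh θ
  have hτ1 := abs_lt.1 hτ
  have hτ2 : 1 - |τ| ≤ 1 - τ := by linarith [le_abs_self τ]
  have hb := abs_le.1 (hh.bd θ)
  -- h θ (1 - cos α) ≥ - Λ α
  have m1 : -(Λ * α) ≤ h θ * (1 - cos α) := by
    have h4 : |h θ * (1 - cos α)| ≤ Λ * α := by
      rw [abs_mul, abs_of_nonneg hc0]
      exact mul_le_mul (hh.bd θ) hc hc0 hΛ
    linarith [(abs_le.1 h4).1]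
  have m2 : (1 - τ) * Bh h θ * (1 - cos α) ≤ 2 * Λ * α := by
    have a1 : (1 - τ) * Bh h θ ≤ 2 * Λ := by
      have : 0 ≤ Bh h θ := by linarith
      nlinarith
    exact mul_le_mul a1 hc hc0 (by linarith)
  have m3 : (1 - |τ|) * β ≤ (1 - τ) * Bh h θ :=
    mul_le_mul hτ2 hB1 hβ.le (by linarith)
  nlinarith

theorem num_right {h : ℝ → ℝ} {Λ β : ℝ} (hh : Hy h Λ β) (hΛ : 0 ≤ Λ) (hβ : 0 < β) (θ τ α : ℝ)
    (hτ : |τ| < 1) (hα : α ∈ Ioo (0 : ℝ) π) :
    (1 - |τ|) * β - 4 * Λ * (π - α) ≤ h (θ + α) - (gh h θ + τ * Bh h θ) * cos α := by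
  have h2 := abs_le.1 (hh.lip (θ + α) (θ + π))
  have h3 : |θ + α - (θ + π)| = π - α := by
    rw [add_sub_add_left_eq_sub, abs_of_neg (by linarith [hα.2])]
    ring
  rw [h3] at h2
  have hc : 1 + cos α ≤ π - α := by
    have h5 : cos (π - α) = - cos α := cos_pi_sub α
    have := one_sub_sq_div_two_le_cos (x := π - α)
    rcases le_total (π - α) 2 with h | h
    · nlinarith [hα.2]
    · have := cos_le_one α
      linarith
  have hc0 : 0 ≤ 1 + cos α := by linarith [neg_one_le_cos α]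
  have hg : gh h θ = Bh h θ - h (θ + π) := by unfold gh Bh; ring
  rw [hg]
  have hB1 := hh.low θ
  have hB2 := B_le hh θ
  have hτ1 := abs_lt.1 hτ
  have hτ2 : 1 - |τ| ≤ 1 + τ := by linarith [neg_abs_le τ]
  have m1 : -(Λ * (π - α)) ≤ h (θ + π) * (1 + cos α) := by
    have h4 : |h (θ + π) * (1 + cos α)| ≤ Λ * (π - α) := by
      rw [abs_mul, abs_of_nonneg hc0]
      exact mul_le_mul (hh.bd _) hc hc0 hΛ
    linarith [(abs_le.1 h4).1]
  have m2 : (1 + τ) * Bh h θ * (1 + cos α) ≤ 2 * Λ * (π - α) := by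
    have a1 : (1 + τ) * Bh h θ ≤ 2 * Λ := by
      have : 0 ≤ Bh h θ := by linarith
      nlinarith
    exact mul_le_mul a1 hc hc0 (by linarith)
  have m3 : (1 - |τ|) * β ≤ (1 + τ) * Bh h θ :=
    mul_le_mul hτ2 hB1 hβ.le (by linarith)
  nlinarith

/-- the fractions near the end points are large -/
theorem fr_large {h : ℝ → ℝ} {Λ β : ℝ} (hh : Hy h Λ β) (hΛ : 0 ≤ Λ) (hβ : 0 < β) (θ τ : ℝ)
    (hτ : |τ| < 1) (α : ℝ) (hα : α ∈ Ioo (0 : ℝ) π)
    (h2 : α ≤ (1 - |τ|) * β / (5 * (Λ + 1)) ∨ π - α ≤ (1 - |τ|) * β / (5 * (Λ + 1))) :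
    Λ ≤ fr h θ τ α := by
  have hs : 0 < sin α := sin_pos_of_pos_of_lt_pi hα.1 hα.2
  unfold fr
  rw [le_div_iff₀ hs]
  have hd : 0 < 1 - |τ| := by linarith
  rcases h2 with h2 | h2
  · have h3 := num_left hh hΛ hβ θ τ α hτ hα
    have h4 : sin α ≤ α := (sin_lt hα.1).le
    rw [le_div_iff₀ (by linarith)] at h2
    have h5 : Λ * sin α ≤ Λ * α := mul_le_mul_of_nonneg_left h4 hΛ
    nlinarith [hα.1]
  · have h3 := num_right hh hΛ hβ θ τ α hτ hα
    have h4 : sin α ≤ π - α := by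
      rw [← sin_pi_sub]
      exact (sin_lt (by linarith [hα.2])).le
    rw [le_div_iff₀ (by linarith)] at h2
    have h5 : Λ * sin α ≤ Λ * (π - α) := mul_le_mul_of_nonneg_left h4 hΛ
    nlinarith [hα.2]

theorem half_mem : π / 2 ∈ Ioo (0 : ℝ) π := ⟨by positivity, by linarith [pi_pos]⟩

theorem fr_half {h : ℝ → ℝ} {Λ β : ℝ} (hh : Hy h Λ β) (θ τ : ℝ) : fr h θ τ (π / 2) ≤ Λ := by
  unfold fr
  rw [cos_pi_div_two, sin_pi_div_two, mul_zero, sub_zero, div_one]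
  exact (abs_le.1 (hh.bd _)).2

theorem sin_low (a α : ℝ) (ha : 0 < a) (h1 : a ≤ α) (h2 : α ≤ π - a) :
    sin a ≤ sin α := by
  rcases le_total α (π / 2) with h | h
  · exact sin_le_sin_of_le_of_le_pi_div_two (by linarith) h h1
  · rw [← sin_pi_sub α]
    exact sin_le_sin_of_le_of_le_pi_div_two (by linarith) (by linarith) (by linarith)

theorem a_bd {h : ℝ → ℝ} {Λ β : ℝ} (hh : Hy h Λ β) (hΛ : 0 ≤ Λ) (hβ : 0 < β) (τ : ℝ)
    (hτ : |τ| < 1) : 0 < (1 - |τ|) * β / (5 * (Λ + 1)) ∧ (1 - |τ|) * β / (5 * (Λ + 1)) ≤ π / 2 := by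
  have h1 : β ≤ Λ := (hh.low 0).trans (B_le hh 0)
  have h2 := abs_nonneg τ
  refine ⟨div_pos (mul_pos (by linarith) hβ) (by linarith), ?_⟩
  have : (1 - |τ|) * β / (5 * (Λ + 1)) ≤ 1 := by
    rw [div_le_one (by linarith)]
    nlinarith
  linarith [pi_gt_three]

theorem m_bd {h : ℝ → ℝ} {Λ β : ℝ} (hh : Hy h Λ β) (hβ : 0 < β) (θ τ : ℝ) (hτ : |τ| < 1) :
    |gh h θ + τ * Bh h θ| ≤ 2 * Λ := by
  have a2 := abs_le.1 (hh.bd θ)
  have a3 := abs_le.1 (hh.bd (θ + π))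
  have a4 := hh.low θ
  have a5 := B_le hh θ
  have a6 := abs_lt.1 hτ
  have a7 : |τ * Bh h θ| ≤ Λ := by
    rw [abs_mul, abs_of_nonneg (by linarith : (0 : ℝ) ≤ Bh h θ)]
    calc |τ| * Bh h θ ≤ 1 * Λ := mul_le_mul hτ.le a5 (by linarith) (by norm_num)
      _ = Λ := one_mul _
  have a8 := abs_le.1 a7
  have a9 : |gh h θ| ≤ Λ := by
    unfold gh
    rw [abs_le]
    constructor <;> linarith
  have a10 := abs_le.1 a9
  rw [abs_le]
  constructor <;> linarith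

theorem bddBelow {h : ℝ → ℝ} {Λ β : ℝ} (hh : Hy h Λ β) (hΛ : 0 ≤ Λ) (hβ : 0 < β) (θ τ : ℝ)
    (hτ : |τ| < 1) :
    BddBelow (range (fun α : Ioo (0 : ℝ) π => fr h θ τ α)) := by
  obtain ⟨ha0, ha1⟩ := a_bd hh hΛ hβ τ hτ
  set a := (1 - |τ|) * β / (5 * (Λ + 1)) with ha
  have hsa : 0 < sin a := sin_pos_of_pos_of_lt_pi ha0 (by linarith [pi_pos])
  refine ⟨-((3 * Λ + 1) / sin a), ?_⟩
  rintro _ ⟨⟨α, hα⟩, rfl⟩
  simp only
  have h0 : 0 ≤ (3 * Λ + 1) / sin a := div_nonneg (by linarith) hsa.le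
  by_cases h2 : α ≤ a ∨ π - α ≤ a
  · have := fr_large hh hΛ hβ θ τ hτ α hα h2
    linarith
  · push Not at h2
    have hs := sin_low a α ha0 h2.1.le (by linarith [h2.2])
    have hs0 : 0 < sin α := by linarith
    unfold fr
    rw [neg_le, ← neg_div, div_le_div_iff₀ hs0 hsa]
    have hnum : -(h (θ + α) - (gh h θ + τ * Bh h θ) * cos α) ≤ 3 * Λ + 1 := by
      have a1 := abs_le.1 (hh.bd (θ + α))
      have a4 : |(gh h θ + τ * Bh h θ) * cos α| ≤ 2 * Λ := by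
        rw [abs_mul]
        calc |gh h θ + τ * Bh h θ| * |cos α| ≤ (2 * Λ) * 1 :=
              mul_le_mul (m_bd hh hβ θ τ hτ) (abs_cos_le_one α) (abs_nonneg _) (by linarith)
          _ = 2 * Λ := mul_one _
      linarith [(abs_le.1 a4).2]
    calc -(h (θ + α) - (gh h θ + τ * Bh h θ) * cos α) * sin a
        ≤ (3 * Λ + 1) * sin a := mul_le_mul_of_nonneg_right hnum hsa.le
      _ ≤ (3 * Λ + 1) * sin α := mul_le_mul_of_nonneg_left hs (by linarith)

/-- comparison of two infima -/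
theorem comp {h k : ℝ → ℝ} {Λ β : ℝ} (hh : Hy h Λ β) (hk : Hy k Λ β) (hΛ : 0 ≤ Λ) (hβ : 0 < β)
    (θ τ : ℝ) (hτ : |τ| < 1) (e : ℝ) (he : ∀ θ, |k θ - h θ| ≤ e) :
    UB k θ τ ≤ UB h θ τ + 3 * e / sin ((1 - |τ|) * β / (5 * (Λ + 1))) := by
  obtain ⟨ha0, ha1⟩ := a_bd hh hΛ hβ τ hτ
  set a := (1 - |τ|) * β / (5 * (Λ + 1)) with ha
  have hsa : 0 < sin a := sin_pos_of_pos_of_lt_pi ha0 (by linarith [pi_pos])
  have he0 : 0 ≤ e := (abs_nonneg _).trans (he 0)
  have hK : 0 ≤ 3 * e / sin a := div_nonneg (by linarith) hsa.le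
  rw [← sub_le_iff_le_add, UB_eq h]
  have : Nonempty (Ioo (0 : ℝ) π) := ⟨⟨π / 2, half_mem⟩⟩
  apply le_ciInf
  rintro ⟨α, hα⟩
  simp only
  rw [sub_le_iff_le_add]
  by_cases h2 : α ≤ a ∨ π - α ≤ a
  · have h3 := fr_large hh hΛ hβ θ τ hτ α hα h2
    have h4 : UB k θ τ ≤ fr k θ τ (π / 2) :=
      ciInf_le (bddBelow hk hΛ hβ θ τ hτ) ⟨π / 2, half_mem⟩
    have h5 := fr_half hk θ τ
    linarith
  · push Not at h2
    have hs := sin_low a α ha0 h2.1.le (by linarith [h2.2])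
    have hs0 : 0 < sin α := by linarith
    have h4 : UB k θ τ ≤ fr k θ τ α := ciInf_le (bddBelow hk hΛ hβ θ τ hτ) ⟨α, hα⟩
    have h5 : fr k θ τ α ≤ fr h θ τ α + 3 * e / sin a := by
      have h6 : fr k θ τ α - fr h θ τ α ≤ 3 * e / sin α := by
        unfold fr
        rw [← sub_div]
        apply div_le_div_of_nonneg_right _ hs0.le
        have b1 := abs_le.1 (he (θ + α))
        have b2 := abs_le.1 (he θ)
        have b3 := abs_le.1 (he (θ + π))
        have c1 : |gh k θ - gh h θ| ≤ e := by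
          unfold gh
          rw [abs_le]
          constructor <;> linarith
        have c2 : |Bh k θ - Bh h θ| ≤ e := by
          unfold Bh
          rw [abs_le]
          constructor <;> linarith
        have c3 : |τ * (Bh k θ - Bh h θ)| ≤ e := by
          rw [abs_mul]
          calc |τ| * |Bh k θ - Bh h θ| ≤ 1 * e :=
                mul_le_mul hτ.le c2 (abs_nonneg _) (by norm_num)
            _ = e := one_mul _
        have c4 : |(gh k θ - gh h θ) + τ * (Bh k θ - Bh h θ)| ≤ 2 * e :=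
          (abs_add_le _ _).trans (by linarith)
        have b4 : |((gh k θ - gh h θ) + τ * (Bh k θ - Bh h θ)) * cos α| ≤ 2 * e := by
          rw [abs_mul]
          calc |(gh k θ - gh h θ) + τ * (Bh k θ - Bh h θ)| * |cos α| ≤ (2 * e) * 1 :=
                mul_le_mul c4 (abs_cos_le_one α) (abs_nonneg _) (by linarith)
            _ = 2 * e := mul_one _
        have b5 := abs_le.1 b4
        nlinarith
      have h7 : 3 * e / sin α ≤ 3 * e / sin a :=
        div_le_div_of_nonneg_left (by linarith) hsa hs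
      linarith
    linarith

end GCVM

open GCVM in
theorem specGCV : SpecGCV := by
  intro h Λ β hΛ hβ _ h2 h3 h4
  have hh : Hy h Λ β := ⟨h4, h2, h3⟩
  have hbd : ∀ θ, ∀ τ ∈ Ioo (-1 : ℝ) 1, BddBelow (range (fun α : Ioo (0 : ℝ) π =>
      (h (θ + α) - (gh h θ + τ * Bh h θ) * cos α) / sin α)) :=
    fun θ τ hτ => bddBelow hh hΛ hβ θ τ (abs_lt.2 hτ)
  refine ⟨hbd, ?_, ?_⟩
  · have hne : Nonempty (Ioo (0 : ℝ) π) := ⟨⟨π / 2, by constructor <;> linarith [pi_pos]⟩⟩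
    have hcont : Continuous h := by
      have hLip : LipschitzWith ⟨Λ, hΛ⟩ h := by
        apply LipschitzWith.of_dist_le_mul
        intro x y
        rw [Real.dist_eq, Real.dist_eq]
        exact h2 x y
      exact hLip.continuous
    apply measurable_of_Iio
    intro a
    have e : (fun x : ℝ × ℝ => (Ioo (-1 : ℝ) 1).indicator (fun τ => UB h x.1 τ) x.2) ⁻¹' Iio a =
        ({x : ℝ × ℝ | x.2 ∈ Ioo (-1 : ℝ) 1} ∩ ⋃ α : Ioo (0 : ℝ) π,
          {x : ℝ × ℝ | (h (x.1 + α) - (gh h x.1 + x.2 * Bh h x.1) * cos α) / sin α < a}) ∪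
        ({x : ℝ × ℝ | x.2 ∉ Ioo (-1 : ℝ) 1} ∩ {x : ℝ × ℝ | (0 : ℝ) < a}) := by
      ext x
      by_cases hx : x.2 ∈ Ioo (-1 : ℝ) 1
      · simp only [mem_preimage, indicator_of_mem hx, mem_Iio, mem_union, mem_inter_iff,
          mem_ofPred_eq, hx, true_and, mem_iUnion, not_true_eq_false, false_and, or_false]
        unfold UB
        exact ciInf_lt_iff (hbd x.1 x.2 hx)
      · simp only [mem_preimage, indicator_of_notMem hx, mem_Iio, mem_union, mem_inter_iff,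
          mem_ofPred_eq, hx, false_and, not_false_eq_true, true_and, false_or]
    rw [e]
    have hms : MeasurableSet {x : ℝ × ℝ | x.2 ∈ Ioo (-1 : ℝ) 1} :=
      measurable_snd measurableSet_Ioo
    apply MeasurableSet.union
    · apply MeasurableSet.inter hms
      apply IsOpen.measurableSet
      apply isOpen_iUnion
      intro α
      apply isOpen_lt _ continuous_const
      unfold gh Bh
      fun_prop
    · exact hms.compl.inter (MeasurableSet.const _)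
  · intro hn e _ k2 k3 k1 k4 k5 θ τ hτ
    have hτ' : |τ| < 1 := abs_lt.2 hτ
    have hk : ∀ n, Hy (hn n) Λ β := fun n => ⟨k1 n, k2 n, k3 n⟩
    set C := sin ((1 - |τ|) * β / (5 * (Λ + 1)))
    have hlim : Tendsto (fun n => 3 * e n / C) atTop (𝓝 0) := by
      have := (k5.const_mul 3).div_const C
      simpa using this
    rw [tendsto_iff_norm_sub_tendsto_zero]
    refine squeeze_zero (fun n => norm_nonneg _) (fun n => ?_) hlim
    rw [Real.norm_eq_abs, abs_le]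
    have a1 := comp hh (hk n) hΛ hβ θ τ hτ' (e n) (k4 n)
    have a2 := comp (hk n) hh hΛ hβ θ τ hτ' (e n) (fun t => by rw [abs_sub_comm]; exact k4 n t)
    constructor <;> linarith

end Pool.Agent.Lib.MP_084b88_gt.CW
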