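import Pool.Agent.Lib.MP_084b88_gt.CW.SpecC

/-!
# MP_084b88_gt, project CW: module GS1
-/

set_option autoImplicit false

open MeasureTheory Set Real Filter Topology
open scoped Pointwise InnerProductSpace

namespace Pool.Agent.Lib.MP_084b88_gt.CW

namespace GS1M

/-- square roots -/
theorem sqrt_le {x y ε s : ℝ} (hx : |x| ≤ 1) (hy : |y| ≤ 1) (hε : 0 ≤ ε)
    (h : |x - y| ≤ ε ^ 2 / 2) (hs : √(1 - y ^ 2) = s) : √(1 - x ^ 2) ≤ s + ε := by
  have h1 : 1 - x ^ 2 ≤ (1 - y ^ 2) + ε ^ 2 := by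
    have e : y ^ 2 - x ^ 2 = -(x - y) * (x + y) := by ring
    have h2 : |x + y| ≤ 2 := (abs_add_le x y).trans (by linarith)
    have h3 : |(x - y)| * |x + y| ≤ ε ^ 2 / 2 * 2 :=
      mul_le_mul h h2 (abs_nonneg _) (by positivity)
    have h4 : -(x - y) * (x + y) ≤ |x - y| * |x + y| := by
      rw [← abs_neg (x - y), ← abs_mul]
      exact le_abs_self _
    nlinarith
  have hy2 : 0 ≤ 1 - y ^ 2 := by
    have := (sq_le_one_iff_abs_le_one y).2 hy
    linarith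
  have h5 : √(1 - x ^ 2) ≤ √((1 - y ^ 2) + ε ^ 2) := Real.sqrt_le_sqrt h1
  refine h5.trans ?_
  rw [← hs]
  have h6 := Real.sqrt_nonneg (1 - y ^ 2)
  apply Real.sqrt_le_iff.2
  refine ⟨by positivity, ?_⟩
  have h7 := Real.sq_sqrt hy2
  nlinarith [mul_nonneg h6 hε]

theorem sqrt_two {x ε : ℝ} (hε : 0 ≤ ε) (h : |x| ≤ ε ^ 2 / 2) : √(2 * |x|) ≤ ε := by
  apply Real.sqrt_le_iff.2
  exact ⟨hε, by linarith⟩

/-- boundedness and integrability -/
theorem integ (hQQP : SpecQQP) (f : ℝ → ℝ) (hf : Continuous f) (B : ℝ) (hB : 0 < B)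
    (h1 : ∀ α ∈ Icc (0 : ℝ) π, |cos α + sin α ^ 2 * f α / B| ≤ 1) :
    IntervalIntegrable (fun α => (QQF (cos α + sin α ^ 2 * f α / B) - QQF (cos α)) / sin α ^ 2)
      volume 0 π := by
  obtain ⟨hQ, hQQ, -, -, -, -, hL, -, -⟩ := hQQP
  have hcQQ : Continuous QQF := continuous_iff_continuousAt.2 fun x => (hQQ x).continuousAt
  have hm : Measurable (fun α => (QQF (cos α + sin α ^ 2 * f α / B) - QQF (cos α)) /
      sin α ^ 2) := by
    refine Measurable.div ?_ ?_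
    · exact Continuous.measurable (by fun_prop)
    · exact Continuous.measurable (by fun_prop)
  have hc : Continuous fun α => |f α| / B := (hf.abs).div_const B
  refine (hc.intervalIntegrable 0 π).mono_fun hm.aestronglyMeasurable ?_
  refine (ae_restrict_iff' measurableSet_uIoc).2 (Filter.Eventually.of_forall fun α hα => ?_)
  rw [uIoc_of_le pi_pos.le] at hα
  have hα' : α ∈ Icc (0 : ℝ) π := ⟨hα.1.le, hα.2⟩
  show ‖(QQF (cos α + sin α ^ 2 * f α / B) - QQF (cos α)) / sin α ^ 2‖ ≤ ‖|f α| / B‖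
  rw [Real.norm_eq_abs, Real.norm_eq_abs, abs_div, abs_of_nonneg (by positivity : 0 ≤ |f α| / B),
    abs_of_nonneg (sq_nonneg (sin α))]
  have h2 := hL _ _ (h1 α hα') (abs_cos_le_one α)
  have h3 : |cos α + sin α ^ 2 * f α / B - cos α| = sin α ^ 2 * (|f α| / B) := by
    rw [add_sub_cancel_left, abs_div, abs_mul, abs_of_nonneg (sq_nonneg (sin α)),
      abs_of_pos hB]
    ring
  rw [h3] at h2
  rcases eq_or_ne (sin α) 0 with h0 | h0
  · rw [h0]
    simp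
    positivity
  · rw [div_le_iff₀ (by positivity)]
    linarith

theorem neg_int (u : ℝ → ℝ) : ∫ τ in Ioo (-1 : ℝ) 1, u (-τ) * FF τ =
    ∫ τ in Ioo (-1 : ℝ) 1, u τ * FF τ := by
  have h := intervalIntegral.integral_comp_neg (a := -1) (b := 1) (fun τ => u τ * FF τ)
  have hF : ∀ τ, FF (-τ) = FF τ := fun τ => by
    unfold FF
    rw [neg_sq]
  simp only [hF, neg_neg] at h
  rw [← integral_Ioc_eq_integral_Ioo, ← integral_Ioc_eq_integral_Ioo,
    ← intervalIntegral.integral_of_le (by norm_num), ← intervalIntegral.integral_of_le (by norm_num)]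
  exact h

theorem neg_integrable {u : ℝ → ℝ} (hu : IntegrableOn (fun τ => u τ * FF τ) (Ioo (-1) 1)) :
    IntegrableOn (fun τ => u (-τ) * FF τ) (Ioo (-1) 1) := by
  have hF : ∀ τ, FF (-τ) = FF τ := fun τ => by
    unfold FF
    rw [neg_sq]
  have h1 : IntervalIntegrable (fun τ => u τ * FF τ) volume (-1) 1 := by
    rw [intervalIntegrable_iff_integrableOn_Ioo_of_le (by norm_num)]
    exact hu
  have h2 := (IntervalIntegrable.iff_comp_neg (f := fun τ => u τ * FF τ) (a := -1) (b := 1)).1 h1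
  simp only [hF, neg_neg] at h2
  rw [← intervalIntegrable_iff_integrableOn_Ioo_of_le (by norm_num)]
  exact h2.symm

/-- the pointwise inequality -/
theorem ptwise (hQQP : SpecQQP) (hQQ4 : SpecQQ4) {c s B u v ε : ℝ} (hs : 0 < s) (hc : |c| ≤ 1)
    (hcs : √(1 - c ^ 2) = s) (hB : 0 < B) (hε : 0 ≤ ε) (b0 : |s ^ 2 * u| ≤ ε ^ 2 / 2 * B)
    (a1 : |c + s ^ 2 * (u + v) / B| ≤ 1) (a2 : |c + s ^ 2 * (u - v) / B| ≤ 1) :
    (QQF (c + s ^ 2 * (u + v) / B) - QQF c) / s ^ 2 +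
      (QQF (c + s ^ 2 * (u - v) / B) - QQF c) / s ^ 2 ≤
      2 * QF c * u / B - (u ^ 2 + v ^ 2) * (kap * s ^ 2 - s ^ 3 - ε * s ^ 2) / B ^ 2 -
        s ^ 6 * v ^ 4 / (12 * B ^ 4) := by
  obtain ⟨h41, h42, -⟩ := hQQ4
  obtain ⟨D, hD⟩ : ∃ D, D = c + s ^ 2 * u / B := ⟨_, rfl⟩
  obtain ⟨e, he⟩ : ∃ e, e = s ^ 2 * v / B := ⟨_, rfl⟩
  have e1 : c + s ^ 2 * (u + v) / B = D + e := by rw [hD, he]; ring
  have e2 : c + s ^ 2 * (u - v) / B = D - e := by rw [hD, he]; ring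
  rw [e1] at a1 ⊢
  rw [e2] at a2 ⊢
  have aD : |D| ≤ 1 := by
    rw [abs_le] at a1 a2 ⊢
    constructor <;> linarith [a1.1, a1.2, a2.1, a2.2]
  have hDc : D - c = s ^ 2 * u / B := by rw [hD]; ring
  have dD : |D - c| ≤ ε ^ 2 / 2 := by
    rw [hDc, abs_div, abs_of_pos hB, div_le_iff₀ hB]
    exact b0
  have q1 := h41 D e a1 a2
  have q2 := h42 c D hc aD
  rw [hcs] at q2
  have s1 := sqrt_le aD hc hε dD hcs
  have s2 := sqrt_two hε dD
  have q1' : QQF (D + e) + QQF (D - e) - 2 * QQF D ≤ e ^ 2 * (s + ε - kap) - e ^ 4 / 12 := by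
    refine q1.trans (sub_le_sub_right (mul_le_mul_of_nonneg_left ?_ (sq_nonneg e)) _)
    unfold FF
    linarith
  have q2' : QQF D - QQF c - QF c * (D - c) ≤ (D - c) ^ 2 / 2 * (s + ε - kap) := by
    refine q2.trans (mul_le_mul_of_nonneg_left ?_ (by positivity))
    linarith
  rw [hDc] at q2'
  rw [← add_div, div_le_iff₀ (by positivity)]
  have r1 : (2 * QF c * u / B - (u ^ 2 + v ^ 2) * (kap * s ^ 2 - s ^ 3 - ε * s ^ 2) / B ^ 2 -
      s ^ 6 * v ^ 4 / (12 * B ^ 4)) * s ^ 2 =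
      (e ^ 2 * (s + ε - kap) - e ^ 4 / 12) +
      2 * (QF c * (s ^ 2 * u / B) + (s ^ 2 * u / B) ^ 2 / 2 * (s + ε - kap)) := by
    rw [he]
    field_simp
    ring
  rw [r1]
  linarith

/-- the integrated inequality -/
theorem intg (hQQP : SpecQQP) (hQQ4 : SpecQQ4) {f g : ℝ → ℝ} (hf : Continuous f)
    (hg : Continuous g) {B ε : ℝ} (hB : 0 < B) (hε : 0 ≤ ε)
    (b0 : ∀ α, |sin α ^ 2 * f α| ≤ ε ^ 2 / 2 * B)
    (a1 : ∀ α ∈ Icc (0 : ℝ) π, |cos α + sin α ^ 2 * (f α + g α) / B| ≤ 1)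
    (a2 : ∀ α ∈ Icc (0 : ℝ) π, |cos α + sin α ^ 2 * (f α - g α) / B| ≤ 1) :
    2 * (B * (-(∫ α in (0 : ℝ)..π, QF (cos α) * f α))) +
      (∫ α in (0 : ℝ)..π, (f α ^ 2 + g α ^ 2) *
        (kap * sin α ^ 2 - sin α ^ 3 - ε * sin α ^ 2)) +
      (∫ α in (0 : ℝ)..π, sin α ^ 6 * g α ^ 4) / (12 * B ^ 2) ≤
    -(B ^ 2 * ((∫ α in (0 : ℝ)..π,
      (QQF (cos α + sin α ^ 2 * (f α + g α) / B) - QQF (cos α)) / sin α ^ 2) +
      ∫ α in (0 : ℝ)..π,
        (QQF (cos α + sin α ^ 2 * (f α - g α) / B) - QQF (cos α)) / sin α ^ 2)) := by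
  have hj1 := integ hQQP (fun α => f α + g α) (hf.add hg) B hB a1
  have hj2 := integ hQQP (fun α => f α - g α) (hf.sub hg) B hB a2
  have hQc : Continuous QF := continuous_iff_continuousAt.2 fun x => (hQQP.1 x).continuousAt
  have hQc' : Continuous fun α => QF (cos α) := hQc.comp continuous_cos
  have c1 : Continuous fun α => kap * sin α ^ 2 - sin α ^ 3 - ε * sin α ^ 2 := by fun_prop
  have f1 : Continuous fun α => 2 / B * (QF (cos α) * f α) := continuous_const.mul (hQc'.mul hf)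
  have f2 : Continuous fun α => 1 / B ^ 2 * ((f α ^ 2 + g α ^ 2) *
      (kap * sin α ^ 2 - sin α ^ 3 - ε * sin α ^ 2)) :=
    continuous_const.mul (((hf.pow 2).add (hg.pow 2)).mul c1)
  have f3 : Continuous fun α => 1 / (12 * B ^ 4) * (sin α ^ 6 * g α ^ 4) :=
    continuous_const.mul ((continuous_sin.pow 6).mul (hg.pow 4))
  have k1 := f1.intervalIntegrable (μ := volume) 0 π
  have k2 := f2.intervalIntegrable (μ := volume) 0 π
  have k3 := f3.intervalIntegrable (μ := volume) 0 π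
  have hle : (∫ α in (0 : ℝ)..π,
      ((QQF (cos α + sin α ^ 2 * (f α + g α) / B) - QQF (cos α)) / sin α ^ 2 +
        (QQF (cos α + sin α ^ 2 * (f α - g α) / B) - QQF (cos α)) / sin α ^ 2)) ≤
      ∫ α in (0 : ℝ)..π, ((2 / B * (QF (cos α) * f α) -
          1 / B ^ 2 * ((f α ^ 2 + g α ^ 2) * (kap * sin α ^ 2 - sin α ^ 3 - ε * sin α ^ 2))) -
          1 / (12 * B ^ 4) * (sin α ^ 6 * g α ^ 4)) := by
    refine intervalIntegral.integral_mono_on_of_le_Ioo pi_pos.le (hj1.add hj2)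
      ((k1.sub k2).sub k3) ?_
    intro α hα
    have hα' : α ∈ Icc (0 : ℝ) π := ⟨hα.1.le, hα.2.le⟩
    have hs : 0 < sin α := sin_pos_of_mem_Ioo hα
    have hsq : √(1 - cos α ^ 2) = sin α := by
      have h1 : 1 - cos α ^ 2 = sin α ^ 2 := by
        have := sin_sq_add_cos_sq α
        linarith
      rw [h1, sqrt_sq hs.le]
    refine (ptwise hQQP hQQ4 hs (abs_cos_le_one α) hsq hB hε (b0 α) (a1 α hα') (a2 α hα')).trans
      (le_of_eq ?_)
    ring
  rw [intervalIntegral.integral_sub (k1.sub k2) k3, intervalIntegral.integral_sub k1 k2,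
    intervalIntegral.integral_const_mul, intervalIntegral.integral_const_mul,
    intervalIntegral.integral_const_mul, intervalIntegral.integral_add hj1 hj2] at hle
  have h := mul_le_mul_of_nonneg_left hle (sq_nonneg B)
  obtain ⟨x, hx⟩ : ∃ x, x = ∫ α in (0 : ℝ)..π, QF (cos α) * f α := ⟨_, rfl⟩
  obtain ⟨y, hy⟩ : ∃ y, y = ∫ α in (0 : ℝ)..π, (f α ^ 2 + g α ^ 2) *
        (kap * sin α ^ 2 - sin α ^ 3 - ε * sin α ^ 2) := ⟨_, rfl⟩
  obtain ⟨z, hz⟩ : ∃ z, z = ∫ α in (0 : ℝ)..π, sin α ^ 6 * g α ^ 4 := ⟨_, rfl⟩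
  rw [← hx, ← hy, ← hz] at h
  rw [← hx, ← hy, ← hz]
  have e : B ^ 2 * (2 / B * x - 1 / B ^ 2 * y - 1 / (12 * B ^ 4) * z) =
      -(2 * (B * (-x)) + y + z / (12 * B ^ 2)) := by
    field_simp
    ring
  rw [e] at h
  linarith

end GS1M

open GS1M in
theorem specGS1 (hHPB : SpecHPB) (hQQP : SpecQQP) (hQQ4 : SpecQQ4) (hGAG : SpecGAG)
    (hGAL : SpecGAL) : SpecGS1 := by
  intro M c hRP ε hε hsm t
  have hBpos := hRP.2.2
  obtain ⟨-, hper, -, -, -, -, -, hPc, -, hPadd, hPe, hPo⟩ := hHPB M c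
  have hper' := (hHPB M (dk c)).2.1
  have hPce := (hHPB M (evc c)).2.2.2.2.2.2.2.1
  have hPco := (hHPB M (odc c)).2.2.2.2.2.2.2.1
  obtain ⟨hQ, hQQ, hQn, hQQn, hFc, hQb, hL, hsec, hz⟩ := id hQQP
  have hBp : 0 < Bh (hp M c) t := hBpos t
  have hBπ : Bh (hp M c) (t + π) = Bh (hp M c) t := by
    unfold Bh
    rw [show t + π + π = t + 2 * π by ring, hper]
    ring
  have hpt : ∀ α ∈ Icc (0 : ℝ) π, |cos α + sin α ^ 2 * Ps M c t α / Bh (hp M c) t| ≤ 1 :=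
    (hGAG M c hRP t).2.2.2.1
  have hpt' : ∀ α ∈ Icc (0 : ℝ) π,
      |cos α + sin α ^ 2 * Ps M c (t + π) α / Bh (hp M c) t| ≤ 1 := by
    have := (hGAG M c hRP (t + π)).2.2.2.1
    rwa [hBπ] at this
  have d1 : ∀ α, Ps M c t α = Ps M (evc c) t α + Ps M (odc c) t α := hPadd t
  have d2 : ∀ α, Ps M c (t + π) α = Ps M (evc c) t α - Ps M (odc c) t α := fun α => by
    rw [hPadd (t + π) α, hPe, hPo]
    ring
  simp only [d1] at hpt
  simp only [d2] at hpt'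
  have ht : Continuous fun α : ℝ => ((t, α) : ℝ × ℝ) := by fun_prop
  have conte : Continuous fun α => Ps M (evc c) t α := by
    have h := Continuous.comp hPce ht
    exact h
  have conto : Continuous fun α => Ps M (odc c) t α := by
    have h := Continuous.comp hPco ht
    exact h
  obtain ⟨i1, g1⟩ := hGAL M c hRP FF QF QQF hFc hQ hQQ t
  obtain ⟨i2, g2⟩ := hGAL M c hRP FF QF QQF hFc hQ hQQ (t + π)
  rw [hBπ] at g2
  simp only [d1] at g1
  simp only [d2] at g2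
  have hQ1 : QF (-1) = -QF 1 := hQn 1
  have hIG : IG FF (hp M c) t = -(Bh (hp M c) t ^ 2 * ((∫ α in (0 : ℝ)..π,
      (QQF (cos α + sin α ^ 2 * (Ps M (evc c) t α + Ps M (odc c) t α) / Bh (hp M c) t) -
        QQF (cos α)) / sin α ^ 2) + ∫ α in (0 : ℝ)..π,
      (QQF (cos α + sin α ^ 2 * (Ps M (evc c) t α - Ps M (odc c) t α) / Bh (hp M c) t) -
        QQF (cos α)) / sin α ^ 2)) := by
    unfold IG
    have e1 : ∫ τ in Ioo (-1 : ℝ) 1, (UB (hp M c) t τ + UB (hp M c) (t + π) (-τ)) * FF τ =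
        (∫ τ in Ioo (-1 : ℝ) 1, UB (hp M c) t τ * FF τ) +
          ∫ τ in Ioo (-1 : ℝ) 1, UB (hp M c) (t + π) τ * FF τ := by
      rw [← neg_int (fun τ => UB (hp M c) (t + π) τ), ← integral_add i1 (neg_integrable i2)]
      refine integral_congr_ae (Filter.Eventually.of_forall fun τ => ?_)
      exact add_mul _ _ _
    rw [e1, mul_add, g1, g2, hz, hQ1, show t + π + π = t + 2 * π by ring, hper']
    ring
  rw [hIG]
  exact intg hQQP hQQ4 conte conto hBp hε (hsm t) hpt hpt'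

end Pool.Agent.Lib.MP_084b88_gt.CW
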