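import Pool.Agent.Lib.MP_084b88_gt.CW.SpecC

/-!
# MP_084b88_gt, project CW, module GS3: the even part is small
-/

set_option autoImplicit false

open MeasureTheory Set Real Filter Topology
open scoped Pointwise InnerProductSpace

namespace Pool.Agent.Lib.MP_084b88_gt.CW

namespace GS3M

theorem evc_evc (c : ℕ → ℂ) : evc (evc c) = evc c := by
  funext k; unfold evc; split_ifs <;> rfl

theorem odc_evc (c : ℕ → ℂ) : odc (evc c) = fun _ => 0 := by
  funext k; unfold odc evc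
  by_cases h : k % 2 = 0
  · rw [if_neg (by omega)]
  · rw [if_neg h]; split_ifs <;> rfl

theorem evc_dk (c : ℕ → ℂ) : evc (dk c) = dk (evc c) := by
  funext k; unfold evc dk; beta_reduce
  by_cases h : k % 2 = 0
  · rw [if_pos h, if_pos h]
  · rw [if_neg h, if_neg h, zero_mul]

theorem hp_zero (M : ℕ) (θ : ℝ) : hp M (fun _ => 0) θ = 0 := by
  unfold hp; simp

/-- A differentiable periodic function has a critical maximum point. -/
theorem exists_max (E E' : ℝ → ℝ) (hE : ∀ t, HasDerivAt E (E' t) t)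
    (hper : ∀ t, E (t + 2 * π) = E t) : ∃ t0, E' t0 = 0 ∧ ∀ t, E t ≤ E t0 := by
  have hcont : Continuous E := continuous_iff_continuousAt.2 (fun t => (hE t).continuousAt)
  have hpi := Real.pi_pos
  obtain ⟨t0, ht0, hmax⟩ := isCompact_Icc.exists_isMaxOn
    (nonempty_Icc.2 (by positivity : (0 : ℝ) ≤ 2 * π)) (hcont.continuousOn (s := Icc 0 (2 * π)))
  have hP : Function.Periodic E (2 * π) := hper
  have hall : ∀ t, E t ≤ E t0 := by
    intro t
    obtain ⟨y, hy, hy2⟩ := hP.exists_mem_Ico₀ (by positivity) t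
    rw [hy2]
    exact hmax ⟨hy.1, hy.2.le⟩
  refine ⟨t0, ?_, hall⟩
  have hl : IsLocalMax E t0 := Filter.Eventually.of_forall hall
  exact hl.hasDerivAt_eq_zero (hE t0)

end GS3M

open GS3M

theorem specGS3 (hHPB : SpecHPB) (hWMB : SpecWMB) : SpecGS3 := by
  intro M c hRP b δ hb hδ hδ1 hB t α
  obtain ⟨_, hr, _⟩ := hRP
  -- `B = hp M (evc c)`
  have hBe : ∀ s, Bh (hp M c) s = hp M (evc c) s := (hHPB M c).2.2.2.2.2.1
  have hB2 : ∀ s, Bh (hp M (dk (dk c))) s = hp M (dk (dk (evc c))) s := by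
    intro s
    rw [(hHPB M (dk (dk c))).2.2.2.2.2.1 s, evc_dk, evc_dk]
  have hd1 : ∀ s, HasDerivAt (hp M (evc c)) (hp M (dk (evc c)) s) s := (hHPB M (evc c)).1
  have hd2 : ∀ s, HasDerivAt (hp M (dk (evc c))) (hp M (dk (dk (evc c))) s) s :=
    (hHPB M (dk (evc c))).1
  have hpos : ∀ s, 0 < hp M (evc c) s + hp M (dk (dk (evc c))) s := by
    intro s
    rw [← hBe, ← hB2]
    unfold Bh
    have h1 := hr s
    have h2 := hr (s + π)
    linarith
  obtain ⟨t0, ht0, hmax⟩ := exists_max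
    (fun s => hp M (evc c) s ^ 2 + hp M (dk (evc c)) s ^ 2)
    (fun s => 2 * hp M (dk (evc c)) s * (hp M (evc c) s + hp M (dk (dk (evc c))) s))
    (by
      intro s
      refine (((hd1 s).pow 2).add ((hd2 s).pow 2)).congr_deriv ?_
      simp only [Nat.cast_ofNat, Nat.add_one_sub_one, pow_one]
      ring)
    (by
      intro s
      show hp M (evc c) (s + 2 * π) ^ 2 + hp M (dk (evc c)) (s + 2 * π) ^ 2 = _
      rw [(hHPB M (evc c)).2.1 s, (hHPB M (dk (evc c))).2.1 s])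
  have hz : hp M (dk (evc c)) t0 = 0 := by
    have h1 := (hpos t0).ne'
    have h2 : 2 * hp M (dk (evc c)) t0 * (hp M (evc c) t0 + hp M (dk (dk (evc c))) t0) = 0 := ht0
    rcases mul_eq_zero.1 h2 with h3 | h3
    · linarith
    · exact absurd h3 h1
  have hb1 : ∀ s, (1 - δ) * b ≤ hp M (evc c) s ∧ hp M (evc c) s ≤ (1 + δ) * b := by
    intro s
    have h := hB s
    rw [hBe s, abs_le] at h
    constructor <;> nlinarith [h.1, h.2]
  have hsq : ∀ s, hp M (dk (evc c)) s ^ 2 ≤ 4 * δ * b ^ 2 := by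
    intro s
    have h1 : hp M (evc c) s ^ 2 + hp M (dk (evc c)) s ^ 2 ≤
      hp M (evc c) t0 ^ 2 + hp M (dk (evc c)) t0 ^ 2 := hmax s
    rw [hz] at h1
    have h2 := (hb1 t0).2
    have h3 := (hb1 s).1
    have h4 : 0 ≤ (1 - δ) * b := by nlinarith
    have h5 : ((1 - δ) * b) ^ 2 ≤ hp M (evc c) s ^ 2 := by
      apply pow_le_pow_left₀ h4 h3
    have h6 : hp M (evc c) t0 ^ 2 ≤ ((1 + δ) * b) ^ 2 := by
      apply pow_le_pow_left₀ _ h2
      exact h4.trans (hb1 t0).1
    nlinarith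
  have hB' : ∀ s, |hp M (dk (evc c)) s| ≤ 2 * √δ * b := by
    intro s
    apply abs_le_of_sq_le_sq _ (by positivity)
    have h := Real.sq_sqrt hδ
    calc hp M (dk (evc c)) s ^ 2 ≤ 4 * δ * b ^ 2 := hsq s
      _ = (2 * √δ * b) ^ 2 := by rw [mul_pow, mul_pow, h]; ring
  have hW := hWMB M (evc c) t α
  have hg : gh (hp M (evc c)) t = 0 := by
    rw [(hHPB M (evc c)).2.2.2.2.1 t, odc_evc, hp_zero]
  have hBB : Bh (hp M (evc c)) t = hp M (evc c) t := by
    rw [(hHPB M (evc c)).2.2.2.2.2.1 t, evc_evc]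
  rw [hg, hBB] at hW
  rw [← hW, hBe t]
  have e1 : hp M (evc c) (t + α) * cos α - hp M (dk (evc c)) (t + α) * sin α - 0 -
      hp M (evc c) t * cos α = (hp M (evc c) (t + α) - hp M (evc c) t) * cos α
        - hp M (dk (evc c)) (t + α) * sin α := by ring
  rw [e1]
  have h1 : |(hp M (evc c) (t + α) - hp M (evc c) t) * cos α| ≤ 2 * δ * b := by
    rw [abs_mul]
    have h2 : |hp M (evc c) (t + α) - hp M (evc c) t| ≤ 2 * δ * b := by
      rw [abs_le]
      constructor <;> nlinarith [(hb1 t).1, (hb1 t).2, (hb1 (t + α)).1, (hb1 (t + α)).2]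
    calc |hp M (evc c) (t + α) - hp M (evc c) t| * |cos α| ≤ (2 * δ * b) * 1 :=
          mul_le_mul h2 (abs_cos_le_one α) (abs_nonneg _) (by positivity)
      _ = 2 * δ * b := mul_one _
  have h2 : |hp M (dk (evc c)) (t + α) * sin α| ≤ 2 * √δ * b := by
    rw [abs_mul]
    calc |hp M (dk (evc c)) (t + α)| * |sin α| ≤ (2 * √δ * b) * 1 :=
          mul_le_mul (hB' _) (abs_sin_le_one α) (abs_nonneg _) (by positivity)
      _ = 2 * √δ * b := mul_one _
  have h3 : |(hp M (evc c) (t + α) - hp M (evc c) t) * cos α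
        - hp M (dk (evc c)) (t + α) * sin α| ≤ 2 * δ * b + 2 * √δ * b :=
    (abs_sub _ _).trans (add_le_add h1 h2)
  refine h3.trans ?_
  have hs0 : 0 ≤ √δ := Real.sqrt_nonneg δ
  have hs1 : √δ ≤ 1 / 10 := by
    rw [show (1 : ℝ) / 10 = √(1 / 100) by
      rw [show (1 : ℝ) / 100 = (1 / 10) ^ 2 by norm_num, Real.sqrt_sq (by norm_num)]]
    exact Real.sqrt_le_sqrt hδ1
  have hss := Real.sq_sqrt hδ
  have h4 : 2 * δ * b + 2 * √δ * b ≤ 5 * √δ * ((1 - δ) * b) := by
    have e2 : 5 * √δ * ((1 - δ) * b) - (2 * δ * b + 2 * √δ * b) =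
        √δ * b * (3 - 2 * √δ - 5 * δ) := by
      have : δ * b = √δ * √δ * b := by rw [Real.mul_self_sqrt hδ]
      linear_combination (-2) * this
    have h5 : 0 ≤ √δ * b * (3 - 2 * √δ - 5 * δ) := by
      apply mul_nonneg (by positivity)
      linarith
    linarith
  exact h4.trans (mul_le_mul_of_nonneg_left (hb1 t).1 (by positivity))

end Pool.Agent.Lib.MP_084b88_gt.CW
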