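import Pool.Agent.Lib.MP_084b88_gt.CW.SpecC

/-!
# MP_084b88_gt, project CW, module HPB: basics on `hp`, `Ps`
-/

set_option autoImplicit false

open MeasureTheory Set Real Filter Topology
open scoped Pointwise InnerProductSpace

namespace Pool.Agent.Lib.MP_084b88_gt.CW

namespace HPBM

theorem norm_exp_I (x : ℝ) (k : ℕ) :
    ‖Complex.exp (Complex.I * ((k : ℂ) * (x : ℂ)))‖ = 1 := by
  have h : Complex.I * ((k : ℂ) * (x : ℂ)) = ((k * x : ℝ) : ℂ) * Complex.I := by
    push_cast; ring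
  rw [h, Complex.norm_exp_ofReal_mul_I]

theorem exp_add_pi (z : ℂ) (k : ℕ) :
    Complex.exp (Complex.I * ((k : ℂ) * (z + (π : ℂ)))) =
      (-1) ^ k * Complex.exp (Complex.I * ((k : ℂ) * z)) := by
  have h : Complex.I * ((k : ℂ) * (z + (π : ℂ))) =
      Complex.I * ((k : ℂ) * z) + (k : ℂ) * (π * Complex.I) := by
    ring
  rw [h, Complex.exp_add, Complex.exp_nat_mul, Complex.exp_pi_mul_I]
  ring

theorem hasDeriv (M : ℕ) (c : ℕ → ℂ) (θ : ℝ) :
    HasDerivAt (hp M c) (hp M (dk c) θ) θ := by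
  have h : HasDerivAt (fun z : ℂ => ∑ k ∈ Finset.range M,
      c k * Complex.exp (Complex.I * ((k : ℂ) * z)))
      (∑ k ∈ Finset.range M, dk c k * Complex.exp (Complex.I * ((k : ℂ) * (θ : ℂ))))
      (θ : ℂ) := by
    apply HasDerivAt.fun_sum
    intro k _
    have h1 : HasDerivAt (fun z : ℂ => Complex.I * ((k : ℂ) * z))
        (Complex.I * ((k : ℂ) * 1)) (θ : ℂ) :=
      ((hasDerivAt_id (θ : ℂ)).const_mul _).const_mul _
    have h2 := (h1.cexp).const_mul (c k)
    have h3 : dk c k * Complex.exp (Complex.I * ((k : ℂ) * (θ : ℂ))) =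
        c k * (Complex.exp (Complex.I * ((k : ℂ) * (θ : ℂ))) *
          (Complex.I * ((k : ℂ) * 1))) := by
      unfold dk
      ring
    rw [h3]
    exact h2
  exact h.real_of_complex

/-- shift of `hp` by `π` -/
theorem hp_pi (M : ℕ) (c : ℕ → ℂ) (θ : ℝ) :
    hp M c (θ + π) = hp M (fun k => (-1) ^ k * c k) θ := by
  unfold hp
  congr 1
  apply Finset.sum_congr rfl
  intro k _
  rw [Complex.ofReal_add, exp_add_pi]
  ring

theorem Ps_pi (M : ℕ) (c : ℕ → ℂ) (t α : ℝ) :
    Ps M c (t + π) α = Ps M (fun k => (-1) ^ k * c k) t α := by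
  unfold Ps
  congr 1
  apply Finset.sum_congr rfl
  intro k _
  have h : ((t + π + α : ℝ) : ℂ) = ((t + α : ℝ) : ℂ) + (π : ℂ) := by push_cast; ring
  rw [h, exp_add_pi]
  ring

theorem hp_add (M : ℕ) (c d : ℕ → ℂ) (θ : ℝ) :
    hp M (fun k => c k + d k) θ = hp M c θ + hp M d θ := by
  unfold hp
  rw [← Complex.add_re, ← Finset.sum_add_distrib]
  congr 1
  apply Finset.sum_congr rfl
  intro k _
  ring

theorem hp_smul (M : ℕ) (c : ℕ → ℂ) (a θ : ℝ) :
    hp M (fun m => (a : ℂ) * c m) θ = a * hp M c θ := by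
  unfold hp
  rw [← Complex.re_ofReal_mul, Finset.mul_sum]
  congr 1
  apply Finset.sum_congr rfl
  intro m _
  ring

theorem Ps_add (M : ℕ) (c d : ℕ → ℂ) (t α : ℝ) :
    Ps M (fun k => c k + d k) t α = Ps M c t α + Ps M d t α := by
  unfold Ps
  rw [← Complex.add_re, ← Finset.sum_add_distrib]
  congr 1
  apply Finset.sum_congr rfl
  intro k _
  ring

theorem Ps_smul (M : ℕ) (c : ℕ → ℂ) (a t α : ℝ) :
    Ps M (fun m => (a : ℂ) * c m) t α = a * Ps M c t α := by
  unfold Ps
  rw [← Complex.re_ofReal_mul, Finset.mul_sum]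
  congr 1
  apply Finset.sum_congr rfl
  intro m _
  ring

theorem parity (c : ℕ → ℂ) : (fun k => evc c k + odc c k) = c := by
  funext k
  unfold evc odc
  rcases Nat.mod_two_eq_zero_or_one k with h | h
  · simp [h]
  · simp [h]

theorem sign_ev (c : ℕ → ℂ) : (fun k => (-1) ^ k * evc c k) = evc c := by
  funext k
  unfold evc
  rcases Nat.mod_two_eq_zero_or_one k with h | h
  · have : Even k := Nat.even_iff.2 h
    simp [h, this.neg_one_pow]
  · simp [h]

theorem sign_od (c : ℕ → ℂ) : (fun k => (-1) ^ k * odc c k) = fun k => ((-1 : ℝ) : ℂ) * odc c k := by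
  funext k
  unfold odc
  rcases Nat.mod_two_eq_zero_or_one k with h | h
  · simp [h]
  · have : Odd k := Nat.odd_iff.2 h
    simp [h, this.neg_one_pow]

theorem hp_split (M : ℕ) (c : ℕ → ℂ) (θ : ℝ) :
    hp M c θ = hp M (evc c) θ + hp M (odc c) θ := by
  rw [← hp_add, parity]

theorem Ps_split (M : ℕ) (c : ℕ → ℂ) (t α : ℝ) :
    Ps M c t α = Ps M (evc c) t α + Ps M (odc c) t α := by
  rw [← Ps_add, parity]

theorem hp_ev_pi (M : ℕ) (c : ℕ → ℂ) (θ : ℝ) : hp M (evc c) (θ + π) = hp M (evc c) θ := by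
  rw [hp_pi, sign_ev]

theorem hp_od_pi (M : ℕ) (c : ℕ → ℂ) (θ : ℝ) : hp M (odc c) (θ + π) = - hp M (odc c) θ := by
  rw [hp_pi, sign_od, hp_smul]
  ring

theorem hp_bound (M : ℕ) (c : ℕ → ℂ) (θ : ℝ) :
    |hp M c θ| ≤ ∑ m ∈ Finset.range M, ‖c m‖ := by
  unfold hp
  refine (Complex.abs_re_le_norm _).trans ?_
  refine (norm_sum_le _ _).trans ?_
  apply Finset.sum_le_sum
  intro m _
  rw [norm_mul, norm_exp_I, mul_one]

theorem Vk_bound (k : ℕ) (α : ℝ) :
    ‖Vk k α‖ ≤ 4 * ∑ l ∈ Finset.range (k / 2), ‖(((k : ℂ) - 1) / 2 - (l : ℂ))‖ := by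
  unfold Vk
  rw [norm_mul]
  have h4 : ‖(4 : ℂ)‖ = 4 := by norm_num
  rw [h4]
  refine mul_le_mul_of_nonneg_left ?_ (by norm_num)
  refine (norm_sum_le _ _).trans ?_
  apply Finset.sum_le_sum
  intro j _
  rw [norm_mul]
  have h1 : -(Complex.I * (((2 * j + 1 : ℕ) : ℂ) * (α : ℂ))) =
      Complex.I * (((2 * j + 1 : ℕ) : ℂ) * ((-α : ℝ) : ℂ)) := by
    push_cast; ring
  rw [h1, norm_exp_I, mul_one]

theorem Ps_bound (M : ℕ) (c : ℕ → ℂ) (t α : ℝ) :
    |Ps M c t α| ≤ ∑ k ∈ Finset.range M,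
      ‖c k‖ * (4 * ∑ l ∈ Finset.range (k / 2), ‖(((k : ℂ) - 1) / 2 - (l : ℂ))‖) := by
  unfold Ps
  refine (Complex.abs_re_le_norm _).trans ?_
  refine (norm_sum_le _ _).trans ?_
  apply Finset.sum_le_sum
  intro m _
  rw [norm_mul, norm_mul, norm_exp_I, mul_one]
  exact mul_le_mul_of_nonneg_left (Vk_bound m α) (norm_nonneg _)

theorem Ps_cont (M : ℕ) (c : ℕ → ℂ) :
    Continuous (fun x : ℝ × ℝ => Ps M c x.1 x.2) := by
  unfold Ps Vk
  apply Complex.continuous_re.comp
  apply continuous_finsetSum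
  intro m _
  apply Continuous.mul
  · apply Continuous.mul continuous_const
    apply Complex.continuous_exp.comp
    apply Continuous.mul continuous_const
    apply Continuous.mul continuous_const
    exact Complex.continuous_ofReal.comp (continuous_fst.add continuous_snd)
  · apply Continuous.mul continuous_const
    apply continuous_finsetSum
    intro j _
    apply Continuous.mul continuous_const
    apply Complex.continuous_exp.comp
    apply Continuous.neg
    apply Continuous.mul continuous_const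
    apply Continuous.mul continuous_const
    exact Complex.continuous_ofReal.comp continuous_snd

end HPBM

open HPBM in
theorem specHPB : SpecHPB := by
  intro M c
  refine ⟨hasDeriv M c, ?_, ?_, ⟨_, hp_bound M c⟩, ?_, ?_, hp_split M c, Ps_cont M c,
    ⟨_, Ps_bound M c⟩, Ps_split M c, ?_, ?_⟩
  · intro θ
    have h : θ + 2 * π = (θ + π) + π := by ring
    rw [h, hp_split M c (θ + π + π), hp_split M c θ, hp_ev_pi, hp_ev_pi, hp_od_pi, hp_od_pi,
      neg_neg]
  · exact continuous_iff_continuousAt.2 (fun θ => (hasDeriv M c θ).continuousAt)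
  · intro θ
    unfold gh
    rw [hp_split M c θ, hp_split M c (θ + π), hp_ev_pi, hp_od_pi]
    ring
  · intro θ
    unfold Bh
    rw [hp_split M c θ, hp_split M c (θ + π), hp_ev_pi, hp_od_pi]
    ring
  · intro t α
    rw [Ps_pi, sign_ev]
  · intro t α
    rw [Ps_pi, sign_od, Ps_smul]
    ring

end Pool.Agent.Lib.MP_084b88_gt.CW
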