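import Pool.Agent.Lib.MP_084b88_gt.CW.SpecD

/-!
# LN3: a centre for the middle function
-/

set_option autoImplicit false

open MeasureTheory Set Real Filter Topology
open scoped Pointwise InnerProductSpace

namespace Pool.Agent.Lib.MP_084b88_gt.CW

namespace LN3M

theorem int_right {μ : Measure O3} (hμ : HaarO μ) (S : O3) (f : O3 → ℝ) :
    ∫ R, f (R * S) ∂μ = ∫ R, f R ∂μ :=
  (hμ.2.1 S).integral_comp' (f := (Homeomorph.mulRight S).toMeasurableEquiv) f

theorem int_left {μ : Measure O3} (hμ : HaarO μ) (S : O3) (f : O3 → ℝ) :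
    ∫ R, f (S * R) ∂μ = ∫ R, f R ∂μ :=
  (hμ.2.2 S).integral_comp' (f := (Homeomorph.mulLeft S).toMeasurableEquiv) f

theorem integ {μ : Measure O3} [IsProbabilityMeasure μ] {f : O3 → ℝ} (hf : Continuous f) :
    Integrable f μ :=
  hf.integrable_of_hasCompactSupport (HasCompactSupport.of_compactSpace f)

theorem rot_zero : rot 0 = 1 := by
  apply Subtype.ext
  show rotM 0 = 1
  ext i j
  fin_cases i <;> fin_cases j <;> simp [rotM]

/-- The defect of `G`. -/
noncomputable def De (G : O3 → ℝ) (R : O3) (ψ : ℝ) : ℝ :=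
  G (R * rot ψ) - cos ψ * G R - sin ψ * G (R * rot (π / 2))

theorem De_cont {G : O3 → ℝ} (hG : Continuous G) (ψ : ℝ) : Continuous (fun R => De G R ψ) := by
  unfold De
  have h1 : Continuous (fun R : O3 => G (R * rot ψ)) := hG.comp (continuous_id.mul continuous_const)
  have h2 : Continuous (fun R : O3 => G (R * rot (π / 2))) :=
    hG.comp (continuous_id.mul continuous_const)
  fun_prop

section

variable {μ : Measure O3} {G G3 : O3 → ℝ} {a b : O3 → ℝ}

theorem De_eq (hA : ∀ R t, G (R * rot t) = G3 (R * rot t) + a R * cos t + b R * sin t)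
    (R : O3) (ψ : ℝ) : De G R ψ = De G3 R ψ := by
  have h1 := hA R ψ
  have h2 := hA R 0
  have h3 := hA R (π / 2)
  rw [rot_zero, mul_one, cos_zero, sin_zero] at h2
  rw [cos_pi_div_two, sin_pi_div_two] at h3
  unfold De
  rw [h1, h2, h3]
  ring

theorem De_sq (G : O3 → ℝ) (R : O3) (ψ : ℝ) :
    De G R ψ ^ 2 ≤ 2 * (G (R * rot ψ) ^ 2 + G R ^ 2 + G (R * rot (π / 2)) ^ 2) := by
  unfold De
  have h := sin_sq_add_cos_sq ψ
  set c := cos ψ
  set s := sin ψ
  set x := G (R * rot ψ)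
  set y := G R
  set z := G (R * rot (π / 2))
  have e : 2 * (x ^ 2 + y ^ 2 + z ^ 2) - (x - c * y - s * z) ^ 2 =
      (c * x + y) ^ 2 + (s * x + z) ^ 2 + (s * y - c * z) ^ 2
        + (1 - (s ^ 2 + c ^ 2)) * (x ^ 2 + y ^ 2 + z ^ 2) := by ring
  rw [h] at e
  nlinarith [sq_nonneg (c * x + y), sq_nonneg (s * x + z), sq_nonneg (s * y - c * z)]

theorem De_int (hμ : HaarO μ) (hG : Continuous G) (hG3 : Continuous G3)
    (hA : ∀ R t, G (R * rot t) = G3 (R * rot t) + a R * cos t + b R * sin t) (ψ : ℝ) :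
    ∫ R, De G R ψ ^ 2 ∂μ ≤ 6 * ∫ R, G3 R ^ 2 ∂μ := by
  have hP := hμ.1
  have hc : ∀ S : O3, Continuous (fun R : O3 => G3 (R * S) ^ 2) := fun S =>
    (hG3.comp (continuous_id.mul continuous_const)).pow 2
  have h1 : ∫ R, De G R ψ ^ 2 ∂μ ≤
      ∫ R, 2 * (G3 (R * rot ψ) ^ 2 + G3 R ^ 2 + G3 (R * rot (π / 2)) ^ 2) ∂μ := by
    refine integral_mono (integ ((De_cont hG ψ).pow 2)) (integ ?_) ?_
    · exact continuous_const.mul (((hc _).add (hG3.pow 2)).add (hc _))
    · intro R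
      show De G R ψ ^ 2 ≤ _
      rw [De_eq hA]
      exact De_sq G3 R ψ
  refine h1.trans (le_of_eq ?_)
  have i1 : Integrable (fun R : O3 => G3 (R * rot ψ) ^ 2) μ := integ (hc _)
  have i2 : Integrable (fun R : O3 => G3 R ^ 2) μ := integ (hG3.pow 2)
  have i3 : Integrable (fun R : O3 => G3 (R * rot (π / 2)) ^ 2) μ := integ (hc _)
  have e : ∫ R, (G3 (R * rot ψ) ^ 2 + G3 R ^ 2 + G3 (R * rot (π / 2)) ^ 2) ∂μ =
      ∫ R, G3 (R * rot ψ) ^ 2 ∂μ + ∫ R, G3 R ^ 2 ∂μ + ∫ R, G3 (R * rot (π / 2)) ^ 2 ∂μ := by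
    rw [← integral_add i1 i2]
    exact integral_add (i1.add i2) i3
  rw [integral_const_mul, e,
    int_right hμ (rot ψ) (fun R => G3 R ^ 2), int_right hμ (rot (π / 2)) (fun R => G3 R ^ 2)]
  ring

/-- The centre. -/
noncomputable def Oc (G : O3 → ℝ) (R : O3) : E3 :=
  G R • col R 0 + G (R * rot (π / 2)) • col R 1 + G (R * cyc 0) • col R 2

theorem Oc_cont (hG : Continuous G) : Continuous (Oc G) := by
  unfold Oc
  have h1 : Continuous (fun R : O3 => G (R * rot (π / 2))) :=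
    hG.comp (continuous_id.mul continuous_const)
  have h2 : Continuous (fun R : O3 => G (R * cyc 0)) := hG.comp (continuous_id.mul continuous_const)
  have h3 := continuous_col 0
  have h4 := continuous_col 1
  have h5 := continuous_col 2
  fun_prop

theorem spher (w0 w1 w2 : ℝ) (h : w0 ^ 2 + w1 ^ 2 + w2 ^ 2 = 1) :
    ∃ θ ψ : ℝ, w0 = sin ψ * cos θ ∧ w1 = sin ψ * sin θ ∧ w2 = cos ψ := by
  have hz : ‖(⟨w0, w1⟩ : ℂ)‖ = √(1 - w2 ^ 2) := by
    rw [Complex.norm_def, Complex.normSq_apply]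
    congr 1
    show w0 * w0 + w1 * w1 = _
    nlinarith
  have h2 : w2 ^ 2 ≤ 1 := by nlinarith [sq_nonneg w0, sq_nonneg w1]
  have h3 := abs_le.1 ((sq_le_one_iff_abs_le_one w2).1 h2)
  refine ⟨Complex.arg ⟨w0, w1⟩, Real.arccos w2, ?_, ?_, ?_⟩
  · rw [Real.sin_arccos, ← hz, Complex.norm_mul_cos_arg]
  · rw [Real.sin_arccos, ← hz, Complex.norm_mul_sin_arg]
  · rw [Real.cos_arccos h3.1 h3.2]

theorem key (hB : ∀ R S : O3, col R 0 = col S 0 → G R = G S) (S : O3) :
    ∃ θ ψ : ℝ, ∀ R : O3, G (R * S) - ⟪col (R * S) 0, Oc G R⟫_ℝ =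
      De G (R * cyc θ) ψ + sin ψ * De G R θ := by
  have hn := norm_col S 0
  have hn2 : S.1 0 0 ^ 2 + S.1 1 0 ^ 2 + S.1 2 0 ^ 2 = 1 := by
    have h := real_inner_self_eq_norm_sq (col S 0)
    rw [hn, inner_E3] at h
    simp only [col_apply] at h
    linarith
  obtain ⟨θ, ψ, h0, h1, h2⟩ := spher _ _ _ hn2
  refine ⟨θ, ψ, fun R => ?_⟩
  have e1 : G (R * S) = G (R * cyc θ * rot ψ) := by
    apply hB
    rw [col_mul, col_rot_zero, col_cyc_zero, col_cyc_one, h0, h1, h2]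
    module
  have e2 : G (R * cyc θ) = G (R * cyc 0) := by
    apply hB
    rw [col_cyc_zero, col_cyc_zero]
  have e3 : G (R * cyc θ * rot (π / 2)) = G (R * rot θ) := by
    apply hB
    rw [col_rot_zero, cos_pi_div_two, sin_pi_div_two, col_cyc_one, col_rot_zero]
    module
  have e4 : ⟪col (R * S) 0, Oc G R⟫_ℝ =
      S.1 0 0 * G R + S.1 1 0 * G (R * rot (π / 2)) + S.1 2 0 * G (R * cyc 0) := by
    rw [col_mul]
    unfold Oc
    simp only [inner_add_left, inner_add_right, inner_smul_left, inner_smul_right, inner_col_col,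
      RCLike.conj_to_real, if_true, show ((0 : Fin 3) = 1) = False from by decide,
      show ((0 : Fin 3) = 2) = False from by decide, show ((1 : Fin 3) = 0) = False from by decide,
      show ((1 : Fin 3) = 2) = False from by decide, show ((2 : Fin 3) = 0) = False from by decide,
      show ((2 : Fin 3) = 1) = False from by decide, if_false]
    ring
  rw [e4, e1]
  unfold De
  rw [e2, e3, h0, h1, h2]
  ring

theorem main (hμ : HaarO μ) (hG : Continuous G) (hG3 : Continuous G3)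
    (hA : ∀ R t, G (R * rot t) = G3 (R * rot t) + a R * cos t + b R * sin t)
    (hB : ∀ R S : O3, col R 0 = col S 0 → G R = G S) :
    ∃ O : E3, ∫ R, (G R - ⟪col R 0, O⟫_ℝ) ^ 2 ∂μ ≤ 24 * ∫ R, G3 R ^ 2 ∂μ := by
  have hP := hμ.1
  set Φ : O3 → O3 → ℝ := fun S R => (G (R * S) - ⟪col (R * S) 0, Oc G R⟫_ℝ) ^ 2 with hΦ
  have hΦc : Continuous (Function.uncurry Φ) := by
    have h1 : Continuous (fun p : O3 × O3 => p.2 * p.1) := continuous_snd.mul continuous_fst
    have h2 : Continuous (fun p : O3 × O3 => G (p.2 * p.1)) := hG.comp h1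
    have h3 : Continuous (fun p : O3 × O3 => col (p.2 * p.1) 0) := (continuous_col 0).comp h1
    have h4 : Continuous (fun p : O3 × O3 => Oc G p.2) := (Oc_cont hG).comp continuous_snd
    exact (h2.sub (h3.inner h4)).pow 2
  have hS : ∀ S : O3, ∫ R, Φ S R ∂μ ≤ 24 * ∫ R, G3 R ^ 2 ∂μ := by
    intro S
    obtain ⟨θ, ψ, hk⟩ := key hB S
    have hc1 : Continuous (fun R : O3 => De G (R * cyc θ) ψ ^ 2) :=
      ((De_cont hG ψ).comp (continuous_id.mul continuous_const)).pow 2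
    have hc2 : Continuous (fun R : O3 => De G R θ ^ 2) := (De_cont hG θ).pow 2
    have h1 : ∫ R, Φ S R ∂μ ≤ ∫ R, (2 * De G (R * cyc θ) ψ ^ 2 + 2 * De G R θ ^ 2) ∂μ := by
      refine integral_mono (integ (hΦc.comp (Continuous.prodMk_right S))) (integ ?_) ?_
      · exact (continuous_const.mul hc1).add (continuous_const.mul hc2)
      · intro R
        show (G (R * S) - ⟪col (R * S) 0, Oc G R⟫_ℝ) ^ 2 ≤ _
        rw [hk R]
        have h := sin_sq_add_cos_sq ψ
        set x := De G (R * cyc θ) ψ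
        set y := De G R θ
        show (x + sin ψ * y) ^ 2 ≤ 2 * x ^ 2 + 2 * y ^ 2
        have e : 2 * x ^ 2 + 2 * y ^ 2 - (x + sin ψ * y) ^ 2 = (x - sin ψ * y) ^ 2 +
          2 * (cos ψ * y) ^ 2 + 2 * (1 - (sin ψ ^ 2 + cos ψ ^ 2)) * y ^ 2 := by ring
        rw [h] at e
        nlinarith [sq_nonneg (x - sin ψ * y), sq_nonneg (cos ψ * y)]
    refine h1.trans ?_
    rw [integral_add ((integ hc1).const_mul 2) ((integ hc2).const_mul 2), integral_const_mul,
      integral_const_mul, int_right hμ (cyc θ) (fun R => De G R ψ ^ 2)]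
    have h2 := De_int hμ hG hG3 hA ψ
    have h3 := De_int hμ hG hG3 hA θ
    linarith
  have hI : Integrable (Function.uncurry Φ) (μ.prod μ) :=
    hΦc.integrable_of_hasCompactSupport (HasCompactSupport.of_compactSpace _)
  have hsw := integral_integral_swap hI
  have h1 : ∫ S, ∫ R, Φ S R ∂μ ∂μ ≤ 24 * ∫ R, G3 R ^ 2 ∂μ := by
    calc ∫ S, ∫ R, Φ S R ∂μ ∂μ ≤ ∫ _ : O3, 24 * ∫ R, G3 R ^ 2 ∂μ ∂μ :=
          integral_mono hI.integral_prod_left (integrable_const _) hS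
      _ = 24 * ∫ R, G3 R ^ 2 ∂μ := by
          rw [integral_const, probReal_univ, one_smul]
  rw [hsw] at h1
  obtain ⟨R, hR⟩ := exists_le_integral (μ := μ) hI.integral_prod_right
  refine ⟨Oc G R, ?_⟩
  have h2 : ∫ S, Φ S R ∂μ = ∫ S, (G S - ⟪col S 0, Oc G R⟫_ℝ) ^ 2 ∂μ :=
    int_left hμ R (fun S => (G S - ⟪col S 0, Oc G R⟫_ℝ) ^ 2)
  rw [← h2]
  exact hR.trans h1

end

end LN3M

open LN3M in
theorem specLN3 (hMEB : SpecMEB) : SpecLN3 := by
  intro μ hμ K hK hi
  obtain ⟨m1, m2, m3, -, -, -, m7, m8⟩ := hMEB K hK hi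
  refine main (G := fun R => mid (pr R K) 0) (G3 := fun R => g3f (mid (pr R K)) 0)
    (a := fun R => (1 / π) * ∫ s in (0 : ℝ)..(2 * π), mid (pr R K) s * cos s)
    (b := fun R => (1 / π) * ∫ s in (0 : ℝ)..(2 * π), mid (pr R K) s * sin s) hμ m1 m7 ?_ ?_
  · intro R t
    have h1 := m3 R t
    have h2 := m8 R t
    show mid (pr (R * rot t) K) 0 = g3f (mid (pr (R * rot t) K)) 0 + _ + _
    rw [← h1, ← h2]
    unfold g3f
    ring
  · intro R S h
    show mid (pr R K) 0 = mid (pr S K) 0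
    rw [m2, m2, h]

end Pool.Agent.Lib.MP_084b88_gt.CW
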