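import Pool.Agent.Lib.MP_084b88_gt.CW.SpecB

/-!
# MP_084b88_gt, project CW: module QQP (facts on `QF`, `QQF`)
-/

set_option autoImplicit false

open MeasureTheory Set Real Filter Topology
open scoped Pointwise InnerProductSpace

namespace Pool.Agent.Lib.MP_084b88_gt.CW

namespace QQPM

theorem kap_pos : 0 < kap := by unfold kap; positivity

theorem kap_lt : kap < 1 := by
  unfold kap
  rw [div_lt_one (by positivity)]
  have := pi_gt_three
  linarith

theorem cont_FF : Continuous FF := by
  unfold FF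
  exact ((continuous_const.sub (continuous_id.pow 2)).sqrt).sub continuous_const

theorem abs_FF_le (x : ℝ) : |FF x| ≤ 1 := by
  unfold FF
  have h1 : 0 ≤ √(1 - x ^ 2) := sqrt_nonneg _
  have h2 : √(1 - x ^ 2) ≤ 1 := by
    rw [sqrt_le_one]
    nlinarith [sq_nonneg x]
  have h3 := kap_pos
  have h4 := kap_lt
  rw [abs_le]
  constructor <;> linarith

theorem deriv_QF (x : ℝ) : HasDerivAt QF (FF x) x := by
  unfold QF
  exact intervalIntegral.integral_hasDerivAt_right (cont_FF.intervalIntegrable _ _)
    cont_FF.stronglyMeasurable.stronglyMeasurableAtFilter cont_FF.continuousAt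

theorem cont_QF : Continuous QF :=
  continuous_iff_continuousAt.2 fun x => (deriv_QF x).continuousAt

theorem deriv_QQF (x : ℝ) : HasDerivAt QQF (QF x) x := by
  unfold QQF
  exact intervalIntegral.integral_hasDerivAt_right (cont_QF.intervalIntegrable _ _)
    cont_QF.stronglyMeasurable.stronglyMeasurableAtFilter cont_QF.continuousAt

theorem cont_QQF : Continuous QQF :=
  continuous_iff_continuousAt.2 fun x => (deriv_QQF x).continuousAt

theorem QF_neg (x : ℝ) : QF (-x) = - QF x := by
  unfold QF
  have h := intervalIntegral.integral_comp_neg (a := 0) (b := x) FF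
  have h2 : ∀ y, FF (-y) = FF y := by
    intro y
    unfold FF
    rw [neg_sq]
  simp only [h2, neg_zero] at h
  rw [h, intervalIntegral.integral_symm]

theorem QQF_neg (x : ℝ) : QQF (-x) = QQF x := by
  unfold QQF
  have h := intervalIntegral.integral_comp_neg (a := 0) (b := x) QF
  simp only [QF_neg, neg_zero, intervalIntegral.integral_neg] at h
  rw [intervalIntegral.integral_symm, ← h, neg_neg]

theorem abs_QF_le (x : ℝ) (hx : |x| ≤ 1) : |QF x| ≤ 1 := by
  unfold QF
  have h := intervalIntegral.norm_integral_le_of_norm_le_const (a := 0) (b := x) (f := FF)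
    (C := 1) (fun y _ => by rw [Real.norm_eq_abs]; exact abs_FF_le y)
  rw [Real.norm_eq_abs] at h
  simp only [sub_zero, one_mul] at h
  linarith

theorem abs_QQF_sub (x y : ℝ) (hx : |x| ≤ 1) (hy : |y| ≤ 1) : |QQF x - QQF y| ≤ |x - y| := by
  have h0 : QQF x - QQF y = ∫ t in y..x, QF t := by
    unfold QQF
    rw [intervalIntegral.integral_interval_sub_left (cont_QF.intervalIntegrable _ _)
      (cont_QF.intervalIntegrable _ _)]
  rw [h0]
  have h := intervalIntegral.norm_integral_le_of_norm_le_const (a := y) (b := x) (f := QF)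
    (C := 1) (fun t ht => by
      rw [Real.norm_eq_abs]
      apply abs_QF_le
      rw [abs_le] at hx hy ⊢
      rw [uIoc_eq_union, mem_union, mem_Ioc, mem_Ioc] at ht
      rcases ht with ht | ht <;> constructor <;> linarith)
  rw [Real.norm_eq_abs, one_mul] at h
  exact h

theorem sqrt_conc (c x : ℝ) (h1 : |c + x| ≤ 1) (h2 : |c - x| ≤ 1) :
    FF (c + x) + FF (c - x) ≤ 2 * FF c := by
  unfold FF
  have a0 : 0 ≤ 1 - (c + x) ^ 2 := by
    have := sq_le_one_iff_abs_le_one (c + x) |>.2 h1
    linarith
  have b0 : 0 ≤ 1 - (c - x) ^ 2 := by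
    have := sq_le_one_iff_abs_le_one (c - x) |>.2 h2
    linarith
  have ha := sq_sqrt a0
  have hb := sq_sqrt b0
  set a := √(1 - (c + x) ^ 2)
  set b := √(1 - (c - x) ^ 2)
  have h3 : (a + b) / 2 ≤ √(1 - c ^ 2) := by
    apply le_sqrt_of_sq_le
    nlinarith [sq_nonneg (a - b), sq_nonneg x]
  linarith

theorem second (c e : ℝ) (he : 0 ≤ e) (h1 : |c + e| ≤ 1) (h2 : |c - e| ≤ 1) :
    QQF (c + e) + QQF (c - e) - 2 * QQF c ≤ e ^ 2 * FF c := by
  have hdψ : ∀ t : ℝ, HasDerivAt (fun t => 2 * t * FF c - (QF (c + t) - QF (c - t)))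
      (2 * FF c - (FF (c + t) + FF (c - t))) t := by
    intro t
    have e1 : HasDerivAt (fun t => QF (c + t)) (FF (c + t)) t :=
      (deriv_QF (c + t)).comp_const_add c t
    have e2 : HasDerivAt (fun t => QF (c - t)) (-FF (c - t)) t :=
      (deriv_QF (c - t)).comp_const_sub c t
    have e3 : HasDerivAt (fun t : ℝ => 2 * t * FF c) (2 * FF c) t := by
      have := ((hasDerivAt_id t).const_mul 2).mul_const (FF c)
      simpa using this
    exact (e3.sub (e1.sub e2)).congr_deriv (by ring)
  have hdφ : ∀ t : ℝ, HasDerivAt (fun t => t ^ 2 * FF c - (QQF (c + t) + QQF (c - t) - 2 * QQF c))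
      (2 * t * FF c - (QF (c + t) - QF (c - t))) t := by
    intro t
    have e1 : HasDerivAt (fun t => QQF (c + t)) (QF (c + t)) t :=
      (deriv_QQF (c + t)).comp_const_add c t
    have e2 : HasDerivAt (fun t => QQF (c - t)) (-QF (c - t)) t :=
      (deriv_QQF (c - t)).comp_const_sub c t
    have e3 : HasDerivAt (fun t : ℝ => t ^ 2 * FF c) (2 * t * FF c) t := by
      have := ((hasDerivAt_id t).pow 2).mul_const (FF c)
      simpa using this
    exact (e3.sub ((e1.add e2).sub_const (2 * QQF c))).congr_deriv (by ring)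
  have habs : ∀ t ∈ Icc (0 : ℝ) e, |c + t| ≤ 1 ∧ |c - t| ≤ 1 := by
    intro t ht
    rw [abs_le] at h1 h2
    constructor <;> rw [abs_le] <;> constructor <;> linarith [ht.1, ht.2]
  have hψ : ∀ t ∈ Icc (0 : ℝ) e, 0 ≤ 2 * t * FF c - (QF (c + t) - QF (c - t)) := by
    intro t ht
    have hm : MonotoneOn (fun t => 2 * t * FF c - (QF (c + t) - QF (c - t))) (Icc 0 e) := by
      apply monotoneOn_of_deriv_nonneg (convex_Icc 0 e)
      · exact fun x _ => (hdψ x).continuousAt.continuousWithinAt
      · exact fun x _ => (hdψ x).differentiableAt.differentiableWithinAt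
      · intro x hx
        rw [interior_Icc] at hx
        rw [(hdψ x).deriv]
        have h3 := habs x ⟨hx.1.le, hx.2.le⟩
        have := sqrt_conc c x h3.1 h3.2
        linarith
    have := hm (left_mem_Icc.2 he) ht ht.1
    simpa using this
  have hm : MonotoneOn (fun t => t ^ 2 * FF c - (QQF (c + t) + QQF (c - t) - 2 * QQF c))
      (Icc 0 e) := by
    apply monotoneOn_of_deriv_nonneg (convex_Icc 0 e)
    · exact fun x _ => (hdφ x).continuousAt.continuousWithinAt
    · exact fun x _ => (hdφ x).differentiableAt.differentiableWithinAt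
    · intro x hx
      rw [interior_Icc] at hx
      rw [(hdφ x).deriv]
      exact hψ x ⟨hx.1.le, hx.2.le⟩
  have := hm (left_mem_Icc.2 he) (right_mem_Icc.2 he) he
  simp only [add_zero, sub_zero] at this
  nlinarith

theorem FF_cos (α : ℝ) (h : α ∈ Icc (0 : ℝ) π) : FF (cos α) = sin α - kap := by
  unfold FF
  have h1 : 1 - cos α ^ 2 = sin α ^ 2 := by
    have := sin_sq_add_cos_sq α
    linarith
  rw [h1, sqrt_sq (sin_nonneg_of_nonneg_of_le_pi h.1 h.2)]

theorem int_zero : (∫ α in (0 : ℝ)..π, QF (cos α) * cos α) = 0 := by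
  have hu : ∀ x ∈ uIcc 0 π, HasDerivAt (fun α => QF (cos α)) (FF (cos x) * (-sin x)) x :=
    fun x _ => (deriv_QF (cos x)).comp x (hasDerivAt_cos x)
  have hv : ∀ x ∈ uIcc 0 π, HasDerivAt sin (cos x) x := fun x _ => hasDerivAt_sin x
  have h := intervalIntegral.integral_mul_deriv_eq_deriv_mul hu hv
    ((cont_FF.comp continuous_cos).mul continuous_sin.neg |>.intervalIntegrable _ _)
    (continuous_cos.intervalIntegrable _ _)
  rw [h]
  simp only [sin_pi, sin_zero, mul_zero, sub_zero, zero_sub]
  have h2 : ∫ x in (0 : ℝ)..π, FF (cos x) * -sin x * sin x =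
      ∫ x in (0 : ℝ)..π, (kap * sin x ^ 2 - sin x ^ 3) := by
    apply intervalIntegral.integral_congr
    intro x hx
    rw [uIcc_of_le pi_pos.le] at hx
    simp only
    rw [FF_cos x hx]
    ring
  have h3 : ∫ x in (0 : ℝ)..π, sin x ^ 3 = 4 / 3 := by
    have h4 := @integral_sin_pow_odd 1
    rw [show 2 * 1 + 1 = 3 from rfl] at h4
    rw [h4, Finset.prod_range_one]
    norm_num
  have i1 : IntervalIntegrable (fun x : ℝ => kap * sin x ^ 2) volume 0 π :=
    (continuous_const.mul (continuous_sin.pow 2)).intervalIntegrable _ _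
  have i2 : IntervalIntegrable (fun x : ℝ => sin x ^ 3) volume 0 π :=
    (continuous_sin.pow 3).intervalIntegrable _ _
  rw [h2, intervalIntegral.integral_sub i1 i2, intervalIntegral.integral_const_mul, h3,
    integral_sin_sq]
  simp only [sin_zero, cos_zero, sin_pi]
  unfold kap
  field_simp
  ring

end QQPM

open QQPM in
theorem specQQP : SpecQQP := by
  refine ⟨deriv_QF, deriv_QQF, QF_neg, QQF_neg, cont_FF, abs_QF_le, abs_QQF_sub, ?_, int_zero⟩
  intro c e h1 h2
  rcases le_total 0 e with he | he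
  · exact second c e he h1 h2
  · have := second c (-e) (by linarith) (by rwa [← sub_eq_add_neg]) (by rwa [sub_neg_eq_add])
    rw [← sub_eq_add_neg, sub_neg_eq_add, neg_sq] at this
    linarith

end Pool.Agent.Lib.MP_084b88_gt.CW
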