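import Pool.Agent.Lib.MP_084b88_gt.CW.SpecB

/-!
# MP_084b88_gt, project CW: module TAU
-/

set_option autoImplicit false

open MeasureTheory Set Real Filter Topology
open scoped Pointwise InnerProductSpace

namespace Pool.Agent.Lib.MP_084b88_gt.CW

namespace TAUM

theorem int_sin (m : ℤ) : ∫ α in (0 : ℝ)..π, sin ((2 * (m : ℝ) + 1) * α) = 2 / (2 * (m : ℝ) + 1) := by
  have hne : (2 * (m : ℝ) + 1) ≠ 0 := by
    have h : (2 * m + 1 : ℤ) ≠ 0 := by omega
    exact_mod_cast h
  rw [intervalIntegral.integral_comp_mul_left (fun x => sin x) hne, integral_sin]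
  have h1 : cos ((2 * (m : ℝ) + 1) * π) = -1 := by
    have h : (2 * (m : ℝ) + 1) * π = π + (m : ℝ) * (2 * π) := by ring
    rw [h, Real.cos_add_int_mul_two_pi, Real.cos_pi]
  rw [mul_zero, cos_zero, h1]
  rw [smul_eq_mul]
  field_simp
  norm_num

theorem int_cos (m : ℤ) : ∫ α in (0 : ℝ)..π, cos (2 * (m : ℝ) * α) = if m = 0 then π else 0 := by
  by_cases h0 : m = 0
  · subst h0
    simp
  · rw [if_neg h0]
    have hne : (2 * (m : ℝ)) ≠ 0 := by
      have h : (2 * m : ℤ) ≠ 0 := by omega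
      exact_mod_cast h
    rw [intervalIntegral.integral_comp_mul_left (fun x => cos x) hne, integral_cos]
    have h1 : sin (2 * (m : ℝ) * π) = 0 := by
      have h : 2 * (m : ℝ) * π = ((2 * m : ℤ) : ℝ) * π := by push_cast; ring
      rw [h, Real.sin_int_mul_pi]
    rw [mul_zero, sin_zero, h1]
    simp

theorem expand (n : ℤ) (α : ℝ) :
    cos (2 * n * α) * (kap * sin α ^ 2 - sin α ^ 3) =
      kap * (1 / 2 * cos (2 * (n : ℝ) * α) - 1 / 4 * cos (2 * ((n + 1 : ℤ) : ℝ) * α)
        - 1 / 4 * cos (2 * ((n - 1 : ℤ) : ℝ) * α))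
      - 1 / 4 * (3 / 2 * (sin ((2 * (n : ℝ) + 1) * α) - sin ((2 * ((n - 1 : ℤ) : ℝ) + 1) * α))
        - 1 / 2 * (sin ((2 * ((n + 1 : ℤ) : ℝ) + 1) * α) - sin ((2 * ((n - 2 : ℤ) : ℝ) + 1) * α))) := by
  have e1 : 2 * ((n + 1 : ℤ) : ℝ) * α = 2 * n * α + 2 * α := by push_cast; ring
  have e2 : 2 * ((n - 1 : ℤ) : ℝ) * α = 2 * n * α - 2 * α := by push_cast; ring
  have e3 : (2 * (n : ℝ) + 1) * α = 2 * n * α + α := by ring
  have e4 : (2 * ((n - 1 : ℤ) : ℝ) + 1) * α = 2 * n * α - α := by push_cast; ring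
  have e5 : (2 * ((n + 1 : ℤ) : ℝ) + 1) * α = 2 * n * α + 3 * α := by push_cast; ring
  have e6 : (2 * ((n - 2 : ℤ) : ℝ) + 1) * α = 2 * n * α - 3 * α := by push_cast; ring
  rw [e1, e2, e3, e4, e5, e6, cos_add, cos_sub, sin_add, sin_sub, sin_add, sin_sub,
    Real.sin_three_mul, Real.cos_two_mul]
  have hc : cos α ^ 2 = 1 - sin α ^ 2 := by
    have := Real.sin_sq_add_cos_sq α
    linarith
  rw [hc]
  ring

end TAUM

open TAUM in
theorem specTAU : SpecTAU := by
  intro n
  have hI : ∀ k : ℝ, IntervalIntegrable (fun α => cos (k * α)) volume 0 π := fun k =>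
    Continuous.intervalIntegrable (by fun_prop) _ _
  have hJ : ∀ k : ℝ, IntervalIntegrable (fun α => sin (k * α)) volume 0 π := fun k =>
    Continuous.intervalIntegrable (by fun_prop) _ _
  have h1 : ∫ α in (0 : ℝ)..π, cos (2 * n * α) * (kap * sin α ^ 2 - sin α ^ 3) =
      kap * (1 / 2 * (if (n : ℤ) = 0 then π else 0) - 1 / 4 * (if (n : ℤ) + 1 = 0 then π else 0)
        - 1 / 4 * (if (n : ℤ) - 1 = 0 then π else 0))
      - 1 / 4 * (3 / 2 * (2 / (2 * ((n : ℤ) : ℝ) + 1) - 2 / (2 * (((n : ℤ) - 1 : ℤ) : ℝ) + 1))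
        - 1 / 2 * (2 / (2 * (((n : ℤ) + 1 : ℤ) : ℝ) + 1) - 2 / (2 * (((n : ℤ) - 2 : ℤ) : ℝ) + 1))) := by
    have hcongr : ∫ α in (0 : ℝ)..π, cos (2 * n * α) * (kap * sin α ^ 2 - sin α ^ 3) =
        ∫ α in (0 : ℝ)..π, (kap * (1 / 2 * cos (2 * (((n : ℤ)) : ℝ) * α)
          - 1 / 4 * cos (2 * (((n : ℤ) + 1 : ℤ) : ℝ) * α)
          - 1 / 4 * cos (2 * (((n : ℤ) - 1 : ℤ) : ℝ) * α))
          - 1 / 4 * (3 / 2 * (sin ((2 * (((n : ℤ)) : ℝ) + 1) * α)
            - sin ((2 * (((n : ℤ) - 1 : ℤ) : ℝ) + 1) * α))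
          - 1 / 2 * (sin ((2 * (((n : ℤ) + 1 : ℤ) : ℝ) + 1) * α)
            - sin ((2 * (((n : ℤ) - 2 : ℤ) : ℝ) + 1) * α)))) := by
      apply intervalIntegral.integral_congr
      intro α _
      have := expand (n : ℤ) α
      simp only [Int.cast_natCast] at this ⊢
      exact this
    rw [hcongr]
    rw [intervalIntegral.integral_sub, intervalIntegral.integral_const_mul,
      intervalIntegral.integral_sub, intervalIntegral.integral_sub,
      intervalIntegral.integral_const_mul, intervalIntegral.integral_const_mul,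
      intervalIntegral.integral_const_mul, intervalIntegral.integral_const_mul,
      intervalIntegral.integral_sub, intervalIntegral.integral_const_mul,
      intervalIntegral.integral_const_mul, intervalIntegral.integral_sub,
      intervalIntegral.integral_sub, int_cos, int_cos, int_cos, int_sin, int_sin, int_sin, int_sin]
    all_goals first
      | exact hJ _
      | exact hI _
      | (apply Continuous.intervalIntegrable; fun_prop)
  rw [h1]
  unfold tau kap
  have hp := Real.pi_pos.ne'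
  rcases Nat.eq_zero_or_pos n with rfl | hn
  · norm_num
    field_simp
    norm_num
  · rcases Nat.lt_or_ge 1 n with h2 | h2
    · have a0 : ¬ n = 0 := by omega
      have a1 : ¬ n = 1 := by omega
      have b0 : ¬ (n : ℤ) = 0 := by omega
      have b1 : ¬ (n : ℤ) + 1 = 0 := by omega
      have b2 : ¬ (n : ℤ) - 1 = 0 := by omega
      rw [if_neg a0, if_neg a1, if_neg b0, if_neg b1, if_neg b2]
      have hx : (2 : ℝ) ≤ n := by exact_mod_cast h2
      push_cast
      have c1 : (2 * (n : ℝ) + 1) ≠ 0 := by positivity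
      have c2 : (2 * ((n : ℝ) - 1) + 1) ≠ 0 := by intro h; linarith
      have c3 : (2 * ((n : ℝ) + 1) + 1) ≠ 0 := by positivity
      have c4 : (2 * ((n : ℝ) - 2) + 1) ≠ 0 := by intro h; linarith
      have c5 : (4 * (n : ℝ) ^ 2 - 1) ≠ 0 := by intro h; nlinarith
      have c6 : (4 * (n : ℝ) ^ 2 - 9) ≠ 0 := by intro h; nlinarith
      field_simp
      ring
    · have : n = 1 := by omega
      subst this
      norm_num
      field_simp
      norm_num

end Pool.Agent.Lib.MP_084b88_gt.CW
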