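import Pool.Agent.Lib.MP_084b88_gt.CW.LPG
import Pool.Agent.Lib.MP_084b88_gt.CW.QQP
import Pool.Agent.Lib.MP_084b88_gt.CW.TAU

/-!
# MP_084b88_gt, project CW: module LPB
-/

set_option autoImplicit false

open MeasureTheory Set Real Filter Topology
open scoped Pointwise InnerProductSpace ComplexConjugate

namespace Pool.Agent.Lib.MP_084b88_gt.CW

namespace LPBM

open LPGM

theorem int_ee2 (n : ℤ) : ∫ α in (0 : ℝ)..(2 * π), ee n α = if n = 0 then 2 * (π : ℂ) else 0 := by
  unfold ee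
  by_cases h : n = 0
  · subst h
    simp
  · rw [if_neg h]
    have hc : Complex.I * ((n : ℂ)) ≠ 0 := by
      refine mul_ne_zero Complex.I_ne_zero ?_
      exact_mod_cast h
    have h1 := integral_exp_mul_complex (a := 0) (b := 2 * π) hc
    have h2 : ∫ α in (0 : ℝ)..(2 * π), Complex.exp (Complex.I * ((n : ℂ) * (α : ℂ))) =
        ∫ α in (0 : ℝ)..(2 * π), Complex.exp (Complex.I * (n : ℂ) * (α : ℂ)) := by
      refine intervalIntegral.integral_congr fun α _ => ?_
      show Complex.exp _ = Complex.exp _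
      congr 1
      ring
    rw [h2, h1]
    have h3 : Complex.exp (Complex.I * (n : ℂ) * ((2 * π : ℝ) : ℂ)) = 1 := by
      rw [Complex.exp_eq_one_iff]
      exact ⟨n, by push_cast; ring⟩
    rw [h3]
    simp

theorem conj_ee (n : ℤ) (α : ℝ) : conj (ee n α) = ee (-n) α := by
  unfold ee
  rw [← Complex.exp_conj]
  congr 1
  simp

theorem hp_ee (M : ℕ) (z : ℕ → ℂ) (θ : ℝ) :
    hp M z θ = (∑ k ∈ Finset.range M, z k * ee k θ).re := by
  unfold hp
  congr 1

theorem cont_hp (M : ℕ) (z : ℕ → ℂ) : Continuous (hp M z) := by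
  have : hp M z = fun θ => (∑ k ∈ Finset.range M, z k * ee k θ).re := funext (hp_ee M z)
  rw [this]
  exact Complex.continuous_re.comp (continuous_finsetSum _ fun k _ =>
    continuous_const.mul (cont_ee k))

theorem re_int {f : ℝ → ℂ} (hf : Continuous f) (a b : ℝ) :
    ∫ x in a..b, (f x).re = (∫ x in a..b, f x).re := by
  have hi : IntervalIntegrable f volume a b := hf.intervalIntegrable a b
  have h2 := Complex.reCLM.intervalIntegral_comp_comm hi
  simpa only [Complex.reCLM_apply] using h2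

/-- the scalar product of two trigonometric polynomials -/
theorem inner (N : ℕ) (hN : 0 < N) (z w : ℕ → ℂ) :
    ∫ θ in (0 : ℝ)..(2 * π), hp N z θ * hp N w θ =
      π * ((z 0 * w 0).re + ∑ k ∈ Finset.range N, (z k * conj (w k)).re) := by
  have e1 : ∀ θ, hp N z θ * hp N w θ =
      ((∑ k ∈ Finset.range N, ∑ l ∈ Finset.range N, (1 / 2 * (z k * w l) * ee (k + l) θ +
        1 / 2 * (z k * conj (w l)) * ee (k - l) θ)) : ℂ).re := by
    intro θ
    rw [hp_ee, hp_ee]
    have h1 : ∀ a b : ℂ, a.re * b.re = (1 / 2 * (a * b) + 1 / 2 * (a * conj b)).re := by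
      intro a b
      simp
      ring
    rw [h1, map_sum, Finset.sum_mul_sum, Finset.sum_mul_sum, Finset.mul_sum, Finset.mul_sum,
      ← Finset.sum_add_distrib]
    congr 1
    refine Finset.sum_congr rfl fun k _ => ?_
    rw [Finset.mul_sum, Finset.mul_sum, ← Finset.sum_add_distrib]
    refine Finset.sum_congr rfl fun l _ => ?_
    rw [map_mul, conj_ee, ← ee_mul, sub_eq_add_neg, ← ee_mul]
    ring
  simp only [e1]
  have hc : ∀ k l : ℕ, Continuous fun θ : ℝ => (1 / 2 * (z k * w l) * ee (k + l) θ +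
        1 / 2 * (z k * conj (w l)) * ee (k - l) θ) := fun k l =>
    (continuous_const.mul (cont_ee _)).add (continuous_const.mul (cont_ee _))
  rw [re_int (continuous_finsetSum _ fun k _ => continuous_finsetSum _ fun l _ => hc k l)]
  rw [intervalIntegral.integral_finsetSum fun k _ =>
    (continuous_finsetSum _ fun l _ => hc k l).intervalIntegrable _ _]
  have hI : ∀ (c : ℂ) (n : ℤ), IntervalIntegrable (fun α => c * ee n α) volume 0 (2 * π) :=
    fun c n => (continuous_const.mul (cont_ee n)).intervalIntegrable _ _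
  have e2 : ∀ k ∈ Finset.range N, ∫ θ in (0 : ℝ)..(2 * π), ∑ l ∈ Finset.range N,
      (1 / 2 * (z k * w l) * ee (k + l) θ + 1 / 2 * (z k * conj (w l)) * ee (k - l) θ) =
      (if k = 0 then (π : ℂ) * (z 0 * w 0) else 0) + (π : ℂ) * (z k * conj (w k)) := by
    intro k hk
    rw [intervalIntegral.integral_finsetSum fun l _ => (hc k l).intervalIntegrable _ _]
    have e3 : ∀ l ∈ Finset.range N, ∫ θ in (0 : ℝ)..(2 * π),
        (1 / 2 * (z k * w l) * ee (k + l) θ + 1 / 2 * (z k * conj (w l)) * ee (k - l) θ) =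
        (if l = 0 then (if k = 0 then (π : ℂ) * (z 0 * w 0) else 0) else 0) +
          (if k = l then (π : ℂ) * (z k * conj (w k)) else 0) := by
      intro l _
      rw [intervalIntegral.integral_add (hI _ _) (hI _ _),
        intervalIntegral.integral_const_mul, intervalIntegral.integral_const_mul, int_ee2, int_ee2]
      congr 1
      · by_cases hl : l = 0
        · by_cases hk0 : k = 0
          · subst hl; subst hk0
            simp
            ring
          · rw [if_neg (by omega), if_pos hl, if_neg hk0, mul_zero]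
        · rw [if_neg (by omega), if_neg hl, mul_zero]
      · by_cases hkl : k = l
        · subst hkl
          simp
          ring
        · rw [if_neg (by omega), if_neg hkl, mul_zero]
    rw [Finset.sum_congr rfl e3, Finset.sum_add_distrib, Finset.sum_ite_eq', Finset.sum_ite_eq,
      if_pos (Finset.mem_range.2 hN), if_pos hk]
  rw [Finset.sum_congr rfl e2, Finset.sum_add_distrib, Finset.sum_ite_eq',
    if_pos (Finset.mem_range.2 hN), ← Finset.mul_sum, ← mul_add, Complex.re_ofReal_mul,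
    Complex.add_re, Complex.re_sum]

theorem sin_odd_pi (n : ℕ) (α : ℝ) :
    sin ((2 * (n : ℝ) + 1) * (π - α)) = sin ((2 * (n : ℝ) + 1) * α) := by
  have : (2 * (n : ℝ) + 1) * (π - α) = π - (2 * (n : ℝ) + 1) * α + (n : ℝ) * (2 * π) := by ring
  rw [this, Real.sin_add_nat_mul_two_pi, Real.sin_pi_sub]

/-- the imaginary part vanishes -/
theorem im_zero (n : ℕ) : ∫ α in (0 : ℝ)..π, QF (cos α) * sin ((2 * (n : ℝ) + 1) * α) = 0 := by
  have h := intervalIntegral.integral_comp_sub_left (a := 0) (b := π)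
    (fun α => QF (cos α) * sin ((2 * (n : ℝ) + 1) * α)) π
  simp only [sub_zero, sub_self, Real.cos_pi_sub, QQPM.QF_neg, sin_odd_pi, neg_mul,
    intervalIntegral.integral_neg] at h
  linarith

/-- the real part -/
theorem re_le (n : ℕ) : ∫ α in (0 : ℝ)..π, QF (cos α) * cos ((2 * (n : ℝ) + 1) * α) ≤ 0 := by
  have hn : (0 : ℝ) < 2 * (n : ℝ) + 1 := by positivity
  have hu : ∀ x ∈ uIcc 0 π, HasDerivAt (fun α => QF (cos α)) (FF (cos x) * (-sin x)) x :=
    fun x _ => (QQPM.deriv_QF (cos x)).comp x (hasDerivAt_cos x)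
  have hv : ∀ x ∈ uIcc 0 π, HasDerivAt (fun α => sin ((2 * (n : ℝ) + 1) * α) / (2 * (n : ℝ) + 1))
      (cos ((2 * (n : ℝ) + 1) * x)) x := by
    intro x _
    have h1 : HasDerivAt (fun α : ℝ => (2 * (n : ℝ) + 1) * α) ((2 * (n : ℝ) + 1) * 1) x :=
      (hasDerivAt_id x).const_mul _
    have h2 := ((hasDerivAt_sin _).comp x h1).div_const (2 * (n : ℝ) + 1)
    refine h2.congr_deriv ?_
    field_simp
  have h := intervalIntegral.integral_mul_deriv_eq_deriv_mul hu hv
    ((QQPM.cont_FF.comp continuous_cos).mul continuous_sin.neg |>.intervalIntegrable _ _)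
    ((by fun_prop : Continuous fun x : ℝ => cos ((2 * (n : ℝ) + 1) * x)).intervalIntegrable _ _)
  rw [h]
  have hs : sin ((2 * (n : ℝ) + 1) * π) = 0 := by
    have : (2 * (n : ℝ) + 1) * π = ((2 * n + 1 : ℕ) : ℝ) * π := by push_cast; ring
    rw [this, Real.sin_nat_mul_pi]
  have h2 : ∫ x in (0 : ℝ)..π, FF (cos x) * -sin x * (sin ((2 * (n : ℝ) + 1) * x) /
      (2 * (n : ℝ) + 1)) = -(1 / (2 * (n : ℝ) + 1)) * ∫ x in (0 : ℝ)..π,
      ((1 / 2 * sin ((2 * (((n : ℤ)) : ℝ) + 1) * x) -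
        1 / 4 * sin ((2 * (((n : ℤ) + 1 : ℤ) : ℝ) + 1) * x) -
        1 / 4 * sin ((2 * (((n : ℤ) - 1 : ℤ) : ℝ) + 1) * x)) -
        kap * (1 / 2 * cos (2 * (((n : ℤ)) : ℝ) * x) -
          1 / 2 * cos (2 * (((n : ℤ) + 1 : ℤ) : ℝ) * x))) := by
    rw [← intervalIntegral.integral_const_mul]
    apply intervalIntegral.integral_congr
    intro x hx
    rw [uIcc_of_le pi_pos.le] at hx
    simp only
    rw [QQPM.FF_cos x hx]
    have e1 : (2 * (((n : ℤ) + 1 : ℤ) : ℝ) + 1) * x = (2 * (n : ℝ) + 1) * x + 2 * x := by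
      push_cast; ring
    have e2 : (2 * (((n : ℤ) - 1 : ℤ) : ℝ) + 1) * x = (2 * (n : ℝ) + 1) * x - 2 * x := by
      push_cast; ring
    have e3 : 2 * (((n : ℤ)) : ℝ) * x = (2 * (n : ℝ) + 1) * x - x := by push_cast; ring
    have e4 : 2 * (((n : ℤ) + 1 : ℤ) : ℝ) * x = (2 * (n : ℝ) + 1) * x + x := by push_cast; ring
    have e5 : (2 * (((n : ℤ)) : ℝ) + 1) * x = (2 * (n : ℝ) + 1) * x := by push_cast; ring
    rw [e1, e2, e3, e4, e5, sin_add, sin_sub, cos_add, cos_sub, Real.sin_two_mul, Real.cos_two_mul]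
    have hc : cos x ^ 2 = 1 - sin x ^ 2 := by
      have := Real.sin_sq_add_cos_sq x
      linarith
    rw [hc]
    field_simp
    ring
  have hI : ∀ k : ℝ, IntervalIntegrable (fun α => cos (k * α)) volume 0 π := fun k =>
    Continuous.intervalIntegrable (by fun_prop) _ _
  have hJ : ∀ k : ℝ, IntervalIntegrable (fun α => sin (k * α)) volume 0 π := fun k =>
    Continuous.intervalIntegrable (by fun_prop) _ _
  have h3 : ∫ x in (0 : ℝ)..π,
      ((1 / 2 * sin ((2 * (((n : ℤ)) : ℝ) + 1) * x) -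
        1 / 4 * sin ((2 * (((n : ℤ) + 1 : ℤ) : ℝ) + 1) * x) -
        1 / 4 * sin ((2 * (((n : ℤ) - 1 : ℤ) : ℝ) + 1) * x)) -
        kap * (1 / 2 * cos (2 * (((n : ℤ)) : ℝ) * x) -
          1 / 2 * cos (2 * (((n : ℤ) + 1 : ℤ) : ℝ) * x))) =
      (1 / 2 * (2 / (2 * ((n : ℤ) : ℝ) + 1)) - 1 / 4 * (2 / (2 * (((n : ℤ) + 1 : ℤ) : ℝ) + 1)) -
        1 / 4 * (2 / (2 * (((n : ℤ) - 1 : ℤ) : ℝ) + 1))) -
      kap * (1 / 2 * (if (n : ℤ) = 0 then π else 0) -
        1 / 2 * (if (n : ℤ) + 1 = 0 then π else 0)) := by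
    rw [intervalIntegral.integral_sub, intervalIntegral.integral_sub,
      intervalIntegral.integral_sub, intervalIntegral.integral_const_mul,
      intervalIntegral.integral_const_mul, intervalIntegral.integral_const_mul,
      intervalIntegral.integral_const_mul, intervalIntegral.integral_sub,
      intervalIntegral.integral_const_mul, intervalIntegral.integral_const_mul,
      TAUM.int_sin, TAUM.int_sin, TAUM.int_sin, TAUM.int_cos, TAUM.int_cos]
    all_goals first
      | exact hJ _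
      | exact hI _
      | (apply Continuous.intervalIntegrable; fun_prop)
  rw [h2, h3, hs]
  simp only [mul_zero, sin_zero, zero_div, sub_zero, zero_sub]
  have hneg : ∀ R : ℝ, R ≤ 0 → -(-(1 / (2 * (n : ℝ) + 1)) * R) ≤ 0 := by
    intro R hR
    have : 0 ≤ 1 / (2 * (n : ℝ) + 1) := by positivity
    nlinarith
  apply hneg
  rcases Nat.eq_zero_or_pos n with rfl | hn1
  · have hp := Real.pi_pos.ne'
    unfold kap
    push_cast
    norm_num
    field_simp
    norm_num
  · rw [if_neg (by omega), if_neg (by omega)]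
    have h1 : (1 : ℝ) ≤ n := by exact_mod_cast hn1
    push_cast
    have c1 : (0 : ℝ) < 2 * (n : ℝ) + 1 := by positivity
    have c2 : (0 : ℝ) < 2 * ((n : ℝ) + 1) + 1 := by positivity
    have c3 : (0 : ℝ) < 2 * ((n : ℝ) - 1) + 1 := by linarith
    have e : 1 / 2 * (2 / (2 * (n : ℝ) + 1)) - 1 / 4 * (2 / (2 * ((n : ℝ) + 1) + 1)) -
        1 / 4 * (2 / (2 * ((n : ℝ) - 1) + 1)) =
        -(4 / ((2 * (n : ℝ) + 1) * (2 * ((n : ℝ) + 1) + 1) * (2 * ((n : ℝ) - 1) + 1))) := by
      have h1 := c1.ne'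
      have h2 := c2.ne'
      have h3 := c3.ne'
      field_simp
      ring
    rw [e]
    have : 0 ≤ 4 / ((2 * (n : ℝ) + 1) * (2 * ((n : ℝ) + 1) + 1) * (2 * ((n : ℝ) - 1) + 1)) := by
      positivity
    simp only [mul_zero, sub_zero]
    linarith

/-- the integral `∫ Q(cos α) e^{i(2n+1)α}` is a real number `≤ 0` -/
theorem exL (n : ℕ) : ∃ l : ℝ, l ≤ 0 ∧
    ∫ α in (0 : ℝ)..π, ((QF (cos α) : ℝ) : ℂ) * ee (2 * (n : ℤ) + 1) α = (l : ℂ) := by
  refine ⟨_, re_le n, ?_⟩
  have hc : Continuous fun α : ℝ => ((QF (cos α) : ℝ) : ℂ) * ee (2 * (n : ℤ) + 1) α :=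
    (Complex.continuous_ofReal.comp (QQPM.cont_QF.comp continuous_cos)).mul (cont_ee _)
  have e : ∀ α : ℝ, ee (2 * (n : ℤ) + 1) α =
      ((cos ((2 * (n : ℝ) + 1) * α) : ℝ) : ℂ) + ((sin ((2 * (n : ℝ) + 1) * α) : ℝ) : ℂ) *
        Complex.I := by
    intro α
    unfold ee
    rw [mul_comm Complex.I, Complex.exp_mul_I]
    push_cast
    rfl
  apply Complex.ext
  · rw [← re_int hc, Complex.ofReal_re]
    refine intervalIntegral.integral_congr fun α _ => ?_
    show _ = QF (cos α) * cos ((2 * (n : ℝ) + 1) * α)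
    rw [Complex.re_ofReal_mul, e, Complex.add_re, Complex.mul_re, Complex.ofReal_re,
      Complex.ofReal_re, Complex.ofReal_im, Complex.I_re, Complex.I_im]
    ring
  · have hi : IntervalIntegrable (fun α : ℝ => ((QF (cos α) : ℝ) : ℂ) *
        ee (2 * (n : ℤ) + 1) α) volume 0 π := hc.intervalIntegrable 0 π
    have h2 := Complex.imCLM.intervalIntegral_comp_comm hi
    simp only [Complex.imCLM_apply] at h2
    rw [← h2, Complex.ofReal_im]
    refine Eq.trans ?_ (im_zero n)
    refine intervalIntegral.integral_congr fun α _ => ?_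
    show _ = QF (cos α) * sin ((2 * (n : ℝ) + 1) * α)
    rw [Complex.im_ofReal_mul, e, Complex.add_im, Complex.mul_im, Complex.ofReal_im,
      Complex.ofReal_re, Complex.ofReal_im, Complex.I_re, Complex.I_im]
    ring

theorem coefB (m : ℕ) : ∃ μ : ℝ, 0 ≤ μ ∧ (m = 0 → μ = 0) ∧
    ∫ α in (0 : ℝ)..π, ((QF (cos α) : ℝ) : ℂ) * (ee ((2 * m : ℕ) : ℤ) α * Vk (2 * m) α) =
      -(μ : ℂ) := by
  choose l hl hl' using exL
  refine ⟨-∑ n ∈ Finset.range m, 2 * (2 * (n : ℝ) + 1) * l n, ?_, ?_, ?_⟩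
  · rw [neg_nonneg]
    refine Finset.sum_nonpos fun n _ => mul_nonpos_of_nonneg_of_nonpos (by positivity) (hl n)
  · rintro rfl
    simp
  have h1 : ∀ α : ℝ, ((QF (cos α) : ℝ) : ℂ) * (ee ((2 * m : ℕ) : ℤ) α * Vk (2 * m) α) =
      ∑ n ∈ Finset.range m, (2 * (2 * (n : ℂ) + 1)) *
        (((QF (cos α) : ℝ) : ℂ) * ee (2 * (n : ℤ) + 1) α) := by
    intro α
    rw [ee_Vk_even, Finset.mul_sum, Finset.mul_sum]
    refine Finset.sum_congr rfl fun n _ => ?_
    ring
  simp only [h1]
  rw [intervalIntegral.integral_finsetSum]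
  · push_cast
    rw [neg_neg]
    refine Finset.sum_congr rfl fun n _ => ?_
    rw [intervalIntegral.integral_const_mul, hl']
  · intro n _
    exact ((continuous_const).mul ((Complex.continuous_ofReal.comp
      (QQPM.cont_QF.comp continuous_cos)).mul (cont_ee _))).intervalIntegrable _ _

end LPBM

open LPGM LPBM in
theorem specLPB (hHPB : SpecHPB) : SpecLPB := by
  intro M c
  rcases Nat.eq_zero_or_pos M with rfl | hM
  · have h : ∀ t, Bh (hp 0 c) t = 0 := by
      intro t
      simp [Bh, hp]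
    simp [h]
  choose μ hμ hμ0 hμ' using coefB
  have h1 : ∀ t, Bh (hp M c) t * (-(∫ α in (0 : ℝ)..π, QF (cos α) * Ps M (evc c) t α)) =
      hp M (evc c) t * hp M (fun k => (μ (k / 2) : ℂ) * evc c k) t := by
    intro t
    rw [(hHPB M c).2.2.2.2.2.1 t, mode M (evc c) t (fun α => QF (cos α))
      (QQPM.cont_QF.comp continuous_cos), hp_ee M (fun k => (μ (k / 2) : ℂ) * evc c k),
      ← Complex.neg_re, ← Finset.sum_neg_distrib]
    congr 2
    refine Finset.sum_congr rfl fun k _ => ?_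
    rcases Nat.even_or_odd' k with ⟨m, rfl | rfl⟩
    · rw [hμ' m, Nat.mul_div_cancel_left m (by norm_num)]
      ring
    · have h : evc c (2 * m + 1) = 0 := by
        unfold evc
        rw [if_neg (by omega)]
      rw [h]
      simp
  simp only [h1]
  rw [inner M hM]
  refine mul_nonneg pi_pos.le (add_nonneg ?_ (Finset.sum_nonneg fun k _ => ?_))
  · rw [Nat.zero_div, hμ0 0 rfl]
    simp
  · rw [map_mul, Complex.conj_ofReal, mul_left_comm, Complex.mul_conj, ← Complex.ofReal_mul,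
      Complex.ofReal_re]
    exact mul_nonneg (hμ _) (Complex.normSq_nonneg _)

end Pool.Agent.Lib.MP_084b88_gt.CW
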