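import Pool.Agent.Lib.MP_084b88_gt.CW.SpecC

/-!
# MP_084b88_gt, project CW: module LPG
-/

set_option autoImplicit false

open MeasureTheory Set Real Filter Topology
open scoped Pointwise InnerProductSpace

namespace Pool.Agent.Lib.MP_084b88_gt.CW

namespace LPGM

/-- `e^{inα}` -/
noncomputable def ee (n : ℤ) (α : ℝ) : ℂ := Complex.exp (Complex.I * ((n : ℂ) * (α : ℂ)))

theorem ee_mul (a b : ℤ) (α : ℝ) : ee a α * ee b α = ee (a + b) α := by
  unfold ee
  rw [← Complex.exp_add]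
  congr 1
  push_cast
  ring

theorem ee_add (a : ℤ) (s α : ℝ) : ee a (s + α) = ee a s * ee a α := by
  unfold ee
  rw [← Complex.exp_add]
  congr 1
  push_cast
  ring

theorem cont_ee (n : ℤ) : Continuous (ee n) := by
  unfold ee
  fun_prop

theorem ee_nat (k : ℕ) (α : ℝ) : Complex.exp (Complex.I * ((k : ℂ) * (α : ℂ))) = ee k α := by
  unfold ee
  push_cast
  rfl

theorem cos_ee (α : ℝ) : (cos α : ℂ) = (ee 1 α + ee (-1) α) / 2 := by
  unfold ee
  rw [Complex.ofReal_cos, Complex.cos]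
  congr 2
  · congr 1
    push_cast
    ring
  · congr 1
    push_cast
    ring

theorem int_ee (j : ℤ) : ∫ α in (0 : ℝ)..π, ee (2 * j) α = if j = 0 then (π : ℂ) else 0 := by
  unfold ee
  by_cases h : j = 0
  · subst h
    simp
  · rw [if_neg h]
    have hc : Complex.I * (((2 * j : ℤ) : ℂ)) ≠ 0 := by
      refine mul_ne_zero Complex.I_ne_zero ?_
      have : (2 * j : ℤ) ≠ 0 := by omega
      exact_mod_cast this
    have h1 := integral_exp_mul_complex (a := 0) (b := π) hc
    have h2 : ∫ α in (0 : ℝ)..π, Complex.exp (Complex.I * (((2 * j : ℤ) : ℂ) * (α : ℂ))) =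
        ∫ α in (0 : ℝ)..π, Complex.exp (Complex.I * ((2 * j : ℤ) : ℂ) * (α : ℂ)) := by
      refine intervalIntegral.integral_congr fun α _ => ?_
      show Complex.exp _ = Complex.exp _
      congr 1
      ring
    rw [h2, h1]
    have h3 : Complex.exp (Complex.I * ((2 * j : ℤ) : ℂ) * (π : ℂ)) = 1 := by
      rw [Complex.exp_eq_one_iff]
      exact ⟨j, by push_cast; ring⟩
    rw [h3]
    simp

theorem cont_Vk (k : ℕ) : Continuous (Vk k) := by
  unfold Vk
  refine continuous_const.mul (continuous_finsetSum _ fun l _ => ?_)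
  fun_prop

theorem ee_Vk (k : ℕ) (α : ℝ) : ee k α * Vk k α =
    4 * ∑ l ∈ Finset.range (k / 2),
      (((k : ℂ) - 1) / 2 - (l : ℂ)) * ee ((k : ℤ) - (2 * l + 1)) α := by
  unfold Vk
  rw [mul_left_comm, Finset.mul_sum]
  congr 1
  refine Finset.sum_congr rfl fun l _ => ?_
  rw [mul_left_comm]
  congr 1
  have : Complex.exp (-(Complex.I * (((2 * l + 1 : ℕ) : ℂ) * (α : ℂ)))) =
      ee (-(2 * l + 1 : ℤ)) α := by
    unfold ee
    congr 1
    push_cast
    ring
  rw [this, ee_mul]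
  congr 1

theorem ee_Vk_odd (m : ℕ) (α : ℝ) : ee ((2 * m + 1 : ℕ) : ℤ) α * Vk (2 * m + 1) α =
    4 * ∑ n ∈ Finset.range m, ((n : ℂ) + 1) * ee (2 * ((n : ℤ) + 1)) α := by
  rw [ee_Vk]
  congr 1
  have h : (2 * m + 1) / 2 = m := by omega
  rw [h, ← Finset.sum_range_reflect]
  refine Finset.sum_congr rfl fun l hl => ?_
  rw [Finset.mem_range] at hl
  have h1 : ((m - 1 - l : ℕ) : ℂ) = m - 1 - l := by
    rw [Nat.cast_sub (by omega), Nat.cast_sub (by omega)]
    simp
  have h2 : ((m - 1 - l : ℕ) : ℤ) = m - 1 - l := by omega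
  rw [h1, h2]
  congr 1
  · push_cast
    ring
  · congr 1
    push_cast
    ring

theorem ee_Vk_even (m : ℕ) (α : ℝ) : ee ((2 * m : ℕ) : ℤ) α * Vk (2 * m) α =
    2 * ∑ n ∈ Finset.range m, (2 * (n : ℂ) + 1) * ee (2 * (n : ℤ) + 1) α := by
  rw [ee_Vk]
  have h : (2 * m) / 2 = m := by omega
  rw [h, ← Finset.sum_range_reflect, Finset.mul_sum, Finset.mul_sum]
  refine Finset.sum_congr rfl fun l hl => ?_
  rw [Finset.mem_range] at hl
  have h1 : ((m - 1 - l : ℕ) : ℂ) = m - 1 - l := by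
    rw [Nat.cast_sub (by omega), Nat.cast_sub (by omega)]
    simp
  have h2 : ((m - 1 - l : ℕ) : ℤ) = m - 1 - l := by omega
  rw [h1, h2]
  have h3 : ((2 * m : ℕ) : ℤ) - (2 * ((m : ℤ) - 1 - l) + 1) = 2 * l + 1 := by push_cast; ring
  rw [h3]
  push_cast
  ring

theorem cos_sq_ee (j : ℤ) (α : ℝ) : ((cos α ^ 2 : ℝ) : ℂ) * ee (2 * j) α =
    1 / 2 * ee (2 * j) α + 1 / 4 * ee (2 * (j + 1)) α + 1 / 4 * ee (2 * (j - 1)) α := by
  rw [Complex.ofReal_pow, cos_ee]
  have h1 : ee (2 * (j + 1)) α = ee 1 α * ee 1 α * ee (2 * j) α := by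
    rw [ee_mul, ee_mul]
    congr 1
    ring
  have h2 : ee (2 * (j - 1)) α = ee (-1) α * ee (-1) α * ee (2 * j) α := by
    rw [ee_mul, ee_mul]
    congr 1
    ring
  have h3 : ee 1 α * ee (-1) α = 1 := by
    rw [ee_mul]
    unfold ee
    simp
  rw [h1, h2]
  linear_combination (1 / 2 * ee (2 * j) α) * h3

theorem int_cos_sq (j : ℤ) : ∫ α in (0 : ℝ)..π, ((cos α ^ 2 : ℝ) : ℂ) * ee (2 * j) α =
    1 / 2 * (if j = 0 then (π : ℂ) else 0) + 1 / 4 * (if j + 1 = 0 then (π : ℂ) else 0) +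
      1 / 4 * (if j - 1 = 0 then (π : ℂ) else 0) := by
  have hI : ∀ (c : ℂ) (n : ℤ), IntervalIntegrable (fun α => c * ee n α) volume 0 π := fun c n =>
    (continuous_const.mul (cont_ee n)).intervalIntegrable _ _
  simp only [cos_sq_ee]
  rw [intervalIntegral.integral_add ((hI _ _).add (hI _ _)) (hI _ _),
    intervalIntegral.integral_add (hI _ _) (hI _ _), intervalIntegral.integral_const_mul,
    intervalIntegral.integral_const_mul, intervalIntegral.integral_const_mul, int_ee, int_ee,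
    int_ee]

/-- one mode -/
theorem mode (M : ℕ) (c : ℕ → ℂ) (t : ℝ) (w : ℝ → ℝ) (hw : Continuous w) :
    ∫ α in (0 : ℝ)..π, w α * Ps M c t α =
      (∑ k ∈ Finset.range M, c k * ee k t *
        ∫ α in (0 : ℝ)..π, (w α : ℂ) * (ee k α * Vk k α)).re := by
  have hc : ∀ k : ℕ, Continuous fun α : ℝ => (w α : ℂ) * (ee k α * Vk k α) := fun k =>
    (Complex.continuous_ofReal.comp hw).mul ((cont_ee k).mul (cont_Vk k))
  have h1 : ∀ α, w α * Ps M c t α = (∑ k ∈ Finset.range M, c k * ee k t *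
      ((w α : ℂ) * (ee k α * Vk k α))).re := by
    intro α
    unfold Ps
    rw [← Complex.re_ofReal_mul, Finset.mul_sum]
    congr 1
    refine Finset.sum_congr rfl fun k _ => ?_
    rw [ee_nat, ee_add]
    ring
  simp only [h1]
  have hi : IntervalIntegrable (fun α : ℝ => ∑ k ∈ Finset.range M, c k * ee k t *
      ((w α : ℂ) * (ee k α * Vk k α))) volume 0 π :=
    (continuous_finsetSum _ fun k _ => continuous_const.mul (hc k)).intervalIntegrable _ _
  have h2 := Complex.reCLM.intervalIntegral_comp_comm hi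
  simp only [Complex.reCLM_apply] at h2
  rw [h2]
  congr 1
  rw [intervalIntegral.integral_finsetSum]
  · refine Finset.sum_congr rfl fun k _ => ?_
    rw [intervalIntegral.integral_const_mul]
  · intro k _
    exact (continuous_const.mul (hc k)).intervalIntegrable _ _

theorem coef (m : ℕ) : ∫ α in (0 : ℝ)..π, ((cos α ^ 2 : ℝ) : ℂ) *
    (ee ((2 * m + 1 : ℕ) : ℤ) α * Vk (2 * m + 1) α) = if m = 0 then 0 else (π : ℂ) := by
  have h1 : ∀ α : ℝ, ((cos α ^ 2 : ℝ) : ℂ) * (ee ((2 * m + 1 : ℕ) : ℤ) α * Vk (2 * m + 1) α) =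
      ∑ n ∈ Finset.range m, (4 * ((n : ℂ) + 1)) *
        (((cos α ^ 2 : ℝ) : ℂ) * ee (2 * ((n : ℤ) + 1)) α) := by
    intro α
    rw [ee_Vk_odd, Finset.mul_sum, Finset.mul_sum]
    refine Finset.sum_congr rfl fun n _ => ?_
    ring
  simp only [h1]
  rw [intervalIntegral.integral_finsetSum]
  · have h2 : ∀ n ∈ Finset.range m, ∫ α in (0 : ℝ)..π, (4 * ((n : ℂ) + 1)) *
        (((cos α ^ 2 : ℝ) : ℂ) * ee (2 * ((n : ℤ) + 1)) α) = if n = 0 then (π : ℂ) else 0 := by
      intro n _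
      rw [intervalIntegral.integral_const_mul, int_cos_sq]
      rw [if_neg (by omega), if_neg (by omega)]
      by_cases hn : n = 0
      · subst hn
        simp
      · rw [if_neg (by omega), if_neg hn]
        simp
    rw [Finset.sum_congr rfl h2, Finset.sum_ite_eq']
    by_cases hm : m = 0
    · subst hm; simp
    · rw [if_neg hm, if_pos (Finset.mem_range.2 (by omega))]
  · intro n _
    exact ((continuous_const).mul ((Complex.continuous_ofReal.comp (continuous_cos.pow 2)).mul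
      (cont_ee _))).intervalIntegrable _ _

end LPGM

open LPGM in
theorem specLPG : SpecLPG := by
  intro M c t
  rw [mode M (odc c) t (fun α => cos α ^ 2) (continuous_cos.pow 2)]
  unfold hp
  rw [← Complex.re_ofReal_mul, Finset.mul_sum]
  congr 1
  refine Finset.sum_congr rfl fun k _ => ?_
  rw [ee_nat]
  rcases Nat.even_or_odd' k with ⟨m, rfl | rfl⟩
  · have h : odc c (2 * m) = 0 := by
      unfold odc
      rw [if_neg (by omega)]
    simp only [h, zero_mul, ite_self, mul_zero]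
  · rw [coef]
    by_cases hm : m = 0
    · subst hm
      simp
    · have h3 : 3 ≤ 2 * m + 1 := by omega
      simp only [hm, h3, if_true, if_false]
      ring

end Pool.Agent.Lib.MP_084b88_gt.CW
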