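import Pool.Agent.Lib.MP_084b88_gt.CW.SpecC

/-!
# MP_084b88_gt, project CW: module ORB (orthogonality, all modes; copy of ORT)
-/

set_option autoImplicit false

open MeasureTheory Set Real Filter Topology
open scoped Pointwise InnerProductSpace

namespace Pool.Agent.Lib.MP_084b88_gt.CW

namespace ORBM

/-- `∫_0^{2π} e^{ijφ} dφ = 0` for `j ≠ 0`. -/
theorem int_exp (j : ℤ) (hj : j ≠ 0) :
    ∫ φ in (0 : ℝ)..(2 * π), Complex.exp (Complex.I * ((j : ℂ) * (φ : ℂ))) = 0 := by
  have hc : (Complex.I * (j : ℂ)) ≠ 0 :=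
    mul_ne_zero Complex.I_ne_zero (Int.cast_ne_zero.2 hj)
  have e : (fun φ : ℝ => Complex.exp (Complex.I * ((j : ℂ) * (φ : ℂ)))) =
      fun φ : ℝ => Complex.exp ((Complex.I * (j : ℂ)) * (φ : ℂ)) := by
    funext φ; rw [mul_assoc]
  rw [e, integral_exp_mul_complex hc]
  have h1 : Complex.exp (Complex.I * (j : ℂ) * ((2 * π : ℝ) : ℂ)) = 1 := by
    rw [Complex.exp_eq_one_iff]
    exact ⟨j, by push_cast; ring⟩
  rw [h1]
  simp

/-- one mode -/
noncomputable def md (z : ℂ) (k : ℕ) (φ : ℝ) : ℝ :=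
  (z * Complex.exp (Complex.I * ((k : ℂ) * (φ : ℂ)))).re

theorem md_cont (z : ℂ) (k : ℕ) : Continuous (md z k) := by
  unfold md
  fun_prop

theorem md_zero (k : ℕ) (φ : ℝ) : md 0 k φ = 0 := by
  unfold md
  simp

theorem re_mul_re (a b : ℂ) : a.re * b.re = ((1 / 2 : ℂ) * (a * b + a * (starRingEnd ℂ) b)).re := by
  simp only [Complex.mul_re, Complex.add_re, Complex.mul_im, Complex.add_im, Complex.conj_re,
    Complex.conj_im]
  norm_num
  ring

theorem conj_exp (k : ℕ) (φ : ℝ) :
    (starRingEnd ℂ) (Complex.exp (Complex.I * ((k : ℂ) * (φ : ℂ)))) =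
      Complex.exp (Complex.I * (((-(k : ℤ) : ℤ) : ℂ) * (φ : ℂ))) := by
  rw [← Complex.exp_conj]
  congr 1
  simp only [map_mul, Complex.conj_I, Complex.conj_ofReal, map_natCast]
  push_cast
  ring

theorem int_md (z w : ℂ) (k l : ℕ) (hkl : 0 < k + l) :
    ∫ φ in (0 : ℝ)..(2 * π), md z k φ * md w l φ =
      if k = l then π * (z * (starRingEnd ℂ) w).re else 0 := by
  have e : ∀ φ : ℝ, md z k φ * md w l φ =
      ((1 / 2 : ℂ) * (z * w * Complex.exp (Complex.I * ((((k : ℤ) + (l : ℤ) : ℤ) : ℂ) * (φ : ℂ)))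
        + z * (starRingEnd ℂ) w *
          Complex.exp (Complex.I * ((((k : ℤ) + (-(l : ℤ)) : ℤ) : ℂ) * (φ : ℂ))))).re := by
    intro φ
    unfold md
    rw [re_mul_re]
    congr 1
    rw [map_mul, conj_exp]
    have e1 : Complex.exp (Complex.I * ((((k : ℤ) + (l : ℤ) : ℤ) : ℂ) * (φ : ℂ))) =
        Complex.exp (Complex.I * ((k : ℂ) * (φ : ℂ))) *
        Complex.exp (Complex.I * ((l : ℂ) * (φ : ℂ))) := by
      rw [← Complex.exp_add]; congr 1; push_cast; ring
    have e2 : Complex.exp (Complex.I * ((((k : ℤ) + (-(l : ℤ)) : ℤ) : ℂ) * (φ : ℂ))) =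
        Complex.exp (Complex.I * ((k : ℂ) * (φ : ℂ))) *
        Complex.exp (Complex.I * (((-(l : ℤ) : ℤ) : ℂ) * (φ : ℂ))) := by
      rw [← Complex.exp_add]; congr 1; push_cast; ring
    rw [e1, e2]
    ring
  simp only [e]
  have hre : ∀ f : ℝ → ℂ, Continuous f →
      ∫ φ in (0 : ℝ)..(2 * π), (f φ).re = (∫ φ in (0 : ℝ)..(2 * π), f φ).re := by
    intro f hf
    have h := Complex.reCLM.intervalIntegral_comp_comm (hf.intervalIntegrable (μ := volume) 0 (2 * π))
    simpa using h
  rw [hre _ (by fun_prop)]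
  rw [intervalIntegral.integral_const_mul, intervalIntegral.integral_add
    (Continuous.intervalIntegrable (by fun_prop) _ _)
    (Continuous.intervalIntegrable (by fun_prop) _ _),
    intervalIntegral.integral_const_mul, intervalIntegral.integral_const_mul,
    int_exp _ (by omega)]
  split_ifs with h
  · subst h
    have e3 : (((k : ℤ) + (-(k : ℤ)) : ℤ) : ℂ) = 0 := by
      push_cast; ring
    simp only [e3, zero_mul, mul_zero, Complex.exp_zero, intervalIntegral.integral_const, sub_zero,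
      zero_add]
    have e4 : (1 / 2 : ℂ) * (z * (starRingEnd ℂ) w * ((2 * π) • (1 : ℂ))) =
        ((π : ℝ) : ℂ) * (z * (starRingEnd ℂ) w) := by
      rw [Complex.real_smul]; push_cast; ring
    rw [e4, Complex.re_ofReal_mul]
  · rw [int_exp _ (by omega)]
    simp

end ORBM

open ORBM in
theorem specORB : SpecORB := by
  intro M z hz
  have e : ∀ φ : ℝ, ((∑ k ∈ Finset.range M, z k *
      Complex.exp (Complex.I * ((k : ℂ) * (φ : ℂ)))).re) ^ 2 =
      ∑ m ∈ Finset.range M, ∑ l ∈ Finset.range M, md (z m) m φ * md (z l) l φ := by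
    intro φ
    rw [Complex.re_sum, sq, Finset.sum_mul_sum]
    rfl
  have hint : ∀ m l : ℕ, ∫ φ in (0 : ℝ)..(2 * π), md (z m) m φ * md (z l) l φ =
      if m = l then π * (z m * (starRingEnd ℂ) (z l)).re else 0 := by
    intro m l
    rcases Nat.eq_zero_or_pos (m + l) with h | h
    · obtain ⟨rfl, rfl⟩ : m = 0 ∧ l = 0 := by omega
      rw [hz]
      simp [md_zero]
    · exact int_md _ _ _ _ h
  simp only [e]
  rw [intervalIntegral.integral_finsetSum]
  · rw [Finset.mul_sum]
    apply Finset.sum_congr rfl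
    intro m hm
    rw [intervalIntegral.integral_finsetSum]
    · simp only [hint]
      rw [Finset.sum_ite_eq, if_pos hm]
      rw [Complex.mul_conj]
      rw [Complex.ofReal_re, Complex.normSq_eq_norm_sq]
    · intro l _
      exact ((md_cont _ _).mul (md_cont _ _)).intervalIntegrable _ _
  · intro m _
    apply Continuous.intervalIntegrable
    exact continuous_finsetSum _ (fun l _ => (md_cont _ _).mul (md_cont _ _))

end Pool.Agent.Lib.MP_084b88_gt.CW
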