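import Pool.Agent.Lib.MP_084b88_gt.CW.SpecD

/-!
# MP_084b88_gt, project CW, module PNE: the planar inequality averaged over all frames
-/

set_option autoImplicit false

open MeasureTheory Set Real Filter Topology
open scoped Pointwise InnerProductSpace

namespace Pool.Agent.Lib.MP_084b88_gt.CW

namespace PNEM

/-- averaging over rotations in the projection plane -/
theorem avg_rot (μ : Measure O3) (hμ : HaarO μ) (f : O3 → ℝ) (hf : Measurable f) (C : ℝ)
    (hC : ∀ R, |f R| ≤ C) :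
    Integrable (fun R => ∫ t in (0 : ℝ)..(2 * π), f (R * rot t)) μ ∧
      ∫ R, (∫ t in (0 : ℝ)..(2 * π), f (R * rot t)) ∂μ = 2 * π * ∫ R, f R ∂μ := by
  have := hμ.1
  have hpi : (0 : ℝ) ≤ 2 * π := by positivity
  have hmap : Measurable (fun a : O3 × ℝ => a.1 * rot a.2) :=
    (continuous_fst.mul (continuous_rot.comp continuous_snd)).measurable
  have hint2 : Integrable (Function.uncurry fun (R : O3) (θ : ℝ) => f (R * rot θ))
      (μ.prod (volume.restrict (Ioc (0 : ℝ) (2 * π)))) := by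
    have hmeas : AEStronglyMeasurable (Function.uncurry fun (R : O3) (θ : ℝ) => f (R * rot θ))
        (μ.prod (volume.restrict (Ioc (0 : ℝ) (2 * π)))) := (hf.comp hmap).aestronglyMeasurable
    exact Integrable.mono' (g := fun _ => C) (integrable_const C) hmeas
      (Eventually.of_forall fun a => hC _)
  have h2 : ∀ θ : ℝ, ∫ R, f (R * rot θ) ∂μ = ∫ R, f R ∂μ := by
    intro θ
    have hmp := hμ.2.1 (rot θ)
    have h4 := integral_map (μ := μ) (φ := fun R : O3 => R * rot θ)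
      hmp.measurable.aemeasurable (f := f) hf.aestronglyMeasurable
    rw [hmp.map_eq] at h4
    exact h4.symm
  have e : ∀ R : O3, ∫ t in (0 : ℝ)..(2 * π), f (R * rot t) =
      ∫ t, f (R * rot t) ∂(volume.restrict (Ioc (0 : ℝ) (2 * π))) := fun R =>
    intervalIntegral.integral_of_le hpi
  refine ⟨?_, ?_⟩
  · simp_rw [e]
    exact hint2.integral_prod_left
  · simp_rw [e]
    rw [integral_integral_swap hint2]
    simp_rw [h2]
    rw [integral_const]
    simp only [measureReal_restrict_apply MeasurableSet.univ, univ_inter,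
      Real.volume_real_Ioc_of_le hpi, smul_eq_mul, sub_zero]

/-- continuous functions on `O3` are bounded -/
theorem bdd_of_cont (f : O3 → ℝ) (hf : Continuous f) : ∃ C : ℝ, ∀ R, |f R| ≤ C := by
  obtain ⟨C, hC⟩ := (isCompact_univ : IsCompact (univ : Set O3)).exists_bound_of_continuousOn
    (f := f) hf.continuousOn
  exact ⟨C, fun R => hC R (mem_univ _)⟩

end PNEM

open PNEM in
set_option maxHeartbeats 1000000 in
theorem specPNE (hPNP : SpecPNP) (hMEA : SpecMEA) (hMEB : SpecMEB) : SpecPNE := by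
  intro μ hμ K hK hint O b δ ε l σ hb hδ hε hl hσ hδε hεl hσ2 hB hG
  have := hμ.1
  obtain ⟨hCC, mA, ⟨CA, hCA⟩, hsup, cW, _, mq, hq, hrot⟩ := hMEA K hK hint
  obtain ⟨cM, _, hMrot, mmf, hmf, hmfrot, cG, hGrot⟩ := hMEB K hK hint
  have hpi := pi_pos
  -- the five functions
  have cO : Continuous (fun R : O3 => mid (pr R K) 0 - ⟪col R 0, O⟫_ℝ) :=
    cM.sub ((continuous_col 0).inner continuous_const)
  have c1 : Continuous (fun R : O3 => (wid (pr R K) 0 / 2 - b) ^ 2) :=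
    ((cW.div_const 2).sub continuous_const).pow 2
  have c2 : Continuous (fun R : O3 => g3f (mid (pr R K)) 0 ^ 2) := cG.pow 2
  have c3 : Continuous (fun R : O3 => (mid (pr R K) 0 - ⟪col R 0, O⟫_ℝ) ^ 2) := cO.pow 2
  have m4 : Measurable (fun R : O3 => qf (pr R K) 0 - kap * area (pr R K)) :=
    mq.sub (mA.const_mul kap)
  have m5 : Measurable (fun R : O3 => (mid (pr R K) 0 - ⟪col R 0, O⟫_ℝ) / b * mf (pr R K) 0) :=
    (cO.measurable.div_const b).mul mmf
  obtain ⟨C1, hC1⟩ := bdd_of_cont _ c1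
  obtain ⟨C2, hC2⟩ := bdd_of_cont _ c2
  obtain ⟨C3, hC3⟩ := bdd_of_cont _ c3
  obtain ⟨C0, hC0⟩ := bdd_of_cont _ (cO.div_const b)
  have hkap : 0 ≤ kap := by unfold kap; positivity
  have b4 : ∀ R : O3, |qf (pr R K) 0 - kap * area (pr R K)| ≤ CA + kap * CA := by
    intro R
    have h1 := hq R
    have h2 := hCA R
    have h3 : kap * area (pr R K) ≤ kap * CA := mul_le_mul_of_nonneg_left h2 hkap
    have h4 : 0 ≤ area (pr R K) := h1.1.trans h1.2
    have h5 : 0 ≤ kap * area (pr R K) := mul_nonneg hkap h4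
    rw [abs_le]
    constructor <;> linarith [h1.1, h1.2]
  have b5 : ∀ R : O3, |(mid (pr R K) 0 - ⟪col R 0, O⟫_ℝ) / b * mf (pr R K) 0| ≤ C0 * CA := by
    intro R
    rw [abs_mul]
    exact mul_le_mul (hC0 R) ((hmf R).trans (hCA R)) (abs_nonneg _) ((abs_nonneg _).trans (hC0 R))
  obtain ⟨i1, a1⟩ := avg_rot μ hμ _ c1.measurable C1 hC1
  obtain ⟨i2, a2⟩ := avg_rot μ hμ _ c2.measurable C2 hC2
  obtain ⟨i3, a3⟩ := avg_rot μ hμ _ c3.measurable C3 hC3
  obtain ⟨i4, a4⟩ := avg_rot μ hμ _ m4 _ b4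
  obtain ⟨i5, a5⟩ := avg_rot μ hμ _ m5 _ b5
  -- the planar inequality for every frame
  have key : ∀ R : O3,
      -((ε + l * σ) * (2 * π * (∫ t in (0 : ℝ)..(2 * π), (wid (pr (R * rot t) K) 0 / 2 - b) ^ 2) +
        8 * π * ∫ t in (0 : ℝ)..(2 * π), g3f (mid (pr (R * rot t) K)) 0 ^ 2)) +
      (∫ t in (0 : ℝ)..(2 * π), g3f (mid (pr (R * rot t) K)) 0 ^ 2) ^ 2 / (8 * π * b ^ 2) +
      l * π * ((1 - δ / 2) * (∫ t in (0 : ℝ)..(2 * π), g3f (mid (pr (R * rot t) K)) 0 ^ 2) -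
        δ / 2 * ∫ t in (0 : ℝ)..(2 * π), (mid (pr (R * rot t) K) 0 -
          ⟪col (R * rot t) 0, O⟫_ℝ) ^ 2) ≤
    (∫ t in (0 : ℝ)..(2 * π), (qf (pr (R * rot t) K) 0 - kap * area (pr (R * rot t) K))) -
      l * ∫ t in (0 : ℝ)..(2 * π), (mid (pr (R * rot t) K) 0 -
          ⟪col (R * rot t) 0, O⟫_ℝ) / b * mf (pr (R * rot t) K) 0 := by
    intro R
    have h := hPNP (pr R K) (cd R O) b δ ε l σ (hCC R) hb hδ hε hl hσ hδε hεl hσ2
      (fun t => by rw [(hrot R t).1]; exact hB _)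
      (fun t => by rw [hMrot, dotu_cd]; exact hG _)
    have e1 : (fun t => (wid (pr R K) t / 2 - b) ^ 2) =
        fun t => (wid (pr (R * rot t) K) 0 / 2 - b) ^ 2 := by
      funext t; rw [(hrot R t).1]
    have e2 : (fun t => g3f (mid (pr R K)) t ^ 2) =
        fun t => g3f (mid (pr (R * rot t) K)) 0 ^ 2 := by
      funext t; rw [hGrot]
    have e3 : (fun t => (mid (pr R K) t - dotu t (cd R O)) ^ 2) =
        fun t => (mid (pr (R * rot t) K) 0 - ⟪col (R * rot t) 0, O⟫_ℝ) ^ 2 := by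
      funext t; rw [hMrot, dotu_cd]
    have e4 : (fun t => (qf (pr R K) t - kap * area (pr R K))) =
        fun t => (qf (pr (R * rot t) K) 0 - kap * area (pr (R * rot t) K)) := by
      funext t; rw [(hrot R t).2.1, (hrot R t).2.2]
    have e5 : (fun t => (mid (pr R K) t - dotu t (cd R O)) / b * mf (pr R K) t) =
        fun t => (mid (pr (R * rot t) K) 0 - ⟪col (R * rot t) 0, O⟫_ℝ) / b *
          mf (pr (R * rot t) K) 0 := by
      funext t; rw [hMrot, dotu_cd, hmfrot]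
    rw [e1, e2, e3, e4, e5] at h
    exact h
  set F1 : O3 → ℝ := fun R => ∫ t in (0 : ℝ)..(2 * π), (wid (pr (R * rot t) K) 0 / 2 - b) ^ 2
    with hF1
  set F2 : O3 → ℝ := fun R => ∫ t in (0 : ℝ)..(2 * π), g3f (mid (pr (R * rot t) K)) 0 ^ 2 with hF2
  set F3 : O3 → ℝ := fun R => ∫ t in (0 : ℝ)..(2 * π), (mid (pr (R * rot t) K) 0 -
          ⟪col (R * rot t) 0, O⟫_ℝ) ^ 2 with hF3
  set F4 : O3 → ℝ := fun R => ∫ t in (0 : ℝ)..(2 * π),
    (qf (pr (R * rot t) K) 0 - kap * area (pr (R * rot t) K)) with hF4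
  set F5 : O3 → ℝ := fun R => ∫ t in (0 : ℝ)..(2 * π), (mid (pr (R * rot t) K) 0 -
          ⟪col (R * rot t) 0, O⟫_ℝ) / b * mf (pr (R * rot t) K) 0 with hF5
  have key' : ∀ R : O3, -((ε + l * σ) * (2 * π * F1 R + 8 * π * F2 R)) +
      F2 R ^ 2 / (8 * π * b ^ 2) + l * π * ((1 - δ / 2) * F2 R - δ / 2 * F3 R) ≤
      F4 R - l * F5 R := key
  set E1 := ∫ R, (wid (pr R K) 0 / 2 - b) ^ 2 ∂μ with hE1
  set E2 := ∫ R, g3f (mid (pr R K)) 0 ^ 2 ∂μ with hE2
  set E3 := ∫ R, (mid (pr R K) 0 - ⟪col R 0, O⟫_ℝ) ^ 2 ∂μ with hE3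
  set E4 := ∫ R, (qf (pr R K) 0 - kap * area (pr R K)) ∂μ with hE4
  set E5 := ∫ R, (mid (pr R K) 0 - ⟪col R 0, O⟫_ℝ) / b * mf (pr R K) 0 ∂μ with hE5
  have a1' : ∫ R, F1 R ∂μ = 2 * π * E1 := a1
  have a2' : ∫ R, F2 R ∂μ = 2 * π * E2 := a2
  have a3' : ∫ R, F3 R ∂μ = 2 * π * E3 := a3
  have a4' : ∫ R, F4 R ∂μ = 2 * π * E4 := a4
  have a5' : ∫ R, F5 R ∂μ = 2 * π * E5 := a5
  have i1' : Integrable F1 μ := i1
  have i2' : Integrable F2 μ := i2
  have i3' : Integrable F3 μ := i3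
  have i4' : Integrable F4 μ := i4
  have i5' : Integrable F5 μ := i5
  have hD : 0 < 8 * π * b ^ 2 := by positivity
  have hlin : ∀ R : O3, 0 ≤ (F4 R + (-l) * F5 R) + ((ε + l * σ) * (2 * π) * F1 R +
      (((ε + l * σ) * (8 * π) - 2 * (2 * π * E2) / (8 * π * b ^ 2) - l * π * (1 - δ / 2)) * F2 R +
      (l * π * (δ / 2) * F3 R + (2 * π * E2) ^ 2 / (8 * π * b ^ 2)))) := by
    intro R
    have h1 := key' R
    have h2 : (2 * (2 * π * E2) * F2 R - (2 * π * E2) ^ 2) / (8 * π * b ^ 2) ≤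
        F2 R ^ 2 / (8 * π * b ^ 2) := by
      apply div_le_div_of_nonneg_right _ hD.le
      nlinarith [sq_nonneg (F2 R - 2 * π * E2)]
    have e : (F4 R + (-l) * F5 R) + ((ε + l * σ) * (2 * π) * F1 R +
      (((ε + l * σ) * (8 * π) - 2 * (2 * π * E2) / (8 * π * b ^ 2) - l * π * (1 - δ / 2)) * F2 R +
      (l * π * (δ / 2) * F3 R + (2 * π * E2) ^ 2 / (8 * π * b ^ 2)))) =
      (F4 R - l * F5 R) - (-((ε + l * σ) * (2 * π * F1 R + 8 * π * F2 R)) +
      (2 * (2 * π * E2) * F2 R - (2 * π * E2) ^ 2) / (8 * π * b ^ 2) +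
      l * π * ((1 - δ / 2) * F2 R - δ / 2 * F3 R)) := by
      ring
    rw [e]
    linarith
  have hI : 0 ≤ ∫ R, ((F4 R + (-l) * F5 R) + ((ε + l * σ) * (2 * π) * F1 R +
      (((ε + l * σ) * (8 * π) - 2 * (2 * π * E2) / (8 * π * b ^ 2) - l * π * (1 - δ / 2)) * F2 R +
      (l * π * (δ / 2) * F3 R + (2 * π * E2) ^ 2 / (8 * π * b ^ 2))))) ∂μ :=
    integral_nonneg hlin
  have j5 : Integrable (fun R => (-l) * F5 R) μ := i5'.const_mul _
  have j45 : Integrable (fun R => F4 R + (-l) * F5 R) μ := i4'.add j5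
  have j3 : Integrable (fun R => l * π * (δ / 2) * F3 R) μ := i3'.const_mul _
  have j30 : Integrable (fun R => l * π * (δ / 2) * F3 R +
      (2 * π * E2) ^ 2 / (8 * π * b ^ 2)) μ := j3.add (integrable_const _)
  have j2 : Integrable (fun R => ((ε + l * σ) * (8 * π) -
      2 * (2 * π * E2) / (8 * π * b ^ 2) - l * π * (1 - δ / 2)) * F2 R) μ := i2'.const_mul _
  have j23 : Integrable (fun R => ((ε + l * σ) * (8 * π) -
      2 * (2 * π * E2) / (8 * π * b ^ 2) - l * π * (1 - δ / 2)) * F2 R +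
      (l * π * (δ / 2) * F3 R + (2 * π * E2) ^ 2 / (8 * π * b ^ 2))) μ := j2.add j30
  have j1 : Integrable (fun R => (ε + l * σ) * (2 * π) * F1 R) μ := i1'.const_mul _
  have j123 : Integrable (fun R => (ε + l * σ) * (2 * π) * F1 R +
      (((ε + l * σ) * (8 * π) - 2 * (2 * π * E2) / (8 * π * b ^ 2) - l * π * (1 - δ / 2)) * F2 R +
      (l * π * (δ / 2) * F3 R + (2 * π * E2) ^ 2 / (8 * π * b ^ 2)))) μ := j1.add j23
  rw [integral_add j45 j123, integral_add i4' j5, integral_add j1 j23, integral_add j2 j30,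
    integral_add j3 (integrable_const _),
    integral_const_mul, integral_const_mul, integral_const_mul, integral_const_mul,
    a1', a2', a3', a4', a5', integral_const] at hI
  simp only [probReal_univ, smul_eq_mul, one_mul] at hI
  have e3 : (2 * π * E2) ^ 2 / (8 * π * b ^ 2) = 2 * π * (E2 ^ 2 / (4 * b ^ 2)) := by
    field_simp
    ring
  have e4 : 2 * (2 * π * E2) / (8 * π * b ^ 2) * (2 * π * E2) = 2 * (2 * π * (E2 ^ 2 / (4 * b ^ 2))) := by
    field_simp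
    ring
  have e5 : 0 ≤ 2 * π * ((E4 - l * E5) - (-((ε + l * σ) * (2 * π * E1 + 8 * π * E2)) +
      E2 ^ 2 / (4 * b ^ 2) + l * π * ((1 - δ / 2) * E2 - δ / 2 * E3))) := by
    rw [e3] at hI
    refine hI.trans (le_of_eq ?_)
    linear_combination -e4
  have e6 := nonneg_of_mul_nonneg_right e5 (by positivity)
  linarith

end Pool.Agent.Lib.MP_084b88_gt.CW
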