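import Pool.Agent.Lib.MP_084b88_gt.CW.SpecC

/-!
# MP_084b88_gt, project CW, module PSB: Parseval for `Ps` with a weight
-/

set_option autoImplicit false

open MeasureTheory Set Real Filter Topology
open scoped Pointwise InnerProductSpace

namespace Pool.Agent.Lib.MP_084b88_gt.CW

namespace PSBM

theorem contV (k : ℕ) : Continuous (Vk k) := by unfold Vk; fun_prop

/-- the coefficients for fixed `α` -/
noncomputable def z (c : ℕ → ℂ) (α : ℝ) (k : ℕ) : ℂ := c k * Vk k α

/-- the trigonometric polynomial for fixed `α` -/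
noncomputable def T (M : ℕ) (c : ℕ → ℂ) (α φ : ℝ) : ℝ :=
  ((∑ k ∈ Finset.range M, z c α k *
    Complex.exp (Complex.I * ((k : ℂ) * (φ : ℂ)))).re) ^ 2

theorem Ps_sq (M : ℕ) (c : ℕ → ℂ) (t α : ℝ) : Ps M c t α ^ 2 = T M c α (t + α) := by
  unfold Ps T z
  congr 2
  apply Finset.sum_congr rfl
  intro m _
  ring

theorem T_per (M : ℕ) (c : ℕ → ℂ) (α : ℝ) : Function.Periodic (T M c α) (2 * π) := by
  intro φ
  unfold T
  congr 2
  apply Finset.sum_congr rfl
  intro k _
  congr 1
  have h : Complex.I * ((k : ℂ) * ((φ + 2 * π : ℝ) : ℂ)) =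
      Complex.I * ((k : ℂ) * (φ : ℂ)) + (k : ℂ) * (2 * π * Complex.I) := by
    push_cast; ring
  rw [h, Complex.exp_add, Complex.exp_nat_mul_two_pi_mul_I, mul_one]

theorem inner_int (hORB : SpecORB) (M : ℕ) (c : ℕ → ℂ) (α : ℝ) :
    ∫ t in (0 : ℝ)..(2 * π), Ps M c t α ^ 2 =
      π * ∑ k ∈ Finset.range M, ‖c k‖ ^ 2 * ‖Vk k α‖ ^ 2 := by
  have h1 : ∫ t in (0 : ℝ)..(2 * π), Ps M c t α ^ 2 =
      ∫ t in (0 : ℝ)..(2 * π), T M c α (t + α) := by
    apply intervalIntegral.integral_congr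
    intro t _
    exact Ps_sq M c t α
  rw [h1, intervalIntegral.integral_comp_add_right (fun x => T M c α x)]
  have h2 := (T_per M c α).intervalIntegral_add_eq (0 + α) 0
  have h3 : (2 * π + α) = (0 + α) + 2 * π := by ring
  rw [h3, h2, zero_add]
  have h4 := hORB M (z c α) (by simp [z, Vk])
  unfold T
  rw [h4]
  congr 1
  apply Finset.sum_congr rfl
  intro m _
  unfold z
  rw [norm_mul, mul_pow]

end PSBM

open PSBM in
theorem specPSB (hORB : SpecORB) (hHPB : SpecHPB) : SpecPSB := by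
  intro M c w hw
  obtain ⟨-, -, -, -, -, -, -, hpc, -⟩ := hHPB M c
  have hcont : Continuous (fun x : ℝ × ℝ => Ps M c x.1 x.2 ^ 2 * w x.2) :=
    (hpc.pow 2).mul (hw.comp continuous_snd)
  have hswap : ∫ t in (0 : ℝ)..(2 * π), ∫ α in (0 : ℝ)..π, Ps M c t α ^ 2 * w α =
      ∫ α in (0 : ℝ)..π, ∫ t in (0 : ℝ)..(2 * π), Ps M c t α ^ 2 * w α := by
    have hp := Real.pi_pos
    rw [intervalIntegral.integral_of_le (by positivity : (0:ℝ) ≤ 2 * π)]
    rw [intervalIntegral.integral_of_le hp.le]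
    simp_rw [intervalIntegral.integral_of_le hp.le,
      intervalIntegral.integral_of_le (by positivity : (0:ℝ) ≤ 2 * π)]
    apply integral_integral_swap
    rw [Measure.prod_restrict]
    have hi : IntegrableOn (Function.uncurry (fun t α => Ps M c t α ^ 2 * w α))
        (Icc 0 (2 * π) ×ˢ Icc 0 π) (volume.prod volume) := by
      apply ContinuousOn.integrableOn_compact (isCompact_Icc.prod isCompact_Icc)
      exact hcont.continuousOn
    exact hi.mono_set (prod_mono Ioc_subset_Icc_self Ioc_subset_Icc_self)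
  rw [hswap]
  have h1 : ∀ α : ℝ, ∫ t in (0 : ℝ)..(2 * π), Ps M c t α ^ 2 * w α =
      ∑ k ∈ Finset.range M, (π * ‖c k‖ ^ 2) * (‖Vk k α‖ ^ 2 * w α) := by
    intro α
    rw [intervalIntegral.integral_mul_const, inner_int hORB, Finset.mul_sum, Finset.sum_mul]
    apply Finset.sum_congr rfl
    intro m _
    ring
  simp_rw [h1]
  rw [intervalIntegral.integral_finsetSum, Finset.mul_sum]
  · apply Finset.sum_congr rfl
    intro m _
    rw [intervalIntegral.integral_const_mul]
    ring
  · intro m _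
    apply Continuous.intervalIntegrable
    exact continuous_const.mul (((contV m).norm.pow 2).mul hw)

end Pool.Agent.Lib.MP_084b88_gt.CW
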