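import Pool.Agent.Lib.MP_084b88_gt.CW.SpecC
import Pool.Agent.Lib.MP_084b88_gt.CW.QQP

/-!
# MP_084b88_gt, project CW, part C: module QQ4
-/

set_option autoImplicit false

open MeasureTheory Set Real Filter Topology
open scoped Pointwise InnerProductSpace

namespace Pool.Agent.Lib.MP_084b88_gt.CW

namespace QQ4M

open QQPM

theorem sqrt_conc4 (c x : ℝ) (h1 : |c + x| ≤ 1) (h2 : |c - x| ≤ 1) :
    FF (c + x) + FF (c - x) ≤ 2 * FF c - x ^ 2 := by
  unfold FF
  have a0 : 0 ≤ 1 - (c + x) ^ 2 := by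
    have := sq_le_one_iff_abs_le_one (c + x) |>.2 h1
    linarith
  have b0 : 0 ≤ 1 - (c - x) ^ 2 := by
    have := sq_le_one_iff_abs_le_one (c - x) |>.2 h2
    linarith
  have ha := sq_sqrt a0
  have hb := sq_sqrt b0
  have c0 : 0 ≤ 1 - c ^ 2 := by nlinarith [sq_nonneg x]
  have hc := sq_sqrt c0
  have s0 : 0 ≤ √(1 - c ^ 2) := sqrt_nonneg _
  have s1 : √(1 - c ^ 2) ≤ 1 := by
    rw [sqrt_le_one]
    nlinarith [sq_nonneg c]
  set a := √(1 - (c + x) ^ 2)
  set b := √(1 - (c - x) ^ 2)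
  set s := √(1 - c ^ 2)
  have hxs : x ^ 2 ≤ s ^ 2 := by nlinarith
  have hss : s ^ 2 ≤ s := by nlinarith
  have h4 : 0 ≤ s - x ^ 2 / 2 := by linarith
  have h5 : ((a + b) / 2) ^ 2 ≤ (s - x ^ 2 / 2) ^ 2 := by
    have e1 : ((a + b) / 2) ^ 2 ≤ 1 - c ^ 2 - x ^ 2 := by nlinarith [sq_nonneg (a - b)]
    have e2 : 1 - c ^ 2 - x ^ 2 ≤ (s - x ^ 2 / 2) ^ 2 := by
      have e3 : 0 ≤ x ^ 2 * (1 - s) := mul_nonneg (sq_nonneg x) (by linarith)
      nlinarith [sq_nonneg (x ^ 2)]
    linarith
  have h6 := abs_le_of_sq_le_sq' h5 h4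
  linarith [h6.2]

theorem second4 (c e : ℝ) (he : 0 ≤ e) (h1 : |c + e| ≤ 1) (h2 : |c - e| ≤ 1) :
    QQF (c + e) + QQF (c - e) - 2 * QQF c ≤ e ^ 2 * FF c - e ^ 4 / 12 := by
  have hdψ : ∀ t : ℝ, HasDerivAt (fun t => 2 * t * FF c - t ^ 3 / 3 - (QF (c + t) - QF (c - t)))
      (2 * FF c - t ^ 2 - (FF (c + t) + FF (c - t))) t := by
    intro t
    have e1 : HasDerivAt (fun t => QF (c + t)) (FF (c + t)) t :=
      (deriv_QF (c + t)).comp_const_add c t
    have e2 : HasDerivAt (fun t => QF (c - t)) (-FF (c - t)) t :=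
      (deriv_QF (c - t)).comp_const_sub c t
    have e3 : HasDerivAt (fun t : ℝ => 2 * t * FF c) (2 * FF c) t := by
      have := ((hasDerivAt_id t).const_mul 2).mul_const (FF c)
      simpa using this
    have e4 : HasDerivAt (fun t : ℝ => t ^ 3 / 3) (t ^ 2) t := by
      have := (hasDerivAt_pow 3 t).div_const 3
      refine this.congr_deriv ?_
      push_cast
      ring
    exact ((e3.sub e4).sub (e1.sub e2)).congr_deriv (by ring)
  have hdφ : ∀ t : ℝ, HasDerivAt
      (fun t => t ^ 2 * FF c - t ^ 4 / 12 - (QQF (c + t) + QQF (c - t) - 2 * QQF c))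
      (2 * t * FF c - t ^ 3 / 3 - (QF (c + t) - QF (c - t))) t := by
    intro t
    have e1 : HasDerivAt (fun t => QQF (c + t)) (QF (c + t)) t :=
      (deriv_QQF (c + t)).comp_const_add c t
    have e2 : HasDerivAt (fun t => QQF (c - t)) (-QF (c - t)) t :=
      (deriv_QQF (c - t)).comp_const_sub c t
    have e3 : HasDerivAt (fun t : ℝ => t ^ 2 * FF c) (2 * t * FF c) t := by
      have := ((hasDerivAt_id t).pow 2).mul_const (FF c)
      simpa using this
    have e4 : HasDerivAt (fun t : ℝ => t ^ 4 / 12) (t ^ 3 / 3) t := by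
      have := (hasDerivAt_pow 4 t).div_const 12
      refine this.congr_deriv ?_
      push_cast
      ring
    exact ((e3.sub e4).sub ((e1.add e2).sub_const (2 * QQF c))).congr_deriv (by ring)
  have habs : ∀ t ∈ Icc (0 : ℝ) e, |c + t| ≤ 1 ∧ |c - t| ≤ 1 := by
    intro t ht
    rw [abs_le] at h1 h2
    constructor <;> rw [abs_le] <;> constructor <;> linarith [ht.1, ht.2]
  have hψ : ∀ t ∈ Icc (0 : ℝ) e, 0 ≤ 2 * t * FF c - t ^ 3 / 3 - (QF (c + t) - QF (c - t)) := by
    intro t ht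
    have hm : MonotoneOn (fun t => 2 * t * FF c - t ^ 3 / 3 - (QF (c + t) - QF (c - t)))
        (Icc 0 e) := by
      apply monotoneOn_of_deriv_nonneg (convex_Icc 0 e)
      · exact fun x _ => (hdψ x).continuousAt.continuousWithinAt
      · exact fun x _ => (hdψ x).differentiableAt.differentiableWithinAt
      · intro x hx
        rw [interior_Icc] at hx
        rw [(hdψ x).deriv]
        have h3 := habs x ⟨hx.1.le, hx.2.le⟩
        have := sqrt_conc4 c x h3.1 h3.2
        linarith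
    have := hm (left_mem_Icc.2 he) ht ht.1
    simpa using this
  have hm : MonotoneOn
      (fun t => t ^ 2 * FF c - t ^ 4 / 12 - (QQF (c + t) + QQF (c - t) - 2 * QQF c))
      (Icc 0 e) := by
    apply monotoneOn_of_deriv_nonneg (convex_Icc 0 e)
    · exact fun x _ => (hdφ x).continuousAt.continuousWithinAt
    · exact fun x _ => (hdφ x).differentiableAt.differentiableWithinAt
    · intro x hx
      rw [interior_Icc] at hx
      rw [(hdφ x).deriv]
      exact hψ x ⟨hx.1.le, hx.2.le⟩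
  have := hm (left_mem_Icc.2 he) (right_mem_Icc.2 he) he
  simp only [add_zero, sub_zero] at this
  nlinarith

theorem FF_bound (c ξ : ℝ) (hc : |c| ≤ 1) (hξ : |ξ| ≤ 1) (d : ℝ) (hd : |ξ - c| ≤ d) :
    FF ξ ≤ √(1 - c ^ 2) + √(2 * d) - kap := by
  unfold FF
  have hd0 : 0 ≤ d := (abs_nonneg _).trans hd
  have c0 : 0 ≤ 1 - c ^ 2 := by
    have := sq_le_one_iff_abs_le_one c |>.2 hc
    linarith
  have h1 : 1 - ξ ^ 2 ≤ (√(1 - c ^ 2) + √(2 * d)) ^ 2 := by
    have e1 := sq_sqrt c0
    have e2 := sq_sqrt (by positivity : (0 : ℝ) ≤ 2 * d)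
    have e3 := sqrt_nonneg (1 - c ^ 2)
    have e4 := sqrt_nonneg (2 * d)
    have e5 : c ^ 2 - ξ ^ 2 ≤ 2 * d := by
      have e6 : |(ξ - c) * (ξ + c)| ≤ d * 2 := by
        rw [abs_mul]
        apply mul_le_mul hd _ (abs_nonneg _) hd0
        exact (abs_add_le _ _).trans (by linarith)
      have e7 := (abs_le.1 e6).1
      nlinarith
    nlinarith [mul_nonneg e3 e4]
  have h2 : √(1 - ξ ^ 2) ≤ √(1 - c ^ 2) + √(2 * d) := by
    apply Real.sqrt_le_iff.2
    exact ⟨add_nonneg (sqrt_nonneg _) (sqrt_nonneg _), h1⟩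
  linarith

theorem breg (c p : ℝ) (hcp : c ≤ p) (hc : |c| ≤ 1) (hp : |p| ≤ 1) :
    QQF p - QQF c - QF c * (p - c) ≤
      (p - c) ^ 2 / 2 * (√(1 - c ^ 2) + √(2 * |p - c|) - kap) := by
  set K := √(1 - c ^ 2) + √(2 * |p - c|) - kap with hK
  have hdψ : ∀ t : ℝ, HasDerivAt (fun t => (t - c) * K - (QF t - QF c)) (K - FF t) t := by
    intro t
    have e1 : HasDerivAt (fun t : ℝ => (t - c) * K) K t := by
      have := ((hasDerivAt_id t).sub_const c).mul_const K
      simpa using this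
    exact e1.sub ((deriv_QF t).sub_const (QF c))
  have hdφ : ∀ t : ℝ, HasDerivAt
      (fun t => (t - c) ^ 2 / 2 * K - (QQF t - QQF c - QF c * (t - c)))
      ((t - c) * K - (QF t - QF c)) t := by
    intro t
    have e0 : HasDerivAt (fun t : ℝ => t - c) 1 t := (hasDerivAt_id t).sub_const c
    have e1 : HasDerivAt (fun t : ℝ => (t - c) ^ 2 / 2 * K) ((t - c) * K) t := by
      have := ((e0.pow 2).div_const 2).mul_const K
      refine this.congr_deriv ?_
      push_cast
      ring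
    have e2 : HasDerivAt (fun t : ℝ => QF c * (t - c)) (QF c) t := by
      have := e0.const_mul (QF c)
      simpa using this
    exact (e1.sub (((deriv_QQF t).sub_const (QQF c)).sub e2))
  have hb : ∀ t ∈ Icc c p, FF t ≤ K := by
    intro t ht
    have h1 : |t| ≤ 1 := by
      rw [abs_le] at hc hp ⊢
      constructor <;> linarith [ht.1, ht.2]
    refine FF_bound c t hc h1 _ ?_
    rw [abs_of_nonneg (by linarith [ht.1]), abs_of_nonneg (by linarith)]
    linarith [ht.2]
  have hψ : ∀ t ∈ Icc c p, 0 ≤ (t - c) * K - (QF t - QF c) := by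
    intro t ht
    have hm : MonotoneOn (fun t => (t - c) * K - (QF t - QF c)) (Icc c p) := by
      apply monotoneOn_of_deriv_nonneg (convex_Icc c p)
      · exact fun x _ => (hdψ x).continuousAt.continuousWithinAt
      · exact fun x _ => (hdψ x).differentiableAt.differentiableWithinAt
      · intro x hx
        rw [interior_Icc] at hx
        rw [(hdψ x).deriv]
        linarith [hb x ⟨hx.1.le, hx.2.le⟩]
    have := hm (left_mem_Icc.2 hcp) ht ht.1
    simpa using this
  have hm : MonotoneOn (fun t => (t - c) ^ 2 / 2 * K - (QQF t - QQF c - QF c * (t - c)))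
      (Icc c p) := by
    apply monotoneOn_of_deriv_nonneg (convex_Icc c p)
    · exact fun x _ => (hdφ x).continuousAt.continuousWithinAt
    · exact fun x _ => (hdφ x).differentiableAt.differentiableWithinAt
    · intro x hx
      rw [interior_Icc] at hx
      rw [(hdφ x).deriv]
      exact hψ x ⟨hx.1.le, hx.2.le⟩
  have := hm (left_mem_Icc.2 hcp) (right_mem_Icc.2 hcp) hcp
  simp only [sub_self, mul_zero, sub_zero] at this
  have e : (0 : ℝ) ^ 2 / 2 * K = 0 := by ring
  rw [e] at this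
  linarith

end QQ4M

open QQPM QQ4M in
theorem specQQ4 : SpecQQ4 := by
  refine ⟨?_, ?_, ?_⟩
  · intro c e h1 h2
    rcases le_total 0 e with he | he
    · exact second4 c e he h1 h2
    · have := second4 c (-e) (by linarith) (by rwa [← sub_eq_add_neg]) (by rwa [sub_neg_eq_add])
      rw [← sub_eq_add_neg, sub_neg_eq_add] at this
      have e1 : (-e) ^ 2 = e ^ 2 := by ring
      have e2 : (-e) ^ 4 = e ^ 4 := by ring
      rw [e1, e2] at this
      linarith
  · intro c p hc hp
    rcases le_total c p with h | h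
    · exact breg c p h hc hp
    · have := breg (-c) (-p) (by linarith) (by rwa [abs_neg]) (by rwa [abs_neg])
      rw [QQF_neg, QQF_neg, QF_neg] at this
      have e1 : (-p - -c) = -(p - c) := by ring
      rw [e1, abs_neg] at this
      have e2 : (-(p - c)) ^ 2 = (p - c) ^ 2 := by ring
      have e3 : (-c) ^ 2 = c ^ 2 := by ring
      rw [e2, e3] at this
      linarith
  · intro c p hc hp
    have e : p ^ 3 / 6 - c ^ 3 / 6 - c ^ 2 / 2 * (p - c) = (p - c) ^ 2 / 2 * ((p + 2 * c) / 3) := by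
      ring
    rw [e, abs_mul, abs_of_nonneg (by positivity : (0 : ℝ) ≤ (p - c) ^ 2 / 2)]
    have h1 : |(p + 2 * c) / 3| ≤ 1 := by
      rw [abs_le] at hc hp ⊢
      constructor <;> linarith
    exact mul_le_of_le_one_right (by positivity) h1

end Pool.Agent.Lib.MP_084b88_gt.CW
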