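import Pool.Agent.Lib.MP_084b88_gt.CW.SpecD
import Pool.Agent.Lib.MP_084b88_gt.CW.RED

/-!
# MP_084b88_gt, project CW, module RE1: the averaged test inequality
-/

set_option autoImplicit false

open MeasureTheory Set Real Filter Topology
open scoped Pointwise InnerProductSpace

namespace Pool.Agent.Lib.MP_084b88_gt.CW

namespace RE1M

theorem sqrt_le_aux (x : ℝ) : √(1 + x ^ 2 / 2) ≤ 1 + x ^ 2 / 4 := by
  rw [Real.sqrt_le_left (by positivity)]
  nlinarith [sq_nonneg (x ^ 2)]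

end RE1M

open REDM RE1M in
theorem specRE1 (hMEA : SpecMEA) (hMEB : SpecMEB) (hLEN : SpecLEN) (hCAU : SpecCAU)
    (hNUC : SpecNUC) (hNFX : SpecNFX) : SpecRE1 := by
  intro μ hμ K hK hKi c hc0 hc V1 V2 hst f hf b hbdef
  have : IsProbabilityMeasure μ := hμ.1
  obtain ⟨hCC, hAm, ⟨CA, hCA⟩, hsup, hwc, ⟨b0, hb0, hbw⟩, hqm, hq, hrot⟩ := hMEA K hK hKi
  obtain ⟨hGc, -, -, hmm, hmA, -, -, -⟩ := hMEB K hK hKi
  obtain ⟨hV2, hV1⟩ := hCAU μ hμ K hK hKi V1 V2 hst
  have hlen := hLEN μ hμ K hK hKi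
  set W : O3 → ℝ := fun R => wid (pr R K) 0 / 2 with hW
  set q : O3 → ℝ := fun R => qf (pr R K) 0 with hqdef
  set m : O3 → ℝ := fun R => mf (pr R K) 0 with hmdef
  set A : O3 → ℝ := fun R => area (pr R K) with hA
  set V : ℝ := (volume K).toReal with hV
  have hV0 : 0 ≤ V := ENNReal.toReal_nonneg
  have hWc : Continuous W := hwc.div_const 2
  have hWpos : ∀ R, b0 / 2 ≤ W R := fun R => by simp only [hW]; linarith [hbw R]
  have hWpos' : ∀ R, 0 < W R := fun R => lt_of_lt_of_le (by linarith) (hWpos R)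
  have hWi : Integrable W μ := hWc.integrable_of_hasCompactSupport
    (HasCompactSupport.of_compactSpace W)
  have hbW : b = ∫ R, W R ∂μ := hbdef
  have hEW : V1 = 4 * b := by
    have h1 : b = (∫ R, wid (pr R K) 0 ∂μ) / 2 := by
      rw [hbdef, integral_div]
    rw [h1]
    rw [hlen] at hV1
    have hpi := pi_pos
    have : π * V1 = π * (4 * ((∫ R, wid (pr R K) 0 ∂μ) / 2)) := by rw [hV1]; ring
    exact mul_left_cancel₀ hpi.ne' this
  have hbpos : 0 < b := by
    have h1 : ∫ _R : O3, b0 / 2 ∂μ ≤ ∫ R, W R ∂μ :=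
      integral_mono (integrable_const _) hWi hWpos
    have h2 : b0 / 2 ≤ ∫ R, W R ∂μ := by simpa using h1
    rw [hbW]; linarith
  refine ⟨hbpos, hEW, hV2, ?_⟩
  have hA0 : ∀ R, 0 ≤ A R := fun R => (hq R).1.trans (hq R).2
  have hq0 : ∀ R, 0 ≤ q R := fun R => (hq R).1
  have hqA : ∀ R, q R ≤ CA := fun R => (hq R).2.trans (hCA R)
  have hCA0 : 0 ≤ CA := (hA0 1).trans (hCA 1)
  have hpi := pi_pos
  -- `f` on columns
  have hfc : Continuous (fun R : O3 => f (col R 0)) := hf.comp (continuous_col 0)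
  obtain ⟨Cf, hCf⟩ : ∃ Cf : ℝ, ∀ R : O3, |f (col R 0)| ≤ Cf := by
    obtain ⟨R0, hR0⟩ := (hfc.abs).exists_forall_ge_of_hasCompactSupport
      (HasCompactSupport.of_compactSpace _)
    exact ⟨|f (col R0 0)|, hR0⟩
  have hCf0 : 0 ≤ Cf := (abs_nonneg _).trans (hCf 1)
  set GG : O3 → ℝ := fun R => q R + f (col R 0) * m R with hGG
  have hGGm : Measurable GG := hqm.add (hfc.measurable.mul hmm)
  have hGGb : ∀ R, |GG R| ≤ CA + Cf * CA := by
    intro R
    refine (abs_add_le _ _).trans (add_le_add ?_ ?_)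
    · rw [abs_of_nonneg (hq0 R)]; exact hqA R
    · rw [abs_mul]
      exact mul_le_mul (hCf R) ((hmA R).trans (hCA R)) (abs_nonneg _) hCf0
  obtain ⟨hci, hcE⟩ := fub μ hμ GG hGGm _ hGGb cyc continuous_cyc π hpi.le
  set a : ℝ := √(4 * π * V / (3 * c)) with ha
  have ha0 : 0 ≤ a := Real.sqrt_nonneg _
  have hasq : a ^ 2 = 4 * π * V / (3 * c) := Real.sq_sqrt (by positivity)
  have hWcyc : ∀ (R : O3) (θ : ℝ), W (R * cyc θ) =
      (HS K (col R 2) + HS K (-(col R 2))) / 2 := by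
    intro R θ
    simp only [hW]
    rw [wid, NFUM.sup2_pr_zero, NFUM.sup2_pr_pi]
  set y : O3 → ℝ := fun R => W R / b with hy
  have hy0 : ∀ R, 0 ≤ y R := fun R => div_nonneg (hWpos' R).le hbpos.le
  have hyc : Continuous y := hWc.div_const b
  set HH : O3 → ℝ := fun R => a * √b * (√(y R) * (1 + f (col R 0) ^ 2 / 4)) with hHH
  have hHHc : Continuous HH :=
    continuous_const.mul ((Real.continuous_sqrt.comp hyc).mul
      (continuous_const.add ((hfc.pow 2).div_const 4)))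
  have hN : ∀ R : O3, (1 / 2) * ∫ θ in (0 : ℝ)..π, GG (R * cyc θ) ≤ HH (R * cyc 0) := by
    intro R
    set x : ℝ := f (col R 2) with hx
    have hxx : ∀ θ, f (col (R * cyc θ) 0) = x := fun θ => by rw [col_cyc_zero]
    have h1 := hNUC K hK hKi c hc0.le hc R _ _ x rfl rfl
    rw [hNFX K hK hKi R _ _ x rfl rfl, ← hWcyc R 0] at h1
    have hGe : ∫ θ in (0 : ℝ)..π, GG (R * cyc θ) =
        ∫ θ in (0 : ℝ)..π, (qf (pr (R * cyc θ) K) 0 + x * mf (pr (R * cyc θ) K) 0) := by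
      congr 1
      funext θ
      simp only [hGG, hqdef, hmdef]
      rw [hxx]
    rw [hGe]
    set N : ℝ := (1 / 2) * ∫ θ in (0 : ℝ)..π,
      (qf (pr (R * cyc θ) K) 0 + x * mf (pr (R * cyc θ) K) 0) with hNdef
    change c * N ^ 2 ≤ 4 / 3 * W (R * cyc 0) * (1 + x ^ 2 / 2) * (π * V) at h1
    have hWb : W (R * cyc 0) = b * y (R * cyc 0) := by
      simp only [hy]; field_simp
    have hHe : HH (R * cyc 0) = a * (√b * √(y (R * cyc 0)) * (1 + x ^ 2 / 4)) := by
      simp only [hHH]; rw [hxx]; ring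
    rw [hHe]
    have h2 : N ^ 2 ≤ (a * √(W (R * cyc 0) * (1 + x ^ 2 / 2))) ^ 2 := by
      rw [mul_pow a, hasq, Real.sq_sqrt (mul_nonneg (hWpos' _).le (by positivity))]
      have h3 : 4 * π * V / (3 * c) * (W (R * cyc 0) * (1 + x ^ 2 / 2)) =
          (4 / 3 * W (R * cyc 0) * (1 + x ^ 2 / 2) * (π * V)) / c := by field_simp
      rw [h3, le_div_iff₀ hc0]
      linarith
    have h4 : N ≤ a * √(W (R * cyc 0) * (1 + x ^ 2 / 2)) :=
      (abs_le_of_sq_le_sq h2 (mul_nonneg ha0 (Real.sqrt_nonneg _))).trans' (le_abs_self N)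
    refine h4.trans (mul_le_mul_of_nonneg_left ?_ ha0)
    rw [hWb, Real.sqrt_mul (mul_nonneg hbpos.le (hy0 _)), Real.sqrt_mul hbpos.le]
    exact mul_le_mul_of_nonneg_left (sqrt_le_aux x) (by positivity)
  -- integrate
  have hE1 : π / 2 * ∫ R, GG R ∂μ ≤ ∫ R, HH R ∂μ := by
    have h1 : ∫ R, ((1 / 2) * ∫ θ in (0 : ℝ)..π, GG (R * cyc θ)) ∂μ ≤
        ∫ R, HH (R * cyc 0) ∂μ := by
      apply integral_mono (hci.const_mul _) _ hN
      have h2 : Continuous (fun R : O3 => HH (R * cyc 0)) :=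
        hHHc.comp (continuous_id.mul continuous_const)
      exact h2.integrable_of_hasCompactSupport (HasCompactSupport.of_compactSpace _)
    rw [integral_const_mul, hcE, inv_right μ hμ HH hHHc.measurable] at h1
    linarith
  -- split
  have hci' : ∀ g : O3 → ℝ, Continuous g → Integrable g μ := fun g hg =>
    hg.integrable_of_hasCompactSupport (HasCompactSupport.of_compactSpace _)
  have hsy : Continuous (fun R => √(y R)) := Real.continuous_sqrt.comp hyc
  have hEy : ∫ R, y R ∂μ = 1 := by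
    simp only [hy]
    rw [integral_div, ← hbW, div_self hbpos.ne']
  have hEs : ∫ R, √(y R) ∂μ = 1 - (1 / 2) * ∫ R, (1 - √(y R)) ^ 2 ∂μ := by
    have h1 : ∀ R, √(y R) = (1 + y R) / 2 - (1 / 2) * (1 - √(y R)) ^ 2 := by
      intro R
      have := Real.sq_sqrt (hy0 R)
      nlinarith
    have h2 : ∫ R, √(y R) ∂μ = ∫ R, ((1 + y R) / 2 - (1 / 2) * (1 - √(y R)) ^ 2) ∂μ :=
      integral_congr_ae (Eventually.of_forall h1)
    have i1 : Integrable (fun R : O3 => (1 + y R) / 2) μ :=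
      hci' _ ((continuous_const.add hyc).div_const 2)
    have i2 : Integrable (fun R : O3 => (1 / 2) * (1 - √(y R)) ^ 2) μ :=
      hci' _ (continuous_const.mul ((continuous_const.sub hsy).pow 2))
    have i3 : Integrable (fun R : O3 => y R) μ := hci' _ hyc
    have i4 : Integrable (fun _ : O3 => (1 : ℝ)) μ := integrable_const _
    rw [h2, integral_sub i1 i2, integral_div, integral_add i4 i3, hEy, integral_const_mul]
    simp only [integral_const, probReal_univ, one_smul]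
    norm_num
  have hHHE : ∫ R, HH R ∂μ = a * √b * (1 - (1 / 2) * (∫ R, (1 - √(y R)) ^ 2 ∂μ) +
      (1 / 4) * ∫ R, √(y R) * f (col R 0) ^ 2 ∂μ) := by
    have h1 : ∀ R, HH R = a * √b * (√(y R) + (1 / 4) * (√(y R) * f (col R 0) ^ 2)) := by
      intro R; simp only [hHH]; ring
    have h2 : ∫ R, HH R ∂μ =
        ∫ R, a * √b * (√(y R) + (1 / 4) * (√(y R) * f (col R 0) ^ 2)) ∂μ :=
      integral_congr_ae (Eventually.of_forall h1)
    have i1 : Integrable (fun R : O3 => √(y R)) μ := hci' _ hsy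
    have i2 : Integrable (fun R : O3 => (1 / 4) * (√(y R) * f (col R 0) ^ 2)) μ :=
      hci' _ (continuous_const.mul (hsy.mul (hfc.pow 2)))
    rw [h2, integral_const_mul, integral_add i1 i2, integral_const_mul, hEs]
  rw [hHHE] at hE1
  exact hE1

end Pool.Agent.Lib.MP_084b88_gt.CW
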