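import Pool.Agent.Lib.MP_084b88_gt.CW.SpecC

/-!
# MP_084b88_gt, project CW, module WMB: the kernel `V_k`
-/

set_option autoImplicit false

open MeasureTheory Set Real Filter Topology
open scoped Pointwise InnerProductSpace

namespace Pool.Agent.Lib.MP_084b88_gt.CW

namespace WMBM

theorem geo (E E' : ℂ) (h : E * E' = 1) (m : ℕ) :
    (E - E') * ∑ j ∈ Finset.range m, E' ^ (2 * j + 1) = 1 - E' ^ (2 * m) := by
  induction m with
  | zero => simp
  | succ m ih =>
    rw [Finset.sum_range_succ, mul_add, ih]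
    linear_combination (E' ^ (2 * m)) * h

/-- odd modes -/
theorem algo (E E' : ℂ) (h : E * E' = 1) (m : ℕ) :
    (E + E') / 2 - (2 * m + 1) * (E - E') / 2 - E' ^ (2 * m + 1) =
      -(E - E') ^ 2 * ∑ j ∈ Finset.range m, ((m : ℂ) - j) * E' ^ (2 * j + 1) := by
  induction m with
  | zero => simp; ring
  | succ m ih =>
    have hT : ∑ j ∈ Finset.range (m + 1), (((m + 1 : ℕ) : ℂ) - j) * E' ^ (2 * j + 1) =
        ∑ j ∈ Finset.range m, ((m : ℂ) - j) * E' ^ (2 * j + 1) +
          ∑ j ∈ Finset.range (m + 1), E' ^ (2 * j + 1) := by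
      rw [Finset.sum_range_succ, Finset.sum_range_succ (fun j => E' ^ (2 * j + 1)), ← add_assoc,
        ← Finset.sum_add_distrib]
      congr 1
      · refine Finset.sum_congr rfl fun j _ => ?_
        push_cast; ring
      · push_cast; ring
    have hg := geo E E' h (m + 1)
    have h2 : -(E - E') ^ 2 * ∑ j ∈ Finset.range (m + 1), E' ^ (2 * j + 1) =
        -(E - E') * (1 - E' ^ (2 * (m + 1))) := by
      rw [← hg]; ring
    rw [hT, mul_add (-(E - E') ^ 2), ← ih, h2]
    push_cast
    linear_combination (-E' ^ (2 * m + 1)) * h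

/-- even modes -/
theorem alge (E E' : ℂ) (h : E * E' = 1) (m : ℕ) :
    (E + E') / 2 - (2 * m) * (E - E') / 2 - (E + E') / 2 * E' ^ (2 * m) =
      -(E - E') ^ 2 * ∑ j ∈ Finset.range m, ((m : ℂ) - 1 / 2 - j) * E' ^ (2 * j + 1) := by
  induction m with
  | zero => simp
  | succ m ih =>
    have hT : ∑ j ∈ Finset.range (m + 1), (((m + 1 : ℕ) : ℂ) - 1 / 2 - j) * E' ^ (2 * j + 1) =
        ∑ j ∈ Finset.range m, ((m : ℂ) - 1 / 2 - j) * E' ^ (2 * j + 1) +
          ∑ j ∈ Finset.range (m + 1), E' ^ (2 * j + 1) - 1 / 2 * E' ^ (2 * m + 1) := by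
      rw [Finset.sum_range_succ, Finset.sum_range_succ (fun j => E' ^ (2 * j + 1)), ← add_assoc,
        ← Finset.sum_add_distrib]
      have : ∀ j ∈ Finset.range m, (((m + 1 : ℕ) : ℂ) - 1 / 2 - j) * E' ^ (2 * j + 1) =
          ((m : ℂ) - 1 / 2 - j) * E' ^ (2 * j + 1) + E' ^ (2 * j + 1) := by
        intro j _
        push_cast
        ring
      rw [Finset.sum_congr rfl this]
      push_cast
      ring
    have hg := geo E E' h (m + 1)
    have h2 : -(E - E') ^ 2 * ∑ j ∈ Finset.range (m + 1), E' ^ (2 * j + 1) =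
        -(E - E') * (1 - E' ^ (2 * (m + 1))) := by
      rw [← hg]; ring
    rw [hT, mul_sub (-(E - E') ^ 2), mul_add (-(E - E') ^ 2), ← ih, h2]
    push_cast
    linear_combination (-(E' ^ (2 * m)) / 2 * (E + E')) * h

theorem mode (k : ℕ) (α : ℝ) :
    (Complex.cos α) - (Complex.I * (k : ℂ)) * Complex.sin α
      - (if k % 2 = 0 then Complex.cos α else 1) * Complex.exp (-(Complex.I * ((k : ℂ) * α))) =
      Complex.sin α ^ 2 * Vk k α := by
  have hE : Complex.exp (Complex.I * α) * Complex.exp (-(Complex.I * α)) = 1 := by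
    rw [← Complex.exp_add]; simp
  have hpow : ∀ n : ℕ, Complex.exp (-(Complex.I * ((n : ℂ) * α))) =
      Complex.exp (-(Complex.I * α)) ^ n := by
    intro n
    rw [← Complex.exp_nat_mul]
    congr 1
    ring
  have hc : Complex.cos α = (Complex.exp (Complex.I * α) + Complex.exp (-(Complex.I * α))) / 2 := by
    rw [Complex.cos, mul_comm (α : ℂ) Complex.I]
    congr 3
    ring
  have hs : Complex.sin α = -Complex.I * (Complex.exp (Complex.I * α) -
      Complex.exp (-(Complex.I * α))) / 2 := by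
    rw [Complex.sin, mul_comm (α : ℂ) Complex.I, neg_mul, mul_comm (α : ℂ) Complex.I]
    ring
  have hI : Complex.I ^ 2 = -1 := Complex.I_sq
  rcases Nat.mod_two_eq_zero_or_one k with hk | hk
  · obtain ⟨m, rfl⟩ : ∃ m, k = 2 * m := ⟨k / 2, by omega⟩
    have hW : Vk (2 * m) α = 4 * ∑ j ∈ Finset.range m, ((m : ℂ) - 1 / 2 - j) *
        Complex.exp (-(Complex.I * α)) ^ (2 * j + 1) := by
      unfold Vk
      have : 2 * m / 2 = m := by omega
      rw [this]
      congr 1
      refine Finset.sum_congr rfl fun j _ => ?_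
      rw [hpow]
      push_cast
      ring
    have hal := alge _ _ hE m
    rw [if_pos hk, hW, hpow, hc, hs]
    generalize Complex.exp (Complex.I * α) = E at *
    generalize Complex.exp (-(Complex.I * α)) = E' at *
    generalize (∑ j ∈ Finset.range m, ((m : ℂ) - 1 / 2 - j) * E' ^ (2 * j + 1)) = S at *
    push_cast
    calc (E + E') / 2 - Complex.I * (2 * (m : ℂ)) * (-Complex.I * (E - E') / 2)
          - (E + E') / 2 * E' ^ (2 * m)
        = (E + E') / 2 + Complex.I ^ 2 * ((2 * m) * (E - E') / 2)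
          - (E + E') / 2 * E' ^ (2 * m) := by ring
      _ = (E + E') / 2 - (2 * m) * (E - E') / 2 - (E + E') / 2 * E' ^ (2 * m) := by rw [hI]; ring
      _ = -(E - E') ^ 2 * S := hal
      _ = Complex.I ^ 2 * ((E - E') ^ 2 * S) := by rw [hI]; ring
      _ = (-Complex.I * (E - E') / 2) ^ 2 * (4 * S) := by ring
  · obtain ⟨m, rfl⟩ : ∃ m, k = 2 * m + 1 := ⟨k / 2, by omega⟩
    have hW : Vk (2 * m + 1) α = 4 * ∑ j ∈ Finset.range m, ((m : ℂ) - j) *
        Complex.exp (-(Complex.I * α)) ^ (2 * j + 1) := by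
      unfold Vk
      have : (2 * m + 1) / 2 = m := by omega
      rw [this]
      congr 1
      refine Finset.sum_congr rfl fun j _ => ?_
      rw [hpow]
      push_cast
      ring
    have hal := algo _ _ hE m
    have hk' : ¬ ((2 * m + 1) % 2 = 0) := by omega
    rw [if_neg hk', hW, hpow, hc, hs, one_mul]
    generalize Complex.exp (Complex.I * α) = E at *
    generalize Complex.exp (-(Complex.I * α)) = E' at *
    generalize (∑ j ∈ Finset.range m, ((m : ℂ) - j) * E' ^ (2 * j + 1)) = S at *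
    push_cast
    calc (E + E') / 2 - Complex.I * (2 * (m : ℂ) + 1) * (-Complex.I * (E - E') / 2)
          - E' ^ (2 * m + 1)
        = (E + E') / 2 + Complex.I ^ 2 * ((2 * m + 1) * (E - E') / 2) - E' ^ (2 * m + 1) := by ring
      _ = (E + E') / 2 - (2 * m + 1) * (E - E') / 2 - E' ^ (2 * m + 1) := by rw [hI]; ring
      _ = -(E - E') ^ 2 * S := hal
      _ = Complex.I ^ 2 * ((E - E') ^ 2 * S) := by rw [hI]; ring
      _ = (-Complex.I * (E - E') / 2) ^ 2 * (4 * S) := by ring

end WMBM

open WMBM in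
theorem specWMB (hHPB : SpecHPB) : SpecWMB := by
  intro M c t α
  obtain ⟨_, _, _, _, hg, hB, _⟩ := hHPB M c
  have h1 : hp M c (t + α) * cos α = (∑ k ∈ Finset.range M, c k *
      Complex.exp (Complex.I * ((k : ℂ) * ((t + α : ℝ) : ℂ))) * Complex.cos α).re := by
    unfold hp
    rw [← Complex.ofReal_cos, ← Finset.sum_mul, Complex.re_mul_ofReal]
  have h2 : hp M (dk c) (t + α) * sin α = (∑ k ∈ Finset.range M, c k *
      Complex.exp (Complex.I * ((k : ℂ) * ((t + α : ℝ) : ℂ))) *
        ((Complex.I * (k : ℂ)) * Complex.sin α)).re := by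
    unfold hp dk
    rw [← Complex.ofReal_sin, ← Complex.re_mul_ofReal, Finset.sum_mul]
    congr 1
    refine Finset.sum_congr rfl fun m _ => ?_
    ring
  have hexp : ∀ k : ℕ, Complex.exp (Complex.I * ((k : ℂ) * (t : ℂ))) =
      Complex.exp (Complex.I * ((k : ℂ) * ((t + α : ℝ) : ℂ))) *
        Complex.exp (-(Complex.I * ((k : ℂ) * α))) := by
    intro k
    rw [← Complex.exp_add]
    congr 1
    push_cast
    ring
  have h3 : gh (hp M c) t + Bh (hp M c) t * cos α = (∑ k ∈ Finset.range M, c k *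
      Complex.exp (Complex.I * ((k : ℂ) * ((t + α : ℝ) : ℂ))) *
        ((if k % 2 = 0 then Complex.cos α else 1) *
          Complex.exp (-(Complex.I * ((k : ℂ) * α))))).re := by
    rw [hg, hB]
    unfold hp
    rw [← Complex.re_mul_ofReal, ← Complex.add_re, Finset.sum_mul, ← Finset.sum_add_distrib]
    congr 1
    refine Finset.sum_congr rfl fun k _ => ?_
    rw [hexp k, Complex.ofReal_cos]
    unfold evc odc
    rcases Nat.mod_two_eq_zero_or_one k with hk | hk
    · simp only [hk, if_true]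
      norm_num
      ring
    · simp only [hk, if_true]
      norm_num
      ring
  have h4 : sin α ^ 2 * Ps M c t α = (∑ k ∈ Finset.range M, c k *
      Complex.exp (Complex.I * ((k : ℂ) * ((t + α : ℝ) : ℂ))) *
        (Complex.sin α ^ 2 * Vk k α)).re := by
    unfold Ps
    rw [← Complex.ofReal_sin, ← Complex.ofReal_pow, mul_comm, ← Complex.re_mul_ofReal,
      Finset.sum_mul]
    congr 1
    refine Finset.sum_congr rfl fun m _ => ?_
    ring
  have h5 : hp M c (t + α) * cos α - hp M (dk c) (t + α) * sin α - gh (hp M c) t -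
      Bh (hp M c) t * cos α = hp M c (t + α) * cos α - hp M (dk c) (t + α) * sin α -
      (gh (hp M c) t + Bh (hp M c) t * cos α) := by ring
  rw [h5, h1, h2, h3, h4, ← Complex.sub_re, ← Complex.sub_re, ← Finset.sum_sub_distrib,
    ← Finset.sum_sub_distrib]
  congr 1
  refine Finset.sum_congr rfl fun k _ => ?_
  rw [← mode k α]
  ring

end Pool.Agent.Lib.MP_084b88_gt.CW
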