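import Pool.Agent.Lib.MP_084b88_gt.CW.SpecA

/-!
# SG2: adding a segment in the plane
-/

set_option autoImplicit false

open MeasureTheory Set Real Filter Topology
open scoped Pointwise InnerProductSpace

namespace Pool.Agent.Lib.MP_084b88_gt.CW

namespace SG2M

theorem dotu_self (θ : ℝ) : dotu θ (cos θ, sin θ) = 1 := by
  simp only [dotu]
  have := sin_sq_add_cos_sq θ
  nlinarith

theorem dotu_perp (θ : ℝ) : dotu (θ - π / 2) (cos θ, sin θ) = 0 := by
  simp only [dotu, cos_sub_pi_div_two, sin_sub_pi_div_two]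
  ring

theorem dotu_smul_self (θ r : ℝ) : dotu θ (r • ((cos θ, sin θ) : ℝ × ℝ)) = r := by
  rw [dotu_smul, dotu_self, mul_one]

theorem dotu_smul_perp (θ r : ℝ) : dotu (θ - π / 2) (r • ((cos θ, sin θ) : ℝ × ℝ)) = 0 := by
  rw [dotu_smul, dotu_perp, mul_zero]

theorem mem_seg (u : ℝ × ℝ) {c : ℝ} (hc : 0 ≤ c) (p : ℝ × ℝ) :
    p ∈ segment ℝ (-(c • u)) (c • u) ↔ ∃ r : ℝ, -c ≤ r ∧ r ≤ c ∧ p = r • u := by
  constructor
  · rintro ⟨a, b, ha, hb, hab, rfl⟩
    refine ⟨(b - a) * c, by nlinarith, by nlinarith, ?_⟩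
    rw [smul_neg, smul_smul, smul_smul, ← sub_eq_neg_add, ← sub_smul]
    congr 1
    ring
  · rintro ⟨r, h1, h2, rfl⟩
    rcases hc.eq_or_lt with h0 | h0
    · have hr : r = 0 := by linarith
      rw [← h0, hr]
      simp
    · refine ⟨(1 - r / c) / 2, (1 + r / c) / 2, ?_, ?_, by ring, ?_⟩
      · have : r / c ≤ 1 := (div_le_one h0).2 h2
        linarith
      · have : -1 ≤ r / c := by
          rw [le_div_iff₀ h0]
          linarith
        linarith
      · rw [smul_neg, smul_smul, smul_smul, ← sub_eq_neg_add, ← sub_smul]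
        congr 1
        field_simp
        ring

theorem cpt_seg (u : ℝ × ℝ) (c : ℝ) : IsCompact (segment ℝ (-(c • u)) (c • u)) := by
  rw [segment_eq_image]
  refine isCompact_Icc.image ?_
  fun_prop

end SG2M

open SG2M

theorem specSG2 (hSLI : SpecSLI) (hRO2 : SpecRO2) (hWB2 : SpecWB2) : SpecSG2 := by
  intro Q θ c hQ hc
  set u : ℝ × ℝ := (cos θ, sin θ) with hu
  obtain ⟨-, -, -, -, -, -, -, hW, -, -, hWp⟩ := hWB2
  set φ : ℝ := θ - π / 2 with hφ
  have hφθ : φ + π / 2 = θ := by rw [hφ]; ring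
  obtain ⟨hR1, hR2⟩ := hRO2 φ
  rw [hφθ] at hR1 hR2
  set ρ : ℝ × ℝ → ℝ × ℝ := fun p => (dotu φ p, dotu θ p) with hρ
  have hinj : Function.Injective ρ := by
    intro p q hpq
    have h1 := hR2 p
    have h2 := hR2 q
    have h3 : dotu φ p = dotu φ q := congrArg Prod.fst hpq
    have h4 : dotu θ p = dotu θ q := congrArg Prod.snd hpq
    rw [← h1, ← h2, h3, h4]
  have hcont : Continuous ρ := (continuous_dotu_right φ).prodMk (continuous_dotu_right θ)
  set Q' : Set (ℝ × ℝ) := Q + segment ℝ (-(c • u)) (c • u) with hQ'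
  have hQc' : IsCompact Q' := hQ.2.1.add (cpt_seg u c)
  have hvol : ∀ C : Set (ℝ × ℝ), IsCompact C → volume (ρ '' C) = volume C := by
    intro C hC
    have h := hR1.measure_preimage (hC.image hcont).measurableSet.nullMeasurableSet
    rw [← h]
    exact congrArg volume (Set.preimage_image_eq C hinj)
  have memA : ∀ x t : ℝ, (x, t) ∈ ρ '' Q ↔ ∃ q ∈ Q, dotu φ q = x ∧ dotu θ q = t := by
    intro x t
    simp only [Set.mem_image, hρ, Prod.mk.injEq]
  have memA' : ∀ x t : ℝ, (x, t) ∈ ρ '' Q' ↔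
      ∃ q ∈ Q, ∃ r : ℝ, -c ≤ r ∧ r ≤ c ∧ dotu φ q = x ∧ dotu θ q + r = t := by
    intro x t
    constructor
    · rintro ⟨p, hp, hpe⟩
      obtain ⟨q, hq, s, hs, rfl⟩ := Set.mem_add.1 hp
      obtain ⟨r, hr1, hr2, rfl⟩ := (mem_seg u hc s).1 hs
      have h3 : dotu φ (q + r • u) = x := congrArg Prod.fst hpe
      have h4 : dotu θ (q + r • u) = t := congrArg Prod.snd hpe
      rw [dotu_add, hu] at h3 h4
      rw [hφ, dotu_smul_perp, add_zero] at h3
      rw [dotu_smul_self] at h4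
      exact ⟨q, hq, r, hr1, hr2, h3, h4⟩
    · rintro ⟨q, hq, r, hr1, hr2, h3, h4⟩
      refine ⟨q + r • u, Set.add_mem_add hq ((mem_seg u hc _).2 ⟨r, hr1, hr2, rfl⟩), ?_⟩
      simp only [hρ, Prod.mk.injEq]
      rw [dotu_add, dotu_add, hu]
      constructor
      · rw [hφ, dotu_smul_perp, add_zero]
        exact h3
      · rw [dotu_smul_self]
        exact h4
  have hP := (hW Q hQ φ).2
  have hPmem : ∀ x : ℝ, x ∈ Icc (-sup2 Q (φ + π)) (sup2 Q φ) ↔ ∃ q ∈ Q, dotu φ q = x := by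
    intro x
    rw [← hP]
    rfl
  have hmain := hSLI ℝ volume (ρ '' Q) (ρ '' Q') (Icc (-sup2 Q (φ + π)) (sup2 Q φ)) c hc
    (hQ.2.1.image hcont).measurableSet (hQc'.image hcont).measurableSet measurableSet_Icc ?_ ?_ ?_
  · rw [← Measure.volume_eq_prod, hvol Q hQ.2.1, hvol Q' hQc', Real.volume_Icc] at hmain
    have hwid : sup2 Q φ - -sup2 Q (φ + π) = wid Q (θ + π / 2) := by
      have h1 := hWp Q φ
      rw [show φ + π = θ + π / 2 by rw [hφ]; ring] at h1
      rw [h1, hφ]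
      unfold wid
      ring
    unfold area
    rw [hmain, hwid, ENNReal.toReal_add hQ.2.1.measure_ne_top
      (ENNReal.mul_ne_top ENNReal.ofReal_ne_top ENNReal.ofReal_ne_top), ENNReal.toReal_mul,
      ENNReal.toReal_ofReal (by linarith), ENNReal.toReal_ofReal (hW Q hQ _).1]
  · intro x
    rw [hPmem]
    constructor
    · rintro ⟨q, hq, hx⟩
      exact ⟨dotu θ q, (memA _ _).2 ⟨q, hq, hx, rfl⟩⟩
    · rintro ⟨t, ht⟩
      obtain ⟨q, hq, hx, -⟩ := (memA _ _).1 ht
      exact ⟨q, hq, hx⟩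
  · intro x hx
    obtain ⟨q₀, hq₀, hx₀⟩ := (hPmem x).1 hx
    set σ : Set ℝ := {t | (x, t) ∈ ρ '' Q} with hσ
    have hσe : σ = dotu θ '' (Q ∩ {q | dotu φ q = x}) := by
      ext t
      simp only [hσ, Set.mem_ofPred_eq, memA, Set.mem_image, Set.mem_inter_iff]
      constructor
      · rintro ⟨q, h1, h2, h3⟩
        exact ⟨q, ⟨h1, h2⟩, h3⟩
      · rintro ⟨q, ⟨h1, h2⟩, h3⟩
        exact ⟨q, h1, h2, h3⟩
    have hclosed : IsClosed {q : ℝ × ℝ | dotu φ q = x} :=
      isClosed_eq (continuous_dotu_right φ) continuous_const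
    have hconv : Convex ℝ {q : ℝ × ℝ | dotu φ q = x} := by
      intro p hp q hq a b ha hb hab
      have hp' : dotu φ p = x := hp
      have hq' : dotu φ q = x := hq
      show dotu φ (a • p + b • q) = x
      rw [dotu_add, dotu_smul, dotu_smul, hp', hq', ← add_mul, hab, one_mul]
    have hcpt : IsCompact σ := by
      rw [hσe]
      exact (hQ.2.1.inter_right hclosed).image (continuous_dotu_right θ)
    have hcon : IsConnected σ := by
      refine ⟨⟨dotu θ q₀, (memA _ _).2 ⟨q₀, hq₀, hx₀, rfl⟩⟩, ?_⟩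
      rw [hσe]
      exact ((hQ.1.inter hconv).isPreconnected).image _ (continuous_dotu_right θ).continuousOn
    have hIcc := eq_Icc_of_connected_compact hcon hcpt
    have hab : sInf σ ≤ sSup σ := by
      have hne := hcon.1
      rw [hIcc] at hne
      exact Set.nonempty_Icc.1 hne
    refine ⟨sInf σ, sSup σ, hab, hIcc, ?_⟩
    set a := sInf σ
    set b := sSup σ
    ext t
    have hmem : ∀ s : ℝ, (a ≤ s ∧ s ≤ b) ↔ ∃ q ∈ Q, dotu φ q = x ∧ dotu θ q = s := by
      intro s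
      have : s ∈ σ ↔ s ∈ Icc a b := by rw [← hIcc]
      rw [← memA]
      exact this.symm
    show (x, t) ∈ ρ '' Q' ↔ a - c ≤ t ∧ t ≤ b + c
    rw [memA']
    constructor
    · rintro ⟨q, hq, r, hr1, hr2, h3, h4⟩
      have h5 := (hmem (dotu θ q)).2 ⟨q, hq, h3, rfl⟩
      constructor <;> linarith [h5.1, h5.2]
    · rintro ⟨h1, h2⟩
      have hs : ∃ s, (a ≤ s ∧ s ≤ b) ∧ -c ≤ t - s ∧ t - s ≤ c := by
        by_cases ht1 : t < a
        · exact ⟨a, ⟨le_rfl, hab⟩, by linarith, by linarith⟩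
        · by_cases ht2 : b < t
          · exact ⟨b, ⟨hab, le_rfl⟩, by linarith, by linarith⟩
          · exact ⟨t, ⟨not_lt.1 ht1, not_lt.1 ht2⟩, by linarith, by linarith⟩
      obtain ⟨s, hs1, hs2, hs3⟩ := hs
      obtain ⟨q, hq, h3, h4⟩ := (hmem s).1 hs1
      exact ⟨q, hq, t - s, hs2, hs3, h3, by linarith⟩
  · intro x hx
    ext t
    simp only [Set.mem_ofPred_eq, Set.mem_empty_iff_false, iff_false]
    intro ht
    obtain ⟨q, hq, r, -, -, h3, -⟩ := (memA' _ _).1 ht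
    exact hx ((hPmem x).2 ⟨q, hq, h3⟩)

end Pool.Agent.Lib.MP_084b88_gt.CW
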