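import Pool.Agent.Lib.MP_084b88_gt.CW.SpecD
import Pool.Agent.Lib.MP_084b88_gt.CW.DE2
import Pool.Agent.Lib.MP_084b88_gt.CW.SG2

/-!
# MP_084b88_gt, project CW: module WSC (stability of widths in the planar isoperimetric inequality)
-/

set_option autoImplicit false

open MeasureTheory Set Real Filter Topology
open scoped Pointwise InnerProductSpace

namespace Pool.Agent.Lib.MP_084b88_gt.CW

namespace WSCM

/-- A centred segment in direction `φ`. -/
def Sg (φ s : ℝ) : Set (ℝ × ℝ) :=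
  segment ℝ (-(s • ((cos φ, sin φ) : ℝ × ℝ))) (s • ((cos φ, sin φ) : ℝ × ℝ))

theorem Sg_CC (φ s : ℝ) : CC (Sg φ s) :=
  ⟨convex_segment _ _, SG2M.cpt_seg _ _, ⟨_, left_mem_segment ℝ _ _⟩⟩

theorem dotu_dir (θ φ : ℝ) : dotu θ (cos φ, sin φ) = cos (θ - φ) := by
  rw [dotu, cos_sub]
  ring

theorem sup2_Sg (φ s θ : ℝ) (hs : 0 ≤ s) : sup2 (Sg φ s) θ = s * |cos (θ - φ)| := by
  unfold sup2
  apply IsGreatest.csSup_eq
  constructor
  · rcases le_total 0 (cos (θ - φ)) with h | h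
    · refine ⟨s • (cos φ, sin φ), right_mem_segment ℝ _ _, ?_⟩
      rw [dotu_smul, dotu_dir, abs_of_nonneg h]
    · refine ⟨-(s • (cos φ, sin φ)), left_mem_segment ℝ _ _, ?_⟩
      rw [← neg_smul, dotu_smul, dotu_dir, abs_of_nonpos h]
      ring
  · rintro _ ⟨p, hp, rfl⟩
    obtain ⟨r, h1, h2, rfl⟩ := (SG2M.mem_seg _ hs p).1 hp
    rw [dotu_smul, dotu_dir]
    calc r * cos (θ - φ) ≤ |r * cos (θ - φ)| := le_abs_self _
      _ = |r| * |cos (θ - φ)| := abs_mul _ _
      _ ≤ s * |cos (θ - φ)| := by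
        apply mul_le_mul_of_nonneg_right _ (abs_nonneg _)
        exact abs_le.2 ⟨h1, h2⟩

theorem len_add_Sg (hWB2 : SpecWB2) {Q : Set (ℝ × ℝ)} (hQ : CC Q) (φ s : ℝ) (hs : 0 ≤ s) :
    len (Q + Sg φ s) = len Q + 2 * s := by
  obtain ⟨-, -, -, -, hadd, -, -, -, -, hcont, -⟩ := hWB2
  have hw : ∀ θ, wid (Q + Sg φ s) θ = wid Q θ + 2 * s * |cos (θ - φ)| := by
    intro θ
    have e : |cos (θ + π - φ)| = |cos (θ - φ)| := by
      rw [show θ + π - φ = (θ - φ) + π by ring, cos_add_pi, abs_neg]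
    rw [wid, hadd _ _ hQ (Sg_CC φ s), hadd _ _ hQ (Sg_CC φ s), sup2_Sg _ _ _ hs, sup2_Sg _ _ _ hs, e,
      wid]
    ring
  unfold len
  simp only [hw]
  rw [intervalIntegral.integral_add ((hcont Q hQ).2.intervalIntegrable _ _)
    (Continuous.intervalIntegrable (by fun_prop) _ _), intervalIntegral.integral_const_mul,
    de2_int_abs_cos]
  ring

theorem wid_le (hISO : SpecISO) (hSG2 : SpecSG2) (hWB2 : SpecWB2) {Q : Set (ℝ × ℝ)} (hQ : CC Q)
    {e : ℝ} (he : 0 ≤ e) (h : (1 - e ^ 2) * len Q ^ 2 ≤ π * area Q) (θ : ℝ) :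
    π * wid Q θ ≤ 2 * len Q * (1 + e) := by
  have hL : 0 ≤ len Q := (hWB2.2.2.2.2.2.2.2.2.1 Q hQ).1
  set L := len Q with hLd
  have key : ∀ s : ℝ, 0 < s → 2 * π * s * wid Q θ ≤ (e * L) ^ 2 + 4 * s * L + 4 * s ^ 2 := by
    intro s hs
    have h1 := hISO (Q + Sg (θ - π / 2) s)
      ⟨hQ.1.add (Sg_CC _ _).1, hQ.2.1.add (Sg_CC _ _).2.1, hQ.2.2.add (Sg_CC _ _).2.2⟩
    have h2 := hSG2 Q (θ - π / 2) s hQ hs.le
    rw [sub_add_cancel] at h2
    have h3 : area (Q + Sg (θ - π / 2) s) = area Q + 2 * s * wid Q θ := h2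
    rw [h3, len_add_Sg hWB2 hQ _ _ hs.le, ← hLd] at h1
    nlinarith
  rcases (mul_nonneg he hL).lt_or_eq with ha | ha
  · have h1 := key (e * L / 2) (by linarith)
    have h2 : (e * L) * (π * wid Q θ) ≤ (e * L) * (2 * L * (1 + e)) := by nlinarith
    exact le_of_mul_le_mul_left h2 ha
  · have h0 : ∀ s : ℝ, 0 < s → π * wid Q θ ≤ 2 * L * (1 + e) + 2 * s := by
      intro s hs
      have h1 := key s hs
      rw [← ha] at h1
      have h2 : s * (π * wid Q θ) ≤ s * (2 * L * (1 + e) + 2 * s) := by nlinarith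
      exact le_of_mul_le_mul_left h2 hs
    refine le_of_forall_pos_le_add fun ε hε => ?_
    have := h0 (ε / 2) (by linarith)
    linarith

theorem wid_lip (hWB2 : SpecWB2) {Q : Set (ℝ × ℝ)} (hQ : CC Q) {D : ℝ} (hD : ∀ θ, wid Q θ ≤ D)
    (θ t : ℝ) : wid Q θ ≤ wid Q t + D * |θ - t| := by
  obtain ⟨hle, hatt, -, -, -, -, -, -, -, -, -⟩ := hWB2
  obtain ⟨p, hp, hp2⟩ := hatt Q hQ θ
  obtain ⟨q, hq, hq2⟩ := hatt Q hQ (θ + π)
  rw [dotu_add_pi] at hq2
  have hw : ∀ φ, dotu φ p - dotu φ q ≤ wid Q φ := by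
    intro φ
    have h1 := hle Q hQ φ p hp
    have h2 := hle Q hQ (φ + π) q hq
    rw [dotu_add_pi] at h2
    rw [wid]
    linarith
  have e1 : wid Q θ = dotu θ p - dotu θ q := by
    rw [wid, ← hp2, ← hq2]
    ring
  set v1 := p.1 - q.1 with hv1
  set v2 := p.2 - q.2 with hv2
  have ed : ∀ φ, dotu φ p - dotu φ q = v1 * cos φ + v2 * sin φ := by
    intro φ
    rw [dotu, dotu, hv1, hv2]
    ring
  -- `|v| ≤ D`
  have hvD : v1 ^ 2 + v2 ^ 2 ≤ D ^ 2 := by
    set z : ℂ := ⟨v1, v2⟩ with hz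
    have h1 : ‖z‖ * cos z.arg = v1 := Complex.norm_mul_cos_arg z
    have h2 : ‖z‖ * sin z.arg = v2 := Complex.norm_mul_sin_arg z
    have h3 : v1 * cos z.arg + v2 * sin z.arg = ‖z‖ := by
      rw [← h1, ← h2]
      have := cos_sq_add_sin_sq z.arg
      calc ‖z‖ * cos z.arg * cos z.arg + ‖z‖ * sin z.arg * sin z.arg
          = ‖z‖ * (cos z.arg ^ 2 + sin z.arg ^ 2) := by ring
        _ = ‖z‖ := by rw [this, mul_one]
    have h4 := hw z.arg
    rw [ed, h3] at h4
    have h5 : ‖z‖ ≤ D := h4.trans (hD _)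
    have h6 : ‖z‖ ^ 2 = v1 ^ 2 + v2 ^ 2 := by
      rw [← Complex.normSq_eq_norm_sq, Complex.normSq_apply]
      ring
    rw [← h6]
    exact pow_le_pow_left₀ (norm_nonneg z) h5 2
  have hD0 : 0 ≤ D := by
    have h1 : 0 ≤ wid Q θ := by
      have h1 := hle Q hQ θ p hp
      have h2 := hle Q hQ (θ + π) p hp
      rw [dotu_add_pi] at h2
      rw [wid]
      linarith
    exact h1.trans (hD θ)
  have ht := hw t
  rw [ed] at ht
  rw [e1, ed]
  have hcs : |v1 * (cos θ - cos t) + v2 * (sin θ - sin t)| ≤ D * |θ - t| := by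
    apply abs_le_of_sq_le_sq _ (mul_nonneg hD0 (abs_nonneg _))
    have h1 : (cos θ - cos t) ^ 2 + (sin θ - sin t) ^ 2 ≤ (θ - t) ^ 2 := by
      have h2 := Real.one_sub_sq_div_two_le_cos (x := θ - t)
      rw [cos_sub] at h2
      have h3 := cos_sq_add_sin_sq θ
      have h4 := cos_sq_add_sin_sq t
      nlinarith
    have h5 : (v1 * (cos θ - cos t) + v2 * (sin θ - sin t)) ^ 2 ≤
        (v1 ^ 2 + v2 ^ 2) * ((cos θ - cos t) ^ 2 + (sin θ - sin t) ^ 2) := by
      nlinarith [sq_nonneg (v1 * (sin θ - sin t) - v2 * (cos θ - cos t))]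
    rw [mul_pow, sq_abs]
    refine h5.trans ?_
    exact mul_le_mul hvD h1 (by positivity) (sq_nonneg D)
  have := (abs_le.1 hcs).2
  linarith

end WSCM

open WSCM

theorem specWSC (hISO : SpecISO) (hSG2 : SpecSG2) (hWB2 : SpecWB2) : SpecWSC := by
  intro Q η hQ hη hη4 hA t t'
  have hπ := Real.pi_pos
  have hL : 0 ≤ len Q := (hWB2.2.2.2.2.2.2.2.2.1 Q hQ).1
  have hcont : Continuous (wid Q) := (hWB2.2.2.2.2.2.2.2.2.2.1 Q hQ).2
  have hper : ∀ θ, wid Q (θ + π) = wid Q θ := hWB2.2.2.2.2.2.2.2.2.2.2 Q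
  have hnn : ∀ θ, 0 ≤ wid Q θ := fun θ => (hWB2.2.2.2.2.2.2.2.1 Q hQ θ).1
  have hub := wid_le hISO hSG2 hWB2 hQ (e := η ^ 2) (by positivity) (by
    rw [← pow_mul]
    exact hA)
  set L := len Q with hLd
  rcases le_total (1 - 4 * η) 0 with hneg | hpos
  · exact (mul_nonpos_of_nonpos_of_nonneg hneg (hnn t')).trans (hnn t)
  have hη1 : η ≤ 1 / 4 := by linarith
  set W := 2 * L / π with hW
  set D := W * (1 + η ^ 2) with hDd
  have hW0 : 0 ≤ W := by positivity
  have hWD : W ≤ D := by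
    rw [hDd]
    nlinarith [sq_nonneg η]
  have hDub : ∀ θ, wid Q θ ≤ D := by
    intro θ
    have := hub θ
    have e : 2 * L * (1 + η ^ 2) = π * D := by
      rw [hDd, hW]
      field_simp
    rw [e] at this
    exact le_of_mul_le_mul_left this hπ
  suffices h : (1 - 4 * η) * D ≤ wid Q t from
    (mul_le_mul_of_nonneg_left (hDub t') hpos).trans h
  rcases le_total W (wid Q t) with hge | hlt
  · refine le_trans ?_ hge
    rw [hDd]
    have : (1 - 4 * η) * (1 + η ^ 2) ≤ 1 := by nlinarith [mul_nonneg hη (sq_nonneg η)]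
    nlinarith
  rcases hlt.eq_or_lt with heq | hlt
  · rw [heq]
    have : (1 - 4 * η) * (1 + η ^ 2) ≤ 1 := by nlinarith [mul_nonneg hη (sq_nonneg η)]
    rw [hDd]
    nlinarith
  set ξ := W - wid Q t with hξ
  have hξ0 : 0 < ξ := by linarith
  have hξW : ξ ≤ W := by linarith [hnn t]
  have hD0 : 0 < D := by linarith
  set δ := ξ / (2 * D) with hδ
  have hδ0 : 0 < δ := by positivity
  have hδD : D * δ = ξ / 2 := by
    rw [hδ]
    field_simp
  have hδ1 : δ ≤ 1 / 2 := by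
    rw [hδ, div_le_iff₀ (by linarith)]
    linarith
  have hπ3 : (3 : ℝ) < π := Real.pi_gt_three
  -- the mean value of `wid`
  have hI : ∫ θ in (t - π / 2)..(t + π / 2), wid Q θ = π * W := by
    have hp : Function.Periodic (wid Q) π := hper
    have h1 := hp.intervalIntegral_add_eq (t - π / 2) 0
    rw [show t - π / 2 + π = t + π / 2 by ring, zero_add] at h1
    rw [h1]
    have h2 : L = 1 / 2 * ∫ θ in (0 : ℝ)..π, wid Q θ := rfl
    rw [hW]
    field_simp
    linarith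
  have hii : ∀ a b : ℝ, IntervalIntegrable (wid Q) volume a b :=
    fun a b => hcont.intervalIntegrable a b
  rw [← intervalIntegral.integral_add_adjacent_intervals (hii (t - π / 2) (t - δ))
    (hii (t - δ) (t + π / 2)), ← intervalIntegral.integral_add_adjacent_intervals
    (hii (t - δ) (t + δ)) (hii (t + δ) (t + π / 2))] at hI
  have h1 : ∫ θ in (t - π / 2)..(t - δ), wid Q θ ≤ (π / 2 - δ) * D := by
    calc ∫ θ in (t - π / 2)..(t - δ), wid Q θ ≤ ∫ θ in (t - π / 2)..(t - δ), D :=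
          intervalIntegral.integral_mono_on (by linarith) (hii _ _)
            intervalIntegrable_const (fun x _ => hDub x)
      _ = (π / 2 - δ) * D := by
          rw [intervalIntegral.integral_const, smul_eq_mul]
          ring
  have h2 : ∫ θ in (t + δ)..(t + π / 2), wid Q θ ≤ (π / 2 - δ) * D := by
    calc ∫ θ in (t + δ)..(t + π / 2), wid Q θ ≤ ∫ θ in (t + δ)..(t + π / 2), D :=
          intervalIntegral.integral_mono_on (by linarith) (hii _ _)
            intervalIntegrable_const (fun x _ => hDub x)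
      _ = (π / 2 - δ) * D := by
          rw [intervalIntegral.integral_const, smul_eq_mul]
          ring
  have h3 : ∫ θ in (t - δ)..(t + δ), wid Q θ ≤ 2 * δ * (W - ξ / 2) := by
    calc ∫ θ in (t - δ)..(t + δ), wid Q θ ≤ ∫ θ in (t - δ)..(t + δ), (W - ξ / 2) := by
          refine intervalIntegral.integral_mono_on (by linarith) (hii _ _)
            intervalIntegrable_const (fun x hx => ?_)
          have h4 := wid_lip hWB2 hQ hDub x t
          have h5 : |x - t| ≤ δ := abs_le.2 ⟨by linarith [hx.1], by linarith [hx.2]⟩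
          have h6 := mul_le_mul_of_nonneg_left h5 hD0.le
          linarith
      _ = 2 * δ * (W - ξ / 2) := by
          rw [intervalIntegral.integral_const, smul_eq_mul]
          ring
  have h4 : δ * ξ ≤ π * η ^ 2 * W := by
    have e : D = W + W * η ^ 2 := by rw [hDd]; ring
    have h5 : π * D = π * W + π * η ^ 2 * W := by rw [e]; ring
    nlinarith
  have h5 : ξ ^ 2 ≤ (3 * η * D) ^ 2 := by
    have h6 : ξ ^ 2 = 2 * D * (δ * ξ) := by
      rw [hδ]
      field_simp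
    rw [h6]
    have hπ4 : π < 3.15 := Real.pi_lt_d2
    calc 2 * D * (δ * ξ) ≤ 2 * D * (π * η ^ 2 * W) := by gcongr
      _ ≤ 2 * D * (π * η ^ 2 * D) := by gcongr
      _ = 2 * π * (η * D) ^ 2 := by ring
      _ ≤ 9 * (η * D) ^ 2 := by
          apply mul_le_mul_of_nonneg_right _ (sq_nonneg _)
          linarith
      _ = (3 * η * D) ^ 2 := by ring
  have h6 : ξ ≤ 3 * η * D := by
    have := abs_le_of_sq_le_sq h5 (by positivity)
    rwa [abs_of_pos hξ0] at this
  have h7 : D * (1 - η ^ 2) ≤ W := by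
    rw [hDd]
    have : W * (1 + η ^ 2) * (1 - η ^ 2) = W - W * (η ^ 2) ^ 2 := by ring
    rw [this]
    have : 0 ≤ W * (η ^ 2) ^ 2 := by positivity
    linarith
  have h8 : η ^ 2 * D ≤ η * D := by
    apply mul_le_mul_of_nonneg_right _ hD0.le
    nlinarith
  have h9 : wid Q t = W - ξ := by rw [hξ]; ring
  rw [h9]
  nlinarith

end Pool.Agent.Lib.MP_084b88_gt.CW
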