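import Pool.Agent.Lib.MP_084b88_gt.CW.AllCW
import Pool.Agent.Lib.MP_084b88_gt.CW.HPB
import Pool.Agent.Lib.MP_084b88_gt.CW.WMB
import Pool.Agent.Lib.MP_084b88_gt.CW.QQ4
import Pool.Agent.Lib.MP_084b88_gt.CW.GAG
import Pool.Agent.Lib.MP_084b88_gt.CW.GAL
import Pool.Agent.Lib.MP_084b88_gt.CW.GS1
import Pool.Agent.Lib.MP_084b88_gt.CW.GS2
import Pool.Agent.Lib.MP_084b88_gt.CW.GS3
import Pool.Agent.Lib.MP_084b88_gt.CW.ORB
import Pool.Agent.Lib.MP_084b88_gt.CW.PSB
import Pool.Agent.Lib.MP_084b88_gt.CW.COE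
import Pool.Agent.Lib.MP_084b88_gt.CW.G3B
import Pool.Agent.Lib.MP_084b88_gt.CW.LPB
import Pool.Agent.Lib.MP_084b88_gt.CW.LPG
import Pool.Agent.Lib.MP_084b88_gt.CW.GSM
import Pool.Agent.Lib.MP_084b88_gt.CW.GAP
import Pool.Agent.Lib.MP_084b88_gt.CW.GCV
import Pool.Agent.Lib.MP_084b88_gt.CW.GDU
import Pool.Agent.Lib.MP_084b88_gt.CW.GLM
import Pool.Agent.Lib.MP_084b88_gt.CW.PNP
import Pool.Agent.Lib.MP_084b88_gt.CW.MEB
import Pool.Agent.Lib.MP_084b88_gt.CW.NUC
import Pool.Agent.Lib.MP_084b88_gt.CW.NFX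
import Pool.Agent.Lib.MP_084b88_gt.CW.LN3
import Pool.Agent.Lib.MP_084b88_gt.CW.SUL
import Pool.Agent.Lib.MP_084b88_gt.CW.ARE
import Pool.Agent.Lib.MP_084b88_gt.CW.RE1
import Pool.Agent.Lib.MP_084b88_gt.CW.PNE
import Pool.Agent.Lib.MP_084b88_gt.CW.ISO
import Pool.Agent.Lib.MP_084b88_gt.CW.WSC
import Pool.Agent.Lib.MP_084b88_gt.CW.C0K

/-!
# MP_084b88_gt, project CW: assembly of parts C and D
-/

set_option autoImplicit false

namespace Pool.Agent.Lib.MP_084b88_gt.CW

theorem allHPB : SpecHPB := specHPB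
theorem allWMB : SpecWMB := specWMB allHPB
theorem allQQ4 : SpecQQ4 := specQQ4
theorem allGAG : SpecGAG := specGAG allHPB allWMB
theorem allGAL : SpecGAL := specGAL allGAG allHPB
theorem allGS1 : SpecGS1 := specGS1 allHPB allQQP allQQ4 allGAG allGAL
theorem allLPG : SpecLPG := specLPG
theorem allGS2 : SpecGS2 := specGS2 allGAL allGAG allHPB allQQ4 allLPG
theorem allGS3 : SpecGS3 := specGS3 allHPB allWMB
theorem allORB : SpecORB := specORB
theorem allPSB : SpecPSB := specPSB allORB allHPB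
theorem allCOE : SpecCOE := specCOE specTAU
theorem allG3B : SpecG3B := specG3B allHPB
theorem allLPB : SpecLPB := specLPB allHPB
theorem allGCV : SpecGCV := specGCV
theorem allGSM : SpecGSM :=
  specGSM allGS1 allGS2 allGS3 allPSB allLPB allG3B allCOE allHPB allGCV allGAG
theorem allGAP : SpecGAP := specGAP specKCO specKWA allHPB
theorem allGDU : SpecGDU := specGDU allRO2 allWB2
theorem allGLM : SpecGLM := specGLM allGSM allGAP allGCV allGAG allHPB
theorem allPNP : SpecPNP := specPNP allGLM allGDU allWB2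
theorem allMEB : SpecMEB := specMEB allHSB allRO2 allWB2
theorem allNUC : SpecNUC := specNUC allSST allCO3
theorem allNFX : SpecNFX := specNFX allWB2
theorem allLN3 : SpecLN3 := specLN3 allMEB
theorem allSUL : SpecSUL := specSUL allHSB allMEB
theorem allARE : SpecARE := specARE allWB2 allRO2
theorem allRE1 : SpecRE1 := specRE1 allMEA allMEB allLEN allCAU allNUC allNFX
theorem allPNE : SpecPNE := specPNE allPNP allMEA allMEB
theorem allISO : SpecISO := specISO allPST allWB2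
theorem allWSC : SpecWSC := specWSC allISO allSG2 allWB2
theorem allC0K : SpecC0K := specC0K allWSC allSST allWB2

end Pool.Agent.Lib.MP_084b88_gt.CW
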