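import Pool.Agent.Lib.MP_084b88_gt.CW.AllE
import Pool.Agent.Lib.MP_084b88_gt.CW.RE3

/-!
# MP_084b88_gt, project CW: assembly of part E2
-/

set_option autoImplicit false

namespace Pool.Agent.Lib.MP_084b88_gt.CW

theorem allRT1 : SpecRT1 := specRT1 allMEA allNUG allNFG
theorem allRE2D : SpecRE2D := specRE2D allMEA allMEB' allLEN allCAU allRTG
theorem allONE : SpecONE := specONE allMEA allLEN allCAU allRT1

end Pool.Agent.Lib.MP_084b88_gt.CW
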