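import Pool.Agent.Lib.MP_084b88_gt.CW.SpecA

/-!
# MP_084b88_gt, project CW, module NFU: the test function integral as an average of `qf`
-/

set_option autoImplicit false

open MeasureTheory Set Real Filter Topology
open scoped Pointwise InnerProductSpace

namespace Pool.Agent.Lib.MP_084b88_gt.CW

namespace NFUM

theorem cd_cyc (R : O3) (θ : ℝ) (x : E3) :
    cd (R * cyc θ) x = (⟪col R 2, x⟫_ℝ, dotu θ (cd R x)) := by
  unfold cd dotu
  rw [col_cyc_zero, col_cyc_one, inner_add_left, inner_smul_left, inner_smul_left]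
  simp [mul_comm]

/-- The slice of the projection is the image of the section. -/
theorem slice_pr (R : O3) (θ s : ℝ) (K : Set E3) :
    Prod.mk s ⁻¹' (pr (R * cyc θ) K) = dotu θ '' (sec R s K) := by
  ext t
  simp only [mem_preimage, pr, sec, mem_image, cd_cyc, Prod.mk.injEq]
  constructor
  · rintro ⟨x, hx, h1, h2⟩
    exact ⟨cd R x, ⟨x, ⟨hx, h1⟩, rfl⟩, h2⟩
  · rintro ⟨p, ⟨x, ⟨hx, h1⟩, rfl⟩, h2⟩
    exact ⟨x, hx, h1, h2⟩

theorem CC_sec (R : O3) (s : ℝ) (K : Set E3) (hK : CC K) (h : (sec R s K).Nonempty) :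
    CC (sec R s K) := by
  refine ⟨?_, ?_, h⟩
  · have h1 : Convex ℝ (K ∩ {x : E3 | ⟪col R 2, x⟫_ℝ = s}) := by
      apply hK.1.inter
      intro x hx y hy a b _ _ hab
      simp only [mem_ofPred_eq] at hx hy ⊢
      rw [inner_add_right, inner_smul_right, inner_smul_right, hx, hy, ← add_mul, hab, one_mul]
    have h2 : IsLinearMap ℝ (cd R) := ⟨cd_add R, cd_smul R⟩
    exact h1.is_linear_image h2
  · have h1 : IsCompact (K ∩ {x : E3 | ⟪col R 2, x⟫_ℝ = s}) := by
      apply hK.2.1.inter_right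
      exact isClosed_eq (continuous_const.inner continuous_id) continuous_const
    exact h1.image (continuous_cd_right R)

theorem vol_slice (hWB : SpecWB2) (R : O3) (θ s : ℝ) (K : Set E3) (hK : CC K) :
    (volume (dotu θ '' (sec R s K))).toReal = wid (sec R s K) θ := by
  by_cases h : (sec R s K).Nonempty
  · obtain ⟨h0, h1⟩ := hWB.2.2.2.2.2.2.2.1 _ (CC_sec R s K hK h) θ
    rw [h1, Real.volume_Icc, ENNReal.toReal_ofReal]
    · unfold wid; ring
    · unfold wid at h0; linarith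
  · rw [not_nonempty_iff_eq_empty] at h
    rw [h]; simp [wid, sup2]

/-- The compact set of all slices. -/
def SS (R : O3) (K : Set E3) : Set ((ℝ × ℝ) × ℝ) :=
  (fun a : E3 × ℝ => (((⟪col R 2, a.1⟫_ℝ, a.2) : ℝ × ℝ), dotu a.2 (cd R a.1))) ''
    (K ×ˢ Icc (0 : ℝ) π)

theorem SS_compact (R : O3) (K : Set E3) (hK : CC K) : IsCompact (SS R K) := by
  apply (hK.2.1.prod isCompact_Icc).image
  refine Continuous.prodMk (Continuous.prodMk ?_ continuous_snd) ?_
  · exact continuous_const.inner continuous_fst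
  · exact continuous_dotu.comp (continuous_snd.prodMk
      ((continuous_cd_right R).comp continuous_fst))

theorem SS_slice (R : O3) (K : Set E3) (s θ : ℝ) (hθ : θ ∈ Icc (0 : ℝ) π) :
    Prod.mk (s, θ) ⁻¹' SS R K = dotu θ '' (sec R s K) := by
  ext t
  simp only [mem_preimage, SS, sec, mem_image, Prod.mk.injEq]
  constructor
  · rintro ⟨⟨x, φ⟩, ⟨hx, _⟩, ⟨h1, h2⟩, h3⟩
    simp only at hx h1 h2 h3
    subst h2
    exact ⟨cd R x, ⟨x, ⟨hx, h1⟩, rfl⟩, h3⟩
  · rintro ⟨p, ⟨x, ⟨hx, h1⟩, rfl⟩, h2⟩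
    exact ⟨(x, θ), ⟨hx, hθ⟩, ⟨h1, rfl⟩, h2⟩

/-- Measurable version of the width. -/
noncomputable def WW (R : O3) (K : Set E3) (a : ℝ × ℝ) : ℝ :=
  (volume (Prod.mk a ⁻¹' SS R K)).toReal

theorem WW_meas (R : O3) (K : Set E3) (hK : CC K) : Measurable (WW R K) :=
  (measurable_measure_prodMk_left (SS_compact R K hK).measurableSet).ennreal_toReal

theorem WW_eq (hWB : SpecWB2) (R : O3) (K : Set E3) (hK : CC K) (s θ : ℝ)
    (hθ : θ ∈ Icc (0 : ℝ) π) : WW R K (s, θ) = wid (sec R s K) θ := by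
  unfold WW
  rw [SS_slice R K s θ hθ, vol_slice hWB R θ s K hK]

theorem abs_dotu_cd_le (R : O3) (θ : ℝ) (x : E3) : |dotu θ (cd R x)| ≤ ‖x‖ := by
  rw [dotu_cd]
  refine (abs_real_inner_le_norm _ _).trans ?_
  rw [norm_col, one_mul]

theorem WW_bound (R : O3) (K : Set E3) (C : ℝ) (hC : ∀ x ∈ K, ‖x‖ ≤ C) (hC0 : 0 ≤ C) (a : ℝ × ℝ) :
    WW R K a ≤ 2 * C := by
  unfold WW
  have h : Prod.mk a ⁻¹' SS R K ⊆ Icc (-C) C := by
    rintro t ⟨⟨x, φ⟩, ⟨hx, _⟩, h⟩
    simp only [Prod.ext_iff] at h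
    rw [← h.2]
    exact abs_le.1 ((abs_dotu_cd_le R φ x).trans (hC x hx))
  have h2 : (volume (Icc (-C) C)).toReal = 2 * C := by
    rw [Real.volume_Icc, ENNReal.toReal_ofReal (by linarith)]; ring
  rw [← h2]
  exact ENNReal.toReal_mono (by rw [Real.volume_Icc]; exact ENNReal.ofReal_ne_top) (measure_mono h)

theorem WW_nonneg (R : O3) (K : Set E3) (a : ℝ × ℝ) : 0 ≤ WW R K a := ENNReal.toReal_nonneg

theorem sup2_pr_zero (R : O3) (θ : ℝ) (K : Set E3) :
    sup2 (pr (R * cyc θ) K) 0 = HS K (col R 2) := by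
  unfold sup2 HS pr
  rw [image_image]
  congr 1
  apply image_congr
  intro x _
  rw [cd_cyc]; simp [dotu]

theorem sup2_pr_pi (R : O3) (θ : ℝ) (K : Set E3) :
    sup2 (pr (R * cyc θ) K) (0 + π) = HS K (-(col R 2)) := by
  unfold sup2 HS pr
  rw [image_image]
  congr 1
  apply image_congr
  intro x _
  rw [cd_cyc, inner_neg_left]; simp [dotu]

theorem bd_inner (K : Set E3) (hK : CC K) (u : E3) : BddAbove ((fun y => ⟪u, y⟫_ℝ) '' K) :=
  (hK.2.1.image (continuous_const.inner continuous_id)).bddAbove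

theorem inner_le_HS (K : Set E3) (hK : CC K) (u x : E3) (hx : x ∈ K) : ⟪u, x⟫_ℝ ≤ HS K u :=
  le_csSup (bd_inner K hK u) ⟨x, hx, rfl⟩

/-- Fubini in the plane for one projection. -/
theorem qf_eq (hWB : SpecWB2) (K : Set E3) (hK : CC K) (R : O3) (θ B g : ℝ)
    (hB : B = (HS K (col R 2) + HS K (-(col R 2))) / 2)
    (hg : g = (HS K (col R 2) - HS K (-(col R 2))) / 2) :
    qf (pr (R * cyc θ) K) 0 =
      ∫ s in Ioo (g - B) (g + B), wid (sec R s K) θ * √(1 - ((s - g) / B) ^ 2) := by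
  set f : ℝ → ℝ := fun s => √(1 - ((s - g) / B) ^ 2) with hf
  have hfc : Continuous f := by rw [hf]; fun_prop
  set Q : Set (ℝ × ℝ) := pr (R * cyc θ) K with hQ
  have hQc : IsCompact Q := hK.2.1.image (continuous_cd_right _)
  have hQm : MeasurableSet Q := hQc.measurableSet
  have hwid : wid Q 0 / 2 = B := by
    rw [wid, hQ, sup2_pr_zero, sup2_pr_pi, hB]
  have hmid : mid Q 0 = g := by
    rw [mid, hQ, sup2_pr_zero, sup2_pr_pi, hg]
  have h1 : qf Q 0 = ∫ p in Q, f p.1 := by
    unfold qf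
    rw [hwid, hmid]
    apply setIntegral_congr_fun hQm
    intro p _
    simp [hf, dotu]
  have hint : Integrable (Q.indicator (fun p : ℝ × ℝ => f p.1)) (volume.prod volume) := by
    have h2 : IntegrableOn (fun p : ℝ × ℝ => f p.1) Q volume :=
      (hfc.comp continuous_fst).continuousOn.integrableOn_compact hQc
    exact (integrable_indicator_iff hQm).2 h2
  have h2 : ∫ p in Q, f p.1 = ∫ s, wid (sec R s K) θ * f s := by
    rw [← integral_indicator hQm]
    change ∫ p, Q.indicator (fun p : ℝ × ℝ => f p.1) p ∂(volume.prod volume) = _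
    rw [integral_prod _ hint]
    congr 1
    funext s
    have h3 : (fun t : ℝ => Q.indicator (fun p : ℝ × ℝ => f p.1) (s, t)) =
        (Prod.mk s ⁻¹' Q).indicator (fun _ => f s) := by
      funext t
      by_cases ht : (s, t) ∈ Q
      · rw [indicator_of_mem ht, indicator_of_mem (by exact ht)]
      · rw [indicator_of_notMem ht, indicator_of_notMem (by exact ht)]
    rw [h3, integral_indicator (measurable_prodMk_left hQm), setIntegral_const, smul_eq_mul]
    congr 1
    rw [hQ, slice_pr, Measure.real, vol_slice hWB R θ s K hK]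
  rw [h1, h2, ← integral_Icc_eq_integral_Ioo]
  symm
  apply setIntegral_eq_integral_of_forall_compl_eq_zero
  intro s hs
  have hempty : sec R s K = ∅ := by
    rw [eq_empty_iff_forall_notMem]
    rintro p ⟨x, ⟨hx, hxs⟩, rfl⟩
    apply hs
    simp only [mem_ofPred_eq] at hxs
    have ha := inner_le_HS K hK (col R 2) x hx
    have hb := inner_le_HS K hK (-(col R 2)) x hx
    rw [inner_neg_left] at hb
    rw [hxs] at ha hb
    constructor
    · rw [hB, hg]; linarith
    · rw [hB, hg]; linarith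
  rw [hempty]; simp [wid, sup2]

end NFUM

open NFUM in
theorem specNFU (hWB : SpecWB2) : SpecNFU := by
  intro K hK _ R B g hB hg
  set f : ℝ → ℝ := fun s => √(1 - ((s - g) / B) ^ 2) with hf
  have hfc : Continuous f := by rw [hf]; fun_prop
  have hf0 : ∀ s, 0 ≤ f s := fun s => Real.sqrt_nonneg _
  have hf1 : ∀ s, f s ≤ 1 := by
    intro s
    rw [hf]
    simp only
    rw [Real.sqrt_le_one]
    nlinarith [sq_nonneg ((s - g) / B)]
  obtain ⟨C, hC⟩ := hK.2.1.isBounded.exists_norm_le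
  have hC0 : 0 ≤ C := by
    obtain ⟨x, hx⟩ := hK.2.2
    exact (norm_nonneg x).trans (hC x hx)
  have hmeasF : Measurable (fun a : ℝ × ℝ => WW R K a * f a.1) :=
    (WW_meas R K hK).mul (hfc.measurable.comp measurable_fst)
  have hint : Integrable (Function.uncurry (fun s θ => WW R K (s, θ) * f s))
      ((volume.restrict (Ioo (g - B) (g + B))).prod (volume.restrict (Ioc (0 : ℝ) π))) := by
    apply Integrable.of_bound (C := 2 * C * 1)
    · exact hmeasF.aestronglyMeasurable
    · refine Filter.Eventually.of_forall ?_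
      rintro ⟨s, θ⟩
      simp only [Function.uncurry]
      rw [norm_mul, Real.norm_of_nonneg (WW_nonneg R K _), Real.norm_of_nonneg (hf0 s)]
      exact mul_le_mul (WW_bound R K C hC hC0 _) (hf1 s) (hf0 s) (by linarith)
  have hL : ∀ s, len (sec R s K) * √(1 - ((s - g) / B) ^ 2) =
      (1 / 2) * ∫ θ in Ioc (0 : ℝ) π, WW R K (s, θ) * f s := by
    intro s
    unfold len
    rw [intervalIntegral.integral_of_le pi_pos.le, integral_mul_const]
    have : ∫ θ in Ioc (0 : ℝ) π, wid (sec R s K) θ = ∫ θ in Ioc (0 : ℝ) π, WW R K (s, θ) := by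
      apply setIntegral_congr_fun measurableSet_Ioc
      intro θ hθ
      simp only
      rw [WW_eq hWB R K hK s θ ⟨hθ.1.le, hθ.2⟩]
    rw [this]
    ring
  simp_rw [hL]
  rw [integral_const_mul, integral_integral_swap hint, intervalIntegral.integral_of_le pi_pos.le]
  congr 1
  apply setIntegral_congr_fun measurableSet_Ioc
  intro θ hθ
  simp only
  rw [qf_eq hWB K hK R θ B g hB hg]
  apply setIntegral_congr_fun measurableSet_Ioo
  intro s _
  simp only
  rw [WW_eq hWB R K hK s θ ⟨hθ.1.le, hθ.2⟩]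

end Pool.Agent.Lib.MP_084b88_gt.CW
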