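import Pool.Agent.Lib.MP_084b88_gt.CW.SpecE
import Pool.Agent.Lib.MP_084b88_gt.CW.NFU

/-!
# MP_084b88_gt, project CW: NFG (any continuous test function; copy of NFU)
-/

set_option autoImplicit false

open MeasureTheory Set Real Filter Topology
open scoped Pointwise InnerProductSpace

namespace Pool.Agent.Lib.MP_084b88_gt.CW

namespace NFGM

open NFUM

/-- Fubini in the plane for one projection. -/
theorem pf_eq (hWB : SpecWB2) (K : Set E3) (hK : CC K) (R : O3) (θ B g : ℝ)
    (hB : B = (HS K (col R 2) + HS K (-(col R 2))) / 2)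
    (hg : g = (HS K (col R 2) - HS K (-(col R 2))) / 2) (φ : ℝ → ℝ) (hφ : Continuous φ) :
    pf φ (pr (R * cyc θ) K) 0 =
      ∫ s in Ioo (g - B) (g + B), wid (sec R s K) θ * φ ((s - g) / B) := by
  set f : ℝ → ℝ := fun s => φ ((s - g) / B) with hf
  have hfc : Continuous f := by rw [hf]; fun_prop
  set Q : Set (ℝ × ℝ) := pr (R * cyc θ) K with hQ
  have hQc : IsCompact Q := hK.2.1.image (continuous_cd_right _)
  have hQm : MeasurableSet Q := hQc.measurableSet
  have hwid : wid Q 0 / 2 = B := by
    rw [wid, hQ, sup2_pr_zero, sup2_pr_pi, hB]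
  have hmid : mid Q 0 = g := by
    rw [mid, hQ, sup2_pr_zero, sup2_pr_pi, hg]
  have h1 : pf φ Q 0 = ∫ p in Q, f p.1 := by
    unfold pf
    rw [hwid, hmid]
    apply setIntegral_congr_fun hQm
    intro p _
    simp [hf, dotu]
  have hint : Integrable (Q.indicator (fun p : ℝ × ℝ => f p.1)) (volume.prod volume) := by
    have h2 : IntegrableOn (fun p : ℝ × ℝ => f p.1) Q volume :=
      (hfc.comp continuous_fst).continuousOn.integrableOn_compact hQc
    exact (integrable_indicator_iff hQm).2 h2
  have h2 : ∫ p in Q, f p.1 = ∫ s, wid (sec R s K) θ * f s := by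
    rw [← integral_indicator hQm]
    change ∫ p, Q.indicator (fun p : ℝ × ℝ => f p.1) p ∂(volume.prod volume) = _
    rw [integral_prod _ hint]
    congr 1
    funext s
    have h3 : (fun t : ℝ => Q.indicator (fun p : ℝ × ℝ => f p.1) (s, t)) =
        (Prod.mk s ⁻¹' Q).indicator (fun _ => f s) := by
      funext t
      by_cases ht : (s, t) ∈ Q
      · rw [indicator_of_mem ht, indicator_of_mem (by exact ht)]
      · rw [indicator_of_notMem ht, indicator_of_notMem (by exact ht)]
    rw [h3, integral_indicator (measurable_prodMk_left hQm), setIntegral_const, smul_eq_mul]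
    congr 1
    rw [hQ, slice_pr, Measure.real, vol_slice hWB R θ s K hK]
  rw [h1, h2, ← integral_Icc_eq_integral_Ioo]
  symm
  apply setIntegral_eq_integral_of_forall_compl_eq_zero
  intro s hs
  have hempty : sec R s K = ∅ := by
    rw [eq_empty_iff_forall_notMem]
    rintro p ⟨x, ⟨hx, hxs⟩, rfl⟩
    apply hs
    simp only [mem_ofPred_eq] at hxs
    have ha := inner_le_HS K hK (col R 2) x hx
    have hb := inner_le_HS K hK (-(col R 2)) x hx
    rw [inner_neg_left] at hb
    rw [hxs] at ha hb
    constructor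
    · rw [hB, hg]; linarith
    · rw [hB, hg]; linarith
  rw [hempty]; simp [wid, sup2]

end NFGM

open NFUM NFGM in
theorem specNFG (hWB : SpecWB2) : SpecNFG := by
  intro K hK _ R B g hB hg φ hφ
  set φc : ℝ → ℝ := fun x => φ (max (-1) (min 1 x)) with hφc
  have hφcc : Continuous φc := by rw [hφc]; fun_prop
  obtain ⟨Cφ, hCφ⟩ := isCompact_Icc.exists_bound_of_continuousOn
    (s := Icc (-1 : ℝ) 1) hφ.continuousOn
  set f : ℝ → ℝ := fun s => φc ((s - g) / B) with hf
  have hfc : Continuous f := by rw [hf]; fun_prop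
  have hf1 : ∀ s, ‖f s‖ ≤ Cφ := by
    intro s
    exact hCφ _ ⟨le_max_left _ _, max_le (by norm_num) (min_le_left _ _)⟩
  have hCφ0 : 0 ≤ Cφ := (norm_nonneg _).trans (hf1 0)
  have hfeq : ∀ s ∈ Ioo (g - B) (g + B), f s = φ ((s - g) / B) := by
    intro s hs
    have hBpos : 0 < B := by linarith [hs.1, hs.2]
    have h1 : (s - g) / B ≤ 1 := by rw [div_le_one hBpos]; linarith [hs.2]
    have h2 : -1 ≤ (s - g) / B := by rw [le_div_iff₀ hBpos]; linarith [hs.1]
    simp only [hf, hφc]
    rw [min_eq_right h1, max_eq_right h2]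
  obtain ⟨C, hC⟩ := hK.2.1.isBounded.exists_norm_le
  have hC0 : 0 ≤ C := by
    obtain ⟨x, hx⟩ := hK.2.2
    exact (norm_nonneg x).trans (hC x hx)
  have hmeasF : Measurable (fun a : ℝ × ℝ => WW R K a * f a.1) :=
    (WW_meas R K hK).mul (hfc.measurable.comp measurable_fst)
  have hint : Integrable (Function.uncurry (fun s θ => WW R K (s, θ) * f s))
      ((volume.restrict (Ioo (g - B) (g + B))).prod (volume.restrict (Ioc (0 : ℝ) π))) := by
    apply Integrable.of_bound (C := 2 * C * Cφ)
    · exact hmeasF.aestronglyMeasurable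
    · refine Filter.Eventually.of_forall ?_
      rintro ⟨s, θ⟩
      simp only [Function.uncurry]
      rw [norm_mul, Real.norm_of_nonneg (WW_nonneg R K _)]
      exact mul_le_mul (WW_bound R K C hC hC0 _) (hf1 s) (norm_nonneg _) (by linarith)
  have hL : ∀ s ∈ Ioo (g - B) (g + B), len (sec R s K) * φ ((s - g) / B) =
      (1 / 2) * ∫ θ in Ioc (0 : ℝ) π, WW R K (s, θ) * f s := by
    intro s hs
    rw [← hfeq s hs]
    unfold len
    rw [intervalIntegral.integral_of_le pi_pos.le, integral_mul_const]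
    have : ∫ θ in Ioc (0 : ℝ) π, wid (sec R s K) θ = ∫ θ in Ioc (0 : ℝ) π, WW R K (s, θ) := by
      apply setIntegral_congr_fun measurableSet_Ioc
      intro θ hθ
      simp only
      rw [WW_eq hWB R K hK s θ ⟨hθ.1.le, hθ.2⟩]
    rw [this]
    ring
  rw [setIntegral_congr_fun measurableSet_Ioo hL]
  rw [integral_const_mul, integral_integral_swap hint, intervalIntegral.integral_of_le pi_pos.le]
  congr 1
  apply setIntegral_congr_fun measurableSet_Ioc
  intro θ hθ
  simp only
  rw [pf_eq hWB K hK R θ B g hB hg φ hφ]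
  apply setIntegral_congr_fun measurableSet_Ioo
  intro s hs
  simp only
  rw [WW_eq hWB R K hK s θ ⟨hθ.1.le, hθ.2⟩, hfeq s hs]

end Pool.Agent.Lib.MP_084b88_gt.CW
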