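import Pool.Agent.Lib.MP_084b88_gt.CW.SpecE
import Pool.Agent.Lib.MP_084b88_gt.CW.NUB

/-!
# MP_084b88_gt, project CW: NUG (any continuous test function; copy of NUB)
-/

set_option autoImplicit false

open MeasureTheory Set Real Filter Topology
open scoped Pointwise InnerProductSpace

namespace Pool.Agent.Lib.MP_084b88_gt.CW

namespace NUGM

theorem int_phi {B g : ℝ} (hB : 0 < B) (φ : ℝ → ℝ) :
    ∫ s in Ioo (g - B) (g + B), φ ((s - g) / B) ^ 2 = B * ∫ s in (-1 : ℝ)..1, φ s ^ 2 := by
  have h0 : g - B ≤ g + B := by linarith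
  rw [← integral_Ioc_eq_integral_Ioo, ← intervalIntegral.integral_of_le h0]
  have h1 : ∀ s : ℝ, (s - g) / B = s / B - g / B := fun s => sub_div s g B
  simp_rw [h1]
  rw [intervalIntegral.integral_comp_div_sub (fun x => φ x ^ 2) hB.ne' (g / B), smul_eq_mul]
  have e1 : (g - B) / B - g / B = -1 := by field_simp; ring
  have e2 : (g + B) / B - g / B = 1 := by field_simp; ring
  rw [e1, e2]

end NUGM

open NUBM NUGM in
/-- **NUG**. Any continuous test function. -/
theorem specNUG (hSST : SpecSST) (hCO3 : SpecCO3) : SpecNUG := by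
  intro K hK hint c hc hH R B g hBdef hgdef φ hφ
  set u := col R 2 with hu
  have hun : ‖u‖ = 1 := norm_col R 2
  have hgB : g + B = HS K u := by rw [hBdef, hgdef]; ring
  have hgB' : g - B = -HS K (-u) := by rw [hBdef, hgdef]; ring
  have hB : 0 < B := by
    have := width_pos hK hint u hun
    rw [← hgB, ← hgB'] at this
    linarith
  rcases hc.eq_or_lt with h0 | hcpos
  · rw [← h0, zero_mul]
    have := ENNReal.toReal_nonneg (a := volume K)
    have h2 : 0 ≤ ∫ s in (-1 : ℝ)..1, φ s ^ 2 :=
      intervalIntegral.integral_nonneg (by norm_num) (fun s _ => sq_nonneg _)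
    positivity
  -- the inequality in every section
  have hsec : ∀ s ∈ Ioo (g - B) (g + B), CC (sec R s K) ∧
      c * len (sec R s K) ^ 2 ≤ π * area (sec R s K) := by
    intro s hs
    obtain ⟨x, hx, hxs⟩ := level hK hint u (by rw [← hgB']; exact hs.1) (by rw [← hgB]; exact hs.2)
    have hne : (K ∩ {x | ⟪col R 2, x⟫_ℝ = s}).Nonempty := ⟨x, interior_subset hx, hxs⟩
    refine ⟨sec_cc hK R s hne, ?_⟩
    have hmem : ∀ y : E3, y ∈ AffineSubspace.mk' (s • u) (ℝ ∙ u)ᗮ ↔ ⟪u, y⟫_ℝ = s := by
      intro y
      rw [AffineSubspace.mem_mk', vsub_eq_sub, Submodule.mem_orthogonal_singleton_iff_inner_right,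
        inner_sub_right, inner_smul_right, real_inner_self_eq_norm_sq, hun]
      constructor
      · intro h; linarith
      · intro h; rw [h]; ring
    have hset : K ∩ ((AffineSubspace.mk' (s • u) (ℝ ∙ u)ᗮ : AffineSubspace ℝ E3) : Set E3) =
        K ∩ {x | ⟪col R 2, x⟫_ℝ = s} := by
      ext y
      constructor
      · rintro ⟨h1, h2⟩
        exact ⟨h1, (hmem y).1 h2⟩
      · rintro ⟨h1, h2⟩
        exact ⟨h1, (hmem y).2 h2⟩
    have hfr : Module.finrank ℝ (AffineSubspace.mk' (s • u) (ℝ ∙ u)ᗮ : AffineSubspace ℝ E3).direction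
        = 2 := by
      rw [AffineSubspace.direction_mk']
      have : Fact (Module.finrank ℝ E3 = 2 + 1) := ⟨by simp [E3]⟩
      apply Submodule.finrank_orthogonal_span_singleton
      intro h
      rw [h, norm_zero] at hun
      exact zero_ne_one hun
    refine hH _ hfr ⟨x, hx, (hmem x).2 hxs⟩ (len (sec R s K)) (area (sec R s K)) ?_
    intro t ht
    rw [hset]
    exact hSST R s K hK hne t ht
  -- Cavalieri
  obtain ⟨hmp, e, he, _⟩ := hCO3 R
  have hinj : Function.Injective (coord R) := by
    intro x y hxy
    apply e.injective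
    rw [he, he, hxy]
  have hSc : IsCompact (coord R '' K) := hK.2.1.image (continuous_coord R)
  have hSm : MeasurableSet (coord R '' K) := hSc.isClosed.measurableSet
  have hvol : volume K = ∫⁻ s, volume (sec R s K) := by
    have h2 := hmp.measure_preimage hSm.nullMeasurableSet
    rw [preimage_image_eq K hinj] at h2
    rw [h2]
    change (volume.prod volume) (coord R '' K) = _
    rw [Measure.prod_apply_symm hSm]
    refine lintegral_congr fun s => ?_
    rw [slice]
  have hAm : Measurable (fun s : ℝ => volume (sec R s K)) := by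
    have h3 := measurable_measure_prodMk_right (μ := (volume : Measure (ℝ × ℝ))) hSm
    have h4 : (fun s : ℝ => volume ((fun p : ℝ × ℝ => (p, s)) ⁻¹' (coord R '' K))) =
        fun s : ℝ => volume (sec R s K) := by
      funext s
      rw [slice]
    rw [← h4]
    exact h3
  have hKfin : volume K ≠ ⊤ := hK.2.1.measure_lt_top.ne
  have hI1 : ∫⁻ s in Ioo (g - B) (g + B), volume (sec R s K) ≤ volume K := by
    rw [hvol]
    exact setLIntegral_le_lintegral _ _
  have hI1' : ∫⁻ s in Ioo (g - B) (g + B), volume (sec R s K) ≠ ⊤ :=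
    ne_top_of_le_ne_top hKfin hI1
  have hAint : IntegrableOn (fun s => area (sec R s K)) (Ioo (g - B) (g + B)) :=
    integrable_toReal_of_lintegral_ne_top hAm.aemeasurable hI1'
  have hAle : ∫ s in Ioo (g - B) (g + B), area (sec R s K) ≤ (volume K).toReal := by
    have h5 : ∫ s in Ioo (g - B) (g + B), area (sec R s K) =
        (∫⁻ s in Ioo (g - B) (g + B), volume (sec R s K)).toReal := by
      refine integral_toReal hAm.aemeasurable ?_
      exact ae_lt_top hAm hI1'
    rw [h5]
    exact ENNReal.toReal_mono hKfin hI1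
  -- the test function
  set N := ∫ s in Ioo (g - B) (g + B), len (sec R s K) * φ ((s - g) / B) with hN
  set I2 := ∫ s in (-1 : ℝ)..1, φ s ^ 2 with hI2
  have hI20 : 0 ≤ I2 := intervalIntegral.integral_nonneg (by norm_num) (fun s _ => sq_nonneg _)
  have hV0 : 0 ≤ (volume K).toReal := ENNReal.toReal_nonneg
  have hwint : IntegrableOn (fun s => φ ((s - g) / B) ^ 2) (Ioo (g - B) (g + B)) := by
    have h8 : Continuous (fun s : ℝ => φ ((s - g) / B) ^ 2) := by fun_prop
    exact (h8.continuousOn.integrableOn_compact isCompact_Icc).mono_set Ioo_subset_Icc_self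
  have key : ∀ l : ℝ, 0 ≤ (π / c * (volume K).toReal) * (l * l) + (-2 * N) * l + B * I2 := by
    intro l
    by_cases hf : IntegrableOn (fun s => len (sec R s K) * φ ((s - g) / B))
        (Ioo (g - B) (g + B))
    · have h11 : ∫ s in Ioo (g - B) (g + B),
          2 * l * (len (sec R s K) * φ ((s - g) / B)) ≤
          ∫ s in Ioo (g - B) (g + B),
            (l * l * (π / c) * area (sec R s K) + φ ((s - g) / B) ^ 2) := by
        refine setIntegral_mono_on (hf.const_mul _) ((hAint.const_mul _).add hwint)
          measurableSet_Ioo fun s hs => ?_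
        obtain ⟨-, h12⟩ := hsec s hs
        have h13 : len (sec R s K) ^ 2 ≤ π / c * area (sec R s K) := by
          rw [div_mul_eq_mul_div, le_div_iff₀ hcpos]
          linarith
        have h15 : 0 ≤ (l * len (sec R s K) - φ ((s - g) / B)) ^ 2 := sq_nonneg _
        have h16 : l * l * len (sec R s K) ^ 2 ≤ l * l * (π / c * area (sec R s K)) :=
          mul_le_mul_of_nonneg_left h13 (mul_self_nonneg l)
        nlinarith
      rw [integral_const_mul, ← hN,
        integral_add (hAint.const_mul _) hwint, integral_const_mul, int_phi hB φ, ← hI2] at h11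
      have h17 : l * l * (π / c) * ∫ s in Ioo (g - B) (g + B), area (sec R s K) ≤
          l * l * (π / c) * (volume K).toReal := by
        refine mul_le_mul_of_nonneg_left hAle ?_
        have := mul_self_nonneg l
        positivity
      nlinarith
    · have hN00 : N = 0 := by
        rw [hN]
        exact integral_undef hf
      rw [hN00]
      have h9 : 0 ≤ π / c * (volume K).toReal := by positivity
      have h10 : 0 ≤ (π / c * (volume K).toReal) * (l * l) := mul_nonneg h9 (mul_self_nonneg l)
      have h11 : 0 ≤ B * I2 := mul_nonneg hB.le hI20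
      linarith
  have hdisc := discrim_le_zero key
  unfold discrim at hdisc
  have h18 : N ^ 2 ≤ π / c * (volume K).toReal * (B * I2) := by nlinarith
  calc c * N ^ 2 ≤ c * (π / c * (volume K).toReal * (B * I2)) :=
        mul_le_mul_of_nonneg_left h18 hcpos.le
    _ = B * I2 * (π * (volume K).toReal) := by
        field_simp

end Pool.Agent.Lib.MP_084b88_gt.CW
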