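import Pool.Agent.Lib.MP_084b88_gt.CW.AllCW
import Pool.Agent.Lib.MP_084b88_gt.CW.NUG
import Pool.Agent.Lib.MP_084b88_gt.CW.NFG
import Pool.Agent.Lib.MP_084b88_gt.CW.RE2

/-!
# MP_084b88_gt, project CW: assembly of part E
-/

set_option autoImplicit false

namespace Pool.Agent.Lib.MP_084b88_gt.CW

theorem allMEB' : SpecMEB := specMEB allHSB allRO2 allWB2
theorem allNUG : SpecNUG := specNUG allSST allCO3
theorem allNFG : SpecNFG := specNFG allWB2
theorem allRTG : SpecRTG := specRTG allMEA allMEB' allNUG allNFG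
theorem allRE2 : SpecRE2 := specRE2 allMEA allMEB' allLEN allCAU allRTG
theorem allRE2P : SpecRE2P := specRE2P allHSB allHAA allMEA allLEN allCAU allRE2

end Pool.Agent.Lib.MP_084b88_gt.CW
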