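import Pool.Agent.Lib.MP_084b88_gt.CW.Defs2

/-!
# MP_084b88_gt, project CW, part C: the planar inequality (PN) for bodies of nearly constant width

Target of the whole second part (NCW): there is `δ > 0` such that Q1 holds for every convex body `K`
with `max width ≤ (1+δ) min width` (contains: constant width, neighbourhoods of balls).

NOTATION. `P` planar body with support function `h`, `B = Bh h` half width (`π`-periodic), `g = gh h` middle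
(`g(t+π) = -g(t)`), smooth case `h = hp M c`, `h' = hp M (dk c)`, `r = h + h''`.
`N(t,α) = h(t+α) cos α - h'(t+α) sin α - g(t) - B(t) cos α = sin² α Ψ(t,α)` (WMB),
`p(t,α) = cos α + N/B(t)`. `Ψ = Ψ_B + Ψ_g` with `Ψ_B = Ps M (evc c)`, `Ψ_g = Ps M (odc c)`:
`Ψ_B(t+π,α) = Ψ_B(t,α)`, `Ψ_g(t+π,α) = -Ψ_g(t,α)`. All integrals in `t` are over `(0,2π)`.
All rules as in parts A, B: file `CW/XXX.lean`, `theorem specXXX (hYYY : SpecYYY) .. : SpecXXX`, every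
Spec of SpecA, SpecB, SpecC may be a hypothesis (all Specs of parts A, B are proved: `allXXX` in AllCW).
-/

set_option autoImplicit false

open MeasureTheory Set Real Filter Topology
open scoped Pointwise InnerProductSpace

namespace Pool.Agent.Lib.MP_084b88_gt.CW

/-- Positivity of the radius of curvature of the body with support function `hp M c`. -/
def RP (M : ℕ) (c : ℕ → ℂ) : Prop :=
  (∀ k, M ≤ k → c k = 0) ∧ (∀ θ, 0 < hp M c θ + hp M (dk (dk c)) θ) ∧ (∀ θ, 0 < Bh (hp M c) θ)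

/-- **HPB** (150 lines). Basics on `hp`, `Ps` (copy of GPB): derivative, continuity, periodicity,
even and odd parts, boundedness, joint continuity of `Ps`, symmetry of `Ps` under `t ↦ t + π`
(`e^{ikπ} = (-1)^k`), additivity `Ps M c = Ps M (evc c) + Ps M (odc c)`, constants. -/
def SpecHPB : Prop :=
  ∀ (M : ℕ) (c : ℕ → ℂ),
    (∀ θ, HasDerivAt (hp M c) (hp M (dk c) θ) θ) ∧
    (∀ θ, hp M c (θ + 2 * π) = hp M c θ) ∧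
    Continuous (hp M c) ∧
    (∃ C : ℝ, ∀ θ, |hp M c θ| ≤ C) ∧
    (∀ θ, gh (hp M c) θ = hp M (odc c) θ) ∧ (∀ θ, Bh (hp M c) θ = hp M (evc c) θ) ∧
    (∀ θ, hp M c θ = hp M (evc c) θ + hp M (odc c) θ) ∧
    Continuous (fun x : ℝ × ℝ => Ps M c x.1 x.2) ∧
    (∃ C : ℝ, ∀ t α, |Ps M c t α| ≤ C) ∧
    (∀ t α, Ps M c t α = Ps M (evc c) t α + Ps M (odc c) t α) ∧
    (∀ t α, Ps M (evc c) (t + π) α = Ps M (evc c) t α) ∧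
    (∀ t α, Ps M (odc c) (t + π) α = - Ps M (odc c) t α)

/-- **WMB** (120 lines). Copy of WMA for all modes: for even `k`:
`cos α - i k sin α - cos α e^{-ikα} = sin² α V_k(α)`, for odd `k`:
`cos α - i k sin α - e^{-ikα} = sin² α V_k(α)`. Proof for even `k = 2m`:
`1 - e^{-2imα} = 2i sin α ∑_{l<m} e^{-i(2l+1)α}`, so the left side is
`2i sin α [cos α ∑_{l<m} e^{-i(2l+1)α} - m]`; `cos α e^{-i(2l+1)α} = (e^{-2ilα} + e^{-2i(l+1)α})/2`, and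
`m - ∑ .. = ∑_{j=1}^{m-1} (1 - e^{-2ijα}) + (1 - e^{-2imα})/2 = 2i sin α ∑_{l<m} (m-l-1/2) e^{-i(2l+1)α}`;
or by induction on `m` (difference of consecutive cases); odd `k`: WMA (there `Wm m = Vk (2m+1)`). -/
def SpecWMB : Prop :=
  ∀ (M : ℕ) (c : ℕ → ℂ) (t α : ℝ),
    hp M c (t + α) * cos α - hp M (dk c) (t + α) * sin α - gh (hp M c) t - Bh (hp M c) t * cos α =
      sin α ^ 2 * Ps M c t α

/-- `∫_0^π |V_k|² sin² α dα`. -/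
noncomputable def Uk (k : ℕ) : ℝ := ∫ α in (0 : ℝ)..π, ‖Vk k α‖ ^ 2 * sin α ^ 2
/-- `∫_0^π |V_k|² (κ sin² α - sin³ α) dα`. -/
noncomputable def Tk (k : ℕ) : ℝ := ∫ α in (0 : ℝ)..π, ‖Vk k α‖ ^ 2 * (kap * sin α ^ 2 - sin α ^ 3)

/-- **COE** (200 lines, from TAU). `m = k/2`, `a_l = (k-1)/2 - l` (`l < m`), `a_l ≥ 1/2`:
`Uk k = 16 ∑_{l,j} a_l a_j ν_{|l-j|}`, `ν_0 = π/2`, `ν_1 = -π/4`, `ν_n = 0` (`n ≥ 2`), i.e.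
`Uk k = 16 (π/4)(a_0² + a_{m-1}² + m - 1)` for `m ≥ 1`; `Tk k = 16 ∑ a_l a_j τ_{|l-j|}` (TAU).
`Tk ≥ 0`, `Tk 2 = Tk 3 = 0`, and `Tk k ≥ Uk k/20` for `k ≥ 4`:
`∑ a_l a_j τ = 2 ∑_{l ≤ m-2} a_l b_l`, `b_l = ∑_{n≥1} a_{l+n} τ_n`, with `a_{l+n} = a_{l+1} - (n-1)`:
`b_l = a_{l+1} (τ_1 - ∑_{n=2}^{m-1-l} |τ_n|) + ∑_{n=2}^{m-1-l} (n-1)|τ_n| ≥ 1/15` (for `l = m-2` it is
`a_{m-1} · 2/15 ≥ 1/15`, for `l ≤ m-3` it is `≥ |τ_2| = 12/105 ≥ 1/15`; `∑_{n≥2} |τ_n| ≤ τ_1` as in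
TOE). So `∑ a a τ ≥ (2/15) ∑_{l ≤ m-2} a_l = (1/15)(a_0² - e² + a_0 - e)`, `e = a_{m-1} ∈ {1/2, 1}`, and
`(1/15)(a_0² - e² + a_0 - e) ≥ (1/20)(π/4)(a_0² + e² + a_0 - e)` for `a_0 = (k-1)/2 ≥ 3/2`, `k ≥ 4`
(`a_0 ≥ 2` if `e = 1`; note `m - 1 = a_0 - e`). Values: `Uk 2 = 2π`, `Uk 3 = 8π`, `Uk k ≥ 8π` for
`k ≥ 3`, `Uk 0 = Uk 1 = 0`; `∫ |V_3|² sin⁴ = 16 · 3π/8 = 6π` (`V_3 = 4 e^{-iα}`). -/
def SpecCOE : Prop :=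
  (∀ k, 0 ≤ Tk k) ∧ (∀ k, 4 ≤ k → Uk k / 20 ≤ Tk k) ∧ Uk 0 = 0 ∧ Uk 1 = 0 ∧ Uk 2 = 2 * π ∧
  Uk 3 = 8 * π ∧ (∀ k, 3 ≤ k → 8 * π ≤ Uk k) ∧ (∀ k, 0 ≤ Uk k) ∧
  (∫ α in (0 : ℝ)..π, ‖Vk 3 α‖ ^ 2 * sin α ^ 4) = 6 * π ∧
  (∀ k, 0 ≤ ∫ α in (0 : ℝ)..π, ‖Vk k α‖ ^ 2 * sin α ^ 4)

/-- **ORB** (100 lines). Orthogonality (copy of ORT with all modes `k ≥ 1`). -/
def SpecORB : Prop :=
  ∀ (M : ℕ) (z : ℕ → ℂ), z 0 = 0 →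
    ∫ φ in (0 : ℝ)..(2 * π),
      ((∑ k ∈ Finset.range M, z k * Complex.exp (Complex.I * ((k : ℂ) * (φ : ℂ)))).re) ^ 2 =
      π * ∑ k ∈ Finset.range M, ‖z k‖ ^ 2

/-- **PSB** (100 lines, from ORB, HPB). Parseval for `Ps` with a weight: Fubini, shift `t` by `α`
(periodicity), ORB with `z_k = c_k V_k(α)` (`V_0 = 0`). -/
def SpecPSB : Prop :=
  ∀ (M : ℕ) (c : ℕ → ℂ) (w : ℝ → ℝ), Continuous w →
    ∫ t in (0 : ℝ)..(2 * π), (∫ α in (0 : ℝ)..π, Ps M c t α ^ 2 * w α) =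
      π * ∑ k ∈ Finset.range M, ‖c k‖ ^ 2 * ∫ α in (0 : ℝ)..π, ‖Vk k α‖ ^ 2 * w α

/-- **G3B** (120 lines, from ORB, HPB). First mode removed: `g3f (gh h)` for `h = hp M c` is
`hp M c'`, `c' k = c k` for odd `k ≥ 3`, else `0` (orthogonality `∫ e^{ikt} cos t dt`); hence (3), and
`∫ (B - b)² ≥ π |c_2|²` (ORB for `evc c` minus the constant). (4): `∫ g_a g_3 = ∫ g_3²` where
`g_a = g - a cos t - b sin t`. -/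
def SpecG3B : Prop :=
  ∀ (M : ℕ) (c : ℕ → ℂ), (∀ k, M ≤ k → c k = 0) →
    (∀ t, g3f (gh (hp M c)) t = hp M (fun k => if 3 ≤ k then odc c k else 0) t) ∧
    (∀ b : ℝ, π * ‖c 2‖ ^ 2 ≤ ∫ t in (0 : ℝ)..(2 * π), (Bh (hp M c) t - b) ^ 2) ∧
    (∫ t in (0 : ℝ)..(2 * π), g3f (gh (hp M c)) t ^ 2) =
      π * ∑ k ∈ Finset.range M, (if 3 ≤ k then ‖odc c k‖ ^ 2 else 0) ∧
    (∀ a b : ℝ, (∫ t in (0 : ℝ)..(2 * π),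
      (gh (hp M c) t - a * cos t - b * sin t) * g3f (gh (hp M c)) t) =
      ∫ t in (0 : ℝ)..(2 * π), g3f (gh (hp M c)) t ^ 2) ∧
    (∀ a b : ℝ, (∫ t in (0 : ℝ)..(2 * π), g3f (gh (hp M c)) t ^ 2) ≤
      ∫ t in (0 : ℝ)..(2 * π), (gh (hp M c) t - a * cos t - b * sin t) ^ 2)

/-- **LPB** (150 lines, from HPB, ORB, QQP). The linear term is nonnegative:
`-∫_0^π Q(cos α) Ψ_B(t,α) dα = ∑_{k even} m_k Re(c_k e^{ikt})` with `m_k ≥ 0`. Indeed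
`e^{ikα} V_k(α) = 2 ∑_{l<m} (2l+1) e^{i(2l+1)α}` (`k = 2m`, reverse the sum), and for odd `j`:
`∫_0^π Q(cos α) e^{ijα} dα = ∫_0^π Q(cos α) cos jα dα` (the sine part vanishes under `α ↦ π-α`)
`= (1/j) ∫_0^π sin(jα) (sin α - κ) sin α dα = -4/(j²(j²-4))` for `j ≥ 3` and `0` for `j = 1` (partial
integration, `Q' = F`, `F(cos α) = sin α - κ` on `[0,π]`). So
`m_k = 8 ∑_{3 ≤ j < k, j odd} 1/(j(j²-4))`; then `∫ B(t) (..)(t) dt = π ∑_{k ≥ 2 even} m_k |c_k|²`. -/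
def SpecLPB : Prop :=
  ∀ (M : ℕ) (c : ℕ → ℂ),
    0 ≤ ∫ t in (0 : ℝ)..(2 * π),
      Bh (hp M c) t * (-(∫ α in (0 : ℝ)..π, QF (cos α) * Ps M (evc c) t α))

/-- **LPG** (100 lines, from G3B or HPB). `∫_0^π cos² α Ψ_g(t,α) dα = π g_3(t)`: for odd `k = 2m+1`:
`e^{ikα} V_k(α) = 4 ∑_{l=1}^m l e^{2ilα}` (reverse the sum), `∫_0^π cos² α e^{2ilα} dα = π/4` for
`l = 1` and `0` for `l ≥ 2`; nothing for `k = 1`. -/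
def SpecLPG : Prop :=
  ∀ (M : ℕ) (c : ℕ → ℂ) (t : ℝ),
    ∫ α in (0 : ℝ)..π, cos α ^ 2 * Ps M (odc c) t α =
      π * hp M (fun k => if 3 ≤ k then odc c k else 0) t

/-- **QQ4** (150 lines, from QQP). (1) second difference with a quartic gain: `0 ≤ e` w.l.o.g.,
`QQ(c+e) + QQ(c-e) - 2QQ(c) = ∫_0^e ∫_0^y (F(c+x) + F(c-x)) dx dy` and
`√(1-(c+x)²) + √(1-(c-x)²) ≤ 2 √(1-c²-x²) ≤ 2 √(1-c²) - x²` (concavity of the square root;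
`√(s²-x²) ≤ s - x²/2` for `0 ≤ x ≤ s ≤ 1`); `∫_0^e ∫_0^y x² = e⁴/12`.
(2) Bregman: `QQ(p) - QQ(c) - Q(c)(p-c) = ∫_c^p (p-ξ) F(ξ) dξ` and
`√(1-ξ²) ≤ √(1-c²) + √(2|ξ-c|)` on `[-1,1]` (`|ξ²-c²| ≤ 2|ξ-c|`). -/
def SpecQQ4 : Prop :=
  (∀ c e, |c + e| ≤ 1 → |c - e| ≤ 1 →
    QQF (c + e) + QQF (c - e) - 2 * QQF c ≤ e ^ 2 * FF c - e ^ 4 / 12) ∧
  (∀ c p, |c| ≤ 1 → |p| ≤ 1 →
    QQF p - QQF c - QF c * (p - c) ≤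
      (p - c) ^ 2 / 2 * (√(1 - c ^ 2) + √(2 * |p - c|) - kap)) ∧
  (∀ c p : ℝ, |c| ≤ 1 → |p| ≤ 1 →
    |p ^ 3 / 6 - c ^ 3 / 6 - c ^ 2 / 2 * (p - c)| ≤ (p - c) ^ 2 / 2)

/-- **GAG** (150 lines, from HPB, WMB; copy of CAG). Geometry in the smooth case.
`p(t,α) = cos α + sin² α Ψ(t,α)/B(t)`, `B p + g = h(t+α) cos α - h'(t+α) sin α`,
`p' = -(h+h'')(t+α) sin α/B(t)`, `p(t,0) = 1`, `p(t,π) = -1`. -/
def SpecGAG : Prop :=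
  ∀ (M : ℕ) (c : ℕ → ℂ), RP M c → ∀ t : ℝ,
    (∀ α, HasDerivAt (fun a => cos a + sin a ^ 2 * Ps M c t a / Bh (hp M c) t)
      (-(hp M c (t + α) + hp M (dk (dk c)) (t + α)) * sin α / Bh (hp M c) t) α) ∧
    StrictAntiOn (fun a => cos a + sin a ^ 2 * Ps M c t a / Bh (hp M c) t) (Icc 0 π) ∧
    (fun a => cos a + sin a ^ 2 * Ps M c t a / Bh (hp M c) t) '' (Ioo 0 π) = Ioo (-1) 1 ∧
    (∀ α ∈ Icc (0 : ℝ) π, |cos α + sin α ^ 2 * Ps M c t α / Bh (hp M c) t| ≤ 1) ∧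
    (∀ α ∈ Ioo (0 : ℝ) π, UB (hp M c) t (cos α + sin α ^ 2 * Ps M c t α / Bh (hp M c) t) =
      hp M c (t + α) * sin α + hp M (dk c) (t + α) * cos α) ∧
    (∀ τ ∈ Ioo (-1 : ℝ) 1, |UB (hp M c) t τ| ≤
      (⨆ s, |hp M c s|) + (⨆ s, |hp M (dk c) s|))

/-- **GAL** (200 lines, from GAG, HPB; copy of CAL). For continuous `G` with antiderivatives
`G1' = G`, `G2' = G1`, `p = cos α + sin² α Ψ/B`, `A(α) = h(t+α) sin α + h'(t+α) cos α`,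
`W = G2(p) - G2(cos α)`: for `0 < α < π`
`A G(p) r sin α = (d/dα)[-B A G1(p) - B² cot α · W] + B² cos α G1(cos α) - B² W/sin² α`,
so `B ∫_{-1}^1 U G dτ = B (h'(t) G1(1) + h'(t+π) G1(-1)) + B² ∫_0^π G1(cos α) cos α dα
- B² ∫_0^π W/sin² α dα` (`B dτ = - r sin α dα`). -/
def SpecGAL : Prop :=
  ∀ (M : ℕ) (c : ℕ → ℂ), RP M c → ∀ (G G1 G2 : ℝ → ℝ), Continuous G →
    (∀ x, HasDerivAt G1 (G x) x) → (∀ x, HasDerivAt G2 (G1 x) x) → ∀ t : ℝ,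
    IntegrableOn (fun τ => UB (hp M c) t τ * G τ) (Ioo (-1) 1) ∧
    Bh (hp M c) t * ∫ τ in Ioo (-1 : ℝ) 1, UB (hp M c) t τ * G τ =
      Bh (hp M c) t * (hp M (dk c) t * G1 1 + hp M (dk c) (t + π) * G1 (-1)) +
      Bh (hp M c) t ^ 2 * (∫ α in (0 : ℝ)..π, G1 (cos α) * cos α) -
      Bh (hp M c) t ^ 2 * ∫ α in (0 : ℝ)..π,
        (G2 (cos α + sin α ^ 2 * Ps M c t α / Bh (hp M c) t) - G2 (cos α)) / sin α ^ 2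

/-- **GS1** (200 lines, from GAL, GAG, HPB, QQP, QQ4). Pointwise lower bound for `IG FF`.
`IG FF h t = (GAL with G = F at t) + (GAL at t+π, after τ ↦ -τ, F even)`; the boundary terms cancel
(`QF` odd), `∫ Q(cos α) cos α = 0`. Put `c_D = cos α + sin² α Ψ_B/B`, `e = sin² α Ψ_g/B`:
`p(t,α) = c_D + e`, `p(t+π,α) = c_D - e`, both in `[-1,1]`, hence `|c_D| ≤ 1`. So
`IG FF h t = -B² ∫ [QQ(c_D+e) + QQ(c_D-e) - 2QQ(c_D)]/sin² - 2B² ∫ [QQ(c_D) - QQ(cos α)]/sin²`.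
First term: QQ4 (1) and `√(1-c_D²) ≤ sin α + √(2|c_D - cos α|) ≤ sin α + ε`; second: QQ4 (2) with
`c = cos α`, `p = c_D`. Here `ε` bounds `√(2 |sin² α Ψ_B/B|)`. -/
def SpecGS1 : Prop :=
  ∀ (M : ℕ) (c : ℕ → ℂ), RP M c → ∀ ε : ℝ, 0 ≤ ε →
    (∀ t α, |sin α ^ 2 * Ps M (evc c) t α| ≤ ε ^ 2 / 2 * Bh (hp M c) t) → ∀ t : ℝ,
    2 * (Bh (hp M c) t * (-(∫ α in (0 : ℝ)..π, QF (cos α) * Ps M (evc c) t α))) +
      (∫ α in (0 : ℝ)..π, (Ps M (evc c) t α ^ 2 + Ps M (odc c) t α ^ 2) *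
        (kap * sin α ^ 2 - sin α ^ 3 - ε * sin α ^ 2)) +
      (∫ α in (0 : ℝ)..π, sin α ^ 6 * Ps M (odc c) t α ^ 4) / (12 * Bh (hp M c) t ^ 2)
      ≤ IG FF (hp M c) t

/-- **GS2** (150 lines, from GAL, GAG, HPB, QQ4, LPG). `IG id h t = (GAL at t) - (GAL at t+π, τ ↦ -τ)`
with `G1 = x²/2`, `G2 = x³/6`; the boundary terms cancel. Linear part:
`-B ∫_0^π (cos² α/2)(Ψ(t,α) - Ψ(t+π,α)) dα = -B ∫ cos² α Ψ_g = -π B g_3(t)`; the rest by QQ4 (3):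
`B² ∫ (1/2)(η(t)² + η(t+π)²)/sin²`, `η = sin² α (Ψ_B ± Ψ_g)/B`. -/
def SpecGS2 : Prop :=
  ∀ (M : ℕ) (c : ℕ → ℂ), RP M c → ∀ t : ℝ,
    |IG (fun τ => τ) (hp M c) t +
        π * Bh (hp M c) t * hp M (fun k => if 3 ≤ k then odc c k else 0) t| ≤
      ∫ α in (0 : ℝ)..π, (Ps M (evc c) t α ^ 2 + Ps M (odc c) t α ^ 2) * sin α ^ 2

/-- **GS3** (120 lines, from HPB, WMB, GAG). If `|B - b| ≤ δ b`, `0 ≤ δ ≤ 1/100`, then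
`|sin² α Ψ_B| ≤ 5 √δ B`. PROOF. `B = hp M (evc c)` is the support function of a symmetric body with
`B + B'' > 0` (mean of `r(t)`, `r(t+π)`). `B² + B'² ≤ (1+δ)² b²`: at a maximum point `t0` of the
continuous periodic function `B² + B'²` its derivative `2B'(B+B'')` vanishes, so `B'(t0) = 0` and
the maximum is `B(t0)²`. Hence `B'² ≤ ((1+δ)² - (1-δ)²) b² = 4 δ b²`. Now
`sin² α Ψ_B = (B(t+α) - b) cos α - B'(t+α) sin α - (B(t) - b) cos α` (WMB for `evc c`), at most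
`2 δ b + 2 √δ b ≤ 5 √δ (1-δ) b`. -/
def SpecGS3 : Prop :=
  ∀ (M : ℕ) (c : ℕ → ℂ), RP M c → ∀ b δ : ℝ, 0 < b → 0 ≤ δ → δ ≤ 1 / 100 →
    (∀ t, |Bh (hp M c) t - b| ≤ δ * b) → ∀ t α,
    |sin α ^ 2 * Ps M (evc c) t α| ≤ 5 * √δ * Bh (hp M c) t

/-- The inequality (PN) for a support function `h` (centre at the origin). -/
def PNh (h : ℝ → ℝ) (b δ ε l σ : ℝ) : Prop :=
  -((ε + l * σ) * (2 * π * (∫ t in (0 : ℝ)..(2 * π), (Bh h t - b) ^ 2) +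
      8 * π * ∫ t in (0 : ℝ)..(2 * π), g3f (gh h) t ^ 2)) +
    (∫ t in (0 : ℝ)..(2 * π), g3f (gh h) t ^ 2) ^ 2 / (8 * π * b ^ 2) +
    l * π * ((1 - δ / 2) * (∫ t in (0 : ℝ)..(2 * π), g3f (gh h) t ^ 2) -
      δ / 2 * ∫ t in (0 : ℝ)..(2 * π), gh h t ^ 2) ≤
  (∫ t in (0 : ℝ)..(2 * π), IG FF h t) -
    l * ∫ t in (0 : ℝ)..(2 * π), gh h t / b * IG (fun τ => τ) h t

/-- **GSM** (250 lines, from GS1, GS2, GS3, PSB, LPB, G3B, COE, HPB). The smooth case of (PN).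
PROOF. `θ = ε + lσ ≤ 1/20`. GS3 and `10 √δ ≤ ε²` (as `δ ≤ ε⁴/256`, `10 √δ ≤ (10/16) ε²`) give the
hypothesis of GS1. Integrate GS1: the linear part is `≥ 0` (LPB); the quadratic part is
`π ∑ |c_k|² (Tk k - ε Uk k)` (PSB for `evc c` and `odc c`); the quartic part is
`≥ (1/(12 (1+δ)² b²)) ∫∫ sin⁶ Ψ_g⁴ ≥ (1/(12 (1+δ)² b²)) (∫∫ sin⁴ Ψ_g²)²/π²` (Cauchy-Schwarz,
`∫∫ sin² = π²`), `∫∫ sin⁴ Ψ_g² ≥ π |c_3|² 6π`; so quartic `≥ (2.9/b²) X_3²`, `X_3 = π |c_3|²`.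
Second term: `-l ∫ (g/b) IG id ≥ lπ ∫ (B/b) g g_3 - lσ ∫∫ sin² (Ψ_B² + Ψ_g²)` (GS2, `|g| ≤ σ b`,
`g3f` by G3B), where `∫ (B/b) g g_3 ≥ (1-δ/2) X - (δ/2) ∫ g²`, `X = ∫ g_3²` (G3B (4),
`|B/b - 1| ≤ δ`, `|g g_3| ≤ (g² + g_3²)/2`). Together, since `Tk k - θ Uk k ≥ 0` for `k ≥ 4`,
`= (1/20 - θ) Uk k` at least, `Uk k ≥ 8π`, `Tk 2, Tk 3 ≥ 0`:
`LHS ≥ 8π(1/20 - θ) X_5 - θ(2π · π|c_2|² + 8π X_3) + 2.9 X_3²/b² + lπ(..)`, `X_5 = X - X_3 ≥ 0`,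
`π |c_2|² ≤ ∫ (B-b)²`. Finally `(2π/5) X_5 + 2.9 X_3²/b² ≥ (X_3+X_5)²/(8π b²)` because
`(X_3+X_5)² ≤ 2X_3² + 2X_5²` and `X_5 ≤ X ≤ ∫ g² ≤ 2π σ² b² ≤ (8π²/5) b²` (`σ ≤ 3/2`). -/
def SpecGSM : Prop :=
  ∀ (M : ℕ) (c : ℕ → ℂ), RP M c → ∀ b δ ε l σ : ℝ, 0 < b → 0 ≤ δ → 0 < ε → 0 ≤ l → 0 ≤ σ →
    δ ≤ ε ^ 4 / 256 → ε + l * σ ≤ 1 / 20 → σ ≤ 3 / 2 →
    (∀ t, |Bh (hp M c) t - b| ≤ δ * b) → (∀ t, |gh (hp M c) t| ≤ σ * b) →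
    PNh (hp M c) b δ ε l σ

/-- **GAP** (250 lines, from KCO, KWA, HPB; copy of APH). Approximation. `h_n = h * K_n` with the kernel
`cos^{2n}(x/2)/Z_n`, then `(1-η) h_n + η b`. Averages of translates preserve: Lipschitz constant,
`|B - b| ≤ δ b`, `|g| ≤ σ b`, the inequality `2 cos α h(φ) ≤ h(φ+α) + h(φ-α)` (so `h + h'' ≥ 0`,
`> 0` after mixing with `b`). Coefficients `c k = 0` for `k ≥ M`. -/
def SpecGAP : Prop :=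
  ∀ (h : ℝ → ℝ) (Λ b δ σ : ℝ), 0 ≤ Λ → 0 < b → 0 ≤ δ → δ < 1 → 0 ≤ σ →
    (∀ θ θ', |h θ - h θ'| ≤ Λ * |θ - θ'|) → (∀ θ, h (θ + 2 * π) = h θ) →
    (∀ φ α, 2 * cos α * h φ ≤ h (φ + α) + h (φ - α)) →
    (∀ t, |Bh h t - b| ≤ δ * b) → (∀ t, |gh h t| ≤ σ * b) →
    ∀ ε : ℝ, 0 < ε → ∃ (M : ℕ) (c : ℕ → ℂ), RP M c ∧ (∀ θ, |hp M c θ - h θ| ≤ ε) ∧
      (∀ θ, |hp M (dk c) θ| ≤ Λ) ∧ (∀ t, |Bh (hp M c) t - b| ≤ δ * b) ∧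
      (∀ t, |gh (hp M c) t| ≤ σ * b)

/-- **GCV** (150 lines; copy of UCV and UME). Convergence, boundedness below and measurability of `UB`.
`H(α) = k(t+α) - (g_k + τ B_k) cos α` has `H(0) = B_k (1-τ)`, `H(π) = B_k (1+τ)`, both
`≥ β (1-|τ|) > 0`. -/
def SpecGCV : Prop :=
  ∀ (h : ℝ → ℝ) (Λ β : ℝ), 0 ≤ Λ → 0 < β → (∀ θ, h (θ + 2 * π) = h θ) →
    (∀ θ θ', |h θ - h θ'| ≤ Λ * |θ - θ'|) → (∀ θ, |h θ| ≤ Λ) → (∀ θ, β ≤ Bh h θ) →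
    (∀ θ, ∀ τ ∈ Ioo (-1 : ℝ) 1, BddBelow (range (fun α : Ioo (0 : ℝ) π =>
      (h (θ + α) - (gh h θ + τ * Bh h θ) * cos α) / sin α))) ∧
    Measurable (fun x : ℝ × ℝ => (Ioo (-1 : ℝ) 1).indicator (fun τ => UB h x.1 τ) x.2) ∧
    (∀ (hn : ℕ → ℝ → ℝ) (e : ℕ → ℝ), (∀ n θ, hn n (θ + 2 * π) = hn n θ) →
      (∀ n θ θ', |hn n θ - hn n θ'| ≤ Λ * |θ - θ'|) → (∀ n θ, |hn n θ| ≤ Λ) →
      (∀ n θ, β ≤ Bh (hn n) θ) → (∀ n θ, |hn n θ - h θ| ≤ e n) → Tendsto e atTop (𝓝 0) →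
      ∀ θ, ∀ τ ∈ Ioo (-1 : ℝ) 1, Tendsto (fun n => UB (hn n) θ τ) atTop (𝓝 (UB h θ τ)))

/-- **GDU** (150 lines, from WB2, GCV; copy of DUA and SLC). For a planar compact convex `Q` with
`wid > 0`: the slice of `Q` over the line with `dotu t = mid + τ wid/2`, `|τ| < 1`, is
`[-UB (t+π) (-τ), UB t τ]` (`h = sup2 Q`, `Bh h = wid/2`, `gh h = mid`), and so for every continuous `G`:
`∫_Q G(τ) dp = IG G (sup2 Q) t`; also `IntegrableOn` of the integrand of `IG`. -/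
def SpecGDU : Prop :=
  ∀ Q : Set (ℝ × ℝ), CC Q → (∀ θ, 0 < wid Q θ) → ∀ (G : ℝ → ℝ), Continuous G → ∀ t,
    ∫ p in Q, G ((dotu t p - mid Q t) / (wid Q t / 2)) = IG G (sup2 Q) t

/-- **GLM** (200 lines, from GSM, GAP, GCV, GAG, HPB; copy of LIM). (PN) for general support functions:
`h_n = hp M_n c_n → h` by GAP, `UB h_n → UB h` by GCV, `|UB h_n| ≤ C` by GAG; dominated convergence
for `IG FF h_n t → IG FF h t`, `IG id h_n t → IG id h t` and their integrals over `t`;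
`∫ g3f(..)²`, `∫ gh²`, `∫ (Bh - b)²` converge by uniform convergence. -/
def SpecGLM : Prop :=
  ∀ (h : ℝ → ℝ) (Λ b δ ε l σ : ℝ), 0 ≤ Λ → 0 < b → 0 ≤ δ → 0 < ε → 0 ≤ l → 0 ≤ σ →
    δ ≤ ε ^ 4 / 256 → ε + l * σ ≤ 1 / 20 → σ ≤ 3 / 2 →
    (∀ θ θ', |h θ - h θ'| ≤ Λ * |θ - θ'|) → (∀ θ, h (θ + 2 * π) = h θ) →
    (∀ φ α, 2 * cos α * h φ ≤ h (φ + α) + h (φ - α)) →
    (∀ t, |Bh h t - b| ≤ δ * b) → (∀ t, |gh h t| ≤ σ * b) →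
    PNh h b δ ε l σ

/-- **PNP** (120 lines, from GLM, GDU, WB2). (PN) for planar bodies with centre `a`: translate `P` by `-a`
(`sup2 (P - a) = sup2 P - dotu · a`, `mid` likewise, `wid`, `qf`, `mf`, `area`, `g3f (mid)` unchanged since
`g3f` kills `dotu · a`), GLM for `h = sup2 (P - a)` and GDU with `G = FF` and `G = id`:
`qf P t - κ area P = ∫_P FF(τ) = IG FF h t`, `mf P t = IG id h t`. -/
def SpecPNP : Prop :=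
  ∀ (P : Set (ℝ × ℝ)) (a : ℝ × ℝ) (b δ ε l σ : ℝ), CC P → 0 < b → 0 ≤ δ → 0 < ε → 0 ≤ l → 0 ≤ σ →
    δ ≤ ε ^ 4 / 256 → ε + l * σ ≤ 1 / 20 → σ ≤ 3 / 2 →
    (∀ t, |wid P t / 2 - b| ≤ δ * b) → (∀ t, |mid P t - dotu t a| ≤ σ * b) →
    -((ε + l * σ) * (2 * π * (∫ t in (0 : ℝ)..(2 * π), (wid P t / 2 - b) ^ 2) +
        8 * π * ∫ t in (0 : ℝ)..(2 * π), g3f (mid P) t ^ 2)) +
      (∫ t in (0 : ℝ)..(2 * π), g3f (mid P) t ^ 2) ^ 2 / (8 * π * b ^ 2) +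
      l * π * ((1 - δ / 2) * (∫ t in (0 : ℝ)..(2 * π), g3f (mid P) t ^ 2) -
        δ / 2 * ∫ t in (0 : ℝ)..(2 * π), (mid P t - dotu t a) ^ 2) ≤
    (∫ t in (0 : ℝ)..(2 * π), (qf P t - kap * area P)) -
      l * ∫ t in (0 : ℝ)..(2 * π), (mid P t - dotu t a) / b * mf P t

end Pool.Agent.Lib.MP_084b88_gt.CW
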