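import Pool.Agent.Lib.MP_084b88_gt.CW.SpecC

/-!
# MP_084b88_gt, project CW, part D: space, nearly constant width, and `c` close to one

NOTATION (functions on `O3`, `K` fixed, direction `col R 0`): `q(R) = qf (pr R K) 0`,
`m(R) = mf (pr R K) 0`, `B(R) = wid (pr R K) 0 / 2`, `G(R) = mid (pr R K) 0`,
`G_3(R) = g3f (mid (pr R K)) 0`, `A(R) = area (pr R K)`, `E = ∫ .. dμ`.
All Specs of parts A to D may be hypotheses.
-/

set_option autoImplicit false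

open MeasureTheory Set Real Filter Topology
open scoped Pointwise InnerProductSpace

namespace Pool.Agent.Lib.MP_084b88_gt.CW

/-- **MEB** (200 lines, from MEA, WB2, RO2; see MEA.lean). Measurability, bounds and rotation
covariance of `mid`, `mf`, `g3f mid`. `g3f (mid (pr (R * rot t) K)) 0 = g3f (mid (pr R K)) t`:
`mid (pr (R * rot t) K) s = mid (pr R K) (t+s)` and periodicity of the integrands in `g3f`
(`cos (s'-t) = cos s' cos t + sin s' sin t`). Continuity of `R ↦ G_3(R)`: joint continuity of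
`(R,s) ↦ mid (pr R K) s` and compactness (`intervalIntegral.continuous_parametric_intervalIntegral_of_continuous`). -/
def SpecMEB : Prop :=
  ∀ K : Set E3, CC K → (interior K).Nonempty →
    Continuous (fun R : O3 => mid (pr R K) 0) ∧
    (∀ R : O3, mid (pr R K) 0 = (HS K (col R 0) - HS K (-(col R 0))) / 2) ∧
    (∀ (R : O3) (t : ℝ), mid (pr R K) t = mid (pr (R * rot t) K) 0) ∧
    Measurable (fun R : O3 => mf (pr R K) 0) ∧
    (∀ R : O3, |mf (pr R K) 0| ≤ area (pr R K)) ∧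
    (∀ (R : O3) (t : ℝ), mf (pr R K) t = mf (pr (R * rot t) K) 0) ∧
    Continuous (fun R : O3 => g3f (mid (pr R K)) 0) ∧
    (∀ (R : O3) (t : ℝ), g3f (mid (pr R K)) t = g3f (mid (pr (R * rot t) K)) 0)

/-- **NUC** (150 lines, from SST, CO3, WB2; copy of NUB.lean). The test function
`√(1-s²) + x s`, `∫_{-1}^1 (√(1-s²) + x s)² ds = 4/3 + 2x²/3`. -/
def SpecNUC : Prop :=
  ∀ K : Set E3, CC K → (interior K).Nonempty → ∀ c : ℝ, 0 ≤ c → HSEC K c → ∀ R : O3,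
    ∀ B g x : ℝ, B = (HS K (col R 2) + HS K (-(col R 2))) / 2 →
      g = (HS K (col R 2) - HS K (-(col R 2))) / 2 →
      c * (∫ s in Ioo (g - B) (g + B), len (sec R s K) *
        (√(1 - ((s - g) / B) ^ 2) + x * ((s - g) / B))) ^ 2 ≤
        4 / 3 * B * (1 + x ^ 2 / 2) * (π * (volume K).toReal)

/-- **NFX** (150 lines, from WB2; copy of NFU.lean). `∫ len(sec) (√(1-s²) + x s)` in terms of the
projections. -/
def SpecNFX : Prop :=
  ∀ K : Set E3, CC K → (interior K).Nonempty → ∀ R : O3,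
    ∀ B g x : ℝ, B = (HS K (col R 2) + HS K (-(col R 2))) / 2 →
      g = (HS K (col R 2) - HS K (-(col R 2))) / 2 →
      (∫ s in Ioo (g - B) (g + B), len (sec R s K) *
        (√(1 - ((s - g) / B) ^ 2) + x * ((s - g) / B))) =
        (1 / 2) * ∫ θ in (0 : ℝ)..π, (qf (pr (R * cyc θ) K) 0 + x * mf (pr (R * cyc θ) K) 0)

/-- **LN3** (250 lines, from MEB). There is a centre `O` with `E (G - <col R 0, O>)² ≤ 24 E G_3²`.
PROOF. By MEB `G(R rot t) = a_R cos t + b_R sin t + G_3(R rot t)` for all `t`. Hence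
`Δ(R,ψ) := G(R rot ψ) - cos ψ G(R) - sin ψ G(R rot (π/2))
= G_3(R rot ψ) - cos ψ G_3(R) - sin ψ G_3(R rot (π/2))` and (Cauchy-Schwarz, `1 + cos² + sin² = 2`,
right invariance) `E Δ(·,ψ)² ≤ 6 E G_3²`. `G(R)` only depends on `col R 0`. Let
`G_i(R)` be the value of `G` in the direction `col R i` (`G(R)`, `G(R rot (π/2))`, `G(R cyc 0)`) and
`O_R = ∑ G_i(R) col R i`. For `θ, ψ` let `F = R cyc θ`: `col (F rot ψ) 0 = cos ψ col R 2 +
sin ψ (cos θ col R 0 + sin θ col R 1)` and `col (F rot (π/2)) 0 = col (R rot θ) 0`, so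
`G(F rot ψ) - <O_R, col (F rot ψ) 0> = Δ(F,ψ) + sin ψ Δ(R,θ)`, whose mean square over `R` is
`≤ 2·6 + 2·6 = 24` times `E G_3²`, for every `θ, ψ`. For fixed `S ∈ O3` the unit vector
`w = col S 0` has spherical coordinates `θ, ψ`, and `col (R S) 0 = w_0 col R 0 + w_1 col R 1 + w_2 col R 2`,
so `E_R (G(R S) - <O_R, col (R S) 0>)² ≤ 24 E G_3²` for every `S`; average over `S`, Fubini
(`R ↦ O_R` continuous), left invariance in `S`: `E_R [E_S (G(S) - <O_R, col S 0>)²] ≤ 24 E G_3²`,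
so some `R` does it (`O = O_R`). -/
def SpecLN3 : Prop :=
  ∀ μ : Measure O3, HaarO μ → ∀ K : Set E3, CC K → (interior K).Nonempty →
    ∃ O : E3, ∫ R, (mid (pr R K) 0 - ⟪col R 0, O⟫_ℝ) ^ 2 ∂μ ≤
      24 * ∫ R, g3f (mid (pr R K)) 0 ^ 2 ∂μ

/-- **SUL** (250 lines, from MEB, HSB or MEA). Small in mean square implies small in the sup norm.
PROOF. Fix `x0 ∈ K`. `g_0(R) = G(R) - <col R 0, x0>`: `|g_0| ≤ B ≤ 3b/2` (support functions relative to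
`x0` are `≥ 0`), and it is `3b`-Lipschitz in `col R 0` (`|x - x0| ≤ 3b` on `K`, as the width in the
direction `x - x0` is at least `|x - x0|`). With `w = O - x0`: `E <col R 0, w>² = |w|²/3` (the mean of
`<col R i, w>²` is the same for `i = 0,1,2` by right invariance under permutation matrices or
`rot (π/2)`, `cyc 0`; sum `= |w|²`), so `|w|²/3 ≤ 2 E (G - <·,O>)² + 2 (3b/2)² ≤ (2η + 9/2) b²`, `|w| ≤ 4 b`
for `η ≤ 1/4`; hence `f(R) = G(R) - <col R 0, O>` is `7b`-Lipschitz in `col R 0`. If `|f(R0)| > b/40` then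
`|f| ≥ b/80` on `{R : |col R 0 - col R0 0| < 1/560}`, whose measure is a positive constant `ω`
independent of `R0` (left invariance: it is `R0 · {R : |col R 0 - e_0| < 1/560}`, a nonempty open set;
finitely many translates of an open set cover the compact group, so its measure is positive; take the
infimum over `μ` away: use the unique `μ`, or the number of translates in a finite cover, which does
not depend on `μ`). So `E f² ≥ ω b²/6400`; `η = min (1/4) (ω/6401)`. -/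
def SpecSUL : Prop :=
  ∃ η : ℝ, 0 < η ∧ ∀ μ : Measure O3, HaarO μ → ∀ K : Set E3, CC K → (interior K).Nonempty →
    ∀ (b : ℝ) (O : E3), 0 < b → (∀ R : O3, wid (pr R K) 0 ≤ 3 * b) →
      ∫ R, (mid (pr R K) 0 - ⟪col R 0, O⟫_ℝ) ^ 2 ∂μ ≤ η * b ^ 2 →
      ∀ R : O3, |mid (pr R K) 0 - ⟪col R 0, O⟫_ℝ| ≤ b / 40

/-- **ARE** (200 lines, from WB2, RO2). Elementary area bounds. Lower bound: let `t0` maximise `wid`
(continuous, periodic), `D = wid t0`; `p, q ∈ Q` attaining `sup2 Q t0`, `sup2 Q (t0+π)`: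
`|p - q| ≥ D`, and the width in the direction of `p - q` is `≥ |p - q|`, so `p - q = D u_{t0}`. Rotate to
`t0 = 0`: `p = (x0 + D, y0)`, `q = (x0, y0)`; some `r ∈ Q` has `|r_2 - y0| ≥ β/2` (vertical width
`≥ β`); the horizontal slices of the triangle `pqr` give `area ≥ D (β/2)/2 ≥ β²/4`. Upper bound: `Q`
lies in a rectangle with sides `wid 0`, `wid (π/2)`. -/
def SpecARE : Prop :=
  (∀ (Q : Set (ℝ × ℝ)) (β : ℝ), CC Q → 0 < β → (∀ t, β ≤ wid Q t) → β ^ 2 / 4 ≤ area Q) ∧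
  (∀ (Q : Set (ℝ × ℝ)), CC Q → area Q ≤ wid Q 0 * wid Q (π / 2))

/-- Q1 for `K`, `c`. -/
def Q1 (K : Set E3) (c : ℝ) : Prop :=
  HSEC K c → ∀ V1 V2 : ℝ, STEI K V1 V2 →
    4 * c * V2 ^ 2 ≤ 3 * Real.pi * V1 * (volume K).toReal

/-- **RE1** (200 lines, from HAA, MEA, MEB, LEN, CAU, NUC, NFX; see RED.lean). The averaged test
inequality. `b = E B`, `V = vol K`, `a = √(4πV/(3c))`, `y = B/b`, `α : O3 → ℝ` a bounded measurable
function which only depends on `col R 0` (`α R = f (col R 0)`, `f` continuous). For each `R` NUC, NFX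
with the direction `col R 2` and `x = f (col R 2)`:
`(1/2) ∫_0^π (q + x m)(R cyc θ) dθ ≤ a √(B'(1 + x²/2))`, `B' = B(R cyc θ)`; mean over `R`, right
invariance: `(π/2) E[q + α m] ≤ a E √(B (1+α²/2)) ≤ a √b E[√y (1 + α²/4)]
= a √b (1 - S + C)`, `S = (1/2) E (1-√y)²`, `C = (1/4) E √y α²` (`√y = (1+y)/2 - (1-√y)²/2`, `E y = 1`).
Also `V1 = 4b`, `V2 = 2 E A`. -/
def SpecRE1 : Prop :=
  ∀ μ : Measure O3, HaarO μ → ∀ K : Set E3, CC K → (interior K).Nonempty →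
    ∀ c : ℝ, 0 < c → HSEC K c → ∀ V1 V2 : ℝ, STEI K V1 V2 → ∀ (f : E3 → ℝ), Continuous f →
    ∀ b : ℝ, b = ∫ R, wid (pr R K) 0 / 2 ∂μ →
      0 < b ∧ V1 = 4 * b ∧ V2 = 2 * ∫ R, area (pr R K) ∂μ ∧
      π / 2 * (∫ R, (qf (pr R K) 0 + f (col R 0) * mf (pr R K) 0) ∂μ) ≤
        √(4 * π * (volume K).toReal / (3 * c)) * √b *
          (1 - (1 / 2) * (∫ R, (1 - √(wid (pr R K) 0 / 2 / b)) ^ 2 ∂μ) +
            (1 / 4) * ∫ R, √(wid (pr R K) 0 / 2 / b) * f (col R 0) ^ 2 ∂μ)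

/-- **PNE** (150 lines, from PNP, MEA, MEB). (PN) averaged: PNP for `P = pr R K`, `a = cd R O`
(`dotu t (cd R O) = <col (R * rot t) 0, O>`), integrate over `R`, right invariance under `rot t`,
divide by `2π`; Jensen: `E (∫_0^{2π} g_3²)² ≥ (2π E G_3²)²`. -/
def SpecPNE : Prop :=
  ∀ μ : Measure O3, HaarO μ → ∀ K : Set E3, CC K → (interior K).Nonempty →
    ∀ (O : E3) (b δ ε l σ : ℝ), 0 < b → 0 ≤ δ → 0 < ε → 0 ≤ l → 0 ≤ σ →
    δ ≤ ε ^ 4 / 256 → ε + l * σ ≤ 1 / 20 → σ ≤ 3 / 2 →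
    (∀ R : O3, |wid (pr R K) 0 / 2 - b| ≤ δ * b) →
    (∀ R : O3, |mid (pr R K) 0 - ⟪col R 0, O⟫_ℝ| ≤ σ * b) →
    -((ε + l * σ) * (2 * π * (∫ R, (wid (pr R K) 0 / 2 - b) ^ 2 ∂μ) +
        8 * π * ∫ R, g3f (mid (pr R K)) 0 ^ 2 ∂μ)) +
      (∫ R, g3f (mid (pr R K)) 0 ^ 2 ∂μ) ^ 2 / (4 * b ^ 2) +
      l * π * ((1 - δ / 2) * (∫ R, g3f (mid (pr R K)) 0 ^ 2 ∂μ) -
        δ / 2 * ∫ R, (mid (pr R K) 0 - ⟪col R 0, O⟫_ℝ) ^ 2 ∂μ) ≤
    (∫ R, (qf (pr R K) 0 - kap * area (pr R K)) ∂μ) -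
      l * ∫ R, (mid (pr R K) 0 - ⟪col R 0, O⟫_ℝ) / b * mf (pr R K) 0 ∂μ

/-- **NCW** (250 lines, from HAA, RE1, PNE, LN3, SUL, ARE, MEA, MEB). Q1 for bodies of nearly constant width.
PROOF. `η` from SUL; `ε = min (1/1000) (η/2500)`, `δ = ε⁴/256`. `μ` by HAA, `b = E B`;
`|B - b| ≤ δ b` (`b/(1+δ) ≤ B ≤ (1+δ) b`). `c ≤ 0`: `4cV2² ≤ 0 ≤ 3πV1V` (`V1 = 4b > 0` by CAU, LEN).
Let `c > 0`, `Ā = E A`, `X = E (B-b)²`, `G3 = E G_3²`. ARE: `0.98 b² ≤ Ā ≤ 4.1 b²`.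
`S = (1/2)E(1-√y)² ≥ X/(8.2 b²)` (`(1-√y)² = (1-y)²/(1+√y)²`), so `κ Ā S ≥ X/10`; `S < 1`.
It suffices to prove (*) `(π/2) κ Ā ≤ a √b`, `a = √(4πV/(3c))`: squared, with `κ = 8/(3π)`, `V1 = 4b`,
`V2 = 2Ā`, this is the claim.
CASE A: `G3 ≥ 32π ε b²`. PNE with `l = 0`, `σ = 3/2`, `O ∈ K` (`|G - <·,O>| ≤ B ≤ 3b/2`):
`E[q - κA] ≥ -2πε X - 8πε G3 + G3²/(4b²) ≥ -2πε X ≥ -κĀS`; RE1 with `f = 0`:
`(π/2) κĀ (1-S) ≤ (π/2) E q ≤ a √b (1-S)`.
CASE B: `G3 < 32π ε b²`. LN3: `O` with `E g_O² ≤ 24 G3 ≤ η b²`; SUL: `|g_O| ≤ b/40`. PNE with `l = 1/20`,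
`σ = 1/40` (`θ = ε + 1/800 ≤ 9/4000`), RE1 with `f(u) = -(1/20)(G(u) - <u,O>)/b`
(`G(u) = (HS K u - HS K (-u))/2`): `E[q + αm] ≥ κĀ - θ(2πX + 8πG3) + (π/20)((1-δ/2)G3 - 12δ G3)
≥ κĀ - 0.015 X + 0.09 G3`, `C ≤ (1/4)(1.01)(1/400) 24 G3/b²`, `κĀC ≤ 0.06 G3`. So
`E[q + αm] ≥ κĀ(1 - S + C)`, and `(π/2) κĀ (1-S+C) ≤ a√b (1-S+C)`. -/
def SpecNCW : Prop :=
  ∃ δ : ℝ, 0 < δ ∧ ∀ K : Set E3, CC K → (interior K).Nonempty →
    (∀ u v : E3, ‖u‖ = 1 → ‖v‖ = 1 →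
      HS K u + HS K (-u) ≤ (1 + δ) * (HS K v + HS K (-v))) →
    ∀ c : ℝ, Q1 K c

/-! ### `c` close to one -/

/-- **ISS** (150 lines, from GAL, GAG, HPB, PSB, ORB). Area in the smooth case. GAL with `G = 1`, `G1 = x`,
`G2 = x²/2` at `t` and `t+π` (boundary terms cancel, `∫_0^π cos² = π/2`):
`IG 1 h t = π B(t)² - 2 B(t) ∫_0^π cos α Ψ_B dα - ∫_0^π sin² α (Ψ_B² + Ψ_g²) dα`, and
`∫_0^π cos α Ψ_B(t,α) dα = (π/2) · 2 · Re ∑_{k ≥ 2 even} c_k e^{ikt} = π (B(t) - b)`, `b = Re c_0 = (1/2π) ∫ B`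
(`e^{ikα} V_k = 2 ∑ (2l+1) e^{i(2l+1)α}`, `∫_0^π cos α e^{i(2l+1)α} = (π/2)[l=0]`). Integrate over
`t`: `∫ IG 1 = π ∫ B² - 2π ∫ B (B-b) - (≥ 0) ≤ π ∫ (2Bb - B²) ≤ 2π² b²`. -/
def SpecISS : Prop :=
  ∀ (M : ℕ) (c : ℕ → ℂ), RP M c →
    ∫ t in (0 : ℝ)..(2 * π), IG (fun _ => 1) (hp M c) t ≤
      (∫ t in (0 : ℝ)..(2 * π), Bh (hp M c) t) ^ 2 / 2

/-- **ISO** (150 lines, from ISS, GAP, GCV, GAG, GDU, WB2; the limit as in GLM). The planar isoperimetric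
inequality. If `wid` vanishes somewhere the area is `0` (or add a small disc: PST and let `ρ → 0`).
For `wid > 0`: `h = sup2 Q`, `area Q = IG 1 h t` for every `t` (GDU with `G = 1`), GAP with
`b` = mean value of `wid/2`, `δ < 1` such that `|Bh - b| ≤ δ b` (the maximum of `wid/2` may exceed `2b`
only if `wid` nearly vanishes; instead apply everything to `Q + disc ρ`, `ρ` large, or use
`b = (max + min)/2`, `δ = (max - min)/(max + min) < 1`: GAP needs no relation of `b` to the mean),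
limit `n → ∞`: `2π area ≤ (∫_0^{2π} wid/2)²/2`, `∫_0^{2π} wid/2 = 2 len Q`: `π area ≤ len²`. -/
def SpecISO : Prop :=
  ∀ Q : Set (ℝ × ℝ), CC Q → π * area Q ≤ len Q ^ 2

/-- **WSC** (150 lines, from ISO, SG2, WB2). Stability of widths. Let `L = len Q`, `w̄ = 2L/π` (mean of
`wid` over `(0,π)`), `η' ≥ 0`, `π area ≥ (1-η') L²`. For `s > 0` ISO for `Q + s[-u_θ,u_θ]` (SG2; its `len` is
`L + 2s`, as `wid` grows by `2s |cos|`): `π (area + 2 s wid(θ+π/2)) ≤ (L + 2s)²`, so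
`2π s wid ≤ η' L² + 4 s L + 4 s²`; `s = L √η'/2` (or `s → 0` if `η' = 0`): `wid ≤ w̄ (1 + √η')` in all
directions. Lower bound: `wid` is `D`-Lipschitz in `θ`, `D = max wid ≤ w̄(1+√η')`; if
`wid(t1) = w̄ - ξ`, `ξ > 0`, then `wid ≤ w̄ - ξ/2` on an interval of length `ξ/D`, so
`0 = ∫_0^π (w̄ - wid) ≥ ξ²/(2D) - π √η' w̄` and `ξ² ≤ 2π D √η' w̄`. Hence for `η' ≤ 1/16`:
`ξ ≤ 3 D η'^{1/4}` and `wid(t1) ≥ w̄ - ξ ≥ D/(1+√η') - 3 D η'^{1/4} ≥ (1 - 4 η'^{1/4}) D`. -/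
def SpecWSC : Prop :=
  ∀ (Q : Set (ℝ × ℝ)) (η' : ℝ), CC Q → 0 ≤ η' → η' ^ 4 ≤ 1 / 16 →
    (1 - η' ^ 4) * len Q ^ 2 ≤ π * area Q → ∀ t t', (1 - 4 * η') * wid Q t' ≤ wid Q t

/-- **C0K** (200 lines, from WSC, SST, MEA or WB2). If all sections through interior points satisfy
`c V_1² ≤ π A` with `c ≥ 1 - η'⁴` (`0 ≤ η'`, `η'⁴ ≤ 1/16`), then all widths of `K` satisfy
`(1 - 4η') w(u) ≤ w(v)`.
PROOF. Let `u` be given and `x, y ∈ K` with `<x - y, u> = w(u)`, `x0` interior, `0 < s < 1`,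
`x' = (1-s)x + s x0`, `y' = (1-s) y + s x0` interior points, `<x'-y', u> = (1-s) w(u)`. If `u, v` are
parallel the claim is trivial; otherwise let `R ∈ O3` be such that `span(col R 0, col R 1)` contains
`v` and `x' - y'` (choose `col R 2` orthogonal to both) and `H` the plane through `x'` with normal
`col R 2`; `C = sec R s' K` contains the images of `x', y'`. The width of `C` in the direction of
`x' - y'` is `≥ |x' - y'| ≥ (1-s) w(u)`, its width in the direction `v` is `≤ w(v)`. SST and the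
hypothesis on the section give `c len(C)² ≤ π area(C)`, so WSC: `(1-4η')(1-s) w(u) ≤ w(v)`; `s → 0`. -/
def SpecC0K : Prop :=
  ∀ (K : Set E3) (c η' : ℝ), CC K → (interior K).Nonempty → 0 ≤ η' → η' ^ 4 ≤ 1 / 16 →
    1 - η' ^ 4 ≤ c → HSEC K c → ∀ u v : E3, ‖u‖ = 1 → ‖v‖ = 1 →
      (1 - 4 * η') * (HS K u + HS K (-u)) ≤ HS K v + HS K (-v)

/-- **FI2** (40 lines, from NCW, C0K). Final form: `δ' = min δ ..` with `1/(1-4η') ≤ 1 + δ`, `δ' ≤ η'⁴`. -/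
def SpecFI2 : Prop :=
  ∃ δ : ℝ, 0 < δ ∧ ∀ K : Set E3, CC K → (interior K).Nonempty → ∀ c : ℝ,
    ((∀ u v : E3, ‖u‖ = 1 → ‖v‖ = 1 →
      HS K u + HS K (-u) ≤ (1 + δ) * (HS K v + HS K (-v))) ∨ 1 - δ ≤ c) → Q1 K c

end Pool.Agent.Lib.MP_084b88_gt.CW
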