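import Pool.Agent.Lib.MP_084b88_gt.CW.SpecA

/-!
# MP_084b88_gt, project CW: APX (finite approximation of an average)
-/

set_option autoImplicit false

open MeasureTheory Set Real Filter Topology
open scoped Pointwise InnerProductSpace

namespace Pool.Agent.Lib.MP_084b88_gt.CW

theorem specAPX : SpecAPX := by
  intro V _ _ _ _ _ Ω _ μ _ v d C hv hd hvC hdC hint ε hε
  have : ProperSpace V := FiniteDimensional.proper ℝ V
  have : SecondCountableTopology V := inferInstance
  let S : Set V := Metric.sphere (0 : V) 1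
  have : CompactSpace S := isCompact_iff_compactSpace.1 (isCompact_sphere 0 1)
  -- the continuous map `V → C(S, ℝ)`
  let G : C(V × S, ℝ) := ⟨fun p => |⟪p.1, (p.2 : V)⟫_ℝ|, by fun_prop⟩
  let g : C(V, C(S, ℝ)) := G.curry
  have hg : ∀ (w : V) (x : S), g w x = |⟪w, (x : V)⟫_ℝ| := fun w x => rfl
  let f : Ω → C(S, ℝ) × ℝ := fun ω => (g (v ω), d ω)
  have hfm : StronglyMeasurable f :=
    (g.continuous.comp_stronglyMeasurable hv.stronglyMeasurable).prodMk hd.stronglyMeasurable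
  have hC : 0 ≤ C := by
    obtain ⟨ω⟩ : Nonempty Ω := nonempty_of_isProbabilityMeasure μ
    exact (norm_nonneg _).trans (hvC ω)
  have hfi : Integrable f μ := by
    refine Integrable.of_bound hfm.aestronglyMeasurable C (Eventually.of_forall ?_)
    intro ω
    rw [Prod.norm_def]
    refine max_le ?_ ?_
    · rw [ContinuousMap.norm_le _ hC]
      intro x
      have hx : ‖(x : V)‖ = 1 := by simp
      change ‖(g (v ω)) x‖ ≤ C
      rw [hg, Real.norm_eq_abs, abs_abs]
      calc |⟪v ω, (x : V)⟫_ℝ| ≤ ‖v ω‖ * ‖(x : V)‖ := abs_real_inner_le_norm _ _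
        _ ≤ C := by rw [hx, mul_one]; exact hvC ω
    · exact hdC ω
  have hmem : (∫ ω, f ω ∂μ) ∈ closure (convexHull ℝ (range f)) := by
    refine (convex_convexHull ℝ _).closure.integral_mem isClosed_closure ?_ hfi
    exact Eventually.of_forall (fun ω => subset_closure (subset_convexHull ℝ _ ⟨ω, rfl⟩))
  obtain ⟨b, hb, hbd⟩ := Metric.mem_closure_iff.1 hmem ε hε
  rw [mem_convexHull_iff_exists_fintype] at hb
  obtain ⟨ι, _, a, z, ha, hsum, hz, hzb⟩ := hb
  choose w hw using hz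
  let e := Fintype.equivFin ι
  refine ⟨Fintype.card ι, fun i => a (e.symm i), fun i => w (e.symm i), fun i => ha _, ?_, ?_⟩
  · have hS : ∀ x : S, |∑ i, a i * |⟪v (w i), (x : V)⟫_ℝ| - 1| ≤ ε := by
      intro x
      have hx : ‖(x : V)‖ = 1 := by simp
      have h1 : ‖((∫ ω, f ω ∂μ).1 - b.1) x‖ ≤ ε := by
        refine (ContinuousMap.norm_coe_le_norm _ x).trans ?_
        rw [dist_eq_norm, Prod.norm_def] at hbd
        exact (le_max_left _ _).trans hbd.le
      have h2 : (∫ ω, f ω ∂μ).1 x = 1 := by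
        rw [fst_integral hfi, ContinuousMap.integral_apply hfi.fst]
        change ∫ ω, |⟪v ω, (x : V)⟫_ℝ| ∂μ = 1
        rw [hint, hx]
      have h3 : b.1 x = ∑ i, a i * |⟪v (w i), (x : V)⟫_ℝ| := by
        rw [← hzb, Prod.fst_sum, ContinuousMap.sum_apply]
        refine Finset.sum_congr rfl (fun i _ => ?_)
        rw [← hw i]
        rfl
      rw [ContinuousMap.sub_apply, h2, h3, Real.norm_eq_abs, abs_sub_comm] at h1
      exact h1
    intro x
    have hre : (∑ i, a (e.symm i) * |⟪v (w (e.symm i)), x⟫_ℝ|) = ∑ i, a i * |⟪v (w i), x⟫_ℝ| :=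
      Equiv.sum_comp e.symm (fun i => a i * |⟪v (w i), x⟫_ℝ|)
    rw [hre]
    by_cases hx0 : x = 0
    · subst hx0; simp
    · have hn : 0 < ‖x‖ := norm_pos_iff.2 hx0
      have hmS : (‖x‖⁻¹ • x) ∈ S := by
        simp [S, norm_smul, inv_mul_cancel₀ hn.ne']
      have h := hS ⟨_, hmS⟩
      have hx2 : ∀ i, |⟪v (w i), x⟫_ℝ| = ‖x‖ * |⟪v (w i), ‖x‖⁻¹ • x⟫_ℝ| := by
        intro i
        rw [inner_smul_right, abs_mul, abs_of_pos (inv_pos.2 hn), ← mul_assoc,
          mul_inv_cancel₀ hn.ne', one_mul]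
      have h4 : (∑ i, a i * |⟪v (w i), x⟫_ℝ|) - ‖x‖ =
          ‖x‖ * ((∑ i, a i * |⟪v (w i), ‖x‖⁻¹ • x⟫_ℝ|) - 1) := by
        rw [mul_sub, mul_one, Finset.mul_sum]
        congr 1
        refine Finset.sum_congr rfl (fun i _ => ?_)
        rw [hx2 i]; ring
      rw [h4, abs_mul, abs_of_pos hn, mul_comm]
      exact mul_le_mul_of_nonneg_right h hn.le
  · have hre : (∑ i, a (e.symm i) * d (w (e.symm i))) = ∑ i, a i * d (w i) :=
      Equiv.sum_comp e.symm (fun i => a i * d (w i))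
    rw [hre]
    have h1 : ‖(∫ ω, f ω ∂μ).2 - b.2‖ ≤ ε := by
      rw [dist_eq_norm, Prod.norm_def] at hbd
      exact (le_max_right _ _).trans hbd.le
    have h2 : (∫ ω, f ω ∂μ).2 = ∫ ω, d ω ∂μ := by
      rw [snd_integral hfi]
    have h3 : b.2 = ∑ i, a i * d (w i) := by
      rw [← hzb, Prod.snd_sum]
      refine Finset.sum_congr rfl (fun i _ => ?_)
      rw [← hw i]
      rfl
    rw [h2, h3, Real.norm_eq_abs, abs_sub_comm] at h1
    exact h1

end Pool.Agent.Lib.MP_084b88_gt.CW
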