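import Pool.Agent.Lib.MP_084b88_gt.CW.SpecB

/-!
# MP_084b88_gt, project CW: module CAG
-/

set_option autoImplicit false

open MeasureTheory Set Real Filter Topology
open scoped Pointwise InnerProductSpace

namespace Pool.Agent.Lib.MP_084b88_gt.CW

namespace CAGM

/-- abscissa -/
noncomputable def pp (M : ℕ) (c : ℕ → ℂ) (θ a : ℝ) : ℝ := cos a + sin a ^ 2 * psi M c θ a

/-- ordinate -/
noncomputable def aa (M : ℕ) (c : ℕ → ℂ) (θ a : ℝ) : ℝ :=
  (1 + gp M c (θ + a)) * sin a + gp M (dc c) (θ + a) * cos a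

theorem pp_eq (hW : SpecWMA) (M : ℕ) (c : ℕ → ℂ) (θ a : ℝ) :
    pp M c θ a = (1 + gp M c (θ + a)) * cos a - gp M (dc c) (θ + a) * sin a - gp M c θ := by
  unfold pp
  rw [← hW]; ring

theorem hasDerivAt_shift (hG : SpecGPB) (M : ℕ) (c : ℕ → ℂ) (θ a : ℝ) :
    HasDerivAt (fun a => gp M c (θ + a)) (gp M (dc c) (θ + a)) a := by
  exact HasDerivAt.comp_const_add θ a ((hG M c).1 (θ + a))

theorem hasDerivAt_pp (hG : SpecGPB) (hW : SpecWMA) (M : ℕ) (c : ℕ → ℂ) (θ a : ℝ) :
    HasDerivAt (pp M c θ) (-(1 + gp M c (θ + a) + gp M (dc (dc c)) (θ + a)) * sin a) a := by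
  have h1 := hasDerivAt_shift hG M c θ a
  have h2 := hasDerivAt_shift hG M (dc c) θ a
  have h3 := (((h1.const_add 1).mul (hasDerivAt_cos a)).sub (h2.mul (hasDerivAt_sin a))).sub_const
    (gp M c θ)
  have e : pp M c θ = fun a => (1 + gp M c (θ + a)) * cos a - gp M (dc c) (θ + a) * sin a -
      gp M c θ := by
    funext a; exact pp_eq hW M c θ a
  rw [e]
  refine h3.congr_deriv ?_
  ring

theorem hasDerivAt_aa (hG : SpecGPB) (M : ℕ) (c : ℕ → ℂ) (θ a : ℝ) :
    HasDerivAt (aa M c θ) ((1 + gp M c (θ + a) + gp M (dc (dc c)) (θ + a)) * cos a) a := by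
  have h1 := hasDerivAt_shift hG M c θ a
  have h2 := hasDerivAt_shift hG M (dc c) θ a
  have h3 := ((h1.const_add 1).mul (hasDerivAt_sin a)).add (h2.mul (hasDerivAt_cos a))
  refine h3.congr_deriv ?_
  ring

theorem pp_zero (M : ℕ) (c : ℕ → ℂ) (θ : ℝ) : pp M c θ 0 = 1 := by simp [pp]
theorem pp_pi (M : ℕ) (c : ℕ → ℂ) (θ : ℝ) : pp M c θ π = -1 := by simp [pp]

theorem strictAnti_pp (hG : SpecGPB) (hW : SpecWMA) (M : ℕ) (c : ℕ → ℂ)
    (hr : ∀ θ, 0 < 1 + gp M c θ + gp M (dc (dc c)) θ) (θ : ℝ) :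
    StrictAntiOn (pp M c θ) (Icc 0 π) := by
  apply strictAntiOn_of_deriv_neg (convex_Icc 0 π)
  · exact (continuous_iff_continuousAt.2 (fun a => (hasDerivAt_pp hG hW M c θ a).continuousAt)).continuousOn
  · intro x hx
    rw [interior_Icc] at hx
    rw [(hasDerivAt_pp hG hW M c θ x).deriv]
    have h1 := hr (θ + x)
    have h2 := sin_pos_of_pos_of_lt_pi hx.1 hx.2
    nlinarith [mul_pos h1 h2]

/-- the support inequality -/
theorem support (hG : SpecGPB) (hW : SpecWMA) (M : ℕ) (c : ℕ → ℂ)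
    (hr : ∀ θ, 0 < 1 + gp M c θ + gp M (dc (dc c)) θ) (θ α β : ℝ) (hα : α ∈ Icc 0 π)
    (hβ : β ∈ Icc 0 π) :
    (pp M c θ α + gp M c θ) * cos β + aa M c θ α * sin β ≤ 1 + gp M c (θ + β) := by
  set E : ℝ → ℝ := fun s => (pp M c θ s + gp M c θ) * cos β + aa M c θ s * sin β with hE
  have hd : ∀ s, HasDerivAt E ((1 + gp M c (θ + s) + gp M (dc (dc c)) (θ + s)) * sin (β - s)) s := by
    intro s
    have h1 := ((hasDerivAt_pp hG hW M c θ s).add_const (gp M c θ)).mul_const (cos β)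
    have h2 := (hasDerivAt_aa hG M c θ s).mul_const (sin β)
    refine (h1.add h2).congr_deriv ?_
    rw [sin_sub]; ring
  have hcont : Continuous E := continuous_iff_continuousAt.2 (fun a => (hd a).continuousAt)
  have hEb : E β = 1 + gp M c (θ + β) := by
    simp only [hE]
    rw [pp_eq hW]
    unfold aa
    have := sin_sq_add_cos_sq β
    have e1 : ((1 + gp M c (θ + β)) * cos β - gp M (dc c) (θ + β) * sin β - gp M c θ + gp M c θ) * cos β +
      ((1 + gp M c (θ + β)) * sin β + gp M (dc c) (θ + β) * cos β) * sin β =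
      (1 + gp M c (θ + β)) * (sin β ^ 2 + cos β ^ 2) := by ring
    rw [e1, this, mul_one]
  have key : E α ≤ E β := by
    rcases le_total α β with hab | hab
    · have hm : MonotoneOn E (Icc α β) := by
        apply monotoneOn_of_deriv_nonneg (convex_Icc α β) hcont.continuousOn
        · intro x _; exact (hd x).differentiableAt.differentiableWithinAt
        · intro x hx
          rw [interior_Icc] at hx
          rw [(hd x).deriv]
          apply mul_nonneg (hr _).le
          apply sin_nonneg_of_nonneg_of_le_pi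
          · linarith [hx.2]
          · linarith [hx.1, hα.1, hβ.2]
      exact hm (left_mem_Icc.2 hab) (right_mem_Icc.2 hab) hab
    · have hm : AntitoneOn E (Icc β α) := by
        apply antitoneOn_of_deriv_nonpos (convex_Icc β α) hcont.continuousOn
        · intro x _; exact (hd x).differentiableAt.differentiableWithinAt
        · intro x hx
          rw [interior_Icc] at hx
          rw [(hd x).deriv]
          have h1 : sin (β - x) ≤ 0 := by
            apply sin_nonpos_of_nonpos_of_neg_pi_le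
            · linarith [hx.1]
            · linarith [hx.2, hα.2, hβ.1]
          nlinarith [mul_nonneg (hr (θ + x)).le (neg_nonneg.2 h1)]
      exact hm (left_mem_Icc.2 hab) (right_mem_Icc.2 hab) hab
  rw [hEb] at key
  exact key

theorem uf_eq (hG : SpecGPB) (hW : SpecWMA) (M : ℕ) (c : ℕ → ℂ)
    (hr : ∀ θ, 0 < 1 + gp M c θ + gp M (dc (dc c)) θ) (θ α : ℝ) (hα : α ∈ Ioo 0 π) :
    Uf (fun t => 1 + gp M c t) θ (pp M c θ α) = aa M c θ α := by
  have hs := sin_pos_of_pos_of_lt_pi hα.1 hα.2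
  have hm : ((1 + gp M c θ) - (1 + gp M c (θ + π))) / 2 = gp M c θ := by
    rw [(hG M c).2.1 θ]; ring
  unfold Uf
  simp only [hm]
  have hle : ∀ β : Ioo (0 : ℝ) π, aa M c θ α ≤
      (1 + gp M c (θ + β) - (pp M c θ α + gp M c θ) * cos β) / sin β := by
    intro β
    have hsb := sin_pos_of_pos_of_lt_pi β.2.1 β.2.2
    rw [le_div_iff₀ hsb]
    have := support hG hW M c hr θ α β ⟨hα.1.le, hα.2.le⟩ ⟨β.2.1.le, β.2.2.le⟩
    linarith
  have : Nonempty (Ioo (0 : ℝ) π) := ⟨⟨α, hα⟩⟩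
  apply le_antisymm
  · refine (ciInf_le ⟨aa M c θ α, ?_⟩ (⟨α, hα⟩ : Ioo (0 : ℝ) π)).trans_eq ?_
    · rintro _ ⟨β, rfl⟩; exact hle β
    · simp only
      rw [div_eq_iff hs.ne', pp_eq hW]
      unfold aa
      have := sin_sq_add_cos_sq α
      have e : sin α ^ 2 = 1 - cos α ^ 2 := by linarith
      have e1 : ((1 + gp M c (θ + α)) * sin α + gp M (dc c) (θ + α) * cos α) * sin α =
        (1 + gp M c (θ + α)) * sin α ^ 2 + gp M (dc c) (θ + α) * cos α * sin α := by ring
      rw [e1, e]; ring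
  · exact le_ciInf hle

end CAGM

open CAGM in
theorem specCAG (hG : SpecGPB) (hW : SpecWMA) : SpecCAG := by
  intro M c hr θ
  have hanti := strictAnti_pp hG hW M c hr θ
  have hcont : Continuous (pp M c θ) :=
    continuous_iff_continuousAt.2 (fun a => (hasDerivAt_pp hG hW M c θ a).continuousAt)
  have h0 : (0 : ℝ) ∈ Icc 0 π := ⟨le_rfl, pi_pos.le⟩
  have hpi : π ∈ Icc 0 π := ⟨pi_pos.le, le_rfl⟩
  have himg : pp M c θ '' (Ioo 0 π) = Ioo (-1) 1 := by
    apply Subset.antisymm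
    · rintro _ ⟨α, hα, rfl⟩
      have hα' : α ∈ Icc 0 π := ⟨hα.1.le, hα.2.le⟩
      constructor
      · have := hanti hα' hpi hα.2
        rwa [pp_pi] at this
      · have := hanti h0 hα' hα.1
        rwa [pp_zero] at this
    · have := intermediate_value_Ioo' pi_pos.le hcont.continuousOn
      rwa [pp_pi, pp_zero] at this
  have hbd : ∀ (d : ℕ → ℂ) (a : ℝ), BddAbove (range (fun t => |a + gp M d t|)) := by
    intro d a
    obtain ⟨C, hC⟩ := (hG M d).2.2.2.2.1
    refine ⟨|a| + C, ?_⟩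
    rintro _ ⟨t, rfl⟩
    exact (abs_add_le _ _).trans (by linarith [hC t])
  refine ⟨fun α => hasDerivAt_pp hG hW M c θ α, hanti, himg, ?_, ?_, ?_⟩
  · intro α hα
    rw [abs_le]
    constructor
    · have := hanti.antitoneOn hα hpi hα.2
      rwa [pp_pi] at this
    · have := hanti.antitoneOn h0 hα hα.1
      rwa [pp_zero] at this
  · intro α hα
    exact uf_eq hG hW M c hr θ α hα
  · intro τ hτ
    rw [← himg] at hτ
    obtain ⟨α, hα, rfl⟩ := hτ
    rw [uf_eq hG hW M c hr θ α hα]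
    unfold aa
    have h1 : |1 + gp M c (θ + α)| ≤ ⨆ t, |1 + gp M c t| := le_ciSup (hbd c 1) (θ + α)
    have h2 : |gp M (dc c) (θ + α)| ≤ ⨆ t, |gp M (dc c) t| := by
      have := hbd (dc c) 0
      simp only [zero_add] at this
      exact le_ciSup this (θ + α)
    refine (abs_add_le _ _).trans ?_
    rw [abs_mul, abs_mul]
    have hs := abs_sin_le_one α
    have hc := abs_cos_le_one α
    have e1 : |1 + gp M c (θ + α)| * |sin α| ≤ |1 + gp M c (θ + α)| * 1 :=
      mul_le_mul_of_nonneg_left hs (abs_nonneg _)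
    have e2 : |gp M (dc c) (θ + α)| * |cos α| ≤ |gp M (dc c) (θ + α)| * 1 :=
      mul_le_mul_of_nonneg_left hc (abs_nonneg _)
    linarith

end Pool.Agent.Lib.MP_084b88_gt.CW
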