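import Pool.Agent.Lib.MP_084b88_gt.CW.SpecB
import Pool.Agent.Lib.MP_084b88_gt.CW.CAG

/-!
# MP_084b88_gt, project CW: module CAL
-/

set_option autoImplicit false

open MeasureTheory Set Real Filter Topology
open scoped Pointwise InnerProductSpace

namespace Pool.Agent.Lib.MP_084b88_gt.CW

namespace CALM
open CAGM

noncomputable def WW (M : ℕ) (c : ℕ → ℂ) (θ a : ℝ) : ℝ := QQF (pp M c θ a) - QQF (cos a)

theorem cont_pp (hG : SpecGPB) (hW : SpecWMA) (M : ℕ) (c : ℕ → ℂ) (θ : ℝ) :
    Continuous (pp M c θ) :=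
  continuous_iff_continuousAt.2 (fun a => (hasDerivAt_pp hG hW M c θ a).continuousAt)

theorem cont_aa (hG : SpecGPB) (M : ℕ) (c : ℕ → ℂ) (θ : ℝ) :
    Continuous (aa M c θ) :=
  continuous_iff_continuousAt.2 (fun a => (hasDerivAt_aa hG M c θ a).continuousAt)

theorem cont_QQF (hQ : SpecQQP) : Continuous QQF :=
  continuous_iff_continuousAt.2 (fun a => (hQ.2.1 a).continuousAt)

theorem cont_QF (hQ : SpecQQP) : Continuous QF :=
  continuous_iff_continuousAt.2 (fun a => (hQ.1 a).continuousAt)

theorem cont_WW (hG : SpecGPB) (hW : SpecWMA) (hQ : SpecQQP) (M : ℕ) (c : ℕ → ℂ) (θ : ℝ) :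
    Continuous (WW M c θ) := by
  unfold WW
  exact ((cont_QQF hQ).comp (cont_pp hG hW M c θ)).sub ((cont_QQF hQ).comp continuous_cos)

/-- `|W| ≤ C sin²` on `[0,π]`. -/
theorem WW_le (hC : SpecCAG) (hQ : SpecQQP) (hG : SpecGPB) (M : ℕ) (c : ℕ → ℂ)
    (hr : ∀ θ, 0 < 1 + gp M c θ + gp M (dc (dc c)) θ) :
    ∃ C : ℝ, 0 ≤ C ∧ ∀ θ, ∀ a ∈ Icc (0 : ℝ) π, |WW M c θ a| ≤ C * sin a ^ 2 := by
  obtain ⟨C, hC'⟩ := (hG M c).2.2.2.2.2.2.1
  refine ⟨C, (abs_nonneg _).trans (hC' 0 0), ?_⟩
  intro θ a ha
  have h1 := (hC M c hr θ).2.2.2.1 a ha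
  have h2 := hQ.2.2.2.2.2.2.1 (pp M c θ a) (cos a) h1 (abs_cos_le_one a)
  refine h2.trans ?_
  have : pp M c θ a - cos a = sin a ^ 2 * psi M c θ a := by unfold pp; ring
  rw [this, abs_mul, abs_of_nonneg (sq_nonneg _), mul_comm]
  exact mul_le_mul_of_nonneg_right (hC' θ a) (sq_nonneg _)

end CALM

open CAGM CALM in
theorem specCAL (hC : SpecCAG) (hG : SpecGPB) (hW : SpecWMA) (hQ : SpecQQP) : SpecCAL := by
  intro M c hr θ
  obtain ⟨hder, hanti, himg, hle1, hU, -⟩ := hC M c hr θ
  obtain ⟨C, hC0, hWC⟩ := WW_le hC hQ hG M c hr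
  have hmS : MeasurableSet (Ioo (0 : ℝ) π) := measurableSet_Ioo
  set r : ℝ → ℝ := fun α => 1 + gp M c (θ + α) + gp M (dc (dc c)) (θ + α) with hrdef
  have hrcont : Continuous r := by
    have h1 := (hG M c).2.2.2.1
    have h2 := (hG M (dc (dc c))).2.2.2.1
    exact (continuous_const.add (h1.comp (continuous_const.add continuous_id))).add
      (h2.comp (continuous_const.add continuous_id))
  have hinj : InjOn (pp M c θ) (Ioo 0 π) :=
    (hanti.injOn).mono Ioo_subset_Icc_self
  have hder' : ∀ x ∈ Ioo (0 : ℝ) π, HasDerivWithinAt (pp M c θ) (-(r x) * sin x) (Ioo 0 π) x :=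
    fun x _ => (hder x).hasDerivWithinAt
  have himg' : pp M c θ '' (Ioo 0 π) = Ioo (-1) 1 := himg
  -- the integrand after substitution
  have heq : ∀ x ∈ Ioo (0 : ℝ) π,
      |-(r x) * sin x| • (Uf (fun t => 1 + gp M c t) θ (pp M c θ x) * FF (pp M c θ x)) =
      aa M c θ x * FF (pp M c θ x) * r x * sin x := by
    intro x hx
    have hs := sin_pos_of_pos_of_lt_pi hx.1 hx.2
    have hrx : 0 < r x := hr (θ + x)
    have e : |-(r x) * sin x| = r x * sin x := by
      rw [neg_mul, abs_neg, abs_of_pos (mul_pos hrx hs)]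
    have h3 : Uf (fun t => 1 + gp M c t) θ (pp M c θ x) = aa M c θ x := hU x hx
    rw [e, h3, smul_eq_mul]; ring
  have hcontI : Continuous (fun x => aa M c θ x * FF (pp M c θ x) * r x * sin x) :=
    (((cont_aa hG M c θ).mul (hQ.2.2.2.2.1.comp (cont_pp hG hW M c θ))).mul hrcont).mul
      continuous_sin
  have hint0 : IntegrableOn (fun x => aa M c θ x * FF (pp M c θ x) * r x * sin x) (Ioo 0 π) :=
    (hcontI.integrableOn_Icc (a := 0) (b := π)).mono_set Ioo_subset_Icc_self
  constructor
  · rw [← himg', integrableOn_image_iff_integrableOn_abs_deriv_smul hmS hder' hinj]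
    exact hint0.congr_fun (fun x hx => (heq x hx).symm) hmS
  · rw [← himg', integral_image_eq_integral_abs_deriv_smul hmS hder' hinj,
      setIntegral_congr_fun hmS heq]
    -- fundamental theorem
    set G : ℝ → ℝ := fun x => -(aa M c θ x * QF (pp M c θ x)) - cos x / sin x * WW M c θ x with hGdef
    have hW0 : ∀ x, cos x / sin x * WW M c θ x = cos x * (sin x * (WW M c θ x / sin x ^ 2)) := by
      intro x
      by_cases hs : sin x = 0
      · rw [hs]; simp
      · field_simp
    have hGd : ∀ x ∈ Ioo (0 : ℝ) π, HasDerivAt G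
        (aa M c θ x * FF (pp M c θ x) * r x * sin x + WW M c θ x / sin x ^ 2 -
          QF (cos x) * cos x) x := by
      intro x hx
      have hs := (sin_pos_of_pos_of_lt_pi hx.1 hx.2).ne'
      have hp := hder x
      have h1 := (hasDerivAt_aa hG M c θ x).mul ((hQ.1 (pp M c θ x)).comp x hp)
      have h2 := ((hasDerivAt_cos x).div (hasDerivAt_sin x) hs)
      have h3 := ((hQ.2.1 (pp M c θ x)).comp x hp).sub ((hQ.2.1 (cos x)).comp x (hasDerivAt_cos x))
      have h4 := h1.neg.sub (h2.mul h3)
      refine h4.congr_deriv ?_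
      simp only [Function.comp, Pi.sub_apply]
      change -((r x * cos x) * QF (pp M c θ x) + aa M c θ x * (FF (pp M c θ x) * (-(r x) * sin x))) -
        (((-sin x * sin x - cos x * cos x) / sin x ^ 2) * (QQF (pp M c θ x) - QQF (cos x)) +
          cos x / sin x * (QF (pp M c θ x) * (-(r x) * sin x) - QF (cos x) * -sin x)) = _
      have e1 : (-sin x * sin x - cos x * cos x) = -1 := by
        have := sin_sq_add_cos_sq x; nlinarith
      rw [e1]
      unfold WW
      field_simp
      ring
    have hWint : IntervalIntegrable (fun x => WW M c θ x / sin x ^ 2) volume 0 π := by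
      rw [intervalIntegrable_iff_integrableOn_Ioc_of_le pi_pos.le]
      refine Measure.integrableOn_of_bounded (M := C) ?_ ?_ ?_
      · exact measure_Ioc_lt_top.ne
      · exact ((cont_WW hG hW hQ M c θ).measurable.div
          (continuous_sin.pow 2).measurable).aestronglyMeasurable
      · rw [ae_restrict_iff' measurableSet_Ioc]
        refine Eventually.of_forall (fun x hx => ?_)
        rw [norm_div, norm_eq_abs, norm_eq_abs, abs_of_nonneg (sq_nonneg (sin x))]
        by_cases hs : sin x = 0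
        · rw [hs]; simpa using hC0
        · rw [div_le_iff₀ (by positivity)]
          exact hWC θ x ⟨hx.1.le, hx.2⟩
    have hGc : ContinuousOn G (Icc 0 π) := by
      have hA : Continuous (fun x => -(aa M c θ x * QF (pp M c θ x))) :=
        ((cont_aa hG M c θ).mul ((cont_QF hQ).comp (cont_pp hG hW M c θ))).neg
      apply hA.continuousOn.sub
      intro x hx
      by_cases hs : sin x = 0
      · have e0 : cos x / sin x * WW M c θ x = 0 := by rw [hs]; simp
        unfold ContinuousWithinAt
        simp only [e0]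
        have hlim : Tendsto (fun y => C * |sin y|) (𝓝[Icc 0 π] x) (𝓝 0) := by
          have : Tendsto (fun y => C * |sin y|) (𝓝 x) (𝓝 (C * |sin x|)) :=
            (continuous_const.mul continuous_sin.abs).tendsto x
          rw [hs, abs_zero, mul_zero] at this
          exact this.mono_left nhdsWithin_le_nhds
        refine squeeze_zero_norm' ?_ hlim
        filter_upwards [self_mem_nhdsWithin] with y hy
        rw [hW0, norm_mul, norm_mul, norm_eq_abs, norm_eq_abs, norm_div, norm_eq_abs, norm_eq_abs,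
          abs_of_nonneg (sq_nonneg (sin y))]
        have h1 : |WW M c θ y| / sin y ^ 2 ≤ C := by
          by_cases hs' : sin y = 0
          · rw [hs']; simpa using hC0
          · rw [div_le_iff₀ (by positivity)]
            exact hWC θ y hy
        have h2 := abs_cos_le_one y
        have h3 : |sin y| * (|WW M c θ y| / sin y ^ 2) ≤ |sin y| * C :=
          mul_le_mul_of_nonneg_left h1 (abs_nonneg _)
        have h4 : 0 ≤ |sin y| * (|WW M c θ y| / sin y ^ 2) := by positivity
        calc |cos y| * (|sin y| * (|WW M c θ y| / sin y ^ 2))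
            ≤ 1 * (|sin y| * (|WW M c θ y| / sin y ^ 2)) := mul_le_mul_of_nonneg_right h2 h4
          _ ≤ C * |sin y| := by linarith
      · exact ((continuous_cos.continuousAt.div continuous_sin.continuousAt hs).mul
          (cont_WW hG hW hQ M c θ).continuousAt).continuousWithinAt
    have hi1 : IntervalIntegrable (fun x => aa M c θ x * FF (pp M c θ x) * r x * sin x) volume 0 π :=
      hcontI.intervalIntegrable 0 π
    have hi2 : IntervalIntegrable (fun x => QF (cos x) * cos x) volume 0 π :=
      (((cont_QF hQ).comp continuous_cos).mul continuous_cos).intervalIntegrable 0 π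
    have hFTC := intervalIntegral.integral_eq_sub_of_hasDerivAt_of_le pi_pos.le hGc hGd
      ((hi1.add hWint).sub hi2)
    have hsum : ∫ x in (0 : ℝ)..π, (aa M c θ x * FF (pp M c θ x) * r x * sin x +
        WW M c θ x / sin x ^ 2 - QF (cos x) * cos x) =
        (∫ x in (0 : ℝ)..π, aa M c θ x * FF (pp M c θ x) * r x * sin x) +
        (∫ x in (0 : ℝ)..π, WW M c θ x / sin x ^ 2) - ∫ x in (0 : ℝ)..π, QF (cos x) * cos x := by
      rw [intervalIntegral.integral_sub (hi1.add hWint) hi2, intervalIntegral.integral_add hi1 hWint]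
    have hQ0 := hQ.2.2.2.2.2.2.2.2
    have hGpi : G π = gp M (dc c) θ * QF 1 := by
      simp only [hGdef]
      rw [pp_pi]
      unfold aa
      rw [sin_pi, cos_pi, (hG M (dc c)).2.1 θ, hQ.2.2.1 1]
      ring
    have hG0 : G 0 = -(gp M (dc c) θ * QF 1) := by
      simp only [hGdef]
      rw [pp_zero]
      unfold aa
      rw [sin_zero, cos_zero, add_zero]
      ring
    rw [hsum, hQ0, hGpi, hG0, sub_zero] at hFTC
    rw [← integral_Ioc_eq_integral_Ioo, ← intervalIntegral.integral_of_le pi_pos.le]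
    have hWW : (∫ x in (0 : ℝ)..π, WW M c θ x / sin x ^ 2) =
      ∫ α in (0 : ℝ)..π, (QQF (cos α + sin α ^ 2 * psi M c θ α) - QQF (cos α)) / sin α ^ 2 := rfl
    rw [hWW] at hFTC
    linarith

end Pool.Agent.Lib.MP_084b88_gt.CW
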