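import Pool.Agent.Lib.MP_084b88_gt.CW.SpecA

set_option autoImplicit false

open MeasureTheory Set Real Filter Topology
open scoped Pointwise InnerProductSpace

namespace Pool.Agent.Lib.MP_084b88_gt.CW

namespace CO3M

/-- The orthonormal basis given by the columns. -/
noncomputable def bas (R : O3) : OrthonormalBasis (Fin 3) ℝ E3 :=
  OrthonormalBasis.mk (v := fun i => col R i)
    (orthonormal_iff_ite.2 (fun i j => inner_col_col R i j)) (by
      intro x _
      rw [← sum_col R x]
      refine Submodule.add_mem _ (Submodule.add_mem _ ?_ ?_) ?_ <;>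
      exact Submodule.smul_mem _ _ (Submodule.subset_span ⟨_, rfl⟩))

theorem bas_apply (R : O3) (i : Fin 3) : bas R i = col R i := by
  simp [bas]

theorem bas_repr (R : O3) (x : E3) (i : Fin 3) : (bas R).repr x i = ⟪col R i, x⟫_ℝ := by
  rw [OrthonormalBasis.repr_apply_apply, bas_apply]

theorem mp_fin3 : MeasurePreserving (fun f : Fin 3 → ℝ => ((f 0, f 1), f 2)) volume volume := by
  have h1 := volume_preserving_piFinSuccAbove (fun _ : Fin 3 => ℝ) 2
  have h2 := (MeasurePreserving.id (volume : Measure ℝ)).prod (volume_preserving_finTwoArrow ℝ)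
  have h3 : MeasurePreserving (Prod.swap : ℝ × (ℝ × ℝ) → (ℝ × ℝ) × ℝ)
      ((volume : Measure ℝ).prod (volume : Measure (ℝ × ℝ)))
      ((volume : Measure (ℝ × ℝ)).prod (volume : Measure ℝ)) :=
    Measure.measurePreserving_swap
  have h4 := (h3.comp h2).comp h1
  exact h4

theorem mp_coord (R : O3) : MeasurePreserving (coord R) volume volume := by
  have h1 : MeasurePreserving (bas R).repr volume volume := (bas R).measurePreserving_repr
  have h2 : MeasurePreserving (@WithLp.ofLp 2 (Fin 3 → ℝ)) volume volume :=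
    PiLp.volume_preserving_ofLp (Fin 3)
  have h3 := (mp_fin3.comp h2).comp h1
  have he : coord R = ((fun f : Fin 3 → ℝ => ((f 0, f 1), f 2)) ∘ @WithLp.ofLp 2 (Fin 3 → ℝ)) ∘
      (bas R).repr := by
    funext x
    simp only [Function.comp, coord, cd]
    rw [bas_repr, bas_repr, bas_repr]
  rw [he]
  exact h3

/-- The inverse of `coord R`. -/
noncomputable def inv (R : O3) (p : (ℝ × ℝ) × ℝ) : E3 :=
  p.1.1 • col R 0 + p.1.2 • col R 1 + p.2 • col R 2

theorem inner_inv (R : O3) (p : (ℝ × ℝ) × ℝ) :
    ⟪col R 0, inv R p⟫_ℝ = p.1.1 ∧ ⟪col R 1, inv R p⟫_ℝ = p.1.2 ∧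
      ⟪col R 2, inv R p⟫_ℝ = p.2 := by
  simp only [inv, inner_add_right, inner_smul_right, inner_col_col]
  simp

theorem continuous_coord (R : O3) : Continuous (coord R) := by
  unfold coord
  exact (continuous_cd_right R).prodMk (continuous_const.inner continuous_id)

/-- `coord R` as a homeomorphism. -/
noncomputable def hom (R : O3) : E3 ≃ₜ (ℝ × ℝ) × ℝ where
  toFun := coord R
  invFun := inv R
  left_inv := by
    intro x
    simp only [inv, coord, cd]
    exact sum_col R x
  right_inv := by
    intro p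
    obtain ⟨h0, h1, h2⟩ := inner_inv R p
    simp only [coord, cd, h0, h1, h2]
  continuous_toFun := continuous_coord R
  continuous_invFun := by
    unfold inv
    fun_prop

end CO3M

theorem specCO3 : SpecCO3 := by
  intro R
  exact ⟨CO3M.mp_coord R, CO3M.hom R, fun _ => rfl, fun _ => rfl⟩

end Pool.Agent.Lib.MP_084b88_gt.CW
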