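import Pool.Agent.Lib.MP_084b88_gt.CW.SpecB

/-!
# MP_084b88_gt, project CW: module FIN
-/

set_option autoImplicit false

open MeasureTheory Set Real Filter Topology
open scoped Pointwise InnerProductSpace

namespace Pool.Agent.Lib.MP_084b88_gt.CW

theorem specFIN (hR : SpecRED) (hP : SpecPCW) (hM : SpecMEA) : SpecFIN := by
  intro K hconv hcomp hint hw c hsec V1 V2 hst
  obtain ⟨w, hw⟩ := hw
  have hCC : CC K := ⟨hconv, hcomp, hint.mono interior_subset⟩
  obtain ⟨h1, -, -, h4, -, h6, -, -, h9⟩ := hM K hCC hint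
  obtain ⟨b, hb, hbw⟩ := h6
  have hwid : ∀ (R : O3) (θ : ℝ), wid (pr R K) θ = w := by
    intro R θ
    unfold wid
    rw [h4, h4]
    have e : col (R * rot (θ + π)) 0 = -(col (R * rot θ) 0) := by
      rw [col_rot_zero, col_rot_zero, cos_add_pi, sin_add_pi]
      module
    rw [e]
    exact hw _ (norm_col _ _)
  have hwpos : 0 < w := by
    have := hbw 1
    rw [hwid] at this
    linarith
  refine hR K hCC hint c hsec (fun R => ?_) V1 V2 hst
  exact hP (pr R K) (w / 2) (h1 R) (by linarith) (fun θ => by rw [hwid]; ring)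

end Pool.Agent.Lib.MP_084b88_gt.CW
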