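import Pool.Agent.Lib.MP_084b88_gt.CW.SpecB

/-!
# MP_084b88_gt, project CW, module GPB: basics on the trigonometric polynomials `gp`, `psi`
-/

set_option autoImplicit false

open MeasureTheory Set Real Filter Topology
open scoped Pointwise InnerProductSpace

namespace Pool.Agent.Lib.MP_084b88_gt.CW

namespace GPBM

theorem norm_exp_I (x : ℝ) (k : ℕ) :
    ‖Complex.exp (Complex.I * ((k : ℂ) * (x : ℂ)))‖ = 1 := by
  have h : Complex.I * ((k : ℂ) * (x : ℂ)) = ((k * x : ℝ) : ℂ) * Complex.I := by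
    push_cast; ring
  rw [h, Complex.norm_exp_ofReal_mul_I]

theorem exp_add_pi (z : ℂ) (m : ℕ) :
    Complex.exp (Complex.I * ((2 * m + 1 : ℕ) * (z + (π : ℂ)))) =
      - Complex.exp (Complex.I * ((2 * m + 1 : ℕ) * z)) := by
  have h : Complex.I * ((2 * m + 1 : ℕ) * (z + (π : ℂ))) =
      Complex.I * ((2 * m + 1 : ℕ) * z) + ((2 * m + 1 : ℕ) : ℂ) * (π * Complex.I) := by
    ring
  rw [h, Complex.exp_add, Complex.exp_nat_mul, Complex.exp_pi_mul_I]
  have : ((-1 : ℂ)) ^ (2 * m + 1) = -1 := Odd.neg_one_pow ⟨m, rfl⟩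
  rw [this]; ring

theorem hasDeriv (M : ℕ) (c : ℕ → ℂ) (θ : ℝ) :
    HasDerivAt (gp M c) (gp M (dc c) θ) θ := by
  have h : HasDerivAt (fun z : ℂ => ∑ m ∈ Finset.range M,
      c m * Complex.exp (Complex.I * ((2 * m + 1 : ℕ) * z)))
      (∑ m ∈ Finset.range M, dc c m * Complex.exp (Complex.I * ((2 * m + 1 : ℕ) * (θ : ℂ))))
      (θ : ℂ) := by
    apply HasDerivAt.fun_sum
    intro m _
    have h1 : HasDerivAt (fun z : ℂ => Complex.I * (((2 * m + 1 : ℕ) : ℂ) * z))
        (Complex.I * (((2 * m + 1 : ℕ) : ℂ) * 1)) (θ : ℂ) :=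
      ((hasDerivAt_id (θ : ℂ)).const_mul _).const_mul _
    have h2 := (h1.cexp).const_mul (c m)
    have h3 : dc c m * Complex.exp (Complex.I * ((2 * m + 1 : ℕ) * (θ : ℂ))) =
        c m * (Complex.exp (Complex.I * (((2 * m + 1 : ℕ) : ℂ) * (θ : ℂ))) *
          (Complex.I * (((2 * m + 1 : ℕ) : ℂ) * 1))) := by
      unfold dc
      ring
    rw [h3]
    exact h2
  exact h.real_of_complex

theorem gp_pi (M : ℕ) (c : ℕ → ℂ) (θ : ℝ) : gp M c (θ + π) = - gp M c θ := by
  unfold gp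
  rw [← Complex.neg_re, ← Finset.sum_neg_distrib]
  congr 1
  apply Finset.sum_congr rfl
  intro m _
  rw [Complex.ofReal_add, exp_add_pi]
  ring

theorem gp_bound (M : ℕ) (c : ℕ → ℂ) (θ : ℝ) :
    |gp M c θ| ≤ ∑ m ∈ Finset.range M, ‖c m‖ := by
  unfold gp
  refine (Complex.abs_re_le_norm _).trans ?_
  refine (norm_sum_le _ _).trans ?_
  apply Finset.sum_le_sum
  intro m _
  rw [norm_mul, norm_exp_I, mul_one]

theorem Wm_bound (m : ℕ) (α : ℝ) :
    ‖Wm m α‖ ≤ 4 * ∑ j ∈ Finset.range m, ‖((m : ℂ) - j)‖ := by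
  unfold Wm
  rw [norm_mul]
  have h4 : ‖(4 : ℂ)‖ = 4 := by norm_num
  rw [h4]
  refine mul_le_mul_of_nonneg_left ?_ (by norm_num)
  refine (norm_sum_le _ _).trans ?_
  apply Finset.sum_le_sum
  intro j _
  rw [norm_mul]
  have h1 : -(Complex.I * (((2 * j + 1 : ℕ) : ℂ) * (α : ℂ))) =
      Complex.I * (((2 * j + 1 : ℕ) : ℂ) * ((-α : ℝ) : ℂ)) := by
    push_cast; ring
  rw [h1, norm_exp_I, mul_one]

theorem psi_bound (M : ℕ) (c : ℕ → ℂ) (θ α : ℝ) :
    |psi M c θ α| ≤ ∑ m ∈ Finset.range M,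
      ‖c m‖ * (4 * ∑ j ∈ Finset.range m, ‖((m : ℂ) - j)‖) := by
  unfold psi
  refine (Complex.abs_re_le_norm _).trans ?_
  refine (norm_sum_le _ _).trans ?_
  apply Finset.sum_le_sum
  intro m _
  rw [norm_mul, norm_mul, norm_exp_I, mul_one]
  exact mul_le_mul_of_nonneg_left (Wm_bound m α) (norm_nonneg _)

theorem psi_pi (M : ℕ) (c : ℕ → ℂ) (θ α : ℝ) : psi M c (θ + π) α = - psi M c θ α := by
  unfold psi
  rw [← Complex.neg_re, ← Finset.sum_neg_distrib]
  congr 1
  apply Finset.sum_congr rfl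
  intro m _
  have h : ((θ + π + α : ℝ) : ℂ) = ((θ + α : ℝ) : ℂ) + (π : ℂ) := by push_cast; ring
  rw [h, exp_add_pi]
  ring

theorem psi_cont (M : ℕ) (c : ℕ → ℂ) :
    Continuous (fun x : ℝ × ℝ => psi M c x.1 x.2) := by
  unfold psi Wm
  apply Complex.continuous_re.comp
  apply continuous_finsetSum
  intro m _
  apply Continuous.mul
  · apply Continuous.mul continuous_const
    apply Complex.continuous_exp.comp
    apply Continuous.mul continuous_const
    apply Continuous.mul continuous_const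
    exact Complex.continuous_ofReal.comp (continuous_fst.add continuous_snd)
  · apply Continuous.mul continuous_const
    apply continuous_finsetSum
    intro j _
    apply Continuous.mul continuous_const
    apply Complex.continuous_exp.comp
    apply Continuous.neg
    apply Continuous.mul continuous_const
    apply Continuous.mul continuous_const
    exact Complex.continuous_ofReal.comp continuous_snd

theorem gp_smul (M : ℕ) (c : ℕ → ℂ) (a θ : ℝ) :
    gp M (fun m => (a : ℂ) * c m) θ = a * gp M c θ := by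
  unfold gp
  rw [← Complex.re_ofReal_mul, Finset.mul_sum]
  congr 1
  apply Finset.sum_congr rfl
  intro m _
  ring

end GPBM

open GPBM in
theorem specGPB : SpecGPB := by
  intro M c
  refine ⟨hasDeriv M c, gp_pi M c, ?_, ?_, ⟨_, gp_bound M c⟩, psi_cont M c, ⟨_, psi_bound M c⟩,
    psi_pi M c, gp_smul M c⟩
  · intro θ
    have h : θ + 2 * π = (θ + π) + π := by ring
    rw [h, gp_pi, gp_pi, neg_neg]
  · exact continuous_iff_continuousAt.2 (fun θ => (hasDeriv M c θ).continuousAt)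

end Pool.Agent.Lib.MP_084b88_gt.CW
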