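import Pool.Agent.Lib.MP_084b88_gt.CW.SpecA

set_option autoImplicit false

open MeasureTheory Set Real Filter Topology
open scoped Pointwise InnerProductSpace

namespace Pool.Agent.Lib.MP_084b88_gt.CW

namespace HAAM

open MeasureTheory.Measure

/-- A compact second countable group carries a bi-invariant probability measure. -/
theorem exists_bi {G : Type} [Group G] [TopologicalSpace G] [IsTopologicalGroup G]
    [CompactSpace G] [SecondCountableTopology G] [MeasurableSpace G] [BorelSpace G] :
    ∃ μ : Measure G, IsProbabilityMeasure μ ∧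
      (∀ S : G, MeasurePreserving (fun R : G => R * S) μ μ) ∧
      (∀ S : G, MeasurePreserving (fun R : G => S * R) μ μ) := by
  have : Nonempty G := ⟨1⟩
  let K₀ : TopologicalSpace.PositiveCompacts G := ⊤
  let μ : Measure G := haarMeasure K₀
  have h1 : μ univ = 1 := by
    have := haarMeasure_self (K₀ := K₀)
    simpa [μ, K₀] using this
  have hp : IsProbabilityMeasure μ := ⟨h1⟩
  refine ⟨μ, hp, ?_, fun S => measurePreserving_mul_left μ S⟩
  intro S
  have hm : Measurable (fun R : G => R * S) := measurable_mul_const S
  refine ⟨hm, ?_⟩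
  have : IsProbabilityMeasure (Measure.map (fun R : G => R * S) μ) :=
    isProbabilityMeasure_map hm.aemeasurable
  have : IsHaarMeasure (Measure.map (fun R : G => R * S) μ) :=
    isHaarMeasure_map_mul_right μ S
  exact isHaarMeasure_eq_of_isProbabilityMeasure _ _

end HAAM

theorem specHAA : SpecHAA := by
  obtain ⟨μ, h1, h2, h3⟩ := HAAM.exists_bi (G := O3)
  exact ⟨μ, h1, h2, h3⟩

end Pool.Agent.Lib.MP_084b88_gt.CW
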