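import Pool.Agent.Lib.MP_084b88_gt.CW.SpecB

/-!
# Module KCO: powers of the cosine as cosine polynomials
-/

set_option autoImplicit false

open MeasureTheory Set Real Filter Topology
open scoped Pointwise InnerProductSpace

namespace Pool.Agent.Lib.MP_084b88_gt.CW

namespace KCOM

/-- `f` is a cosine polynomial of degree `≤ n`. -/
def CP (n : ℕ) (f : ℝ → ℝ) : Prop :=
  ∃ b : ℕ → ℝ, ∀ x : ℝ, f x = ∑ k ∈ Finset.range (n + 1), b k * cos (k * x)

theorem CP.add {n : ℕ} {f g : ℝ → ℝ} (hf : CP n f) (hg : CP n g) : CP n (fun x => f x + g x) := by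
  obtain ⟨b, hb⟩ := hf
  obtain ⟨c, hc⟩ := hg
  refine ⟨fun k => b k + c k, fun x => ?_⟩
  beta_reduce
  rw [hb, hc, ← Finset.sum_add_distrib]
  exact Finset.sum_congr rfl fun k _ => by ring

theorem CP.smul {n : ℕ} {f : ℝ → ℝ} (a : ℝ) (hf : CP n f) : CP n (fun x => a * f x) := by
  obtain ⟨b, hb⟩ := hf
  refine ⟨fun k => a * b k, fun x => ?_⟩
  beta_reduce
  rw [hb, Finset.mul_sum]
  exact Finset.sum_congr rfl fun k _ => by ring

theorem CP.cosk {n k : ℕ} (hk : k ≤ n) : CP n (fun x => cos (k * x)) := by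
  refine ⟨fun j => if j = k then 1 else 0, fun x => ?_⟩
  beta_reduce
  rw [Finset.sum_eq_single k]
  · simp
  · intro j _ hj
    simp [hj]
  · intro h
    exact absurd (Finset.mem_range.2 (by omega)) h

theorem CP.zero (n : ℕ) : CP n (fun _ => 0) := ⟨fun _ => 0, fun x => by simp⟩

theorem CP.sum {n : ℕ} {ι : Type} (s : Finset ι) (f : ι → ℝ → ℝ) (hf : ∀ i ∈ s, CP n (f i)) :
    CP n (fun x => ∑ i ∈ s, f i x) := by
  classical
  induction s using Finset.induction_on with
  | empty => simpa using CP.zero n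
  | insert a s ha ih =>
    have := (hf a (Finset.mem_insert_self a s)).add
      (ih fun i hi => hf i (Finset.mem_insert_of_mem hi))
    obtain ⟨c, hc⟩ := this
    refine ⟨c, fun x => ?_⟩
    rw [← hc]
    exact Finset.sum_insert ha

theorem CP.mono {n m : ℕ} (h : n ≤ m) {f : ℝ → ℝ} (hf : CP n f) : CP m f := by
  obtain ⟨b, hb⟩ := hf
  have : CP m (fun x => ∑ k ∈ Finset.range (n + 1), b k * cos (k * x)) :=
    CP.sum _ (fun k x => b k * cos (k * x)) fun k hk =>
      (CP.cosk (by have := Finset.mem_range.1 hk; omega)).smul _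
  obtain ⟨c, hc⟩ := this
  exact ⟨c, fun x => by rw [hb, ← hc]⟩

theorem CP.mulcos {n : ℕ} {f : ℝ → ℝ} (hf : CP n f) : CP (n + 1) (fun x => cos x * f x) := by
  obtain ⟨b, hb⟩ := hf
  have key : ∀ k : ℕ, k ≤ n → CP (n + 1) (fun x => cos x * cos (k * x)) := by
    intro k hk
    rcases Nat.eq_zero_or_pos k with h0 | h0
    · subst h0
      have := CP.cosk (n := n + 1) (k := 1) (by omega)
      obtain ⟨c, hc⟩ := this
      refine ⟨c, fun x => ?_⟩
      rw [← hc]
      simp
    · obtain ⟨j, rfl⟩ : ∃ j, k = j + 1 := ⟨k - 1, by omega⟩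
      have h1 := (CP.cosk (n := n + 1) (k := j + 2) (by omega)).smul (1 / 2)
      have h2 := (CP.cosk (n := n + 1) (k := j) (by omega)).smul (1 / 2)
      obtain ⟨c, hc⟩ := h1.add h2
      refine ⟨c, fun x => ?_⟩
      rw [← hc]
      have e1 : ((j + 2 : ℕ) : ℝ) * x = ((j + 1 : ℕ) : ℝ) * x + x := by push_cast; ring
      have e2 : (j : ℝ) * x = ((j + 1 : ℕ) : ℝ) * x - x := by push_cast; ring
      beta_reduce
      rw [e1, e2, cos_add, cos_sub]
      ring
  have : CP (n + 1) (fun x => ∑ k ∈ Finset.range (n + 1), b k * (cos x * cos (k * x))) :=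
    CP.sum _ (fun k x => b k * (cos x * cos (k * x))) fun k hk =>
      (key k (by have := Finset.mem_range.1 hk; omega)).smul _
  obtain ⟨c, hc⟩ := this
  refine ⟨c, fun x => ?_⟩
  rw [← hc]
  beta_reduce
  rw [hb, Finset.mul_sum]
  exact Finset.sum_congr rfl fun k _ => by ring

theorem main (n : ℕ) : CP n (fun x => cos (x / 2) ^ (2 * n)) := by
  induction n with
  | zero => exact ⟨fun _ => 1, fun x => by simp⟩
  | succ n ih =>
    have h1 := (ih.mono (Nat.le_succ n)).smul (1 / 2)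
    have h2 := ih.mulcos.smul (1 / 2)
    obtain ⟨c, hc⟩ := h1.add h2
    refine ⟨c, fun x => ?_⟩
    rw [← hc]
    beta_reduce
    have e : cos x = 2 * cos (x / 2) ^ 2 - 1 := by
      rw [← cos_two_mul]; congr 1; ring
    rw [show 2 * (n + 1) = 2 * n + 2 by ring, pow_add]
    rw [e]
    ring

end KCOM

theorem specKCO : SpecKCO := fun n => KCOM.main n

end Pool.Agent.Lib.MP_084b88_gt.CW
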