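import Pool.Agent.Lib.MP_084b88_gt.CW.SpecB

/-!
Module KWA: concentration of the weights `cos^{2n}(x/2)`.
-/

set_option autoImplicit false

open MeasureTheory Set Real

namespace Pool.Agent.Lib.MP_084b88_gt.CW

namespace KWAM

theorem cont_w (n : ℕ) : Continuous fun x : ℝ => cos (x / 2) ^ (2 * n) := by fun_prop

theorem Z_pos (n : ℕ) : 0 < ∫ x in (-π)..π, cos (x / 2) ^ (2 * n) := by
  refine intervalIntegral.intervalIntegral_pos_of_pos_on ((cont_w n).intervalIntegrable _ _) ?_
    (by linarith [pi_pos])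
  intro x hx
  have h : 0 < cos (x / 2) := cos_pos_of_mem_Ioo ⟨by linarith [hx.1], by linarith [hx.2]⟩
  positivity

theorem sin_sq_int (n : ℕ) :
    (∫ x in (-π)..π, sin (x / 2) ^ 2 * cos (x / 2) ^ (2 * n)) * (2 * n + 2) =
      ∫ x in (-π)..π, cos (x / 2) ^ (2 * n) := by
  have hd : ∀ x ∈ Set.uIcc (-π) π, HasDerivAt (fun x : ℝ => sin (x / 2) * cos (x / 2) ^ (2 * n + 1))
      ((1 / 2) * cos (x / 2) ^ (2 * n) - (n + 1) * (sin (x / 2) ^ 2 * cos (x / 2) ^ (2 * n))) x := by
    intro x _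
    have h0 : HasDerivAt (fun x : ℝ => x / 2) (1 / 2) x := by
      simpa using (hasDerivAt_id x).div_const 2
    have h1 := h0.sin
    have h2 := (h0.cos).pow (2 * n + 1)
    have h3 := h1.mul h2
    refine HasDerivAt.congr_deriv (f := fun x : ℝ => sin (x / 2) * cos (x / 2) ^ (2 * n + 1)) h3 ?_
    have hs := sin_sq_add_cos_sq (x / 2)
    have hc : cos (x / 2) ^ 2 = 1 - sin (x / 2) ^ 2 := by linarith
    have e1 : cos (x / 2) * (1 / 2) * cos (x / 2) ^ (2 * n + 1) =
        (1 / 2) * (cos (x / 2) ^ 2 * cos (x / 2) ^ (2 * n)) := by ring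
    simp only [Pi.pow_apply, Nat.add_sub_cancel]
    rw [e1, hc]
    push_cast
    ring
  have hi : IntervalIntegrable (fun x : ℝ => (1 / 2) * cos (x / 2) ^ (2 * n) -
      (n + 1) * (sin (x / 2) ^ 2 * cos (x / 2) ^ (2 * n))) volume (-π) π :=
    Continuous.intervalIntegrable (by fun_prop) _ _
  have h := intervalIntegral.integral_eq_sub_of_hasDerivAt hd hi
  have hz : sin (π / 2) * cos (π / 2) ^ (2 * n + 1) -
      sin (-π / 2) * cos (-π / 2) ^ (2 * n + 1) = 0 := by
    have h4 : cos (-π / 2) = 0 := by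
      rw [neg_div, cos_neg, cos_pi_div_two]
    rw [cos_pi_div_two, h4]
    simp
  rw [hz, intervalIntegral.integral_sub (Continuous.intervalIntegrable (by fun_prop) _ _)
    (Continuous.intervalIntegrable (by fun_prop) _ _), intervalIntegral.integral_const_mul,
    intervalIntegral.integral_const_mul] at h
  linarith

theorem pointwise {s x : ℝ} (hs : 0 < s) (hx : x ∈ Set.Icc (-π) π) :
    |x| ≤ (π / 2) * (s * sin (x / 2) ^ 2 + 1 / s) := by
  have h1 : |x| ≤ π * |sin (x / 2)| := by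
    have h2 : 2 / π * (|x| / 2) ≤ sin (|x| / 2) :=
      mul_le_sin (by positivity) (by
        have : |x| ≤ π := abs_le.2 hx
        linarith)
    have h3 : sin (|x| / 2) ≤ |sin (x / 2)| := by
      rcases abs_cases x with ⟨h, -⟩ | ⟨h, -⟩
      · rw [h]; exact le_abs_self _
      · rw [h, neg_div, sin_neg]; exact neg_le_abs _
    have h4 : 2 / π * (|x| / 2) = |x| / π := by ring
    rw [h4] at h2
    have h5 := h2.trans h3
    rwa [div_le_iff₀ pi_pos, mul_comm] at h5
  have h2 : |sin (x / 2)| ≤ (1 / 2) * (s * sin (x / 2) ^ 2 + 1 / s) := by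
    have h3 : 0 ≤ (s * |sin (x / 2)| - 1) ^ 2 / s := by positivity
    have h4 : (s * |sin (x / 2)| - 1) ^ 2 / s =
        s * sin (x / 2) ^ 2 + 1 / s - 2 * |sin (x / 2)| := by
      rw [← sq_abs (sin (x / 2))]
      field_simp
      ring
    linarith
  calc |x| ≤ π * |sin (x / 2)| := h1
    _ ≤ π * ((1 / 2) * (s * sin (x / 2) ^ 2 + 1 / s)) := mul_le_mul_of_nonneg_left h2 pi_pos.le
    _ = _ := by ring

end KWAM

open KWAM in
theorem specKWA : SpecKWA := by
  intro n
  refine ⟨Z_pos n, ?_⟩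
  set s : ℝ := √(2 * n + 2) with hsd
  have hs2 : s ^ 2 = 2 * n + 2 := sq_sqrt (by positivity)
  have hs : 0 < s := sqrt_pos.2 (by positivity)
  set Z : ℝ := ∫ x in (-π)..π, cos (x / 2) ^ (2 * n) with hZ
  set I : ℝ := ∫ x in (-π)..π, sin (x / 2) ^ 2 * cos (x / 2) ^ (2 * n) with hI
  have hIZ : I * s ^ 2 = Z := by rw [hs2]; exact sin_sq_int n
  have h1 : ∫ x in (-π)..π, |x| * cos (x / 2) ^ (2 * n) ≤
      ∫ x in (-π)..π, ((π / 2 * s) * (sin (x / 2) ^ 2 * cos (x / 2) ^ (2 * n)) +
        (π / 2 * (1 / s)) * cos (x / 2) ^ (2 * n)) := by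
    refine intervalIntegral.integral_mono_on (by linarith [pi_pos])
      (Continuous.intervalIntegrable (by fun_prop) _ _)
      (Continuous.intervalIntegrable (by fun_prop) _ _) fun x hx => ?_
    have h2 := pointwise hs hx
    have h3 : 0 ≤ cos (x / 2) ^ (2 * n) := by
      rw [pow_mul]; positivity
    calc |x| * cos (x / 2) ^ (2 * n)
        ≤ ((π / 2) * (s * sin (x / 2) ^ 2 + 1 / s)) * cos (x / 2) ^ (2 * n) :=
          mul_le_mul_of_nonneg_right h2 h3
      _ = _ := by ring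
  rw [intervalIntegral.integral_add (Continuous.intervalIntegrable (by fun_prop) _ _)
    (Continuous.intervalIntegrable (by fun_prop) _ _), intervalIntegral.integral_const_mul,
    intervalIntegral.integral_const_mul] at h1
  refine h1.trans (le_of_eq ?_)
  have h5 : π / 2 * s * I + π / 2 * (1 / s) * Z = π / s * Z := by
    rw [← hIZ]
    field_simp
    ring
  exact h5

end Pool.Agent.Lib.MP_084b88_gt.CW
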