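import Pool.Agent.Lib.MP_084b88_gt.CW.SpecA

/-!
# MP_084b88_gt, project CW: LEN
-/

set_option autoImplicit false

open MeasureTheory Set Real Filter Topology
open scoped Pointwise InnerProductSpace

namespace Pool.Agent.Lib.MP_084b88_gt.CW

/-- **LEN**. `E len(pr R K) = (π/2) E wid(pr R K, 0)`. -/
theorem specLEN (hMEA : SpecMEA) : SpecLEN := by
  intro μ hμ K hK hint
  have := hμ.1
  obtain ⟨_, _, _, _, hcont, _, _, _, hrot⟩ := hMEA K hK hint
  set g : O3 → ℝ := fun R => wid (pr R K) 0 with hg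
  have h1 : ∀ R : O3, len (pr R K) = (1 / 2) * ∫ θ in (0 : ℝ)..π, g (R * rot θ) := by
    intro R
    unfold len
    congr 1
    refine intervalIntegral.integral_congr fun θ _ => ?_
    exact (hrot R θ).1
  have hcg : Continuous (fun a : O3 × ℝ => g (a.1 * rot a.2)) :=
    hcont.comp (continuous_fst.mul (continuous_rot.comp continuous_snd))
  have hint2 : Integrable (Function.uncurry fun (R : O3) (θ : ℝ) => g (R * rot θ))
      (μ.prod (volume.restrict (Ioc (0 : ℝ) π))) := by
    have hK2 : IsCompact ((univ : Set O3) ×ˢ Icc (0 : ℝ) π) := isCompact_univ.prod isCompact_Icc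
    obtain ⟨C, hC⟩ := hK2.exists_bound_of_continuousOn
      (f := fun a : O3 × ℝ => g (a.1 * rot a.2)) hcg.continuousOn
    have hmeas : AEStronglyMeasurable (Function.uncurry fun (R : O3) (θ : ℝ) => g (R * rot θ))
        (μ.prod (volume.restrict (Ioc (0 : ℝ) π))) := by
      have : (Function.uncurry fun (R : O3) (θ : ℝ) => g (R * rot θ)) =
          fun a : O3 × ℝ => g (a.1 * rot a.2) := by
        funext a; rfl
      rw [this]
      exact hcg.aestronglyMeasurable
    refine Integrable.mono' (g := fun _ => C) (integrable_const C) hmeas ?_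
    have hae : ∀ᵐ a ∂(μ.prod (volume.restrict (Ioc (0 : ℝ) π))), a ∈ (univ : Set O3) ×ˢ Ioc (0 : ℝ) π := by
      have h3 : μ.prod (volume.restrict (Ioc (0 : ℝ) π)) =
          (μ.prod volume).restrict ((univ : Set O3) ×ˢ Ioc (0 : ℝ) π) := by
        rw [← Measure.prod_restrict, Measure.restrict_univ]
      rw [h3]
      exact ae_restrict_mem (MeasurableSet.univ.prod measurableSet_Ioc)
    filter_upwards [hae] with a ha
    exact hC a ⟨mem_univ _, ha.2.1.le, ha.2.2⟩
  have h2 : ∀ θ : ℝ, ∫ R, g (R * rot θ) ∂μ = ∫ R, g R ∂μ := by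
    intro θ
    have hmp := hμ.2.1 (rot θ)
    have h4 := integral_map (μ := μ) (φ := fun R : O3 => R * rot θ)
      hmp.measurable.aemeasurable (f := g) hcont.aestronglyMeasurable
    rw [hmp.map_eq] at h4
    exact h4.symm
  calc ∫ R, len (pr R K) ∂μ = ∫ R, ((1 / 2) * ∫ θ in (0 : ℝ)..π, g (R * rot θ)) ∂μ := by
        refine integral_congr_ae (Eventually.of_forall fun R => h1 R)
    _ = (1 / 2) * ∫ R, (∫ θ in (0 : ℝ)..π, g (R * rot θ)) ∂μ := integral_const_mul _ _
    _ = (1 / 2) * ∫ R, ∫ θ, g (R * rot θ) ∂(volume.restrict (Ioc (0 : ℝ) π)) ∂μ := by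
        congr 1
        refine integral_congr_ae (Eventually.of_forall fun R => ?_)
        exact intervalIntegral.integral_of_le pi_pos.le
    _ = (1 / 2) * ∫ θ, ∫ R, g (R * rot θ) ∂μ ∂(volume.restrict (Ioc (0 : ℝ) π)) := by
        rw [integral_integral_swap hint2]
    _ = (1 / 2) * ∫ θ, (∫ R, g R ∂μ) ∂(volume.restrict (Ioc (0 : ℝ) π)) := by
        congr 1
        refine integral_congr_ae (Eventually.of_forall fun θ => h2 θ)
    _ = π / 2 * ∫ R, wid (pr R K) 0 ∂μ := by
        rw [integral_const]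
        simp only [hg, measureReal_restrict_apply MeasurableSet.univ, univ_inter,
          Real.volume_real_Ioc_of_le pi_pos.le, smul_eq_mul, sub_zero]
        ring

end Pool.Agent.Lib.MP_084b88_gt.CW
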