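import Pool.Agent.Lib.MP_084b88_gt.CW.SpecB

/-!
# MP_084b88_gt, project CW, module PC1: the planar theorem for constant width `2`
-/

set_option autoImplicit false

open MeasureTheory Set Real Filter Topology
open scoped Pointwise InnerProductSpace

namespace Pool.Agent.Lib.MP_084b88_gt.CW

namespace PC1M

theorem continuous_FF : Continuous FF := by
  unfold FF
  fun_prop

theorem FF_neg (x : ℝ) : FF (-x) = FF x := by
  unfold FF
  rw [neg_sq]

theorem abs_FF_le (x : ℝ) : |FF x| ≤ 2 := by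
  have h1 : √(1 - x ^ 2) ≤ 1 := by
    calc √(1 - x ^ 2) ≤ √1 := Real.sqrt_le_sqrt (by nlinarith [sq_nonneg x])
      _ = 1 := Real.sqrt_one
  have h2 : 0 ≤ √(1 - x ^ 2) := Real.sqrt_nonneg _
  have h3 : 0 ≤ kap := by unfold kap; positivity
  have h4 : kap ≤ 1 := by
    unfold kap
    rw [div_le_one (by positivity)]
    have := Real.pi_gt_three
    linarith
  unfold FF
  rw [abs_le]
  constructor <;> linarith

theorem dotu_two (φ α : ℝ) (p : ℝ × ℝ) :
    dotu (φ + α) p + dotu (φ - α) p = 2 * cos α * dotu φ p := by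
  unfold dotu
  rw [cos_add, cos_sub, sin_add, sin_sub]
  ring

theorem Uf_periodic (h : ℝ → ℝ) (hp : ∀ θ, h (θ + 2 * π) = h θ) (θ τ : ℝ) :
    Uf h (θ + 2 * π) τ = Uf h θ τ := by
  unfold Uf
  congr 1
  funext α
  have e1 : θ + 2 * π + (α : ℝ) = (θ + α) + 2 * π := by ring
  have e2 : θ + 2 * π + π = (θ + π) + 2 * π := by ring
  rw [e1, e2, hp, hp, hp]

end PC1M

open PC1M in
theorem specPC1 (hSLC : SpecSLC) (hLIM : SpecLIM) (hUME : SpecUME) (hWB2 : SpecWB2) :
    SpecPC1 := by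
  intro Q hQ hw
  obtain ⟨w1, w2, w3, w4, -, -, -, -, -, w10, -⟩ := hWB2
  obtain ⟨C0, hC0, hb, hlip⟩ := w3 Q hQ
  set h : ℝ → ℝ := sup2 Q with hh
  have hsum : ∀ θ, h θ + h (θ + π) = 2 := fun θ => hw θ
  have hper : ∀ θ, h (θ + 2 * π) = h θ := w4 Q
  have hg1 : (fun t => 1 + (h t - 1)) = h := by
    funext t
    ring
  obtain ⟨⟨C, hC⟩, hI⟩ := hLIM (fun θ => h θ - 1) C0 hC0
    (fun θ θ' => by
      have e : h θ - 1 - (h θ' - 1) = h θ - h θ' := by ring
      rw [e]
      exact hlip θ θ')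
    (fun θ => by
      have := hsum θ
      show h (θ + π) - 1 = -(h θ - 1)
      linarith)
    (fun φ α => by
      obtain ⟨p, hp, hpe⟩ := w2 Q hQ φ
      have h1 := w1 Q hQ (φ + α) p hp
      have h2 := w1 Q hQ (φ - α) p hp
      have h3 := dotu_two φ α p
      have h4 : 2 * cos α * (1 + (h φ - 1)) = 2 * cos α * dotu φ p := by
        rw [hpe]
        ring
      show 2 * cos α * (1 + (h φ - 1)) ≤ (1 + (h (φ + α) - 1)) + (1 + (h (φ - α) - 1))
      rw [h4, ← h3]
      linarith)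
  rw [hg1] at hC hI
  obtain ⟨-, hM⟩ := hUME h C0 hC0 hsum hlip hb
  -- the inner integral
  set I : ℝ → ℝ := fun θ => ∫ τ in Ioo (-1 : ℝ) 1, Uf h θ τ * FF τ with hIdef
  have hIper : Function.Periodic I (2 * π) := by
    intro θ
    simp only [hIdef, Uf_periodic h hper]
  have hC1 : 0 ≤ C := (abs_nonneg _).trans (hC 0 0 (by constructor <;> norm_num))
  -- measurability
  obtain ⟨F2, hF2⟩ : ∃ F2 : ℝ × ℝ → ℝ, F2 = fun x : ℝ × ℝ =>
      (Ioo (-1 : ℝ) 1).indicator (fun τ => Uf h x.1 τ) x.2 * FF x.2 := ⟨_, rfl⟩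
  have hM2 : Measurable F2 := by
    rw [hF2]
    exact hM.mul (continuous_FF.measurable.comp measurable_snd)
  have hF2in : ∀ θ τ, τ ∈ Ioo (-1 : ℝ) 1 → F2 (θ, τ) = Uf h θ τ * FF τ := by
    intro θ τ hτ
    rw [hF2]
    show (Ioo (-1 : ℝ) 1).indicator (fun τ => Uf h θ τ) τ * FF τ = Uf h θ τ * FF τ
    rw [Set.indicator_of_mem hτ]
  have hF2out : ∀ θ τ, τ ∉ Ioo (-1 : ℝ) 1 → F2 (θ, τ) = 0 := by
    intro θ τ hτ
    rw [hF2]
    show (Ioo (-1 : ℝ) 1).indicator (fun τ => Uf h θ τ) τ * FF τ = 0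
    rw [Set.indicator_of_notMem hτ, zero_mul]
  clear_value h
  clear hF2 hM
  have hIeq : ∀ θ, I θ = ∫ τ, F2 (θ, τ) := by
    intro θ
    simp only [hIdef]
    rw [← integral_indicator measurableSet_Ioo]
    congr 1
    funext τ
    by_cases hτ : τ ∈ Ioo (-1 : ℝ) 1
    · rw [Set.indicator_of_mem hτ, hF2in θ τ hτ]
    · rw [Set.indicator_of_notMem hτ, hF2out θ τ hτ]
  have hImeas : Measurable I := by
    have h2 : I = fun θ => ∫ τ, F2 (θ, τ) := funext hIeq
    rw [h2]
    exact (StronglyMeasurable.integral_prod_right' hM2.stronglyMeasurable).measurable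
  -- integrability in τ
  have hint : ∀ θ, IntegrableOn (fun τ => Uf h θ τ * FF τ) (Ioo (-1) 1) := by
    intro θ
    have h1 : Measurable (fun τ : ℝ => F2 (θ, τ)) := hM2.comp measurable_prodMk_left
    have h2 : IntegrableOn (fun τ : ℝ => F2 (θ, τ)) (Ioo (-1) 1) := by
      refine Measure.integrableOn_of_bounded (M := C * 2) (by simp) h1.aestronglyMeasurable ?_
      refine (ae_restrict_iff' measurableSet_Ioo).2 (ae_of_all _ fun τ hτ => ?_)
      rw [hF2in θ τ hτ, Real.norm_eq_abs, abs_mul]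
      exact mul_le_mul (hC θ τ hτ) (abs_FF_le τ) (abs_nonneg _) hC1
    exact h2.congr_fun (fun τ hτ => hF2in θ τ hτ) measurableSet_Ioo
  have hIb : ∀ θ, ‖I θ‖ ≤ C * 2 * 2 := by
    intro θ
    have h1 := norm_setIntegral_le_of_norm_le_const (μ := (volume : Measure ℝ))
      (s := Ioo (-1 : ℝ) 1) (f := fun τ => Uf h θ τ * FF τ) (C := C * 2) (by simp)
      (fun τ hτ => by
        rw [Real.norm_eq_abs, abs_mul]
        exact mul_le_mul (hC θ τ hτ) (abs_FF_le τ) (abs_nonneg _) hC1)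
    have h2 : (volume : Measure ℝ).real (Ioo (-1 : ℝ) 1) = 2 := by
      rw [Measure.real, Real.volume_Ioo]
      norm_num
    rw [h2] at h1
    exact h1
  have hIi : ∀ a b, IntervalIntegrable I volume a b := by
    intro a b
    rw [intervalIntegrable_iff]
    refine Measure.integrableOn_of_bounded (M := C * 2 * 2) (by simp) hImeas.aestronglyMeasurable
      (ae_of_all _ hIb)
  -- reflection
  have hrefl : ∀ θ, ∫ τ in Ioo (-1 : ℝ) 1, Uf h (θ + π) (-τ) * FF τ = I (θ + π) := by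
    intro θ
    simp only [hIdef]
    rw [← integral_indicator measurableSet_Ioo, ← integral_indicator measurableSet_Ioo,
      ← integral_neg_eq_self]
    congr 1
    funext τ
    by_cases hτ : τ ∈ Ioo (-1 : ℝ) 1
    · have hτ' : -τ ∈ Ioo (-1 : ℝ) 1 := ⟨by linarith [hτ.2], by linarith [hτ.1]⟩
      rw [Set.indicator_of_mem hτ, Set.indicator_of_mem hτ', neg_neg, FF_neg]
    · have hτ' : -τ ∉ Ioo (-1 : ℝ) 1 := fun h1 => hτ ⟨by linarith [h1.2], by linarith [h1.1]⟩
      rw [Set.indicator_of_notMem hτ, Set.indicator_of_notMem hτ']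
  have hint2 : ∀ θ, IntegrableOn (fun τ => Uf h (θ + π) (-τ) * FF τ) (Ioo (-1) 1) := by
    intro θ
    have h1 := hint (θ + π)
    rw [← integrable_indicator_iff measurableSet_Ioo] at h1 ⊢
    refine h1.comp_neg.congr (ae_of_all _ fun τ => ?_)
    show (Ioo (-1 : ℝ) 1).indicator (fun τ => Uf h (θ + π) τ * FF τ) (-τ) =
      (Ioo (-1 : ℝ) 1).indicator (fun τ => Uf h (θ + π) (-τ) * FF τ) τ
    by_cases hτ : τ ∈ Ioo (-1 : ℝ) 1
    · have hτ' : -τ ∈ Ioo (-1 : ℝ) 1 := ⟨by linarith [hτ.2], by linarith [hτ.1]⟩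
      rw [Set.indicator_of_mem hτ, Set.indicator_of_mem hτ', FF_neg]
    · have hτ' : -τ ∉ Ioo (-1 : ℝ) 1 := fun h1 => hτ ⟨by linarith [h1.2], by linarith [h1.1]⟩
      rw [Set.indicator_of_notMem hτ, Set.indicator_of_notMem hτ']
  -- the function `qf`
  have hqf : ∀ θ, qf Q θ = I θ + I (θ + π) + kap * area Q := by
    intro θ
    have hQm : MeasurableSet Q := hQ.2.1.isClosed.measurableSet
    have h1 : qf Q θ = ∫ p in Q, (FF (dotu θ p - mid Q θ) + kap) := by
      unfold qf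
      congr 1
      funext p
      have h2 : wid Q θ = 2 := hw θ
      rw [h2]
      unfold FF
      norm_num
    have h3 : IntegrableOn (fun p : ℝ × ℝ => FF (dotu θ p - mid Q θ)) Q := by
      refine ContinuousOn.integrableOn_compact hQ.2.1 ?_
      exact (continuous_FF.comp ((continuous_dotu_right θ).sub continuous_const)).continuousOn
    have h4 : IntegrableOn (fun _ : ℝ × ℝ => kap) Q :=
      integrableOn_const (hQ.2.1.measure_lt_top.ne)
    rw [h1, integral_add h3 h4, hSLC Q hQ hw θ, setIntegral_const, ← hh]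
    have h5 : ∀ τ, (Uf h θ τ + Uf h (θ + π) (-τ)) * FF τ =
        Uf h θ τ * FF τ + Uf h (θ + π) (-τ) * FF τ := fun τ => by rw [add_mul]
    simp only [h5]
    rw [integral_add (hint θ) (hint2 θ), hrefl θ]
    have h6 : (volume : Measure (ℝ × ℝ)).real Q • kap = kap * area Q := by
      rw [smul_eq_mul, mul_comm]
      rfl
    rw [h6]
  simp only [hqf]
  have hIi2 : IntervalIntegrable (fun θ => I (θ + π)) volume 0 (2 * π) := by
    have := (hIi π (2 * π + π)).comp_add_right π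
    simpa using this
  rw [intervalIntegral.integral_add ((hIi 0 (2 * π)).add hIi2) (by simp),
    intervalIntegral.integral_add (hIi 0 (2 * π)) hIi2]
  have e1 : ∫ θ in (0 : ℝ)..(2 * π), I (θ + π) = ∫ θ in (0 : ℝ)..(2 * π), I θ := by
    rw [intervalIntegral.integral_comp_add_right]
    have := hIper.intervalIntegral_add_eq π 0
    rw [zero_add] at this
    rw [zero_add, add_comm (2 * π) π]
    exact this
  rw [e1, intervalIntegral.integral_const]
  have e2 : (2 * π - 0) • (kap * area Q) = 16 / 3 * area Q := by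
    rw [smul_eq_mul]
    unfold kap
    have := Real.pi_ne_zero
    field_simp
    ring
  rw [e2]
  have hI' : 0 ≤ ∫ θ in (0 : ℝ)..(2 * π), I θ := hI
  linarith

end Pool.Agent.Lib.MP_084b88_gt.CW
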