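import Pool.Agent.Lib.MP_084b88_gt.CW.SpecB

/-!
# MP_084b88_gt, project CW, module PCW: P1 for constant width `2r`, by scaling
-/

set_option autoImplicit false

open MeasureTheory Set Real Filter Topology
open scoped Pointwise InnerProductSpace

namespace Pool.Agent.Lib.MP_084b88_gt.CW

namespace PCWM

theorem sup2_smul (Q : Set (ℝ × ℝ)) {a : ℝ} (ha : 0 ≤ a) (θ : ℝ) :
    sup2 (a • Q) θ = a * sup2 Q θ := by
  unfold sup2
  have e : dotu θ '' (a • Q) = a • (dotu θ '' Q) := by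
    ext x
    constructor
    · rintro ⟨p, ⟨q, hq, rfl⟩, rfl⟩
      exact ⟨dotu θ q, ⟨q, hq, rfl⟩, (dotu_smul θ a q).symm⟩
    · rintro ⟨y, ⟨q, hq, rfl⟩, rfl⟩
      exact ⟨a • q, ⟨q, hq, rfl⟩, dotu_smul θ a q⟩
  rw [e, Real.sSup_smul_of_nonneg ha, smul_eq_mul]

theorem wid_smul (Q : Set (ℝ × ℝ)) {a : ℝ} (ha : 0 ≤ a) (θ : ℝ) :
    wid (a • Q) θ = a * wid Q θ := by
  unfold wid
  rw [sup2_smul Q ha, sup2_smul Q ha]
  ring

theorem mid_smul (Q : Set (ℝ × ℝ)) {a : ℝ} (ha : 0 ≤ a) (θ : ℝ) :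
    mid (a • Q) θ = a * mid Q θ := by
  unfold mid
  rw [sup2_smul Q ha, sup2_smul Q ha]
  ring

theorem finrank_two : Module.finrank ℝ (ℝ × ℝ) = 2 := by simp

theorem area_smul (Q : Set (ℝ × ℝ)) (a : ℝ) : area (a • Q) = a ^ 2 * area Q := by
  unfold area
  rw [Measure.addHaar_smul, finrank_two, ENNReal.toReal_mul,
    ENNReal.toReal_ofReal (abs_nonneg _), abs_of_nonneg (sq_nonneg a)]

theorem qf_smul (Q : Set (ℝ × ℝ)) {a : ℝ} (ha : 0 < a) (θ : ℝ) :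
    qf (a • Q) θ = a ^ 2 * qf Q θ := by
  have h1 := Measure.setIntegral_comp_smul_of_pos (volume : Measure (ℝ × ℝ))
    (fun p : ℝ × ℝ => √(1 - ((dotu θ p - mid (a • Q) θ) / (wid (a • Q) θ / 2)) ^ 2)) Q ha
  rw [finrank_two, smul_eq_mul] at h1
  have h2 : ∀ x : ℝ × ℝ, √(1 - ((dotu θ (a • x) - mid (a • Q) θ) / (wid (a • Q) θ / 2)) ^ 2) =
      √(1 - ((dotu θ x - mid Q θ) / (wid Q θ / 2)) ^ 2) := by
    intro x
    rw [dotu_smul, mid_smul Q ha.le, wid_smul Q ha.le]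
    congr 3
    rw [← mul_sub, mul_div_assoc a (wid Q θ) 2, mul_div_mul_left _ _ ha.ne']
  simp only [h2] at h1
  have h3 : qf Q θ = (a ^ 2)⁻¹ * qf (a • Q) θ := h1
  rw [h3]
  field_simp

theorem CC_smul {Q : Set (ℝ × ℝ)} (hQ : CC Q) (a : ℝ) : CC (a • Q) :=
  ⟨hQ.1.smul a, hQ.2.1.smul a, hQ.2.2.smul_set⟩

end PCWM

open PCWM in
theorem specPCW (hPC1 : SpecPC1) : SpecPCW := by
  intro Q r hQ hr hw
  have ha : 0 < r⁻¹ := inv_pos.2 hr
  have h1 := hPC1 (r⁻¹ • Q) (CC_smul hQ _) (fun θ => by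
    rw [wid_smul Q ha.le, hw θ]
    field_simp)
  rw [area_smul] at h1
  have h2 : ∀ θ, qf (r⁻¹ • Q) θ = r⁻¹ ^ 2 * qf Q θ := fun θ => qf_smul Q ha θ
  simp only [h2] at h1
  rw [intervalIntegral.integral_const_mul] at h1
  have h3 : 16 / 3 * area Q ≤ ∫ θ in (0 : ℝ)..(2 * π), qf Q θ := by
    have h4 : 0 < r⁻¹ ^ 2 := by positivity
    refine le_of_mul_le_mul_left ?_ h4
    linarith
  have h0 : 0 ≤ area Q := ENNReal.toReal_nonneg
  unfold P1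
  have h5 : ∀ θ, √(wid Q θ / 2) * qf Q θ = √r * qf Q θ := fun θ => by
    rw [hw θ]
    congr 2
    ring
  have h6 : ∀ θ, qf Q θ / √(wid Q θ / 2) = (√r)⁻¹ * qf Q θ := fun θ => by
    rw [hw θ, show 2 * r / 2 = r by ring]
    field_simp
  simp only [h5, h6]
  rw [intervalIntegral.integral_const_mul, intervalIntegral.integral_const_mul]
  have h7 : 0 < √r := Real.sqrt_pos.2 hr
  have h8 : √r * (∫ θ in (0 : ℝ)..(2 * π), qf Q θ) * ((√r)⁻¹ * ∫ θ in (0 : ℝ)..(2 * π), qf Q θ) =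
      (∫ θ in (0 : ℝ)..(2 * π), qf Q θ) ^ 2 := by
    field_simp
  rw [h8, ← mul_pow]
  exact pow_le_pow_left₀ (by positivity) h3 2

end Pool.Agent.Lib.MP_084b88_gt.CW
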