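import Pool.Agent.Lib.MP_084b88_gt.CW.SpecA

/-!
# MP_084b88_gt, project CW: PST (planar Steiner formula)
-/

set_option autoImplicit false

open MeasureTheory Set Real Filter Topology
open scoped Pointwise InnerProductSpace

namespace Pool.Agent.Lib.MP_084b88_gt.CW

namespace PSTM

theorem disc_mono {s t : ℝ} (hs : 0 ≤ s) (hst : s ≤ t) : disc s ⊆ disc t := by
  intro p hp
  change p.1 ^ 2 + p.2 ^ 2 ≤ t ^ 2
  have h : p.1 ^ 2 + p.2 ^ 2 ≤ s ^ 2 := hp
  nlinarith

theorem disc_smul {s t : ℝ} (_ : 0 ≤ t) {p : ℝ × ℝ} (hp : p ∈ disc s) : t • p ∈ disc (t * s) := by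
  have h : p.1 ^ 2 + p.2 ^ 2 ≤ s ^ 2 := hp
  change (t * p.1) ^ 2 + (t * p.2) ^ 2 ≤ (t * s) ^ 2
  nlinarith [mul_le_mul_of_nonneg_left h (sq_nonneg t)]

theorem disc_add {s t : ℝ} (hs : 0 ≤ s) (ht : 0 ≤ t) : disc s + disc t = disc (s + t) := by
  ext p
  constructor
  · rintro ⟨x, hx, y, hy, rfl⟩
    have h1 : x.1 ^ 2 + x.2 ^ 2 ≤ s ^ 2 := hx
    have h2 : y.1 ^ 2 + y.2 ^ 2 ≤ t ^ 2 := hy
    change (x.1 + y.1) ^ 2 + (x.2 + y.2) ^ 2 ≤ (s + t) ^ 2
    have h3 : (x.1 * y.1 + x.2 * y.2) ^ 2 ≤ (s * t) ^ 2 := by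
      have h4 : (x.1 ^ 2 + x.2 ^ 2) * (y.1 ^ 2 + y.2 ^ 2) ≤ s ^ 2 * t ^ 2 :=
        mul_le_mul h1 h2 (by positivity) (by positivity)
      nlinarith [sq_nonneg (x.1 * y.2 - x.2 * y.1)]
    have h5 : x.1 * y.1 + x.2 * y.2 ≤ s * t := abs_le_of_sq_le_sq' h3 (by positivity) |>.2
    nlinarith
  · intro hp
    rcases (add_nonneg hs ht).eq_or_lt with h0 | h0
    · have hs0 : s = 0 := by linarith
      have ht0 : t = 0 := by linarith
      subst hs0 ht0
      rw [add_zero] at hp
      exact ⟨p, hp, 0, by simp [disc], by simp⟩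
    · refine ⟨(s / (s + t)) • p, ?_, (t / (s + t)) • p, ?_, ?_⟩
      · have := disc_smul (t := s / (s + t)) (by positivity) hp
        rwa [div_mul_cancel₀ _ h0.ne'] at this
      · have := disc_smul (t := t / (s + t)) (by positivity) hp
        rwa [div_mul_cancel₀ _ h0.ne'] at this
      · change (s / (s + t)) • p + (t / (s + t)) • p = p
        rw [← add_smul, ← add_div, div_self h0.ne', one_smul]

theorem disc_zero : disc 0 = {0} := by
  ext p
  constructor
  · intro hp
    have h : p.1 ^ 2 + p.2 ^ 2 ≤ 0 ^ 2 := hp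
    have h1 : p.1 = 0 := by nlinarith
    have h2 : p.2 = 0 := by nlinarith
    exact Prod.ext h1 h2
  · intro hp
    rw [mem_singleton_iff] at hp
    subst hp
    simp [disc]

theorem cc_add {P Q : Set (ℝ × ℝ)} (hP : CC P) (hQ : CC Q) : CC (P + Q) :=
  ⟨hP.1.add hQ.1, hP.2.1.add hQ.2.1, hP.2.2.add hQ.2.2⟩

theorem area_mono {P Q : Set (ℝ × ℝ)} (hQ : CC Q) (h : P ⊆ Q) : area P ≤ area Q :=
  ENNReal.toReal_mono hQ.2.1.measure_lt_top.ne (measure_mono h)

theorem area_nonneg (Q : Set (ℝ × ℝ)) : 0 ≤ area Q := ENNReal.toReal_nonneg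

/-- the area of a homothetic copy -/
theorem area_smul_add (P : Set (ℝ × ℝ)) (a : ℝ) (v : ℝ × ℝ) :
    area ((fun p => a • p + v) '' P) = a ^ 2 * area P := by
  unfold area
  have h1 : (fun p : ℝ × ℝ => a • p + v) '' P = (fun p => p + v) '' (a • P) := by
    ext p
    constructor
    · rintro ⟨x, hx, rfl⟩
      exact ⟨a • x, smul_mem_smul_set hx, rfl⟩
    · rintro ⟨y, ⟨x, hx, rfl⟩, rfl⟩
      exact ⟨x, hx, rfl⟩
  rw [h1, image_add_right, measure_preimage_add_right, Measure.addHaar_smul,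
    ENNReal.toReal_mul]
  have h2 : Module.finrank ℝ (ℝ × ℝ) = 2 := by
    rw [Module.finrank_prod]
    simp
  rw [h2, ENNReal.toReal_ofReal (abs_nonneg _), abs_of_nonneg (sq_nonneg a)]

/-- comparison of the areas of parallel sets -/
theorem area_scale {Q : Set (ℝ × ℝ)} (hQ : CC Q) (hd : ∀ t : ℝ, 0 ≤ t → CC (disc t)) {u t : ℝ}
    (hu : 0 ≤ u) (ht : 0 < t) (hut : u ≤ t) :
    (u / t) ^ 2 * area (Q + disc t) ≤ area (Q + disc u) := by
  obtain ⟨q0, hq0⟩ := hQ.2.2
  rw [← area_smul_add (Q + disc t) (u / t) ((1 - u / t) • q0)]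
  refine area_mono (cc_add hQ (hd u hu)) ?_
  rintro _ ⟨_, ⟨x, hx, d, hdt, rfl⟩, rfl⟩
  have hl0 : 0 ≤ u / t := by positivity
  have hl1 : u / t ≤ 1 := (div_le_one ht).2 hut
  refine ⟨(u / t) • x + (1 - u / t) • q0, ?_, (u / t) • d, ?_, ?_⟩
  · exact hQ.1 hx hq0 hl0 (by linarith) (by ring)
  · have := disc_smul hl0 hdt
    rwa [div_mul_cancel₀ _ ht.ne'] at this
  · change (u / t) • x + (1 - u / t) • q0 + (u / t) • d = (u / t) • (x + d) + (1 - u / t) • q0
    rw [smul_add]
    abel

end PSTM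

open PSTM in
theorem specPST (hDE2 : SpecDE2) (hWB2 : SpecWB2) : SpecPST := by
  intro Q ρ hQ hρ
  obtain ⟨-, -, -, -, -, -, hdisc, -, hlen, -, -⟩ := hWB2
  have hd : ∀ t : ℝ, 0 ≤ t → CC (disc t) := fun t ht => (hdisc t ht).1
  set f : ℝ → ℝ := fun t => area (Q + disc t) with hf
  -- right derivative
  have hder : ∀ t : ℝ, 0 ≤ t → HasDerivWithinAt f (2 * (len Q + π * t)) (Ioi t) t := by
    intro t ht
    have h1 := hDE2 (Q + disc t) (cc_add hQ (hd t ht))
    rw [(hlen Q hQ).2 t ht] at h1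
    rw [hasDerivWithinAt_iff_tendsto_slope' (by simp)]
    have h2 : Tendsto (fun s : ℝ => s - t) (𝓝[>] t) (𝓝[>] 0) := by
      refine tendsto_nhdsWithin_iff.2 ⟨?_, ?_⟩
      · have h3 : Tendsto (fun s : ℝ => s - t) (𝓝 t) (𝓝 (t - t)) :=
          (continuous_id.sub continuous_const).tendsto t
        rw [sub_self] at h3
        exact h3.mono_left nhdsWithin_le_nhds
      · filter_upwards [self_mem_nhdsWithin] with s hs
        exact sub_pos.2 (show t < s from hs)
    refine (h1.comp h2).congr' ?_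
    filter_upwards [self_mem_nhdsWithin] with s hs
    have hs' : t < s := hs
    rw [slope_def_field]
    change (area (Q + disc t + disc (s - t)) - area (Q + disc t)) / (s - t) = _
    rw [add_assoc, disc_add ht (by linarith), add_sub_cancel]
  -- monotonicity
  have hmono : ∀ s t : ℝ, 0 ≤ s → s ≤ t → f s ≤ f t := by
    intro s t hs hst
    exact area_mono (cc_add hQ (hd t (hs.trans hst)))
      (Set.add_subset_add_left (disc_mono hs hst))
  -- continuity
  have hcont : ContinuousOn f (Icc 0 ρ) := by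
    intro t ht
    rcases ht.1.eq_or_lt with h0 | h0
    · have h1 : HasDerivWithinAt f (2 * (len Q + π * t)) (Ici t) t :=
        hasDerivWithinAt_Ioi_iff_Ici.1 (hder t ht.1)
      refine h1.continuousWithinAt.mono ?_
      intro s hs
      rw [mem_Ici, ← h0]
      exact hs.1
    · have hft : 0 ≤ f t := area_nonneg _
      have hA : Tendsto (fun s : ℝ => min 1 ((s / t) ^ 2) * f t) (𝓝 t) (𝓝 (f t)) := by
        have hc : Continuous (fun s : ℝ => min 1 ((s / t) ^ 2) * f t) := by fun_prop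
        have h2 := hc.tendsto t
        rwa [div_self h0.ne', one_pow, min_self, one_mul] at h2
      have hB : Tendsto (fun s : ℝ => max 1 ((s / t) ^ 2) * f t) (𝓝 t) (𝓝 (f t)) := by
        have hc : Continuous (fun s : ℝ => max 1 ((s / t) ^ 2) * f t) := by fun_prop
        have h2 := hc.tendsto t
        rwa [div_self h0.ne', one_pow, max_self, one_mul] at h2
      have hlim : Tendsto f (𝓝 t) (𝓝 (f t)) := by
        refine tendsto_of_tendsto_of_tendsto_of_le_of_le' hA hB ?_ ?_
        · filter_upwards [lt_mem_nhds h0] with s hs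
          rcases le_total s t with h | h
          · calc min 1 ((s / t) ^ 2) * f t ≤ (s / t) ^ 2 * f t :=
                mul_le_mul_of_nonneg_right (min_le_right _ _) hft
              _ ≤ f s := area_scale hQ hd hs.le h0 h
          · calc min 1 ((s / t) ^ 2) * f t ≤ 1 * f t :=
                mul_le_mul_of_nonneg_right (min_le_left _ _) hft
              _ = f t := one_mul _
              _ ≤ f s := hmono t s h0.le h
        · filter_upwards [lt_mem_nhds h0] with s hs
          rcases le_total s t with h | h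
          · calc f s ≤ f t := hmono s t hs.le h
              _ = 1 * f t := (one_mul _).symm
              _ ≤ max 1 ((s / t) ^ 2) * f t :=
                mul_le_mul_of_nonneg_right (le_max_left _ _) hft
          · have h3 : (t / s) ^ 2 * f s ≤ f t := area_scale hQ hd h0.le hs h
            have h4 : f s = (s / t) ^ 2 * ((t / s) ^ 2 * f s) := by
              have hs0 : s ≠ 0 := ne_of_gt hs
              have ht0 : t ≠ 0 := h0.ne'
              field_simp
            calc f s = (s / t) ^ 2 * ((t / s) ^ 2 * f s) := h4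
              _ ≤ (s / t) ^ 2 * f t := mul_le_mul_of_nonneg_left h3 (by positivity)
              _ ≤ max 1 ((s / t) ^ 2) * f t :=
                mul_le_mul_of_nonneg_right (le_max_right _ _) hft
      exact hlim.mono_left nhdsWithin_le_nhds
  -- integration
  have hint : ∫ y in (0 : ℝ)..ρ, 2 * (len Q + π * y) = f ρ - f 0 := by
    refine intervalIntegral.integral_eq_sub_of_hasDeriv_right ?_ ?_ ?_
    · rwa [uIcc_of_le hρ]
    · intro x hx
      rw [min_eq_left hρ, max_eq_right hρ] at hx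
      exact hder x hx.1.le
    · exact Continuous.intervalIntegrable (by fun_prop) _ _
  have hval : ∫ y in (0 : ℝ)..ρ, 2 * (len Q + π * y) = 2 * len Q * ρ + π * ρ ^ 2 := by
    have h1 : ∀ x ∈ uIcc 0 ρ,
        HasDerivAt (fun y : ℝ => 2 * len Q * y + π * y ^ 2) (2 * (len Q + π * x)) x := by
      intro x _
      have h2 := ((hasDerivAt_id x).const_mul (2 * len Q)).add
        (((hasDerivAt_id x).pow 2).const_mul π)
      refine h2.congr_deriv ?_
      simp
      ring
    rw [intervalIntegral.integral_eq_sub_of_hasDerivAt h1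
      (Continuous.intervalIntegrable (by fun_prop) _ _)]
    ring
  have hf0 : f 0 = area Q := by
    change area (Q + disc 0) = area Q
    rw [disc_zero, Set.add_singleton]
    simp
  have hfin : f ρ = f 0 + (2 * len Q * ρ + π * ρ ^ 2) := by
    rw [← hval, hint]
    ring
  change f ρ = _
  rw [hfin, hf0]
  ring

end Pool.Agent.Lib.MP_084b88_gt.CW
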