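import Pool.Agent.Lib.MP_084b88_gt.CW.SpecA

/-!
# MP_084b88_gt, project CW: RO2 (rotation of the plane)
-/

set_option autoImplicit false

open MeasureTheory Set Real Filter Topology
open scoped Pointwise InnerProductSpace

namespace Pool.Agent.Lib.MP_084b88_gt.CW

/-- **RO2**. Rotations of `ℝ × ℝ`. -/
theorem specRO2 : SpecRO2 := by
  intro φ
  constructor
  · have h1 : MeasurePreserving Complex.measurableEquivRealProd volume volume :=
      Complex.volume_preserving_equiv_real_prod
    have h2 : MeasurePreserving (rotation (Circle.exp (-φ))) volume volume :=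
      (rotation (Circle.exp (-φ))).measurePreserving
    have h3 := h1.comp (h2.comp h1.symm)
    have h4 : (fun p : ℝ × ℝ => (dotu φ p, dotu (φ + π / 2) p)) =
        Complex.measurableEquivRealProd ∘ (rotation (Circle.exp (-φ))) ∘
          Complex.measurableEquivRealProd.symm := by
      funext p
      have h5 : Complex.measurableEquivRealProd.symm p = ⟨p.1, p.2⟩ := rfl
      have h6 : ∀ z : ℂ, Complex.measurableEquivRealProd z = (z.re, z.im) := fun _ => rfl
      simp only [Function.comp_apply, h5, h6, rotation_apply, Circle.coe_exp]
      have h7 : Complex.exp (((-φ : ℝ) : ℂ) * Complex.I) = ⟨cos φ, -sin φ⟩ := by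
        rw [Complex.exp_mul_I]
        apply Complex.ext
        · simp [← Complex.ofReal_cos, ← Complex.ofReal_sin, ← Complex.ofReal_neg]
        · simp [← Complex.ofReal_cos, ← Complex.ofReal_sin, ← Complex.ofReal_neg]
      rw [h7]
      simp only [Complex.mul_re, Complex.mul_im, dotu, cos_add_pi_div_two, sin_add_pi_div_two]
      refine Prod.ext ?_ ?_
      · ring
      · ring
    rw [h4]
    exact h3
  · intro p
    have h := sin_sq_add_cos_sq φ
    simp only [dotu, cos_add_pi_div_two, sin_add_pi_div_two, cos_neg, sin_neg]
    refine Prod.ext ?_ ?_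
    · simp only
      linear_combination (p.1) * h
    · simp only
      linear_combination (p.2) * h

end Pool.Agent.Lib.MP_084b88_gt.CW
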