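import Pool.Agent.Lib.MP_084b88_gt.CW.SpecA

/-!
# MP_084b88_gt, project CW: SG3 (adding a segment in space)
-/

set_option autoImplicit false

open MeasureTheory Set Real Filter Topology
open scoped Pointwise InnerProductSpace

namespace Pool.Agent.Lib.MP_084b88_gt.CW

namespace SG3M

theorem coord_add (R : O3) (x y : E3) : coord R (x + y) = coord R x + coord R y := by
  unfold coord
  rw [cd_add, inner_add_right]
  rfl

theorem coord_smul (R : O3) (a : ℝ) (x : E3) : coord R (a • x) = a • coord R x := by
  unfold coord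
  rw [cd_smul, inner_smul_right]
  rfl

theorem coord_col (R : O3) (s : ℝ) : coord R (s • col R 2) = ((0, 0), s) := by
  have h0 : ⟪col R 0, s • col R 2⟫_ℝ = 0 := by
    rw [inner_smul_right, inner_col_col, if_neg (by decide), mul_zero]
  have h1 : ⟪col R 1, s • col R 2⟫_ℝ = 0 := by
    rw [inner_smul_right, inner_col_col, if_neg (by decide), mul_zero]
  have h2 : ⟪col R 2, s • col R 2⟫_ℝ = s := by
    rw [inner_smul_right, inner_col_col, if_pos rfl, mul_one]
  unfold coord cd
  rw [h0, h1, h2]

theorem continuous_coord (R : O3) : Continuous (coord R) := by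
  unfold coord
  exact (continuous_cd_right R).prodMk (continuous_const.inner continuous_id)

theorem compact_segment {V : Type} [NormedAddCommGroup V] [NormedSpace ℝ V] (x y : V) :
    IsCompact (segment ℝ x y) := by
  rw [segment_eq_image]
  refine isCompact_Icc.image ?_
  fun_prop

/-- the segment `[-c u, c u]` -/
theorem mem_seg {V : Type} [NormedAddCommGroup V] [NormedSpace ℝ V] (u : V) (c : ℝ) (hc : 0 ≤ c)
    (x : V) : x ∈ segment ℝ (-(c • u)) (c • u) ↔ ∃ s ∈ Icc (-c) c, x = s • u := by
  rw [segment_eq_image]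
  constructor
  · rintro ⟨θ, ⟨h0, h1⟩, rfl⟩
    refine ⟨(2 * θ - 1) * c, ⟨by nlinarith, by nlinarith⟩, ?_⟩
    simp only
    rw [smul_neg, smul_smul, smul_smul, ← sub_eq_neg_add, ← sub_smul]
    congr 1
    ring
  · rintro ⟨s, ⟨h0, h1⟩, rfl⟩
    rcases hc.eq_or_lt with h | h
    · have hs : s = 0 := by subst h; linarith
      subst hs
      subst h
      refine ⟨0, ⟨le_rfl, zero_le_one⟩, ?_⟩
      simp
    · refine ⟨(s / c + 1) / 2, ⟨?_, ?_⟩, ?_⟩
      · have : -1 ≤ s / c := by
          rw [le_div_iff₀ h]; linarith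
        linarith
      · have : s / c ≤ 1 := by
          rw [div_le_one h]; linarith
        linarith
      · simp only
        rw [smul_neg, smul_smul, smul_smul, ← sub_eq_neg_add, ← sub_smul]
        congr 1
        field_simp
        ring

end SG3M

open SG3M in
/-- **SG3**. Adding a segment in space. -/
theorem specSG3 (hSLI : SpecSLI) (hCO3 : SpecCO3) : SpecSG3 := by
  intro R M c hM hc
  obtain ⟨hmp, e, he, _⟩ := hCO3 R
  set N : Set E3 := M + segment ℝ (-(c • col R 2)) (c • col R 2) with hN
  have hNc : IsCompact N := hM.2.1.add (compact_segment _ _)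
  have hinj : Function.Injective (coord R) := by
    intro x y hxy
    apply e.injective
    rw [he, he, hxy]
  have hvol : ∀ A : Set E3, IsCompact A → volume A = volume (coord R '' A) := by
    intro A hA
    have h1 : MeasurableSet (coord R '' A) :=
      (hA.image (continuous_coord R)).isClosed.measurableSet
    have h2 := hmp.measure_preimage h1.nullMeasurableSet
    rw [preimage_image_eq A hinj] at h2
    exact h2
  have hS : MeasurableSet (coord R '' M) :=
    (hM.2.1.image (continuous_coord R)).isClosed.measurableSet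
  have hT : MeasurableSet (coord R '' N) :=
    (hNc.image (continuous_coord R)).isClosed.measurableSet
  have hPc : IsCompact (pr R M) := hM.2.1.image (continuous_cd_right R)
  have hP : MeasurableSet (pr R M) := hPc.isClosed.measurableSet
  have key := hSLI (ℝ × ℝ) volume (coord R '' M) (coord R '' N) (pr R M) c hc hS hT hP ?_ ?_ ?_
  · have hv1 : volume (coord R '' M) ≠ ⊤ := (hM.2.1.image (continuous_coord R)).measure_lt_top.ne
    have hv2 : volume (pr R M) ≠ ⊤ := hPc.measure_lt_top.ne
    rw [hvol N hNc, hvol M hM.2.1]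
    change ((volume.prod volume) (coord R '' N)).toReal =
      ((volume.prod volume) (coord R '' M)).toReal + 2 * c * (volume (pr R M)).toReal
    have hv1' : (volume.prod volume) (coord R '' M) ≠ ⊤ := hv1
    rw [key, ENNReal.toReal_add hv1' (ENNReal.mul_ne_top ENNReal.ofReal_ne_top hv2),
      ENNReal.toReal_mul, ENNReal.toReal_ofReal (by positivity)]
  · intro x
    constructor
    · rintro ⟨y, hy, rfl⟩
      exact ⟨⟪col R 2, y⟫_ℝ, y, hy, rfl⟩
    · rintro ⟨t, y, hy, hyt⟩
      exact ⟨y, hy, congrArg Prod.fst hyt⟩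
  · intro x hx
    set I : Set ℝ := {t | (x, t) ∈ coord R '' M} with hI
    have hIc : IsCompact I := by
      have h1 : I = Prod.snd '' ((coord R '' M) ∩ (Prod.fst ⁻¹' {x})) := by
        ext t
        constructor
        · intro ht
          exact ⟨(x, t), ⟨ht, rfl⟩, rfl⟩
        · rintro ⟨⟨x', t'⟩, ⟨h1, h2⟩, h3⟩
          have h2' : x' = x := h2
          have h3' : t' = t := h3
          subst h2' h3'
          exact h1
      rw [h1]
      refine IsCompact.image ?_ continuous_snd
      exact (hM.2.1.image (continuous_coord R)).inter_right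
        (isClosed_singleton.preimage continuous_fst)
    have hIconv : Convex ℝ I := by
      rintro t ⟨y, hy, hyt⟩ t' ⟨y', hy', hyt'⟩ a b ha hb hab
      refine ⟨a • y + b • y', hM.1 hy hy' ha hb hab, ?_⟩
      rw [coord_add, coord_smul, coord_smul, hyt, hyt']
      ext
      · change a * x.1 + b * x.1 = x.1
        rw [← add_mul, hab, one_mul]
      · change a * x.2 + b * x.2 = x.2
        rw [← add_mul, hab, one_mul]
      · rfl
    have hIne : I.Nonempty := by
      obtain ⟨y, hy, hyx⟩ := hx
      refine ⟨⟪col R 2, y⟫_ℝ, y, hy, ?_⟩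
      unfold coord
      rw [hyx]
    have hIeq := eq_Icc_of_connected_compact ⟨hIne, hIconv.isPreconnected⟩ hIc
    have hle : sInf I ≤ sSup I := by
      obtain ⟨t, ht⟩ := hIne
      rw [hIeq] at ht
      exact ht.1.trans ht.2
    refine ⟨sInf I, sSup I, hle, hIeq, ?_⟩
    ext t
    constructor
    · rintro ⟨z, ⟨y, hy, w, hw, rfl⟩, hyt⟩
      rw [mem_seg _ _ hc] at hw
      obtain ⟨s, hs, rfl⟩ := hw
      simp only at hyt
      rw [coord_add, coord_col] at hyt
      have h1 : cd R y = x := by
        have := congrArg Prod.fst hyt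
        have h4 : cd R y + (0, 0) = x := this
        rwa [show ((0 : ℝ), (0 : ℝ)) = (0 : ℝ × ℝ) from rfl, add_zero] at h4
      have h2 : ⟪col R 2, y⟫_ℝ + s = t := by
        have := congrArg Prod.snd hyt
        simpa [coord] using this
      have h3 : ⟪col R 2, y⟫_ℝ ∈ I := ⟨y, hy, by unfold coord; rw [h1]⟩
      rw [hIeq] at h3
      constructor
      · linarith [h3.1, hs.1]
      · linarith [h3.2, hs.2]
    · rintro ⟨ht1, ht2⟩
      -- choose the nearest point of `I`
      obtain ⟨t', ht', s, hs, hts⟩ : ∃ t' ∈ Icc (sInf I) (sSup I), ∃ s ∈ Icc (-c) c, t = t' + s := by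
        rcases lt_or_ge t (sInf I) with h | h
        · exact ⟨sInf I, ⟨le_rfl, hle⟩, t - sInf I, ⟨by linarith, by linarith⟩, by ring⟩
        · rcases lt_or_ge (sSup I) t with h' | h'
          · exact ⟨sSup I, ⟨hle, le_rfl⟩, t - sSup I, ⟨by linarith, by linarith⟩, by ring⟩
          · exact ⟨t, ⟨h, h'⟩, 0, ⟨by linarith, hc⟩, by ring⟩
      rw [← hIeq] at ht'
      obtain ⟨y, hy, hyt⟩ := ht'
      refine ⟨y + s • col R 2, ⟨y, hy, s • col R 2, ?_, rfl⟩, ?_⟩
      · rw [mem_seg _ _ hc]
        exact ⟨s, hs, rfl⟩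
      · rw [coord_add, coord_col, hyt, hts]
        ext <;> simp
  · intro x hx
    rw [Set.eq_empty_iff_forall_notMem]
    rintro t ⟨z, ⟨y, hy, w, hw, rfl⟩, hyt⟩
    rw [mem_seg _ _ hc] at hw
    obtain ⟨s, hs, rfl⟩ := hw
    simp only at hyt
    rw [coord_add, coord_col] at hyt
    apply hx
    refine ⟨y, hy, ?_⟩
    have := congrArg Prod.fst hyt
    have h4 : cd R y + (0, 0) = x := this
    rwa [show ((0 : ℝ), (0 : ℝ)) = (0 : ℝ × ℝ) from rfl, add_zero] at h4

end Pool.Agent.Lib.MP_084b88_gt.CW
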