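import Pool.Agent.Lib.MP_084b88_gt.CW.SpecA

/-!
# MP_084b88_gt, project CW: SLI (slicing)
-/

set_option autoImplicit false

open MeasureTheory Set Real Filter Topology
open scoped Pointwise InnerProductSpace

namespace Pool.Agent.Lib.MP_084b88_gt.CW

/-- **SLI**. Slicing. -/
theorem specSLI : SpecSLI := by
  intro X _ ν _ S T P c hc hS hT hP hPS hin hout
  rw [Measure.prod_apply hT, Measure.prod_apply hS]
  have h1 : ∀ x, volume (Prod.mk x ⁻¹' T) =
      volume (Prod.mk x ⁻¹' S) + P.indicator (fun _ => ENNReal.ofReal (2 * c)) x := by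
    intro x
    by_cases hx : x ∈ P
    · obtain ⟨a, b, hab, hSx, hTx⟩ := hin x hx
      have e1 : Prod.mk x ⁻¹' S = Icc a b := hSx
      have e2 : Prod.mk x ⁻¹' T = Icc (a - c) (b + c) := hTx
      rw [e1, e2, indicator_of_mem hx, Real.volume_Icc, Real.volume_Icc,
        ← ENNReal.ofReal_add (by linarith) (by linarith)]
      congr 1
      ring
    · have e1 : Prod.mk x ⁻¹' S = ∅ := by
        rw [eq_empty_iff_forall_notMem]
        intro t ht
        exact hx ((hPS x).2 ⟨t, ht⟩)
      have e2 : Prod.mk x ⁻¹' T = ∅ := hout x hx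
      rw [e1, e2, indicator_of_notMem hx, measure_empty, add_zero]
  rw [lintegral_congr h1, lintegral_add_left (measurable_measure_prodMk_left hS),
    lintegral_indicator hP, setLIntegral_const]

end Pool.Agent.Lib.MP_084b88_gt.CW
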