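import Pool.Agent.Lib.MP_084b88_gt.CW.SpecB

/-!
# MP_084b88_gt, project CW: module SMO (smooth case of the planar theorem)
-/

set_option autoImplicit false

open MeasureTheory Set Real Filter Topology
open scoped Pointwise InnerProductSpace

namespace Pool.Agent.Lib.MP_084b88_gt.CW

namespace SMOM

/-- the function `ω` -/
noncomputable def om (M : ℕ) (c : ℕ → ℂ) (θ α : ℝ) : ℝ :=
  (QQF (cos α + sin α ^ 2 * psi M c θ α) - QQF (cos α)) / sin α ^ 2

theorem FF_cos (α : ℝ) (h : α ∈ Icc (0 : ℝ) π) : FF (cos α) = sin α - kap := by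
  unfold FF
  have h1 : 1 - cos α ^ 2 = sin α ^ 2 := by
    have := sin_sq_add_cos_sq α
    linarith
  rw [h1, sqrt_sq (sin_nonneg_of_nonneg_of_le_pi h.1 h.2)]

theorem comp2 (f : ℝ → ℝ → ℝ) (hf : Continuous (fun x : ℝ × ℝ => f x.1 x.2)) {g : ℝ → ℝ × ℝ}
    (hg : Continuous g) : Continuous (fun t => f (g t).1 (g t).2) := hf.comp hg

theorem comp3 (f : ℝ → ℝ → ℝ) (hf : Continuous (fun x : ℝ × ℝ => f x.1 x.2)) (θ : ℝ) :
    Continuous (fun t => f θ t) := by
  have h : Continuous (fun α : ℝ => ((θ, α) : ℝ × ℝ)) := by fun_prop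
  exact comp2 f hf h

theorem comp4 (f : ℝ → ℝ → ℝ) (hf : Continuous (fun x : ℝ × ℝ => f x.1 x.2)) (θ : ℝ) :
    Continuous (fun t => f t θ) := by
  have h : Continuous (fun α : ℝ => ((α, θ) : ℝ × ℝ)) := by fun_prop
  exact comp2 f hf h

end SMOM

open SMOM in
set_option maxHeartbeats 1000000 in
theorem specSMO (hCAL : SpecCAL) (hCAG : SpecCAG) (hGPB : SpecGPB) (hQQP : SpecQQP)
    (hTPO : SpecTPO) : SpecSMO := by
  intro M c hr
  obtain ⟨g1, g2, g3, g4, g5, g6, ⟨C, hC⟩, g8, g9⟩ := hGPB M c
  obtain ⟨q1, q2, q3, q4, q5, q6, q7, q8, q9⟩ := hQQP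
  have hg' : Continuous (gp M (dc c)) := (hGPB M (dc c)).2.2.2.1
  have hC0 : 0 ≤ C := (abs_nonneg _).trans (hC 0 0)
  have hQQc : Continuous QQF := continuous_iff_continuousAt.2 fun x => (q2 x).continuousAt
  have hcos : ∀ α, |cos α| ≤ 1 := abs_cos_le_one
  have hin : ∀ θ, ∀ α ∈ Icc (0 : ℝ) π, |cos α + sin α ^ 2 * psi M c θ α| ≤ 1 :=
    fun θ => (hCAG M c hr θ).2.2.2.1
  have hpsiα : ∀ θ, Continuous (fun α => psi M c θ α) := comp3 (psi M c) g6
  have hpsiθ : ∀ α, Continuous (fun θ => psi M c θ α) := comp4 (psi M c) g6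
  have hbd : ∀ θ, ∀ α ∈ Icc (0 : ℝ) π, |om M c θ α| ≤ C := by
    intro θ α hα
    unfold om
    rcases eq_or_ne (sin α) 0 with h0 | h0
    · rw [h0]
      simpa using hC0
    · have hs : 0 < sin α ^ 2 := by positivity
      rw [abs_div, abs_of_pos hs, div_le_iff₀ hs]
      refine (q7 _ _ (hin θ α hα) (hcos α)).trans ?_
      rw [add_sub_cancel_left, abs_mul, abs_of_pos hs, mul_comm]
      exact mul_le_mul_of_nonneg_right (hC θ α) hs.le
  have hmeas : ∀ θ, Measurable (om M c θ) := by
    intro θ
    unfold om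
    refine Measurable.div (Continuous.measurable ?_) (Continuous.measurable ?_)
    · exact (hQQc.comp (continuous_cos.add ((continuous_sin.pow 2).mul (hpsiα θ)))).sub
        (hQQc.comp continuous_cos)
    · exact continuous_sin.pow 2
  have hint : ∀ θ, IntervalIntegrable (om M c θ) volume 0 π := by
    intro θ
    refine (intervalIntegrable_const (c := C)).mono_fun' (hmeas θ).aestronglyMeasurable ?_
    refine (ae_restrict_iff' measurableSet_uIoc).2 (Eventually.of_forall fun α hα => ?_)
    rw [uIoc_of_le pi_pos.le] at hα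
    exact hbd θ α ⟨hα.1.le, hα.2⟩
  have hOc : Continuous (fun θ => ∫ α in (0 : ℝ)..π, om M c θ α) := by
    refine intervalIntegral.continuous_of_dominated_interval (bound := fun _ => C)
      (fun θ => (hmeas θ).aestronglyMeasurable) (fun θ => Eventually.of_forall fun α hα => ?_)
      intervalIntegrable_const (Eventually.of_forall fun α _ => ?_)
    · rw [uIoc_of_le pi_pos.le] at hα
      exact hbd θ α ⟨hα.1.le, hα.2⟩
    · unfold om
      exact ((hQQc.comp (continuous_const.add (continuous_const.mul (hpsiθ α)))).sub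
        continuous_const).div_const _
  have hJ : (fun θ => ∫ τ in Ioo (-1 : ℝ) 1, Uf (fun t => 1 + gp M c t) θ τ * FF τ) =
      fun θ => 2 * gp M (dc c) θ * QF 1 - ∫ α in (0 : ℝ)..π, om M c θ α := by
    funext θ
    exact (hCAL M c hr θ).2
  rw [hJ]
  have hlin : Continuous (fun θ => 2 * gp M (dc c) θ * QF 1) :=
    (continuous_const.mul hg').mul continuous_const
  refine ⟨hlin.sub hOc, ?_⟩
  rw [intervalIntegral.integral_sub (hlin.intervalIntegrable _ _) (hOc.intervalIntegrable _ _)]
  have hz : ∫ θ in (0 : ℝ)..(2 * π), 2 * gp M (dc c) θ * QF 1 = 0 := by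
    have h1 : ∫ θ in (0 : ℝ)..(2 * π), gp M (dc c) θ = 0 := by
      rw [intervalIntegral.integral_eq_sub_of_hasDerivAt (fun x _ => g1 x)
        (hg'.intervalIntegrable _ _)]
      have := g3 0
      rw [zero_add] at this
      rw [this, sub_self]
    have h2 : (fun θ => 2 * gp M (dc c) θ * QF 1) = fun θ => (2 * QF 1) * gp M (dc c) θ := by
      funext θ
      ring
    rw [h2, intervalIntegral.integral_const_mul, h1, mul_zero]
  rw [hz, zero_sub]
  -- the symmetrised integral
  set Om : ℝ → ℝ := fun θ => ∫ α in (0 : ℝ)..π, om M c θ α with hOm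
  have hper : Function.Periodic Om (2 * π) := by
    intro θ
    simp only [hOm]
    congr 1
    funext α
    unfold om
    have : psi M c (θ + 2 * π) α = psi M c θ α := by
      have e : θ + 2 * π = (θ + π) + π := by ring
      rw [e, g8, g8, neg_neg]
    rw [this]
  have hshift : ∫ θ in (0 : ℝ)..(2 * π), Om (θ + π) = ∫ θ in (0 : ℝ)..(2 * π), Om θ := by
    rw [intervalIntegral.integral_comp_add_right Om π]
    have := hper.intervalIntegral_add_eq (0 + π) 0
    rw [zero_add (2 * π)] at this
    rw [← this]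
    congr 1
    ring
  have hT := hTPO M c
  have hTc : Continuous (fun θ => ∫ α in (0 : ℝ)..π,
      psi M c θ α ^ 2 * (kap * sin α ^ 2 - sin α ^ 3)) := by
    refine intervalIntegral.continuous_parametric_intervalIntegral_of_continuous' ?_ 0 π
    refine Continuous.mul (g6.pow 2) ?_
    fun_prop
  have hpt : ∀ θ, Om θ + Om (θ + π) ≤
      -∫ α in (0 : ℝ)..π, psi M c θ α ^ 2 * (kap * sin α ^ 2 - sin α ^ 3) := by
    intro θ
    simp only [hOm]
    rw [← intervalIntegral.integral_add (hint θ) (hint (θ + π)), ← intervalIntegral.integral_neg]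
    refine intervalIntegral.integral_mono_on pi_pos.le ((hint θ).add (hint (θ + π))) ?_ ?_
    · refine Continuous.intervalIntegrable ?_ _ _
      exact (((hpsiα θ).pow 2).mul (by fun_prop)).neg
    · intro α hα
      unfold om
      rw [g8 θ α]
      rcases eq_or_ne (sin α) 0 with h0 | h0
      · rw [h0]
        simp
      · have hs : 0 < sin α ^ 2 := by positivity
        have h3 := q8 (cos α) (sin α ^ 2 * psi M c θ α) (hin θ α hα) (by
          have := hin (θ + π) α hα
          rw [g8] at this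
          have e : cos α - sin α ^ 2 * psi M c θ α = cos α + sin α ^ 2 * -psi M c θ α := by ring
          rw [e]
          exact this)
        rw [FF_cos α hα] at h3
        rw [← add_div, div_le_iff₀ hs]
        have e : cos α + sin α ^ 2 * -psi M c θ α = cos α - sin α ^ 2 * psi M c θ α := by ring
        rw [e]
        nlinarith
  have hOs : Continuous (fun θ => Om (θ + π)) := hOc.comp (continuous_id.add continuous_const)
  have hsum : ∫ θ in (0 : ℝ)..(2 * π), (Om θ + Om (θ + π)) ≤
      ∫ θ in (0 : ℝ)..(2 * π), -∫ α in (0 : ℝ)..π,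
        psi M c θ α ^ 2 * (kap * sin α ^ 2 - sin α ^ 3) :=
    intervalIntegral.integral_mono_on (by positivity)
      ((hOc.add hOs).intervalIntegrable _ _)
      (hTc.neg.intervalIntegrable _ _) (fun θ _ => hpt θ)
  have i1 : IntervalIntegrable Om volume 0 (2 * π) := hOc.intervalIntegrable _ _
  have i2 : IntervalIntegrable (fun θ => Om (θ + π)) volume 0 (2 * π) := hOs.intervalIntegrable _ _
  rw [intervalIntegral.integral_neg, intervalIntegral.integral_add i1 i2, hshift] at hsum
  linarith

end Pool.Agent.Lib.MP_084b88_gt.CW
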