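import Pool.Agent.Lib.MP_084b88_gt.CW.SpecB

/-!
# MP_084b88_gt, project CW: module TPO
-/

set_option autoImplicit false

open MeasureTheory Set Real Filter Topology
open scoped Pointwise InnerProductSpace

namespace Pool.Agent.Lib.MP_084b88_gt.CW

namespace TPOM

/-- the weight -/
noncomputable def K (α : ℝ) : ℝ := kap * sin α ^ 2 - sin α ^ 3

theorem contK : Continuous K := by unfold K; fun_prop

theorem contW (m : ℕ) : Continuous (Wm m) := by unfold Wm; fun_prop

/-- the coefficients for fixed `α` -/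
noncomputable def z (c : ℕ → ℂ) (α : ℝ) (m : ℕ) : ℂ := c m * Wm m α

/-- the trigonometric polynomial for fixed `α` -/
noncomputable def T (M : ℕ) (c : ℕ → ℂ) (α φ : ℝ) : ℝ :=
  ((∑ m ∈ Finset.range M, z c α m *
    Complex.exp (Complex.I * ((2 * m + 1 : ℕ) * (φ : ℂ)))).re) ^ 2

theorem psi_sq (M : ℕ) (c : ℕ → ℂ) (θ α : ℝ) : psi M c θ α ^ 2 = T M c α (θ + α) := by
  unfold psi T z
  congr 2
  apply Finset.sum_congr rfl
  intro m _
  ring

theorem T_per (M : ℕ) (c : ℕ → ℂ) (α : ℝ) : Function.Periodic (T M c α) (2 * π) := by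
  intro φ
  unfold T
  congr 2
  apply Finset.sum_congr rfl
  intro m _
  congr 1
  have h : Complex.I * ((2 * m + 1 : ℕ) * ((φ + 2 * π : ℝ) : ℂ)) =
      Complex.I * ((2 * m + 1 : ℕ) * (φ : ℂ)) + (2 * m + 1 : ℕ) * (2 * π * Complex.I) := by
    push_cast; ring
  rw [h, Complex.exp_add, Complex.exp_nat_mul_two_pi_mul_I, mul_one]

theorem inner_int (hORT : SpecORT) (M : ℕ) (c : ℕ → ℂ) (α : ℝ) :
    ∫ θ in (0 : ℝ)..(2 * π), psi M c θ α ^ 2 =
      π * ∑ m ∈ Finset.range M, ‖c m‖ ^ 2 * ‖Wm m α‖ ^ 2 := by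
  have h1 : ∫ θ in (0 : ℝ)..(2 * π), psi M c θ α ^ 2 =
      ∫ θ in (0 : ℝ)..(2 * π), T M c α (θ + α) := by
    apply intervalIntegral.integral_congr
    intro θ _
    exact psi_sq M c θ α
  rw [h1, intervalIntegral.integral_comp_add_right (fun x => T M c α x)]
  have h2 := (T_per M c α).intervalIntegral_add_eq (0 + α) 0
  have h3 : (2 * π + α) = (0 + α) + 2 * π := by ring
  rw [h3, h2, zero_add]
  have h4 := hORT M (z c α)
  unfold T
  rw [h4]
  congr 1
  apply Finset.sum_congr rfl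
  intro m _
  unfold z
  rw [norm_mul, mul_pow]

end TPOM

open TPOM in
theorem specTPO (hORT : SpecORT) (hTOE : SpecTOE) (hGPB : SpecGPB) : SpecTPO := by
  intro M c
  obtain ⟨-, -, -, -, -, hpc, -, -, -⟩ := hGPB M c
  have hcont : Continuous (fun x : ℝ × ℝ => psi M c x.1 x.2 ^ 2 * K x.2) :=
    (hpc.pow 2).mul (contK.comp continuous_snd)
  have hswap : ∫ θ in (0 : ℝ)..(2 * π), ∫ α in (0 : ℝ)..π, psi M c θ α ^ 2 * K α =
      ∫ α in (0 : ℝ)..π, ∫ θ in (0 : ℝ)..(2 * π), psi M c θ α ^ 2 * K α := by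
    have hp := Real.pi_pos
    rw [intervalIntegral.integral_of_le (by positivity : (0:ℝ) ≤ 2 * π)]
    rw [intervalIntegral.integral_of_le hp.le]
    simp_rw [intervalIntegral.integral_of_le hp.le,
      intervalIntegral.integral_of_le (by positivity : (0:ℝ) ≤ 2 * π)]
    apply integral_integral_swap
    rw [Measure.prod_restrict]
    have hi : IntegrableOn (Function.uncurry (fun θ α => psi M c θ α ^ 2 * K α))
        (Icc 0 (2 * π) ×ˢ Icc 0 π) (volume.prod volume) := by
      apply ContinuousOn.integrableOn_compact (isCompact_Icc.prod isCompact_Icc)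
      exact hcont.continuousOn
    exact hi.mono_set (prod_mono Ioc_subset_Icc_self Ioc_subset_Icc_self)
  have hgoal : ∫ θ in (0 : ℝ)..(2 * π), ∫ α in (0 : ℝ)..π,
      psi M c θ α ^ 2 * (kap * sin α ^ 2 - sin α ^ 3) =
      ∫ θ in (0 : ℝ)..(2 * π), ∫ α in (0 : ℝ)..π, psi M c θ α ^ 2 * K α := rfl
  rw [hgoal, hswap]
  have h1 : ∀ α : ℝ, ∫ θ in (0 : ℝ)..(2 * π), psi M c θ α ^ 2 * K α =
      ∑ m ∈ Finset.range M, (π * ‖c m‖ ^ 2) * (‖Wm m α‖ ^ 2 * K α) := by
    intro α
    rw [intervalIntegral.integral_mul_const, inner_int hORT, Finset.mul_sum, Finset.sum_mul]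
    apply Finset.sum_congr rfl
    intro m _
    ring
  simp_rw [h1]
  rw [intervalIntegral.integral_finsetSum]
  · apply Finset.sum_nonneg
    intro m _
    rw [intervalIntegral.integral_const_mul]
    exact mul_nonneg (by have := Real.pi_pos; positivity) (hTOE m)
  · intro m _
    apply Continuous.intervalIntegrable
    exact continuous_const.mul (((contW m).norm.pow 2).mul contK)

end Pool.Agent.Lib.MP_084b88_gt.CW
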