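import Pool.Agent.Lib.MP_084b88_gt.CW.SpecB

/-!
# MP_084b88_gt, project CW: module UCV (convergence of `Uf`)
-/

set_option autoImplicit false

open MeasureTheory Set Real Filter Topology
open scoped Pointwise InnerProductSpace

namespace Pool.Agent.Lib.MP_084b88_gt.CW

namespace UCVM

/-- the fraction -/
noncomputable def fr (h : ℝ → ℝ) (θ τ α : ℝ) : ℝ :=
  (h (θ + α) - (τ + (h θ - h (θ + π)) / 2) * cos α) / sin α

theorem Uf_eq (h : ℝ → ℝ) (θ τ : ℝ) : Uf h θ τ = ⨅ α : Ioo (0 : ℝ) π, fr h θ τ α := rfl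

/-- hypotheses on `h` -/
structure Hy (h : ℝ → ℝ) (Λ : ℝ) : Prop where
  sum : ∀ θ, h θ + h (θ + π) = 2
  lip : ∀ θ θ', |h θ - h θ'| ≤ Λ * |θ - θ'|
  bd : ∀ θ, |h θ| ≤ Λ

/-- the numerator near the end points -/
theorem num_left {h : ℝ → ℝ} {Λ : ℝ} (hh : Hy h Λ) (hΛ : 0 ≤ Λ) (θ τ α : ℝ) (hα : α ∈ Ioo (0 : ℝ) π) :
    1 - |τ| - 2 * Λ * α ≤ h (θ + α) - (τ + (h θ - h (θ + π)) / 2) * cos α := by
  have h1 := hh.sum θ
  have h2 := abs_le.1 (hh.lip (θ + α) θ)
  have h3 : |θ + α - θ| = α := by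
    rw [add_sub_cancel_left, abs_of_pos hα.1]
  rw [h3] at h2
  have hm : (h θ - h (θ + π)) / 2 = h θ - 1 := by linarith
  rw [hm]
  have hmb : |h θ - 1| ≤ Λ := by
    have a := abs_le.1 (hh.bd θ)
    have b := abs_le.1 (hh.bd (θ + π))
    rw [abs_le]
    constructor <;> linarith
  have hc : 1 - cos α ≤ α := by
    have := one_sub_sq_div_two_le_cos (x := α)
    rcases le_total α 2 with h | h
    · nlinarith [hα.1]
    · have := neg_one_le_cos α
      linarith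
  have hc0 : 0 ≤ 1 - cos α := by linarith [cos_le_one α]
  have hτ : τ * cos α ≤ |τ| := by
    calc τ * cos α ≤ |τ * cos α| := le_abs_self _
      _ = |τ| * |cos α| := abs_mul _ _
      _ ≤ |τ| * 1 := mul_le_mul_of_nonneg_left (abs_cos_le_one α) (abs_nonneg _)
      _ = |τ| := mul_one _
  have hm2 : -(Λ * α) ≤ (h θ - 1) * (1 - cos α) := by
    have h4 : |(h θ - 1) * (1 - cos α)| ≤ Λ * α := by
      rw [abs_mul, abs_of_nonneg hc0]
      exact mul_le_mul hmb hc hc0 hΛ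
    linarith [(abs_le.1 h4).1]
  nlinarith

theorem num_right {h : ℝ → ℝ} {Λ : ℝ} (hh : Hy h Λ) (hΛ : 0 ≤ Λ) (θ τ α : ℝ)
    (hα : α ∈ Ioo (0 : ℝ) π) :
    1 - |τ| - 2 * Λ * (π - α) ≤ h (θ + α) - (τ + (h θ - h (θ + π)) / 2) * cos α := by
  have h1 := hh.sum θ
  have h2 := abs_le.1 (hh.lip (θ + α) (θ + π))
  have h3 : |θ + α - (θ + π)| = π - α := by
    rw [add_sub_add_left_eq_sub, abs_of_neg (by linarith [hα.2])]
    ring
  rw [h3] at h2
  have hm : (h θ - h (θ + π)) / 2 = h θ - 1 := by linarith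
  rw [hm]
  have hmb : |h θ - 1| ≤ Λ := by
    have a := abs_le.1 (hh.bd θ)
    have b := abs_le.1 (hh.bd (θ + π))
    rw [abs_le]
    constructor <;> linarith
  have hc : 1 + cos α ≤ π - α := by
    have h5 : cos (π - α) = - cos α := cos_pi_sub α
    have := one_sub_sq_div_two_le_cos (x := π - α)
    rcases le_total (π - α) 2 with h | h
    · nlinarith [hα.2]
    · have := cos_le_one α
      linarith
  have hc0 : 0 ≤ 1 + cos α := by linarith [neg_one_le_cos α]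
  have hτ : τ * cos α ≤ |τ| := by
    calc τ * cos α ≤ |τ * cos α| := le_abs_self _
      _ = |τ| * |cos α| := abs_mul _ _
      _ ≤ |τ| * 1 := mul_le_mul_of_nonneg_left (abs_cos_le_one α) (abs_nonneg _)
      _ = |τ| := mul_one _
  have hm2 : (h θ - 1) * (1 + cos α) ≤ Λ * (π - α) := by
    have h4 : |(h θ - 1) * (1 + cos α)| ≤ Λ * (π - α) := by
      rw [abs_mul, abs_of_nonneg hc0]
      exact mul_le_mul hmb hc hc0 hΛ
    linarith [(abs_le.1 h4).2]
  nlinarith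

/-- the fractions near the end points are large -/
theorem fr_large {h : ℝ → ℝ} {Λ : ℝ} (hh : Hy h Λ) (hΛ : 0 ≤ Λ) (θ τ : ℝ) (hτ : |τ| < 1) (α : ℝ)
    (hα : α ∈ Ioo (0 : ℝ) π)
    (h2 : α ≤ (1 - |τ|) / (4 * (Λ + 1)) ∨ π - α ≤ (1 - |τ|) / (4 * (Λ + 1))) :
    Λ ≤ fr h θ τ α := by
  have hs : 0 < sin α := sin_pos_of_pos_of_lt_pi hα.1 hα.2
  unfold fr
  rw [le_div_iff₀ hs]
  have hd : 0 < 1 - |τ| := by linarith
  rcases h2 with h2 | h2
  · have h3 := num_left hh hΛ θ τ α hα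
    have h4 : sin α ≤ α := (sin_lt hα.1).le
    rw [le_div_iff₀ (by linarith)] at h2
    have h5 : Λ * sin α ≤ Λ * α := mul_le_mul_of_nonneg_left h4 hΛ
    nlinarith [hα.1]
  · have h3 := num_right hh hΛ θ τ α hα
    have h4 : sin α ≤ π - α := by
      rw [← sin_pi_sub]
      exact (sin_lt (by linarith [hα.2])).le
    rw [le_div_iff₀ (by linarith)] at h2
    have h5 : Λ * sin α ≤ Λ * (π - α) := mul_le_mul_of_nonneg_left h4 hΛ
    nlinarith [hα.2]

theorem half_mem : π / 2 ∈ Ioo (0 : ℝ) π := ⟨by positivity, by linarith [pi_pos]⟩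

theorem fr_half {h : ℝ → ℝ} {Λ : ℝ} (hh : Hy h Λ) (θ τ : ℝ) : fr h θ τ (π / 2) ≤ Λ := by
  unfold fr
  rw [cos_pi_div_two, sin_pi_div_two, mul_zero, sub_zero, div_one]
  exact (abs_le.1 (hh.bd _)).2

theorem sin_low (a α : ℝ) (ha : 0 < a) (ha2 : a ≤ π / 2) (h1 : a ≤ α) (h2 : α ≤ π - a) :
    sin a ≤ sin α := by
  rcases le_total α (π / 2) with h | h
  · exact sin_le_sin_of_le_of_le_pi_div_two (by linarith) h h1
  · rw [← sin_pi_sub α]
    exact sin_le_sin_of_le_of_le_pi_div_two (by linarith) (by linarith) (by linarith)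

theorem bddBelow {h : ℝ → ℝ} {Λ : ℝ} (hh : Hy h Λ) (hΛ : 0 ≤ Λ) (θ τ : ℝ) (hτ : |τ| < 1) :
    BddBelow (range (fun α : Ioo (0 : ℝ) π => fr h θ τ α)) := by
  set a := (1 - |τ|) / (4 * (Λ + 1)) with ha
  have ha0 : 0 < a := div_pos (by linarith) (by linarith)
  have ha1 : a ≤ π / 2 := by
    have : a ≤ 1 := by
      rw [ha, div_le_one (by linarith)]
      linarith [abs_nonneg τ]
    linarith [pi_gt_three]
  have hsa : 0 < sin a := sin_pos_of_pos_of_lt_pi ha0 (by linarith [pi_pos])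
  refine ⟨-((3 * Λ + 1) / sin a), ?_⟩
  rintro _ ⟨⟨α, hα⟩, rfl⟩
  simp only
  have h0 : 0 ≤ (3 * Λ + 1) / sin a := div_nonneg (by linarith) hsa.le
  by_cases h2 : α ≤ a ∨ π - α ≤ a
  · have := fr_large hh hΛ θ τ hτ α hα h2
    linarith
  · push Not at h2
    have hs := sin_low a α ha0 ha1 h2.1.le (by linarith [h2.2])
    have hs0 : 0 < sin α := by linarith
    unfold fr
    rw [neg_le, ← neg_div, div_le_div_iff₀ hs0 hsa]
    have hnum : -(h (θ + α) - (τ + (h θ - h (θ + π)) / 2) * cos α) ≤ 3 * Λ + 1 := by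
      have a1 := abs_le.1 (hh.bd (θ + α))
      have a2 := abs_le.1 (hh.bd θ)
      have a3 := abs_le.1 (hh.bd (θ + π))
      have a4 : |(τ + (h θ - h (θ + π)) / 2) * cos α| ≤ 1 + Λ := by
        rw [abs_mul]
        have a5 : |τ + (h θ - h (θ + π)) / 2| ≤ 1 + Λ := by
          have a6 := abs_lt.1 hτ
          rw [abs_le]
          constructor <;> linarith
        calc |τ + (h θ - h (θ + π)) / 2| * |cos α| ≤ (1 + Λ) * 1 :=
              mul_le_mul a5 (abs_cos_le_one α) (abs_nonneg _) (by linarith)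
          _ = 1 + Λ := mul_one _
      linarith [(abs_le.1 a4).2]
    calc -(h (θ + α) - (τ + (h θ - h (θ + π)) / 2) * cos α) * sin a
        ≤ (3 * Λ + 1) * sin a := mul_le_mul_of_nonneg_right hnum hsa.le
      _ ≤ (3 * Λ + 1) * sin α := mul_le_mul_of_nonneg_left hs (by linarith)

/-- comparison of two infima -/
theorem comp {h k : ℝ → ℝ} {Λ : ℝ} (hh : Hy h Λ) (hk : Hy k Λ) (hΛ : 0 ≤ Λ) (θ τ : ℝ)
    (hτ : |τ| < 1) (e : ℝ) (he : ∀ θ, |k θ - h θ| ≤ e) :
    Uf k θ τ ≤ Uf h θ τ + 2 * e / sin ((1 - |τ|) / (4 * (Λ + 1))) := by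
  set a := (1 - |τ|) / (4 * (Λ + 1)) with ha
  have ha0 : 0 < a := div_pos (by linarith) (by linarith)
  have ha1 : a ≤ π / 2 := by
    have : a ≤ 1 := by
      rw [ha, div_le_one (by linarith)]
      linarith [abs_nonneg τ]
    linarith [pi_gt_three]
  have hsa : 0 < sin a := sin_pos_of_pos_of_lt_pi ha0 (by linarith [pi_pos])
  have he0 : 0 ≤ e := (abs_nonneg _).trans (he 0)
  have hK : 0 ≤ 2 * e / sin a := div_nonneg (by linarith) hsa.le
  rw [← sub_le_iff_le_add, Uf_eq h]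
  have : Nonempty (Ioo (0 : ℝ) π) := ⟨⟨π / 2, half_mem⟩⟩
  apply le_ciInf
  rintro ⟨α, hα⟩
  simp only
  rw [sub_le_iff_le_add]
  by_cases h2 : α ≤ a ∨ π - α ≤ a
  · have h3 := fr_large hh hΛ θ τ hτ α hα h2
    have h4 : Uf k θ τ ≤ fr k θ τ (π / 2) := ciInf_le (bddBelow hk hΛ θ τ hτ) ⟨π / 2, half_mem⟩
    have h5 := fr_half hk θ τ
    linarith
  · push Not at h2
    have hs := sin_low a α ha0 ha1 h2.1.le (by linarith [h2.2])
    have hs0 : 0 < sin α := by linarith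
    have h4 : Uf k θ τ ≤ fr k θ τ α := ciInf_le (bddBelow hk hΛ θ τ hτ) ⟨α, hα⟩
    have h5 : fr k θ τ α ≤ fr h θ τ α + 2 * e / sin a := by
      have h6 : fr k θ τ α - fr h θ τ α ≤ 2 * e / sin α := by
        unfold fr
        rw [← sub_div]
        apply div_le_div_of_nonneg_right _ hs0.le
        have b1 := abs_le.1 (he (θ + α))
        have b2 := hh.sum θ
        have b3 := hk.sum θ
        have m1 : (h θ - h (θ + π)) / 2 = h θ - 1 := by linarith
        have m2 : (k θ - k (θ + π)) / 2 = k θ - 1 := by linarith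
        rw [m1, m2]
        have b4 : |(k θ - h θ) * cos α| ≤ e := by
          rw [abs_mul]
          calc |k θ - h θ| * |cos α| ≤ e * 1 :=
                mul_le_mul (he θ) (abs_cos_le_one α) (abs_nonneg _) he0
            _ = e := mul_one _
        have b5 := abs_le.1 b4
        nlinarith
      have h7 : 2 * e / sin α ≤ 2 * e / sin a :=
        div_le_div_of_nonneg_left (by linarith) hsa hs
      linarith
    linarith

end UCVM

open UCVM in
theorem specUCV : SpecUCV := by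
  intro h hn Λ e hΛ h1 h2 h3 k1 k2 k3 k4 k5 θ τ hτ
  have hτ' : |τ| < 1 := abs_lt.2 hτ
  have hh : Hy h Λ := ⟨h1, h2, h3⟩
  have hk : ∀ n, Hy (hn n) Λ := fun n => ⟨k1 n, k2 n, k3 n⟩
  set C := sin ((1 - |τ|) / (4 * (Λ + 1)))
  have hlim : Tendsto (fun n => 2 * e n / C) atTop (𝓝 0) := by
    have := (k5.const_mul 2).div_const C
    simpa using this
  rw [tendsto_iff_norm_sub_tendsto_zero]
  refine squeeze_zero (fun n => norm_nonneg _) (fun n => ?_) hlim
  rw [Real.norm_eq_abs, abs_le]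
  have a1 := comp hh (hk n) hΛ θ τ hτ' (e n) (k4 n)
  have a2 := comp (hk n) hh hΛ θ τ hτ' (e n) (fun t => by rw [abs_sub_comm]; exact k4 n t)
  constructor <;> linarith

end Pool.Agent.Lib.MP_084b88_gt.CW
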