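import Pool.Agent.Lib.MP_084b88_gt.CW.SpecB

/-!
# MP_084b88_gt, project CW: module UME (boundedness below and measurability of `Uf`)
-/

set_option autoImplicit false

open MeasureTheory Set Real Filter Topology
open scoped Pointwise InnerProductSpace

namespace Pool.Agent.Lib.MP_084b88_gt.CW

namespace UMEM

/-- the fraction in the definition of `Uf` is bounded below by `-(2Λ) π/2`. -/
theorem frac_lb (h : ℝ → ℝ) (Λ : ℝ) (hΛ : 0 ≤ Λ) (hw : ∀ θ, h θ + h (θ + π) = 2)
    (hL : ∀ θ θ', |h θ - h θ'| ≤ Λ * |θ - θ'|) (hb : ∀ θ, |h θ| ≤ Λ) (θ τ : ℝ) (hτ : |τ| ≤ 1)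
    (α : ℝ) (hα : α ∈ Ioo (0 : ℝ) π) :
    -(Λ * π) ≤ (h (θ + α) - (τ + (h θ - h (θ + π)) / 2) * cos α) / sin α := by
  obtain ⟨h0, h1⟩ := hα
  have hs : 0 < sin α := sin_pos_of_pos_of_lt_pi h0 h1
  rw [le_div_iff₀ hs]
  have hm : |(h θ - h (θ + π)) / 2| ≤ Λ := by
    have := hb θ
    have := hb (θ + π)
    rw [abs_le] at *
    constructor <;> linarith
  set m := (h θ - h (θ + π)) / 2 with hmdef
  have hwθ := hw θ
  have hcos1 : cos α ≤ 1 := cos_le_one α
  have hcos2 : -1 ≤ cos α := neg_one_le_cos α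
  have habs := abs_le.1 hm
  have hτ' := abs_le.1 hτ
  rcases le_total α (π / 2) with hc | hc
  · -- near 0
    have hsin : 2 / π * α ≤ sin α := mul_le_sin h0.le hc
    have hsin' : 2 * α ≤ π * sin α := by
      have hpi := pi_pos
      have : π * (2 / π * α) ≤ π * sin α := mul_le_mul_of_nonneg_left hsin hpi.le
      have e : π * (2 / π * α) = 2 * α := by field_simp
      linarith
    have hcosα : 0 ≤ cos α := cos_nonneg_of_neg_pi_div_two_le_of_le (by linarith [pi_pos]) hc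
    have h2 := hL (θ + α) θ
    rw [show θ + α - θ = α by ring, abs_of_pos h0, abs_le] at h2
    -- 1 - cos α ≤ α
    have h1c : 1 - cos α ≤ α := by
      have h4 := one_sub_sq_div_two_le_cos (x := α)
      have hpi : π ≤ 4 := pi_le_four
      nlinarith [mul_nonneg h0.le (by linarith : (0:ℝ) ≤ 2 - α)]
    -- h(θ+α) - m cos α - τ cos α ≥ (hθ - m) - Λ α + m (1 - cos α) - τ cos α
    have e1 : h θ - m = 1 := by rw [hmdef]; linarith
    have e2 : -(Λ * α) ≤ m * (1 - cos α) := by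
      have h5 : 0 ≤ 1 - cos α := by linarith
      have h6 : -(Λ * (1 - cos α)) ≤ m * (1 - cos α) := by nlinarith
      have h7 : Λ * (1 - cos α) ≤ Λ * α := mul_le_mul_of_nonneg_left h1c hΛ
      linarith
    have e3 : τ * cos α ≤ 1 := by nlinarith
    have e4 : Λ * (2 * α) ≤ Λ * (π * sin α) := mul_le_mul_of_nonneg_left hsin' hΛ
    nlinarith
  · -- near π
    set β := π - α with hβ
    have hβ0 : 0 < β := by rw [hβ]; linarith
    have hβ1 : β ≤ π / 2 := by rw [hβ]; linarith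
    have hsinαβ : sin α = sin β := by rw [hβ, sin_pi_sub]
    have hcosαβ : cos α = - cos β := by rw [hβ, cos_pi_sub]; ring
    have hsin : 2 / π * β ≤ sin β := mul_le_sin hβ0.le hβ1
    have hsin' : 2 * β ≤ π * sin α := by
      have hpi := pi_pos
      have : π * (2 / π * β) ≤ π * sin β := mul_le_mul_of_nonneg_left hsin hpi.le
      have e : π * (2 / π * β) = 2 * β := by field_simp
      rw [hsinαβ]
      linarith
    have hcosβ : 0 ≤ cos β := cos_nonneg_of_neg_pi_div_two_le_of_le (by linarith [pi_pos]) hβ1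
    have h2 := hL (θ + α) (θ + π)
    rw [show θ + α - (θ + π) = -β by rw [hβ]; ring, abs_neg, abs_of_pos hβ0, abs_le] at h2
    have h1c : 1 - cos β ≤ β := by
      have h4 := one_sub_sq_div_two_le_cos (x := β)
      have hpi : π ≤ 4 := pi_le_four
      nlinarith [mul_nonneg hβ0.le (by linarith : (0:ℝ) ≤ 2 - β)]
    have e1 : h (θ + π) + m = 1 := by rw [hmdef]; linarith
    have e2 : -(Λ * β) ≤ (-m) * (1 - cos β) := by
      have h5 : 0 ≤ 1 - cos β := by linarith [cos_le_one β]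
      have h6 : -(Λ * (1 - cos β)) ≤ (-m) * (1 - cos β) := by nlinarith
      have h7 : Λ * (1 - cos β) ≤ Λ * β := mul_le_mul_of_nonneg_left h1c hΛ
      linarith
    have e3 : (-τ) * cos β ≤ 1 := by nlinarith [cos_le_one β]
    have e4 : Λ * (2 * β) ≤ Λ * (π * sin α) := mul_le_mul_of_nonneg_left hsin' hΛ
    rw [hcosαβ]
    nlinarith

end UMEM

open UMEM in
theorem specUME : SpecUME := by
  intro h Λ hΛ hw hL hb
  have hbd : ∀ θ, ∀ τ ∈ Ioo (-1 : ℝ) 1, BddBelow (range (fun α : Ioo (0 : ℝ) π =>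
      (h (θ + α) - (τ + (h θ - h (θ + π)) / 2) * cos α) / sin α)) := by
    intro θ τ hτ
    refine ⟨-(Λ * π), ?_⟩
    rintro _ ⟨⟨α, hα⟩, rfl⟩
    exact frac_lb h Λ hΛ hw hL hb θ τ (abs_le.2 ⟨hτ.1.le, hτ.2.le⟩) α hα
  refine ⟨hbd, ?_⟩
  have hne : Nonempty (Ioo (0 : ℝ) π) := ⟨⟨π / 2, by constructor <;> linarith [pi_pos]⟩⟩
  have hcont : Continuous h := by
    have hLip : LipschitzWith ⟨Λ, hΛ⟩ h := by
      apply LipschitzWith.of_dist_le_mul
      intro x y
      rw [Real.dist_eq, Real.dist_eq]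
      exact hL x y
    exact hLip.continuous
  apply measurable_of_Iio
  intro a
  have e : (fun x : ℝ × ℝ => (Ioo (-1 : ℝ) 1).indicator (fun τ => Uf h x.1 τ) x.2) ⁻¹' Iio a =
      ({x : ℝ × ℝ | x.2 ∈ Ioo (-1 : ℝ) 1} ∩ ⋃ α : Ioo (0 : ℝ) π,
        {x : ℝ × ℝ | (h (x.1 + α) - (x.2 + (h x.1 - h (x.1 + π)) / 2) * cos α) / sin α < a}) ∪
      ({x : ℝ × ℝ | x.2 ∉ Ioo (-1 : ℝ) 1} ∩ {x : ℝ × ℝ | (0 : ℝ) < a}) := by
    ext x
    by_cases hx : x.2 ∈ Ioo (-1 : ℝ) 1
    · simp only [mem_preimage, indicator_of_mem hx, mem_Iio, mem_union, mem_inter_iff,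
        mem_ofPred_eq, hx, true_and, mem_iUnion, not_true_eq_false, false_and, or_false]
      unfold Uf
      exact ciInf_lt_iff (hbd x.1 x.2 hx)
    · simp only [mem_preimage, indicator_of_notMem hx, mem_Iio, mem_union, mem_inter_iff,
        mem_ofPred_eq, hx, false_and, not_false_eq_true, true_and, false_or]
  rw [e]
  have hms : MeasurableSet {x : ℝ × ℝ | x.2 ∈ Ioo (-1 : ℝ) 1} := measurable_snd measurableSet_Ioo
  apply MeasurableSet.union
  · apply MeasurableSet.inter hms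
    apply IsOpen.measurableSet
    apply isOpen_iUnion
    intro α
    apply isOpen_lt _ continuous_const
    fun_prop
  · exact hms.compl.inter (MeasurableSet.const _)

end Pool.Agent.Lib.MP_084b88_gt.CW
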