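import Pool.Agent.Lib.MP_084b88_gt.CW.SpecA

/-!
# MP_084b88_gt, project CW: WB2 (planar support functions)
-/

set_option autoImplicit false

open MeasureTheory Set Real Filter Topology
open scoped Pointwise InnerProductSpace

namespace Pool.Agent.Lib.MP_084b88_gt.CW

namespace WB2M

theorem cc_add {Q Q' : Set (ℝ × ℝ)} (h : CC Q) (h' : CC Q') : CC (Q + Q') :=
  ⟨h.1.add h'.1, h.2.1.add h'.2.1, h.2.2.add h'.2.2⟩

theorem bdd {Q : Set (ℝ × ℝ)} (hQ : CC Q) (θ : ℝ) : BddAbove (dotu θ '' Q) :=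
  (hQ.2.1.image (continuous_dotu_right θ)).bddAbove

theorem le_sup2 {Q : Set (ℝ × ℝ)} (hQ : CC Q) (θ : ℝ) {p : ℝ × ℝ} (hp : p ∈ Q) :
    dotu θ p ≤ sup2 Q θ := le_csSup (bdd hQ θ) ⟨p, hp, rfl⟩

theorem sup2_le {Q : Set (ℝ × ℝ)} (hQ : CC Q) (θ : ℝ) {C : ℝ} (h : ∀ p ∈ Q, dotu θ p ≤ C) :
    sup2 Q θ ≤ C := by
  refine csSup_le (hQ.2.2.image _) ?_
  rintro _ ⟨p, hp, rfl⟩
  exact h p hp

theorem att {Q : Set (ℝ × ℝ)} (hQ : CC Q) (θ : ℝ) : ∃ p ∈ Q, dotu θ p = sup2 Q θ := by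
  obtain ⟨p, hp, hmax⟩ := hQ.2.1.exists_isMaxOn hQ.2.2 (continuous_dotu_right θ).continuousOn
  exact ⟨p, hp, le_antisymm (le_sup2 hQ θ hp) (sup2_le hQ θ fun q hq => hmax hq)⟩

theorem dotu_two_pi (θ : ℝ) (p : ℝ × ℝ) : dotu (θ + 2 * π) p = dotu θ p := by
  simp [dotu]

theorem sup2_two_pi (Q : Set (ℝ × ℝ)) (θ : ℝ) : sup2 Q (θ + 2 * π) = sup2 Q θ := by
  unfold sup2
  have : dotu (θ + 2 * π) = dotu θ := funext (dotu_two_pi θ)
  rw [this]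

theorem dotu_abs_le (θ : ℝ) (p : ℝ × ℝ) : |dotu θ p| ≤ |p.1| + |p.2| := by
  unfold dotu
  refine (abs_add_le _ _).trans ?_
  rw [abs_mul, abs_mul]
  have h1 := abs_cos_le_one θ
  have h2 := abs_sin_le_one θ
  nlinarith [abs_nonneg p.1, abs_nonneg p.2]

theorem dotu_lip (θ θ' : ℝ) (p : ℝ × ℝ) :
    |dotu θ p - dotu θ' p| ≤ (|p.1| + |p.2|) * |θ - θ'| := by
  have h1 : |cos θ - cos θ'| ≤ |θ - θ'| := by
    have := Real.lipschitzWith_cos.dist_le_mul θ θ'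
    simpa [Real.dist_eq] using this
  have h2 : |sin θ - sin θ'| ≤ |θ - θ'| := by
    have := Real.lipschitzWith_sin.dist_le_mul θ θ'
    simpa [Real.dist_eq] using this
  have e : dotu θ p - dotu θ' p = p.1 * (cos θ - cos θ') + p.2 * (sin θ - sin θ') := by
    unfold dotu; ring
  rw [e]
  refine (abs_add_le _ _).trans ?_
  rw [abs_mul, abs_mul, add_mul]
  exact add_le_add (mul_le_mul_of_nonneg_left h1 (abs_nonneg _))
    (mul_le_mul_of_nonneg_left h2 (abs_nonneg _))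

theorem exC {Q : Set (ℝ × ℝ)} (hQ : CC Q) : ∃ C : ℝ, 0 ≤ C ∧ ∀ p ∈ Q, |p.1| + |p.2| ≤ C := by
  obtain ⟨C, hC⟩ := hQ.2.1.exists_bound_of_continuousOn
    (f := fun p : ℝ × ℝ => |p.1| + |p.2|) (by fun_prop)
  refine ⟨|C|, abs_nonneg _, fun p hp => ?_⟩
  have := hC p hp
  rw [Real.norm_of_nonneg (by positivity)] at this
  exact this.trans (le_abs_self C)

theorem lip {Q : Set (ℝ × ℝ)} (hQ : CC Q) : ∃ C : ℝ, 0 ≤ C ∧ (∀ θ, |sup2 Q θ| ≤ C) ∧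
    (∀ θ θ', |sup2 Q θ - sup2 Q θ'| ≤ C * |θ - θ'|) := by
  obtain ⟨C, hC0, hC⟩ := exC hQ
  have h1 : ∀ θ θ', sup2 Q θ ≤ sup2 Q θ' + C * |θ - θ'| := by
    intro θ θ'
    refine sup2_le hQ θ fun p hp => ?_
    have h2 := dotu_lip θ θ' p
    have h3 := le_sup2 hQ θ' hp
    have h4 : (|p.1| + |p.2|) * |θ - θ'| ≤ C * |θ - θ'| :=
      mul_le_mul_of_nonneg_right (hC p hp) (abs_nonneg _)
    have h5 := le_abs_self (dotu θ p - dotu θ' p)
    linarith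
  refine ⟨C, hC0, fun θ => ?_, fun θ θ' => ?_⟩
  · obtain ⟨p, hp, hpe⟩ := att hQ θ
    rw [← hpe]
    exact (dotu_abs_le θ p).trans (hC p hp)
  · rw [abs_le]
    have h2 := h1 θ θ'
    have h3 := h1 θ' θ
    rw [abs_sub_comm] at h3
    constructor <;> linarith

theorem cont_sup2 {Q : Set (ℝ × ℝ)} (hQ : CC Q) : Continuous (sup2 Q) := by
  obtain ⟨C, hC0, _, hC⟩ := lip hQ
  have : LipschitzWith ⟨C, hC0⟩ (sup2 Q) := by
    refine LipschitzWith.of_dist_le_mul fun x y => ?_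
    rw [Real.dist_eq, Real.dist_eq]
    exact hC x y
  exact this.continuous

theorem cont_wid {Q : Set (ℝ × ℝ)} (hQ : CC Q) : Continuous (wid Q) := by
  unfold wid
  exact (cont_sup2 hQ).add ((cont_sup2 hQ).comp (continuous_id.add continuous_const))

theorem sup2_add {Q Q' : Set (ℝ × ℝ)} (hQ : CC Q) (hQ' : CC Q') (θ : ℝ) :
    sup2 (Q + Q') θ = sup2 Q θ + sup2 Q' θ := by
  apply le_antisymm
  · refine sup2_le (cc_add hQ hQ') θ ?_
    rintro _ ⟨p, hp, q, hq, rfl⟩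
    simp only
    rw [dotu_add]
    exact add_le_add (le_sup2 hQ θ hp) (le_sup2 hQ' θ hq)
  · obtain ⟨p, hp, hpe⟩ := att hQ θ
    obtain ⟨q, hq, hqe⟩ := att hQ' θ
    rw [← hpe, ← hqe, ← dotu_add]
    exact le_sup2 (cc_add hQ hQ') θ ⟨p, hp, q, hq, rfl⟩

theorem disc_pre (ρ : ℝ) (hρ : 0 ≤ ρ) :
    Complex.measurableEquivRealProd ⁻¹' disc ρ = Metric.closedBall (0 : ℂ) ρ := by
  ext z
  have h1 : Complex.measurableEquivRealProd z = (z.re, z.im) := rfl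
  rw [mem_preimage, h1, Metric.mem_closedBall, dist_zero_right]
  change z.re ^ 2 + z.im ^ 2 ≤ ρ ^ 2 ↔ _
  rw [← sq_le_sq₀ (norm_nonneg z) hρ, ← Complex.normSq_eq_norm_sq, Complex.normSq_apply]
  constructor <;> intro h <;> linarith

theorem cc_disc (ρ : ℝ) (hρ : 0 ≤ ρ) : CC (disc ρ) := by
  refine ⟨?_, ?_, ⟨(0, 0), ?_⟩⟩
  · intro p hp q hq a b ha hb hab
    have hp' : p.1 ^ 2 + p.2 ^ 2 ≤ ρ ^ 2 := hp
    have hq' : q.1 ^ 2 + q.2 ^ 2 ≤ ρ ^ 2 := hq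
    change (a * p.1 + b * q.1) ^ 2 + (a * p.2 + b * q.2) ^ 2 ≤ ρ ^ 2
    have hb' : b = 1 - a := by linarith
    subst hb'
    nlinarith [mul_nonneg ha hb, sq_nonneg (p.1 - q.1), sq_nonneg (p.2 - q.2),
      mul_nonneg (mul_nonneg ha hb) (sq_nonneg (p.1 - q.1)),
      mul_nonneg (mul_nonneg ha hb) (sq_nonneg (p.2 - q.2)),
      mul_le_mul_of_nonneg_left hp' ha, mul_le_mul_of_nonneg_left hq' hb]
  · have h1 : disc ρ = Complex.equivRealProdCLM '' Metric.closedBall (0 : ℂ) ρ := by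
      rw [← disc_pre ρ hρ]
      ext p
      constructor
      · intro hp
        exact ⟨⟨p.1, p.2⟩, hp, rfl⟩
      · rintro ⟨z, hz, rfl⟩
        exact hz
    rw [h1]
    exact (isCompact_closedBall _ _).image Complex.equivRealProdCLM.continuous
  · change (0 : ℝ) ^ 2 + 0 ^ 2 ≤ ρ ^ 2
    have := sq_nonneg ρ
    linarith

theorem sup2_disc (ρ : ℝ) (hρ : 0 ≤ ρ) (θ : ℝ) : sup2 (disc ρ) θ = ρ := by
  have h := sin_sq_add_cos_sq θ
  apply le_antisymm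
  · refine sup2_le (cc_disc ρ hρ) θ fun p hp => ?_
    have hp' : p.1 ^ 2 + p.2 ^ 2 ≤ ρ ^ 2 := hp
    refine le_of_sq_le_sq ?_ hρ
    unfold dotu
    nlinarith [sq_nonneg (p.1 * sin θ - p.2 * cos θ)]
  · have h1 : ((ρ * cos θ, ρ * sin θ) : ℝ × ℝ) ∈ disc ρ := by
      change (ρ * cos θ) ^ 2 + (ρ * sin θ) ^ 2 ≤ ρ ^ 2
      nlinarith
    have h2 := le_sup2 (cc_disc ρ hρ) θ h1
    unfold dotu at h2
    nlinarith

theorem area_disc (ρ : ℝ) (hρ : 0 ≤ ρ) : area (disc ρ) = π * ρ ^ 2 := by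
  have h1 : MeasurePreserving Complex.measurableEquivRealProd volume volume :=
    Complex.volume_preserving_equiv_real_prod
  have h2 : volume (Complex.measurableEquivRealProd ⁻¹' disc ρ) = volume (disc ρ) :=
    h1.measure_preimage_equiv _
  unfold area
  rw [← h2, disc_pre ρ hρ, Complex.volume_closedBall, ENNReal.toReal_mul, ENNReal.toReal_pow,
    ENNReal.toReal_ofReal hρ]
  have h3 : ((NNReal.pi : NNReal) : ENNReal).toReal = π := by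
    rw [ENNReal.coe_toReal]; rfl
  rw [h3]
  ring

theorem wid_nonneg {Q : Set (ℝ × ℝ)} (hQ : CC Q) (θ : ℝ) : 0 ≤ wid Q θ := by
  obtain ⟨p, hp⟩ := hQ.2.2
  have h1 := le_sup2 hQ θ hp
  have h2 := le_sup2 hQ (θ + π) hp
  rw [dotu_add_pi] at h2
  unfold wid
  linarith

theorem image_eq {Q : Set (ℝ × ℝ)} (hQ : CC Q) (θ : ℝ) :
    dotu θ '' Q = Icc (- sup2 Q (θ + π)) (sup2 Q θ) := by
  apply Subset.antisymm
  · rintro _ ⟨p, hp, rfl⟩
    have h1 := le_sup2 hQ θ hp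
    have h2 := le_sup2 hQ (θ + π) hp
    rw [dotu_add_pi] at h2
    exact ⟨by linarith, h1⟩
  · have hconv : Convex ℝ (dotu θ '' Q) := by
      rintro _ ⟨p, hp, rfl⟩ _ ⟨q, hq, rfl⟩ a b ha hb hab
      refine ⟨a • p + b • q, hQ.1 hp hq ha hb hab, ?_⟩
      rw [dotu_add, dotu_smul, dotu_smul]
      rfl
    obtain ⟨p, hp, hpe⟩ := att hQ θ
    obtain ⟨q, hq, hqe⟩ := att hQ (θ + π)
    rw [dotu_add_pi] at hqe
    refine hconv.ordConnected.out ⟨q, hq, ?_⟩ ⟨p, hp, hpe⟩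
    linarith

theorem len_nonneg {Q : Set (ℝ × ℝ)} (hQ : CC Q) : 0 ≤ len Q := by
  unfold len
  have : 0 ≤ ∫ θ in (0 : ℝ)..π, wid Q θ :=
    intervalIntegral.integral_nonneg pi_pos.le fun θ _ => wid_nonneg hQ θ
  linarith

theorem len_disc {Q : Set (ℝ × ℝ)} (hQ : CC Q) (ρ : ℝ) (hρ : 0 ≤ ρ) :
    len (Q + disc ρ) = len Q + π * ρ := by
  unfold len
  have h1 : ∀ θ, wid (Q + disc ρ) θ = wid Q θ + 2 * ρ := by
    intro θ
    unfold wid
    rw [sup2_add hQ (cc_disc ρ hρ), sup2_add hQ (cc_disc ρ hρ), sup2_disc ρ hρ, sup2_disc ρ hρ]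
    ring
  have h2 : ∫ θ in (0 : ℝ)..π, wid (Q + disc ρ) θ = (∫ θ in (0 : ℝ)..π, wid Q θ) + 2 * ρ * π := by
    rw [intervalIntegral.integral_congr (g := fun θ => wid Q θ + 2 * ρ) (fun θ _ => h1 θ),
      intervalIntegral.integral_add ((cont_wid hQ).intervalIntegrable _ _)
        (continuous_const.intervalIntegrable _ _), intervalIntegral.integral_const]
    simp only [sub_zero, smul_eq_mul]
    ring
  rw [h2]
  ring

end WB2M

open WB2M in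
/-- **WB2**. Basic facts on planar support functions. -/
theorem specWB2 : SpecWB2 := by
  refine ⟨fun Q hQ θ p hp => le_sup2 hQ θ hp, fun Q hQ θ => att hQ θ, fun Q hQ => lip hQ,
    fun Q θ => sup2_two_pi Q θ, fun Q Q' hQ hQ' θ => sup2_add hQ hQ' θ, ?_,
    fun ρ hρ => ⟨cc_disc ρ hρ, sup2_disc ρ hρ, area_disc ρ hρ⟩,
    fun Q hQ θ => ⟨wid_nonneg hQ θ, image_eq hQ θ⟩,
    fun Q hQ => ⟨len_nonneg hQ, fun ρ hρ => len_disc hQ ρ hρ⟩,
    fun Q hQ => ⟨cont_sup2 hQ, cont_wid hQ⟩, ?_⟩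
  · intro Q Q' hQ hQ' hsub θ
    exact sup2_le hQ θ fun p hp => le_sup2 hQ' θ (hsub hp)
  · intro Q θ
    unfold wid
    have h : θ + π + π = θ + 2 * π := by ring
    rw [h, sup2_two_pi]
    ring

end Pool.Agent.Lib.MP_084b88_gt.CW
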