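import Pool.Agent.Lib.MP_084b88_gt.CW.SpecB

/-!
# Module WMA: the kernel `W_m`
-/

set_option autoImplicit false

open MeasureTheory Set Real Filter Topology
open scoped Pointwise InnerProductSpace

namespace Pool.Agent.Lib.MP_084b88_gt.CW

namespace WMAM

theorem geo (E E' : ℂ) (h : E * E' = 1) (m : ℕ) :
    (E - E') * ∑ j ∈ Finset.range m, E' ^ (2 * j + 1) = 1 - E' ^ (2 * m) := by
  induction m with
  | zero => simp
  | succ m ih =>
    rw [Finset.sum_range_succ, mul_add, ih]
    have : E * E' ^ (2 * m + 1) = E' ^ (2 * m) := by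
      rw [pow_succ, mul_comm (E' ^ (2 * m)) E', ← mul_assoc, h, one_mul]
    calc 1 - E' ^ (2 * m) + (E - E') * E' ^ (2 * m + 1)
        = 1 - E' ^ (2 * m) + (E * E' ^ (2 * m + 1) - E' ^ (2 * (m + 1))) := by ring
      _ = 1 - E' ^ (2 * (m + 1)) := by rw [this]; ring

theorem alg (E E' : ℂ) (h : E * E' = 1) (m : ℕ) :
    (E + E') / 2 - (2 * m + 1) * (E - E') / 2 - E' ^ (2 * m + 1) =
      -(E - E') ^ 2 * ∑ j ∈ Finset.range m, ((m : ℂ) - j) * E' ^ (2 * j + 1) := by
  induction m with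
  | zero => simp; ring
  | succ m ih =>
    have hT : ∑ j ∈ Finset.range (m + 1), (((m + 1 : ℕ) : ℂ) - j) * E' ^ (2 * j + 1) =
        ∑ j ∈ Finset.range m, ((m : ℂ) - j) * E' ^ (2 * j + 1) +
          ∑ j ∈ Finset.range (m + 1), E' ^ (2 * j + 1) := by
      rw [Finset.sum_range_succ, Finset.sum_range_succ (fun j => E' ^ (2 * j + 1)), ← add_assoc,
        ← Finset.sum_add_distrib]
      congr 1
      · refine Finset.sum_congr rfl fun j _ => ?_
        push_cast; ring
      · push_cast; ring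
    have hg := geo E E' h (m + 1)
    have h1 : E * E' ^ (2 * m + 2) = E' ^ (2 * m + 1) := by
      rw [show 2 * m + 2 = (2 * m + 1) + 1 from rfl, pow_succ, mul_comm (E' ^ (2 * m + 1)) E',
        ← mul_assoc, h, one_mul]
    rw [hT, mul_add (-(E - E') ^ 2), ← ih]
    have h2 : -(E - E') ^ 2 * ∑ j ∈ Finset.range (m + 1), E' ^ (2 * j + 1) =
        -(E - E') * (1 - E' ^ (2 * (m + 1))) := by
      rw [← hg]; ring
    rw [h2]
    push_cast
    have h3 : E' ^ (2 * (m + 1) + 1) = E' ^ (2 * m + 2) * E' := by ring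
    have h4 : E' ^ (2 * (m + 1)) = E' ^ (2 * m + 2) := by ring
    rw [h3, h4]
    linear_combination -h1

theorem mode (m : ℕ) (α : ℝ) :
    (Complex.cos α) - (Complex.I * ((2 * m + 1 : ℕ) : ℂ)) * Complex.sin α
      - Complex.exp (-(Complex.I * ((2 * m + 1 : ℕ) * α))) = Complex.sin α ^ 2 * Wm m α := by
  have hE : Complex.exp (Complex.I * α) * Complex.exp (-(Complex.I * α)) = 1 := by
    rw [← Complex.exp_add]; simp
  have hpow : ∀ n : ℕ, Complex.exp (-(Complex.I * ((n : ℂ) * α))) =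
      Complex.exp (-(Complex.I * α)) ^ n := by
    intro n
    rw [← Complex.exp_nat_mul]
    congr 1
    ring
  have hc : Complex.cos α = (Complex.exp (Complex.I * α) + Complex.exp (-(Complex.I * α))) / 2 := by
    rw [Complex.cos, mul_comm (α : ℂ) Complex.I]
    congr 3
    ring
  have hs : Complex.sin α = -Complex.I * (Complex.exp (Complex.I * α) -
      Complex.exp (-(Complex.I * α))) / 2 := by
    rw [Complex.sin, mul_comm (α : ℂ) Complex.I, neg_mul, mul_comm (α : ℂ) Complex.I]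
    ring
  have hW : Wm m α = 4 * ∑ j ∈ Finset.range m, ((m : ℂ) - j) *
      Complex.exp (-(Complex.I * α)) ^ (2 * j + 1) := by
    unfold Wm
    congr 1
    refine Finset.sum_congr rfl fun j _ => ?_
    rw [hpow]
  have hal := alg _ _ hE m
  rw [hW, hpow, hc, hs]
  have hI : Complex.I ^ 2 = -1 := Complex.I_sq
  generalize Complex.exp (Complex.I * α) = E at *
  generalize Complex.exp (-(Complex.I * α)) = E' at *
  generalize (∑ j ∈ Finset.range m, ((m : ℂ) - j) * E' ^ (2 * j + 1)) = S at *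
  push_cast
  calc (E + E') / 2 - Complex.I * (2 * (m : ℂ) + 1) * (-Complex.I * (E - E') / 2) - E' ^ (2 * m + 1)
      = (E + E') / 2 + Complex.I ^ 2 * ((2 * m + 1) * (E - E') / 2) - E' ^ (2 * m + 1) := by ring
    _ = (E + E') / 2 - (2 * m + 1) * (E - E') / 2 - E' ^ (2 * m + 1) := by rw [hI]; ring
    _ = -(E - E') ^ 2 * S := hal
    _ = Complex.I ^ 2 * ((E - E') ^ 2 * S) := by rw [hI]; ring
    _ = (-Complex.I * (E - E') / 2) ^ 2 * (4 * S) := by ring

end WMAM

open WMAM in
theorem specWMA : SpecWMA := by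
  intro M c θ α
  have h1 : gp M c (θ + α) * cos α = (∑ m ∈ Finset.range M, c m *
      Complex.exp (Complex.I * ((2 * m + 1 : ℕ) * ((θ + α : ℝ) : ℂ))) * Complex.cos α).re := by
    unfold gp
    rw [← Complex.ofReal_cos, ← Finset.sum_mul, Complex.re_mul_ofReal]
  have h2 : gp M (dc c) (θ + α) * sin α = (∑ m ∈ Finset.range M, c m *
      Complex.exp (Complex.I * ((2 * m + 1 : ℕ) * ((θ + α : ℝ) : ℂ))) *
        ((Complex.I * ((2 * m + 1 : ℕ) : ℂ)) * Complex.sin α)).re := by
    unfold gp dc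
    rw [← Complex.ofReal_sin, ← Complex.re_mul_ofReal, Finset.sum_mul]
    congr 1
    refine Finset.sum_congr rfl fun m _ => ?_
    ring
  have h3 : gp M c θ = (∑ m ∈ Finset.range M, c m *
      Complex.exp (Complex.I * ((2 * m + 1 : ℕ) * ((θ + α : ℝ) : ℂ))) *
        Complex.exp (-(Complex.I * ((2 * m + 1 : ℕ) * α)))).re := by
    unfold gp
    congr 1
    refine Finset.sum_congr rfl fun m _ => ?_
    rw [mul_assoc, ← Complex.exp_add]
    congr 2
    push_cast
    ring
  have h4 : sin α ^ 2 * psi M c θ α = (∑ m ∈ Finset.range M, c m *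
      Complex.exp (Complex.I * ((2 * m + 1 : ℕ) * ((θ + α : ℝ) : ℂ))) *
        (Complex.sin α ^ 2 * Wm m α)).re := by
    unfold psi
    rw [← Complex.ofReal_sin, ← Complex.ofReal_pow, mul_comm, ← Complex.re_mul_ofReal,
      Finset.sum_mul]
    congr 1
    refine Finset.sum_congr rfl fun m _ => ?_
    ring
  rw [h1, h2, h3, h4, ← Complex.sub_re, ← Complex.sub_re, ← Finset.sum_sub_distrib,
    ← Finset.sum_sub_distrib]
  congr 1
  refine Finset.sum_congr rfl fun m _ => ?_
  rw [← mode m α]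
  ring

end Pool.Agent.Lib.MP_084b88_gt.CW
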