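import Pool.Agent.Lib.MP_084b88_gt.CW.HSB
import Pool.Agent.Lib.MP_084b88_gt.CW.APX
import Pool.Agent.Lib.MP_084b88_gt.CW.GDL
import Pool.Agent.Lib.MP_084b88_gt.CW.SLI
import Pool.Agent.Lib.MP_084b88_gt.CW.RO2
import Pool.Agent.Lib.MP_084b88_gt.CW.WB2
import Pool.Agent.Lib.MP_084b88_gt.CW.SG2
import Pool.Agent.Lib.MP_084b88_gt.CW.DE2
import Pool.Agent.Lib.MP_084b88_gt.CW.PST
import Pool.Agent.Lib.MP_084b88_gt.CW.CO3
import Pool.Agent.Lib.MP_084b88_gt.CW.SG3
import Pool.Agent.Lib.MP_084b88_gt.CW.SST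
import Pool.Agent.Lib.MP_084b88_gt.CW.HAA
import Pool.Agent.Lib.MP_084b88_gt.CW.AVG
import Pool.Agent.Lib.MP_084b88_gt.CW.MEA
import Pool.Agent.Lib.MP_084b88_gt.CW.LEN
import Pool.Agent.Lib.MP_084b88_gt.CW.CAU
import Pool.Agent.Lib.MP_084b88_gt.CW.NUB
import Pool.Agent.Lib.MP_084b88_gt.CW.NFU
import Pool.Agent.Lib.MP_084b88_gt.CW.RED
import Pool.Agent.Lib.MP_084b88_gt.CW.GPB
import Pool.Agent.Lib.MP_084b88_gt.CW.WMA
import Pool.Agent.Lib.MP_084b88_gt.CW.TAU
import Pool.Agent.Lib.MP_084b88_gt.CW.TOE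
import Pool.Agent.Lib.MP_084b88_gt.CW.ORT
import Pool.Agent.Lib.MP_084b88_gt.CW.TPO
import Pool.Agent.Lib.MP_084b88_gt.CW.QQP
import Pool.Agent.Lib.MP_084b88_gt.CW.CAG
import Pool.Agent.Lib.MP_084b88_gt.CW.CAL
import Pool.Agent.Lib.MP_084b88_gt.CW.SMO
import Pool.Agent.Lib.MP_084b88_gt.CW.KCO
import Pool.Agent.Lib.MP_084b88_gt.CW.KWA
import Pool.Agent.Lib.MP_084b88_gt.CW.APH
import Pool.Agent.Lib.MP_084b88_gt.CW.UCV
import Pool.Agent.Lib.MP_084b88_gt.CW.UME
import Pool.Agent.Lib.MP_084b88_gt.CW.LIM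
import Pool.Agent.Lib.MP_084b88_gt.CW.DUA
import Pool.Agent.Lib.MP_084b88_gt.CW.SLC
import Pool.Agent.Lib.MP_084b88_gt.CW.PC1
import Pool.Agent.Lib.MP_084b88_gt.CW.PCW
import Pool.Agent.Lib.MP_084b88_gt.CW.FIN

/-!
# MP_084b88_gt, project CW: assembly of the constant width case
-/

set_option autoImplicit false

namespace Pool.Agent.Lib.MP_084b88_gt.CW

theorem allHSB : SpecHSB := specHSB
theorem allAPX : SpecAPX := specAPX
theorem allGDL : SpecGDL := specGDL allHSB allAPX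
theorem allSLI : SpecSLI := specSLI
theorem allRO2 : SpecRO2 := specRO2
theorem allWB2 : SpecWB2 := specWB2
theorem allSG2 : SpecSG2 := specSG2 allSLI allRO2 allWB2
theorem allDE2 : SpecDE2 := specDE2 allGDL allSG2 allWB2
theorem allPST : SpecPST := specPST allDE2 allWB2
theorem allCO3 : SpecCO3 := specCO3
theorem allSG3 : SpecSG3 := specSG3 allSLI allCO3
theorem allSST : SpecSST := specSST allPST allWB2
theorem allHAA : SpecHAA := specHAA
theorem allAVG : SpecAVG := specAVG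
theorem allMEA : SpecMEA := specMEA allHSB allRO2
theorem allLEN : SpecLEN := specLEN allMEA
theorem allCAU : SpecCAU := specCAU allGDL allSG3 allPST allAVG allMEA
theorem allNUB : SpecNUB := specNUB allSST allCO3 allWB2
theorem allNFU : SpecNFU := specNFU allWB2
theorem allRED : SpecRED := specRED allHAA allMEA allLEN allCAU allNUB allNFU
theorem allGPB : SpecGPB := specGPB
theorem allWMA : SpecWMA := specWMA
theorem allTOE : SpecTOE := specTOE specTAU
theorem allTPO : SpecTPO := specTPO specORT allTOE allGPB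
theorem allQQP : SpecQQP := specQQP
theorem allCAG : SpecCAG := specCAG allGPB allWMA
theorem allCAL : SpecCAL := specCAL allCAG allGPB allWMA allQQP
theorem allSMO : SpecSMO := specSMO allCAL allCAG allGPB allQQP allTPO
theorem allAPH : SpecAPH := specAPH specKCO specKWA allGPB
theorem allLIM : SpecLIM := specLIM allAPH specUCV specUME allSMO allCAG allGPB
theorem allDUA : SpecDUA := specDUA allWB2
theorem allSLC : SpecSLC := specSLC allDUA allRO2 allWB2
theorem allPC1 : SpecPC1 := specPC1 allSLC allLIM specUME allWB2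
theorem allPCW : SpecPCW := specPCW allPC1
theorem allFIN : SpecFIN := specFIN allRED allPCW allMEA

end Pool.Agent.Lib.MP_084b88_gt.CW
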