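import Pool.Agent.Lib.MP_084b88_gt.CW.SUL

/-!
# NCW: Q1 for bodies of nearly constant width
-/

set_option autoImplicit false

open MeasureTheory Set Real Filter Topology
open scoped Pointwise InnerProductSpace

namespace Pool.Agent.Lib.MP_084b88_gt.CW

namespace NCWM

open LN3M SULM

theorem final {c b V A' : ℝ} (hc : 0 < c) (hb : 0 ≤ b) (hV : 0 ≤ V) (hA : 0 ≤ A')
    (h : π / 2 * (kap * A') ≤ √(4 * π * V / (3 * c)) * √b) :
    4 * c * (2 * A') ^ 2 ≤ 3 * π * (4 * b) * V := by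
  have hpi := pi_pos
  have h1 : π / 2 * (kap * A') = 4 / 3 * A' := by
    unfold kap
    field_simp
    ring
  rw [h1] at h
  have h2 : (4 / 3 * A') ^ 2 ≤ (√(4 * π * V / (3 * c)) * √b) ^ 2 :=
    pow_le_pow_left₀ (by positivity) h 2
  rw [mul_pow (√_), sq_sqrt (by positivity), sq_sqrt hb] at h2
  have h3 : 4 * π * V / (3 * c) * b * (9 * c) = 12 * π * V * b := by
    field_simp
    ring
  have h4 := mul_le_mul_of_nonneg_right h2 (show (0 : ℝ) ≤ 9 * c by positivity)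
  rw [h3] at h4
  nlinarith

theorem kap_bd : 84 / 100 ≤ kap ∧ kap ≤ 85 / 100 := by
  have h1 := pi_gt_d2
  have h2 := pi_lt_d2
  have hpi := pi_pos
  unfold kap
  constructor
  · rw [le_div_iff₀ (by positivity)]
    nlinarith
  · rw [div_le_iff₀ (by positivity)]
    nlinarith

theorem sq_lb {y : ℝ} (h0 : 0 ≤ y) (h1 : y ≤ 101 / 100) :
    (y - 1) ^ 2 / (41 / 10) ≤ (1 - √y) ^ 2 := by
  have hs := sqrt_nonneg y
  have hy : √y ^ 2 = y := sq_sqrt h0
  have hs1 : √y ≤ 101 / 100 := by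
    rw [sqrt_le_left (by norm_num)]
    linarith
  set s := √y
  rw [← hy, div_le_iff₀ (by norm_num)]
  have e : (s ^ 2 - 1) ^ 2 = (1 - s) ^ 2 * (1 + s) ^ 2 := by ring
  rw [e]
  apply mul_le_mul_of_nonneg_left _ (sq_nonneg _)
  nlinarith

theorem sq_ub {y : ℝ} (h0 : 0 ≤ y) (h1 : y ≤ 101 / 100) : (1 - √y) ^ 2 ≤ 1 ∧ √y ≤ 101 / 100 := by
  have hs := sqrt_nonneg y
  have hy : √y ^ 2 = y := sq_sqrt h0
  have hs1 : √y ≤ 101 / 100 := by
    rw [sqrt_le_left (by norm_num)]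
    linarith
  refine ⟨?_, hs1⟩
  nlinarith

theorem aux1 {w δ b : ℝ} (h1 : w ≤ (1 + δ) * b) (h2 : 0 < w) (hδ : 0 < δ) : 0 < b := by
  by_contra h
  push Not at h
  nlinarith

theorem aux2 {w δ b : ℝ} (h1 : b ≤ (1 + δ) * w) (h2 : 0 < w) (hδ : δ ≤ 1 / 10000) :
    99 / 100 * b ≤ w := by nlinarith

theorem aux3 {w δ b : ℝ} (h1 : w ≤ (1 + δ) * b) (h2 : 0 < b) (hδ : δ ≤ 1 / 10000) :
    w ≤ 101 / 100 * b := by nlinarith

theorem aux4 {w δ b : ℝ} (h1 : b ≤ (1 + δ) * w) (h2 : 0 < b) (hδ : 0 < δ) :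
    -(δ * b) ≤ w - b := by
  rcases le_total w b with h | h
  · have := mul_le_mul_of_nonneg_left h hδ.le
    linarith
  · have := mul_pos hδ h2
    linarith

theorem aux5 {x y a c : ℝ} (hx : 0 ≤ x) (hy : 0 ≤ y) (h1 : x ≤ a) (h2 : y ≤ c) :
    x * y ≤ a * c := mul_le_mul h1 h2 hy (hx.trans h1)

end NCWM

open NCWM LN3M SULM in
theorem specNCW (hHSB : SpecHSB) (hHAA : SpecHAA) (hRE1 : SpecRE1) (hPNE : SpecPNE)
    (hLN3 : SpecLN3) (hSUL : SpecSUL) (hARE : SpecARE) (hMEA : SpecMEA) (hMEB : SpecMEB)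
    (hLEN : SpecLEN) (hCAU : SpecCAU) : SpecNCW := by
  obtain ⟨η, hη, hsul⟩ := hSUL
  obtain ⟨μ, hμ⟩ := hHAA
  have hP : IsProbabilityMeasure μ := hμ.1
  set ε : ℝ := min (1 / 1000) (η / 2500) with hε
  have hε0 : 0 < ε := lt_min (by norm_num) (by positivity)
  have hε1 : ε ≤ 1 / 1000 := min_le_left _ _
  have hε2 : ε ≤ η / 2500 := min_le_right _ _
  have hpi := pi_pos
  have hpi1 := pi_gt_d2
  have hpi2 := pi_lt_d2
  refine ⟨ε ^ 4 / 256, by positivity, ?_⟩
  set δ : ℝ := ε ^ 4 / 256 with hδ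
  have hδ0 : 0 < δ := by positivity
  have hδ1 : δ ≤ 1 / 10000 := by
    have h1 : ε ^ 4 ≤ (1 / 1000 : ℝ) ^ 4 := pow_le_pow_left₀ hε0.le hε1 4
    rw [hδ]
    norm_num at h1 ⊢
    linarith
  intro K hK hi hw c hsec V1 V2 hst
  obtain ⟨hCC, hAm, ⟨CA, hCA⟩, hsup, hwc, ⟨b0, hb0, hbw⟩, hqm, hq, hrot⟩ := hMEA K hK hi
  obtain ⟨hGc, hGe, -, hmm, hmA, -, hG3c, -⟩ := hMEB K hK hi
  obtain ⟨hV2, hV1'⟩ := hCAU μ hμ K hK hi V1 V2 hst
  have hlen := hLEN μ hμ K hK hi
  obtain ⟨-, -, -, -, hcont, hle', -, -, -⟩ := hHSB E3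
  have hle := hle' K hK
  set V : ℝ := (volume K).toReal with hV
  have hV0 : 0 ≤ V := ENNReal.toReal_nonneg
  -- widths
  have hwe : ∀ R : O3, wid (pr R K) 0 = HS K (col R 0) + HS K (-(col R 0)) := by
    intro R
    unfold wid
    rw [hsup, hsup, col_rot_zero, col_rot_zero]
    simp
  obtain ⟨W, hW⟩ : ∃ W : O3 → ℝ, W = fun R => wid (pr R K) 0 / 2 := ⟨_, rfl⟩
  have hWd : ∀ R, wid (pr R K) 0 / 2 = W R := fun R => by rw [hW]
  have hWc : Continuous W := by
    rw [hW]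
    exact hwc.div_const 2
  have hWi : Integrable W μ := integ hWc
  have hWpos : ∀ R, 0 < W R := fun R => by
    have := hbw R
    have h2 := hWd R
    linarith
  have hWW : ∀ R S : O3, W R ≤ (1 + δ) * W S := by
    intro R S
    have := hw (col R 0) (col S 0) (norm_col R 0) (norm_col S 0)
    rw [← hWd R, ← hWd S, hwe, hwe]
    linarith
  obtain ⟨b, hb⟩ : ∃ b : ℝ, b = ∫ R, W R ∂μ := ⟨_, rfl⟩
  have hb' : b = ∫ R, wid (pr R K) 0 / 2 ∂μ := by rw [hb, hW]
  have hV1 : V1 = 4 * b := by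
    have h1 : b = (∫ R, wid (pr R K) 0 ∂μ) / 2 := by
      rw [hb', integral_div]
    rw [h1]
    rw [hlen] at hV1'
    have : π * V1 = π * (4 * ((∫ R, wid (pr R K) 0 ∂μ) / 2)) := by rw [hV1']; ring
    exact mul_left_cancel₀ hpi.ne' this
  have hub : ∀ R, W R ≤ (1 + δ) * b := by
    intro R
    have h1 : ∫ _ : O3, W R ∂μ ≤ ∫ S, (1 + δ) * W S ∂μ :=
      integral_mono (integrable_const _) (hWi.const_mul _) (fun S => hWW R S)
    rwa [integral_const, probReal_univ, one_smul, integral_const_mul, ← hb] at h1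
  have hlb : ∀ R, b ≤ (1 + δ) * W R := by
    intro R
    have h1 : ∫ S, W S ∂μ ≤ ∫ _ : O3, (1 + δ) * W R ∂μ :=
      integral_mono hWi (integrable_const _) (fun S => hWW S R)
    rwa [integral_const, probReal_univ, one_smul, ← hb] at h1
  have hbpos : 0 < b := aux1 (hub 1) (hWpos 1) hδ0
  obtain ⟨A', hA'⟩ : ∃ A' : ℝ, A' = ∫ R, area (pr R K) ∂μ := ⟨_, rfl⟩
  have hA0 : ∀ R, 0 ≤ area (pr R K) := fun R => (hq R).1.trans (hq R).2
  have hAi : Integrable (fun R => area (pr R K)) μ :=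
    Integrable.of_bound hAm.aestronglyMeasurable CA (Eventually.of_forall (fun R => by
      rw [norm_eq_abs, abs_of_nonneg (hA0 R)]
      exact hCA R))
  have hqi : Integrable (fun R => qf (pr R K) 0) μ :=
    Integrable.of_bound hqm.aestronglyMeasurable CA (Eventually.of_forall (fun R => by
      rw [norm_eq_abs, abs_of_nonneg (hq R).1]
      exact (hq R).2.trans (hCA R)))
  have hmi : Integrable (fun R => mf (pr R K) 0) μ :=
    Integrable.of_bound hmm.aestronglyMeasurable CA (Eventually.of_forall (fun R => by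
      rw [norm_eq_abs]
      exact (hmA R).trans (hCA R)))
  have hA'0 : 0 ≤ A' := by
    rw [hA']
    exact integral_nonneg hA0
  rw [hV1, hV2, ← hA']
  rcases le_or_gt c 0 with hc | hc
  · have h1 : 4 * c * (2 * A') ^ 2 ≤ 0 := by
      have := mul_nonneg (neg_nonneg.2 hc) (sq_nonneg (2 * A'))
      linarith
    exact h1.trans (by positivity)
  apply final hc hbpos.le hV0 hA'0
  -- bounds of the area
  have hwt : ∀ (R : O3) (t : ℝ), wid (pr R K) t = 2 * W (R * rot t) := by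
    intro R t
    rw [(hrot R t).1, ← hWd]
    ring
  have hWlb : ∀ R, 99 / 100 * b ≤ W R := fun R => aux2 (hlb R) (hWpos R) hδ1
  have hWub : ∀ R, W R ≤ 101 / 100 * b := fun R => aux3 (hub R) hbpos hδ1
  have hb2 := sq_nonneg b
  have hAlb : 98 / 100 * b ^ 2 ≤ A' := by
    have h1 : ∀ R, 98 / 100 * b ^ 2 ≤ area (pr R K) := by
      intro R
      have h2 := hARE.1 (pr R K) (2 * (99 / 100 * b)) (hCC R) (by positivity) (fun t => by
        rw [hwt]
        linarith [hWlb (R * rot t)])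
      have h3 : (2 * (99 / 100 * b)) ^ 2 / 4 = 9801 / 10000 * b ^ 2 := by ring
      rw [h3] at h2
      linarith
    have h3 : ∫ _ : O3, 98 / 100 * b ^ 2 ∂μ ≤ ∫ R, area (pr R K) ∂μ :=
      integral_mono (integrable_const _) hAi h1
    rwa [integral_const, probReal_univ, one_smul, ← hA'] at h3
  have hAub : A' ≤ 41 / 10 * b ^ 2 := by
    have h1 : ∀ R, area (pr R K) ≤ 41 / 10 * b ^ 2 := by
      intro R
      have h2 := hARE.2 (pr R K) (hCC R)
      rw [hwt, hwt] at h2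
      have h3 := hWub (R * rot 0)
      have h4 := hWub (R * rot (π / 2))
      have h5 := hWpos (R * rot 0)
      have h6 := hWpos (R * rot (π / 2))
      have h7 : 2 * W (R * rot 0) * (2 * W (R * rot (π / 2))) ≤
          2 * (101 / 100 * b) * (2 * (101 / 100 * b)) :=
        mul_le_mul (by linarith) (by linarith) (by linarith) (by positivity)
      have h8 : 2 * (101 / 100 * b) * (2 * (101 / 100 * b)) = 40804 / 10000 * b ^ 2 := by ring
      rw [h8] at h7
      linarith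
    have h3 : ∫ R, area (pr R K) ∂μ ≤ ∫ _ : O3, 41 / 10 * b ^ 2 ∂μ :=
      integral_mono hAi (integrable_const _) h1
    rwa [integral_const, probReal_univ, one_smul, ← hA'] at h3
  -- `X` and `S`
  obtain ⟨X, hX⟩ : ∃ X : ℝ, X = ∫ R, (W R - b) ^ 2 ∂μ := ⟨_, rfl⟩
  have hX0 : 0 ≤ X := by
    rw [hX]
    exact integral_nonneg (fun R => sq_nonneg _)
  obtain ⟨G3, hG3⟩ : ∃ G3 : ℝ, G3 = ∫ R, g3f (mid (pr R K)) 0 ^ 2 ∂μ := ⟨_, rfl⟩
  have hG30 : 0 ≤ G3 := by
    rw [hG3]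
    exact integral_nonneg (fun R => sq_nonneg _)
  obtain ⟨Sg, hSg⟩ : ∃ Sg : ℝ, Sg = ∫ R, (1 - √(W R / b)) ^ 2 ∂μ := ⟨_, rfl⟩
  have hyc : Continuous (fun R => √(W R / b)) := (hWc.div_const b).sqrt
  have hy : ∀ R, 0 ≤ W R / b ∧ W R / b ≤ 101 / 100 := by
    intro R
    refine ⟨div_nonneg (hWpos R).le hbpos.le, ?_⟩
    rw [div_le_iff₀ hbpos]
    exact hWub R
  have hSlb : X ≤ 41 / 10 * b ^ 2 * Sg := by
    have h1 : ∫ R, (W R - b) ^ 2 ∂μ ≤ ∫ R, 41 / 10 * b ^ 2 * (1 - √(W R / b)) ^ 2 ∂μ := by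
      refine integral_mono (integ ((hWc.sub continuous_const).pow 2))
        ((integ ((continuous_const.sub hyc).pow 2)).const_mul _) (fun R => ?_)
      have h2 := sq_lb (hy R).1 (hy R).2
      have h3 : (W R - b) ^ 2 = b ^ 2 * (W R / b - 1) ^ 2 := by
        field_simp
      show (W R - b) ^ 2 ≤ 41 / 10 * b ^ 2 * (1 - √(W R / b)) ^ 2
      rw [h3]
      rw [div_le_iff₀ (by norm_num)] at h2
      have h4 := mul_le_mul_of_nonneg_left h2 (sq_nonneg b)
      linarith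
    rwa [integral_const_mul, ← hX, ← hSg] at h1
  have hSub : Sg ≤ 1 := by
    have h1 : ∫ R, (1 - √(W R / b)) ^ 2 ∂μ ≤ ∫ _ : O3, (1 : ℝ) ∂μ :=
      integral_mono (integ ((continuous_const.sub hyc).pow 2)) (integrable_const _)
        (fun R => (sq_ub (hy R).1 (hy R).2).1)
    rwa [integral_const, probReal_univ, one_smul, ← hSg] at h1
  have hS0 : 0 ≤ Sg := by
    rw [hSg]
    exact integral_nonneg (fun R => sq_nonneg _)
  obtain ⟨hk1, hk2⟩ := kap_bd
  have hkA : 0 ≤ kap * A' := mul_nonneg (by linarith) hA'0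
  have hkS : X / 10 ≤ kap * A' * (1 / 2 * Sg) := by
    have h1 : 84 / 100 * (98 / 100 * b ^ 2) ≤ kap * A' :=
      mul_le_mul hk1 hAlb (by positivity) (by linarith)
    have h2 := mul_le_mul_of_nonneg_right h1 (show (0 : ℝ) ≤ 1 / 2 * Sg by positivity)
    have h3 := mul_nonneg hb2 hS0
    linarith
  -- the difference of `B` and its mean
  have hWb : ∀ R : O3, |wid (pr R K) 0 / 2 - b| ≤ δ * b := by
    intro R
    have h1 := hub R
    have h2 := hlb R
    rw [hWd, abs_le]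
    exact ⟨aux4 h2 hbpos hδ0, by linarith⟩
  have hsplit : ∫ R, (qf (pr R K) 0 - kap * area (pr R K)) ∂μ =
      ∫ R, qf (pr R K) 0 ∂μ - kap * A' := by
    rw [integral_sub hqi (hAi.const_mul _), integral_const_mul, hA']
  obtain ⟨Eq, hEq⟩ : ∃ Eq : ℝ, Eq = ∫ R, qf (pr R K) 0 ∂μ := ⟨_, rfl⟩
  rw [← hEq] at hsplit
  rcases le_or_gt (32 * π * ε * b ^ 2) G3 with hcase | hcase
  · -- case A
    obtain ⟨x0, hx0⟩ := hK.2.2
    have hO : ∀ R : O3, |mid (pr R K) 0 - ⟪col R 0, x0⟫_ℝ| ≤ 3 / 2 * b := by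
      intro R
      rw [hGe R]
      have h1 := hle (col R 0) x0 hx0
      have h2 := hle (-(col R 0)) x0 hx0
      rw [inner_neg_left] at h2
      have h3 := hWub R
      have h4 : W R = (HS K (col R 0) + HS K (-(col R 0))) / 2 := by
        rw [← hWd, hwe]
      rw [abs_le]
      constructor <;> linarith
    have h1 := hPNE μ hμ K hK hi x0 b δ ε 0 (3 / 2) hbpos hδ0.le hε0 le_rfl (by norm_num) le_rfl
      (by linarith) le_rfl hWb hO
    simp only [hWd] at h1
    rw [hsplit, ← hX, ← hG3, zero_mul, zero_mul, add_zero, zero_mul, zero_mul, add_zero,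
      sub_zero] at h1
    have h2 : 8 * π * ε * G3 ≤ G3 ^ 2 / (4 * b ^ 2) := by
      rw [le_div_iff₀ (by positivity)]
      have := mul_le_mul_of_nonneg_right hcase hG30
      linarith
    have h3 : kap * A' * (1 - 1 / 2 * Sg) ≤ Eq := by
      have h4 : ε * (2 * π * X) ≤ X / 10 := by
        have h5 : ε * (2 * π) ≤ 1 / 10 := by
          have := aux5 hε0.le (show 0 ≤ 2 * π by positivity) hε1 (show 2 * π ≤ 63 / 10 by linarith)
          linarith
        have h6 := mul_le_mul_of_nonneg_right h5 hX0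
        linarith
      have h1' : -(ε * (2 * π * X + 8 * π * G3)) + G3 ^ 2 / (4 * b ^ 2) ≤ Eq - kap * A' := h1
      linarith
    obtain ⟨-, -, -, hR⟩ := hRE1 μ hμ K hK hi c hc hsec V1 V2 hst (fun _ => 0) continuous_const b hb'
    simp only [hWd] at hR
    have h6 : ∫ R, (qf (pr R K) 0 + (0 : ℝ) * mf (pr R K) 0) ∂μ = Eq := by
      rw [hEq]
      congr 1
      funext R
      ring
    have h7 : ∫ R, √(W R / b) * (0 : ℝ) ^ 2 ∂μ = 0 := by
      have : (fun R : O3 => √(W R / b) * (0 : ℝ) ^ 2) = fun _ => 0 := by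
        funext R
        ring
      rw [this, integral_zero]
    rw [h6, h7, mul_zero, add_zero, ← hSg] at hR
    have h8 : 0 < 1 - 1 / 2 * Sg := by linarith
    have h9 : π / 2 * (kap * A') * (1 - 1 / 2 * Sg) ≤
        √(4 * π * V / (3 * c)) * √b * (1 - 1 / 2 * Sg) := by
      refine le_trans ?_ hR
      have := mul_le_mul_of_nonneg_left h3 (show (0 : ℝ) ≤ π / 2 by positivity)
      linarith
    exact le_of_mul_le_mul_right h9 h8
  · -- case B
    obtain ⟨O, hO⟩ := hLN3 μ hμ K hK hi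
    obtain ⟨g2, hg2⟩ : ∃ g2 : ℝ, g2 = ∫ R, (mid (pr R K) 0 - ⟪col R 0, O⟫_ℝ) ^ 2 ∂μ := ⟨_, rfl⟩
    have hO' : g2 ≤ 24 * G3 := by
      rw [hg2, hG3]
      exact hO
    have hg20 : 0 ≤ g2 := by
      rw [hg2]
      exact integral_nonneg (fun R => sq_nonneg _)
    have h1 : g2 ≤ η * b ^ 2 := by
      have h2 : 24 * (32 * π * ε) ≤ η := by
        have h3 : 24 * (32 * π) ≤ 2500 := by linarith
        have h4 := mul_le_mul_of_nonneg_right h3 hε0.le
        linarith
      have h5 := mul_le_mul_of_nonneg_right h2 (sq_nonneg b)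
      linarith
    have hO2 : ∀ R : O3, |mid (pr R K) 0 - ⟪col R 0, O⟫_ℝ| ≤ 1 / 40 * b := by
      intro R
      have := hsul μ hμ K hK hi b O hbpos (fun R => by
        have h2 := hWub R
        rw [← hWd] at h2
        linarith) (hg2 ▸ h1) R
      linarith
    have h2 := hPNE μ hμ K hK hi O b δ ε (1 / 20) (1 / 40) hbpos hδ0.le hε0 (by norm_num)
      (by norm_num) le_rfl (by linarith) (by norm_num) hWb hO2
    obtain ⟨Em, hEm⟩ : ∃ Em : ℝ, Em =
      ∫ R, (mid (pr R K) 0 - ⟪col R 0, O⟫_ℝ) / b * mf (pr R K) 0 ∂μ := ⟨_, rfl⟩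
    simp only [hWd] at h2
    rw [hsplit, ← hX, ← hG3, ← hEm, ← hg2] at h2
    have h2' : -((ε + 1 / 20 * (1 / 40)) * (2 * π * X + 8 * π * G3)) + G3 ^ 2 / (4 * b ^ 2) +
        1 / 20 * π * ((1 - δ / 2) * G3 - δ / 2 * g2) ≤ Eq - kap * A' - 1 / 20 * Em := h2
    obtain ⟨f, hf⟩ : ∃ f : E3 → ℝ, f = fun u =>
      -(1 / 20) * (((HS K u - HS K (-u)) / 2 - ⟪u, O⟫_ℝ) / b) := ⟨_, rfl⟩
    have hfc : Continuous f := by
      have h3 := hcont K hK
      have h4 : Continuous (fun u : E3 => HS K (-u)) := h3.comp continuous_neg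
      rw [hf]
      fun_prop
    have hfe : ∀ R : O3, f (col R 0) =
        -(1 / 20) * ((mid (pr R K) 0 - ⟪col R 0, O⟫_ℝ) / b) := by
      intro R
      rw [hGe R, hf]
    obtain ⟨-, -, -, hR⟩ := hRE1 μ hμ K hK hi c hc hsec V1 V2 hst f hfc b hb'
    simp only [hWd] at hR
    have hgi : Integrable (fun R => (mid (pr R K) 0 - ⟪col R 0, O⟫_ℝ) / b * mf (pr R K) 0) μ := by
      have h3 : Continuous (fun R : O3 => (mid (pr R K) 0 - ⟪col R 0, O⟫_ℝ) / b) :=
        (hGc.sub ((continuous_col 0).inner continuous_const)).div_const b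
      refine hmi.bdd_mul (c := 1 / 40) h3.aestronglyMeasurable (Eventually.of_forall fun R => ?_)
      rw [norm_eq_abs, abs_div, abs_of_pos hbpos, div_le_iff₀ hbpos]
      exact hO2 R
    have h6 : ∫ R, (qf (pr R K) 0 + f (col R 0) * mf (pr R K) 0) ∂μ = Eq - 1 / 20 * Em := by
      have h3 : (fun R : O3 => qf (pr R K) 0 + f (col R 0) * mf (pr R K) 0) = fun R : O3 =>
          qf (pr R K) 0 -
            1 / 20 * ((mid (pr R K) 0 - ⟪col R 0, O⟫_ℝ) / b * mf (pr R K) 0) := by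
        funext R
        rw [hfe R]
        ring
      rw [h3, integral_sub hqi (hgi.const_mul _), integral_const_mul, hEq, hEm]
    obtain ⟨Cg, hCg⟩ : ∃ Cg : ℝ, Cg = ∫ R, √(W R / b) * f (col R 0) ^ 2 ∂μ := ⟨_, rfl⟩
    rw [← hCg, ← hSg, h6] at hR
    have hR' : π / 2 * (Eq - 1 / 20 * Em) ≤ √(4 * π * V / (3 * c)) * √b *
        (1 - 1 / 2 * Sg + 1 / 4 * Cg) := hR
    have hC0 : 0 ≤ Cg := by
      rw [hCg]
      exact integral_nonneg (fun R => mul_nonneg (sqrt_nonneg _) (sq_nonneg _))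
    have hCub : b ^ 2 * Cg ≤ 101 / 100 * (1 / 400) * g2 := by
      have h3 : ∫ R, √(W R / b) * f (col R 0) ^ 2 ∂μ ≤ ∫ R, 101 / 100 * (1 / 400) * (1 / b ^ 2) *
          (mid (pr R K) 0 - ⟪col R 0, O⟫_ℝ) ^ 2 ∂μ := by
        refine integral_mono (integ (hyc.mul ((hfc.comp (continuous_col 0)).pow 2)))
          ((integ ?_).const_mul _) (fun R => ?_)
        · exact (hGc.sub ((continuous_col 0).inner continuous_const)).pow 2
        · show √(W R / b) * f (col R 0) ^ 2 ≤ 101 / 100 * (1 / 400) * (1 / b ^ 2) *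
            (mid (pr R K) 0 - ⟪col R 0, O⟫_ℝ) ^ 2
          rw [hfe R]
          have h4 := (sq_ub (hy R).1 (hy R).2).2
          have h5 := mul_le_mul_of_nonneg_right h4
            (sq_nonneg (-(1 / 20) * ((mid (pr R K) 0 - ⟪col R 0, O⟫_ℝ) / b)))
          refine h5.trans (le_of_eq ?_)
          field_simp
          ring
      rw [integral_const_mul, ← hCg, ← hg2] at h3
      have h4 := mul_le_mul_of_nonneg_left h3 (sq_nonneg b)
      refine h4.trans (le_of_eq ?_)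
      field_simp
    have h8 : kap * A' * (1 / 4 * Cg) ≤ 6 / 100 * G3 := by
      have h3 : kap * A' ≤ 85 / 100 * (41 / 10 * b ^ 2) :=
        mul_le_mul hk2 hAub hA'0 (by norm_num)
      have h4 := mul_le_mul_of_nonneg_right h3 (show (0 : ℝ) ≤ 1 / 4 * Cg by positivity)
      linarith
    have h9 : kap * A' * (1 - 1 / 2 * Sg + 1 / 4 * Cg) ≤ Eq - 1 / 20 * Em := by
      have hθ : ε + 1 / 20 * (1 / 40) ≤ 9 / 4000 := by linarith
      have hθ0 : 0 ≤ ε + 1 / 20 * (1 / 40) := by positivity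
      set θ := ε + 1 / 20 * (1 / 40) with hθd
      have i1 : θ * (2 * π * X) ≤ 15 / 1000 * X := by
        have h3 : θ * (2 * π) ≤ 15 / 1000 := by
          have := aux5 hθ0 (show 0 ≤ 2 * π by positivity) hθ (show 2 * π ≤ 63 / 10 by linarith)
          linarith
        have h4 := mul_le_mul_of_nonneg_right h3 hX0
        linarith
      have i2 : θ * (8 * π * G3) ≤ 57 / 1000 * G3 := by
        have h3 : θ * (8 * π) ≤ 57 / 1000 := by
          have := aux5 hθ0 (show 0 ≤ 8 * π by positivity) hθ (show 8 * π ≤ 252 / 10 by linarith)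
          linarith
        have h4 := mul_le_mul_of_nonneg_right h3 hG30
        linarith
      have i3 : 15 / 100 * G3 ≤ 1 / 20 * π * ((1 - δ / 2) * G3 - δ / 2 * g2) := by
        have h3 : (1 - 13 * δ) * G3 ≤ (1 - δ / 2) * G3 - δ / 2 * g2 := by
          have j1 := mul_le_mul_of_nonneg_left hO' (show 0 ≤ δ / 2 by positivity)
          have j2 := mul_nonneg hδ0.le hG30
          linarith
        have h4 : 0 ≤ (1 - 13 * δ) * G3 := mul_nonneg (by linarith) hG30
        have h5 : 314 / 2000 * ((1 - 13 * δ) * G3) ≤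
            1 / 20 * π * ((1 - δ / 2) * G3 - δ / 2 * g2) :=
          mul_le_mul (by linarith) h3 h4 (by positivity)
        have h6 : (1 - 13 / 10000) * G3 ≤ (1 - 13 * δ) * G3 :=
          mul_le_mul_of_nonneg_right (by linarith) hG30
        linarith
      have i4 : 0 ≤ G3 ^ 2 / (4 * b ^ 2) := by positivity
      linarith
    have h10 : 0 < 1 - 1 / 2 * Sg + 1 / 4 * Cg := by linarith
    have h11 : π / 2 * (kap * A') * (1 - 1 / 2 * Sg + 1 / 4 * Cg) ≤
        √(4 * π * V / (3 * c)) * √b * (1 - 1 / 2 * Sg + 1 / 4 * Cg) := by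
      refine le_trans ?_ hR'
      have := mul_le_mul_of_nonneg_left h9 (show (0 : ℝ) ≤ π / 2 by positivity)
      linarith
    exact le_of_mul_le_mul_right h11 h10

end Pool.Agent.Lib.MP_084b88_gt.CW
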