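import Pool.Agent.Lib.MP_084b88_gt.CW.SpecD
import Pool.Agent.Lib.MP_084b88_gt.CW.AllD
import Pool.Agent.Lib.MP_084b88_gt.CW.NCW

section
/-!
# MP_084b88_gt, project CW, module FI2
-/
set_option autoImplicit false

open MeasureTheory Set Real Filter Topology
open scoped Pointwise InnerProductSpace

namespace Pool.Agent.Lib.MP_084b88_gt.CW

theorem specFI2 (hN : SpecNCW) (hC : SpecC0K) (hHSB : SpecHSB) : SpecFI2 := by
  obtain ⟨δ, hδ, hK⟩ := hN
  -- choose `e` with `(1 - 4 e)⁻¹ ≤ 1 + δ`
  set e : ℝ := min (1 / 8) (δ / (4 * (1 + δ))) with he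
  have he0 : 0 < e := by rw [he]; positivity
  have he8 : e ≤ 1 / 8 := min_le_left _ _
  have heδ : 4 * e * (1 + δ) ≤ δ := by
    have h1 : e ≤ δ / (4 * (1 + δ)) := min_le_right _ _
    rw [le_div_iff₀ (by positivity)] at h1
    linarith
  have he4 : e ^ 4 ≤ 1 / 16 := by
    have h1 : e ^ 4 ≤ (1 / 8) ^ 4 := pow_le_pow_left₀ he0.le he8 4
    linarith [h1, show ((1 : ℝ) / 8) ^ 4 ≤ 1 / 16 by norm_num]
  refine ⟨min δ (e ^ 4), by positivity, ?_⟩
  intro K hCC hint c h
  rcases h with h | h
  · refine hK K hCC hint (fun u v hu hv => ?_) c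
    refine (h u v hu hv).trans ?_
    have hw : 0 ≤ HS K v + HS K (-v) := by
      obtain ⟨y, hy⟩ := hCC.2.2
      have hb := (hHSB E3).2.2.2.2.2.1 K hCC
      have h1 := hb v y hy
      have h2 := hb (-v) y hy
      rw [inner_neg_left] at h2
      linarith
    exact mul_le_mul_of_nonneg_right (by linarith [min_le_left δ (e ^ 4)]) hw
  · intro hsec
    have hc : 1 - e ^ 4 ≤ c := by linarith [min_le_right δ (e ^ 4)]
    have hw := hC K c e hCC hint he0.le he4 hc hsec
    refine hK K hCC hint (fun u v hu hv => ?_) c hsec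
    have h1 := hw u v hu hv
    have hwu : 0 ≤ HS K u + HS K (-u) := by
      obtain ⟨y, hy⟩ := hCC.2.2
      have hb := (hHSB E3).2.2.2.2.2.1 K hCC
      have h1 := hb u y hy
      have h2 := hb (-u) y hy
      rw [inner_neg_left] at h2
      linarith
    have h2 : HS K u + HS K (-u) ≤ (1 + δ) * ((1 - 4 * e) * (HS K u + HS K (-u))) := by
      nlinarith
    refine h2.trans ?_
    exact mul_le_mul_of_nonneg_left h1 (by linarith)

end Pool.Agent.Lib.MP_084b88_gt.CW
end

section
/-!
# MP_084b88_gt, project CW: assembly, nearly constant width and `c` close to one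
-/
set_option autoImplicit false

namespace Pool.Agent.Lib.MP_084b88_gt.CW

theorem allNCW : SpecNCW :=
  specNCW allHSB allHAA allRE1 allPNE allLN3 allSUL allARE allMEA allMEB allLEN allCAU
theorem allFI2 : SpecFI2 := specFI2 allNCW allC0K allHSB

end Pool.Agent.Lib.MP_084b88_gt.CW
end
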