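import Pool.Agent.Lib.MP_084b88_gt.CW.Defs

/-!
# MP_084b88_gt, project CW: elementary facts on frames and planar coordinates (proved)
-/

set_option autoImplicit false

open MeasureTheory Set Real
open scoped Pointwise InnerProductSpace

namespace Pool.Agent.Lib.MP_084b88_gt.CW

/-- Compact, convex, nonempty. -/
def CC {V : Type} [AddCommGroup V] [Module ℝ V] [TopologicalSpace V] (M : Set V) : Prop :=
  Convex ℝ M ∧ IsCompact M ∧ M.Nonempty

theorem inner_E3 (x y : E3) : ⟪x, y⟫_ℝ = x 0 * y 0 + x 1 * y 1 + x 2 * y 2 := by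
  rw [PiLp.inner_apply, Fin.sum_univ_three]
  simp [inner, mul_comm]

theorem col_apply (R : O3) (i j : Fin 3) : col R i j = R.1 j i := rfl

/-- Columns are orthonormal. -/
theorem inner_col_col (R : O3) (i j : Fin 3) :
    ⟪col R i, col R j⟫_ℝ = if i = j then 1 else 0 := by
  have h : (star R.1 * R.1) = 1 := (Unitary.mem_iff.1 R.2).1
  have h2 := congrFun (congrFun h i) j
  simp only [Matrix.mul_apply, Matrix.star_apply, star_trivial, Matrix.one_apply,
    Fin.sum_univ_three] at h2
  rw [inner_E3]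
  simp only [col_apply]
  exact h2

theorem norm_col (R : O3) (i : Fin 3) : ‖col R i‖ = 1 := by
  have h := inner_col_col R i i
  simp only [if_true] at h
  rw [real_inner_self_eq_norm_sq] at h
  have h0 := norm_nonneg (col R i)
  nlinarith

/-- Rows are orthonormal as well. -/
theorem row_row (R : O3) (i j : Fin 3) :
    R.1 i 0 * R.1 j 0 + R.1 i 1 * R.1 j 1 + R.1 i 2 * R.1 j 2 = if i = j then 1 else 0 := by
  have h : (R.1 * star R.1) = 1 := (Unitary.mem_iff.1 R.2).2
  have h2 := congrFun (congrFun h i) j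
  simp only [Matrix.mul_apply, Matrix.star_apply, star_trivial, Matrix.one_apply,
    Fin.sum_univ_three] at h2
  exact h2

theorem col_mul (R S : O3) (i : Fin 3) :
    col (R * S) i = S.1 0 i • col R 0 + S.1 1 i • col R 1 + S.1 2 i • col R 2 := by
  ext j
  simp only [col_apply, PiLp.add_apply, PiLp.smul_apply, smul_eq_mul]
  change (R.1 * S.1) j i = _
  rw [Matrix.mul_apply, Fin.sum_univ_three]
  ring

theorem col_rot_zero (R : O3) (θ : ℝ) :
    col (R * rot θ) 0 = cos θ • col R 0 + sin θ • col R 1 := by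
  rw [col_mul]; simp [rot, rotM]

theorem col_rot_one (R : O3) (θ : ℝ) :
    col (R * rot θ) 1 = (-sin θ) • col R 0 + cos θ • col R 1 := by
  rw [col_mul]; simp [rot, rotM]

theorem col_rot_two (R : O3) (θ : ℝ) : col (R * rot θ) 2 = col R 2 := by
  rw [col_mul]; simp [rot, rotM]

theorem col_cyc_zero (R : O3) (θ : ℝ) : col (R * cyc θ) 0 = col R 2 := by
  rw [col_mul]; simp [cyc, cycM]

theorem col_cyc_one (R : O3) (θ : ℝ) :
    col (R * cyc θ) 1 = cos θ • col R 0 + sin θ • col R 1 := by
  rw [col_mul]; simp [cyc, cycM]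

theorem col_cyc_two (R : O3) (θ : ℝ) :
    col (R * cyc θ) 2 = (-sin θ) • col R 0 + cos θ • col R 1 := by
  rw [col_mul]; simp [cyc, cycM]

/-- Every vector is the combination of the columns. -/
theorem sum_col (R : O3) (x : E3) :
    ⟪col R 0, x⟫_ℝ • col R 0 + ⟪col R 1, x⟫_ℝ • col R 1 + ⟪col R 2, x⟫_ℝ • col R 2 = x := by
  ext j
  simp only [col_apply, PiLp.add_apply, PiLp.smul_apply, smul_eq_mul, inner_E3]
  have h0 := row_row R j 0
  have h1 := row_row R j 1
  have h2 := row_row R j 2
  have e : ∀ a b c : ℝ, a * x 0 + b * x 1 + c * x 2 = a * x 0 + b * x 1 + c * x 2 := fun _ _ _ => rfl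
  calc (R.1 0 0 * x 0 + R.1 1 0 * x 1 + R.1 2 0 * x 2) * R.1 j 0
        + (R.1 0 1 * x 0 + R.1 1 1 * x 1 + R.1 2 1 * x 2) * R.1 j 1
        + (R.1 0 2 * x 0 + R.1 1 2 * x 1 + R.1 2 2 * x 2) * R.1 j 2
      = (R.1 j 0 * R.1 0 0 + R.1 j 1 * R.1 0 1 + R.1 j 2 * R.1 0 2) * x 0
        + (R.1 j 0 * R.1 1 0 + R.1 j 1 * R.1 1 1 + R.1 j 2 * R.1 1 2) * x 1
        + (R.1 j 0 * R.1 2 0 + R.1 j 1 * R.1 2 1 + R.1 j 2 * R.1 2 2) * x 2 := by ring
    _ = x j := by
        rw [h0, h1, h2]
        fin_cases j <;> simp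

/-- Pythagoras in the frame. -/
theorem norm_sq_frame (R : O3) (x : E3) :
    ⟪col R 0, x⟫_ℝ ^ 2 + ⟪col R 1, x⟫_ℝ ^ 2 + ⟪col R 2, x⟫_ℝ ^ 2 = ‖x‖ ^ 2 := by
  rw [← real_inner_self_eq_norm_sq x]
  nth_rewrite 4 [← sum_col R x]
  rw [inner_add_left, inner_add_left, inner_smul_left, inner_smul_left, inner_smul_left]
  simp only [RCLike.conj_to_real]
  ring

theorem continuous_col (i : Fin 3) : Continuous (fun R : O3 => col R i) := by
  unfold col
  apply (PiLp.continuous_toLp 2 _).comp
  apply continuous_pi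
  intro j
  exact ((continuous_apply i).comp ((continuous_apply j).comp
    (show Continuous (fun R : O3 => (R.1 : Fin 3 → Fin 3 → ℝ)) from continuous_subtype_val)))

theorem continuous_rot : Continuous rot := by
  unfold rot
  apply Continuous.subtype_mk
  unfold rotM
  refine continuous_matrix ?_
  intro i j
  fin_cases i <;> fin_cases j <;> simp <;> fun_prop

theorem continuous_cyc : Continuous cyc := by
  unfold cyc
  apply Continuous.subtype_mk
  unfold cycM
  refine continuous_matrix ?_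
  intro i j
  fin_cases i <;> fin_cases j <;> simp <;> fun_prop

/-- joint continuity of `(R, x) ↦ cd R x`. -/
theorem continuous_cd : Continuous (fun a : O3 × E3 => cd a.1 a.2) := by
  unfold cd
  exact (((continuous_col 0).comp continuous_fst).inner continuous_snd).prodMk
    (((continuous_col 1).comp continuous_fst).inner continuous_snd)

theorem continuous_cd_right (R : O3) : Continuous (cd R) := by
  unfold cd
  exact (continuous_const.inner continuous_id).prodMk (continuous_const.inner continuous_id)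

theorem cd_add (R : O3) (x y : E3) : cd R (x + y) = cd R x + cd R y := by
  simp [cd, inner_add_right]

theorem cd_smul (R : O3) (a : ℝ) (x : E3) : cd R (a • x) = a • cd R x := by
  simp [cd, inner_smul_right]

theorem dotu_cd (R : O3) (θ : ℝ) (x : E3) : dotu θ (cd R x) = ⟪col (R * rot θ) 0, x⟫_ℝ := by
  rw [col_rot_zero, inner_add_left, inner_smul_left, inner_smul_left]
  simp [dotu, cd, mul_comm]

theorem continuous_dotu : Continuous (fun a : ℝ × (ℝ × ℝ) => dotu a.1 a.2) := by
  unfold dotu; fun_prop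

theorem continuous_dotu_right (θ : ℝ) : Continuous (dotu θ) := by
  unfold dotu; fun_prop

theorem dotu_add_pi (θ : ℝ) (p : ℝ × ℝ) : dotu (θ + π) p = - dotu θ p := by
  simp [dotu, cos_add_pi, sin_add_pi]; ring

theorem dotu_add (θ : ℝ) (p q : ℝ × ℝ) : dotu θ (p + q) = dotu θ p + dotu θ q := by
  simp [dotu]; ring

theorem dotu_smul (θ a : ℝ) (p : ℝ × ℝ) : dotu θ (a • p) = a * dotu θ p := by
  simp [dotu]; ring

end Pool.Agent.Lib.MP_084b88_gt.CW
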