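import Pool.Agent.Lib.MP_084b88_gt.CW.SpecC

/-!
# MP_084b88_gt, project CW: module COE (coefficients of the quadratic form)
-/

set_option autoImplicit false

open MeasureTheory Set Real Filter Topology
open scoped Pointwise InnerProductSpace

namespace Pool.Agent.Lib.MP_084b88_gt.CW

namespace COEM

/-- `T_{n}` shifted: `T_{n+2} = 2/((2n+1)(2n+3)(2n+5))`. -/
noncomputable def T2 (n : ℕ) : ℝ := 2 / ((2 * (n : ℝ) + 1) * (2 * n + 3) * (2 * n + 5))

theorem T2_nonneg (n : ℕ) : 0 ≤ T2 n := by unfold T2; positivity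

theorem tau_zero : tau 0 = 0 := by simp [tau]

theorem tau_one : tau 1 = 2 / 15 := by simp [tau]

theorem tau_two (n : ℕ) : tau (n + 2) = T2 (n + 1) - T2 n := by
  unfold tau T2
  rw [if_neg (by omega), if_neg (by omega)]
  push_cast
  have h1 : (2 * (n : ℝ) + 1) ≠ 0 := by positivity
  have h3 : (2 * (n : ℝ) + 3) ≠ 0 := by positivity
  have h5 : (2 * (n : ℝ) + 5) ≠ 0 := by positivity
  have h7 : (2 * (n : ℝ) + 7) ≠ 0 := by positivity
  have e1 : 4 * ((n : ℝ) + 2) ^ 2 - 1 = (2 * n + 3) * (2 * n + 5) := by ring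
  have e2 : 4 * ((n : ℝ) + 2) ^ 2 - 9 = (2 * n + 1) * (2 * n + 7) := by ring
  have e3 : 2 * ((n : ℝ) + 1) + 1 = 2 * n + 3 := by ring
  have e4 : 2 * ((n : ℝ) + 1) + 3 = 2 * n + 5 := by ring
  have e5 : 2 * ((n : ℝ) + 1) + 5 = 2 * n + 7 := by ring
  rw [e1, e2, e3, e4, e5]
  field_simp
  ring

/-- partial sums of `τ`. -/
theorem sum_tau (m : ℕ) : ∑ n ∈ Finset.range (m + 1), tau (n + 1) = T2 m := by
  induction m with
  | zero =>
    rw [Finset.sum_range_one, tau_one]
    unfold T2; norm_num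
  | succ m ih =>
    rw [Finset.sum_range_succ, ih, tau_two]
    ring

/-- the linear sums `R(m) = ∑_{n<m} (e+m-1-n) τ_{n+1} ≥ 2e/15` for `m ≥ 1`. -/
theorem R_ge (e : ℝ) (he0 : 0 ≤ e) (he1 : e ≤ 1) (m : ℕ) :
    2 * e / 15 ≤ ∑ n ∈ Finset.range (m + 1), (e + m - n) * tau (n + 1) := by
  induction m with
  | zero =>
    rw [Finset.sum_range_one, tau_one]
    push_cast
    linarith
  | succ m ih =>
    have e1 : ∀ n ∈ Finset.range (m + 2), (e + ((m + 1 : ℕ) : ℝ) - n) * tau (n + 1) =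
        (e + m - n) * tau (n + 1) + tau (n + 1) := by
      intro n _; push_cast; ring
    rw [Finset.sum_congr rfl e1, Finset.sum_add_distrib, sum_tau,
      Finset.sum_range_succ (fun n => (e + m - (n : ℝ)) * tau (n + 1)), tau_two]
    push_cast
    have h1 := T2_nonneg m
    have h2 := T2_nonneg (m + 1)
    nlinarith [mul_nonneg he0 h2, mul_nonneg (sub_nonneg.2 he1) h1]

/-- `S f e m = ∑_{i,j<m} (e+i)(e+j) f(|i-j|)`. -/
noncomputable def S (f : ℕ → ℝ) (e : ℝ) (m : ℕ) : ℝ :=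
  ∑ i ∈ Finset.range m, ∑ k ∈ Finset.range m, (e + i) * (e + k) * f (Nat.dist i k)

theorem S_succ (f : ℕ → ℝ) (e : ℝ) (m : ℕ) :
    S f e (m + 1) = S f e m + (e + m) ^ 2 * f 0 +
      2 * (e + m) * ∑ n ∈ Finset.range m, (e + m - 1 - n) * f (n + 1) := by
  unfold S
  have e0 : ∑ k ∈ Finset.range m, (e + k) * f (Nat.dist m k) =
      ∑ n ∈ Finset.range m, (e + m - 1 - n) * f (n + 1) := by
    rw [← Finset.sum_range_reflect]
    apply Finset.sum_congr rfl
    intro n hn
    have hn' := Finset.mem_range.1 hn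
    have e1 : Nat.dist m (m - 1 - n) = n + 1 := by
      unfold Nat.dist; omega
    have e2 : e + ((m - 1 - n : ℕ) : ℝ) = e + m - 1 - n := by
      have : (m - 1 - n) + 1 + n = m := by omega
      have h3 := congrArg (fun x : ℕ => (x : ℝ)) this
      push_cast at h3
      linarith
    rw [e1, e2]
  simp only [Finset.sum_range_succ, Finset.sum_add_distrib]
  have e2 : Nat.dist m m = 0 := by simp [Nat.dist]
  rw [e2]
  have e3 : ∑ i ∈ Finset.range m, (e + i) * (e + m) * f (Nat.dist i m) =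
      (e + m) * ∑ k ∈ Finset.range m, (e + k) * f (Nat.dist m k) := by
    rw [Finset.mul_sum]
    apply Finset.sum_congr rfl
    intro k _
    rw [Nat.dist_comm]; ring
  have e4 : ∑ k ∈ Finset.range m, (e + m) * (e + k) * f (Nat.dist m k) =
      (e + m) * ∑ k ∈ Finset.range m, (e + k) * f (Nat.dist m k) := by
    rw [Finset.mul_sum]
    apply Finset.sum_congr rfl
    intro k _
    ring
  rw [e3, e4, e0]; ring

/-- `ν_n = ∫_0^π cos(2nα) sin² α dα`. -/
noncomputable def nu (n : ℕ) : ℝ := if n = 0 then π / 2 else if n = 1 then -(π / 4) else 0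

theorem int_cos (m : ℤ) : ∫ α in (0 : ℝ)..π, cos (2 * (m : ℝ) * α) = if m = 0 then π else 0 := by
  by_cases h0 : m = 0
  · subst h0
    simp
  · rw [if_neg h0]
    have hne : (2 * (m : ℝ)) ≠ 0 := by
      have h : (2 * m : ℤ) ≠ 0 := by omega
      exact_mod_cast h
    rw [intervalIntegral.integral_comp_mul_left (fun x => cos x) hne, integral_cos]
    have h1 : sin (2 * (m : ℝ) * π) = 0 := by
      have h : 2 * (m : ℝ) * π = ((2 * m : ℤ) : ℝ) * π := by push_cast; ring
      rw [h, Real.sin_int_mul_pi]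
    rw [mul_zero, sin_zero, h1]
    simp

theorem int_nu (n : ℕ) : ∫ α in (0 : ℝ)..π, cos (2 * n * α) * sin α ^ 2 = nu n := by
  have hI : ∀ k : ℝ, IntervalIntegrable (fun α => cos (k * α)) volume 0 π := fun k =>
    Continuous.intervalIntegrable (by fun_prop) _ _
  have h1 : ∫ α in (0 : ℝ)..π, cos (2 * n * α) * sin α ^ 2 =
      ∫ α in (0 : ℝ)..π, (1 / 2 * cos (2 * (((n : ℤ)) : ℝ) * α)
          - 1 / 4 * cos (2 * (((n : ℤ) + 1 : ℤ) : ℝ) * α)
          - 1 / 4 * cos (2 * (((n : ℤ) - 1 : ℤ) : ℝ) * α)) := by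
    apply intervalIntegral.integral_congr
    intro α _
    have e1 : 2 * (((n : ℤ) + 1 : ℤ) : ℝ) * α = 2 * n * α + 2 * α := by push_cast; ring
    have e2 : 2 * (((n : ℤ) - 1 : ℤ) : ℝ) * α = 2 * n * α - 2 * α := by push_cast; ring
    have e3 : 2 * ((n : ℤ) : ℝ) * α = 2 * n * α := by push_cast; ring
    simp only [e1, e2, e3]
    rw [cos_add, cos_sub, Real.cos_two_mul]
    have hc : cos α ^ 2 = 1 - sin α ^ 2 := by
      have := Real.sin_sq_add_cos_sq α
      linarith
    rw [hc]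
    ring
  rw [h1, intervalIntegral.integral_sub, intervalIntegral.integral_sub,
    intervalIntegral.integral_const_mul, intervalIntegral.integral_const_mul,
    intervalIntegral.integral_const_mul, int_cos, int_cos, int_cos]
  · unfold nu
    rcases Nat.eq_zero_or_pos n with rfl | hn
    · norm_num
      ring
    · rcases Nat.lt_or_ge 1 n with h2 | h2
      · rw [if_neg (by omega), if_neg (by omega), if_neg (by omega), if_neg (by omega),
          if_neg (by omega)]
        ring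
      · obtain rfl : n = 1 := by omega
        norm_num
        ring
  all_goals first
    | exact hI _
    | (apply Continuous.intervalIntegrable; fun_prop)

/-- closed form of the `ν` sums. -/
theorem S_nu (e : ℝ) (m : ℕ) : S nu e (m + 1) = π / 4 * ((e + m) ^ 2 + e ^ 2 + m) := by
  induction m with
  | zero =>
    rw [S_succ]
    simp [S, nu]
    ring
  | succ m ih =>
    rw [S_succ, ih]
    have e1 : ∑ n ∈ Finset.range (m + 1), (e + ((m + 1 : ℕ) : ℝ) - 1 - n) * nu (n + 1) =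
        (e + m) * (-(π / 4)) := by
      rw [Finset.sum_eq_single 0]
      · simp [nu]
        ring
      · intro b _ hb
        have : nu (b + 1) = 0 := by
          unfold nu
          rw [if_neg (by omega), if_neg (by omega)]
        rw [this, mul_zero]
      · intro h
        exact absurd (Finset.mem_range.2 (Nat.succ_pos m)) h
    rw [e1]
    have e2 : nu 0 = π / 2 := by simp [nu]
    rw [e2]
    push_cast
    ring

theorem S_tau (e : ℝ) (he0 : 0 ≤ e) (he1 : e ≤ 1) (m : ℕ) :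
    2 * e / 15 * ((m : ℝ) * (2 * e + m + 1)) ≤ S tau e (m + 1) := by
  induction m with
  | zero =>
    rw [S_succ, tau_zero]
    simp [S]
  | succ m ih =>
    rw [S_succ, tau_zero]
    have h1 := R_ge e he0 he1 m
    have e1 : ∀ n ∈ Finset.range (m + 1), (e + ((m + 1 : ℕ) : ℝ) - 1 - n) * tau (n + 1) =
        (e + m - n) * tau (n + 1) := by
      intro n _; push_cast; ring
    rw [Finset.sum_congr rfl e1]
    push_cast
    have h2 : 0 ≤ e + ((m : ℝ) + 1) := by positivity
    nlinarith [mul_le_mul_of_nonneg_left h1 h2]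

/-- the coefficients `a_l`. -/
noncomputable def aa (k l : ℕ) : ℝ := ((k : ℝ) - 1) / 2 - l

theorem normsq (k : ℕ) (α : ℝ) : ‖Vk k α‖ ^ 2 =
    16 * ∑ i ∈ Finset.range (k / 2), ∑ j ∈ Finset.range (k / 2),
      aa k i * aa k j * cos (2 * (Nat.dist i j : ℕ) * α) := by
  have hexp : ∀ j : ℕ, Complex.exp (-(Complex.I * (((2 * j + 1 : ℕ) : ℂ) * (α : ℂ)))) =
      ((cos ((2 * j + 1 : ℕ) * α) : ℝ) : ℂ) - Complex.I * ((sin ((2 * j + 1 : ℕ) * α) : ℝ) : ℂ) := by
    intro j
    have e : -(Complex.I * (((2 * j + 1 : ℕ) : ℂ) * (α : ℂ))) =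
        (-(((2 * j + 1 : ℕ) : ℂ) * (α : ℂ))) * Complex.I := by ring
    rw [e, Complex.exp_mul_I, Complex.cos_neg, Complex.sin_neg]
    push_cast
    ring
  have e1 : Vk k α = 4 * (((∑ j ∈ Finset.range (k / 2), aa k j * cos ((2 * j + 1 : ℕ) * α) : ℝ) : ℂ)
      - Complex.I * ((∑ j ∈ Finset.range (k / 2), aa k j * sin ((2 * j + 1 : ℕ) * α) : ℝ) : ℂ)) := by
    unfold Vk aa
    congr 1
    simp only [hexp, Complex.ofReal_sum, Finset.mul_sum, ← Finset.sum_sub_distrib]
    apply Finset.sum_congr rfl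
    intro j _
    push_cast
    ring
  set A := ∑ j ∈ Finset.range (k / 2), aa k j * cos ((2 * j + 1 : ℕ) * α) with hA
  set B := ∑ j ∈ Finset.range (k / 2), aa k j * sin ((2 * j + 1 : ℕ) * α) with hB
  have e2 : ‖Vk k α‖ ^ 2 = 16 * (A ^ 2 + B ^ 2) := by
    rw [e1, ← Complex.normSq_eq_norm_sq, Complex.normSq_apply]
    simp
    ring
  rw [e2, hA, hB, sq, sq, Finset.sum_mul_sum, Finset.sum_mul_sum, ← Finset.sum_add_distrib]
  congr 1
  apply Finset.sum_congr rfl
  intro i _
  rw [← Finset.sum_add_distrib]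
  apply Finset.sum_congr rfl
  intro k _
  have e3 : cos (2 * (Nat.dist i k : ℕ) * α) =
      cos ((2 * i + 1 : ℕ) * α) * cos ((2 * k + 1 : ℕ) * α) +
      sin ((2 * i + 1 : ℕ) * α) * sin ((2 * k + 1 : ℕ) * α) := by
    rw [← cos_sub]
    rcases le_total i k with h | h
    · rw [Nat.dist_eq_sub_of_le h]
      rw [← cos_neg]
      congr 1
      rw [Nat.cast_sub h]
      push_cast
      ring
    · rw [Nat.dist_comm, Nat.dist_eq_sub_of_le h]
      congr 1
      rw [Nat.cast_sub h]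
      push_cast
      ring
  rw [e3]
  ring

/-- the integral as the double sum. -/
theorem int_S (k : ℕ) (w : ℝ → ℝ) (hw : Continuous w) (f : ℕ → ℝ)
    (hf : ∀ n : ℕ, ∫ α in (0 : ℝ)..π, cos (2 * n * α) * w α = f n) (e : ℝ)
    (he : ∀ i : ℕ, i < k / 2 → aa k (k / 2 - 1 - i) = e + i) :
    ∫ α in (0 : ℝ)..π, ‖Vk k α‖ ^ 2 * w α = 16 * S f e (k / 2) := by
  have e0 : ∀ α : ℝ, ‖Vk k α‖ ^ 2 * w α =
      ∑ i ∈ Finset.range (k / 2), ∑ j ∈ Finset.range (k / 2),
        (16 * (aa k i * aa k j)) * (cos (2 * (Nat.dist i j : ℕ) * α) * w α) := by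
    intro α
    rw [normsq, Finset.mul_sum, Finset.sum_mul]
    apply Finset.sum_congr rfl
    intro i _
    rw [Finset.mul_sum, Finset.sum_mul]
    apply Finset.sum_congr rfl
    intro k _
    ring
  simp only [e0]
  have hc : ∀ i j : ℕ, Continuous (fun α : ℝ => (16 * (aa k i * aa k j)) *
          (cos (2 * (Nat.dist i j : ℕ) * α) * w α)) := by
    intro i j
    fun_prop
  rw [intervalIntegral.integral_finsetSum
    (fun i _ => (continuous_finsetSum _ (fun k _ => hc i k)).intervalIntegrable _ _)]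
  have e2 : ∀ i ∈ Finset.range (k / 2), ∫ α in (0 : ℝ)..π, ∑ j ∈ Finset.range (k / 2),
        (16 * (aa k i * aa k j)) * (cos (2 * (Nat.dist i j : ℕ) * α) * w α) =
      ∑ j ∈ Finset.range (k / 2), 16 * (aa k i * aa k j * f (Nat.dist i j)) := by
    intro i _
    rw [intervalIntegral.integral_finsetSum (fun j _ => (hc i j).intervalIntegrable _ _)]
    apply Finset.sum_congr rfl
    intro j _
    rw [intervalIntegral.integral_const_mul, hf]
    ring
  rw [Finset.sum_congr rfl e2]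
  unfold S
  rw [Finset.mul_sum, ← Finset.sum_range_reflect]
  apply Finset.sum_congr rfl
  intro i hi
  have hi' := Finset.mem_range.1 hi
  rw [Finset.mul_sum, ← Finset.sum_range_reflect]
  apply Finset.sum_congr rfl
  intro j hj
  have hj' := Finset.mem_range.1 hj
  have e5 : Nat.dist (k / 2 - 1 - i) (k / 2 - 1 - j) = Nat.dist i j := by
    unfold Nat.dist; omega
  rw [he i hi', he j hj', e5]

/-- the last coefficient. -/
noncomputable def ee (k : ℕ) : ℝ := if k % 2 = 0 then 1 / 2 else 1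

theorem ee_cases (k : ℕ) : ee k = 1 / 2 ∨ ee k = 1 := by
  unfold ee
  split_ifs
  · exact Or.inl rfl
  · exact Or.inr rfl

theorem aa_ee (k i : ℕ) (hi : i < k / 2) : aa k (k / 2 - 1 - i) = ee k + i := by
  unfold aa ee
  have h1 : ((k / 2 - 1 - i : ℕ) : ℝ) = ((k / 2 : ℕ) : ℝ) - 1 - i := by
    have : (k / 2 - 1 - i) + 1 + i = k / 2 := by omega
    have h3 := congrArg (fun x : ℕ => (x : ℝ)) this
    push_cast at h3
    linarith
  rw [h1]
  have h2 : (k : ℝ) = 2 * ((k / 2 : ℕ) : ℝ) + ((k % 2 : ℕ) : ℝ) := by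
    have := Nat.div_add_mod k 2
    exact_mod_cast this.symm
  split_ifs with h
  · rw [h] at h2
    push_cast at h2 ⊢
    linarith
  · have h3 : k % 2 = 1 := by omega
    rw [h3] at h2
    push_cast at h2 ⊢
    linarith

theorem Uk_eq (k : ℕ) : Uk k = 16 * S nu (ee k) (k / 2) := by
  unfold Uk
  exact int_S k (fun α => sin α ^ 2) (by fun_prop) nu int_nu (ee k) (fun i hi => aa_ee k i hi)

theorem Tk_eq (hTAU : SpecTAU) (k : ℕ) : Tk k = 16 * S tau (ee k) (k / 2) := by
  unfold Tk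
  exact int_S k (fun α => kap * sin α ^ 2 - sin α ^ 3) (by fun_prop) tau hTAU (ee k)
    (fun i hi => aa_ee k i hi)

end COEM

open COEM in
theorem specCOE (hTAU : SpecTAU) : SpecCOE := by
  have he0 : ∀ k, 0 ≤ ee k := by
    intro k; rcases ee_cases k with h | h <;> rw [h] <;> norm_num
  have he1 : ∀ k, ee k ≤ 1 := by
    intro k; rcases ee_cases k with h | h <;> rw [h] <;> norm_num
  have hV3 : ∀ α, ‖Vk 3 α‖ ^ 2 = 16 := by
    intro α
    rw [normsq]
    simp [aa, Nat.dist]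
    norm_num
  refine ⟨?_, ?_, ?_, ?_, ?_, ?_, ?_, ?_, ?_, ?_⟩
  · intro k
    rw [Tk_eq hTAU]
    rcases Nat.eq_zero_or_pos (k / 2) with h | h
    · rw [h]; simp [S]
    · obtain ⟨m, hm⟩ : ∃ m, k / 2 = m + 1 := ⟨k / 2 - 1, by omega⟩
      rw [hm]
      have h1 := S_tau (ee k) (he0 k) (he1 k) m
      have h2 : 0 ≤ 2 * ee k / 15 * ((m : ℝ) * (2 * ee k + m + 1)) := by
        have := he0 k
        positivity
      linarith
  · intro k hk
    rw [Tk_eq hTAU, Uk_eq]
    obtain ⟨n, hn⟩ : ∃ n, k / 2 = (n + 1) + 1 := ⟨k / 2 - 2, by omega⟩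
    rw [hn, S_nu]
    have h1 := S_tau (ee k) (he0 k) (he1 k) (n + 1)
    push_cast at h1 ⊢
    have hpi : π < 3.15 := Real.pi_lt_d2
    have hn0 : (0 : ℝ) ≤ n := Nat.cast_nonneg n
    rcases ee_cases k with h | h
    · rw [h] at h1 ⊢
      nlinarith [mul_nonneg hn0 hn0, mul_nonneg hn0 (sub_nonneg.2 hpi.le),
        mul_nonneg (mul_nonneg hn0 hn0) (sub_nonneg.2 hpi.le)]
    · rw [h] at h1 ⊢
      nlinarith [mul_nonneg hn0 hn0, mul_nonneg hn0 (sub_nonneg.2 hpi.le),
        mul_nonneg (mul_nonneg hn0 hn0) (sub_nonneg.2 hpi.le)]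
  · rw [Uk_eq]; simp [S]
  · rw [Uk_eq]; simp [S]
  · rw [Uk_eq, show (2 : ℕ) / 2 = 0 + 1 from rfl, S_nu]
    simp [ee]
    ring
  · rw [Uk_eq, show (3 : ℕ) / 2 = 0 + 1 from rfl, S_nu]
    simp [ee]
    ring
  · intro k hk
    rw [Uk_eq]
    have hpi := Real.pi_pos
    rcases Nat.lt_or_ge k 4 with h4 | h4
    · obtain rfl : k = 3 := by omega
      rw [show (3 : ℕ) / 2 = 0 + 1 from rfl, S_nu]
      simp [ee]
      linarith
    · obtain ⟨n, hn⟩ : ∃ n, k / 2 = (n + 1) + 1 := ⟨k / 2 - 2, by omega⟩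
      rw [hn, S_nu]
      push_cast
      have hn0 : (0 : ℝ) ≤ n := Nat.cast_nonneg n
      rcases ee_cases k with h | h
      · rw [h]
        have : (2 : ℝ) ≤ (1 / 2 + ((n : ℝ) + 1)) ^ 2 + (1 / 2) ^ 2 + ((n : ℝ) + 1) := by nlinarith
        nlinarith [mul_le_mul_of_nonneg_left this hpi.le]
      · rw [h]
        have : (2 : ℝ) ≤ (1 + ((n : ℝ) + 1)) ^ 2 + (1 : ℝ) ^ 2 + ((n : ℝ) + 1) := by nlinarith
        nlinarith [mul_le_mul_of_nonneg_left this hpi.le]
  · intro k
    unfold Uk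
    apply intervalIntegral.integral_nonneg Real.pi_pos.le
    intro α _
    positivity
  · simp only [hV3]
    rw [intervalIntegral.integral_const_mul]
    have : ∫ α in (0 : ℝ)..π, sin α ^ 4 = 3 * π / 8 := by
      have h := integral_sin_pow (a := 0) (b := π) 2
      have h2 := integral_sin_pow (a := 0) (b := π) 0
      simp at h h2
      rw [h, h2]
      ring
    rw [this]
    ring
  · intro k
    apply intervalIntegral.integral_nonneg Real.pi_pos.le
    intro α _
    positivity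

end Pool.Agent.Lib.MP_084b88_gt.CW
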