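import Mathlib

/-!
# MP_084b88_gt (Chakerian): definitions for the project CW

Plane: the type `ℝ × ℝ` with the product (Lebesgue) measure `volume`.
Space: `EuclideanSpace ℝ (Fin 3)`.
-/

set_option autoImplicit false

open MeasureTheory Set Real
open scoped Pointwise InnerProductSpace

namespace Pool.Agent.Lib.MP_084b88_gt.CW

/-- The Euclidean 3-space. -/
abbrev E3 : Type := EuclideanSpace ℝ (Fin 3)

/-! ### Support functions in a real inner product space -/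

/-- Support function of `M` (not normalised): `sup_{y in M} <x,y>`. -/
noncomputable def HS {V : Type} [NormedAddCommGroup V] [InnerProductSpace ℝ V]
    (M : Set V) (x : V) : ℝ :=
  sSup ((fun y => ⟪x, y⟫_ℝ) '' M)

/-! ### The plane -/

/-- The coordinate of `p` in the direction `u_θ = (cos θ, sin θ)`. -/
noncomputable def dotu (θ : ℝ) (p : ℝ × ℝ) : ℝ := p.1 * cos θ + p.2 * sin θ

/-- Support function of a planar set. -/
noncomputable def sup2 (Q : Set (ℝ × ℝ)) (θ : ℝ) : ℝ := sSup (dotu θ '' Q)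

/-- Width of a planar set in direction `θ`. -/
noncomputable def wid (Q : Set (ℝ × ℝ)) (θ : ℝ) : ℝ := sup2 Q θ + sup2 Q (θ + π)

/-- The middle of the projection interval in direction `θ`. -/
noncomputable def mid (Q : Set (ℝ × ℝ)) (θ : ℝ) : ℝ := (sup2 Q θ - sup2 Q (θ + π)) / 2

/-- Area. -/
noncomputable def area (Q : Set (ℝ × ℝ)) : ℝ := (volume Q).toReal

/-- Half perimeter (by Cauchy's formula): `V_1(Q) = (1/2) ∫_0^π w`. -/
noncomputable def len (Q : Set (ℝ × ℝ)) : ℝ := (1 / 2) * ∫ θ in (0 : ℝ)..π, wid Q θ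

/-- The disc of radius `ρ` in `ℝ × ℝ`. -/
def disc (ρ : ℝ) : Set (ℝ × ℝ) := {p | p.1 ^ 2 + p.2 ^ 2 ≤ ρ ^ 2}

/-- `q_θ(Q) = ∫_Q √(1 - τ²)`, `τ` the position in direction `θ` normalised to `[-1,1]`. -/
noncomputable def qf (Q : Set (ℝ × ℝ)) (θ : ℝ) : ℝ :=
  ∫ p in Q, √(1 - ((dotu θ p - mid Q θ) / (wid Q θ / 2)) ^ 2)

/-- The planar inequality (P1) for `Q`:
`(2π)² avg(√B q) · avg(q/√B) ≥ (2π)² (8/(3π))² area²`, with `B = wid/2`. -/
def P1 (Q : Set (ℝ × ℝ)) : Prop :=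
  (16 / 3) ^ 2 * (area Q) ^ 2 ≤
    (∫ θ in (0 : ℝ)..(2 * π), √(wid Q θ / 2) * qf Q θ) *
    (∫ θ in (0 : ℝ)..(2 * π), qf Q θ / √(wid Q θ / 2))

/-! ### Orthogonal frames of 3-space -/

/-- The orthogonal group (as the unitary group of real matrices). -/
abbrev O3 : Type := ↥(unitary (Matrix (Fin 3) (Fin 3) ℝ))

noncomputable instance : MeasurableSpace O3 := borel O3
instance : BorelSpace O3 := ⟨rfl⟩

instance instSCM : SecondCountableTopology (Matrix (Fin 3) (Fin 3) ℝ) :=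
  inferInstanceAs (SecondCountableTopology (Fin 3 → Fin 3 → ℝ))

instance : SecondCountableTopology O3 :=
  TopologicalSpace.Subtype.secondCountableTopology _

theorem O3_entry_le (R : O3) (i j : Fin 3) : |R.1 i j| ≤ 1 := by
  have h : (star R.1 * R.1) = 1 := (Unitary.mem_iff.1 R.2).1
  have h2 := congrFun (congrFun h j) j
  simp only [Matrix.mul_apply, Matrix.star_apply, star_trivial, Matrix.one_apply_eq,
    Fin.sum_univ_three] at h2
  rw [abs_le_one_iff_mul_self_le_one]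
  fin_cases i <;> simp <;>
    nlinarith [mul_self_nonneg (R.1 0 j), mul_self_nonneg (R.1 1 j), mul_self_nonneg (R.1 2 j)]

instance : CompactSpace O3 := by
  have hcl : IsClosed ((unitary (Matrix (Fin 3) (Fin 3) ℝ)) : Set (Matrix (Fin 3) (Fin 3) ℝ)) :=
    isClosed_unitary
  have hK : IsCompact (Set.univ.pi (fun _ : Fin 3 => Set.univ.pi (fun _ : Fin 3 => Icc (-1:ℝ) 1))) :=
    isCompact_univ_pi (fun _ => isCompact_univ_pi (fun _ => isCompact_Icc))
  have h : IsCompact ((unitary (Matrix (Fin 3) (Fin 3) ℝ)) : Set (Matrix (Fin 3) (Fin 3) ℝ)) :=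
    IsCompact.of_isClosed_subset (X := Fin 3 → Fin 3 → ℝ) hK hcl (by
      intro A hA
      simp only [Set.mem_pi, Set.mem_univ, true_implies, mem_Icc]
      intro i j
      exact abs_le.1 (O3_entry_le ⟨A, hA⟩ i j))
  exact isCompact_iff_compactSpace.1 h

/-- `i`-th column of `R`. -/
noncomputable def col (R : O3) (i : Fin 3) : E3 := WithLp.toLp 2 (fun j => R.1 j i)

/-- First two coordinates in the frame `R`. -/
noncomputable def cd (R : O3) (x : E3) : ℝ × ℝ := (⟪col R 0, x⟫_ℝ, ⟪col R 1, x⟫_ℝ)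

/-- Coordinates in the frame `R`. -/
noncomputable def coord (R : O3) (x : E3) : (ℝ × ℝ) × ℝ := (cd R x, ⟪col R 2, x⟫_ℝ)

/-- Projection of `K` along `col R 2`, as a planar set. -/
noncomputable def pr (R : O3) (K : Set E3) : Set (ℝ × ℝ) := cd R '' K

/-- Section of `K` by the plane `<col R 2, x> = s`, as a planar set. -/
noncomputable def sec (R : O3) (s : ℝ) (K : Set E3) : Set (ℝ × ℝ) :=
  cd R '' (K ∩ {x | ⟪col R 2, x⟫_ℝ = s})

/-- `μ` is the bi-invariant probability measure on `O3`. -/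
def HaarO (μ : Measure O3) : Prop :=
  IsProbabilityMeasure μ ∧ (∀ S : O3, MeasurePreserving (fun R : O3 => R * S) μ μ) ∧
    (∀ S : O3, MeasurePreserving (fun R : O3 => S * R) μ μ)

/-- The matrix rotating the first two columns: `col (R * rot θ) 0 = cos θ col R 0 + sin θ col R 1`,
`col (R * rot θ) 1 = - sin θ col R 0 + cos θ col R 1`, `col (R * rot θ) 2 = col R 2`. -/
noncomputable def rotM (θ : ℝ) : Matrix (Fin 3) (Fin 3) ℝ :=
  !![cos θ, -sin θ, 0; sin θ, cos θ, 0; 0, 0, 1]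

/-- The matrix with `col (R * cyc θ) 0 = col R 2`, `col (R * cyc θ) 1 = cos θ col R 0 + sin θ col R 1`,
`col (R * cyc θ) 2 = - sin θ col R 0 + cos θ col R 1`. -/
noncomputable def cycM (θ : ℝ) : Matrix (Fin 3) (Fin 3) ℝ :=
  !![0, cos θ, -sin θ; 0, sin θ, cos θ; 1, 0, 0]

theorem rotM_mem (θ : ℝ) : rotM θ ∈ unitary (Matrix (Fin 3) (Fin 3) ℝ) := by
  have h := sin_sq_add_cos_sq θ
  rw [Unitary.mem_iff]
  constructor <;>
  · ext i j
    fin_cases i <;> fin_cases j <;>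
      simp [rotM, Matrix.mul_apply, Fin.sum_univ_three, Matrix.star_apply] <;> nlinarith

theorem cycM_mem (θ : ℝ) : cycM θ ∈ unitary (Matrix (Fin 3) (Fin 3) ℝ) := by
  have h := sin_sq_add_cos_sq θ
  rw [Unitary.mem_iff]
  constructor <;>
  · ext i j
    fin_cases i <;> fin_cases j <;>
      simp [cycM, Matrix.mul_apply, Fin.sum_univ_three, Matrix.star_apply] <;> nlinarith

/-- `rotM θ` as an element of `O3`. -/
noncomputable def rot (θ : ℝ) : O3 := ⟨rotM θ, rotM_mem θ⟩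
/-- `cycM θ` as an element of `O3`. -/
noncomputable def cyc (θ : ℝ) : O3 := ⟨cycM θ, cycM_mem θ⟩

/-- The hypothesis on sections of the frozen statement. -/
def HSEC (K : Set E3) (c : ℝ) : Prop :=
  ∀ H : AffineSubspace ℝ (EuclideanSpace ℝ (Fin 3)),
        Module.finrank ℝ H.direction = 2 → (∃ x ∈ interior K, x ∈ H) →
        ∀ a1 a2 : ℝ,
          (∀ t : ℝ, 0 ≤ t →
            (volume ((K ∩ (H : Set (EuclideanSpace ℝ (Fin 3)))) +
              Metric.closedBall (0 : EuclideanSpace ℝ (Fin 3)) t)).toReal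
              = 2 * a2 * t + Real.pi * a1 * t ^ 2 + 4 / 3 * Real.pi * t ^ 3) →
          c * a1 ^ 2 ≤ Real.pi * a2

/-- `V1`, `V2` are the coefficients of the Steiner polynomial of `K`. -/
def STEI (K : Set E3) (V1 V2 : ℝ) : Prop :=
  ∀ t : ℝ, 0 ≤ t →
        (volume (K + Metric.closedBall (0 : EuclideanSpace ℝ (Fin 3)) t)).toReal
          = (volume K).toReal + 2 * V2 * t + Real.pi * V1 * t ^ 2 + 4 / 3 * Real.pi * t ^ 3

/-! ### Functions for the planar theorem -/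

/-- `κ = 8/(3π)`. -/
noncomputable def kap : ℝ := 8 / (3 * π)
/-- `F(x) = √(1-x²) - κ`. -/
noncomputable def FF (x : ℝ) : ℝ := √(1 - x ^ 2) - kap
/-- `Q' = F`, `Q(0) = 0`. -/
noncomputable def QF (x : ℝ) : ℝ := ∫ y in (0 : ℝ)..x, FF y
/-- `QQ' = Q`, `QQ(0) = 0`. -/
noncomputable def QQF (x : ℝ) : ℝ := ∫ y in (0 : ℝ)..x, QF y

/-- `U_h(θ,τ) = inf_{0<α<π} (h(θ+α) - (τ + (h(θ)-h(θ+π))/2) cos α)/sin α`: upper boundary of the
body with support function `h` over the point of the line in direction `θ` with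
coordinate `τ + mid`. -/
noncomputable def Uf (h : ℝ → ℝ) (θ τ : ℝ) : ℝ :=
  ⨅ α : Ioo (0 : ℝ) π, (h (θ + α) - (τ + (h θ - h (θ + π)) / 2) * cos α) / sin α

/-- Odd trigonometric polynomial `Re ∑_{m<M} c_m e^{i(2m+1)θ}`. -/
noncomputable def gp (M : ℕ) (c : ℕ → ℂ) (θ : ℝ) : ℝ :=
  (∑ m ∈ Finset.range M, c m * Complex.exp (Complex.I * ((2 * m + 1 : ℕ) * θ))).re

/-- Coefficients of the derivative: `(gp M c)' = gp M (dc c)`. -/
noncomputable def dc (c : ℕ → ℂ) (m : ℕ) : ℂ := c m * (Complex.I * ((2 * m + 1 : ℕ) : ℂ))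

/-- `W_m(α) = 4 ∑_{j<m} (m-j) e^{-i(2j+1)α}`. -/
noncomputable def Wm (m : ℕ) (α : ℝ) : ℂ :=
  4 * ∑ j ∈ Finset.range m, ((m : ℂ) - j) * Complex.exp (-(Complex.I * ((2 * j + 1 : ℕ) * α)))

/-- `ψ(θ,α) = Re ∑ c_m e^{i(2m+1)(θ+α)} W_m(α)`; the identity
`g(θ+α) cos α - g'(θ+α) sin α - g(θ) = sin² α ψ(θ,α)` is SpecWMA. -/
noncomputable def psi (M : ℕ) (c : ℕ → ℂ) (θ α : ℝ) : ℝ :=
  (∑ m ∈ Finset.range M,
    c m * Complex.exp (Complex.I * ((2 * m + 1 : ℕ) * ((θ + α : ℝ) : ℂ))) * Wm m α).re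

end Pool.Agent.Lib.MP_084b88_gt.CW
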