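import Pool.Agent.Lib.MP_084b88_gt.CW.SpecB

/-!
# MP_084b88_gt, project CW, second part (bodies of nearly constant width): definitions
-/

set_option autoImplicit false

open MeasureTheory Set Real
open scoped Pointwise InnerProductSpace

namespace Pool.Agent.Lib.MP_084b88_gt.CW

/-- General trigonometric polynomial `Re ∑_{k<M} c_k e^{ikθ}`. -/
noncomputable def hp (M : ℕ) (c : ℕ → ℂ) (θ : ℝ) : ℝ :=
  (∑ k ∈ Finset.range M, c k * Complex.exp (Complex.I * ((k : ℂ) * (θ : ℂ)))).re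

/-- Coefficients of the derivative. -/
noncomputable def dk (c : ℕ → ℂ) (k : ℕ) : ℂ := c k * (Complex.I * (k : ℂ))

/-- Even modes. -/
noncomputable def evc (c : ℕ → ℂ) (k : ℕ) : ℂ := if k % 2 = 0 then c k else 0
/-- Odd modes. -/
noncomputable def odc (c : ℕ → ℂ) (k : ℕ) : ℂ := if k % 2 = 1 then c k else 0

/-- `V_k(α) = 4 ∑_{l < k/2} ((k-1)/2 - l) e^{-i(2l+1)α}`. -/
noncomputable def Vk (k : ℕ) (α : ℝ) : ℂ :=
  4 * ∑ l ∈ Finset.range (k / 2),
    (((k : ℂ) - 1) / 2 - (l : ℂ)) * Complex.exp (-(Complex.I * (((2 * l + 1 : ℕ) : ℂ) * (α : ℂ))))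

/-- `Ψ(t,α) = Re ∑_k c_k e^{ik(t+α)} V_k(α)`. -/
noncomputable def Ps (M : ℕ) (c : ℕ → ℂ) (t α : ℝ) : ℝ :=
  (∑ k ∈ Finset.range M,
    c k * Complex.exp (Complex.I * ((k : ℂ) * ((t + α : ℝ) : ℂ))) * Vk k α).re

/-- Half width of the body with support function `h`. -/
noncomputable def Bh (h : ℝ → ℝ) (t : ℝ) : ℝ := (h t + h (t + π)) / 2
/-- Middle. -/
noncomputable def gh (h : ℝ → ℝ) (t : ℝ) : ℝ := (h t - h (t + π)) / 2

/-- Upper boundary over the point with relative position `τ ∈ [-1,1]` in direction `t`. -/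
noncomputable def UB (h : ℝ → ℝ) (t τ : ℝ) : ℝ :=
  ⨅ α : Ioo (0 : ℝ) π, (h (t + α) - (gh h t + τ * Bh h t) * cos α) / sin α

/-- `∫_P G(τ) dp` in terms of the support function (see GSL). -/
noncomputable def IG (G : ℝ → ℝ) (h : ℝ → ℝ) (t : ℝ) : ℝ :=
  Bh h t * ∫ τ in Ioo (-1 : ℝ) 1, (UB h t τ + UB h (t + π) (-τ)) * G τ

/-- Remove the first Fourier mode. -/
noncomputable def g3f (g : ℝ → ℝ) (t : ℝ) : ℝ :=
  g t - ((1 / π) * ∫ s in (0 : ℝ)..(2 * π), g s * cos s) * cos t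
    - ((1 / π) * ∫ s in (0 : ℝ)..(2 * π), g s * sin s) * sin t

/-- `m_t(P) = ∫_P τ dp`, `τ` the position in direction `t` normalised to `[-1,1]`. -/
noncomputable def mf (P : Set (ℝ × ℝ)) (t : ℝ) : ℝ :=
  ∫ p in P, (dotu t p - mid P t) / (wid P t / 2)

end Pool.Agent.Lib.MP_084b88_gt.CW
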