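import Pool.Agent.Lib.MP_084b88_gt.CW.SpecA

/-!
# HSB: basic facts on support functions
-/

set_option autoImplicit false

open MeasureTheory Set Real Filter Topology
open scoped Pointwise InnerProductSpace

namespace Pool.Agent.Lib.MP_084b88_gt.CW

namespace HSBM

variable {V : Type} [NormedAddCommGroup V] [InnerProductSpace ℝ V]

lemma cont (x : V) : Continuous (fun y : V => ⟪x, y⟫_ℝ) := by fun_prop

lemma bdd {M : Set V} (hM : IsCompact M) (x : V) : BddAbove ((fun y => ⟪x, y⟫_ℝ) '' M) :=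
  (hM.image (cont x)).bddAbove

lemma le_HS {M : Set V} (hM : IsCompact M) (x : V) {y : V} (hy : y ∈ M) : ⟪x, y⟫_ℝ ≤ HS M x :=
  le_csSup (bdd hM x) (mem_image_of_mem _ hy)

lemma HS_le {M : Set V} (hM : M.Nonempty) (x : V) {c : ℝ} (h : ∀ y ∈ M, ⟪x, y⟫_ℝ ≤ c) :
    HS M x ≤ c := by
  apply csSup_le (hM.image _)
  rintro _ ⟨y, hy, rfl⟩
  exact h y hy

lemma add {M N : Set V} (hM : IsCompact M) (hN : IsCompact N) (hM' : M.Nonempty)
    (hN' : N.Nonempty) (x : V) : HS (M + N) x = HS M x + HS N x := by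
  have e : (fun y => ⟪x, y⟫_ℝ) '' (M + N) = (fun y => ⟪x, y⟫_ℝ) '' M + (fun y => ⟪x, y⟫_ℝ) '' N :=
    Set.image_add (innerSL ℝ x)
  unfold HS
  rw [e, csSup_add (hM'.image _) (bdd hM x) (hN'.image _) (bdd hN x)]

lemma ball (ρ : ℝ) (hρ : 0 ≤ ρ) (x : V) : HS (Metric.closedBall (0 : V) ρ) x = ρ * ‖x‖ := by
  have hle : ∀ y ∈ Metric.closedBall (0 : V) ρ, ⟪x, y⟫_ℝ ≤ ρ * ‖x‖ := by
    intro y hy
    rw [mem_closedBall_zero_iff] at hy
    have h := real_inner_le_norm x y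
    have h2 := mul_le_mul_of_nonneg_left hy (norm_nonneg x)
    linarith
  apply le_antisymm
  · exact HS_le ⟨0, Metric.mem_closedBall_self hρ⟩ x hle
  · have hb : BddAbove ((fun y => ⟪x, y⟫_ℝ) '' Metric.closedBall (0 : V) ρ) := by
      refine ⟨ρ * ‖x‖, ?_⟩
      rintro _ ⟨y, hy, rfl⟩
      exact hle y hy
    rcases eq_or_ne x 0 with rfl | hx
    · have h := le_csSup hb (mem_image_of_mem _ (Metric.mem_closedBall_self hρ))
      simp only [inner_zero_right] at h
      rw [norm_zero, mul_zero]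
      exact h
    · have hn : ‖x‖ ≠ 0 := norm_ne_zero_iff.2 hx
      have hy : (ρ / ‖x‖) • x ∈ Metric.closedBall (0 : V) ρ := by
        rw [mem_closedBall_zero_iff, norm_smul, Real.norm_of_nonneg (by positivity)]
        field_simp
        exact le_rfl
      have h := le_csSup hb (mem_image_of_mem _ hy)
      simp only [inner_smul_right, real_inner_self_eq_norm_sq] at h
      have e : ρ / ‖x‖ * ‖x‖ ^ 2 = ρ * ‖x‖ := by
        field_simp
      rw [e] at h
      exact h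

lemma seg (w x : V) : HS (segment ℝ (-w) w) x = |⟪x, w⟫_ℝ| := by
  have hle : ∀ y ∈ segment ℝ (-w) w, ⟪x, y⟫_ℝ ≤ |⟪x, w⟫_ℝ| := by
    rintro y ⟨a, b, ha, hb, hab, rfl⟩
    rw [inner_add_right, inner_smul_right, inner_smul_right, inner_neg_right]
    have h1 := le_abs_self ⟪x, w⟫_ℝ
    have h2 := neg_abs_le ⟪x, w⟫_ℝ
    nlinarith
  have hb : BddAbove ((fun y => ⟪x, y⟫_ℝ) '' segment ℝ (-w) w) := by
    refine ⟨|⟪x, w⟫_ℝ|, ?_⟩
    rintro _ ⟨y, hy, rfl⟩
    exact hle y hy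
  apply le_antisymm
  · exact HS_le ⟨w, right_mem_segment ℝ _ _⟩ x hle
  · rw [abs_le']
    constructor
    · exact le_csSup hb (mem_image_of_mem _ (right_mem_segment ℝ _ _))
    · have h := le_csSup hb (mem_image_of_mem _ (left_mem_segment ℝ (-w) w))
      simp only [inner_neg_right] at h
      exact h

lemma sub [FiniteDimensional ℝ V] {M N : Set V} (hM : IsCompact M) (hN : IsCompact N)
    (hNc : Convex ℝ N) (hN' : N.Nonempty) (h : ∀ x, HS M x ≤ HS N x) : M ⊆ N := by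
  have : CompleteSpace V := FiniteDimensional.complete ℝ V
  intro y hy
  by_contra hyN
  obtain ⟨f, u, h1, h2⟩ := geometric_hahn_banach_closed_point hNc hN.isClosed hyN
  set x := (InnerProductSpace.toDual ℝ V).symm f with hx
  have hf : ∀ z, ⟪x, z⟫_ℝ = f z := fun z => by
    rw [hx]
    exact InnerProductSpace.toDual_symm_apply
  have h3 : HS N x ≤ u := HS_le hN' x fun z hz => by
    rw [hf]
    exact (h1 z hz).le
  have h4 := le_HS hM x hy
  rw [hf] at h4
  have h5 := h x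
  linarith

end HSBM

open HSBM in
/-- **HSB**. -/
theorem specHSB : SpecHSB := by
  intro V _ _ _
  refine ⟨?_, ?_, ?_, ?_, ?_, ?_, ?_, ?_, ?_⟩
  · intro M N hM hN x
    exact add hM.2.1 hN.2.1 hM.2.2 hN.2.2 x
  · exact ball
  · exact seg
  · intro M N hM hN h
    exact sub hM.2.1 hN.2.1 hN.1 hN.2.2 h
  · intro M hM
    exact hM.2.1.continuous_sSup (f := fun x y : V => ⟪x, y⟫_ℝ)
      (show Continuous (fun p : V × V => ⟪p.1, p.2⟫_ℝ) by fun_prop)
  · intro M hM x y hy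
    exact le_HS hM.2.1 x hy
  · intro M N hM hN h x
    exact csSup_le_csSup (bdd hN.2.1 x) (hM.2.2.image _) (image_mono h)
  · intro M hM a x ha
    have e : (fun y => ⟪a • x, y⟫_ℝ) '' M = a • ((fun y => ⟪x, y⟫_ℝ) '' M) := by
      ext z
      simp only [Set.mem_smul_set, mem_image, real_inner_smul_left, smul_eq_mul]
      constructor
      · rintro ⟨y, hy, rfl⟩
        exact ⟨_, ⟨y, hy, rfl⟩, rfl⟩
      · rintro ⟨_, ⟨y, hy, rfl⟩, rfl⟩
        exact ⟨y, hy, rfl⟩
    unfold HS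
    rw [e, Real.sSup_smul_of_nonneg ha, smul_eq_mul]
  · intro M hM x
    obtain ⟨y, hy, h⟩ := hM.2.1.exists_sSup_image_eq hM.2.2 (cont x).continuousOn
    exact ⟨y, hy, h.symm⟩

end Pool.Agent.Lib.MP_084b88_gt.CW
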