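import Pool.Agent.Lib.MP_084b88_gt.CW.SpecB

/-!
# MP_084b88_gt, project CW: module LIM (the planar inequality for general `h = 1 + g`)
-/

set_option autoImplicit false

open MeasureTheory Set Real Filter Topology
open scoped Pointwise InnerProductSpace

namespace Pool.Agent.Lib.MP_084b88_gt.CW

theorem LIM_abs_FF {x : ℝ} : |FF x| ≤ 1 := by
  have h1 : √(1 - x ^ 2) ≤ 1 := by
    rw [Real.sqrt_le_one]
    nlinarith [sq_nonneg x]
  have h0 : 0 ≤ √(1 - x ^ 2) := Real.sqrt_nonneg _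
  have hk0 : 0 ≤ kap := by
    unfold kap
    positivity
  have hk1 : kap ≤ 1 := by
    unfold kap
    rw [div_le_one (by positivity)]
    linarith [Real.pi_gt_three]
  unfold FF
  rw [abs_le]
  constructor <;> linarith

theorem LIM_cont_FF : Continuous FF := by
  unfold FF
  exact (Real.continuous_sqrt.comp (by fun_prop)).sub continuous_const

theorem specLIM (hAPH : SpecAPH) (hUCV : SpecUCV) (hUME : SpecUME) (hSMO : SpecSMO)
    (hCAG : SpecCAG) (hGPB : SpecGPB) : SpecLIM := by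
  intro g Λ hΛ hlip hanti hcl
  -- approximation
  have happ : ∀ n : ℕ, ∃ (M : ℕ) (c : ℕ → ℂ), (∀ θ, |gp M c θ - g θ| ≤ 1 / ((n : ℝ) + 1)) ∧
      (∀ θ, |gp M (dc c) θ| ≤ Λ) ∧ (∀ θ, 0 < 1 + gp M c θ + gp M (dc (dc c)) θ) := by
    intro n
    exact hAPH g Λ hΛ hlip hanti hcl (1 / ((n : ℝ) + 1)) (by positivity)
  choose M c hM1 hM2 hM3 using happ
  -- bound of `g`
  have hg : ∀ θ, |g θ| ≤ Λ * π := by
    intro θ
    have h1 := hlip θ (θ + π)
    rw [hanti θ] at h1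
    have h2 : |θ - (θ + π)| = π := by
      rw [show θ - (θ + π) = -π by ring, abs_neg, abs_of_pos Real.pi_pos]
    rw [h2] at h1
    have h3 : |g θ - -g θ| = 2 * |g θ| := by
      rw [sub_neg_eq_add, ← two_mul, abs_mul, abs_two]
    rw [h3] at h1
    have := abs_nonneg (g θ)
    linarith
  have hΛπ : 0 ≤ Λ * π := mul_nonneg hΛ Real.pi_pos.le
  have he1 : ∀ n : ℕ, 1 / ((n : ℝ) + 1) ≤ 1 := by
    intro n
    rw [div_le_one (by positivity)]
    have : (0 : ℝ) ≤ n := Nat.cast_nonneg n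
    linarith
  have hgn : ∀ n θ, |1 + gp (M n) (c n) θ| ≤ 2 + Λ * π := by
    intro n θ
    have h1 := hM1 n θ
    have h2 := hg θ
    have h3 := he1 n
    rw [abs_le] at h1 h2 ⊢
    constructor <;> linarith [h1.1, h1.2, h2.1, h2.2]
  -- Lipschitz bound of `gp`
  have hgl : ∀ n θ θ', |gp (M n) (c n) θ - gp (M n) (c n) θ'| ≤ Λ * |θ - θ'| := by
    intro n θ θ'
    have hd := (hGPB (M n) (c n)).1
    have := Convex.norm_image_sub_le_of_norm_hasDerivWithin_le (s := Set.univ)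
      (f := gp (M n) (c n)) (f' := fun t => gp (M n) (dc (c n)) t) (C := Λ)
      (fun x _ => (hd x).hasDerivWithinAt) (fun x _ => hM2 n x) convex_univ
      (Set.mem_univ θ') (Set.mem_univ θ)
    simpa [Real.norm_eq_abs] using this
  set Λ' : ℝ := 2 + Λ * π + Λ with hΛ'
  have hΛ'0 : 0 ≤ Λ' := by rw [hΛ']; linarith
  have hΛΛ' : Λ ≤ Λ' := by rw [hΛ']; linarith
  have hA : ∀ θ, (1 + g θ) + (1 + g (θ + π)) = 2 := by
    intro θ
    rw [hanti θ]
    ring
  have hB : ∀ θ θ', |(1 + g θ) - (1 + g θ')| ≤ Λ' * |θ - θ'| := by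
    intro θ θ'
    rw [show (1 + g θ) - (1 + g θ') = g θ - g θ' by ring]
    exact (hlip θ θ').trans (mul_le_mul_of_nonneg_right hΛΛ' (abs_nonneg _))
  have hC : ∀ θ, |1 + g θ| ≤ Λ' := by
    intro θ
    have h2 := hg θ
    rw [abs_le] at h2 ⊢
    constructor <;> linarith [h2.1, h2.2]
  have hAn : ∀ n θ, (1 + gp (M n) (c n) θ) + (1 + gp (M n) (c n) (θ + π)) = 2 := by
    intro n θ
    rw [(hGPB (M n) (c n)).2.1 θ]
    ring
  have hBn : ∀ n θ θ', |(1 + gp (M n) (c n) θ) - (1 + gp (M n) (c n) θ')| ≤ Λ' * |θ - θ'| := by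
    intro n θ θ'
    rw [show (1 + gp (M n) (c n) θ) - (1 + gp (M n) (c n) θ') =
      gp (M n) (c n) θ - gp (M n) (c n) θ' by ring]
    exact (hgl n θ θ').trans (mul_le_mul_of_nonneg_right hΛΛ' (abs_nonneg _))
  have hCn : ∀ n θ, |1 + gp (M n) (c n) θ| ≤ Λ' := by
    intro n θ
    exact (hgn n θ).trans (by rw [hΛ']; linarith)
  -- convergence of `Uf`
  have hconv : ∀ θ, ∀ τ ∈ Ioo (-1 : ℝ) 1,
      Tendsto (fun n => Uf (fun t => 1 + gp (M n) (c n) t) θ τ) atTop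
        (𝓝 (Uf (fun t => 1 + g t) θ τ)) := by
    refine hUCV (fun t => 1 + g t) (fun n t => 1 + gp (M n) (c n) t) Λ'
      (fun n => 1 / ((n : ℝ) + 1)) hΛ'0 hA hB hC hAn hBn hCn ?_
      tendsto_one_div_add_atTop_nhds_zero_nat
    intro n θ
    rw [show (1 + gp (M n) (c n) θ) - (1 + g θ) = gp (M n) (c n) θ - g θ by ring]
    exact hM1 n θ
  -- bounds
  have hbn : ∀ n θ, ∀ τ ∈ Ioo (-1 : ℝ) 1,
      |Uf (fun t => 1 + gp (M n) (c n) t) θ τ| ≤ Λ' := by
    intro n θ τ hτ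
    refine ((hCAG (M n) (c n) (hM3 n) θ).2.2.2.2.2 τ hτ).trans ?_
    have h1 : (⨆ t, |1 + gp (M n) (c n) t|) ≤ 2 + Λ * π := ciSup_le fun t => hgn n t
    have h2 : (⨆ t, |gp (M n) (dc (c n)) t|) ≤ Λ := ciSup_le fun t => hM2 n t
    rw [hΛ']
    linarith
  have hb : ∀ θ, ∀ τ ∈ Ioo (-1 : ℝ) 1, |Uf (fun t => 1 + g t) θ τ| ≤ Λ' := by
    intro θ τ hτ
    exact le_of_tendsto' (hconv θ τ hτ).abs fun n => hbn n θ τ hτ
  refine ⟨⟨Λ', hb⟩, ?_⟩
  -- measurability
  have hmn : ∀ n θ, AEStronglyMeasurable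
      (fun τ => Uf (fun t => 1 + gp (M n) (c n) t) θ τ * FF τ)
      (volume.restrict (Ioo (-1 : ℝ) 1)) := by
    intro n θ
    have h1 := (hUME (fun t => 1 + gp (M n) (c n) t) Λ' hΛ'0 (hAn n) (hBn n) (hCn n)).2
    have h2 : Measurable (fun τ : ℝ => (Ioo (-1 : ℝ) 1).indicator
        (fun τ => Uf (fun t => 1 + gp (M n) (c n) t) θ τ) τ) :=
      h1.comp (measurable_const.prodMk measurable_id)
    have h3 : AEStronglyMeasurable (fun τ : ℝ => (Ioo (-1 : ℝ) 1).indicator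
        (fun τ => Uf (fun t => 1 + gp (M n) (c n) t) θ τ) τ * FF τ)
        (volume.restrict (Ioo (-1 : ℝ) 1)) :=
      (h2.mul LIM_cont_FF.measurable).aestronglyMeasurable
    refine h3.congr ?_
    filter_upwards [ae_restrict_mem measurableSet_Ioo] with τ hτ
    rw [Set.indicator_of_mem hτ]
  have hpt : ∀ n θ, ∀ τ ∈ Ioo (-1 : ℝ) 1,
      ‖Uf (fun t => 1 + gp (M n) (c n) t) θ τ * FF τ‖ ≤ Λ' := by
    intro n θ τ hτ
    rw [norm_mul, Real.norm_eq_abs, Real.norm_eq_abs]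
    calc |Uf (fun t => 1 + gp (M n) (c n) t) θ τ| * |FF τ| ≤ Λ' * 1 :=
          mul_le_mul (hbn n θ τ hτ) LIM_abs_FF (abs_nonneg _) hΛ'0
      _ = Λ' := mul_one _
  -- first dominated convergence
  have hF : ∀ θ, Tendsto
      (fun n => ∫ τ in Ioo (-1 : ℝ) 1, Uf (fun t => 1 + gp (M n) (c n) t) θ τ * FF τ) atTop
      (𝓝 (∫ τ in Ioo (-1 : ℝ) 1, Uf (fun t => 1 + g t) θ τ * FF τ)) := by
    intro θ
    refine tendsto_integral_of_dominated_convergence (fun _ => Λ') (fun n => hmn n θ) ?_ ?_ ?_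
    · exact integrable_const _
    · intro n
      filter_upwards [ae_restrict_mem measurableSet_Ioo] with τ hτ
      exact hpt n θ τ hτ
    · filter_upwards [ae_restrict_mem measurableSet_Ioo] with τ hτ
      exact (hconv θ τ hτ).mul_const _
  have hFb : ∀ n θ,
      ‖∫ τ in Ioo (-1 : ℝ) 1, Uf (fun t => 1 + gp (M n) (c n) t) θ τ * FF τ‖ ≤ Λ' * 2 := by
    intro n θ
    refine (norm_setIntegral_le_of_norm_le_const (by simp) (hpt n θ)).trans (le_of_eq ?_)
    rw [Real.volume_real_Ioo_of_le (by norm_num)]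
    norm_num
  -- second dominated convergence
  have hG : Tendsto (fun n => ∫ θ in (0 : ℝ)..(2 * π),
      ∫ τ in Ioo (-1 : ℝ) 1, Uf (fun t => 1 + gp (M n) (c n) t) θ τ * FF τ) atTop
      (𝓝 (∫ θ in (0 : ℝ)..(2 * π),
        ∫ τ in Ioo (-1 : ℝ) 1, Uf (fun t => 1 + g t) θ τ * FF τ)) := by
    refine intervalIntegral.tendsto_integral_filter_of_dominated_convergence (fun _ => Λ' * 2)
      ?_ ?_ ?_ ?_
    · exact Eventually.of_forall fun n =>
        ((hSMO (M n) (c n) (hM3 n)).1).aestronglyMeasurable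
    · exact Eventually.of_forall fun n => Eventually.of_forall fun θ _ => hFb n θ
    · exact intervalIntegrable_const
    · exact Eventually.of_forall fun θ _ => hF θ
  exact ge_of_tendsto' hG fun n => (hSMO (M n) (c n) (hM3 n)).2

end Pool.Agent.Lib.MP_084b88_gt.CW
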