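import Pool.Agent.Lib.MP_084b88_gt.CW.SpecD
import Pool.Agent.Lib.MP_084b88_gt.CW.NFU

/-!
# MP_084b88_gt, project CW, module NFX: the integral of the sections against `√(1-s²) + x s`
-/

set_option autoImplicit false

open MeasureTheory Set Real Filter Topology
open scoped Pointwise InnerProductSpace

namespace Pool.Agent.Lib.MP_084b88_gt.CW

namespace NFXM

open NFUM

/-- Fubini in the plane for one projection and a continuous function. -/
theorem pr_eq (hWB : SpecWB2) (K : Set E3) (hK : CC K) (R : O3) (θ B g : ℝ)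
    (hB : B = (HS K (col R 2) + HS K (-(col R 2))) / 2)
    (hg : g = (HS K (col R 2) - HS K (-(col R 2))) / 2) (f : ℝ → ℝ) (hfc : Continuous f) :
    ∫ p in pr (R * cyc θ) K, f p.1 =
      ∫ s in Ioo (g - B) (g + B), wid (sec R s K) θ * f s := by
  set Q : Set (ℝ × ℝ) := pr (R * cyc θ) K with hQ
  have hQc : IsCompact Q := hK.2.1.image (continuous_cd_right _)
  have hQm : MeasurableSet Q := hQc.measurableSet
  have hint : Integrable (Q.indicator (fun p : ℝ × ℝ => f p.1)) (volume.prod volume) := by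
    have h2 : IntegrableOn (fun p : ℝ × ℝ => f p.1) Q volume :=
      (hfc.comp continuous_fst).continuousOn.integrableOn_compact hQc
    exact (integrable_indicator_iff hQm).2 h2
  have h2 : ∫ p in Q, f p.1 = ∫ s, wid (sec R s K) θ * f s := by
    rw [← integral_indicator hQm]
    change ∫ p, Q.indicator (fun p : ℝ × ℝ => f p.1) p ∂(volume.prod volume) = _
    rw [integral_prod _ hint]
    congr 1
    funext s
    have h3 : (fun t : ℝ => Q.indicator (fun p : ℝ × ℝ => f p.1) (s, t)) =
        (Prod.mk s ⁻¹' Q).indicator (fun _ => f s) := by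
      funext t
      by_cases ht : (s, t) ∈ Q
      · rw [indicator_of_mem ht, indicator_of_mem (by exact ht)]
      · rw [indicator_of_notMem ht, indicator_of_notMem (by exact ht)]
    rw [h3, integral_indicator (measurable_prodMk_left hQm), setIntegral_const, smul_eq_mul]
    congr 1
    rw [hQ, slice_pr, Measure.real, vol_slice hWB R θ s K hK]
  rw [h2, ← integral_Icc_eq_integral_Ioo]
  symm
  apply setIntegral_eq_integral_of_forall_compl_eq_zero
  intro s hs
  have hempty : sec R s K = ∅ := by
    rw [eq_empty_iff_forall_notMem]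
    rintro p ⟨x, ⟨hx, hxs⟩, rfl⟩
    apply hs
    simp only [mem_ofPred_eq] at hxs
    have ha := inner_le_HS K hK (col R 2) x hx
    have hb := inner_le_HS K hK (-(col R 2)) x hx
    rw [inner_neg_left] at hb
    rw [hxs] at ha hb
    constructor
    · rw [hB, hg]; linarith
    · rw [hB, hg]; linarith
  rw [hempty]; simp [wid, sup2]

/-- `qf + x mf` as one integral. -/
theorem qm_eq (K : Set E3) (hK : CC K) (R : O3) (θ B g x : ℝ)
    (hB : B = (HS K (col R 2) + HS K (-(col R 2))) / 2)
    (hg : g = (HS K (col R 2) - HS K (-(col R 2))) / 2) :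
    qf (pr (R * cyc θ) K) 0 + x * mf (pr (R * cyc θ) K) 0 =
      ∫ p in pr (R * cyc θ) K, (√(1 - ((p.1 - g) / B) ^ 2) + x * ((p.1 - g) / B)) := by
  set Q : Set (ℝ × ℝ) := pr (R * cyc θ) K with hQ
  have hQc : IsCompact Q := hK.2.1.image (continuous_cd_right _)
  have hQm : MeasurableSet Q := hQc.measurableSet
  have hwid : wid Q 0 / 2 = B := by
    rw [wid, hQ, sup2_pr_zero, sup2_pr_pi, hB]
  have hmid : mid Q 0 = g := by
    rw [mid, hQ, sup2_pr_zero, sup2_pr_pi, hg]
  have h1 : qf Q 0 = ∫ p in Q, √(1 - ((p.1 - g) / B) ^ 2) := by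
    unfold qf
    rw [hwid, hmid]
    apply setIntegral_congr_fun hQm
    intro p _
    simp [dotu]
  have h2 : mf Q 0 = ∫ p in Q, ((p.1 - g) / B) := by
    unfold mf
    rw [hwid, hmid]
    apply setIntegral_congr_fun hQm
    intro p _
    simp [dotu]
  rw [h1, h2, ← integral_const_mul, ← integral_add]
  · have hc : Continuous (fun p : ℝ × ℝ => √(1 - ((p.1 - g) / B) ^ 2)) := by fun_prop
    exact hc.continuousOn.integrableOn_compact hQc
  · have hc : Continuous (fun p : ℝ × ℝ => x * ((p.1 - g) / B)) := by fun_prop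
    exact hc.continuousOn.integrableOn_compact hQc

end NFXM

open NFUM NFXM in
theorem specNFX (hWB : SpecWB2) : SpecNFX := by
  intro K hK _ R B g x hB hg
  set f : ℝ → ℝ := fun s => √(1 - ((s - g) / B) ^ 2) + x * ((s - g) / B) with hf
  have hfc : Continuous f := by rw [hf]; fun_prop
  obtain ⟨D, hD⟩ : ∃ D : ℝ, ∀ s ∈ Icc (g - B) (g + B), ‖f s‖ ≤ D :=
    isCompact_Icc.exists_bound_of_continuousOn hfc.continuousOn
  obtain ⟨C, hC⟩ := hK.2.1.isBounded.exists_norm_le
  have hC0 : 0 ≤ C := by
    obtain ⟨x, hx⟩ := hK.2.2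
    exact (norm_nonneg x).trans (hC x hx)
  have hmeasF : Measurable (fun a : ℝ × ℝ => WW R K a * f a.1) :=
    (WW_meas R K hK).mul (hfc.measurable.comp measurable_fst)
  have hint : Integrable (Function.uncurry (fun s θ => WW R K (s, θ) * f s))
      ((volume.restrict (Ioo (g - B) (g + B))).prod (volume.restrict (Ioc (0 : ℝ) π))) := by
    apply Integrable.of_bound (C := 2 * C * D)
    · exact hmeasF.aestronglyMeasurable
    · rw [Measure.prod_restrict]
      refine ae_restrict_of_forall_mem (measurableSet_Ioo.prod measurableSet_Ioc) ?_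
      rintro ⟨s, θ⟩ ⟨hs, -⟩
      simp only [Function.uncurry]
      rw [norm_mul, Real.norm_of_nonneg (WW_nonneg R K _)]
      exact mul_le_mul (WW_bound R K C hC hC0 _) (hD s (Ioo_subset_Icc_self hs)) (norm_nonneg _)
        (by linarith)
  have hL : ∀ s, len (sec R s K) * (√(1 - ((s - g) / B) ^ 2) + x * ((s - g) / B)) =
      (1 / 2) * ∫ θ in Ioc (0 : ℝ) π, WW R K (s, θ) * f s := by
    intro s
    unfold len
    rw [intervalIntegral.integral_of_le pi_pos.le, integral_mul_const]
    have : ∫ θ in Ioc (0 : ℝ) π, wid (sec R s K) θ = ∫ θ in Ioc (0 : ℝ) π, WW R K (s, θ) := by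
      apply setIntegral_congr_fun measurableSet_Ioc
      intro θ hθ
      simp only
      rw [WW_eq hWB R K hK s θ ⟨hθ.1.le, hθ.2⟩]
    rw [this]
    ring
  simp_rw [hL]
  rw [integral_const_mul, integral_integral_swap hint, intervalIntegral.integral_of_le pi_pos.le]
  congr 1
  apply setIntegral_congr_fun measurableSet_Ioc
  intro θ hθ
  simp only
  rw [qm_eq K hK R θ B g x hB hg]
  change _ = ∫ p in pr (R * cyc θ) K, f p.1
  rw [pr_eq hWB K hK R θ B g hB hg f hfc]
  apply setIntegral_congr_fun measurableSet_Ioo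
  intro s _
  simp only
  rw [WW_eq hWB R K hK s θ ⟨hθ.1.le, hθ.2⟩]

end Pool.Agent.Lib.MP_084b88_gt.CW
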