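import Pool.Agent.Lib.MP_084b88_gt.CW.CO3

set_option autoImplicit false

open MeasureTheory Set Real Filter Topology
open scoped Pointwise InnerProductSpace

namespace Pool.Agent.Lib.MP_084b88_gt.CW

namespace SSTM

open CO3M

theorem int_semi (t : ℝ) (ht : 0 ≤ t) : ∫ z in (-t)..t, √(t ^ 2 - z ^ 2) = π * t ^ 2 / 2 := by
  rcases ht.eq_or_lt with h0 | h0
  · subst h0; simp
  · have h1 : ∀ z : ℝ, √(t ^ 2 - z ^ 2) = t * √(1 - (z / t) ^ 2) := by
      intro z
      have : t ^ 2 - z ^ 2 = t ^ 2 * (1 - (z / t) ^ 2) := by field_simp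
      rw [this, Real.sqrt_mul (sq_nonneg t), Real.sqrt_sq ht]
    simp only [h1]
    rw [intervalIntegral.integral_const_mul,
      intervalIntegral.integral_comp_div (fun z => √(1 - z ^ 2)) h0.ne']
    rw [neg_div, div_self h0.ne', integral_sqrt_one_sub_sq, smul_eq_mul]
    ring

theorem coord_inv (R : O3) (p : (ℝ × ℝ) × ℝ) : coord R (inv R p) = p := (hom R).right_inv p
theorem inv_coord (R : O3) (x : E3) : inv R (coord R x) = x := (hom R).left_inv x

theorem inv_add (R : O3) (p q : (ℝ × ℝ) × ℝ) : inv R (p + q) = inv R p + inv R q := by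
  simp only [inv, Prod.fst_add, Prod.snd_add, add_smul]
  abel

theorem norm_sq_inv (R : O3) (p : (ℝ × ℝ) × ℝ) :
    ‖inv R p‖ ^ 2 = p.1.1 ^ 2 + p.1.2 ^ 2 + p.2 ^ 2 := by
  obtain ⟨h0, h1, h2⟩ := inner_inv R p
  rw [← norm_sq_frame R (inv R p), h0, h1, h2]

theorem slice_eq (R : O3) (s : ℝ) (K : Set E3) (t : ℝ) (ht : 0 ≤ t) (z : ℝ)
    (hz : |z - s| ≤ t) :
    {q : ℝ × ℝ | inv R (q, z) ∈ (K ∩ {x | ⟪col R 2, x⟫_ℝ = s}) + Metric.closedBall (0 : E3) t} =
      sec R s K + disc (√(t ^ 2 - (z - s) ^ 2)) := by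
  have hz2 : (z - s) ^ 2 ≤ t ^ 2 := by
    rw [← sq_abs (z - s)]
    exact pow_le_pow_left₀ (abs_nonneg _) hz 2
  have hsq : √(t ^ 2 - (z - s) ^ 2) ^ 2 = t ^ 2 - (z - s) ^ 2 :=
    Real.sq_sqrt (by linarith)
  ext q
  simp only [Set.mem_ofPred_eq, Set.mem_add, sec, disc, Set.mem_image]
  constructor
  · rintro ⟨x, hx, b, hb, hxb⟩
    refine ⟨cd R x, ⟨x, hx, rfl⟩, cd R b, ?_, ?_⟩
    · rw [hsq]
      have h1 : ⟪col R 2, b⟫_ℝ = z - s := by
        have h2 : ⟪col R 2, x + b⟫_ℝ = z := by rw [hxb]; exact (inner_inv R (q, z)).2.2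
        rw [inner_add_right] at h2
        have h3 : ⟪col R 2, x⟫_ℝ = s := hx.2
        linarith
      have h4 := norm_sq_frame R b
      rw [h1] at h4
      have h5 : ‖b‖ ≤ t := by simpa using hb
      have h6 : ‖b‖ ^ 2 ≤ t ^ 2 := pow_le_pow_left₀ (norm_nonneg _) h5 2
      simp only [cd]
      linarith
    · rw [← cd_add, hxb]
      have := coord_inv R (q, z)
      exact congrArg Prod.fst this
  · rintro ⟨_, ⟨x, hx, rfl⟩, d, hd, rfl⟩
    rw [hsq] at hd
    refine ⟨x, hx, inv R (d, z - s), ?_, ?_⟩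
    · simp only [Metric.mem_closedBall, dist_zero_right]
      have h1 := norm_sq_inv R (d, z - s)
      simp only at h1
      have h2 : ‖inv R (d, z - s)‖ ^ 2 ≤ t ^ 2 := by rw [h1]; linarith
      exact le_of_sq_le_sq h2 ht |> fun h => h
    · have h3 : x = inv R (cd R x, s) := by
        have h4 := inv_coord R x
        have h5 : ⟪col R 2, x⟫_ℝ = s := hx.2
        rw [coord, h5] at h4
        exact h4.symm
      nth_rewrite 1 [h3]
      rw [← inv_add]
      congr 1
      ext <;> simp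

theorem slice_empty (R : O3) (s : ℝ) (K : Set E3) (t : ℝ) (z : ℝ) (hz : t < |z - s|) :
    {q : ℝ × ℝ | inv R (q, z) ∈ (K ∩ {x | ⟪col R 2, x⟫_ℝ = s}) + Metric.closedBall (0 : E3) t} =
      ∅ := by
  rw [Set.eq_empty_iff_forall_notMem]
  rintro q ⟨x, hx, b, hb, hxb⟩
  simp only at hxb
  have h1 : ⟪col R 2, b⟫_ℝ = z - s := by
    have h2 : ⟪col R 2, x + b⟫_ℝ = z := by rw [hxb]; exact (inner_inv R (q, z)).2.2
    rw [inner_add_right] at h2
    have h3 : ⟪col R 2, x⟫_ℝ = s := hx.2
    linarith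
  have h5 : ‖b‖ ≤ t := by simpa using hb
  have h6 := abs_real_inner_le_norm (col R 2) b
  rw [norm_col, one_mul, h1] at h6
  linarith

theorem cc_sec (R : O3) (s : ℝ) (K : Set E3) (hK : CC K)
    (hne : (K ∩ {x | ⟪col R 2, x⟫_ℝ = s}).Nonempty) : CC (sec R s K) := by
  have hcl : IsClosed {x : E3 | ⟪col R 2, x⟫_ℝ = s} :=
    isClosed_eq (continuous_const.inner continuous_id) continuous_const
  have hcomp : IsCompact (K ∩ {x | ⟪col R 2, x⟫_ℝ = s}) := hK.2.1.inter_right hcl
  have hconv : Convex ℝ (K ∩ {x | ⟪col R 2, x⟫_ℝ = s}) := by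
    apply hK.1.inter
    intro x hx y hy a b ha hb hab
    simp only [Set.mem_ofPred_eq] at *
    rw [inner_add_right, inner_smul_right, inner_smul_right, hx, hy, ← add_mul, hab, one_mul]
  refine ⟨?_, hcomp.image (continuous_cd_right R), hne.image _⟩
  rintro _ ⟨x, hx, rfl⟩ _ ⟨y, hy, rfl⟩ a b ha hb hab
  refine ⟨a • x + b • y, hconv hx hy ha hb hab, ?_⟩
  rw [cd_add, cd_smul, cd_smul]

end SSTM

open SSTM CO3M in
theorem specSST (hPST : SpecPST) (hWB2 : SpecWB2) : SpecSST := by
  intro R s K hK hne t ht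
  set C : Set E3 := K ∩ {x | ⟪col R 2, x⟫_ℝ = s} with hC
  have hcl : IsClosed {x : E3 | ⟪col R 2, x⟫_ℝ = s} :=
    isClosed_eq (continuous_const.inner continuous_id) continuous_const
  have hcomp : IsCompact C := hK.2.1.inter_right hcl
  have hS : IsCompact (C + Metric.closedBall (0 : E3) t) :=
    hcomp.add (isCompact_closedBall _ _)
  set S : Set E3 := C + Metric.closedBall (0 : E3) t with hSdef
  set T : Set ((ℝ × ℝ) × ℝ) := inv R ⁻¹' S with hT
  have hTm : MeasurableSet T := by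
    have : Continuous (inv R) := (hom R).continuous_invFun
    exact (hS.isClosed.preimage this).measurableSet
  have hvol : volume S = volume T := by
    have h1 := (mp_coord R).measure_preimage hTm.nullMeasurableSet
    rw [← h1]
    congr 1
    ext x
    simp only [hT, Set.mem_preimage, inv_coord]
  obtain ⟨hsup, hatt, hlip, hper, haddm, hmono, hdisc, hwid, hlen, hcont, hwper⟩ := hWB2
  have hQ : CC (sec R s K) := cc_sec R s K hK hne
  have hL : 0 ≤ len (sec R s K) := (hlen _ hQ).1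
  set A := area (sec R s K) with hA
  set L := len (sec R s K) with hLdef
  have hA0 : 0 ≤ A := ENNReal.toReal_nonneg
  have hslice : ∀ z : ℝ, volume {q : ℝ × ℝ | (q, z) ∈ T} =
      (Icc (s - t) (s + t)).indicator
        (fun z => ENNReal.ofReal (A + 2 * L * √(t ^ 2 - (z - s) ^ 2) +
          π * √(t ^ 2 - (z - s) ^ 2) ^ 2)) z := by
    intro z
    by_cases hz : z ∈ Icc (s - t) (s + t)
    · rw [Set.indicator_of_mem hz]
      have hz' : |z - s| ≤ t := by
        rw [abs_le]; constructor <;> linarith [hz.1, hz.2]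
      have h1 : {q : ℝ × ℝ | (q, z) ∈ T} = sec R s K + disc (√(t ^ 2 - (z - s) ^ 2)) :=
        slice_eq R s K t ht z hz'
      rw [h1]
      have h2 := hPST (sec R s K) (√(t ^ 2 - (z - s) ^ 2)) hQ (Real.sqrt_nonneg _)
      have h3 : IsCompact (sec R s K + disc (√(t ^ 2 - (z - s) ^ 2))) :=
        hQ.2.1.add (hdisc _ (Real.sqrt_nonneg _)).1.2.1
      rw [← ENNReal.ofReal_toReal h3.measure_lt_top.ne]
      congr 1
    · rw [Set.indicator_of_notMem hz]
      have hz' : t < |z - s| := by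
        by_contra hcon
        push Not at hcon
        rw [abs_le] at hcon
        exact hz ⟨by linarith [hcon.1], by linarith [hcon.2]⟩
      have h1 : {q : ℝ × ℝ | (q, z) ∈ T} = ∅ := slice_empty R s K t z hz'
      rw [h1, measure_empty]
  have hF : volume T = ∫⁻ z : ℝ, volume {q : ℝ × ℝ | (q, z) ∈ T} := by
    rw [Measure.volume_eq_prod, Measure.prod_apply_symm hTm]
    rfl
  set g : ℝ → ℝ := fun z => A + 2 * L * √(t ^ 2 - (z - s) ^ 2) +
          π * √(t ^ 2 - (z - s) ^ 2) ^ 2 with hg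
  have hg0 : ∀ z, 0 ≤ g z := by
    intro z
    have := Real.sqrt_nonneg (t ^ 2 - (z - s) ^ 2)
    simp only [hg]
    positivity
  have hgc : Continuous g := by
    simp only [hg]
    fun_prop
  have hvT : volume T = ENNReal.ofReal (∫ z in Icc (s - t) (s + t), g z) := by
    rw [hF]
    simp_rw [hslice]
    rw [lintegral_indicator measurableSet_Icc]
    rw [ofReal_integral_eq_lintegral_ofReal]
    · exact hgc.continuousOn.integrableOn_compact isCompact_Icc
    · exact Filter.Eventually.of_forall hg0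
  rw [hvol, hvT, ENNReal.toReal_ofReal (integral_nonneg hg0), integral_Icc_eq_integral_Ioc,
    ← intervalIntegral.integral_of_le (by linarith : s - t ≤ s + t)]
  have h1 : ∫ z in (s - t)..(s + t), g z = ∫ z in (-t)..t, (A + 2 * L * √(t ^ 2 - z ^ 2) +
      π * √(t ^ 2 - z ^ 2) ^ 2) := by
    have := intervalIntegral.integral_comp_sub_right
      (a := s - t) (b := s + t)
      (fun z => A + 2 * L * √(t ^ 2 - z ^ 2) + π * √(t ^ 2 - z ^ 2) ^ 2) s
    rw [show s - t - s = -t by ring, show s + t - s = t by ring] at this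
    exact this
  rw [h1]
  have h2 : ∫ z in (-t)..t, (A + 2 * L * √(t ^ 2 - z ^ 2) + π * √(t ^ 2 - z ^ 2) ^ 2) =
      ∫ z in (-t)..t, (A + 2 * L * √(t ^ 2 - z ^ 2) + π * (t ^ 2 - z ^ 2)) := by
    apply intervalIntegral.integral_congr
    intro z hz
    rw [Set.uIcc_of_le (by linarith)] at hz
    simp only
    rw [Real.sq_sqrt]
    nlinarith [hz.1, hz.2]
  rw [h2, intervalIntegral.integral_add, intervalIntegral.integral_add,
    intervalIntegral.integral_const_mul, int_semi t ht, intervalIntegral.integral_const,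
    intervalIntegral.integral_const_mul, intervalIntegral.integral_sub,
    intervalIntegral.integral_const, integral_pow]
  · simp only [smul_eq_mul]
    push_cast
    ring
  all_goals first | exact Continuous.intervalIntegrable (by fun_prop) _ _

end Pool.Agent.Lib.MP_084b88_gt.CW
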