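import Pool.Agent.Lib.MP_084b88_gt.CW.Basic

/-!
# MP_084b88_gt, project CW, part A: Steiner formulas and Cauchy's surface formula from scratch

`V` always is a finite dimensional real inner product space (used for `E3` and `ℂ`).
Each `SpecXXX` is a statement to be proved in the file `CW/XXX.lean` as
`theorem specXXX (hYYY : SpecYYY) .. : SpecXXX` (any Spec may be a hypothesis).
-/

set_option autoImplicit false

open MeasureTheory Set Real Filter Topology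
open scoped Pointwise InnerProductSpace

namespace Pool.Agent.Lib.MP_084b88_gt.CW

/-- **HSB** (100 lines). Basic facts on support functions `HS M x = sup_{y∈M} <x,y>` of compact convex
nonempty sets. Proofs: (1) `sSup` of a sum of bounded nonempty sets (`csSup_add`), the image of `M+N`
is the sum of the images; (2) Cauchy-Schwarz, attained at `(ρ/‖x‖) x`; (3) the functional `<x,·>` on
the segment `[-w,w]` has maximum `|<x,w>|` (attained at `w` or `-w`); (4) if some `y ∈ M` is not in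
`N`, strict separation (`geometric_hahn_banach_point_closed` or
`geometric_hahn_banach_compact_closed`, functional = inner product by
`InnerProductSpace.toDual`) gives `x` with `HS N x < <x,y> ≤ HS M x`; (5) for `‖y‖ ≤ C` on `M`
`|HS M x - HS M x'| ≤ C ‖x - x'‖`; (6), (7) `le_csSup`, `csSup_le_csSup`; (8) homogeneity;
(9) attained (`IsCompact.exists_sSup_image_eq`). -/
def SpecHSB : Prop :=
  ∀ (V : Type) [NormedAddCommGroup V] [InnerProductSpace ℝ V] [FiniteDimensional ℝ V],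
    (∀ M N : Set V, CC M → CC N → ∀ x, HS (M + N) x = HS M x + HS N x) ∧
    (∀ ρ : ℝ, 0 ≤ ρ → ∀ x, HS (Metric.closedBall (0 : V) ρ) x = ρ * ‖x‖) ∧
    (∀ w x : V, HS (segment ℝ (-w) w) x = |⟪x, w⟫_ℝ|) ∧
    (∀ M N : Set V, CC M → CC N → (∀ x, HS M x ≤ HS N x) → M ⊆ N) ∧
    (∀ M : Set V, CC M → Continuous (HS M)) ∧
    (∀ M : Set V, CC M → ∀ x, ∀ y ∈ M, ⟪x, y⟫_ℝ ≤ HS M x) ∧
    (∀ M N : Set V, CC M → CC N → M ⊆ N → ∀ x, HS M x ≤ HS N x) ∧
    (∀ M : Set V, CC M → ∀ (a : ℝ) (x : V), 0 ≤ a → HS M (a • x) = a * HS M x) ∧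
    (∀ M : Set V, CC M → ∀ x, ∃ y ∈ M, ⟪x, y⟫_ℝ = HS M x)

/-- **APX** (150 lines). Finite approximation of an average. `S` = unit sphere of `V` (compact),
`X = C(S,ℝ) × ℝ` (Banach space, sup norms), `f ω = (x ↦ |<v ω, x>|, d ω)`: strongly measurable
(first component = continuous map `V → C(S,ℝ)` after `v`; `V` second countable) and bounded, hence
integrable. `Convex.average_mem` (or `Convex.integral_mem`) for the closed convex hull of the range:
`∫ f ∈ closure (convexHull ℝ (range f))`, so some element `∑ a_i f(w_i)` of the convex hull has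
distance `≤ ε` to `∫ f = (x ↦ ‖x‖ = 1, ∫ d)` (evaluation at `x ∈ S` and the two projections are
continuous linear: `ContinuousLinearMap.integral_comp_comm`). Homogeneity in `x` gives all `x`. -/
def SpecAPX : Prop :=
  ∀ (V : Type) [NormedAddCommGroup V] [InnerProductSpace ℝ V] [FiniteDimensional ℝ V]
    [MeasurableSpace V] [BorelSpace V] (Ω : Type) [MeasurableSpace Ω] (μ : Measure Ω)
    [IsProbabilityMeasure μ] (v : Ω → V) (d : Ω → ℝ) (C : ℝ),
    Measurable v → Measurable d → (∀ ω, ‖v ω‖ ≤ C) → (∀ ω, |d ω| ≤ C) →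
    (∀ x : V, ∫ ω, |⟪v ω, x⟫_ℝ| ∂μ = ‖x‖) →
    ∀ ε : ℝ, 0 < ε → ∃ (n : ℕ) (a : Fin n → ℝ) (w : Fin n → Ω), (∀ i, 0 ≤ a i) ∧
      (∀ x : V, |∑ i, a i * |⟪v (w i), x⟫_ℝ| - ‖x‖| ≤ ε * ‖x‖) ∧
      |∑ i, a i * d (w i) - ∫ ω, d ω ∂μ| ≤ ε

/-- **GDL** (250 lines, from HSB, APX). The derivative lemma. `f(s) = vol(M + sB)`.
Hypotheses: `v : Ω → V` bounded measurable with `∫ |<v,x>| = ‖x‖` for all `x`;
`vol(N + [-c v_ω, c v_ω]) = vol N + c d(ω,N)` for compact convex `N`, `c ≥ 0`; `d(ω,·)` monotone;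
`d(ω, M + sB) → d(ω, M)` as `s → 0+`. Conclusion: the right derivative of `f` at `0` is
`∫ d(ω,M) dμ`.
PROOF. Let `0 < ε < 1/2`; APX for `v`, `d(·,M)`: `n, a, w`. For `t > 0` let `N_0 = M`,
`N_{k+1} = N_k + [-t a_k v(w_k), t a_k v(w_k)]` (write it with a list or `Fin.foldr`, induction).
By HSB `h_{N_k}(x) = h_M(x) + t ∑_{i<k} a_i |<v(w_i),x>|`, so (HSB (4))
`M + (1-ε) t B ⊆ N_n ⊆ M + (1+ε) t B` and `M ⊆ N_k ⊆ N_n`. `vol N_n = vol M + t ∑ a_k d(w_k, N_k)`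
lies between `vol M + t ∑ a_k d(w_k, M)` and `vol M + t ∑ a_k d(w_k, M + (1+ε) t B)`.
Lower bound: `s = (1+ε) t`: `f(s) ≥ vol N_n`, so `(f(s) - f(0))/s ≥ (∫ d - ε)/(1+ε)` for all `s > 0`.
Upper bound: `s = (1-ε) t`: `f(s) ≤ vol N_n`, so
`(f(s) - f(0))/s ≤ (1/(1-ε)) ∑ a_k d(w_k, M + (1+ε)/(1-ε) s B) → (1/(1-ε)) ∑ a_k d(w_k, M)
≤ (∫ d + ε)/(1-ε)` as `s → 0+`. Let `ε → 0`. -/
def SpecGDL : Prop :=
  ∀ (V : Type) [NormedAddCommGroup V] [InnerProductSpace ℝ V] [FiniteDimensional ℝ V]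
    [MeasurableSpace V] [BorelSpace V] (vol : Measure V) [IsFiniteMeasureOnCompacts vol]
    (Ω : Type) [MeasurableSpace Ω] (μ : Measure Ω) [IsProbabilityMeasure μ]
    (v : Ω → V) (d : Ω → Set V → ℝ) (M : Set V) (C : ℝ),
    Measurable v → (∀ ω, ‖v ω‖ ≤ C) → (∀ x : V, ∫ ω, |⟪v ω, x⟫_ℝ| ∂μ = ‖x‖) → CC M →
    (∀ (ω : Ω) (N : Set V) (c : ℝ), CC N → 0 ≤ c →
      (vol (N + segment ℝ (-(c • v ω)) (c • v ω))).toReal = (vol N).toReal + c * d ω N) →
    (∀ (ω : Ω) (N N' : Set V), CC N → CC N' → N ⊆ N' → d ω N ≤ d ω N') →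
    (∀ ω : Ω, Tendsto (fun s : ℝ => d ω (M + Metric.closedBall 0 s)) (𝓝[>] 0) (𝓝 (d ω M))) →
    Measurable (fun ω => d ω M) → (∀ ω, |d ω M| ≤ C) →
    Tendsto (fun t : ℝ => ((vol (M + Metric.closedBall 0 t)).toReal - (vol M).toReal) / t)
      (𝓝[>] 0) (𝓝 (∫ ω, d ω M ∂μ))

/-- **SLI** (50 lines). Slicing: `Measure.prod_apply` (slices `Prod.mk x ⁻¹' S`), for `x ∈ P` the
slices have length `b - a` and `b - a + 2c`, for `x ∉ P` both are empty; then
`lintegral_add`, `setLIntegral_const`/`lintegral_indicator`. -/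
def SpecSLI : Prop :=
  ∀ (X : Type) [MeasurableSpace X] (ν : Measure X) [SFinite ν] (S T : Set (X × ℝ)) (P : Set X)
    (c : ℝ), 0 ≤ c → MeasurableSet S → MeasurableSet T → MeasurableSet P →
    (∀ x, x ∈ P ↔ ∃ t, (x, t) ∈ S) →
    (∀ x ∈ P, ∃ a b : ℝ, a ≤ b ∧ {t | (x, t) ∈ S} = Icc a b ∧
      {t | (x, t) ∈ T} = Icc (a - c) (b + c)) →
    (∀ x, x ∉ P → {t | (x, t) ∈ T} = ∅) →
    (ν.prod volume) T = (ν.prod volume) S + ENNReal.ofReal (2 * c) * ν P

/-- **RO2** (60 lines). The rotation `p ↦ (dotu φ p, dotu (φ+π/2) p)` of `ℝ × ℝ` preserves the measure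
(e.g. through `Complex.volume_preserving_equiv_real_prod` and multiplication by `e^{-iφ}`, a linear
isometry; or `LinearMap.det = 1` and `MeasureTheory.Measure.addHaar_preimage_linearMap`), it is a
bijection with inverse the one for `-φ`. -/
def SpecRO2 : Prop :=
  ∀ φ : ℝ, MeasurePreserving (fun p : ℝ × ℝ => (dotu φ p, dotu (φ + π / 2) p)) volume volume ∧
    (∀ p : ℝ × ℝ, (dotu (-φ) (dotu φ p, dotu (φ + π / 2) p),
      dotu (-φ + π / 2) (dotu φ p, dotu (φ + π / 2) p)) = p)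

/-- **WB2** (120 lines). Basic facts on `sup2`, `wid`, `area`, `len` of planar compact convex sets (all
elementary): support inequality, Lipschitz dependence on `θ` (`|dotu θ p - dotu θ' p| ≤
(|p.1|+|p.2|) |θ-θ'|`), periodicity, Minkowski additivity, monotonicity, disc, nonnegativity,
first coordinate projection `= [-sup2 Q π, sup2 Q 0]`. -/
def SpecWB2 : Prop :=
  (∀ Q : Set (ℝ × ℝ), CC Q → ∀ θ, ∀ p ∈ Q, dotu θ p ≤ sup2 Q θ) ∧
  (∀ Q : Set (ℝ × ℝ), CC Q → ∀ θ, ∃ p ∈ Q, dotu θ p = sup2 Q θ) ∧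
  (∀ Q : Set (ℝ × ℝ), CC Q → ∃ C : ℝ, 0 ≤ C ∧ (∀ θ, |sup2 Q θ| ≤ C) ∧
    (∀ θ θ', |sup2 Q θ - sup2 Q θ'| ≤ C * |θ - θ'|)) ∧
  (∀ Q : Set (ℝ × ℝ), ∀ θ, sup2 Q (θ + 2 * π) = sup2 Q θ) ∧
  (∀ Q Q' : Set (ℝ × ℝ), CC Q → CC Q' → ∀ θ, sup2 (Q + Q') θ = sup2 Q θ + sup2 Q' θ) ∧
  (∀ Q Q' : Set (ℝ × ℝ), CC Q → CC Q' → Q ⊆ Q' → ∀ θ, sup2 Q θ ≤ sup2 Q' θ) ∧
  (∀ ρ : ℝ, 0 ≤ ρ → CC (disc ρ) ∧ (∀ θ, sup2 (disc ρ) θ = ρ) ∧ area (disc ρ) = π * ρ ^ 2) ∧
  (∀ Q : Set (ℝ × ℝ), CC Q → ∀ θ, 0 ≤ wid Q θ ∧ dotu θ '' Q = Icc (- sup2 Q (θ + π)) (sup2 Q θ)) ∧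
  (∀ Q : Set (ℝ × ℝ), CC Q → 0 ≤ len Q ∧ ∀ ρ : ℝ, 0 ≤ ρ → len (Q + disc ρ) = len Q + π * ρ) ∧
  (∀ Q : Set (ℝ × ℝ), CC Q → Continuous (sup2 Q) ∧ Continuous (wid Q)) ∧
  (∀ Q : Set (ℝ × ℝ), ∀ θ, wid Q (θ + π) = wid Q θ)

/-- **SG2** (120 lines, from SLI, RO2, WB2). Adding a segment in the plane: by RO2 (angle `θ - π/2`,
so that the segment becomes vertical) reduce to `u = (0,1)`; slices over the first coordinate `x` of
`Q + {0} × [-c,c]` are the slices of `Q` (compact intervals) thickened by `c`; the projection has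
length `wid`; SLI with `X = ℝ`. -/
def SpecSG2 : Prop :=
  ∀ (Q : Set (ℝ × ℝ)) (θ c : ℝ), CC Q → 0 ≤ c →
    area (Q + segment ℝ (-(c • ((cos θ, sin θ) : ℝ × ℝ))) (c • ((cos θ, sin θ) : ℝ × ℝ))) =
      area Q + 2 * c * wid Q (θ + π / 2)

/-- **DE2** (150 lines, from GDL, SG2, WB2). Right derivative of the area of parallel sets at `0`.
GDL with `V = ℂ` (identify `ℝ × ℝ` with `ℂ` by `Complex.equivRealProd`,
`Complex.volume_preserving_equiv_real_prod`; disc = closed ball, `⟪e^{iθ}, z⟫ = dotu θ`),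
`Ω = ℝ`, `μ = (1/π) volume.restrict (Ioc 0 π)`, `v θ = (π/2) e^{iθ}`:
`∫ |<v,z>| dμ = (1/2) |z| ∫_0^π |cos(θ-φ)| dθ = |z|` (periodicity of `|cos|`, `∫_0^π |cos| = 2`),
`d(θ,N) = π wid(N, θ+π/2)` by SG2, monotone, continuous: `wid(N + sB) = wid N + 2s`;
`∫ d dμ = ∫_0^π wid(Q, θ+π/2) dθ = ∫_0^π wid(Q,θ) dθ = 2 len Q` (`wid` is `π`-periodic). -/
def SpecDE2 : Prop :=
  ∀ (Q : Set (ℝ × ℝ)), CC Q →
    Tendsto (fun t : ℝ => (area (Q + disc t) - area Q) / t) (𝓝[>] 0) (𝓝 (2 * len Q))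

/-- **PST** (150 lines, from DE2, WB2). Planar Steiner formula. `f(t) = area(Q + disc t)`;
`Q + disc t + disc s = Q + disc (t+s)`, so by DE2 for `Q + disc t` and WB2 the right derivative of
`f` at every `t ≥ 0` is `2 len(Q + disc t) = 2 len Q + 2 π t`. `f` is continuous: right-continuous by
the right derivative; left-continuous: `f` is monotone and for `q0 ∈ Q`, `0 < s < t`, `λ = s/t`,
`(1-λ)(Q + disc t) + λ q0 ⊆ Q + disc (t-s)`, so `f(t-s) ≥ (1-λ)² f(t)`. Fundamental theorem with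
right derivatives (`intervalIntegral.integral_eq_sub_of_hasDeriv_right`). -/
def SpecPST : Prop :=
  ∀ (Q : Set (ℝ × ℝ)) (ρ : ℝ), CC Q → 0 ≤ ρ →
    area (Q + disc ρ) = area Q + 2 * len Q * ρ + π * ρ ^ 2

/-- **CO3** (60 lines). Coordinates in an orthonormal frame preserve the measure: the columns form an
orthonormal basis `b` (`OrthonormalBasis.mk`, or a `LinearIsometryEquiv` of `E3`), `b.repr` is a
linear isometry `E3 ≃ E3`, hence measure preserving
(`LinearIsometryEquiv.measurePreserving`), then `E3 → Fin 3 → ℝ → (ℝ × ℝ) × ℝ`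
(`EuclideanSpace.volume_preserving_measurableEquiv`,
`MeasureTheory.volume_preserving_piFinSuccAbove`, ...). Also: `coord R` is a homeomorphism. -/
def SpecCO3 : Prop :=
  ∀ R : O3, MeasurePreserving (coord R) volume volume ∧
    ∃ e : E3 ≃ₜ (ℝ × ℝ) × ℝ, (∀ x, e x = coord R x) ∧
      (∀ p, e.symm p = p.1.1 • col R 0 + p.1.2 • col R 1 + p.2 • col R 2)

/-- **SG3** (80 lines, from SLI, CO3). Adding a segment in space: in the coordinates `coord R` the
segment is `{0} × [-c,c]`, the slices over `(x,y)` are compact intervals, the projection is `pr R M`. -/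
def SpecSG3 : Prop :=
  ∀ (R : O3) (M : Set E3) (c : ℝ), CC M → 0 ≤ c →
    (volume (M + segment ℝ (-(c • col R 2)) (c • col R 2))).toReal =
      (volume M).toReal + 2 * c * area (pr R M)

/-- **SST** (150 lines, from PST, CO3, WB2). Steiner formula for a plane section `C` as a subset of
space. In the coordinates `coord R`: `C = C' × {s}`, `C' = sec R s K`, and the slice of `C + tB` at
the height `s + z` is `C' + disc √(t²-z²)` for `|z| ≤ t`, empty otherwise. So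
`vol(C + tB) = ∫_{-t}^t (A + 2 L √(t²-z²) + π(t²-z²)) dz = 2 A t + π L t² + (4/3) π t³`
(`∫_{-t}^t √(t²-z²) dz = π t²/2`). -/
def SpecSST : Prop :=
  ∀ (R : O3) (s : ℝ) (K : Set E3), CC K → (K ∩ {x | ⟪col R 2, x⟫_ℝ = s}).Nonempty →
    ∀ t : ℝ, 0 ≤ t →
      (volume ((K ∩ {x | ⟪col R 2, x⟫_ℝ = s}) + Metric.closedBall (0 : E3) t)).toReal =
        2 * area (sec R s K) * t + π * len (sec R s K) * t ^ 2 + 4 / 3 * π * t ^ 3

/-- **HAA** (60 lines). The bi-invariant probability measure on the compact group `O3`: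
`haarMeasure ⊤`, and right translates of it are left invariant, hence equal by
`Measure.isMulInvariant_eq_smul_of_compactSpace` and total mass one. -/
def SpecHAA : Prop := ∃ μ : Measure O3, HaarO μ

/-- **AVG** (80 lines). `∫ |<col R 2, x>| dμ = c₀ ‖x‖` with `c₀ > 0`. For `S ∈ O3`:
`<col (S R) 2, x> = <S (col R 2), x> = <col R 2, Sᵀ x>`, so by left invariance the integral only
depends on the orbit of `x`; a reflection (`reflection_sub`-type, or a unitary extending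
`x/‖x‖ ↦ e₀`; as a matrix in `O3`) moves `x` to `‖x‖ e₀`. `c₀ = ∫ |<col R 2, e₀>| > 0`: otherwise
`<col R 2, e_j> = 0` a.e. for `j = 0,1,2` (same integral), contradiction with `‖col R 2‖ = 1`. -/
def SpecAVG : Prop :=
  ∀ μ : Measure O3, HaarO μ →
    ∃ c₀ : ℝ, 0 < c₀ ∧ ∀ x : E3, ∫ R, |⟪col R 2, x⟫_ℝ| ∂μ = c₀ * ‖x‖

/-- **MEA** (150 lines). Measurability. (1) `{(R,p) | p ∈ pr R K}` is closed in `O3 × (ℝ×ℝ)` (image of
the compact set `O3 × K` under the continuous map `(R,x) ↦ (R, cd R x)`), so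
`R ↦ volume (pr R K)` is measurable (`measurable_measure_prodMk_left`); bounded since
`pr R K ⊆ [-C,C]²`. (2) `sup2 (pr R K) θ = HS K (col (R * rot θ) 0)` (by `dotu_cd`), continuous.
(3) `qf (pr R K) θ` is an integral over the closed set in (1) of a continuous function of `(R,p)` as
`wid > 0` (`StronglyMeasurable.integral_prod_right` with an indicator); `0 ≤ qf ≤ area`.
(4) `K` has an interior point, so `wid ≥ b > 0`. (5) `pr (R * rot θ) K` is the image of `pr R K`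
under the rotation `p ↦ (dotu θ p, dotu (θ+π/2) p)` (RO2), which changes variables. -/
def SpecMEA : Prop :=
  ∀ K : Set E3, CC K → (interior K).Nonempty →
    (∀ R : O3, CC (pr R K)) ∧
    Measurable (fun R : O3 => area (pr R K)) ∧
    (∃ C : ℝ, ∀ R : O3, area (pr R K) ≤ C) ∧
    (∀ (R : O3) (θ : ℝ), sup2 (pr R K) θ = HS K (col (R * rot θ) 0)) ∧
    Continuous (fun R : O3 => wid (pr R K) 0) ∧
    (∃ b : ℝ, 0 < b ∧ ∀ R : O3, b ≤ wid (pr R K) 0) ∧
    Measurable (fun R : O3 => qf (pr R K) 0) ∧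
    (∀ R : O3, 0 ≤ qf (pr R K) 0 ∧ qf (pr R K) 0 ≤ area (pr R K)) ∧
    (∀ (R : O3) (θ : ℝ), wid (pr R K) θ = wid (pr (R * rot θ) K) 0 ∧
      qf (pr R K) θ = qf (pr (R * rot θ) K) 0 ∧ area (pr (R * rot θ) K) = area (pr R K))

/-- **LEN** (60 lines, from MEA, WB2). `E len(pr R K) = (π/2) E wid(pr R K, 0)`: Fubini and right
invariance (`wid (pr R K) θ = wid (pr (R * rot θ) K) 0`). -/
def SpecLEN : Prop :=
  ∀ μ : Measure O3, HaarO μ → ∀ K : Set E3, CC K → (interior K).Nonempty →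
    ∫ R, len (pr R K) ∂μ = π / 2 * ∫ R, wid (pr R K) 0 ∂μ

/-- **CAU** (150 lines, from GDL, SG3, PST, AVG, MEA, WB2). Cauchy's surface formula and Kubota for
`V_1`: if `K` has the Steiner polynomial with `V1, V2` then `V2 = 2 E area(pr R K)`,
`π V1 = 4 E len(pr R K)`.
PROOF. GDL with `V = E3`, `Ω = O3`, `v R = c₀⁻¹ col R 2`, `d(R,N) = (2/c₀) area(pr R N)` (SG3;
monotone; `pr R (N + sB) = pr R N + disc s`, PST gives the continuity), for `M = K + sB`, `s ≥ 0`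
(`K + closedBall 0 s`, interior nonempty). `vol(M + tB) = P(s+t)` with `P` the given polynomial, so
`P'(s) = 2 V2 + 2π V1 s + 4π s² = (2/c₀) E(area(pr R K) + 2 len(pr R K) s + π s²)` for all `s ≥ 0`.
Coefficients: `4π = 2π/c₀`, i.e. `c₀ = 1/2`; `V2 = 2 E area`; `2π V1 = 8 E len`. -/
def SpecCAU : Prop :=
  ∀ μ : Measure O3, HaarO μ → ∀ K : Set E3, CC K → (interior K).Nonempty →
    ∀ V1 V2 : ℝ, STEI K V1 V2 →
      V2 = 2 * ∫ R, area (pr R K) ∂μ ∧ π * V1 = 4 * ∫ R, len (pr R K) ∂μ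

/-- **NUB** (150 lines, from SST, CO3, WB2, MEA). The semicircle test function. Let `u = col R 2`,
`B, g` half width and middle of `K` in direction `u`, `N(R) = ∫ len(sec R s K) √(1-((s-g)/B)²) ds`
over `(g-B, g+B)`. Under `HSEC K c`, `0 ≤ c`: `c N² ≤ (4/3) B π vol K`.
PROOF. For `s ∈ (g-B,g+B)` the plane `{<u,x> = s}` (an `AffineSubspace` with direction
`(ℝ u)ᗮ`, `finrank = 2`) meets the interior of `K` (two interior points on both sides: interior
dense in `K`), so SST and `HSEC` give `c len² ≤ π area(sec R s K)`. Cavalieri in `coord R`: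
`∫ area(sec R s K) ds = vol K`. Cauchy-Schwarz:
`N² ≤ ∫ len² ds · ∫_{g-B}^{g+B} (1-((s-g)/B)²) ds = (4/3) B ∫ len²`. Measurability of
`s ↦ len (sec R s K)`: see NFU (or via the continuity of `len ∘ sec` on the open interval: concave). -/
def SpecNUB : Prop :=
  ∀ K : Set E3, CC K → (interior K).Nonempty → ∀ c : ℝ, 0 ≤ c → HSEC K c → ∀ R : O3,
    ∀ B g : ℝ, B = (HS K (col R 2) + HS K (-(col R 2))) / 2 →
      g = (HS K (col R 2) - HS K (-(col R 2))) / 2 →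
      c * (∫ s in Ioo (g - B) (g + B), len (sec R s K) * √(1 - ((s - g) / B) ^ 2)) ^ 2 ≤
        4 / 3 * B * (π * (volume K).toReal)

/-- **NFU** (120 lines, from WB2, MEA). `N(R) = (1/2) ∫_0^π qf (pr (R * cyc θ) K) 0 dθ`:
`wid (sec R s K) θ` is the length of the slice of `pr (R * cyc θ) K` over the first coordinate `s`
(`cd (R * cyc θ) x = (<col R 2,x>, cos θ <col R 0,x> + sin θ <col R 1,x>)`), `B`, `g` are half width
and middle of `pr (R * cyc θ) K` in direction `0`; Fubini in `(s,θ)`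
(nonnegative bounded measurable: `(s,θ) ↦` length of the slice is upper semicontinuous, or
`measurable_measure_prodMk_left` for the compact set `{(s,θ,t)}`). -/
def SpecNFU : Prop :=
  ∀ K : Set E3, CC K → (interior K).Nonempty → ∀ R : O3,
    ∀ B g : ℝ, B = (HS K (col R 2) + HS K (-(col R 2))) / 2 →
      g = (HS K (col R 2) - HS K (-(col R 2))) / 2 →
      (∫ s in Ioo (g - B) (g + B), len (sec R s K) * √(1 - ((s - g) / B) ^ 2)) =
        (1 / 2) * ∫ θ in (0 : ℝ)..π, qf (pr (R * cyc θ) K) 0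

/-- **RED** (150 lines, from HAA, MEA, LEN, CAU, NUB, NFU). Reduction of Chakerian's question to the
planar inequality P1 for all projections.
PROOF. `c < 0`: `V1 ≥ 0` by CAU, trivial. `c > 0` (`c = 0` trivial). `V = vol K`, `μ` from HAA,
`q(R) = qf (pr R K) 0`, `B(R) = wid (pr R K) 0 / 2 > 0` (also the half width in direction `col R 0`),
`N(R) = (1/2) ∫_0^π q(R cyc θ) dθ`, `B'(R)` = half width in direction `col R 2 = B(R cyc θ)`.
NUB: `N ≤ √(4πV/(3c)) √B'`, so with `a = √(4πV/(3c))`: `E[√B' N] ≤ a E B' = a V1/4` (LEN, CAU: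
`E B = V1/4`) and `E[N/√B'] ≤ a`. Right invariance under `cyc θ` and Fubini:
`E[√B' N] = (π/2) E[√B q]`, `E[N/√B'] = (π/2) E[q/√B]`. Right invariance under `rot θ`:
`E X = 2π E[√B q]`, `X(R) = ∫_0^{2π} √(wid/2) qf (pr R K) θ dθ`; `E Y = 2π E[q/√B]` likewise. So
`E X ≤ a V1`, `E Y ≤ 4 a`. P1: `X Y ≥ (16/3)² A²`, `A = area(pr R K)`, so for `l = 2/√V1`:
`l X + Y/l ≥ 2 √(XY) ≥ (32/3) A`, hence `(32/3) E A ≤ l a V1 + 4a/l = 4 a √V1`, i.e.
`(8/3)² (E A)² ≤ a² V1 = 4πV V1/(3c)`; `V2 = 2 E A` (CAU): `4 c V2² ≤ 3π V1 V`. -/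
def SpecRED : Prop :=
  ∀ K : Set E3, CC K → (interior K).Nonempty → ∀ c : ℝ, HSEC K c →
    (∀ R : O3, P1 (pr R K)) → ∀ V1 V2 : ℝ, STEI K V1 V2 →
      4 * c * V2 ^ 2 ≤ 3 * Real.pi * V1 * (volume K).toReal

end Pool.Agent.Lib.MP_084b88_gt.CW
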