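import Pool.Agent.Lib.MP_084b88_gt.CW.SpecA

/-!
# MP_084b88_gt, project CW, part B: the planar theorem for constant width

THEOREM (PC1). `Q` planar compact convex of constant width `2`:
`∫_0^{2π} qf Q θ dθ ≥ (16/3) area Q`, i.e. `∫_0^{2π} ∫_Q F(τ_θ) dp dθ ≥ 0`, `F = FF`.

Numerically checked (formula of CAL to 6 digits).
Notation in the proofs: `h = 1 + g` support function of `Q` (`g(θ+π) = -g(θ)`, the middle of `Q` in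
direction `θ` is `g(θ)`), `g = gp M c` in the smooth case, `g' = gp M (dc c)`,
`g'' = gp M (dc (dc c))`, `r = h + h'' = 1 + g + g''`.
-/

set_option autoImplicit false

open MeasureTheory Set Real Filter Topology
open scoped Pointwise InnerProductSpace

namespace Pool.Agent.Lib.MP_084b88_gt.CW

/-- **GPB** (120 lines). Basics on `gp`, `psi`: derivative (`HasDerivAt` of a finite sum, real part of a
derivative along the reals), antiperiodicity (`e^{i(2m+1)π} = -1`), periodicity, continuity,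
boundedness of `gp` and of `psi` (finite sums, `|e^{ix}| = 1`), smoothness of nothing else. -/
def SpecGPB : Prop :=
  ∀ (M : ℕ) (c : ℕ → ℂ),
    (∀ θ, HasDerivAt (gp M c) (gp M (dc c) θ) θ) ∧
    (∀ θ, gp M c (θ + π) = - gp M c θ) ∧
    (∀ θ, gp M c (θ + 2 * π) = gp M c θ) ∧
    Continuous (gp M c) ∧
    (∃ C : ℝ, ∀ θ, |gp M c θ| ≤ C) ∧
    Continuous (fun x : ℝ × ℝ => psi M c x.1 x.2) ∧
    (∃ C : ℝ, ∀ θ α, |psi M c θ α| ≤ C) ∧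
    (∀ θ α, psi M c (θ + π) α = - psi M c θ α) ∧
    (∀ (a : ℝ) (θ : ℝ), gp M (fun m => (a : ℂ) * c m) θ = a * gp M c θ)

/-- **WMA** (80 lines). By linearity one mode `c e^{ikφ}`, `k = 2m+1`, `φ = θ+α`: the claim is
`cos α - i k sin α - e^{-ikα} = sin² α W_m(α)`. Induction on `m`: `m = 0`: both sides `0`. Step: the
left side changes by `-2i sin α - e^{-i(2m+3)α} + e^{-i(2m+1)α} = -2i sin α (1 - e^{-i(2m+2)α})`; the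
right side by `sin² α · 4 ∑_{j≤m} e^{-i(2j+1)α}`, and
`2i sin α ∑_{j≤m} e^{-i(2j+1)α} = 1 - e^{-2i(m+1)α}` (induction, `2i sin α = e^{iα} - e^{-iα}`). -/
def SpecWMA : Prop :=
  ∀ (M : ℕ) (c : ℕ → ℂ) (θ α : ℝ),
    gp M c (θ + α) * cos α - gp M (dc c) (θ + α) * sin α - gp M c θ =
      sin α ^ 2 * psi M c θ α

/-- `τ_0 = 0`, `τ_1 = 2/15`, `τ_n = -12/((4n²-1)(4n²-9))` for `n ≥ 2`. -/
noncomputable def tau (n : ℕ) : ℝ :=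
  if n = 0 then 0 else if n = 1 then 2 / 15 else
    -12 / ((4 * (n : ℝ) ^ 2 - 1) * (4 * (n : ℝ) ^ 2 - 9))

/-- **TAU** (100 lines). `∫_0^π cos(2nα)(κ sin² α - sin³ α) dα = τ_n`. `sin² = (1 - cos 2α)/2`,
`sin³ = (3 sin α - sin 3α)/4`, products to sums, `∫_0^π cos(2nα) sin(jα) dα = 2j/(j²-4n²)` for odd `j`
(antiderivatives `cos(kα)/k`; all frequencies that occur in the denominators are odd). `κ = 8/(3π)`. -/
def SpecTAU : Prop :=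
  ∀ n : ℕ, ∫ α in (0 : ℝ)..π, cos (2 * n * α) * (kap * sin α ^ 2 - sin α ^ 3) = tau n

/-- **TOE** (120 lines, from TAU). `‖W_m(α)‖² = 16 ∑_{j,l<m} (m-j)(m-l) cos(2(j-l)α)`, so the integral is
`16 ∑_{j,l} (m-j)(m-l) τ_{|j-l|}`; diagonal `0`; twice the sum over `j < l`; for fixed `j` (with
`j+1 < m`): `∑_{n≥1} (m-j-n) τ_n ≥ (m-j-1)(τ_1 - ∑_{n=2}^N |τ_n|) ≥ 0`, as
`|τ_n| = T_n - T_{n+1}`, `T_n = 2/((2n-3)(2n-1)(2n+1)) ≥ 0`, `T_2 = 2/15 = τ_1`. -/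
def SpecTOE : Prop :=
  ∀ m : ℕ, 0 ≤ ∫ α in (0 : ℝ)..π, ‖Wm m α‖ ^ 2 * (kap * sin α ^ 2 - sin α ^ 3)

/-- **ORT** (100 lines). Orthogonality. `Re(z) = (z + conj z)/2`, `∫_0^{2π} e^{ijφ} dφ = 0` for an integer
`j ≠ 0` (`integral_exp_mul_complex` or `fourier` lemmas); all products
`e^{i(2m+1)φ} e^{i(2l+1)φ}` have positive frequency. -/
def SpecORT : Prop :=
  ∀ (M : ℕ) (z : ℕ → ℂ),
    ∫ φ in (0 : ℝ)..(2 * π),
      ((∑ m ∈ Finset.range M, z m * Complex.exp (Complex.I * ((2 * m + 1 : ℕ) * (φ : ℂ)))).re) ^ 2 =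
      π * ∑ m ∈ Finset.range M, ‖z m‖ ^ 2

/-- **TPO** (100 lines, from ORT, TOE, GPB). Fubini; for fixed `α` shift `θ` by `α` (periodicity) and ORT
with `z_m = c_m W_m(α)`: the double integral is `π ∑ |c_m|² ∫ ‖W_m‖² (κ sin² - sin³) ≥ 0`. -/
def SpecTPO : Prop :=
  ∀ (M : ℕ) (c : ℕ → ℂ),
    0 ≤ ∫ θ in (0 : ℝ)..(2 * π), ∫ α in (0 : ℝ)..π,
      psi M c θ α ^ 2 * (kap * sin α ^ 2 - sin α ^ 3)

/-- **QQP** (150 lines). Facts on `Q = QF`, `QQ = QQF`. Second difference: for `0 ≤ e`: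
`QQ(c+e) + QQ(c-e) - 2 QQ(c) = ∫_0^e (Q(c+y) - Q(c-y)) dy = ∫_0^e ∫_0^y (F(c+x) + F(c-x)) dx dy
≤ ∫_0^e 2 y F(c) dy` since `√(1-x²)` is concave on `[-1,1]`
(`√(1-(c+x)²) + √(1-(c-x)²) ≤ 2√(1-c²)`). `∫_0^π Q(cos α) cos α dα = -∫ sin α · F(cos α)(-sin α) dα
= ∫ (sin α - κ) sin² α dα = 4/3 - κ π/2 = 0`. `|F| ≤ 1` on `[-1,1]`. -/
def SpecQQP : Prop :=
  (∀ x, HasDerivAt QF (FF x) x) ∧ (∀ x, HasDerivAt QQF (QF x) x) ∧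
  (∀ x, QF (-x) = - QF x) ∧ (∀ x, QQF (-x) = QQF x) ∧ Continuous FF ∧
  (∀ x, |x| ≤ 1 → |QF x| ≤ 1) ∧
  (∀ x y, |x| ≤ 1 → |y| ≤ 1 → |QQF x - QQF y| ≤ |x - y|) ∧
  (∀ c e, |c + e| ≤ 1 → |c - e| ≤ 1 → QQF (c + e) + QQF (c - e) - 2 * QQF c ≤ e ^ 2 * FF c) ∧
  (∫ α in (0 : ℝ)..π, QF (cos α) * cos α) = 0

/-- **CAG** (150 lines, from GPB, WMA). Geometry of a smooth body: `h = 1 + gp M c`, `r > 0`.
`p(α) = cos α + sin² α psi(θ,α) = h(θ+α) cos α - h'(θ+α) sin α - g(θ)` (WMA),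
`A(α) = h(θ+α) sin α + h'(θ+α) cos α`. `p' = - r(θ+α) sin α`, `A' = r(θ+α) cos α`; `p(0) = 1`,
`p(π) = -1` (antiperiodicity), `p` strictly decreasing on `[0,π]`. Support inequality: for
`α, β ∈ (0,π)`: `h(θ+β) - (p(α) + g(θ)) cos β ≥ A(α) sin β`, with equality at `β = α`: the function
`E(s) = (p(s) + g(θ)) cos β + A(s) sin β` has `E'(s) = r(θ+s) sin(β-s)`, `E(β) = h(θ+β)`, so `E` is
increasing on `[0,β]`, decreasing on `[β,π]`. Hence `Uf h θ (p α) = A(α)` (`ciInf` attained; note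
`(h θ - h (θ+π))/2 = g θ`). -/
def SpecCAG : Prop :=
  ∀ (M : ℕ) (c : ℕ → ℂ), (∀ θ, 0 < 1 + gp M c θ + gp M (dc (dc c)) θ) → ∀ θ : ℝ,
    (∀ α, HasDerivAt (fun a => cos a + sin a ^ 2 * psi M c θ a)
      (-(1 + gp M c (θ + α) + gp M (dc (dc c)) (θ + α)) * sin α) α) ∧
    StrictAntiOn (fun a => cos a + sin a ^ 2 * psi M c θ a) (Icc 0 π) ∧
    (fun a => cos a + sin a ^ 2 * psi M c θ a) '' (Ioo 0 π) = Ioo (-1) 1 ∧
    (∀ α ∈ Icc (0 : ℝ) π, |cos α + sin α ^ 2 * psi M c θ α| ≤ 1) ∧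
    (∀ α ∈ Ioo (0 : ℝ) π, Uf (fun t => 1 + gp M c t) θ (cos α + sin α ^ 2 * psi M c θ α) =
      (1 + gp M c (θ + α)) * sin α + gp M (dc c) (θ + α) * cos α) ∧
    (∀ τ ∈ Ioo (-1 : ℝ) 1, |Uf (fun t => 1 + gp M c t) θ τ| ≤
      (⨆ t, |1 + gp M c t|) + (⨆ t, |gp M (dc c) t|))

/-- **CAL** (200 lines, from CAG, GPB, QQP). The formula for `∫ U F dτ` in the smooth case.
PROOF. Change of variables `τ = p(α)` (`MeasureTheory.integral_image_eq_integral_abs_deriv_smul` on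
`Ioo 0 π`, `p` injective, image `Ioo (-1) 1`): `∫ U F = ∫_0^π A F(p) r sin α dα` (`r = r(θ+α)`). Let
`W(α) = QQ(p) - QQ(cos α)`. For `α ∈ (0,π)`:
`A F(p) r sin α = (d/dα)[-A Q(p) - cot α · W] + cos α Q(cos α) - W/sin² α`.
The function in brackets (value at the end points: `cot = cos/sin = 0` in Lean) is continuous on
`[0,π]` as `|W| ≤ |p - cos α| ≤ C sin² α` (QQP); values at `0`: `-A(0) Q(1) = -g'(θ) Q(1)`; at `π`: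
`-A(π) Q(-1) = A(π) Q(1)`, `A(π) = -h'(θ+π) = g'(θ)`. Fundamental theorem on `(0,π)`
(`intervalIntegral.integral_eq_sub_of_hasDerivAt_of_le`, continuity on the closed interval, derivative
inside, integrable derivative), `∫_0^π Q(cos α) cos α = 0`. -/
def SpecCAL : Prop :=
  ∀ (M : ℕ) (c : ℕ → ℂ), (∀ θ, 0 < 1 + gp M c θ + gp M (dc (dc c)) θ) → ∀ θ : ℝ,
    IntegrableOn (fun τ => Uf (fun t => 1 + gp M c t) θ τ * FF τ) (Ioo (-1) 1) ∧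
    ∫ τ in Ioo (-1 : ℝ) 1, Uf (fun t => 1 + gp M c t) θ τ * FF τ =
      2 * gp M (dc c) θ * QF 1 -
        ∫ α in (0 : ℝ)..π, (QQF (cos α + sin α ^ 2 * psi M c θ α) - QQF (cos α)) / sin α ^ 2

/-- **SMO** (150 lines, from CAL, CAG, GPB, QQP, TPO). Smooth case of the planar theorem.
PROOF. `ω(θ,α) = (QQ(cos α + e) - QQ(cos α))/sin² α`, `e = sin² α psi`: bounded by `|psi| ≤ C`,
measurable, continuous in `θ`. `∫_0^{2π} g' = 0`. `psi(θ+π,α) = -psi(θ,α)` and periodicity: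
`2 ∫_0^{2π} ω(θ,α) dθ = ∫_0^{2π} (QQ(c+e) + QQ(c-e) - 2QQ(c))/sin² α dθ ≤
∫_0^{2π} psi² sin² α (sin α - κ) dθ` (QQP, `F(cos α) = sin α - κ`; `|c ± e| ≤ 1` by CAG at `θ` and
`θ+π`). Integrate over `α`: `∫∫ ω ≤ -(1/2) T ≤ 0` by TPO. Continuity of `θ ↦ ∫ U F`: by CAL and
dominated convergence. -/
def SpecSMO : Prop :=
  ∀ (M : ℕ) (c : ℕ → ℂ), (∀ θ, 0 < 1 + gp M c θ + gp M (dc (dc c)) θ) →
    Continuous (fun θ => ∫ τ in Ioo (-1 : ℝ) 1, Uf (fun t => 1 + gp M c t) θ τ * FF τ) ∧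
    0 ≤ ∫ θ in (0 : ℝ)..(2 * π), ∫ τ in Ioo (-1 : ℝ) 1, Uf (fun t => 1 + gp M c t) θ τ * FF τ

/-- **KCO** (60 lines). `cos^{2n}(x/2) = ((1 + cos x)/2)^n` is a cosine polynomial: induction,
`cos x cos kx = (cos (k+1)x + cos (k-1)x)/2`. -/
def SpecKCO : Prop :=
  ∀ n : ℕ, ∃ b : ℕ → ℝ, ∀ x : ℝ, cos (x / 2) ^ (2 * n) = ∑ k ∈ Finset.range (n + 1), b k * cos (k * x)

/-- **KWA** (100 lines). Concentration. `Z_n = ∫_{-π}^π cos^{2n}(x/2) dx > 0`,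
`Z_{n+1} = Z_n (2n+1)/(2n+2)` (`integral_cos_pow` after `x = 2y`), so
`∫ sin²(x/2) cos^{2n}(x/2) = Z_n/(2n+2)`; Cauchy-Schwarz
`∫ |sin(x/2)| cos^{2n} ≤ √(Z_n) √(Z_n/(2n+2))`; `|x| ≤ π |sin (x/2)|` on `[-π,π]`
(`Real.mul_le_sin`). -/
def SpecKWA : Prop :=
  ∀ n : ℕ, 0 < ∫ x in (-π)..π, cos (x / 2) ^ (2 * n) ∧
    ∫ x in (-π)..π, |x| * cos (x / 2) ^ (2 * n) ≤
      (π / √(2 * n + 2)) * ∫ x in (-π)..π, cos (x / 2) ^ (2 * n)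

/-- **APH** (250 lines, from KCO, KWA, GPB). Approximation by trigonometric polynomials.
PROOF. `g_n(θ) = (1/Z_n) ∫_{-π}^π g(θ-x) cos^{2n}(x/2) dx = (1/Z_n) ∫_{-π}^{π} g(t) cos^{2n}((θ-t)/2) dt`
(periodicity). By KCO it is `∑_k b_k Re(e^{ikθ} ∫ g(t) e^{-ikt} dt)/Z_n`, the integral vanishes for
even `k` (antiperiodicity of `g`), so `g_n = gp M c` for suitable `M, c`. `|g_n - g| ≤ Λ π/√(2n+2)`
(KWA). `g_n` is `Λ`-Lipschitz, so `|g_n'| ≤ Λ`. `1 + g_n` is an average of translates of `1 + g`, so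
`2 cos α (1+g_n(φ)) ≤ (1+g_n(φ+α)) + (1+g_n(φ-α))`; for a trigonometric polynomial the second
difference divided by `α²` tends to `g_n''` (explicitly: one mode gives the factor
`2(cos kα - 1)/α² → -k²`), so `1 + g_n + g_n'' ≥ 0`. Finally multiply by `1 - δ`:
`1 + (1-δ)(g_n + g_n'') ≥ δ > 0`, `|(1-δ) g_n - g_n| ≤ δ sup|g|`, `|g| ≤ Λ π` (`g(θ+π) = -g(θ)`). -/
def SpecAPH : Prop :=
  ∀ (g : ℝ → ℝ) (Λ : ℝ), 0 ≤ Λ → (∀ θ θ', |g θ - g θ'| ≤ Λ * |θ - θ'|) → (∀ θ, g (θ + π) = - g θ) →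
    (∀ φ α, 2 * cos α * (1 + g φ) ≤ (1 + g (φ + α)) + (1 + g (φ - α))) →
    ∀ ε : ℝ, 0 < ε → ∃ (M : ℕ) (c : ℕ → ℂ), (∀ θ, |gp M c θ - g θ| ≤ ε) ∧
      (∀ θ, |gp M (dc c) θ| ≤ Λ) ∧ (∀ θ, 0 < 1 + gp M c θ + gp M (dc (dc c)) θ)

/-- **UCV** (150 lines). Convergence of `Uf`. For `k` `Λ`-Lipschitz, `|k| ≤ Λ`, `k(θ)+k(θ+π) = 2` put
`H_k(α) = k(θ+α) - m cos α`, `m = (k(θ)-k(θ+π))/2`: `H_k(0) = H_k(π) = 1`, `H_k` is
`2Λ`-Lipschitz (`|m| ≤ Λ`). For `|τ| = 1 - δ < 1` and `α` (or `π - α`) `≤ α₀` the fraction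
`(H_k(α) - τ cos α)/sin α ≥ (δ - 2Λα)/α` exceeds `Λ + 1 ≥` its value at `π/2` (plus 1), so the infimum
over `(0,π)` is the infimum over `[α₀, π-α₀]` (in particular bounded below), `α₀` depending only on
`Λ, δ`; there the fractions of `h_n` and `h` differ by `≤ 2 sup|h_n - h|/sin α₀`. -/
def SpecUCV : Prop :=
  ∀ (h : ℝ → ℝ) (hn : ℕ → ℝ → ℝ) (Λ : ℝ) (e : ℕ → ℝ), 0 ≤ Λ →
    (∀ θ, h θ + h (θ + π) = 2) → (∀ θ θ', |h θ - h θ'| ≤ Λ * |θ - θ'|) → (∀ θ, |h θ| ≤ Λ) →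
    (∀ n θ, hn n θ + hn n (θ + π) = 2) → (∀ n θ θ', |hn n θ - hn n θ'| ≤ Λ * |θ - θ'|) →
    (∀ n θ, |hn n θ| ≤ Λ) → (∀ n θ, |hn n θ - h θ| ≤ e n) → Tendsto e atTop (𝓝 0) →
    ∀ θ, ∀ τ ∈ Ioo (-1 : ℝ) 1, Tendsto (fun n => Uf (hn n) θ τ) atTop (𝓝 (Uf h θ τ))

/-- **UME** (80 lines). Measurability of `Uf` on `|τ| < 1`: bounded below there (same argument as in
UCV), so `{Uf < a} ∩ {|τ|<1}` is the union over `α` of open sets `{fraction_α < a}`, open. -/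
def SpecUME : Prop :=
  ∀ (h : ℝ → ℝ) (Λ : ℝ), 0 ≤ Λ →
    (∀ θ, h θ + h (θ + π) = 2) → (∀ θ θ', |h θ - h θ'| ≤ Λ * |θ - θ'|) → (∀ θ, |h θ| ≤ Λ) →
    (∀ θ, ∀ τ ∈ Ioo (-1 : ℝ) 1, BddBelow (range (fun α : Ioo (0 : ℝ) π =>
      (h (θ + α) - (τ + (h θ - h (θ + π)) / 2) * cos α) / sin α))) ∧
    Measurable (fun x : ℝ × ℝ => (Ioo (-1 : ℝ) 1).indicator (fun τ => Uf h x.1 τ) x.2)

/-- **LIM** (150 lines, from APH, UCV, UME, SMO, CAG, GPB). The inequality for general `h = 1 + g`: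
APH with `ε = 1/(n+1)`: `h_n = 1 + gp M_n c_n`, UCV (`Λ` replaced by a common bound), CAG: `|Uf h_n|`
bounded by a constant `C` on `|τ| < 1`, hence also `|Uf h| ≤ C`; dominated convergence twice
(`|FF| ≤ 2`), SMO. -/
def SpecLIM : Prop :=
  ∀ (g : ℝ → ℝ) (Λ : ℝ), 0 ≤ Λ → (∀ θ θ', |g θ - g θ'| ≤ Λ * |θ - θ'|) → (∀ θ, g (θ + π) = - g θ) →
    (∀ φ α, 2 * cos α * (1 + g φ) ≤ (1 + g (φ + α)) + (1 + g (φ - α))) →
    (∃ C : ℝ, ∀ θ, ∀ τ ∈ Ioo (-1 : ℝ) 1, |Uf (fun t => 1 + g t) θ τ| ≤ C) ∧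
    0 ≤ ∫ θ in (0 : ℝ)..(2 * π), ∫ τ in Ioo (-1 : ℝ) 1, Uf (fun t => 1 + g t) θ τ * FF τ

/-- **DUA** (120 lines, from WB2, HSB). Slices of a planar body of constant width `2` by duality. The
point with `dotu θ = s`, `dotu (θ+π/2) = t` is `(s cos θ - t sin θ, s sin θ + t cos θ)`; its
`dotu (θ+α)` is `s cos α + t sin α`. It lies in `Q` iff `dotu φ ≤ sup2 Q φ` for all `φ` (separation:
HSB (4) in `ℂ`, or `geometric_hahn_banach_point_closed` in `ℝ × ℝ`, a functional is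
`a dotu φ`, `a ≥ 0`). `φ = θ+α`, `α ∈ (0,π)`: `t ≤` fraction of `Uf (sup2 Q) θ τ`; `φ = θ+π+α`:
`-t ≤` fraction of `Uf (sup2 Q) (θ+π) (-τ)`; `φ = θ, θ+π`: true. `s = τ + mid Q θ` is the `dotu θ` of
a point of `Q` (WB2), which gives nonemptiness and `BddBelow`. -/
def SpecDUA : Prop :=
  ∀ Q : Set (ℝ × ℝ), CC Q → (∀ θ, wid Q θ = 2) → ∀ θ, ∀ τ ∈ Ioo (-1 : ℝ) 1,
    -(Uf (sup2 Q) (θ + π) (-τ)) ≤ Uf (sup2 Q) θ τ ∧
    {t : ℝ | ((τ + mid Q θ) * cos θ - t * sin θ, (τ + mid Q θ) * sin θ + t * cos θ) ∈ Q} =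
      Icc (-(Uf (sup2 Q) (θ + π) (-τ))) (Uf (sup2 Q) θ τ)

/-- **SLC** (150 lines, from DUA, RO2, WB2). `∫_Q F(τ_θ) dp = ∫_{-1}^1 (U(θ,τ) + U(θ+π,-τ)) F(τ) dτ`:
rotate by RO2, Fubini (`setIntegral_prod`-like, indicator of the compact set `Q`), translate
`s = τ + mid`, slices for `|τ| > 1` are empty, `|τ| = 1` is a null set. -/
def SpecSLC : Prop :=
  ∀ Q : Set (ℝ × ℝ), CC Q → (∀ θ, wid Q θ = 2) → ∀ θ,
    ∫ p in Q, FF (dotu θ p - mid Q θ) =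
      ∫ τ in Ioo (-1 : ℝ) 1, (Uf (sup2 Q) θ τ + Uf (sup2 Q) (θ + π) (-τ)) * FF τ

/-- **PC1** (120 lines, from SLC, LIM, UME, WB2). Planar theorem for width `2`. `h = sup2 Q`, `g = h - 1`:
Lipschitz, `g(θ+π) = -g(θ)`; class inequality: for `p ∈ Q` with `dotu φ p = h(φ)`:
`h(φ+α) + h(φ-α) ≥ dotu (φ+α) p + dotu (φ-α) p = 2 cos α h(φ)`. `qf Q θ - κ area Q = ∫_Q F(τ_θ)`
(`wid/2 = 1`), SLC; integrate over `θ ∈ (0,2π)`: by periodicity and `τ ↦ -τ` (`FF` even) both terms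
give the integral of LIM: `∫_0^{2π} qf - 2π κ area = 2 ∫∫ U F ≥ 0`, `2π κ = 16/3`. -/
def SpecPC1 : Prop :=
  ∀ Q : Set (ℝ × ℝ), CC Q → (∀ θ, wid Q θ = 2) →
    16 / 3 * area Q ≤ ∫ θ in (0 : ℝ)..(2 * π), qf Q θ

/-- **PCW** (100 lines, from PC1, WB2). P1 for constant width `2r`: scale by `1/r`
(`area (r⁻¹ • Q) = r⁻² area Q`, `qf (r⁻¹ • Q) θ = r⁻² qf Q θ`, `wid = 2`), and for constant `B = r`:
`(∫ √r q)(∫ q/√r) = (∫ q)² ≥ (16/3)² area²`. -/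
def SpecPCW : Prop :=
  ∀ (Q : Set (ℝ × ℝ)) (r : ℝ), CC Q → 0 < r → (∀ θ, wid Q θ = 2 * r) → P1 Q

/-- **FIN** (60 lines, from RED, PCW, MEA). Chakerian's question for bodies of constant width. -/
def SpecFIN : Prop :=
  ∀ (K : Set (EuclideanSpace ℝ (Fin 3))), Convex ℝ K → IsCompact K → (interior K).Nonempty →
    (∃ w : ℝ, ∀ u : EuclideanSpace ℝ (Fin 3), ‖u‖ = 1 → HS K u + HS K (-u) = w) →
    ∀ c : ℝ, HSEC K c → ∀ V1 V2 : ℝ, STEI K V1 V2 →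
      4 * c * V2 ^ 2 ≤ 3 * Real.pi * V1 * (volume K).toReal

end Pool.Agent.Lib.MP_084b88_gt.CW
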