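import Pool.Agent.Lib.MP_084b88_gt.CW.SpecD

/-!
# MP_084b88_gt, project CW, part E: the reduction of Q1 to planar inequalities, general test functions

For every direction `u` the section function `V_1(K ∩ H)` of the planes orthogonal to `u` is tested with
`φ_u(s) = κ (G - W) + W √(1-s²) + V s`, `G, W, V` functions of `u`;
`∫_{-1}^1 φ_u² = (4/3) (G² + τ (G-W)² + V²/2)`, `τ = 3κ²/2 - 1 = 32/(3π²) - 1`.
-/

set_option autoImplicit false

open MeasureTheory Set Real Filter Topology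
open scoped Pointwise InnerProductSpace

namespace Pool.Agent.Lib.MP_084b88_gt.CW

/-- `τ = 3 κ²/2 - 1 = 32/(3π²) - 1 = 0.0808`. -/
noncomputable def taup : ℝ := 3 * kap ^ 2 / 2 - 1

/-- `∫_Q φ(s) dp`, `s` the position in direction `t` normalised to `[-1,1]`. -/
noncomputable def pf (φ : ℝ → ℝ) (Q : Set (ℝ × ℝ)) (t : ℝ) : ℝ :=
  ∫ p in Q, φ ((dotu t p - mid Q t) / (wid Q t / 2))

/-- **NUG** (copy of NUB, NUC). Any continuous test function. -/
def SpecNUG : Prop :=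
  ∀ K : Set E3, CC K → (interior K).Nonempty → ∀ c : ℝ, 0 ≤ c → HSEC K c → ∀ R : O3,
    ∀ B g : ℝ, B = (HS K (col R 2) + HS K (-(col R 2))) / 2 →
      g = (HS K (col R 2) - HS K (-(col R 2))) / 2 → ∀ φ : ℝ → ℝ, Continuous φ →
      c * (∫ s in Ioo (g - B) (g + B), len (sec R s K) * φ ((s - g) / B)) ^ 2 ≤
        B * (∫ s in (-1 : ℝ)..1, φ s ^ 2) * (π * (volume K).toReal)

/-- **NFG** (copy of NFU, NFX). Any continuous test function. -/
def SpecNFG : Prop :=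
  ∀ K : Set E3, CC K → (interior K).Nonempty → ∀ R : O3,
    ∀ B g : ℝ, B = (HS K (col R 2) + HS K (-(col R 2))) / 2 →
      g = (HS K (col R 2) - HS K (-(col R 2))) / 2 → ∀ φ : ℝ → ℝ, Continuous φ →
      (∫ s in Ioo (g - B) (g + B), len (sec R s K) * φ ((s - g) / B)) =
        (1 / 2) * ∫ θ in (0 : ℝ)..π, pf φ (pr (R * cyc θ) K) 0

/-- **RTG** (copy of RE1). The averaged test inequality for the test functions
`φ_u(s) = κ (G u - W u) + W u √(1-s²) + V u s`. -/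
def SpecRTG : Prop :=
  ∀ μ : Measure O3, HaarO μ → ∀ K : Set E3, CC K → (interior K).Nonempty →
    ∀ c : ℝ, 0 < c → HSEC K c → ∀ (G W V : E3 → ℝ), Continuous G → Continuous W → Continuous V →
      π / 2 * (∫ R, (kap * (G (col R 0) - W (col R 0)) * area (pr R K) +
        W (col R 0) * qf (pr R K) 0 + V (col R 0) * mf (pr R K) 0) ∂μ) ≤
        √(4 * π * (volume K).toReal / (3 * c)) *
          ∫ R, √(wid (pr R K) 0 / 2 * (G (col R 0) ^ 2 + taup * (G (col R 0) - W (col R 0)) ^ 2 +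
            V (col R 0) ^ 2 / 2)) ∂μ

/-- **RE2** (from RTG, CAU, LEN, MEA, MEB). Q1 from an averaged inequality. `b = E B`, `x = B/b`.
If `G² + τ (G-W)² + V²/2 ≤ (1+x)²/(4x)` in all directions then the right side of RTG is at most
`a E √(b (1+x)²/4) = a √b`, and the left side is `(4/3) E A + (π/2) E[κ(G-1)A + W(q-κA) + V m]`. -/
def SpecRE2 : Prop :=
  ∀ μ : Measure O3, HaarO μ → ∀ K : Set E3, CC K → (interior K).Nonempty →
    ∀ (G W V : E3 → ℝ), Continuous G → Continuous W → Continuous V →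
    ∀ b : ℝ, b = ∫ R, wid (pr R K) 0 / 2 ∂μ →
    (∀ R : O3, G (col R 0) ^ 2 + taup * (G (col R 0) - W (col R 0)) ^ 2 + V (col R 0) ^ 2 / 2 ≤
      (1 + wid (pr R K) 0 / 2 / b) ^ 2 / (4 * (wid (pr R K) 0 / 2 / b))) →
    0 ≤ (∫ R, (kap * (G (col R 0) - 1) * area (pr R K) +
        W (col R 0) * (qf (pr R K) 0 - kap * area (pr R K)) + V (col R 0) * mf (pr R K) 0) ∂μ) →
    ∀ c : ℝ, Q1 K c

/-- **RE2P** (from RE2, HAA, MEA, MEB, LEN, CAU). Q1 from a planar inequality for all projections,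
`G`, `W` functions of `x = B/b`, `b = V1/4` the mean half width. -/
def SpecRE2P : Prop :=
  ∀ K : Set E3, CC K → (interior K).Nonempty → ∀ V1 V2 : ℝ, STEI K V1 V2 →
    ∀ b0 : ℝ, 0 < b0 → (∀ R : O3, b0 * (V1 / 4) ≤ wid (pr R K) 0 / 2) →
    ∀ G W : ℝ → ℝ, ContinuousOn G (Ici b0) → ContinuousOn W (Ici b0) →
    (∀ x, b0 ≤ x → G x ^ 2 + taup * (G x - W x) ^ 2 ≤ (1 + x) ^ 2 / (4 * x)) →
    (∀ R : O3, 0 ≤ ∫ t in (0 : ℝ)..(2 * π),
      (kap * (G (wid (pr R K) t / 2 / (V1 / 4)) - 1) * area (pr R K) +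
        W (wid (pr R K) t / 2 / (V1 / 4)) * (qf (pr R K) t - kap * area (pr R K)))) →
    ∀ c : ℝ, HSEC K c → 4 * c * V2 ^ 2 ≤ 3 * Real.pi * V1 * (volume K).toReal

end Pool.Agent.Lib.MP_084b88_gt.CW
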