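import Pool.Agent.Lib.MP_084b88_gt.CW.SpecE

/-!
# MP_084b88_gt, project CW, part E2: the reduction of Q1 with a general density, and one direction
-/

set_option autoImplicit false

open MeasureTheory Set Real Filter Topology
open scoped Pointwise InnerProductSpace

namespace Pool.Agent.Lib.MP_084b88_gt.CW

/-- **RT1**. One direction `u = col R 2`, constants `G, W, V`; test function
`κ (G - W) + W √(1-s²) + V s`. -/
def SpecRT1 : Prop :=
  ∀ K : Set E3, CC K → (interior K).Nonempty → ∀ c : ℝ, 0 < c → HSEC K c → ∀ R : O3,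
    ∀ G W V : ℝ,
      (1 / 2) * (∫ θ in (0 : ℝ)..π, (kap * (G - W) * area (pr (R * cyc θ) K) +
        W * qf (pr (R * cyc θ) K) 0 + V * mf (pr (R * cyc θ) K) 0)) ≤
        √(4 * π * (volume K).toReal / (3 * c)) *
          √((HS K (col R 2) + HS K (-(col R 2))) / 2 * (G ^ 2 + taup * (G - W) ^ 2 + V ^ 2 / 2))

/-- **RE2D**. Q1 from an averaged inequality with any density `D ≥ 0`, `E D ≤ 1`. `b = E B`. -/
def SpecRE2D : Prop :=
  ∀ μ : Measure O3, HaarO μ → ∀ K : Set E3, CC K → (interior K).Nonempty →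
    ∀ (G W V D : E3 → ℝ), Continuous G → Continuous W → Continuous V → Continuous D →
    ∀ b : ℝ, b = ∫ R, wid (pr R K) 0 / 2 ∂μ → (∀ R : O3, 0 ≤ D (col R 0)) →
    (∀ R : O3, wid (pr R K) 0 / 2 / b * (G (col R 0) ^ 2 + taup * (G (col R 0) - W (col R 0)) ^ 2 +
      V (col R 0) ^ 2 / 2) ≤ D (col R 0) ^ 2) →
    (∫ R, D (col R 0) ∂μ) ≤ 1 →
    0 ≤ (∫ R, (kap * (G (col R 0) - 1) * area (pr R K) +
        W (col R 0) * (qf (pr R K) 0 - kap * area (pr R K)) + V (col R 0) * mf (pr R K) 0) ∂μ) →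
    ∀ c : ℝ, Q1 K c

/-- **ONE**. Q1 from one single direction `u = col R 2`: if `G² + τ (G-W)² + V²/2 ≤ 1` and
`(4/3) E[area] √(B(u)/b) ≤ (1/2) ∫_0^π (κ (G-W) area + W qf + V mf)(pr (R * cyc θ) K) dθ`, the
projections `pr (R * cyc θ) K` being those along the directions orthogonal to `u`, then Q1. -/
def SpecONE : Prop :=
  ∀ μ : Measure O3, HaarO μ → ∀ K : Set E3, CC K → (interior K).Nonempty →
    ∀ b : ℝ, b = ∫ R, wid (pr R K) 0 / 2 ∂μ → ∀ (R : O3) (G W V : ℝ),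
    G ^ 2 + taup * (G - W) ^ 2 + V ^ 2 / 2 ≤ 1 →
    4 / 3 * (∫ S, area (pr S K) ∂μ) * √((HS K (col R 2) + HS K (-(col R 2))) / 2 / b) ≤
      (1 / 2) * (∫ θ in (0 : ℝ)..π, (kap * (G - W) * area (pr (R * cyc θ) K) +
        W * qf (pr (R * cyc θ) K) 0 + V * mf (pr (R * cyc θ) K) 0)) →
    ∀ c : ℝ, Q1 K c

end Pool.Agent.Lib.MP_084b88_gt.CW
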