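import Pool.Agent.Lib.MP_084b88_gt.CW.SpecE2

/-!
# MP_084b88_gt, project CW, part M: comparison of averages of projection areas

These statements replace the surface area measure. Dictionary (unit `n`):
`|<n,v>| ↦ 2 A_v`; `√(1-<n,u>²) = (1/2) ∫_0^π |<n, v_θ>| dθ` (`v_θ ⟂ u`) `↦ ∫_0^π A_{v_θ} dθ`; `1 ↦ 4 E A`.
-/

set_option autoImplicit false

open MeasureTheory Set Real Filter Topology
open scoped Pointwise InnerProductSpace

namespace Pool.Agent.Lib.MP_084b88_gt.CW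

/-- **AVH**. The mean of `|<u,x>|` over the sphere is `‖x‖/2` (any column). -/
def SpecAVH : Prop :=
  ∀ μ : Measure O3, HaarO μ → ∀ x : E3,
    ∫ R, |⟪col R 2, x⟫_ℝ| ∂μ = ‖x‖ / 2

/-- **CIR**. The mean over the circle orthogonal to `col R 2`. -/
def SpecCIR : Prop :=
  ∀ (R : O3) (x : E3),
    ∫ θ in (0 : ℝ)..π, |⟪col (R * cyc θ) 2, x⟫_ℝ| = 2 * √(‖x‖ ^ 2 - ⟪col R 2, x⟫_ℝ ^ 2)

/-- **MIX** (from HSB, SG3, PST, AVG, HAA, MEA). If a positive combination of the functions `|<v,x>|` is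
everywhere at most another one, the same inequality holds for the corresponding combinations of the
areas of the projections along `v`. `v = col R 2`; the combinations are given by finite measures on
`O3`. -/
def SpecMIX : Prop :=
  ∀ K : Set E3, CC K → (interior K).Nonempty → ∀ ρ1 ρ2 : Measure O3, IsFiniteMeasure ρ1 →
    IsFiniteMeasure ρ2 →
    (∀ x : E3, ∫ R, |⟪col R 2, x⟫_ℝ| ∂ρ1 ≤ ∫ R, |⟪col R 2, x⟫_ℝ| ∂ρ2) →
    ∫ R, area (pr R K) ∂ρ1 ≤ ∫ R, area (pr R K) ∂ρ2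

end Pool.Agent.Lib.MP_084b88_gt.CW
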