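import Pool.Agent.Lib.MP_084b88_gt.CW.SpecB

/-!
# MP_084b88_gt, project CW: module TOE (positivity of the Toeplitz-like sums)
-/

set_option autoImplicit false

open MeasureTheory Set Real Filter Topology
open scoped Pointwise InnerProductSpace

namespace Pool.Agent.Lib.MP_084b88_gt.CW

namespace TOEM

/-- `T_{n}` shifted: `T_{n+2} = 2/((2n+1)(2n+3)(2n+5))`. -/
noncomputable def T2 (n : ℕ) : ℝ := 2 / ((2 * (n : ℝ) + 1) * (2 * n + 3) * (2 * n + 5))

theorem T2_nonneg (n : ℕ) : 0 ≤ T2 n := by unfold T2; positivity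

theorem tau_zero : tau 0 = 0 := by simp [tau]

theorem tau_one : tau 1 = 2 / 15 := by simp [tau]

theorem tau_two (n : ℕ) : tau (n + 2) = T2 (n + 1) - T2 n := by
  unfold tau T2
  rw [if_neg (by omega), if_neg (by omega)]
  push_cast
  have h1 : (2 * (n : ℝ) + 1) ≠ 0 := by positivity
  have h3 : (2 * (n : ℝ) + 3) ≠ 0 := by positivity
  have h5 : (2 * (n : ℝ) + 5) ≠ 0 := by positivity
  have h7 : (2 * (n : ℝ) + 7) ≠ 0 := by positivity
  have e1 : 4 * ((n : ℝ) + 2) ^ 2 - 1 = (2 * n + 3) * (2 * n + 5) := by ring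
  have e2 : 4 * ((n : ℝ) + 2) ^ 2 - 9 = (2 * n + 1) * (2 * n + 7) := by ring
  have e3 : 2 * ((n : ℝ) + 1) + 1 = 2 * n + 3 := by ring
  have e4 : 2 * ((n : ℝ) + 1) + 3 = 2 * n + 5 := by ring
  have e5 : 2 * ((n : ℝ) + 1) + 5 = 2 * n + 7 := by ring
  rw [e1, e2, e3, e4, e5]
  field_simp
  ring

/-- partial sums of `τ`. -/
theorem sum_tau (m : ℕ) : ∑ n ∈ Finset.range (m + 1), tau (n + 1) = T2 m := by
  induction m with
  | zero =>
    rw [Finset.sum_range_one, tau_one]
    unfold T2; norm_num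
  | succ m ih =>
    rw [Finset.sum_range_succ, ih, tau_two]
    ring

/-- `R(m) = ∑_{n<m} (m-n) τ_{n+1}`, `≥ 0`. -/
theorem R_nonneg (m : ℕ) : 0 ≤ ∑ n ∈ Finset.range m, ((m : ℝ) - n) * tau (n + 1) := by
  induction m with
  | zero => simp
  | succ m ih =>
    have e : ∑ n ∈ Finset.range (m + 1), (((m + 1 : ℕ) : ℝ) - n) * tau (n + 1) =
        (∑ n ∈ Finset.range m, ((m : ℝ) - n) * tau (n + 1)) +
          ∑ n ∈ Finset.range (m + 1), tau (n + 1) := by
      have e1 : ∀ n ∈ Finset.range (m + 1), (((m + 1 : ℕ) : ℝ) - n) * tau (n + 1) =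
          ((m : ℝ) - n) * tau (n + 1) + tau (n + 1) := by
        intro n _; push_cast; ring
      rw [Finset.sum_congr rfl e1, Finset.sum_add_distrib, Finset.sum_range_succ (fun n => ((m : ℝ) - n) * tau (n + 1))]
      simp
    rw [e, sum_tau]
    exact add_nonneg ih (T2_nonneg m)

theorem Dd (m : ℕ) : 0 ≤ ∑ i ∈ Finset.range m, ∑ k ∈ Finset.range m,
    ((i : ℝ) + 1) * ((k : ℝ) + 1) * tau (Nat.dist i k) := by
  induction m with
  | zero => simp
  | succ m ih =>
    have hR := R_nonneg m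
    have e0 : ∑ k ∈ Finset.range m, ((k : ℝ) + 1) * tau (Nat.dist m k) =
        ∑ n ∈ Finset.range m, ((m : ℝ) - n) * tau (n + 1) := by
      rw [← Finset.sum_range_reflect]
      apply Finset.sum_congr rfl
      intro n hn
      have hn' := Finset.mem_range.1 hn
      have e1 : Nat.dist m (m - 1 - n) = n + 1 := by
        unfold Nat.dist; omega
      have e2 : ((m - 1 - n : ℕ) : ℝ) + 1 = (m : ℝ) - n := by
        have : (m - 1 - n) + 1 + n = m := by omega
        have h3 := congrArg (fun x : ℕ => (x : ℝ)) this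
        push_cast at h3
        linarith
      rw [e1, e2]
    have e1 : ∑ i ∈ Finset.range (m + 1), ∑ k ∈ Finset.range (m + 1),
        ((i : ℝ) + 1) * ((k : ℝ) + 1) * tau (Nat.dist i k) =
        (∑ i ∈ Finset.range m, ∑ k ∈ Finset.range m,
        ((i : ℝ) + 1) * ((k : ℝ) + 1) * tau (Nat.dist i k)) +
        2 * ((m : ℝ) + 1) * ∑ k ∈ Finset.range m, ((k : ℝ) + 1) * tau (Nat.dist m k) := by
      simp only [Finset.sum_range_succ, Finset.sum_add_distrib]
      have e2 : Nat.dist m m = 0 := by simp [Nat.dist]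
      rw [e2, tau_zero]
      have e3 : ∑ i ∈ Finset.range m, ((i : ℝ) + 1) * ((m : ℝ) + 1) * tau (Nat.dist i m) =
          ((m : ℝ) + 1) * ∑ k ∈ Finset.range m, ((k : ℝ) + 1) * tau (Nat.dist m k) := by
        rw [Finset.mul_sum]
        apply Finset.sum_congr rfl
        intro k _
        rw [Nat.dist_comm]; ring
      have e4 : ∑ k ∈ Finset.range m, ((m : ℝ) + 1) * ((k : ℝ) + 1) * tau (Nat.dist m k) =
          ((m : ℝ) + 1) * ∑ k ∈ Finset.range m, ((k : ℝ) + 1) * tau (Nat.dist m k) := by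
        rw [Finset.mul_sum]
        apply Finset.sum_congr rfl
        intro k _
        ring
      rw [e3, e4]; ring
    rw [e1, e0]
    have hm : (0 : ℝ) ≤ 2 * ((m : ℝ) + 1) := by positivity
    exact add_nonneg ih (mul_nonneg hm hR)

theorem normsq (m : ℕ) (α : ℝ) : ‖Wm m α‖ ^ 2 =
    16 * ∑ i ∈ Finset.range m, ∑ k ∈ Finset.range m,
      ((m : ℝ) - i) * ((m : ℝ) - k) * cos (2 * (Nat.dist i k : ℕ) * α) := by
  have hexp : ∀ j : ℕ, Complex.exp (-(Complex.I * ((2 * j + 1 : ℕ) * (α : ℂ)))) =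
      ((cos ((2 * j + 1 : ℕ) * α) : ℝ) : ℂ) - Complex.I * ((sin ((2 * j + 1 : ℕ) * α) : ℝ) : ℂ) := by
    intro j
    have e : -(Complex.I * ((2 * j + 1 : ℕ) * (α : ℂ))) =
        (-(((2 * j + 1 : ℕ) : ℂ) * (α : ℂ))) * Complex.I := by ring
    rw [e, Complex.exp_mul_I, Complex.cos_neg, Complex.sin_neg]
    push_cast
    ring
  have e1 : Wm m α = 4 * (((∑ j ∈ Finset.range m, ((m : ℝ) - j) * cos ((2 * j + 1 : ℕ) * α) : ℝ) : ℂ)
      - Complex.I * ((∑ j ∈ Finset.range m, ((m : ℝ) - j) * sin ((2 * j + 1 : ℕ) * α) : ℝ) : ℂ)) := by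
    unfold Wm
    congr 1
    simp only [hexp, Complex.ofReal_sum, Finset.mul_sum, ← Finset.sum_sub_distrib]
    apply Finset.sum_congr rfl
    intro j _
    push_cast
    ring
  set A := ∑ j ∈ Finset.range m, ((m : ℝ) - j) * cos ((2 * j + 1 : ℕ) * α) with hA
  set B := ∑ j ∈ Finset.range m, ((m : ℝ) - j) * sin ((2 * j + 1 : ℕ) * α) with hB
  have e2 : ‖Wm m α‖ ^ 2 = 16 * (A ^ 2 + B ^ 2) := by
    rw [e1, ← Complex.normSq_eq_norm_sq, Complex.normSq_apply]
    simp
    ring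
  rw [e2, hA, hB, sq, sq, Finset.sum_mul_sum, Finset.sum_mul_sum, ← Finset.sum_add_distrib]
  congr 1
  apply Finset.sum_congr rfl
  intro i _
  rw [← Finset.sum_add_distrib]
  apply Finset.sum_congr rfl
  intro k _
  have e3 : cos (2 * (Nat.dist i k : ℕ) * α) =
      cos ((2 * i + 1 : ℕ) * α) * cos ((2 * k + 1 : ℕ) * α) +
      sin ((2 * i + 1 : ℕ) * α) * sin ((2 * k + 1 : ℕ) * α) := by
    rw [← cos_sub]
    rcases le_total i k with h | h
    · rw [Nat.dist_eq_sub_of_le h]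
      rw [← cos_neg]
      congr 1
      rw [Nat.cast_sub h]
      push_cast
      ring
    · rw [Nat.dist_comm, Nat.dist_eq_sub_of_le h]
      congr 1
      rw [Nat.cast_sub h]
      push_cast
      ring
  rw [e3]
  ring

end TOEM

open TOEM in
theorem specTOE (hTAU : SpecTAU) : SpecTOE := by
  intro m
  have e : ∀ α : ℝ, ‖Wm m α‖ ^ 2 * (kap * sin α ^ 2 - sin α ^ 3) =
      ∑ i ∈ Finset.range m, ∑ k ∈ Finset.range m,
        (16 * (((m : ℝ) - i) * ((m : ℝ) - k))) *
          (cos (2 * (Nat.dist i k : ℕ) * α) * (kap * sin α ^ 2 - sin α ^ 3)) := by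
    intro α
    rw [normsq, Finset.mul_sum, Finset.sum_mul]
    apply Finset.sum_congr rfl
    intro i _
    rw [Finset.mul_sum, Finset.sum_mul]
    apply Finset.sum_congr rfl
    intro k _
    ring
  simp only [e]
  have hc : ∀ i k : ℕ, Continuous (fun α : ℝ => (16 * (((m : ℝ) - i) * ((m : ℝ) - k))) *
          (cos (2 * (Nat.dist i k : ℕ) * α) * (kap * sin α ^ 2 - sin α ^ 3))) := by
    intro i k
    fun_prop
  rw [intervalIntegral.integral_finsetSum
    (fun i _ => (continuous_finsetSum _ (fun k _ => hc i k)).intervalIntegrable _ _)]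
  have e2 : ∀ i ∈ Finset.range m, ∫ α in (0 : ℝ)..π, ∑ k ∈ Finset.range m,
        (16 * (((m : ℝ) - i) * ((m : ℝ) - k))) *
          (cos (2 * (Nat.dist i k : ℕ) * α) * (kap * sin α ^ 2 - sin α ^ 3)) =
      ∑ k ∈ Finset.range m, 16 * (((m : ℝ) - i) * ((m : ℝ) - k) * tau (Nat.dist i k)) := by
    intro i _
    rw [intervalIntegral.integral_finsetSum (fun k _ => (hc i k).intervalIntegrable _ _)]
    apply Finset.sum_congr rfl
    intro k _
    rw [intervalIntegral.integral_const_mul, hTAU]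
    ring
  rw [Finset.sum_congr rfl e2]
  have h := Dd m
  have e3 : ∑ i ∈ Finset.range m, ∑ k ∈ Finset.range m,
      16 * (((m : ℝ) - i) * ((m : ℝ) - k) * tau (Nat.dist i k)) =
      16 * ∑ i ∈ Finset.range m, ∑ k ∈ Finset.range m,
      ((i : ℝ) + 1) * ((k : ℝ) + 1) * tau (Nat.dist i k) := by
    rw [Finset.mul_sum, ← Finset.sum_range_reflect]
    apply Finset.sum_congr rfl
    intro i hi
    have hi' := Finset.mem_range.1 hi
    rw [Finset.mul_sum, ← Finset.sum_range_reflect]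
    apply Finset.sum_congr rfl
    intro k hk
    have hk' := Finset.mem_range.1 hk
    have e4 : ∀ n : ℕ, n < m → (m : ℝ) - ((m - 1 - n : ℕ) : ℝ) = (n : ℝ) + 1 := by
      intro n hn
      have : (m - 1 - n) + 1 + n = m := by omega
      have h3 := congrArg (fun x : ℕ => (x : ℝ)) this
      push_cast at h3
      linarith
    have e5 : Nat.dist (m - 1 - i) (m - 1 - k) = Nat.dist i k := by
      unfold Nat.dist; omega
    rw [e4 i hi', e4 k hk', e5]
  rw [e3]
  positivity

end Pool.Agent.Lib.MP_084b88_gt.CW
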